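import Mathlib

/-!
Extension of an action on a field to a purely transcendental extension, given by a cocycle.
-/

namespace MP3550b5.RG

section
variable {B : Type} [CommRing B] [IsDomain B] {s : ℕ}

attribute [local instance] MvPolynomial.algebraMvPolynomial

private noncomputable def extI (B : Type) [CommRing B] [IsDomain B] (s : ℕ) :
    FractionRing B →+* FractionRing (MvPolynomial (Fin s) B) :=
  IsFractionRing.lift (A := B) (K := FractionRing B)
    (g := (algebraMap (MvPolynomial (Fin s) B) (FractionRing (MvPolynomial (Fin s) B))).comp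
      MvPolynomial.C) (by
    rw [RingHom.coe_comp]
    exact (IsFractionRing.injective _ _).comp (MvPolynomial.C_injective _ _))

private theorem extI_al (z : B) : extI B s (algebraMap B (FractionRing B) z) =
    algebraMap (MvPolynomial (Fin s) B) _ (MvPolynomial.C z) := by
  unfold extI
  rw [IsFractionRing.lift_algebraMap]
  rfl

/-- the polynomials over the fraction field -/
private noncomputable def extJ (B : Type) [CommRing B] [IsDomain B] (s : ℕ) :
    MvPolynomial (Fin s) (FractionRing B) →+* FractionRing (MvPolynomial (Fin s) B) :=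
  MvPolynomial.eval₂Hom (extI B s) fun k =>
    algebraMap (MvPolynomial (Fin s) B) _ (MvPolynomial.X k)

private theorem extJ_map (f : MvPolynomial (Fin s) B) :
    extJ B s (MvPolynomial.map (algebraMap B (FractionRing B)) f) =
      algebraMap (MvPolynomial (Fin s) B) _ f := by
  have h : ((extJ B s).comp (MvPolynomial.map (algebraMap B (FractionRing B)))) =
      algebraMap (MvPolynomial (Fin s) B) (FractionRing (MvPolynomial (Fin s) B)) := by
    apply MvPolynomial.ringHom_ext
    · intro z
      rw [RingHom.comp_apply, MvPolynomial.map_C, extJ, MvPolynomial.coe_eval₂Hom,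
        MvPolynomial.eval₂_C, extI_al]
    · intro k
      rw [RingHom.comp_apply, MvPolynomial.map_X, extJ, MvPolynomial.coe_eval₂Hom,
        MvPolynomial.eval₂_X]
  exact RingHom.congr_fun h f

private theorem extJ_inj : Function.Injective (extJ B s) := by
  rw [injective_iff_map_eq_zero]
  intro f hf
  obtain ⟨⟨g, ⟨m, hm⟩⟩, h⟩ := IsLocalization.surj
    ((nonZeroDivisors B).map (MvPolynomial.C (σ := Fin s))) f
  obtain ⟨z, hz, rfl⟩ := hm
  simp only [MvPolynomial.algebraMap_def, MvPolynomial.map_C] at h
  have hz0 : z ≠ 0 := nonZeroDivisors.ne_zero hz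
  have h1 := congrArg (extJ B s) h
  rw [map_mul, hf, zero_mul, extJ_map] at h1
  have h2 : g = 0 := IsFractionRing.injective (MvPolynomial (Fin s) B)
    (FractionRing (MvPolynomial (Fin s) B)) (by rw [← h1, map_zero])
  rw [h2, map_zero] at h
  rcases mul_eq_zero.1 h with h3 | h3
  · exact h3
  · exfalso
    rw [MvPolynomial.C_eq_zero] at h3
    exact hz0 (IsFractionRing.injective B (FractionRing B) (by rw [h3, map_zero]))

/-- multiplication of the variables by nonzero constants is injective -/
private theorem extM_inj {L : Type} [Field L] (c : Fin s → L) (hc : ∀ k, c k ≠ 0) :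
    Function.Injective (MvPolynomial.aeval (R := L)
      fun k => MvPolynomial.C (c k) * (MvPolynomial.X k : MvPolynomial (Fin s) L)) := by
  refine Function.LeftInverse.injective (g := MvPolynomial.aeval (R := L)
      fun k => MvPolynomial.C (c k)⁻¹ * (MvPolynomial.X k : MvPolynomial (Fin s) L)) fun f => ?_
  have h : (MvPolynomial.aeval (R := L)
      fun k => MvPolynomial.C (c k)⁻¹ * (MvPolynomial.X k : MvPolynomial (Fin s) L)).comp
      (MvPolynomial.aeval (R := L)
      fun k => MvPolynomial.C (c k) * (MvPolynomial.X k : MvPolynomial (Fin s) L)) =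
      AlgHom.id L _ := by
    apply MvPolynomial.algHom_ext
    intro k
    rw [AlgHom.comp_apply, MvPolynomial.aeval_X, map_mul, MvPolynomial.aeval_X,
      MvPolynomial.algHom_C, MvPolynomial.algebraMap_eq, ← mul_assoc, ← MvPolynomial.C_mul,
      mul_inv_cancel₀ (hc k), MvPolynomial.C_1, one_mul]
    rfl
  exact AlgHom.congr_fun h f

/-- the action on the polynomials -/
private noncomputable def extT (σ : FractionRing B →+* FractionRing B)
    (c : Fin s → FractionRing B) :
    MvPolynomial (Fin s) B →+* FractionRing (MvPolynomial (Fin s) B) :=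
  MvPolynomial.eval₂Hom ((extI B s).comp (σ.comp (algebraMap B (FractionRing B)))) fun k =>
    extI B s (c k) * algebraMap (MvPolynomial (Fin s) B) _ (MvPolynomial.X k)

private theorem extT_eq (σ : FractionRing B →+* FractionRing B) (c : Fin s → FractionRing B) :
    extT σ c = (extJ B s).comp (((MvPolynomial.aeval (R := FractionRing B)
      fun k => MvPolynomial.C (c k) * (MvPolynomial.X k : MvPolynomial (Fin s) (FractionRing B)) :
        MvPolynomial (Fin s) (FractionRing B) →ₐ[FractionRing B]
          MvPolynomial (Fin s) (FractionRing B)) : MvPolynomial (Fin s) (FractionRing B) →+*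
            MvPolynomial (Fin s) (FractionRing B)).comp
      (MvPolynomial.map (σ.comp (algebraMap B (FractionRing B))))) := by
  apply MvPolynomial.ringHom_ext
  · intro z
    rw [extT, MvPolynomial.coe_eval₂Hom, MvPolynomial.eval₂_C, RingHom.comp_apply,
      RingHom.comp_apply, RingHom.comp_apply, RingHom.comp_apply, MvPolynomial.map_C,
      RingHom.coe_coe, MvPolynomial.algHom_C, MvPolynomial.algebraMap_eq, extJ,
      MvPolynomial.coe_eval₂Hom, MvPolynomial.eval₂_C]
    rfl
  · intro k
    rw [extT, MvPolynomial.coe_eval₂Hom, MvPolynomial.eval₂_X, RingHom.comp_apply,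
      RingHom.comp_apply, MvPolynomial.map_X, RingHom.coe_coe,
      MvPolynomial.aeval_X, map_mul, extJ, MvPolynomial.coe_eval₂Hom,
      MvPolynomial.eval₂_C, MvPolynomial.eval₂_X]

private theorem extT_inj (σ : FractionRing B →+* FractionRing B) (c : Fin s → FractionRing B)
    (hc : ∀ k, c k ≠ 0) : Function.Injective (extT σ c) := by
  rw [extT_eq, RingHom.coe_comp, RingHom.coe_comp]
  refine extJ_inj.comp ((extM_inj c hc).comp (MvPolynomial.map_injective _ ?_))
  rw [RingHom.coe_comp]
  exact σ.injective.comp (IsFractionRing.injective B (FractionRing B))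

private noncomputable def extF (σ : FractionRing B →+* FractionRing B)
    (c : Fin s → FractionRing B) (hc : ∀ k, c k ≠ 0) :
    FractionRing (MvPolynomial (Fin s) B) →+* FractionRing (MvPolynomial (Fin s) B) :=
  IsFractionRing.lift (A := MvPolynomial (Fin s) B) (g := extT σ c) (extT_inj σ c hc)

private theorem extF_al (σ : FractionRing B →+* FractionRing B) (c : Fin s → FractionRing B)
    (hc : ∀ k, c k ≠ 0) (f : MvPolynomial (Fin s) B) :
    extF σ c hc (algebraMap (MvPolynomial (Fin s) B) _ f) = extT σ c f := by
  unfold extF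
  rw [IsFractionRing.lift_algebraMap]

private theorem extF_X (σ : FractionRing B →+* FractionRing B) (c : Fin s → FractionRing B)
    (hc : ∀ k, c k ≠ 0) (k : Fin s) :
    extF σ c hc (algebraMap (MvPolynomial (Fin s) B) _ (MvPolynomial.X k)) =
      extI B s (c k) * algebraMap (MvPolynomial (Fin s) B) _ (MvPolynomial.X k) := by
  rw [extF_al, extT, MvPolynomial.coe_eval₂Hom, MvPolynomial.eval₂_X]

private theorem extF_C (σ : FractionRing B →+* FractionRing B) (c : Fin s → FractionRing B)
    (hc : ∀ k, c k ≠ 0) (z : B) :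
    extF σ c hc (algebraMap (MvPolynomial (Fin s) B) _ (MvPolynomial.C z)) =
      extI B s (σ (algebraMap B (FractionRing B) z)) := by
  rw [extF_al, extT, MvPolynomial.coe_eval₂Hom, MvPolynomial.eval₂_C]
  rfl

private theorem extF_I (σ : FractionRing B →+* FractionRing B) (c : Fin s → FractionRing B)
    (hc : ∀ k, c k ≠ 0) (z : FractionRing B) :
    extF σ c hc (extI B s z) = extI B s (σ z) := by
  have h : (extF σ c hc).comp (extI B s) = (extI B s).comp σ := by
    apply IsLocalization.ringHom_ext (nonZeroDivisors B)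
    ext z
    rw [RingHom.comp_apply, RingHom.comp_apply, extI_al, extF_C, RingHom.comp_apply,
      RingHom.comp_apply]
  exact RingHom.congr_fun h z

omit [IsDomain B] in
private theorem extF_ext {f g : FractionRing (MvPolynomial (Fin s) B) →+*
      FractionRing (MvPolynomial (Fin s) B)}
    (h1 : ∀ z : B, f (algebraMap (MvPolynomial (Fin s) B) _ (MvPolynomial.C z)) =
      g (algebraMap (MvPolynomial (Fin s) B) _ (MvPolynomial.C z)))
    (h2 : ∀ k, f (algebraMap (MvPolynomial (Fin s) B) _ (MvPolynomial.X k)) =
      g (algebraMap (MvPolynomial (Fin s) B) _ (MvPolynomial.X k))) : f = g := by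
  apply IsLocalization.ringHom_ext (nonZeroDivisors (MvPolynomial (Fin s) B))
  exact MvPolynomial.ringHom_ext h1 h2

end

/-- Extension of an action on a field to a purely transcendental extension. -/
theorem exists_ext {B : Type} [CommRing B] [IsDomain B] {s : ℕ} {G : Type} [AddCommGroup G]
    (σ : G → (FractionRing B →+* FractionRing B)) (c : G → Fin s → FractionRing B)
    (h0 : ∀ z, σ 0 z = z) (hadd : ∀ g h z, σ (g + h) z = σ g (σ h z)) (hc : ∀ g k, c g k ≠ 0)
    (hcoc : ∀ g h k, c (g + h) k = c g k * σ g (c h k)) :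
    ∃ (ι : FractionRing B →+* FractionRing (MvPolynomial (Fin s) B))
      (τ : G → (FractionRing (MvPolynomial (Fin s) B) ≃+* FractionRing (MvPolynomial (Fin s) B))),
      (∀ z : B, ι (algebraMap B _ z) =
        algebraMap (MvPolynomial (Fin s) B) _ (MvPolynomial.C z)) ∧
      (∀ x, τ 0 x = x) ∧ (∀ g h x, τ (g + h) x = τ g (τ h x)) ∧
      (∀ g z, τ g (ι z) = ι (σ g z)) ∧
      ∀ g k, τ g (algebraMap (MvPolynomial (Fin s) B) _ (MvPolynomial.X k)) =
        ι (c g k) * algebraMap (MvPolynomial (Fin s) B) _ (MvPolynomial.X k) := by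
  have hc0 : ∀ k, c 0 k = 1 := fun k => by
    have h := hcoc 0 0 k
    rw [add_zero, h0] at h
    exact (mul_left_cancel₀ (hc 0 k) (by rw [← h, mul_one])).symm
  have e0 : extF (σ 0) (c 0) (hc 0) = RingHom.id _ := by
    apply extF_ext
    · intro z
      rw [extF_C, h0, extI_al, RingHom.id_apply]
    · intro k
      rw [extF_X, hc0, map_one, one_mul, RingHom.id_apply]
  have e1 : ∀ g h, extF (σ (g + h)) (c (g + h)) (hc (g + h)) =
      (extF (σ g) (c g) (hc g)).comp (extF (σ h) (c h) (hc h)) := by
    intro g h
    apply extF_ext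
    · intro z
      rw [extF_C, hadd, RingHom.comp_apply, extF_C, extF_I]
    · intro k
      rw [extF_X, hcoc, RingHom.comp_apply, extF_X, map_mul, map_mul, extF_I, extF_X]
      ring
  have e2 : ∀ g, (extF (σ g) (c g) (hc g)).comp (extF (σ (-g)) (c (-g)) (hc (-g))) =
      RingHom.id _ := fun g => by
    rw [← e1, ← e0]
    congr 1 <;> rw [add_neg_cancel]
  have e3 : ∀ g, (extF (σ (-g)) (c (-g)) (hc (-g))).comp (extF (σ g) (c g) (hc g)) =
      RingHom.id _ := fun g => by
    rw [← e1, ← e0]
    congr 1 <;> rw [neg_add_cancel]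
  refine ⟨extI B s, fun g => RingEquiv.ofRingHom (extF (σ g) (c g) (hc g))
    (extF (σ (-g)) (c (-g)) (hc (-g))) (e2 g) (e3 g), extI_al, fun x => ?_, fun g h x => ?_,
    fun g z => ?_, fun g k => ?_⟩
  · exact RingHom.congr_fun e0 x
  · exact RingHom.congr_fun (e1 g h) x
  · exact extF_I _ _ (hc g) z
  · exact extF_X _ _ (hc g) k

end MP3550b5.RG
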