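import Mathlib

/-!
Values of fractions at points.
-/

namespace MP3550b5.RG

variable {A F K : Type*} [CommRing A] [Field F] [Algebra A F] [Field K]

/-- The fraction `z` is regular at the point `ev` and has the value `c` there. -/
def Val (ev : A →+* K) (z : F) (c : K) : Prop :=
  ∃ u v : A, ev v ≠ 0 ∧ z * algebraMap A F v = algebraMap A F u ∧ ev u = c * ev v

variable {ev : A →+* K} {z z' : F} {c c' : K}

lemma Val.alg (a : A) : Val ev (algebraMap A F a) (ev a) :=
  ⟨a, 1, by simp, by simp, by simp⟩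

lemma Val.alg' {a : A} (h : ev a = c) : Val ev (algebraMap A F a) c := h ▸ Val.alg a

lemma Val.one : Val ev (1 : F) 1 := ⟨1, 1, by simp, by simp, by simp⟩

lemma Val.zero : Val ev (0 : F) 0 := ⟨0, 1, by simp, by simp, by simp⟩

lemma Val.add (h : Val ev z c) (h' : Val ev z' c') : Val ev (z + z') (c + c') := by
  obtain ⟨u, v, h1, h2, h3⟩ := h
  obtain ⟨u', v', h1', h2', h3'⟩ := h'
  refine ⟨u * v' + u' * v, v * v', by rw [map_mul]; exact mul_ne_zero h1 h1', ?_, ?_⟩
  · rw [map_mul, map_add, map_mul, map_mul, ← h2, ← h2']; ring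
  · rw [map_mul, map_add, map_mul, map_mul, h3, h3']; ring

lemma Val.mul (h : Val ev z c) (h' : Val ev z' c') : Val ev (z * z') (c * c') := by
  obtain ⟨u, v, h1, h2, h3⟩ := h
  obtain ⟨u', v', h1', h2', h3'⟩ := h'
  refine ⟨u * u', v * v', by rw [map_mul]; exact mul_ne_zero h1 h1', ?_, ?_⟩
  · rw [map_mul, map_mul, ← h2, ← h2']; ring
  · rw [map_mul, map_mul, h3, h3']; ring

lemma Val.neg (h : Val ev z c) : Val ev (-z) (-c) := by
  obtain ⟨u, v, h1, h2, h3⟩ := h
  exact ⟨-u, v, h1, by rw [map_neg, ← h2]; ring, by rw [map_neg, h3]; ring⟩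

lemma Val.sub (h : Val ev z c) (h' : Val ev z' c') : Val ev (z - z') (c - c') := by
  rw [sub_eq_add_neg, sub_eq_add_neg]
  exact h.add h'.neg

lemma Val.pow (h : Val ev z c) (n : ℕ) : Val ev (z ^ n) (c ^ n) := by
  induction n with
  | zero => simpa using Val.one
  | succ n ih => rw [pow_succ, pow_succ]; exact ih.mul h

lemma Val.prod {ι : Type*} (s : Finset ι) {f : ι → F} {g : ι → K}
    (h : ∀ i ∈ s, Val ev (f i) (g i)) : Val ev (∏ i ∈ s, f i) (∏ i ∈ s, g i) := by
  classical
  induction s using Finset.induction_on with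
  | empty => simpa using Val.one
  | insert i s hi ih =>
    rw [Finset.prod_insert hi, Finset.prod_insert hi]
    exact (h i (Finset.mem_insert_self _ _)).mul
      (ih fun j hj => h j (Finset.mem_insert_of_mem hj))

lemma Val.sum {ι : Type*} (s : Finset ι) {f : ι → F} {g : ι → K}
    (h : ∀ i ∈ s, Val ev (f i) (g i)) : Val ev (∑ i ∈ s, f i) (∑ i ∈ s, g i) := by
  classical
  induction s using Finset.induction_on with
  | empty => simpa using Val.zero
  | insert i s hi ih =>
    rw [Finset.sum_insert hi, Finset.sum_insert hi]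
    exact (h i (Finset.mem_insert_self _ _)).add
      (ih fun j hj => h j (Finset.mem_insert_of_mem hj))

section frac

variable [IsDomain A] [IsFractionRing A F]

lemma Val.unique (h : Val ev z c) (h' : Val ev z c') : c = c' := by
  obtain ⟨u, v, h1, h2, h3⟩ := h
  obtain ⟨u', v', h1', h2', h3'⟩ := h'
  have h4 : u * v' = u' * v := by
    apply IsFractionRing.injective A F
    rw [map_mul, map_mul, ← h2, ← h2']; ring
  have h5 := congrArg ev h4
  rw [map_mul, map_mul, h3, h3'] at h5
  have h6 : (c - c') * (ev v * ev v') = 0 := by linear_combination h5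
  exact sub_eq_zero.mp ((mul_eq_zero.mp h6).resolve_right (mul_ne_zero h1 h1'))

lemma Val.ne_zero (h : Val ev z c) (hc : c ≠ 0) : z ≠ 0 := by
  rintro rfl
  exact hc (h.unique Val.zero)

lemma Val.inv (h : Val ev z c) (hc : c ≠ 0) : Val ev z⁻¹ c⁻¹ := by
  have hz := h.ne_zero hc
  obtain ⟨u, v, h1, h2, h3⟩ := h
  refine ⟨v, u, by rw [h3]; exact mul_ne_zero hc h1, ?_, ?_⟩
  · rw [← h2]; field_simp
  · rw [h3]; field_simp

lemma Val.div (h : Val ev z c) (h' : Val ev z' c') (hc : c' ≠ 0) :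
    Val ev (z / z') (c / c') := by
  rw [div_eq_mul_inv, div_eq_mul_inv]
  exact h.mul (h'.inv hc)

lemma Val.zpow (h : Val ev z c) (hc : c ≠ 0) (n : ℤ) : Val ev (z ^ n) (c ^ n) := by
  rcases Int.eq_nat_or_neg n with ⟨k, rfl | rfl⟩
  · rw [zpow_natCast, zpow_natCast]; exact h.pow k
  · rw [zpow_neg, zpow_neg, zpow_natCast, zpow_natCast]
    exact (h.pow k).inv (pow_ne_zero _ hc)

/-- A fraction with values zero on a set of points which separates `A` is zero. -/
lemma eq_zero_of_val {ι : Type*} {ev : ι → A →+* K} {S : Set ι}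
    (hsep : ∀ a : A, (∀ i ∈ S, ev i a = 0) → a = 0)
    (h : ∀ i ∈ S, Val (ev i) z 0) : z = 0 := by
  obtain ⟨u, v, hv, rfl⟩ := IsFractionRing.div_surjective (A := A) z
  have hv0 : v ≠ 0 := nonZeroDivisors.ne_zero hv
  have hv1 : algebraMap A F v ≠ 0 := fun h0 => hv0 (IsFractionRing.injective A F (by
    rw [h0, map_zero]))
  have hu : u = 0 := by
    apply hsep
    intro i hi
    have h1 : Val (ev i) (algebraMap A F u) 0 := by
      have h2 := (h i hi).mul (Val.alg (F := F) (ev := ev i) v)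
      rw [zero_mul, div_mul_cancel₀ _ hv1] at h2
      exact h2
    exact (Val.alg (F := F) (ev := ev i) u).unique h1
  rw [hu, map_zero, zero_div]

lemma eq_of_val {ι : Type*} {ev : ι → A →+* K} {S : Set ι}
    (hsep : ∀ a : A, (∀ i ∈ S, ev i a = 0) → a = 0)
    (h : ∀ i ∈ S, ∃ c, Val (ev i) z c ∧ Val (ev i) z' c) : z = z' := by
  apply sub_eq_zero.mp
  refine eq_zero_of_val hsep fun i hi => ?_
  obtain ⟨c, h1, h2⟩ := h i hi
  have := h1.sub h2
  rwa [sub_self] at this

end frac

end MP3550b5.RG
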