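import Mathlib
import Pool.Agent.Lib.MP_3550b5_nt.NSig
import Pool.Agent.Lib.MP_3550b5_nt.RG.Val

/-!
The coordinate ring of a power of the affine curve, and of a trivial torus bundle over it.
-/

namespace MP3550b5.RG

open Pool.Agent.Lib.MP_3550b5_nt WeierstrassCurve.Affine

/-- The equation of the `i`-th factor. -/
noncomputable def curveRel (a b : ℤ) (n : ℕ) (i : Fin n) : MvPolynomial (Fin n ⊕ Fin n) ℚ :=
  MvPolynomial.X (Sum.inr i) ^ 2 - MvPolynomial.X (Sum.inl i) ^ 3 -
    MvPolynomial.C (a : ℚ) * MvPolynomial.X (Sum.inl i) - MvPolynomial.C (b : ℚ)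

/-- The ideal of the `n`-th power of the affine curve. -/
noncomputable def curveIdeal (a b : ℤ) (n : ℕ) : Ideal (MvPolynomial (Fin n ⊕ Fin n) ℚ) :=
  Ideal.span (Set.range (curveRel a b n))

/-- The coordinate ring of the `n`-th power of the affine curve. -/
abbrev Bn (a b : ℤ) (n : ℕ) : Type := MvPolynomial (Fin n ⊕ Fin n) ℚ ⧸ curveIdeal a b n

/-- The abscissa. -/
noncomputable def xB (a b : ℤ) {n : ℕ} (i : Fin n) : Bn a b n :=
  Ideal.Quotient.mk (curveIdeal a b n) (MvPolynomial.X (Sum.inl i))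

/-- The ordinate. -/
noncomputable def yB (a b : ℤ) {n : ℕ} (i : Fin n) : Bn a b n :=
  Ideal.Quotient.mk (curveIdeal a b n) (MvPolynomial.X (Sum.inr i))

variable {a b : ℤ} {n s : ℕ}

lemma algebraMap_Bn (c : ℚ) : algebraMap ℚ (Bn a b n) c =
    Ideal.Quotient.mk (curveIdeal a b n) (MvPolynomial.C c) := rfl

lemma xyB (i : Fin n) : yB a b i ^ 2 = xB a b i ^ 3 + algebraMap ℚ (Bn a b n) a * xB a b i +
    algebraMap ℚ (Bn a b n) b := by
  have h : Ideal.Quotient.mk (curveIdeal a b n) (curveRel a b n i) = 0 :=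
    Ideal.Quotient.eq_zero_iff_mem.mpr (Ideal.subset_span ⟨i, rfl⟩)
  rw [curveRel, map_sub, map_sub, map_sub, map_pow, map_pow, map_mul] at h
  rw [algebraMap_Bn, algebraMap_Bn, xB, yB]
  linear_combination h

section lift

variable {K : Type*} [CommRing K] [Algebra ℚ K]

/-- The universal property of the coordinate ring. -/
noncomputable def liftB (u v : Fin n → K)
    (h : ∀ i, v i ^ 2 = u i ^ 3 + algebraMap ℚ K a * u i + algebraMap ℚ K b) :
    Bn a b n →ₐ[ℚ] K :=
  Ideal.Quotient.liftₐ (curveIdeal a b n) (MvPolynomial.aeval (Sum.elim u v)) (by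
    intro z hz
    have h1 : curveIdeal a b n ≤ RingHom.ker (MvPolynomial.aeval (R := ℚ) (Sum.elim u v)) := by
      rw [curveIdeal, Ideal.span_le]
      rintro _ ⟨i, rfl⟩
      rw [SetLike.mem_coe, RingHom.mem_ker, curveRel]
      simp only [map_sub, map_pow, map_mul, MvPolynomial.aeval_X, MvPolynomial.aeval_C,
        Sum.elim_inl, Sum.elim_inr]
      rw [h i]; ring
    exact h1 hz)

@[simp] lemma liftB_x (u v : Fin n → K)
    (h : ∀ i, v i ^ 2 = u i ^ 3 + algebraMap ℚ K a * u i + algebraMap ℚ K b) (i : Fin n) :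
    liftB u v h (xB a b i) = u i := by
  show MvPolynomial.aeval (Sum.elim u v) (MvPolynomial.X (Sum.inl i)) = u i
  rw [MvPolynomial.aeval_X]; rfl

@[simp] lemma liftB_y (u v : Fin n → K)
    (h : ∀ i, v i ^ 2 = u i ^ 3 + algebraMap ℚ K a * u i + algebraMap ℚ K b) (i : Fin n) :
    liftB u v h (yB a b i) = v i := by
  show MvPolynomial.aeval (Sum.elim u v) (MvPolynomial.X (Sum.inr i)) = v i
  rw [MvPolynomial.aeval_X]; rfl

lemma liftB_mk (u v : Fin n → K)
    (h : ∀ i, v i ^ 2 = u i ^ 3 + algebraMap ℚ K a * u i + algebraMap ℚ K b)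
    (F : MvPolynomial (Fin n ⊕ Fin n) ℚ) :
    liftB u v h (Ideal.Quotient.mk (curveIdeal a b n) F) =
      MvPolynomial.aeval (Sum.elim u v) F := rfl

/-- Homomorphisms are determined by the coordinates. -/
lemma Bn_hom_ext {f g : Bn a b n →+* K} (hx : ∀ i, f (xB a b i) = g (xB a b i))
    (hy : ∀ i, f (yB a b i) = g (yB a b i)) : f = g := by
  have h1 : f.comp (Ideal.Quotient.mk (curveIdeal a b n)) =
      g.comp (Ideal.Quotient.mk (curveIdeal a b n)) := by
    apply MvPolynomial.ringHom_ext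
    · intro c
      have e1 := RingHom.congr_fun (RingHom.ext_rat
        ((f.comp (Ideal.Quotient.mk (curveIdeal a b n))).comp MvPolynomial.C)
        ((g.comp (Ideal.Quotient.mk (curveIdeal a b n))).comp MvPolynomial.C)) c
      exact e1
    · rintro (i | i)
      · exact hx i
      · exact hy i
  exact Ideal.Quotient.ringHom_ext h1

/-- Induction for the coordinate ring. -/
lemma Bn_induction {P : Bn a b n → Prop} (hc : ∀ c : ℚ, P (algebraMap ℚ _ c))
    (hx : ∀ i, P (xB a b i)) (hy : ∀ i, P (yB a b i)) (hadd : ∀ z z', P z → P z' → P (z + z'))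
    (hmul : ∀ z z', P z → P z' → P (z * z')) (z : Bn a b n) : P z := by
  obtain ⟨F, rfl⟩ := Ideal.Quotient.mk_surjective z
  induction F using MvPolynomial.induction_on with
  | C c => exact hc c
  | add F G hF hG => rw [map_add]; exact hadd _ _ hF hG
  | mul_X F i hF =>
    rw [map_mul]
    apply hmul _ _ hF
    rcases i with i | i
    · exact hx i
    · exact hy i

end lift

/-- The equation of the curve at a rational point. -/
lemma ptY_sq {T : (curve a b).Point} (h : T ≠ 0) :
    ptY T ^ 2 = ptX T ^ 3 + algebraMap ℚ ℚ (a : ℚ) * ptX T + algebraMap ℚ ℚ (b : ℚ) := by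
  obtain ⟨hh, e⟩ := exists_eq_some T h
  have h1 := (equation_iff _ _).mp hh.1
  rw [show (curve a b).a₁ = 0 from rfl, show (curve a b).a₂ = 0 from rfl,
    show (curve a b).a₃ = 0 from rfl, show (curve a b).a₄ = (a : ℚ) from rfl,
    show (curve a b).a₆ = (b : ℚ) from rfl] at h1
  rw [show algebraMap ℚ ℚ (a : ℚ) = (a : ℚ) from rfl, show algebraMap ℚ ℚ (b : ℚ) = (b : ℚ) from rfl]
  linear_combination h1

/-- The value of a function at a point of the `n`-th power. -/
noncomputable def evB (T : Fin n → (curve a b).Point) (h : ∀ i, T i ≠ 0) : Bn a b n →ₐ[ℚ] ℚ :=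
  liftB (fun i => ptX (T i)) (fun i => ptY (T i)) fun i => ptY_sq (h i)

@[simp] lemma evB_x (T : Fin n → (curve a b).Point) (h : ∀ i, T i ≠ 0) (i : Fin n) :
    evB T h (xB a b i) = ptX (T i) := liftB_x _ _ _ _

@[simp] lemma evB_y (T : Fin n → (curve a b).Point) (h : ∀ i, T i ≠ 0) (i : Fin n) :
    evB T h (yB a b i) = ptY (T i) := liftB_y _ _ _ _

/-- The coordinate ring of the torus bundle. -/
abbrev An (a b : ℤ) (n s : ℕ) : Type := MvPolynomial (Fin s) (Bn a b n)

/-- The function field of the base. -/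
abbrev Ln (a b : ℤ) (n : ℕ) : Type := FractionRing (Bn a b n)

/-- The function field of the total space. -/
abbrev Fn (a b : ℤ) (n s : ℕ) : Type := FractionRing (An a b n s)

/-- The fibre coordinates: `w_k (T) = prod_i (dn (T_i) / dn (T_i - X_ik)) ^ m`. -/
noncomputable def wv (m : ℕ) (X : Fin n → Fin s → (curve a b).Point)
    (T : Fin n → (curve a b).Point) (k : Fin s) : ℚ :=
  ∏ i, ((dn (T i) : ℚ) / dn (T i - X i k)) ^ m

/-- The value of a function on the torus bundle at a point. -/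
noncomputable def evA (m : ℕ) (X : Fin n → Fin s → (curve a b).Point)
    (T : Fin n → (curve a b).Point) (h : ∀ i, T i ≠ 0) : An a b n s →+* ℚ :=
  MvPolynomial.eval₂Hom (evB T h : Bn a b n →+* ℚ) (wv m X T)

@[simp] lemma evA_C (m : ℕ) (X : Fin n → Fin s → (curve a b).Point)
    (T : Fin n → (curve a b).Point) (h : ∀ i, T i ≠ 0) (z : Bn a b n) :
    evA m X T h (MvPolynomial.C z) = evB T h z := by
  rw [evA, MvPolynomial.coe_eval₂Hom, MvPolynomial.eval₂_C]; rfl

@[simp] lemma evA_X (m : ℕ) (X : Fin n → Fin s → (curve a b).Point)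
    (T : Fin n → (curve a b).Point) (h : ∀ i, T i ≠ 0) (k : Fin s) :
    evA m X T h (MvPolynomial.X k) = wv m X T k := by
  rw [evA, MvPolynomial.coe_eval₂Hom, MvPolynomial.eval₂_X]

end MP3550b5.RG
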