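import Mathlib
import Pool.Agent.Lib.MP_3550b5_nt.RG.Defs

/-!
The coordinate ring of a power of the affine curve is a domain.
-/

namespace MP3550b5.RG

open Pool.Agent.Lib.MP_3550b5_nt

private theorem exists_step (B : Type) [CommRing B] [IsDomain B] (α β : B) :
    ∃ (B' : Type) (_ : CommRing B') (_ : IsDomain B') (j : B →+* B') (x y : B'),
      y ^ 2 = x ^ 3 + j α * x + j β ∧
      ∀ (K : Type) [CommRing K] (f : B →+* K) (u v : K), v ^ 2 = u ^ 3 + f α * u + f β →
        ∃ g : B' →+* K, (∀ c, g (j c) = f c) ∧ g x = u ∧ g y = v := by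
  obtain ⟨W, hW⟩ : ∃ W : WeierstrassCurve.Affine B, W = ⟨0, 0, 0, α, β⟩ := ⟨_, rfl⟩
  have e1 : W.a₁ = 0 := by rw [hW]
  have e2 : W.a₂ = 0 := by rw [hW]
  have e3 : W.a₃ = 0 := by rw [hW]
  have e4 : W.a₄ = α := by rw [hW]
  have e6 : W.a₆ = β := by rw [hW]
  have hpol : W.polynomial = Polynomial.X ^ 2 - Polynomial.C (Polynomial.X ^ 3 +
      Polynomial.C α * Polynomial.X + Polynomial.C β) := by
    unfold WeierstrassCurve.Affine.polynomial
    rw [e1, e2, e3, e4, e6]
    simp
  refine ⟨W.CoordinateRing, inferInstance, inferInstance,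
    (AdjoinRoot.of W.polynomial).comp Polynomial.C, AdjoinRoot.of W.polynomial Polynomial.X,
    AdjoinRoot.root W.polynomial, ?_, ?_⟩
  · have h1 := AdjoinRoot.eval₂_root W.polynomial
    rw [hpol, Polynomial.eval₂_sub, Polynomial.eval₂_pow, Polynomial.eval₂_X,
      Polynomial.eval₂_C, ← hpol, map_add, map_add, map_mul, map_pow] at h1
    rw [RingHom.comp_apply, RingHom.comp_apply]
    exact sub_eq_zero.1 h1
  · intro K _ f u v h
    have hz : Polynomial.eval₂ (Polynomial.eval₂RingHom f u) v W.polynomial = 0 := by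
      rw [hpol, Polynomial.eval₂_sub, Polynomial.eval₂_pow, Polynomial.eval₂_X,
        Polynomial.eval₂_C, map_add, map_add, map_mul, map_pow]
      simp only [Polynomial.coe_eval₂RingHom, Polynomial.eval₂_X, Polynomial.eval₂_C]
      rw [h, sub_self]
    refine ⟨AdjoinRoot.lift (Polynomial.eval₂RingHom f u) v hz, fun c => ?_, ?_, ?_⟩
    · rw [RingHom.comp_apply, AdjoinRoot.lift_of, Polynomial.coe_eval₂RingHom,
        Polynomial.eval₂_C]
    · rw [AdjoinRoot.lift_of, Polynomial.coe_eval₂RingHom, Polynomial.eval₂_X]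
    · rw [AdjoinRoot.lift_root]

private theorem exists_dom (a b : ℤ) (n : ℕ) :
    ∃ (B : Type) (_ : CommRing B) (_ : Algebra ℚ B) (_ : IsDomain B) (u v : Fin n → B),
      (∀ i, v i ^ 2 = u i ^ 3 + algebraMap ℚ B a * u i + algebraMap ℚ B b) ∧
      ∀ (K : Type) [CommRing K] [Algebra ℚ K] (u' v' : Fin n → K),
        (∀ i, v' i ^ 2 = u' i ^ 3 + algebraMap ℚ K a * u' i + algebraMap ℚ K b) →
        ∃ f : B →+* K, (∀ i, f (u i) = u' i) ∧ ∀ i, f (v i) = v' i := by
  induction n with
  | zero =>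
    exact ⟨ℚ, inferInstance, inferInstance, inferInstance, Fin.elim0, Fin.elim0,
      fun i => i.elim0, fun K _ _ u' v' _ => ⟨algebraMap ℚ K, fun i => i.elim0, fun i => i.elim0⟩⟩
  | succ n ih =>
    obtain ⟨B, _, _, _, u, v, huv, hB⟩ := ih
    obtain ⟨B', _, _, j, x, y, hxy, hlift⟩ := exists_step B (algebraMap ℚ B a) (algebraMap ℚ B b)
    refine ⟨B', inferInstance, (j.comp (algebraMap ℚ B)).toAlgebra, inferInstance,
      Fin.cons x (fun i => j (u i)), Fin.cons y (fun i => j (v i)), ?_, ?_⟩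
    · intro i
      refine Fin.cases ?_ (fun i => ?_) i
      · rw [Fin.cons_zero, Fin.cons_zero]
        exact hxy
      · rw [Fin.cons_succ, Fin.cons_succ, ← map_pow, huv i, map_add, map_add, map_mul, map_pow]
        rfl
    · intro K _ _ u' v' h
      obtain ⟨f, hf1, hf2⟩ := hB K (fun i => u' i.succ) (fun i => v' i.succ) fun i => h i.succ
      have hf : ∀ c : ℚ, f (algebraMap ℚ B c) = algebraMap ℚ K c := fun c =>
        RingHom.congr_fun (RingHom.ext_rat (f.comp (algebraMap ℚ B)) (algebraMap ℚ K)) c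
      obtain ⟨g, hg, hgx, hgy⟩ := hlift K f (u' 0) (v' 0) (by
        rw [hf, hf]
        exact h 0)
      refine ⟨g, fun i => ?_, fun i => ?_⟩
      · refine Fin.cases ?_ (fun i => ?_) i
        · rw [Fin.cons_zero, hgx]
        · rw [Fin.cons_succ, hg, hf1]
      · refine Fin.cases ?_ (fun i => ?_) i
        · rw [Fin.cons_zero, hgy]
        · rw [Fin.cons_succ, hg, hf2]

/-- The coordinate ring of a power of the affine curve is a domain. -/
instance Bn_isDomain (a b : ℤ) (n : ℕ) : IsDomain (Bn a b n) := by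
  obtain ⟨B, _, _, _, u, v, huv, hB⟩ := exists_dom a b n
  obtain ⟨g, hg1, hg2⟩ := hB (Bn a b n) (xB a b) (yB a b) xyB
  have hid : (g.comp ((liftB u v huv : Bn a b n →ₐ[ℚ] B) : Bn a b n →+* B)) =
      RingHom.id (Bn a b n) := by
    refine Bn_hom_ext (fun i => ?_) (fun i => ?_)
    · rw [RingHom.comp_apply, RingHom.id_apply]
      have e1 : ((liftB u v huv : Bn a b n →ₐ[ℚ] B) : Bn a b n →+* B) (xB a b i) = u i :=
        liftB_x u v huv i
      rw [e1, hg1]
    · rw [RingHom.comp_apply, RingHom.id_apply]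
      have e1 : ((liftB u v huv : Bn a b n →ₐ[ℚ] B) : Bn a b n →+* B) (yB a b i) = v i :=
        liftB_y u v huv i
      rw [e1, hg2]
  have hinj : Function.Injective ((liftB u v huv : Bn a b n →ₐ[ℚ] B) : Bn a b n →+* B) := by
    intro z z' h
    have e1 := RingHom.congr_fun hid z
    have e2 := RingHom.congr_fun hid z'
    rw [RingHom.comp_apply, RingHom.id_apply] at e1 e2
    rw [← e1, ← e2, h]
  exact hinj.isDomain _

end MP3550b5.RG
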