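import Mathlib
import Pool.Agent.Lib.MP_3550b5_nt.RG.Dom

/-!
Quotients of polynomials of bounded degree; exceptional points; translations and their cocycles.
-/

namespace MP3550b5.RG

open Pool.Agent.Lib.MP_3550b5_nt WeierstrassCurve.Affine

variable {a b : ℤ} {n s : ℕ}

/-- The class of a polynomial in the coordinate ring. -/
noncomputable abbrev mkB (a b : ℤ) (n : ℕ) (N : MvPolynomial (Fin n ⊕ Fin n) ℚ) : Bn a b n :=
  Ideal.Quotient.mk (curveIdeal a b n) N

/-- `z` is a quotient of polynomials of degree at most `C` in each variable, with a denominator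
which does not vanish on `S`. -/
def Rep (C : ℕ) (S : Set (Fin n → (curve a b).Point)) (z : Ln a b n) : Prop :=
  ∃ N D : MvPolynomial (Fin n ⊕ Fin n) ℚ, (∀ j, N.degreeOf j ≤ C) ∧ (∀ j, D.degreeOf j ≤ C) ∧
    z * algebraMap (Bn a b n) (Ln a b n) (mkB a b n D) =
      algebraMap (Bn a b n) (Ln a b n) (mkB a b n N) ∧
    ∀ T ∈ S, ∀ h : ∀ i, T i ≠ 0, evB T h (mkB a b n D) ≠ 0

/-- The exceptional points for the translation by `2 g` (and the fibre coordinates given by the
points `2 X' k`). -/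
def Ex (X' : Fin s → (curve a b).Point) (g : (curve a b).Point) : Set (curve a b).Point :=
  {0, g + g, -(g + g)} ∪ Set.range (fun k => X' k + X' k) ∪
    Set.range (fun k => X' k + X' k - (g + g)) ∪
    Set.range (fun k => g - X' k) ∪ Set.range (fun k => X' k - g)

/-- The translate `T + 2 γ`. -/
def sh (T γ : Fin n → (curve a b).Point) : Fin n → (curve a b).Point :=
  fun i => T i + (γ i + γ i)

/-- General position of `T` with respect to the translation by `2 γ`. -/
def GP (X' : Fin n → Fin s → (curve a b).Point) (γ T : Fin n → (curve a b).Point) : Prop :=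
  ∀ i, T i ∉ Ex (X' i) (γ i)

lemma GP.ne {X' : Fin n → Fin s → (curve a b).Point} {γ T : Fin n → (curve a b).Point}
    (h : GP X' γ T) (i : Fin n) : T i ≠ 0 := by
  intro h0
  exact h i (by
    rw [h0]
    exact Or.inl (Or.inl (Or.inl (Or.inl (Or.inl rfl)))))

lemma GP.sh_ne {X' : Fin n → Fin s → (curve a b).Point} {γ T : Fin n → (curve a b).Point}
    (h : GP X' γ T) (i : Fin n) : sh T γ i ≠ 0 := by
  intro h0
  exact h i (by
    rw [show T i = -(γ i + γ i) from eq_neg_of_add_eq_zero_left h0]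
    exact Or.inl (Or.inl (Or.inl (Or.inl (Or.inr (Or.inr rfl))))))

/-- The points `2 X'`. -/
def dbl (X' : Fin n → Fin s → (curve a b).Point) : Fin n → Fin s → (curve a b).Point :=
  fun i k => X' i k + X' i k

/-- The translations by doubles of points of the good group, acting on the function field of the
base, and the factors by which the fibre coordinates change. -/
structure Act (p : ℕ) [Fact p.Prime] (a b : ℤ) (n s m : ℕ)
    (X' : Fin n → Fin s → (curve a b).Point) where
  /-- the translation by `2 γ` -/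
  σ : (Fin n → goodGroup p a b) → (Ln a b n →+* Ln a b n)
  /-- the factors -/
  c : (Fin n → goodGroup p a b) → Fin s → Ln a b n
  σ_zero : ∀ z, σ 0 z = z
  σ_add : ∀ γ δ z, σ (γ + δ) z = σ γ (σ δ z)
  c_ne : ∀ γ k, c γ k ≠ 0
  c_add : ∀ γ δ k, c (γ + δ) k = c γ k * σ γ (c δ k)
  σ_val : ∀ (γ : Fin n → goodGroup p a b) (T : Fin n → (curve a b).Point)
    (hT : GP X' (fun i => (γ i : (curve a b).Point)) T) (z : Ln a b n) (d : ℚ),
    Val (evB (sh T fun i => (γ i : (curve a b).Point)) hT.sh_ne : Bn a b n →+* ℚ) z d →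
      Val (evB T hT.ne : Bn a b n →+* ℚ) (σ γ z) d
  c_val : ∀ (γ : Fin n → goodGroup p a b) (T : Fin n → (curve a b).Point)
    (_ : ∀ i, T i ∈ goodGroup p a b)
    (hT : GP X' (fun i => (γ i : (curve a b).Point)) T) (k : Fin s),
    Val (evB T hT.ne : Bn a b n →+* ℚ) (c γ k)
      (wv m (dbl X') (sh T fun i => (γ i : (curve a b).Point)) k / wv m (dbl X') T k)
  /-- a bound for the degrees -/
  deg : ℕ
  rep_x : ∀ γ (i : Fin n), Rep deg {T | GP X' (fun i => (γ i : (curve a b).Point)) T}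
    (σ γ (algebraMap (Bn a b n) (Ln a b n) (xB a b i)))
  rep_y : ∀ γ (i : Fin n), Rep deg {T | GP X' (fun i => (γ i : (curve a b).Point)) T}
    (σ γ (algebraMap (Bn a b n) (Ln a b n) (yB a b i)))
  rep_c : ∀ γ k, Rep deg {T | GP X' (fun i => (γ i : (curve a b).Point)) T} (c γ k)

section rep

variable {C C' : ℕ} {S : Set (Fin n → (curve a b).Point)} {z z' : Ln a b n}

lemma Rep.mono (h : Rep C S z) (hC : C ≤ C') : Rep C' S z := by
  obtain ⟨N, D, h1, h2, h3, h4⟩ := h
  exact ⟨N, D, fun j => (h1 j).trans hC, fun j => (h2 j).trans hC, h3, h4⟩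

/-- Polynomials. -/
lemma Rep.poly (N : MvPolynomial (Fin n ⊕ Fin n) ℚ) (hN : ∀ j, N.degreeOf j ≤ C) :
    Rep C S (algebraMap (Bn a b n) (Ln a b n) (mkB a b n N)) := by
  refine ⟨N, 1, hN, fun j => by rw [MvPolynomial.degreeOf_one]; exact Nat.zero_le _, ?_, ?_⟩
  · rw [show mkB a b n 1 = 1 from map_one _, map_one, mul_one]
  · intro T _ h
    rw [show mkB a b n 1 = 1 from map_one _, map_one]
    exact one_ne_zero

lemma Rep.const (c : ℚ) : Rep C S (algebraMap ℚ (Ln a b n) c) := by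
  have h := Rep.poly (a := a) (b := b) (n := n) (C := C) (S := S) (MvPolynomial.C c)
    fun j => by rw [MvPolynomial.degreeOf_C]; exact Nat.zero_le _
  rw [mkB, ← algebraMap_Bn, ← IsScalarTower.algebraMap_apply] at h
  exact h

private lemma rep_deg {N D : MvPolynomial (Fin n ⊕ Fin n) ℚ} (hN : ∀ j, N.degreeOf j ≤ C)
    (hD : ∀ j, D.degreeOf j ≤ C') (j : Fin n ⊕ Fin n) : (N * D).degreeOf j ≤ C + C' :=
  (MvPolynomial.degreeOf_mul_le _ _ _).trans (Nat.add_le_add (hN j) (hD j))

private lemma mkB_mul (N D : MvPolynomial (Fin n ⊕ Fin n) ℚ) :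
    mkB a b n (N * D) = mkB a b n N * mkB a b n D := map_mul _ _ _

private lemma mkB_add (N D : MvPolynomial (Fin n ⊕ Fin n) ℚ) :
    mkB a b n (N + D) = mkB a b n N + mkB a b n D := map_add _ _ _

lemma Rep.mul (h : Rep C S z) (h' : Rep C' S z') : Rep (C + C') S (z * z') := by
  obtain ⟨N, D, h1, h2, h3, h4⟩ := h
  obtain ⟨N', D', h1', h2', h3', h4'⟩ := h'
  refine ⟨N * N', D * D', rep_deg h1 h1', rep_deg h2 h2', ?_, ?_⟩
  · rw [mkB_mul, mkB_mul, map_mul, map_mul, ← h3, ← h3']
    ring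
  · intro T hT h
    rw [mkB_mul, map_mul]
    exact mul_ne_zero (h4 T hT h) (h4' T hT h)

lemma Rep.add (h : Rep C S z) (h' : Rep C' S z') : Rep (C + C') S (z + z') := by
  obtain ⟨N, D, h1, h2, h3, h4⟩ := h
  obtain ⟨N', D', h1', h2', h3', h4'⟩ := h'
  refine ⟨N * D' + D * N', D * D', fun j => ?_, rep_deg h2 h2', ?_, ?_⟩
  · exact (MvPolynomial.degreeOf_add_le _ _ _).trans
      (max_le (rep_deg h1 h2' j) (rep_deg h2 h1' j))
  · rw [mkB_mul, mkB_add, mkB_mul, mkB_mul, map_mul, map_add, map_mul, map_mul, ← h3, ← h3']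
    ring
  · intro T hT h
    rw [mkB_mul, map_mul]
    exact mul_ne_zero (h4 T hT h) (h4' T hT h)

lemma Rep.neg (h : Rep C S z) : Rep C S (-z) := by
  obtain ⟨N, D, h1, h2, h3, h4⟩ := h
  refine ⟨MvPolynomial.C (-1) * N, D, fun j => ?_, h2, ?_, h4⟩
  · refine (MvPolynomial.degreeOf_mul_le _ _ _).trans ?_
    rw [MvPolynomial.degreeOf_C, Nat.zero_add]
    exact h1 j
  · rw [show (MvPolynomial.C (-1) * N : MvPolynomial (Fin n ⊕ Fin n) ℚ) = -N by
      rw [map_neg, map_one, neg_one_mul]]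
    rw [show mkB a b n (-N) = -mkB a b n N from map_neg _ _, map_neg, ← h3]
    ring

lemma Rep.sub (h : Rep C S z) (h' : Rep C' S z') : Rep (C + C') S (z - z') := by
  rw [sub_eq_add_neg]
  exact h.add h'.neg

private lemma rep_one : Rep 0 S (1 : Ln a b n) := by
  have h := Rep.poly (a := a) (b := b) (n := n) (C := 0) (S := S) 1
    fun j => by rw [MvPolynomial.degreeOf_one]
  rw [show mkB a b n 1 = 1 from map_one _, map_one] at h
  exact h

lemma Rep.pow (h : Rep C S z) (k : ℕ) : Rep (k * C) S (z ^ k) := by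
  induction k with
  | zero =>
    rw [pow_zero, Nat.zero_mul]
    exact rep_one
  | succ k ih =>
    rw [pow_succ, Nat.succ_mul]
    exact ih.mul h

/-- Quotients, when the denominator has nonzero values on `S`. -/
lemma Rep.div (h : Rep C S z) (h' : Rep C' S z')
    (hne : ∀ T ∈ S, ∀ h : ∀ i, T i ≠ 0, ¬ Val (evB T h : Bn a b n →+* ℚ) z' 0) (hz' : z' ≠ 0) :
    Rep (C + C') S (z / z') := by
  obtain ⟨N, D, h1, h2, h3, h4⟩ := h
  obtain ⟨N', D', h1', h2', h3', h4'⟩ := h'
  refine ⟨N * D', D * N', rep_deg h1 h2', rep_deg h2 h1', ?_, ?_⟩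
  · rw [mkB_mul, mkB_mul, map_mul, map_mul, ← h3, ← h3']
    field_simp
  · intro T hT h
    rw [mkB_mul, map_mul]
    refine mul_ne_zero (h4 T hT h) fun h0 => ?_
    refine hne T hT h ⟨mkB a b n N', mkB a b n D', h4' T hT h, h3', ?_⟩
    rw [zero_mul]
    exact h0

lemma Rep.prod {ι : Type*} (t : Finset ι) {f : ι → Ln a b n} (h : ∀ i ∈ t, Rep C S (f i)) :
    Rep (t.card * C) S (∏ i ∈ t, f i) := by
  classical
  induction t using Finset.induction_on with
  | empty =>
    rw [Finset.prod_empty, Finset.card_empty, Nat.zero_mul]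
    exact rep_one
  | insert i t hi ih =>
    rw [Finset.prod_insert hi, Finset.card_insert_of_notMem hi, Nat.succ_mul, mul_comm (f i)]
    exact (ih fun j hj => h j (Finset.mem_insert_of_mem hj)).mul
      (h i (Finset.mem_insert_self _ _))

end rep

end MP3550b5.RG
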