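import Mathlib
import Pool.Agent.Lib.MP_3550b5_nt.RG.Rep
import Pool.Agent.Lib.MP_3550b5_nt.RG.Ext
import Pool.Agent.Lib.MP_3550b5_nt.ZE.ZEst

/-!
The data of the zero estimate.
-/

namespace MP3550b5.RG

open Pool.Agent.Lib.MP_3550b5_nt WeierstrassCurve.Affine

variable {p : ℕ} [hp : Fact p.Prime] {a b : ℤ} {n s m : ℕ}

lemma dn_ne_zero {T : (curve a b).Point} (h : T ≠ 0) : (dn T : ℚ) ≠ 0 := by
  obtain ⟨A, B, D, hrep, hD, hc⟩ := exists_rep h
  have h1 := dn_of_rep hrep hD hc
  have h2 : dn T ≠ 0 := by omega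
  exact_mod_cast h2

lemma wv_ne_zero {X : Fin n → Fin s → (curve a b).Point} {T : Fin n → (curve a b).Point}
    (h : ∀ i, T i ≠ 0) {k : Fin s} (h' : ∀ i, T i ≠ X i k) : wv m X T k ≠ 0 := by
  rw [wv, Finset.prod_ne_zero_iff]
  intro i _
  apply pow_ne_zero
  apply div_ne_zero (dn_ne_zero (h i))
  apply dn_ne_zero
  rw [sub_ne_zero]
  exact h' i

lemma GP.ne_X {X' : Fin n → Fin s → (curve a b).Point} {γ T : Fin n → (curve a b).Point}
    (h : GP X' γ T) (i : Fin n) (k : Fin s) : T i ≠ dbl X' i k := by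
  intro h0
  exact h i (by
    rw [h0]
    exact Or.inl (Or.inl (Or.inl (Or.inr ⟨k, rfl⟩))))

lemma GP.sh_ne_X {X' : Fin n → Fin s → (curve a b).Point} {γ T : Fin n → (curve a b).Point}
    (h : GP X' γ T) (i : Fin n) (k : Fin s) : sh T γ i ≠ dbl X' i k := by
  intro h0
  exact h i (by
    rw [show T i = X' i k + X' i k - (γ i + γ i) from eq_sub_of_add_eq h0]
    exact Or.inl (Or.inl (Or.inr ⟨k, rfl⟩)))

section lift

variable {ι : Ln a b n →+* Fn a b n s}
  (hι : ∀ z : Bn a b n, ι (algebraMap _ _ z) = algebraMap (An a b n s) _ (MvPolynomial.C z))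

include hι

/-- Values on the base are values on the total space. -/
lemma val_lift {X : Fin n → Fin s → (curve a b).Point} {T : Fin n → (curve a b).Point}
    {h : ∀ i, T i ≠ 0} {z : Ln a b n} {d : ℚ} (hz : Val (evB T h : Bn a b n →+* ℚ) z d) :
    Val (A := An a b n s) (evA m X T h) (ι z) d := by
  obtain ⟨u, v, h1, h2, h3⟩ := hz
  refine ⟨MvPolynomial.C u, MvPolynomial.C v, ?_, ?_, ?_⟩
  · rw [evA_C]; exact h1
  · rw [← hι, ← hι, ← map_mul, h2]
  · rw [evA_C, evA_C]; exact h3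

variable {X' : Fin n → Fin s → (curve a b).Point} (𝒜 : Act p a b n s m X')
  {τ : (Fin n → goodGroup p a b) → (Fn a b n s ≃+* Fn a b n s)}
  (hτι : ∀ g z, τ g (ι z) = ι (𝒜.σ g z))
  (hτX : ∀ g k, τ g (algebraMap (An a b n s) _ (MvPolynomial.X k)) =
    ι (𝒜.c g k) * algebraMap (An a b n s) _ (MvPolynomial.X k))

include hτι hτX

/-- The value of a translate. -/
lemma val_tau {γ : Fin n → goodGroup p a b} {T : Fin n → (curve a b).Point}
    (hTg : ∀ i, T i ∈ goodGroup p a b) (hT : GP X' (fun i => (γ i : (curve a b).Point)) T)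
    (f : An a b n s) :
    Val (A := An a b n s) (evA m (dbl X') T hT.ne) (τ γ (algebraMap _ _ f))
      (evA m (dbl X') (sh T fun i => (γ i : (curve a b).Point)) hT.sh_ne f) := by
  induction f using MvPolynomial.induction_on with
  | C z =>
    rw [← hι, hτι, evA_C]
    exact val_lift hι (𝒜.σ_val γ T hT _ _ (Val.alg' rfl))
  | add f g hf hg =>
    rw [map_add, map_add, map_add]
    exact hf.add hg
  | mul_X f k hf =>
    rw [map_mul, map_mul, map_mul]
    refine hf.mul ?_
    rw [hτX, evA_X]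
    have h1 : wv m (dbl X') T k ≠ 0 := wv_ne_zero hT.ne fun i => hT.ne_X i k
    have h2 := (val_lift (m := m) (X := dbl X') hι (𝒜.c_val γ T hTg hT k)).mul
      (Val.alg (A := An a b n s) (F := Fn a b n s) (ev := evA m (dbl X') T hT.ne)
        (MvPolynomial.X k))
    rw [evA_X, div_mul_cancel₀ _ h1] at h2
    exact h2

end lift

section val

variable {A F K : Type*} [CommRing A] [IsDomain A] [Field F] [Algebra A F] [IsFractionRing A F]
  [Field K] {ev : A →+* K}

omit [IsDomain A] [IsFractionRing A F] in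
lemma Val.mem_Loc {z : F} {d : K} (h : Val ev z d) : z ∈ ZE.Loc F (RingHom.ker ev) := by
  obtain ⟨u, v, h1, h2, -⟩ := h
  exact ⟨u, v, fun h3 => h1 (RingHom.mem_ker.mp h3), h2⟩

lemma Val.mem_MLoc {z : F} {d : K} (h : Val ev z d) :
    z ∈ ZE.MLoc F (RingHom.ker ev) ↔ d = 0 := by
  constructor
  · rintro ⟨u, v, h1, h2, h3⟩
    have h4 : Val ev z 0 := ⟨u, v, fun h5 => h2 (RingHom.mem_ker.mpr h5), h3, by
      rw [zero_mul]; exact RingHom.mem_ker.mp h1⟩
    exact h.unique h4
  · rintro rfl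
    obtain ⟨u, v, h1, h2, h3⟩ := h
    refine ⟨u, v, RingHom.mem_ker.mpr (by rw [h3, zero_mul]), fun h4 =>
      h1 (RingHom.mem_ker.mp h4), h2⟩

end val

/-- The ideal of functions on the torus bundle which vanish at the point over `T`. -/
noncomputable def mA (m : ℕ) (X : Fin n → Fin s → (curve a b).Point)
    (T : Fin n → (curve a b).Point) : Ideal (An a b n s) :=
  open scoped Classical in
  if h : ∀ i, T i ≠ 0 then RingHom.ker (evA m X T h) else ⊤

lemma mA_eq {X : Fin n → Fin s → (curve a b).Point} {T : Fin n → (curve a b).Point}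
    (h : ∀ i, T i ≠ 0) : mA m X T = RingHom.ker (evA m X T h) := by
  rw [mA, dif_pos h]

lemma mem_mA {X : Fin n → Fin s → (curve a b).Point} {T : Fin n → (curve a b).Point}
    (h : ∀ i, T i ≠ 0) {f : An a b n s} : f ∈ mA m X T ↔ evA m X T h f = 0 := by
  rw [mA_eq h, RingHom.mem_ker]

/-- The coordinates of a point of the good group. -/
abbrev gc (γ : Fin n → goodGroup p a b) : Fin n → (curve a b).Point :=
  fun i => (γ i : (curve a b).Point)

lemma sh_sh (T : Fin n → (curve a b).Point) (u v : Fin n → goodGroup p a b) :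
    sh (sh T (gc u)) (gc v) = sh T (gc (u + v)) := by
  funext i
  simp only [sh, gc, Pi.add_apply, AddSubgroup.coe_add]
  abel

lemma sh_good {T : Fin n → (curve a b).Point} (hT : ∀ i, T i ∈ goodGroup p a b)
    (u : Fin n → goodGroup p a b) (i : Fin n) : sh T (gc u) i ∈ goodGroup p a b :=
  add_mem (hT i) (add_mem (u i).2 (u i).2)

section dat

variable {ι : Ln a b n →+* Fn a b n s}
  (hι : ∀ z : Bn a b n, ι (algebraMap _ _ z) = algebraMap (An a b n s) _ (MvPolynomial.C z))
  {X' : Fin n → Fin s → (curve a b).Point} (𝒜 : Act p a b n s m X')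
  {τ : (Fin n → goodGroup p a b) → (Fn a b n s ≃+* Fn a b n s)}
  (hτ0 : ∀ x, τ 0 x = x) (hτa : ∀ g h x, τ (g + h) x = τ g (τ h x))
  (hτι : ∀ g z, τ g (ι z) = ι (𝒜.σ g z))
  (hτX : ∀ g k, τ g (algebraMap (An a b n s) _ (MvPolynomial.X k)) =
    ι (𝒜.c g k) * algebraMap (An a b n s) _ (MvPolynomial.X k))

/-- The pair `(v, u)` is good: the translations between `T₀ + 2 v` and `T₀ + 2 (v + u)` are
regular. -/
def GoodPair (X' : Fin n → Fin s → (curve a b).Point) (T₀ : Fin n → (curve a b).Point)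
    (v u : Fin n → goodGroup p a b) : Prop :=
  GP X' (gc u) (sh T₀ (gc v)) ∧ GP X' (gc (-u)) (sh T₀ (gc (v + u)))

include hι hτι hτX

lemma val_tau' {T₀ : Fin n → (curve a b).Point} (hT₀ : ∀ i, T₀ i ∈ goodGroup p a b)
    {v u : Fin n → goodGroup p a b} (hT : GP X' (gc u) (sh T₀ (gc v))) (f : An a b n s) :
    Val (A := An a b n s) (evA m (dbl X') (sh T₀ (gc v)) hT.ne) (τ u (algebraMap _ _ f))
      (evA m (dbl X') (sh T₀ (gc (v + u))) (by
        intro i
        rw [← sh_sh]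
        exact hT.sh_ne i) f) := by
  have h1 := val_tau hι 𝒜 hτι hτX (γ := u) (sh_good hT₀ v) hT f
  have h2 : sh (sh T₀ (gc v)) (fun i => (u i : (curve a b).Point)) = sh T₀ (gc (v + u)) :=
    sh_sh T₀ v u
  simp only [h2] at h1
  exact h1

/-- The data of the zero estimate. -/
noncomputable def mkDat {T₀ : Fin n → (curve a b).Point} (hT₀ : ∀ i, T₀ i ∈ goodGroup p a b) :
    ZE.Dat (An a b n s) (Fn a b n s) (Fin n → goodGroup p a b) where
  τ := τ
  τ_zero := hτ0
  τ_add := hτa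
  m := fun v => mA m (dbl X') (sh T₀ (gc v))
  G := GoodPair X' T₀
  symm := by
    intro v u h
    refine ⟨h.2, ?_⟩
    rw [add_neg_cancel_right, neg_neg]
    exact h.1
  prime := by
    intro v u h
    rw [mA_eq h.1.ne]
    exact RingHom.ker_isPrime _
  reg := by
    intro v u h f
    rw [mA_eq h.1.ne]
    exact (val_tau' hι 𝒜 hτι hτX hT₀ h.1 f).mem_Loc
  ev := by
    intro v u h f
    rw [mA_eq h.1.ne, mem_mA (by intro i; rw [← sh_sh]; exact h.1.sh_ne i)]
    exact (val_tau' hι 𝒜 hτι hτX hT₀ h.1 f).mem_MLoc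

end dat

end MP3550b5.RG
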