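import Mathlib
import Pool.Agent.Lib.MP_3550b5_nt.RG.Data
import Pool.Agent.Lib.MP_3550b5_nt.NRow

/-!
Tuples of points: definitions.
-/

namespace MP3550b5.RG

open Pool.Agent.Lib.MP_3550b5_nt WeierstrassCurve.Affine

variable {p : ℕ} [hp : Fact p.Prime] {a b : ℤ} {d n s m : ℕ}

/-- The functions of the construction for tuples. -/
noncomputable def rowN (m T : ℕ) {d s N : ℕ} (Q : Fin d → Fin s → (curve a b).Point)
    (r : (Fin d → Fin (T + 1)) × (Fin s → Fin N)) (R : Fin d → (curve a b).Point) : ℤ :=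
  ∏ i, rowF m T (Q i) (r.1 i) r.2 (R i)

/-- The classes: over the factor `i` the fibre coordinate `π i j` has the class `T j`. -/
def TX (π : Fin d → Fin n → Fin s) (T : Fin n → (curve a b).Point) :
    Fin d → Fin s → (curve a b).Point :=
  fun i k => ∑ j, if π i j = k then T j else 0

lemma lin_TX (π : Fin d → Fin n → Fin s) (T : Fin n → (curve a b).Point) (i : Fin d)
    (v : Fin s → ℤ) : lin (TX π T i) v = lin T fun j => v (π i j) := by
  rw [lin_apply, lin_apply]
  have h1 : ∀ k, v k • TX π T i k = ∑ j, if π i j = k then v k • T j else 0 := by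
    intro k
    rw [TX, Finset.smul_sum]
    refine Finset.sum_congr rfl fun j _ => ?_
    split_ifs
    · rfl
    · exact zsmul_zero _
  rw [Finset.sum_congr rfl fun k _ => h1 k, Finset.sum_comm]
  refine Finset.sum_congr rfl fun j _ => ?_
  rw [Finset.sum_ite_eq Finset.univ (π i j) fun k => v k • T j, if_pos (Finset.mem_univ _)]

lemma TX_good {π : Fin d → Fin n → Fin s} {T : Fin n → (curve a b).Point}
    (hT : ∀ j, T j ∈ goodGroup p a b) (i : Fin d) (k : Fin s) : TX π T i k ∈ goodGroup p a b := by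
  refine sum_mem fun j _ => ?_
  split_ifs
  · exact hT j
  · exact zero_mem _

lemma dbl_TX (π : Fin d → Fin n → Fin s) (T : Fin n → (curve a b).Point) :
    dbl (TX π T) = TX π fun j => T j + T j := by
  funext i k
  show TX π T i k + TX π T i k = _
  rw [TX, TX, ← Finset.sum_add_distrib]
  refine Finset.sum_congr rfl fun j _ => ?_
  split_ifs
  · rfl
  · exact add_zero _

lemma TX_self {π : Fin d → Fin n → Fin s} (T : Fin n → (curve a b).Point) {i : Fin d}
    (hπ : Function.Injective (π i)) (j : Fin n) : TX π T i (π i j) = T j := by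
  rw [TX, Finset.sum_eq_single j]
  · rw [if_pos rfl]
  · intro j' _ hj'
    rw [if_neg fun h => hj' (hπ h)]
  · intro h
    exact absurd (Finset.mem_univ j) h

lemma TX_zero {π : Fin d → Fin n → Fin s} (T : Fin n → (curve a b).Point) {i : Fin d}
    {k : Fin s} (h : ∀ j, π i j ≠ k) : TX π T i k = 0 :=
  Finset.sum_eq_zero fun j _ => if_neg (h j)

/-- The number of pairs `(i, j)`, `i < d`, `i ≤ j < n`. -/
def sN (d n : ℕ) : ℕ := ∑ i ∈ Finset.range d, (n - i)

/-- An enumeration `π i j` of the products `u_i * u_j`, `i < d`, `j < n`. -/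
structure IsIx (hdn : d ≤ n) (π : Fin d → Fin n → Fin s) : Prop where
  symm : ∀ i i' : Fin d, π i (Fin.castLE hdn i') = π i' (Fin.castLE hdn i)
  eq : ∀ (i i' : Fin d) (j j' : Fin n), π i j = π i' j' →
    (i = i' ∧ j = j') ∨ (j = Fin.castLE hdn i' ∧ j' = Fin.castLE hdn i)
  surj : ∀ k, ∃ i j, π i j = k

lemma IsIx.inj {hdn : d ≤ n} {π : Fin d → Fin n → Fin s} (h : IsIx hdn π) (i : Fin d) :
    Function.Injective (π i) := by
  intro j j' hjj
  rcases h.eq i i j j' hjj with h1 | h1
  · exact h1.2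
  · exact h1.1.trans h1.2.symm

end MP3550b5.RG
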