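import Mathlib
import Pool.Agent.Lib.MP_3550b5_nt.RG.Tup

/-!
Linear algebra for tuples: the enumeration of the products, and frames of subgroups.
-/

namespace MP3550b5.RG

/-- Twice the number of pairs. -/
theorem two_mul_sN {d n : ℕ} (hdn : d ≤ n) : 2 * sN d n + d * (d - 1) = 2 * (d * n) := by
  induction d with
  | zero => simp [sN]
  | succ d ih =>
    have h1 := ih (by omega)
    have h2 : sN (d + 1) n = sN d n + (n - d) := Finset.sum_range_succ _ _
    rw [h2, Nat.add_sub_cancel]
    obtain ⟨m, rfl⟩ := Nat.exists_eq_add_of_le hdn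
    have h3 : d + 1 + m - d = 1 + m := by omega
    rw [h3]
    rcases d with _ | d
    · simp at h1 ⊢
      nlinarith
    · rw [Nat.add_sub_cancel] at h1
      nlinarith

/-- the pairs `(i, j)` with `i ≤ j` -/
private abbrev H5P (d n : ℕ) : Type := {p : Fin d × Fin n // (p.1 : ℕ) ≤ (p.2 : ℕ)}

private def h5Equiv (d n : ℕ) : H5P d n ≃ Σ i : Fin d, Fin (n - (i : ℕ)) where
  toFun p := ⟨p.1.1, ⟨(p.1.2 : ℕ) - p.1.1, by
    have h1 := p.2
    have h2 := p.1.2.2
    omega⟩⟩
  invFun q := ⟨(q.1, ⟨(q.1 : ℕ) + q.2, by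
    have h1 := q.2.2
    omega⟩), Nat.le_add_right _ _⟩
  left_inv p := by
    refine Subtype.ext (Prod.ext rfl (Fin.ext ?_))
    have h1 := p.2
    change (p.1.1 : ℕ) + ((p.1.2 : ℕ) - p.1.1) = p.1.2
    omega
  right_inv q := by
    refine Sigma.ext rfl (heq_of_eq (Fin.ext ?_))
    change (q.1 : ℕ) + q.2 - q.1 = q.2
    omega

private theorem h5_card (d n : ℕ) : Fintype.card (H5P d n) = sN d n := by
  rw [Fintype.card_congr (h5Equiv d n), Fintype.card_sigma]
  simp only [Fintype.card_fin]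
  exact Fin.sum_univ_eq_sum_range (fun i => n - i) d

private def h5Norm {d n : ℕ} (hdn : d ≤ n) (i : Fin d) (j : Fin n) : H5P d n :=
  if h : (i : ℕ) ≤ j then ⟨(i, j), h⟩
  else ⟨(⟨j, by have := i.2; omega⟩, Fin.castLE hdn i), by
    change (j : ℕ) ≤ i
    omega⟩

/-- The enumeration of the products exists. -/
theorem exists_ix {d n : ℕ} (hdn : d ≤ n) : ∃ π : Fin d → Fin n → Fin (sN d n), IsIx hdn π := by
  classical
  obtain ⟨e⟩ : Nonempty (H5P d n ≃ Fin (sN d n)) := ⟨Fintype.equivFinOfCardEq (h5_card d n)⟩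
  refine ⟨fun i j => e (h5Norm hdn i j), ?_, ?_, ?_⟩
  · intro i i'
    congr 1
    unfold h5Norm
    simp only [Fin.val_castLE]
    rcases lt_trichotomy (i : ℕ) i' with h | h | h
    · rw [dif_pos h.le, dif_neg (by omega)]
    · have h1 : i = i' := Fin.ext h
      subst h1
      rfl
    · rw [dif_neg (by omega), dif_pos h.le]
  · intro i i' j j' h
    have h1 := e.injective h
    unfold h5Norm at h1
    have h2 : ∀ {x y : H5P d n}, x = y → (x.1.1 : ℕ) = y.1.1 ∧ (x.1.2 : ℕ) = y.1.2 := by
      rintro x y rfl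
      exact ⟨rfl, rfl⟩
    by_cases g : (i : ℕ) ≤ j
    · by_cases g' : (i' : ℕ) ≤ j'
      · rw [dif_pos g, dif_pos g'] at h1
        exact Or.inl ⟨Fin.ext (h2 h1).1, Fin.ext (h2 h1).2⟩
      · rw [dif_pos g, dif_neg g'] at h1
        exact Or.inr ⟨Fin.ext (h2 h1).2, Fin.ext (h2 h1).1.symm⟩
    · by_cases g' : (i' : ℕ) ≤ j'
      · rw [dif_neg g, dif_pos g'] at h1
        exact Or.inr ⟨Fin.ext (h2 h1).1, Fin.ext (h2 h1).2.symm⟩
      · rw [dif_neg g, dif_neg g'] at h1
        exact Or.inl ⟨Fin.ext (h2 h1).2, Fin.ext (h2 h1).1⟩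
  · intro k
    refine ⟨(e.symm k).1.1, (e.symm k).1.2, ?_⟩
    have h1 : h5Norm hdn (e.symm k).1.1 (e.symm k).1.2 = e.symm k := by
      unfold h5Norm
      rw [dif_pos (e.symm k).2]
    change e (h5Norm hdn (e.symm k).1.1 (e.symm k).1.2) = k
    rw [h1, Equiv.apply_symm_apply]

/-- relations of `H` with integral coefficients -/
private def q81A {G : Type} [AddCommGroup G] {d : ℕ} (H : AddSubgroup (Fin d → G)) :
    Submodule ℤ (Fin d → ℤ) where
  carrier := {c | ∀ g ∈ H, ∑ j, c j • g j = 0}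
  add_mem' := by
    intro a b ha hb g hg
    simp only [Pi.add_apply, add_smul, Finset.sum_add_distrib, ha g hg, hb g hg, add_zero]
  zero_mem' := by
    intro g _
    simp
  smul_mem' := by
    intro n a ha g hg
    simp only [Pi.smul_apply, smul_eq_mul, mul_smul, ← Finset.smul_sum, ha g hg, smul_zero]

private theorem q81A_sat {G : Type} [AddCommGroup G]
    (htf : ∀ (n : ℤ) (x : G), n • x = 0 → n = 0 ∨ x = 0) {d : ℕ}
    (H : AddSubgroup (Fin d → G)) {N : ℤ} (hN : N ≠ 0) {c : Fin d → ℤ}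
    (hc : N • c ∈ q81A H) : c ∈ q81A H := by
  intro g hg
  have h1 := hc g hg
  simp only [Pi.smul_apply, smul_eq_mul, mul_smul, ← Finset.smul_sum] at h1
  exact (htf N _ h1).resolve_left hN

/-- relations of `H` with rational coefficients -/
private def q81B {G : Type} [AddCommGroup G] {d : ℕ} (H : AddSubgroup (Fin d → G)) :
    Submodule ℚ (Fin d → ℚ) where
  carrier := {x | ∃ N : ℤ, N ≠ 0 ∧ ∃ a ∈ q81A H, ∀ j, (N : ℚ) * x j = (a j : ℚ)}
  add_mem' := by
    rintro x y ⟨N, hN, a, ha, hx⟩ ⟨M, hM, b, hb, hy⟩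
    refine ⟨N * M, mul_ne_zero hN hM, M • a + N • b,
      add_mem ((q81A H).smul_mem _ ha) ((q81A H).smul_mem _ hb), fun j => ?_⟩
    simp only [Pi.add_apply, Pi.smul_apply, smul_eq_mul]
    push_cast
    rw [← hx j, ← hy j]
    ring
  zero_mem' := ⟨1, one_ne_zero, 0, zero_mem _, by simp⟩
  smul_mem' := by
    rintro q x ⟨N, hN, a, ha, hx⟩
    refine ⟨(q.den : ℤ) * N, mul_ne_zero (by exact_mod_cast q.den_ne_zero) hN, q.num • a,
      (q81A H).smul_mem _ ha, fun j => ?_⟩
    simp only [Pi.smul_apply, smul_eq_mul]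
    push_cast
    rw [← hx j]
    have h1 : (q.den : ℚ) * q = q.num := by
      rw [mul_comm]
      exact Rat.mul_den_eq_num q
    rw [← h1]
    ring

private theorem q81B_int {G : Type} [AddCommGroup G]
    (htf : ∀ (n : ℤ) (x : G), n • x = 0 → n = 0 ∨ x = 0) {d : ℕ}
    (H : AddSubgroup (Fin d → G)) (c : Fin d → ℤ) :
    (fun j => (c j : ℚ)) ∈ q81B H ↔ c ∈ q81A H := by
  constructor
  · rintro ⟨N, hN, a, ha, h⟩
    refine q81A_sat htf H hN ?_
    have h1 : N • c = a := by
      funext j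
      have h2 : (N : ℚ) * (c j : ℚ) = (a j : ℚ) := h j
      simp only [Pi.smul_apply, smul_eq_mul]
      exact_mod_cast h2
    rw [h1]
    exact ha
  · intro h
    exact ⟨1, one_ne_zero, c, h, by simp⟩

/-- **Frames.** A subgroup `H` of `G ^ d`, `G` torsion-free: `d'` coordinates (`κ`) on which `H`
satisfies no relation, and a nonsingular integral matrix whose first `d'` rows are these
coordinates and whose other rows are relations of `H`. -/
theorem exists_frame {G : Type} [AddCommGroup G]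
    (htf : ∀ (n : ℤ) (x : G), n • x = 0 → n = 0 ∨ x = 0) {d : ℕ}
    (H : AddSubgroup (Fin d → G)) :
    ∃ (d' : ℕ) (hd : d' ≤ d) (κ : Fin d' → Fin d) (M : Matrix (Fin d) (Fin d) ℤ),
      Function.Injective κ ∧ M.det ≠ 0 ∧
      (∀ (i : Fin d') (j : Fin d), M (Fin.castLE hd i) j = if j = κ i then 1 else 0) ∧
      (∀ i : Fin d, d' ≤ (i : ℕ) → ∀ g ∈ H, ∑ j, M i j • g j = 0) ∧
      ∀ c : Fin d' → ℤ, (∀ g ∈ H, ∑ i, c i • g (κ i) = 0) → c = 0 := by
  classical
  set B := q81B H with hB
  let e : Fin d → (Fin d → ℚ) := fun j => Pi.single j 1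
  obtain ⟨κ', a, hainj, haspan, hali⟩ := exists_linearIndependent' (K := ℚ)
    (fun j : Fin d => B.mkQ (e j))
  have : Finite κ' := Finite.of_injective a hainj
  let _ : Fintype κ' := Fintype.ofFinite κ'
  set d' := Fintype.card κ' with hd'
  have htop : Submodule.span ℚ (Set.range fun j : Fin d => B.mkQ (e j)) = ⊤ := by
    have h1 : (Set.range fun j : Fin d => B.mkQ (e j)) = B.mkQ '' (Set.range e) := by
      rw [← Set.range_comp]
      rfl
    have h2 : Submodule.span ℚ (Set.range e) = ⊤ := by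
      have h3 := (Pi.basisFun ℚ (Fin d)).span_eq
      have h4 : (Pi.basisFun ℚ (Fin d) : Fin d → (Fin d → ℚ)) = e := by
        funext j
        simp [e]
      rw [h4] at h3
      exact h3
    rw [h1, Submodule.span_image, h2, Submodule.map_top, Submodule.range_mkQ]
  have hrk : Module.finrank ℚ ((Fin d → ℚ) ⧸ B) = d' := by
    have h1 : Submodule.span ℚ (Set.range ((fun j : Fin d => B.mkQ (e j)) ∘ a)) = ⊤ := by
      rw [haspan, htop]
    rw [Module.finrank_eq_card_basis (Module.Basis.mk hali h1.ge)]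
  have hsum : d' + Module.finrank ℚ B = d := by
    have h1 := Submodule.finrank_quotient_add_finrank B
    rw [hrk, Module.finrank_fin_fun] at h1
    exact h1
  have hd : d' ≤ d := by omega
  let eq : κ' ≃ Fin d' := Fintype.equivFin κ'
  let κ : Fin d' → Fin d := fun i => a (eq.symm i)
  have hκ : Function.Injective κ := hainj.comp eq.symm.injective
  have hli : LinearIndependent ℚ (fun i : Fin d' => B.mkQ (e (κ i))) :=
    hali.comp eq.symm eq.symm.injective
  have hrB : Module.finrank ℚ B = d - d' := by omega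
  let b : Module.Basis (Fin (d - d')) ℚ B := Module.finBasisOfFinrankEq ℚ B hrB
  have hb : ∀ k : Fin (d - d'), ∃ N : ℤ, N ≠ 0 ∧ ∃ a ∈ q81A H,
      ∀ j, (N : ℚ) * (b k : Fin d → ℚ) j = (a j : ℚ) := fun k => (b k).2
  choose N hN r hr hNr using hb
  -- the key fact on integral combinations
  have hkey : ∀ c : Fin d' → ℤ, (∑ i, (c i : ℚ) • e (κ i)) ∈ B → c = 0 := by
    intro c hc
    have h1 : ∑ i, (c i : ℚ) • B.mkQ (e (κ i)) = 0 := by
      rw [← (Submodule.Quotient.mk_eq_zero B).mpr hc, ← Submodule.mkQ_apply, map_sum]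
      simp only [map_smul]
    have h2 := Fintype.linearIndependent_iff.mp hli _ h1
    funext i
    exact_mod_cast h2 i
  refine ⟨d', hd, κ, fun i j => if h : (i : ℕ) < d' then (if j = κ ⟨i, h⟩ then 1 else 0)
    else r ⟨i - d', by have := i.2; omega⟩ j, hκ, ?_, ?_, ?_, ?_⟩
  · intro hdet
    obtain ⟨v, hv0, hv⟩ := Matrix.exists_vecMul_eq_zero_iff.mpr hdet
    have hsplit : ∀ f : Fin d → ℤ, ∑ i, f i = ∑ i : Fin d', f (Fin.castLE hd i) +
        ∑ k : Fin (d - d'), f ⟨d' + k, by have := k.2; omega⟩ := by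
      intro f
      have h : d' + (d - d') = d := by omega
      rw [← (finCongr h).sum_comp, Fin.sum_univ_add]
      rfl
    have hv1 : ∀ j : Fin d, (∑ i : Fin d', v (Fin.castLE hd i) * (if j = κ i then 1 else 0)) +
        ∑ k : Fin (d - d'), v ⟨d' + k, by have := k.2; omega⟩ * r k j = 0 := by
      intro j
      have h1 : ∑ i : Fin d, v i * (if h : (i : ℕ) < d' then (if j = κ ⟨i, h⟩ then 1 else 0)
          else r ⟨i - d', by have := i.2; omega⟩ j) = 0 := congrFun hv j
      rw [hsplit] at h1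
      refine Eq.trans ?_ h1
      congr 1
      · refine Finset.sum_congr rfl fun i _ => ?_
        simp
      · refine Finset.sum_congr rfl fun k _ => ?_
        have h2 : ¬ d' + (k : ℕ) < d' := by omega
        rw [dif_neg h2]
        congr 2
        exact Fin.ext (by simp)
    have hrB' : ∀ k, (fun j => (r k j : ℚ)) ∈ B := fun k =>
      (q81B_int htf H (r k)).mpr (hr k)
    have hv2 : (∑ i : Fin d', ((v (Fin.castLE hd i) : ℤ) : ℚ) • e (κ i)) +
        ∑ k : Fin (d - d'), ((v ⟨d' + k, by have := k.2; omega⟩ : ℤ) : ℚ) •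
          (fun j => (r k j : ℚ)) = 0 := by
      funext j
      have h1 := congrArg (Int.cast : ℤ → ℚ) (hv1 j)
      push_cast at h1
      simp only [Pi.add_apply, Finset.sum_apply, Pi.smul_apply, smul_eq_mul, Pi.zero_apply, e]
      rw [← h1]
      congr 1
      refine Finset.sum_congr rfl fun i _ => ?_
      congr 1
      rw [Pi.single_apply]
    have hv3 : (fun i : Fin d' => v (Fin.castLE hd i)) = 0 := by
      refine hkey _ ?_
      rw [eq_neg_of_add_eq_zero_left hv2]
      exact B.neg_mem (B.sum_mem fun k _ => B.smul_mem _ (hrB' k))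
    have hv4 : ∀ i : Fin d', v (Fin.castLE hd i) = 0 := fun i => congrFun hv3 i
    have hv5 : ∑ k : Fin (d - d'), (((v ⟨d' + k, by have := k.2; omega⟩ : ℤ) : ℚ) * (N k : ℚ)) •
        b k = 0 := by
      refine Subtype.ext ?_
      rw [← Submodule.subtype_apply, map_sum, Submodule.coe_zero]
      have h1 : (∑ i : Fin d', ((v (Fin.castLE hd i) : ℤ) : ℚ) • e (κ i)) = 0 :=
        Finset.sum_eq_zero fun i _ => by rw [hv4 i]; simp
      rw [h1, zero_add] at hv2
      rw [← hv2]
      refine Finset.sum_congr rfl fun k _ => ?_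
      rw [map_smul, mul_smul]
      congr 1
      funext j
      exact hNr k j
    have hv6 := Fintype.linearIndependent_iff.mp b.linearIndependent _ hv5
    refine hv0 (funext fun i => ?_)
    by_cases h : (i : ℕ) < d'
    · exact hv4 ⟨i, h⟩
    · have h1 := hv6 ⟨i - d', by have := i.2; omega⟩
      have h2 : (⟨d' + ((i : ℕ) - d'), by have := i.2; omega⟩ : Fin d) = i :=
        Fin.ext (by simp only; omega)
      simp only [h2] at h1
      rcases mul_eq_zero.mp h1 with h3 | h3
      · exact_mod_cast h3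
      · exact absurd (by exact_mod_cast h3) (hN ⟨i - d', by have := i.2; omega⟩)
  · intro i j
    simp
  · intro i hi g hg
    have h1 : ¬ (i : ℕ) < d' := by omega
    simp only [dif_neg h1]
    exact hr _ g hg
  · intro c hc
    refine hkey c ?_
    have h1 : (∑ i, (c i : ℚ) • e (κ i)) = fun j => ((∑ i, c i • (Pi.single (κ i) 1 : Fin d → ℤ)) j : ℚ) := by
      funext j
      simp only [Finset.sum_apply, Pi.smul_apply, smul_eq_mul, e]
      push_cast
      refine Finset.sum_congr rfl fun i _ => ?_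
      congr 1
      by_cases hj : j = κ i
      · subst hj
        simp
      · rw [Pi.single_eq_of_ne hj, Pi.single_eq_of_ne hj]
        simp
    rw [h1, hB, q81B_int htf]
    intro g hg
    rw [← hc g hg]
    simp only [Finset.sum_apply, Pi.smul_apply, smul_eq_mul, Finset.sum_smul]
    rw [Finset.sum_comm]
    refine Finset.sum_congr rfl fun i _ => ?_
    rw [Finset.sum_eq_single (κ i)]
    · simp
    · intro j _ hj
      rw [Pi.single_eq_of_ne hj]
      simp
    · intro h
      exact absurd (Finset.mem_univ _) h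

end MP3550b5.RG
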