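import Mathlib
import Pool.Agent.Lib.MP_3550b5_nt.RG.Frame

/-!
The numbers of the tuples.
-/

namespace MP3550b5.RG

/-- The exponent of the degree of the auxiliary function. -/
def kapN (d n : ℕ) : ℕ := 2 * d + sN d n - 1

/-- The bound for the ranks. -/
def BN (d n : ℕ) : ℕ := if d = 0 then 0 else kapN d n * (d * n + 1)

section h5arith

private theorem h5_sN_cast {d n : ℕ} (hdn : d ≤ n) :
    2 * (sN d n : ℤ) = d * (2 * n + 1 - d) := by
  have h := two_mul_sN hdn
  rcases d with _ | d
  · simp [sN]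
  · rw [Nat.add_sub_cancel] at h
    have h1 : 2 * (sN (d + 1) n : ℤ) + ((d : ℤ) + 1) * d = 2 * (((d : ℤ) + 1) * n) := by
      exact_mod_cast h
    push_cast
    linear_combination h1

private theorem h5_kap_cast {d n : ℕ} (hd : 1 ≤ d) (hdn : d ≤ n) :
    2 * (kapN d n : ℤ) = d * (2 * n + 5 - d) - 2 := by
  have h := h5_sN_cast hdn
  have h1 : (kapN d n : ℤ) = 2 * d + sN d n - 1 := by
    unfold kapN
    omega
  rw [h1]
  linear_combination h

end h5arith

/-- One step of the recursion. -/
theorem BN_step {d e n : ℕ} (he : 1 ≤ e) (hed : e ≤ d) (hdn : d ≤ n) :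
    kapN d n * (e + sN e n) + BN (d - e) n ≤ BN d n := by
  obtain ⟨f, rfl⟩ := Nat.exists_eq_add_of_le hed
  obtain ⟨a, rfl⟩ := Nat.exists_eq_add_of_le hdn
  rw [Nat.add_sub_cancel_left]
  have hk := h5_kap_cast (d := e + f) (n := e + f + a) (by omega) (by omega)
  have hs := h5_sN_cast (d := e) (n := e + f + a) (by omega)
  have hB : BN (e + f) (e + f + a) = kapN (e + f) (e + f + a) * ((e + f) * (e + f + a) + 1) := by
    unfold BN
    rw [if_neg (by omega)]
  rw [hB]
  have hk0 : (0 : ℤ) ≤ kapN (e + f) (e + f + a) := Int.natCast_nonneg _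
  rcases Nat.eq_zero_or_pos f with rfl | hf
  · have hB0 : BN 0 (e + 0 + a) = 0 := if_pos rfl
    rw [hB0]
    refine Nat.mul_le_mul_left _ ?_
    zify
    push_cast at hs ⊢
    have h1 : 0 ≤ ((e : ℤ) - 1) * (e - 2) := by
      rcases Nat.lt_or_ge e 2 with h | h
      · have h2 : e = 1 := by omega
        subst h2
        norm_num
      · have h2 : (2 : ℤ) ≤ e := by exact_mod_cast h
        exact mul_nonneg (by linarith) (by linarith)
    nlinarith
  · have hkf := h5_kap_cast (d := f) (n := e + f + a) (by omega) (by omega)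
    have hBf : BN f (e + f + a) = kapN f (e + f + a) * (f * (e + f + a) + 1) := by
      unfold BN
      rw [if_neg (by omega)]
    rw [hBf]
    have hf1 : (1 : ℤ) ≤ f := by exact_mod_cast hf
    have he1 : (1 : ℤ) ≤ e := by exact_mod_cast he
    have ha0 : (0 : ℤ) ≤ a := Int.natCast_nonneg _
    zify
    push_cast at hs hk hkf ⊢
    set K : ℤ := (kapN (e + f) (e + f + a) : ℤ)
    set Kf : ℤ := (kapN f (e + f + a) : ℤ)
    set s : ℤ := (sN e (e + f + a) : ℤ)
    set E : ℤ := (e : ℤ)
    set F : ℤ := (f : ℤ)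
    set A : ℤ := (a : ℤ)
    -- the difference, times four
    have key : 0 ≤ E * (2 * (2 * (E + F + A) + 5 - E - 2 * F) * (F * (E + F + A) + 1) +
        2 * K * (E - 3)) := by
      refine mul_nonneg (by linarith) ?_
      have hA : 0 ≤ 2 * (E + F + A) + 5 - E - 2 * F := by linarith
      have hB' : 0 ≤ F * (E + F + A) + 1 := by positivity
      rcases Nat.lt_or_ge e 3 with h3 | h3
      · have h4 : e = 1 ∨ e = 2 := by omega
        rcases h4 with h4 | h4
        · have h5 : E = 1 := by
            change (e : ℤ) = 1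
            rw [h4]
            rfl
          rw [h5] at hk ⊢
          nlinarith [mul_nonneg (sub_nonneg.2 hf1) ha0, mul_nonneg ha0 ha0,
            mul_nonneg (sub_nonneg.2 hf1) (sub_nonneg.2 hf1),
            mul_nonneg (mul_nonneg (sub_nonneg.2 hf1) ha0) ha0,
            mul_nonneg (mul_nonneg (sub_nonneg.2 hf1) (sub_nonneg.2 hf1)) ha0]
        · have h5 : E = 2 := by
            change (e : ℤ) = 2
            rw [h4]
            rfl
          rw [h5] at hk ⊢
          nlinarith [mul_nonneg (sub_nonneg.2 hf1) ha0, mul_nonneg ha0 ha0,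
            mul_nonneg (sub_nonneg.2 hf1) (sub_nonneg.2 hf1),
            mul_nonneg (mul_nonneg (sub_nonneg.2 hf1) ha0) ha0,
            mul_nonneg (mul_nonneg (sub_nonneg.2 hf1) (sub_nonneg.2 hf1)) ha0]
      · have h4 : (3 : ℤ) ≤ E := by
          change (3 : ℤ) ≤ (e : ℤ)
          exact_mod_cast h3
        have h5 : 0 ≤ 2 * K * (E - 3) := mul_nonneg (by linarith) (by linarith)
        have h6 := mul_nonneg (mul_nonneg (by norm_num : (0 : ℤ) ≤ 2) hA) hB'
        linarith
    have e1 : 4 * (K * ((E + F) * (E + F + A) + 1) - (K * (E + s) + Kf * (F * (E + F + A) + 1))) =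
        E * (2 * (2 * (E + F + A) + 5 - E - 2 * F) * (F * (E + F + A) + 1) +
        2 * K * (E - 3)) := by
      have e2 : 2 * (K - Kf) = E * (2 * (E + F + A) + 5 - E - 2 * F) := by
        linear_combination hk - hkf
      linear_combination (2 * F * (E + F + A) + 2) * e2 - 2 * K * hs
    linarith

/-- The bound is increasing. -/
theorem BN_mono {d d' n : ℕ} (h : d' ≤ d) (hdn : d ≤ n) : BN d' n ≤ BN d n := by
  unfold BN
  split_ifs with h1 h2
  · exact le_rfl
  · exact Nat.zero_le _
  · omega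
  · have h3 : sN d' n ≤ sN d n := Finset.sum_le_sum_of_subset (Finset.range_mono h)
    refine Nat.mul_le_mul ?_ (Nat.add_le_add_right (Nat.mul_le_mul_right n h) 1)
    unfold kapN
    omega

/-- The final comparison. -/
theorem BN_lt {n m : ℕ} (hn : 2 ≤ n) (hm : n ^ 2 * (n + 5) ≤ 2 * m) :
    BN n n < n * m + n ^ 2 := by
  have hk := h5_kap_cast (d := n) (n := n) (by omega) le_rfl
  have hB : BN n n = kapN n n * (n * n + 1) := by
    unfold BN
    rw [if_neg (by omega)]
  rw [hB]
  have h2 : (2 : ℤ) ≤ n := by exact_mod_cast hn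
  have hm' : (n : ℤ) ^ 2 * (n + 5) ≤ 2 * m := by exact_mod_cast hm
  zify
  have h3 := mul_le_mul_of_nonneg_left hm' (by linarith : (0 : ℤ) ≤ n)
  have h4 : 2 * ((kapN n n : ℤ) * (n * n + 1)) =
      (n * (2 * n + 5 - n) - 2) * (n * n + 1) := by
    linear_combination ((n : ℤ) * n + 1) * hk
  nlinarith

end MP3550b5.RG
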