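import Mathlib
import Pool.Agent.Lib.MP_3550b5_nt.RG.Rep

/-!
Degrees of the numerators of the translates of a function.
-/

namespace MP3550b5.RG

open Pool.Agent.Lib.MP_3550b5_nt WeierstrassCurve.Affine

variable {a b : ℤ} {n s : ℕ}

/-- The presentation of the coordinate ring of the torus bundle. -/
noncomputable def presA (a b : ℤ) (n s : ℕ) :
    MvPolynomial ((Fin n ⊕ Fin n) ⊕ Fin s) ℚ →ₐ[ℚ] An a b n s :=
  MvPolynomial.aeval (Sum.elim (fun j => MvPolynomial.C (mkB a b n (MvPolynomial.X j)))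
    (fun k => MvPolynomial.X k))

/-- The presentation on functions of the base. -/
private lemma presA_inl (N : MvPolynomial (Fin n ⊕ Fin n) ℚ) :
    presA a b n s (MvPolynomial.rename Sum.inl N) = MvPolynomial.C (mkB a b n N) := by
  have h : ((presA a b n s : MvPolynomial ((Fin n ⊕ Fin n) ⊕ Fin s) ℚ →+* An a b n s).comp
      (MvPolynomial.rename Sum.inl : MvPolynomial (Fin n ⊕ Fin n) ℚ →ₐ[ℚ] _).toRingHom) =
      (MvPolynomial.C : Bn a b n →+* An a b n s).comp
        (Ideal.Quotient.mk (curveIdeal a b n)) := by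
    apply MvPolynomial.ringHom_ext
    · intro c
      exact RingHom.congr_fun (RingHom.ext_rat
        ((((presA a b n s : MvPolynomial ((Fin n ⊕ Fin n) ⊕ Fin s) ℚ →+* An a b n s).comp
          (MvPolynomial.rename Sum.inl : MvPolynomial (Fin n ⊕ Fin n) ℚ →ₐ[ℚ] _).toRingHom)).comp
            MvPolynomial.C)
        (((MvPolynomial.C : Bn a b n →+* An a b n s).comp
        (Ideal.Quotient.mk (curveIdeal a b n))).comp MvPolynomial.C)) c
    · intro j
      show presA a b n s (MvPolynomial.rename Sum.inl (MvPolynomial.X j)) =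
        MvPolynomial.C (mkB a b n (MvPolynomial.X j))
      rw [MvPolynomial.rename_X, presA, MvPolynomial.aeval_X]
      rfl
  exact RingHom.congr_fun h N

lemma presA_surjective : Function.Surjective (presA a b n s) := by
  intro f
  induction f using MvPolynomial.induction_on with
  | C z =>
    obtain ⟨N, rfl⟩ := Ideal.Quotient.mk_surjective z
    exact ⟨MvPolynomial.rename Sum.inl N, presA_inl N⟩
  | add f g hf hg =>
    obtain ⟨f', rfl⟩ := hf
    obtain ⟨g', rfl⟩ := hg
    exact ⟨f' + g', map_add _ _ _⟩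
  | mul_X f k hf =>
    obtain ⟨f', rfl⟩ := hf
    refine ⟨f' * MvPolynomial.X (Sum.inr k), ?_⟩
    rw [map_mul]
    congr 1
    rw [presA, MvPolynomial.aeval_X]
    rfl

/-- The kernel of the presentation is generated by the equations of the curves. -/
lemma ker_presA : RingHom.ker (presA a b n s) =
    Ideal.span (Set.range fun i => MvPolynomial.rename Sum.inl (curveRel a b n i)) := by
  set J : Ideal (MvPolynomial ((Fin n ⊕ Fin n) ⊕ Fin s) ℚ) :=
    Ideal.span (Set.range fun i => MvPolynomial.rename Sum.inl (curveRel a b n i)) with hJ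
  apply le_antisymm
  · intro g hg
    rw [RingHom.mem_ker] at hg
    have h0 : ∀ z ∈ curveIdeal a b n,
        ((Ideal.Quotient.mk J).comp (MvPolynomial.rename Sum.inl :
          MvPolynomial (Fin n ⊕ Fin n) ℚ →ₐ[ℚ] _).toRingHom) z = 0 := by
      intro z hz
      have h1 : curveIdeal a b n ≤ RingHom.ker ((Ideal.Quotient.mk J).comp
          (MvPolynomial.rename Sum.inl :
            MvPolynomial (Fin n ⊕ Fin n) ℚ →ₐ[ℚ] _).toRingHom) := by
        rw [curveIdeal, Ideal.span_le]
        rintro _ ⟨i, rfl⟩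
        rw [SetLike.mem_coe, RingHom.mem_ker]
        exact Ideal.Quotient.eq_zero_iff_mem.mpr (Ideal.subset_span ⟨i, rfl⟩)
      exact h1 hz
    set ψ : An a b n s →+* (MvPolynomial ((Fin n ⊕ Fin n) ⊕ Fin s) ℚ ⧸ J) :=
      MvPolynomial.eval₂Hom (Ideal.Quotient.lift (curveIdeal a b n)
        ((Ideal.Quotient.mk J).comp (MvPolynomial.rename Sum.inl :
          MvPolynomial (Fin n ⊕ Fin n) ℚ →ₐ[ℚ] _).toRingHom) h0)
        (fun k => Ideal.Quotient.mk J (MvPolynomial.X (Sum.inr k))) with hψ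
    have h2 : ψ.comp (presA a b n s : MvPolynomial ((Fin n ⊕ Fin n) ⊕ Fin s) ℚ →+* An a b n s) =
        Ideal.Quotient.mk J := by
      apply MvPolynomial.ringHom_ext
      · intro c
        exact RingHom.congr_fun (RingHom.ext_rat
          ((ψ.comp (presA a b n s : MvPolynomial ((Fin n ⊕ Fin n) ⊕ Fin s) ℚ →+*
            An a b n s)).comp MvPolynomial.C)
          ((Ideal.Quotient.mk J).comp MvPolynomial.C)) c
      · rintro (j | k)
        · have e1 : presA a b n s (MvPolynomial.X (Sum.inl j)) =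
              MvPolynomial.C (mkB a b n (MvPolynomial.X j)) := by
            rw [presA, MvPolynomial.aeval_X]; rfl
          show ψ (presA a b n s (MvPolynomial.X (Sum.inl j))) = _
          rw [e1, hψ, MvPolynomial.coe_eval₂Hom, MvPolynomial.eval₂_C]
          show (Ideal.Quotient.mk J) (MvPolynomial.rename Sum.inl (MvPolynomial.X j)) = _
          rw [MvPolynomial.rename_X]
        · have e1 : presA a b n s (MvPolynomial.X (Sum.inr k)) = MvPolynomial.X k := by
            rw [presA, MvPolynomial.aeval_X]; rfl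
          show ψ (presA a b n s (MvPolynomial.X (Sum.inr k))) = _
          rw [e1, hψ, MvPolynomial.coe_eval₂Hom, MvPolynomial.eval₂_X]
    have h3 := RingHom.congr_fun h2 g
    have h4 : ψ (presA a b n s g) = Ideal.Quotient.mk J g := h3
    rw [hg, map_zero] at h4
    exact Ideal.Quotient.eq_zero_iff_mem.mp h4.symm
  · rw [hJ, Ideal.span_le]
    rintro _ ⟨i, rfl⟩
    rw [SetLike.mem_coe, RingHom.mem_ker, presA_inl]
    have h : mkB a b n (curveRel a b n i) = 0 :=
      Ideal.Quotient.eq_zero_iff_mem.mpr (Ideal.subset_span ⟨i, rfl⟩)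
    rw [h, map_zero]

/-- `f` has a lift of degree at most `K` in the abscissae and the fibre coordinates, and of degree
at most two in the ordinates. -/
def HasLift (K : ℕ) (f : An a b n s) : Prop :=
  ∃ g : MvPolynomial ((Fin n ⊕ Fin n) ⊕ Fin s) ℚ, (∀ i, g.degreeOf (Sum.inl (Sum.inl i)) ≤ K) ∧
    (∀ i, g.degreeOf (Sum.inl (Sum.inr i)) ≤ 2) ∧ (∀ k, g.degreeOf (Sum.inr k) ≤ K) ∧
    presA a b n s g = f

private lemma hasLift_zero {K : ℕ} : HasLift K (0 : An a b n s) :=
  ⟨0, by simp, by simp, by simp, map_zero _⟩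

private lemma hasLift_add {K : ℕ} {f f' : An a b n s} (h : HasLift K f) (h' : HasLift K f') :
    HasLift K (f + f') := by
  obtain ⟨g, h1, h2, h3, h4⟩ := h
  obtain ⟨g', h1', h2', h3', h4'⟩ := h'
  refine ⟨g + g', fun i => (MvPolynomial.degreeOf_add_le _ _ _).trans (max_le (h1 i) (h1' i)),
    fun i => (MvPolynomial.degreeOf_add_le _ _ _).trans (max_le (h2 i) (h2' i)),
    fun i => (MvPolynomial.degreeOf_add_le _ _ _).trans (max_le (h3 i) (h3' i)), ?_⟩
  rw [map_add, h4, h4']

private lemma hasLift_sum {K : ℕ} {ι : Type*} (t : Finset ι) {f : ι → An a b n s}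
    (h : ∀ i ∈ t, HasLift K (f i)) : HasLift K (∑ i ∈ t, f i) := by
  classical
  induction t using Finset.induction_on with
  | empty => simpa using hasLift_zero
  | insert i t hi ih =>
    rw [Finset.sum_insert hi]
    exact hasLift_add (h i (Finset.mem_insert_self _ _))
      (ih fun j hj => h j (Finset.mem_insert_of_mem hj))

/-- The polynomial `x ^ 3 + a x + b`. -/
private noncomputable def cub (a b : ℤ) (n s : ℕ) (i : Fin n) :
    MvPolynomial ((Fin n ⊕ Fin n) ⊕ Fin s) ℚ :=
  MvPolynomial.X (Sum.inl (Sum.inl i)) ^ 3 +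
    MvPolynomial.C (a : ℚ) * MvPolynomial.X (Sum.inl (Sum.inl i)) + MvPolynomial.C (b : ℚ)

private lemma presA_cub (i : Fin n) : presA a b n s (cub a b n s i) =
    presA a b n s (MvPolynomial.X (Sum.inl (Sum.inr i))) ^ 2 := by
  have h : presA a b n s (MvPolynomial.rename Sum.inl (curveRel a b n i)) = 0 := by
    rw [presA_inl]
    have h : mkB a b n (curveRel a b n i) = 0 :=
      Ideal.Quotient.eq_zero_iff_mem.mpr (Ideal.subset_span ⟨i, rfl⟩)
    rw [h, map_zero]
  have h2 : MvPolynomial.rename Sum.inl (curveRel a b n i) =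
      MvPolynomial.X (Sum.inl (Sum.inr i)) ^ 2 - cub a b n s i := by
    rw [curveRel, cub]
    simp only [map_sub, map_pow, map_mul, MvPolynomial.rename_X, MvPolynomial.rename_C]
    ring
  rw [h2, map_sub, map_pow] at h
  exact (sub_eq_zero.mp h).symm

private lemma cub_deg_self (i : Fin n) :
    (cub a b n s i).degreeOf (Sum.inl (Sum.inl i)) ≤ 3 := by
  rw [cub]
  refine (MvPolynomial.degreeOf_add_le _ _ _).trans (max_le
    ((MvPolynomial.degreeOf_add_le _ _ _).trans (max_le ?_ ?_)) ?_)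
  · rw [MvPolynomial.degreeOf_X_self_pow]
  · refine (MvPolynomial.degreeOf_C_mul_le _ _ _).trans ?_
    rw [MvPolynomial.degreeOf_X_self]; omega
  · rw [MvPolynomial.degreeOf_C]; omega

private lemma cub_deg_ne (i : Fin n) {j : (Fin n ⊕ Fin n) ⊕ Fin s}
    (hj : j ≠ Sum.inl (Sum.inl i)) : (cub a b n s i).degreeOf j = 0 := by
  rw [cub]
  apply Nat.le_zero.mp
  refine (MvPolynomial.degreeOf_add_le _ _ _).trans (max_le
    ((MvPolynomial.degreeOf_add_le _ _ _).trans (max_le ?_ ?_)) ?_)
  · rw [MvPolynomial.degreeOf_X_pow_of_ne _ hj]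
  · refine (MvPolynomial.degreeOf_C_mul_le _ _ _).trans ?_
    rw [MvPolynomial.degreeOf_X_of_ne hj]
  · rw [MvPolynomial.degreeOf_C]

/-- The `i`-th factor of the reduction of a monomial. -/
private noncomputable def redF (a b : ℤ) (n s : ℕ) (m : ((Fin n ⊕ Fin n) ⊕ Fin s) →₀ ℕ)
    (i : Fin n) : MvPolynomial ((Fin n ⊕ Fin n) ⊕ Fin s) ℚ :=
  MvPolynomial.X (Sum.inl (Sum.inl i)) ^ m (Sum.inl (Sum.inl i)) *
    (cub a b n s i ^ (m (Sum.inl (Sum.inr i)) / 2) *
      MvPolynomial.X (Sum.inl (Sum.inr i)) ^ (m (Sum.inl (Sum.inr i)) % 2))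

private lemma presA_redF (m : ((Fin n ⊕ Fin n) ⊕ Fin s) →₀ ℕ) (i : Fin n) :
    presA a b n s (redF a b n s m i) =
      presA a b n s (MvPolynomial.X (Sum.inl (Sum.inl i)) ^ m (Sum.inl (Sum.inl i)) *
        MvPolynomial.X (Sum.inl (Sum.inr i)) ^ m (Sum.inl (Sum.inr i))) := by
  rw [redF, map_mul, map_mul, map_mul, map_pow (presA a b n s) (cub a b n s i), presA_cub,
    ← pow_mul, map_pow (presA a b n s) (MvPolynomial.X (Sum.inl (Sum.inr i))) _, ← pow_add,
    Nat.div_add_mod, map_pow (presA a b n s) (MvPolynomial.X (Sum.inl (Sum.inr i))) _]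

private lemma redF_deg_x (m : ((Fin n ⊕ Fin n) ⊕ Fin s) →₀ ℕ) (i : Fin n) :
    (redF a b n s m i).degreeOf (Sum.inl (Sum.inl i)) ≤
      m (Sum.inl (Sum.inl i)) + 3 * (m (Sum.inl (Sum.inr i)) / 2) := by
  rw [redF]
  refine (MvPolynomial.degreeOf_mul_le _ _ _).trans (add_le_add ?_ ?_)
  · rw [MvPolynomial.degreeOf_X_self_pow]
  · refine (MvPolynomial.degreeOf_mul_le _ _ _).trans ?_
    rw [MvPolynomial.degreeOf_X_pow_of_ne _ (by simp), add_zero]
    refine (MvPolynomial.degreeOf_pow_le _ _ _).trans ?_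
    rw [mul_comm]
    exact Nat.mul_le_mul_right _ (cub_deg_self i)

private lemma redF_deg_y (m : ((Fin n ⊕ Fin n) ⊕ Fin s) →₀ ℕ) (i : Fin n) :
    (redF a b n s m i).degreeOf (Sum.inl (Sum.inr i)) ≤ 1 := by
  rw [redF]
  refine (MvPolynomial.degreeOf_mul_le _ _ _).trans ?_
  rw [MvPolynomial.degreeOf_X_pow_of_ne _ (by simp), zero_add]
  refine (MvPolynomial.degreeOf_mul_le _ _ _).trans ?_
  have h : (cub a b n s i ^ (m (Sum.inl (Sum.inr i)) / 2)).degreeOf (Sum.inl (Sum.inr i)) = 0 := by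
    apply Nat.le_zero.mp
    refine (MvPolynomial.degreeOf_pow_le _ _ _).trans ?_
    rw [cub_deg_ne i (by simp), mul_zero]
  rw [h, zero_add, MvPolynomial.degreeOf_X_self_pow]
  omega

private lemma redF_deg_ne (m : ((Fin n ⊕ Fin n) ⊕ Fin s) →₀ ℕ) (i : Fin n)
    {j : (Fin n ⊕ Fin n) ⊕ Fin s} (hx : j ≠ Sum.inl (Sum.inl i)) (hy : j ≠ Sum.inl (Sum.inr i)) :
    (redF a b n s m i).degreeOf j = 0 := by
  rw [redF]
  apply Nat.le_zero.mp
  refine (MvPolynomial.degreeOf_mul_le _ _ _).trans ?_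
  rw [MvPolynomial.degreeOf_X_pow_of_ne _ hx, zero_add]
  refine (MvPolynomial.degreeOf_mul_le _ _ _).trans ?_
  rw [MvPolynomial.degreeOf_X_pow_of_ne _ hy, add_zero]
  refine (MvPolynomial.degreeOf_pow_le _ _ _).trans ?_
  rw [cub_deg_ne i hx, mul_zero]

private lemma hasLift_monomial {K : ℕ} (m : ((Fin n ⊕ Fin n) ⊕ Fin s) →₀ ℕ) (c : ℚ)
    (hm : ∀ j, m j ≤ K) : HasLift (4 * K) (presA a b n s (MvPolynomial.monomial m c)) := by
  classical
  refine ⟨MvPolynomial.C c * ((∏ i : Fin n, redF a b n s m i) *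
    ∏ k : Fin s, MvPolynomial.X (Sum.inr k) ^ m (Sum.inr k)), ?_, ?_, ?_, ?_⟩
  · intro i
    refine (MvPolynomial.degreeOf_C_mul_le _ _ _).trans ?_
    refine (MvPolynomial.degreeOf_mul_le _ _ _).trans ?_
    have h1 : (∏ k : Fin s, (MvPolynomial.X (Sum.inr k) :
        MvPolynomial ((Fin n ⊕ Fin n) ⊕ Fin s) ℚ) ^ m (Sum.inr k)).degreeOf
          (Sum.inl (Sum.inl i)) = 0 := by
      apply Nat.le_zero.mp
      refine (MvPolynomial.degreeOf_prod_le _ _ _).trans ?_
      rw [Finset.sum_eq_zero]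
      intro k _
      exact MvPolynomial.degreeOf_X_pow_of_ne _ (by simp)
    rw [h1, add_zero]
    refine (MvPolynomial.degreeOf_prod_le _ _ _).trans ?_
    rw [Finset.sum_eq_single i]
    · refine (redF_deg_x m i).trans ?_
      have h2 := hm (Sum.inl (Sum.inl i))
      have h3 := hm (Sum.inl (Sum.inr i))
      omega
    · intro j _ hj
      exact redF_deg_ne m j (fun h => hj (by simpa using h.symm)) (by simp)
    · intro h
      exact absurd (Finset.mem_univ i) h
  · intro i
    refine (MvPolynomial.degreeOf_C_mul_le _ _ _).trans ?_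
    refine (MvPolynomial.degreeOf_mul_le _ _ _).trans ?_
    have h1 : (∏ k : Fin s, (MvPolynomial.X (Sum.inr k) :
        MvPolynomial ((Fin n ⊕ Fin n) ⊕ Fin s) ℚ) ^ m (Sum.inr k)).degreeOf
          (Sum.inl (Sum.inr i)) = 0 := by
      apply Nat.le_zero.mp
      refine (MvPolynomial.degreeOf_prod_le _ _ _).trans ?_
      rw [Finset.sum_eq_zero]
      intro k _
      exact MvPolynomial.degreeOf_X_pow_of_ne _ (by simp)
    rw [h1, add_zero]
    refine (MvPolynomial.degreeOf_prod_le _ _ _).trans ?_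
    rw [Finset.sum_eq_single i]
    · exact (redF_deg_y m i).trans one_le_two
    · intro j _ hj
      exact redF_deg_ne m j (by simp) (fun h => hj (by simpa using h.symm))
    · intro h
      exact absurd (Finset.mem_univ i) h
  · intro k
    refine (MvPolynomial.degreeOf_C_mul_le _ _ _).trans ?_
    refine (MvPolynomial.degreeOf_mul_le _ _ _).trans ?_
    have h1 : (∏ i : Fin n, redF a b n s m i).degreeOf (Sum.inr k) = 0 := by
      apply Nat.le_zero.mp
      refine (MvPolynomial.degreeOf_prod_le _ _ _).trans ?_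
      rw [Finset.sum_eq_zero]
      intro i _
      exact redF_deg_ne m i (by simp) (by simp)
    rw [h1, zero_add]
    refine (MvPolynomial.degreeOf_prod_le _ _ _).trans ?_
    rw [Finset.sum_eq_single k]
    · rw [MvPolynomial.degreeOf_X_self_pow]
      have h2 := hm (Sum.inr k)
      omega
    · intro j _ hj
      exact MvPolynomial.degreeOf_X_pow_of_ne _ (fun h => hj (by simpa using h.symm))
    · intro h
      exact absurd (Finset.mem_univ k) h
  · rw [MvPolynomial.monomial_eq, Finsupp.prod_fintype _ _ (fun _ => pow_zero _),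
      Fintype.prod_sum_type, Fintype.prod_sum_type, ← Finset.prod_mul_distrib]
    rw [map_mul, map_mul, map_mul, map_mul, map_prod (presA a b n s) (fun i => redF a b n s m i),
      Finset.prod_congr rfl fun i _ => presA_redF m i, ← map_prod]

/-- Reduction of the degree in the ordinates. -/
theorem hasLift_of_degree {K : ℕ} (g : MvPolynomial ((Fin n ⊕ Fin n) ⊕ Fin s) ℚ)
    (hg : ∀ j, g.degreeOf j ≤ K) : HasLift (4 * K) (presA a b n s g) := by
  rw [g.as_sum, map_sum]
  apply hasLift_sum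
  intro m hm
  apply hasLift_monomial
  intro j
  exact (MvPolynomial.degreeOf_le_iff.mp (hg j)) m hm

private lemma num_degR {N : MvPolynomial (Fin n ⊕ Fin n) ℚ} {C : ℕ} (hN : ∀ j, N.degreeOf j ≤ C)
    (v : (Fin n ⊕ Fin n) ⊕ Fin s) :
    (MvPolynomial.rename (Sum.inl : Fin n ⊕ Fin n → (Fin n ⊕ Fin n) ⊕ Fin s) N).degreeOf v ≤
      C := by
  classical
  rcases v with v | k
  · rw [MvPolynomial.degreeOf_rename_of_injective Sum.inl_injective]
    exact hN v
  · rw [MvPolynomial.degreeOf_le_iff]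
    intro m hm
    by_cases h0 : m (Sum.inr k) = 0
    · rw [h0]
      exact Nat.zero_le _
    · exfalso
      have h1 : Sum.inr k ∈ (MvPolynomial.rename
          (Sum.inl : Fin n ⊕ Fin n → (Fin n ⊕ Fin n) ⊕ Fin s) N).vars := by
        rw [MvPolynomial.mem_vars_iff_mem_support]
        exact ⟨m, hm, Finsupp.mem_support_iff.2 h0⟩
      have h2 := MvPolynomial.vars_rename Sum.inl N h1
      obtain ⟨x, _, hx⟩ := Finset.mem_image.1 h2
      exact Sum.inl_ne_inr hx

private lemma num_presA_inl (N : MvPolynomial (Fin n ⊕ Fin n) ℚ) :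
    presA a b n s (MvPolynomial.rename Sum.inl N) = MvPolynomial.C (mkB a b n N) := by
  rw [presA, MvPolynomial.aeval_rename]
  have h : (Sum.elim (fun j => MvPolynomial.C (mkB a b n (MvPolynomial.X j)))
      (fun k => MvPolynomial.X k) : (Fin n ⊕ Fin n) ⊕ Fin s → An a b n s) ∘ Sum.inl =
      fun j => MvPolynomial.C (mkB a b n (MvPolynomial.X j)) := by
    funext j
    rfl
  rw [h]
  induction N using MvPolynomial.induction_on with
  | C c =>
    rw [MvPolynomial.aeval_C]
    rfl
  | add F G hF hG => rw [map_add, hF, hG, mkB, mkB, mkB, map_add, map_add]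
  | mul_X F i hF => rw [map_mul, hF, MvPolynomial.aeval_X, mkB, mkB, mkB, map_mul, map_mul]

/-- Numerators of translates: a homomorphism which sends the coordinates to quotients of bounded
degree sends functions of degree at most `K` to quotients of degree at most `C₀ K`. -/
theorem exists_num (n s C : ℕ) : ∃ C₀ : ℕ, ∀ (a b : ℤ) (S : Set (Fin n → (curve a b).Point))
    (ι : Ln a b n →+* Fn a b n s)
    (_ : ∀ z : Bn a b n, ι (algebraMap _ _ z) = algebraMap (An a b n s) _ (MvPolynomial.C z))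
    (θ : Fn a b n s →+* Fn a b n s) (x' y' : Fin n → Ln a b n) (c' : Fin s → Ln a b n)
    (_ : ∀ i, Rep C S (x' i)) (_ : ∀ i, Rep C S (y' i)) (_ : ∀ k, Rep C S (c' k))
    (_ : ∀ i, θ (algebraMap (An a b n s) _ (MvPolynomial.C (xB a b i))) = ι (x' i))
    (_ : ∀ i, θ (algebraMap (An a b n s) _ (MvPolynomial.C (yB a b i))) = ι (y' i))
    (_ : ∀ k, θ (algebraMap (An a b n s) _ (MvPolynomial.X k)) =
      ι (c' k) * algebraMap (An a b n s) _ (MvPolynomial.X k))
    (K : ℕ) (_ : 1 ≤ K) (f : An a b n s) (_ : HasLift K f),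
    ∃ (num : An a b n s) (den : Bn a b n), HasLift (C₀ * K) num ∧
      θ (algebraMap (An a b n s) _ f) * algebraMap (An a b n s) _ (MvPolynomial.C den) =
        algebraMap (An a b n s) _ num ∧
      ∀ T ∈ S, ∀ h : ∀ i, T i ≠ 0, evB T h den ≠ 0 := by
  classical
  refine ⟨4 * ((n + n + s) * (2 * (C + 1))), ?_⟩
  intro a b S ι hι θ x' y' c' hx hy hc hθx hθy hθc K hK f hf
  obtain ⟨g, hg1, hg2, hg3, rfl⟩ := hf
  -- the data for every coordinate
  obtain ⟨ξ, hξ⟩ : ∃ ξ : (Fin n ⊕ Fin n) ⊕ Fin s → Ln a b n,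
      ξ = Sum.elim (Sum.elim x' y') c' := ⟨_, rfl⟩
  have hR : ∀ j, Rep C S (ξ j) := by
    intro j
    rw [hξ]
    rcases j with (i | i) | k
    · exact hx i
    · exact hy i
    · exact hc k
  choose N D hN hD hND hev using hR
  obtain ⟨w, hw⟩ : ∃ w : (Fin n ⊕ Fin n) ⊕ Fin s → MvPolynomial ((Fin n ⊕ Fin n) ⊕ Fin s) ℚ,
      w = Sum.elim (fun _ => 1) (fun k => MvPolynomial.X (Sum.inr k)) := ⟨_, rfl⟩
  have hg : ∀ j, g.degreeOf j ≤ 2 * K := by
    intro j
    rcases j with (i | i) | k
    · exact (hg1 i).trans (by omega)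
    · exact (hg2 i).trans (by omega)
    · exact (hg3 k).trans (by omega)
  have hwdeg : ∀ j v, (w j).degreeOf v ≤ 1 := by
    intro j v
    rw [hw]
    rcases j with j | k
    · simp only [Sum.elim_inl]
      rw [MvPolynomial.degreeOf_one]
      exact Nat.zero_le _
    · simp only [Sum.elim_inr]
      rw [MvPolynomial.degreeOf_X]
      split_ifs
      · exact le_rfl
      · exact Nat.zero_le _
  obtain ⟨ψ, hψ⟩ : ∃ ψ : MvPolynomial ((Fin n ⊕ Fin n) ⊕ Fin s) ℚ →+* Fn a b n s,
      ψ = (algebraMap (An a b n s) (Fn a b n s)).comp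
        (presA a b n s : MvPolynomial ((Fin n ⊕ Fin n) ⊕ Fin s) ℚ →+* An a b n s) := ⟨_, rfl⟩
  have hψa : ∀ P, ψ P = algebraMap (An a b n s) (Fn a b n s) (presA a b n s P) := by
    intro P
    rw [hψ]
    rfl
  -- the equations
  have hν : ∀ j, ι (ξ j) * ψ (MvPolynomial.rename Sum.inl (D j)) =
      ψ (MvPolynomial.rename Sum.inl (N j)) := by
    intro j
    rw [hψa, hψa, num_presA_inl, num_presA_inl, ← hι, ← hι, ← map_mul, hND j]
  have hθ : ∀ j, θ (ψ (MvPolynomial.X j)) = ι (ξ j) * ψ (w j) := by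
    intro j
    rw [hψa, hψa, hξ, hw]
    rcases j with (i | i) | k
    · simp only [Sum.elim_inl, presA, MvPolynomial.aeval_X, map_one, mul_one]
      exact hθx i
    · simp only [Sum.elim_inl, Sum.elim_inr, presA, MvPolynomial.aeval_X, map_one, mul_one]
      exact hθy i
    · simp only [Sum.elim_inr, presA, MvPolynomial.aeval_X]
      exact hθc k
  obtain ⟨G, hG⟩ : ∃ G : MvPolynomial ((Fin n ⊕ Fin n) ⊕ Fin s) ℚ,
      G = ∑ e ∈ g.support, MvPolynomial.C (MvPolynomial.coeff e g) *
        ∏ j, ((MvPolynomial.rename Sum.inl (N j) * w j) ^ e j *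
          MvPolynomial.rename Sum.inl (D j) ^ (2 * K - e j)) := ⟨_, rfl⟩
  have hGdeg : ∀ v, G.degreeOf v ≤ (n + n + s) * (2 * (C + 1)) * K := by
    intro v
    rw [hG]
    refine (MvPolynomial.degreeOf_sum_le _ _ _).trans (Finset.sup_le fun e he => ?_)
    refine (MvPolynomial.degreeOf_C_mul_le _ _ _).trans
      ((MvPolynomial.degreeOf_prod_le _ _ _).trans ?_)
    have h1 : ∀ j ∈ (Finset.univ : Finset ((Fin n ⊕ Fin n) ⊕ Fin s)),
        ((MvPolynomial.rename Sum.inl (N j) * w j) ^ e j *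
          MvPolynomial.rename Sum.inl (D j) ^ (2 * K - e j)).degreeOf v ≤
          2 * (C + 1) * K := by
      intro j _
      have he2 : e j ≤ 2 * K := (MvPolynomial.monomial_le_degreeOf j he).trans (hg j)
      refine (MvPolynomial.degreeOf_mul_le _ _ _).trans ?_
      have h2 : ((MvPolynomial.rename Sum.inl (N j) * w j) ^ e j).degreeOf v ≤
          e j * (C + 1) :=
        (MvPolynomial.degreeOf_pow_le _ _ _).trans (Nat.mul_le_mul_left _
          ((MvPolynomial.degreeOf_mul_le _ _ _).trans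
            (Nat.add_le_add (num_degR (hN j) v) (hwdeg j v))))
      have h3 : (MvPolynomial.rename Sum.inl (D j) ^ (2 * K - e j)).degreeOf v ≤
          (2 * K - e j) * (C + 1) :=
        (MvPolynomial.degreeOf_pow_le _ _ _).trans (Nat.mul_le_mul_left _
          ((num_degR (hD j) v).trans (Nat.le_succ C)))
      calc _ ≤ e j * (C + 1) + (2 * K - e j) * (C + 1) := Nat.add_le_add h2 h3
        _ = (e j + (2 * K - e j)) * (C + 1) := by ring
        _ = 2 * (C + 1) * K := by
          rw [Nat.add_sub_cancel' he2]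
          ring
    refine (Finset.sum_le_sum h1).trans (le_of_eq ?_)
    rw [Finset.sum_const, Finset.card_univ, Fintype.card_sum, Fintype.card_sum,
      Fintype.card_fin, Fintype.card_fin, smul_eq_mul]
    ring
  refine ⟨presA a b n s G, ∏ j, mkB a b n (D j) ^ (2 * K), ?_, ?_, ?_⟩
  · have h1 := hasLift_of_degree (a := a) (b := b) G hGdeg
    have h2 : 4 * ((n + n + s) * (2 * (C + 1)) * K) =
        4 * ((n + n + s) * (2 * (C + 1))) * K := by ring
    rw [h2] at h1
    exact h1
  · have e1 : algebraMap (An a b n s) (Fn a b n s)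
        (MvPolynomial.C (∏ j, mkB a b n (D j) ^ (2 * K))) =
        ∏ j, ψ (MvPolynomial.rename Sum.inl (D j)) ^ (2 * K) := by
      rw [map_prod, map_prod]
      refine Finset.prod_congr rfl fun j _ => ?_
      rw [map_pow, map_pow, hψa, num_presA_inl]
    have e2 : θ (algebraMap (An a b n s) (Fn a b n s) (presA a b n s g)) =
        ∑ e ∈ g.support, ψ (MvPolynomial.C (MvPolynomial.coeff e g)) *
          ∏ j, (ι (ξ j) * ψ (w j)) ^ e j := by
      have h1 : (θ.comp ψ) g = MvPolynomial.eval₂ ((θ.comp ψ).comp MvPolynomial.C)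
          (fun j => (θ.comp ψ) (MvPolynomial.X j)) g := by
        conv_lhs => rw [← MvPolynomial.eval₂_eta g]
        exact MvPolynomial.hom_eval₂ g MvPolynomial.C (θ.comp ψ) MvPolynomial.X
      have h2 : (θ.comp ψ) g =
          θ (algebraMap (An a b n s) (Fn a b n s) (presA a b n s g)) := by
        rw [RingHom.comp_apply, hψa]
      rw [← h2, h1, MvPolynomial.eval₂_eq']
      refine Finset.sum_congr rfl fun e _ => ?_
      congr 1
      · have h3 := RingHom.congr_fun (RingHom.ext_rat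
          ((θ.comp ψ).comp (MvPolynomial.C : ℚ →+* MvPolynomial ((Fin n ⊕ Fin n) ⊕ Fin s) ℚ))
          (ψ.comp MvPolynomial.C)) (MvPolynomial.coeff e g)
        exact h3
      · refine Finset.prod_congr rfl fun j _ => ?_
        rw [RingHom.comp_apply, hθ j]
    rw [e1, e2, ← hψa, hG, map_sum, Finset.sum_mul]
    refine Finset.sum_congr rfl fun e he => ?_
    rw [map_mul, map_prod, mul_assoc, ← Finset.prod_mul_distrib]
    congr 1
    refine Finset.prod_congr rfl fun j _ => ?_
    have he2 : e j ≤ 2 * K := (MvPolynomial.monomial_le_degreeOf j he).trans (hg j)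
    rw [map_mul, map_pow, map_pow, map_mul, ← hν j]
    have e3 : ψ (MvPolynomial.rename Sum.inl (D j)) ^ (2 * K) =
        ψ (MvPolynomial.rename Sum.inl (D j)) ^ e j *
          ψ (MvPolynomial.rename Sum.inl (D j)) ^ (2 * K - e j) := by
      rw [← pow_add, Nat.add_sub_cancel' he2]
    rw [e3, mul_pow, mul_pow, mul_pow]
    ring
  · intro T hT h
    rw [map_prod]
    refine Finset.prod_ne_zero_iff.2 fun j _ => ?_
    rw [map_pow]
    exact pow_ne_zero _ (hev j T hT h)

end MP3550b5.RG
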