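import Mathlib
import Pool.Agent.Lib.MP_3550b5_nt.RG.Num
import Pool.Agent.Lib.MP_3550b5_nt.ZE.NPoly
import Pool.Agent.Lib.MP_3550b5_nt.NRow

/-!
The auxiliary function as a regular function on the torus bundle.
-/

namespace MP3550b5.RG

open Pool.Agent.Lib.MP_3550b5_nt WeierstrassCurve.Affine

variable {p : ℕ} [hp : Fact p.Prime] {a b : ℤ}

private lemma fun_an {R : (curve a b).Point} (hR : R ≠ 0) :
    (an R : ℚ) = ptX R * (dn R : ℚ) ^ 2 := by
  obtain ⟨A, B, D, hrep, hD, hc⟩ := exists_rep hR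
  have h1 := dn_of_rep hrep hD hc
  have h2 := (rep_num_den hrep hc).1
  have h3 : (dn R : ℚ) = (D : ℚ) := by exact_mod_cast congrArg (fun z : ℤ => (z : ℚ)) h1
  have hDr : (D : ℚ) ≠ 0 := by exact_mod_cast hD.ne'
  rw [an, h2, h3, hrep.ptX_eq]
  field_simp

/-- the value of the product of denominators, from `IsNv` -/
private lemma fun_val {s m : ℕ} (hm : Even m) {Q : Fin s → (curve a b).Point} {v : Fin s → ℕ}
    {N : Polynomial ℚ × Polynomial ℚ} {c : ℚ} (hN : IsNv p Q v N c) {M : ℕ} (hv : ∀ j, v j ≤ M)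
    {R : (curve a b).Point} (gR : R ∈ goodGroup p a b) (hfar : FarQ Q (M + 1) R) :
    (dn (R + lin Q fun j => (v j : ℤ)) : ℚ) ^ m = (c⁻¹ * pv N R) ^ m * (dn R : ℚ) ^ m *
      ∏ j, (((dn R : ℚ) / dn (R - Q j)) ^ m) ^ v j := by
  obtain ⟨hc, -, -, -, hval⟩ := hN
  have h1 := hval R gR M hv hfar
  have hne : ∀ j, (dn (R - Q j) : ℚ) ≠ 0 := by
    intro j
    have h2 : R - Q j ≠ 0 := by
      intro h0
      refine hfar.ne (w := Pi.single j 1) (fun i => ?_) ?_
      · rcases eq_or_ne i j with h | h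
        · subst h
          rw [Pi.single_eq_same]
          simp
        · rw [Pi.single_eq_of_ne h, abs_zero]
          positivity
      · rw [lin_single]
        exact sub_eq_zero.1 h0
    exact_mod_cast (dn_pos h2).ne'
  obtain ⟨P, hP⟩ : ∃ P, P = ∏ j, (dn (R - Q j) : ℚ) ^ v j := ⟨_, rfl⟩
  have hP0 : P ≠ 0 := by
    rw [hP]
    exact Finset.prod_ne_zero_iff.2 fun j _ => pow_ne_zero _ (hne j)
  rw [← hP] at h1
  have h2 : ∏ j, (((dn R : ℚ) / dn (R - Q j)) ^ m) ^ v j =
      ((dn R : ℚ) ^ (∑ j, v j) / P) ^ m := by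
    rw [hP, ← Finset.prod_pow_eq_pow_sum, ← Finset.prod_div_distrib, ← Finset.prod_pow]
    refine Finset.prod_congr rfl fun j _ => ?_
    rw [← div_pow, ← pow_mul, ← pow_mul, mul_comm]
  have h3 : (dn (R + lin Q fun j => (v j : ℤ)) : ℚ) =
      c⁻¹ * |pv N R| * (dn R * ((dn R : ℚ) ^ (∑ j, v j) / P)) := by
    have hc0 : c ≠ 0 := hc.ne'
    have h4 : |pv N R| * ((dn R : ℚ) * (dn R : ℚ) ^ (∑ j, v j)) =
        c * dn (R + lin Q fun j => (v j : ℤ)) * P := by
      rw [← h1, pow_add, pow_one]
    field_simp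
    linear_combination -h4
  rw [h2, h3, mul_pow, mul_pow, mul_pow, mul_pow, hm.pow_abs]
  ring

section poly

variable {s : ℕ}

private noncomputable def fX (s : ℕ) : MvPolynomial ((Fin 1 ⊕ Fin 1) ⊕ Fin s) ℚ :=
  MvPolynomial.X (Sum.inl (Sum.inl 0))

private noncomputable def fY (s : ℕ) : MvPolynomial ((Fin 1 ⊕ Fin 1) ⊕ Fin s) ℚ :=
  MvPolynomial.X (Sum.inl (Sum.inr 0))

private noncomputable def fN (s : ℕ) (N : Polynomial ℚ × Polynomial ℚ) :
    MvPolynomial ((Fin 1 ⊕ Fin 1) ⊕ Fin s) ℚ :=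
  Polynomial.aeval (fX s) N.1 + Polynomial.aeval (fX s) N.2 * fY s

private lemma aeval_deg (P : Polynomial ℚ) {d : ℕ} (h : P.natDegree ≤ d) :
    (Polynomial.aeval (fX s) P).totalDegree ≤ d := by
  rw [Polynomial.aeval_eq_sum_range]
  refine MvPolynomial.totalDegree_finsetSum_le fun i hi => ?_
  refine (MvPolynomial.totalDegree_smul_le _ _).trans ?_
  refine (MvPolynomial.totalDegree_pow _ _).trans ?_
  rw [fX, MvPolynomial.totalDegree_X, mul_one]
  have := Finset.mem_range.1 hi
  omega

private lemma fN_deg {N : Polynomial ℚ × Polynomial ℚ} {d : ℕ} (h1 : N.1.natDegree ≤ d)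
    (h2 : N.2.natDegree + 1 ≤ d) : (fN s N).totalDegree ≤ d := by
  refine (MvPolynomial.totalDegree_add _ _).trans (max_le (aeval_deg _ h1) ?_)
  refine (MvPolynomial.totalDegree_mul _ _).trans ?_
  have h3 := aeval_deg (s := s) N.2 le_rfl
  rw [fY, MvPolynomial.totalDegree_X]
  omega

/-- the polynomial of the row `r = (k, l)`, without the coefficient -/
private noncomputable def fR {T : ℕ} (m : ℕ) (N : Fin T → Polynomial ℚ × Polynomial ℚ)
    (c : Fin T → ℚ) (k : ℕ) (e : Fin s → ℕ) : MvPolynomial ((Fin 1 ⊕ Fin 1) ⊕ Fin s) ℚ :=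
  fX s ^ k * (∏ i, (MvPolynomial.C (c i)⁻¹ * fN s (N i)) ^ m) *
    ∏ j, MvPolynomial.X (Sum.inr j) ^ e j

private lemma fR_deg {T m : ℕ} {N : Fin T → Polynomial ℚ × Polynomial ℚ} {c : Fin T → ℚ}
    {k : ℕ} {e : Fin s → ℕ} {d d' : ℕ} (h1 : ∀ i, (N i).1.natDegree ≤ d)
    (h2 : ∀ i, (N i).2.natDegree + 1 ≤ d) (he : ∀ j, e j ≤ d') :
    (fR m N c k e).totalDegree ≤ k + T * (m * d) + s * d' := by
  refine (MvPolynomial.totalDegree_mul _ _).trans (add_le_add ?_ ?_)
  · refine (MvPolynomial.totalDegree_mul _ _).trans (add_le_add ?_ ?_)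
    · refine (MvPolynomial.totalDegree_pow _ _).trans ?_
      rw [fX, MvPolynomial.totalDegree_X, mul_one]
    · refine (MvPolynomial.totalDegree_finsetProd _ _).trans ?_
      refine (Finset.sum_le_card_nsmul _ _ (m * d) fun i _ => ?_).trans ?_
      · refine (MvPolynomial.totalDegree_pow _ _).trans (Nat.mul_le_mul_left _ ?_)
        refine (MvPolynomial.totalDegree_mul _ _).trans ?_
        rw [MvPolynomial.totalDegree_C, zero_add]
        exact fN_deg (h1 i) (h2 i)
      · simp
  · refine (MvPolynomial.totalDegree_finsetProd _ _).trans ?_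
    refine (Finset.sum_le_card_nsmul _ _ d' fun j _ => ?_).trans ?_
    · refine (MvPolynomial.totalDegree_pow _ _).trans ?_
      rw [MvPolynomial.totalDegree_X, mul_one]
      exact he j
    · simp

/-- the function `N_1 (x) + N_2 (x) y` -/
private noncomputable def bN (a b : ℤ) (N : Polynomial ℚ × Polynomial ℚ) : Bn a b 1 :=
  Polynomial.aeval (xB a b 0) N.1 + Polynomial.aeval (xB a b 0) N.2 * yB a b 0

/-- the coefficient of the row -/
private noncomputable def bR (a b : ℤ) {T : ℕ} (m : ℕ) (N : Fin T → Polynomial ℚ × Polynomial ℚ)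
    (c : Fin T → ℚ) (k : ℕ) : Bn a b 1 :=
  xB a b 0 ^ k * ∏ i, (algebraMap ℚ (Bn a b 1) (c i)⁻¹ * bN a b (N i)) ^ m

private lemma C_aeval (P : Polynomial ℚ) : (MvPolynomial.C (Polynomial.aeval (xB a b 0) P) :
    An a b 1 s) = Polynomial.aeval (MvPolynomial.C (xB a b 0) : An a b 1 s) P := by
  rw [Polynomial.aeval_def, Polynomial.aeval_def, Polynomial.hom_eval₂]
  rfl

private lemma presA_X : presA a b 1 s (fX s) = MvPolynomial.C (xB a b 0) := by
  rw [presA, fX, MvPolynomial.aeval_X]
  rfl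

private lemma presA_Y : presA a b 1 s (fY s) = MvPolynomial.C (yB a b 0) := by
  rw [presA, fY, MvPolynomial.aeval_X]
  rfl

private lemma presA_N (N : Polynomial ℚ × Polynomial ℚ) :
    presA a b 1 s (fN s N) = MvPolynomial.C (bN a b N) := by
  rw [fN, bN, map_add, map_mul, map_add, map_mul, C_aeval, C_aeval,
    ← Polynomial.aeval_algHom_apply, ← Polynomial.aeval_algHom_apply, presA_X, presA_Y]

private lemma presA_C (c : ℚ) : presA a b 1 s (MvPolynomial.C c) =
    MvPolynomial.C (algebraMap ℚ (Bn a b 1) c) := by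
  rw [presA, MvPolynomial.aeval_C]
  rfl

private lemma presA_R {T m : ℕ} (N : Fin T → Polynomial ℚ × Polynomial ℚ) (c : Fin T → ℚ)
    (k : ℕ) (e : Fin s → ℕ) : presA a b 1 s (fR m N c k e) =
      MvPolynomial.monomial (Finsupp.equivFunOnFinite.symm e) (bR a b m N c k) := by
  rw [MvPolynomial.monomial_eq, fR, bR, map_mul, map_mul, map_mul, map_pow, map_pow, map_prod,
    map_prod, map_prod, presA_X]
  congr 1
  · congr 1
    refine Finset.prod_congr rfl fun i _ => ?_
    rw [map_pow, map_pow, map_mul, map_mul, presA_N, presA_C]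
  · rw [Finsupp.prod_fintype _ _ fun _ => pow_zero _]
    refine Finset.prod_congr rfl fun j _ => ?_
    rw [map_pow, presA, MvPolynomial.aeval_X]
    rfl

end poly

private lemma evB_aeval {R : (curve a b).Point} (hR : ∀ i : Fin 1, (fun _ => R) i ≠ 0)
    (P : Polynomial ℚ) : evB (fun _ => R) hR (Polynomial.aeval (xB a b 0) P) =
      P.eval (ptX R) := by
  rw [← Polynomial.aeval_algHom_apply, evB_x, Polynomial.coe_aeval_eq_eval]

private lemma evB_N {R : (curve a b).Point} (hR : ∀ i : Fin 1, (fun _ => R) i ≠ 0)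
    (N : Polynomial ℚ × Polynomial ℚ) : evB (fun _ => R) hR (bN a b N) = pv N R := by
  rw [bN, map_add, map_mul, evB_aeval, evB_aeval, evB_y, pv]

/-- the abscissa is transcendental -/
private lemma aeval_x_ne {P : Polynomial ℚ} (hP : P ≠ 0) :
    Polynomial.aeval (xB a b (0 : Fin 1)) P ≠ 0 := by
  let K := AlgebraicClosure (FractionRing (Polynomial ℚ))
  obtain ⟨v, hv⟩ := IsAlgClosed.exists_pow_nat_eq
    ((algebraMap (Polynomial ℚ) K Polynomial.X) ^ 3 +
      algebraMap ℚ K a * algebraMap (Polynomial ℚ) K Polynomial.X + algebraMap ℚ K b)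
    (n := 2) (by norm_num)
  intro h0
  have h1 := congrArg (liftB (n := 1) (fun _ => algebraMap (Polynomial ℚ) K Polynomial.X)
    (fun _ => v) fun _ => hv) h0
  rw [map_zero, ← Polynomial.aeval_algHom_apply, liftB_x, Polynomial.aeval_algebraMap_apply,
    Polynomial.aeval_X_left_apply] at h1
  refine hP ((map_eq_zero_iff _ ?_).1 h1)
  have h2 : Function.Injective (algebraMap (FractionRing (Polynomial ℚ)) K) :=
    (algebraMap (FractionRing (Polynomial ℚ)) K).injective
  have h3 : (algebraMap (Polynomial ℚ) K : Polynomial ℚ → K) =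
      (algebraMap (FractionRing (Polynomial ℚ)) K) ∘
        (algebraMap (Polynomial ℚ) (FractionRing (Polynomial ℚ))) := by
    rw [IsScalarTower.algebraMap_eq (Polynomial ℚ) (FractionRing (Polynomial ℚ)) K]
    rfl
  rw [h3]
  exact h2.comp (IsFractionRing.injective _ _)

/-- The auxiliary function as a regular function on the torus bundle. -/
theorem exists_fun (H : TwoTerm p a b) {s : ℕ} (hs : 2 ≤ s) {Q : Fin s → (curve a b).Point}
    (hQ : ∀ j, Q j ∈ goodGroup p a b) (hind : ∀ n : Fin s → ℤ, lin Q n = 0 → n = 0) {m : ℕ}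
    (hm : Even m) : ∃ C : ℕ, ∀ T B : ℕ, 1 ≤ T → 2 ≤ B →
      ∀ c : Fin (T + 1) × (Fin s → Fin (T * (B - 1))) → ℤ, c ≠ 0 →
        ∃ f : An a b 1 s, f ≠ 0 ∧ HasLift (C * (T * B)) f ∧
          ∀ R ∈ goodGroup p a b, FarQ Q (B + 1) R → ∀ hR : ∀ i : Fin 1, (fun _ => R) i ≠ 0,
            evA m (fun _ j => Q j) (fun _ => R) hR f * (dn R : ℚ) ^ (2 * T + m * T) =
              ((∑ r, c r * rowF m T Q r.1 r.2 R : ℤ) : ℚ) := by
  have hNex : ∀ v : Fin s → ℕ, (∀ j, 1 ≤ v j) →
      ∃ (N : Polynomial ℚ × Polynomial ℚ) (c : ℚ), IsNv p Q v N c := fun v hv =>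
    exists_isNv H hQ hind (i₀ := ⟨0, by omega⟩) (i₁ := ⟨1, by omega⟩) (by
      intro h
      have := congrArg Fin.val h
      simp at this) v (hv _) (hv _)
  refine ⟨4 * (1 + m * (1 + s) + s), fun T B hT hB c hc => ?_⟩
  let v : (Fin s → Fin (T * (B - 1))) → Fin T → Fin s → ℕ := fun l i j => (bal T l i j).toNat
  have hv : ∀ l i j, (v l i j : ℤ) = bal T l i j := fun l i j =>
    Int.toNat_of_nonneg (by have := (bal_bounds l i j).1; omega)
  have hv1 : ∀ l i j, 1 ≤ v l i j := fun l i j => by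
    have h1 := (bal_bounds l i j).1
    have h2 := hv l i j
    omega
  have hvB : ∀ l i j, v l i j ≤ B := fun l i j => by
    have h1 := (bal_bounds l i j).2
    have h2 := hv l i j
    omega
  have hvsum : ∀ l i, ∑ j, v l i j ≤ s * B := fun l i => by
    refine (Finset.sum_le_card_nsmul _ _ B fun j _ => hvB l i j).trans ?_
    simp
  have hvtot : ∀ l j, ∑ i, v l i j = T + (l j : ℕ) := fun l j => by
    have h1 := bal_sum (T := T) (by omega) l j
    have h2 : ((∑ i, v l i j : ℕ) : ℤ) = T + (l j : ℕ) := by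
      rw [← h1]
      push_cast
      exact Finset.sum_congr rfl fun i _ => hv l i j
    exact_mod_cast h2
  choose N cc hN using fun (l : Fin s → Fin (T * (B - 1))) (i : Fin T) =>
    hNex (v l i) (hv1 l i)
  let e : (Fin s → Fin (T * (B - 1))) → Fin s → ℕ := fun l j => T + (l j : ℕ)
  have hlN : ∀ (l : Fin s → Fin (T * (B - 1))) j, e l j ≤ T * B := by
    intro l j
    have h1 := (l j).2
    have h2 : T * B = T * (B - 1) + T := by
      obtain ⟨B', rfl⟩ : ∃ B', B = B' + 1 := ⟨B - 1, by omega⟩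
      rw [Nat.add_sub_cancel]
      ring
    show T + (l j : ℕ) ≤ T * B
    omega
  let g : MvPolynomial ((Fin 1 ⊕ Fin 1) ⊕ Fin s) ℚ :=
    ∑ r, MvPolynomial.C (c r : ℚ) * fR m (N r.2) (cc r.2) r.1 (e r.2)
  have hgdeg : g.totalDegree ≤ (1 + m * (1 + s) + s) * (T * B) := by
    refine MvPolynomial.totalDegree_finsetSum_le fun r _ => ?_
    refine (MvPolynomial.totalDegree_mul _ _).trans ?_
    rw [MvPolynomial.totalDegree_C, zero_add]
    refine (fR_deg (d := 1 + s * B) (d' := T * B) (fun i => ?_) (fun i => ?_)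
      (hlN r.2)).trans ?_
    · exact (hN r.2 i).2.1.trans (by have := hvsum r.2 i; omega)
    · exact (hN r.2 i).2.2.1.trans (by have := hvsum r.2 i; omega)
    · have h1 : (r.1 : ℕ) ≤ T := Nat.lt_succ_iff.1 r.1.2
      have h2 : T * 1 ≤ T * B := Nat.mul_le_mul_left T (by omega)
      have h3 : T * (m * (1 + s * B)) ≤ m * (1 + s) * (T * B) := by
        have h4 : T * (m * (1 + s * B)) = m * (T * (1 + s * B)) := by ring
        have h5 : m * (1 + s) * (T * B) = m * (T * (B + s * B)) := by ring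
        rw [h4, h5]
        exact Nat.mul_le_mul_left _ (Nat.mul_le_mul_left _ (by omega))
      have h6 : (1 + m * (1 + s) + s) * (T * B) =
          T * B + m * (1 + s) * (T * B) + s * (T * B) := by ring
      omega
  have hf : presA a b 1 s g = ∑ r, MvPolynomial.monomial (Finsupp.equivFunOnFinite.symm (e r.2))
      (algebraMap ℚ (Bn a b 1) (c r : ℚ) * bR a b m (N r.2) (cc r.2) r.1) := by
    rw [map_sum]
    refine Finset.sum_congr rfl fun r _ => ?_
    rw [map_mul, presA_C, presA_R, MvPolynomial.C_mul_monomial]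
  refine ⟨presA a b 1 s g, ?_, ?_, ?_⟩
  · -- the function is not zero
    intro h0
    obtain ⟨r0, hr0⟩ : ∃ r, c r ≠ 0 := by
      by_contra hcon
      push Not at hcon
      exact hc (funext hcon)
    have hE : ∀ l, ∏ i, (algebraMap ℚ (Bn a b 1) (cc l i)⁻¹ * bN a b (N l i)) ^ m ≠ 0 := by
      intro l
      refine Finset.prod_ne_zero_iff.2 fun i _ => pow_ne_zero _ (mul_ne_zero ?_ ?_)
      · exact (map_ne_zero_iff _ (algebraMap ℚ (Bn a b 1)).injective).2
          (inv_ne_zero (hN l i).1.ne')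
      · obtain ⟨R, hRdef⟩ : ∃ R, R = lin Q (fun _ => ((B + 2 : ℕ) : ℤ)) := ⟨_, rfl⟩
        have gR : R ∈ goodGroup p a b := by
          rw [hRdef, lin_apply]
          exact sum_mem fun i _ => zsmul_mem (hQ i) _
        have hfar : FarQ Q (B + 1) R := by
          intro w hw h1
          have h2 : lin Q ((fun _ => ((B + 2 : ℕ) : ℤ)) - w) = 0 := by
            rw [map_sub, ← hRdef, h1, sub_self]
          have h3 := congrFun (hind _ h2) ⟨0, by omega⟩
          have h4 := hw ⟨0, by omega⟩
          simp only [Pi.sub_apply, Pi.zero_apply] at h3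
          have h5 := abs_le.1 h4
          push_cast at h3 h5
          omega
        intro h1
        have h2 : pv (N l i) R = 0 := by
          rw [← evB_N (fun _ => hfar.ne_zero) (N l i), h1, map_zero]
        have h3 := (hN l i).2.2.2.2 R gR B (hvB l i) hfar
        rw [h2, abs_zero, zero_mul] at h3
        have h4 : (dn (R + lin Q fun j => (v l i j : ℤ)) : ℚ) ≠ 0 := by
          have h5 : R + lin Q (fun j => (v l i j : ℤ)) ≠ 0 := by
            intro h5
            refine hfar.ne (w := fun j => -(v l i j : ℤ)) (fun j => ?_) ?_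
            · rw [abs_neg, Nat.abs_cast]
              have := hvB l i j
              push_cast
              omega
            · rw [eq_neg_of_add_eq_zero_left h5, ← map_neg]
              rfl
          exact_mod_cast (dn_pos h5).ne'
        have h5 : ∏ j, (dn (R - Q j) : ℚ) ^ v l i j ≠ 0 := by
          refine Finset.prod_ne_zero_iff.2 fun j _ => pow_ne_zero _ ?_
          have h6 : R - Q j ≠ 0 := by
            intro h6
            refine hfar.ne (w := Pi.single j 1) (fun i => ?_) ?_
            · rcases eq_or_ne i j with h | h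
              · subst h
                rw [Pi.single_eq_same]
                simp
              · rw [Pi.single_eq_of_ne h, abs_zero]
                positivity
            · rw [lin_single]
              exact sub_eq_zero.1 h6
          exact_mod_cast (dn_pos h6).ne'
        exact mul_ne_zero (mul_ne_zero (hN l i).1.ne' h4) h5 h3.symm
    have hcoef := congrArg
      (MvPolynomial.coeff (Finsupp.equivFunOnFinite.symm (e r0.2))) h0
    rw [hf, MvPolynomial.coeff_sum, MvPolynomial.coeff_zero, Fintype.sum_prod_type_right,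
      Finset.sum_eq_single r0.2] at hcoef
    · simp only [MvPolynomial.coeff_monomial, if_true] at hcoef
      have h1 : (∑ k : Fin (T + 1), algebraMap ℚ (Bn a b 1) (c (k, r0.2) : ℚ) *
          xB a b 0 ^ (k : ℕ)) * ∏ i, (algebraMap ℚ (Bn a b 1) (cc r0.2 i)⁻¹ *
            bN a b (N r0.2 i)) ^ m = 0 := by
        rw [← hcoef, Finset.sum_mul]
        refine Finset.sum_congr rfl fun k _ => ?_
        rw [bR, mul_assoc]
      have h2 := (mul_eq_zero.1 h1).resolve_right (hE r0.2)
      let P : Polynomial ℚ := ∑ k : Fin (T + 1), Polynomial.C (c (k, r0.2) : ℚ) *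
        Polynomial.X ^ (k : ℕ)
      have hP : Polynomial.aeval (xB a b (0 : Fin 1)) P = 0 := by
        rw [← h2, map_sum]
        refine Finset.sum_congr rfl fun k _ => ?_
        rw [map_mul, map_pow, Polynomial.aeval_C, Polynomial.aeval_X]
      have hP0 : P ≠ 0 := by
        intro h3
        have h4 := congrArg (fun q => Polynomial.coeff q (r0.1 : ℕ)) h3
        simp only [P, Polynomial.finsetSum_coeff, Polynomial.coeff_C_mul_X_pow,
          Polynomial.coeff_zero] at h4
        rw [Finset.sum_eq_single r0.1] at h4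
        · rw [if_pos rfl] at h4
          exact hr0 (by exact_mod_cast h4)
        · intro k _ hk
          rw [if_neg]
          intro h5
          exact hk (Fin.ext h5.symm)
        · intro h5
          exact absurd (Finset.mem_univ _) h5
      exact aeval_x_ne hP0 hP
    · intro l _ hl
      refine Finset.sum_eq_zero fun k _ => ?_
      rw [MvPolynomial.coeff_monomial, if_neg]
      intro h1
      apply hl
      have h2 := Finsupp.equivFunOnFinite.symm.injective h1
      funext j
      have h3 := congrFun h2 j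
      have h4 : T + (l j : ℕ) = T + (r0.2 j : ℕ) := h3
      exact Fin.ext (by omega)
    · intro h1
      exact absurd (Finset.mem_univ _) h1
  · -- degrees
    have h1 := hasLift_of_degree (a := a) (b := b) g fun j =>
      (MvPolynomial.degreeOf_le_totalDegree g j).trans hgdeg
    rwa [← mul_assoc] at h1
  · -- values
    intro R gR hfar hR
    have hR0 := hfar.ne_zero
    rw [hf, map_sum, Finset.sum_mul]
    push_cast
    refine Finset.sum_congr rfl fun r _ => ?_
    have hw : ∀ j, wv m (fun _ : Fin 1 => fun j => Q j) (fun _ => R) j =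
        ((dn R : ℚ) / dn (R - Q j)) ^ m := by
      intro j
      rw [wv]
      simp
    have h1 : evA m (fun _ j => Q j) (fun _ => R) hR
        (MvPolynomial.monomial (Finsupp.equivFunOnFinite.symm (e r.2))
          (algebraMap ℚ (Bn a b 1) (c r : ℚ) * bR a b m (N r.2) (cc r.2) r.1)) =
        (c r : ℚ) * (ptX R ^ (r.1 : ℕ) * ∏ i, ((cc r.2 i)⁻¹ * pv (N r.2 i) R) ^ m) *
          ∏ j, (((dn R : ℚ) / dn (R - Q j)) ^ m) ^ e r.2 j := by
      rw [MvPolynomial.monomial_eq, map_mul, evA_C, map_mul, AlgHom.commutes,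
        Finsupp.prod_fintype _ _ fun _ => pow_zero _, map_prod, bR, map_mul, map_pow, evB_x,
        map_prod]
      congr 1
      · congr 2
        refine Finset.prod_congr rfl fun i _ => ?_
        rw [map_pow, map_mul, AlgHom.commutes, evB_N]
        rfl
      · refine Finset.prod_congr rfl fun j _ => ?_
        rw [map_pow, evA_X, hw]
        rfl
    have h2 : ∏ i, (dn (R + lin Q (bal T r.2 i)) : ℚ) ^ m =
        (∏ i, ((cc r.2 i)⁻¹ * pv (N r.2 i) R) ^ m) * (dn R : ℚ) ^ (m * T) *
          ∏ j, (((dn R : ℚ) / dn (R - Q j)) ^ m) ^ e r.2 j := by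
      have h3 : ∀ i, (dn (R + lin Q (bal T r.2 i)) : ℚ) ^ m =
          ((cc r.2 i)⁻¹ * pv (N r.2 i) R) ^ m * (dn R : ℚ) ^ m *
            ∏ j, (((dn R : ℚ) / dn (R - Q j)) ^ m) ^ v r.2 i j := by
        intro i
        rw [← fun_val hm (hN r.2 i) (hvB r.2 i) gR hfar]
        have h4 : (fun j => (v r.2 i j : ℤ)) = bal T r.2 i := funext fun j => hv r.2 i j
        rw [h4]
      rw [Finset.prod_congr rfl fun i _ => h3 i, Finset.prod_mul_distrib,
        Finset.prod_mul_distrib, Finset.prod_const, Finset.card_univ, Fintype.card_fin,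
        ← pow_mul, Finset.prod_comm]
      congr 1
      refine Finset.prod_congr rfl fun j _ => ?_
      rw [Finset.prod_pow_eq_pow_sum, hvtot]
    rw [h1, rowF]
    push_cast
    rw [h2, fun_an hR0, mul_pow, ← pow_mul, pow_add (dn R : ℚ) (2 * T) (m * T)]
    have h5 : (dn R : ℚ) ^ (2 * T) = (dn R : ℚ) ^ (2 * (r.1 : ℕ)) *
        (dn R : ℚ) ^ (2 * (T - (r.1 : ℕ))) := by
      rw [← pow_add]
      congr 1
      have : (r.1 : ℕ) ≤ T := Nat.lt_succ_iff.1 r.1.2
      omega
    rw [h5]
    ring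

end MP3550b5.RG
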