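import Mathlib
import Pool.Agent.Lib.MP_3550b5_nt.NAux
import Pool.Agent.Lib.MP_3550b5_nt.RMain
import Pool.Agent.Lib.MP_3550b5_nt.NMain

/-!
The auxiliary function, by interpolation determinants.
-/

namespace MP3550b5.RG

open Pool.Agent.Lib.MP_3550b5_nt WeierstrassCurve.Affine PowerSeries

variable {p : ℕ} [hp : Fact p.Prime] {a b : ℤ}

/-- The pairing of combinations. -/
private lemma pair_lin {Bh : (curve a b).Point → (curve a b).Point → ℚ_[p]}
    (hB : IsCanonicalHeight p a b Bh) {l s ρ : ℕ}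
    {P : Fin l → (curve a b).Point} {Q : Fin s → (curve a b).Point}
    {x : Fin l → Fin ρ → ℤ_[p]} {y : Fin s → Fin ρ → ℤ_[p]}
    (hxy : ∀ i j, ((∑ k, x i k * y j k : ℤ_[p]) : ℚ_[p]) = Bh (P i) (Q j))
    (m : Fin l → ℤ) (n : Fin s → ℤ) :
    ((∑ k, (∑ i, (m i : ℤ_[p]) * x i k) * (∑ j, (n j : ℤ_[p]) * y j k) : ℤ_[p]) : ℚ_[p]) =
      Bh (lin P m) (lin Q n) := by
  have h1 : (∑ k, (∑ i, (m i : ℤ_[p]) * x i k) * (∑ j, (n j : ℤ_[p]) * y j k)) =
      ∑ i, ∑ j, ((m i : ℤ_[p]) * (n j : ℤ_[p])) * ∑ k, x i k * y j k := by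
    have h2 : ∀ k : Fin ρ, (∑ i, (m i : ℤ_[p]) * x i k) * (∑ j, (n j : ℤ_[p]) * y j k) =
        ∑ i, ∑ j, ((m i : ℤ_[p]) * (n j : ℤ_[p])) * (x i k * y j k) := by
      intro k
      rw [Finset.sum_mul_sum]
      refine Finset.sum_congr rfl fun i _ => Finset.sum_congr rfl fun j _ => ?_
      ring
    rw [Finset.sum_congr rfl fun k _ => h2 k, Finset.sum_comm]
    refine Finset.sum_congr rfl fun i _ => ?_
    rw [Finset.sum_comm]
    refine Finset.sum_congr rfl fun j _ => ?_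
    rw [Finset.mul_sum]
  have h3 : Bh (lin P m) (lin Q n) = ∑ i, ∑ j, ((m i : ℚ_[p]) * (n j : ℚ_[p])) * Bh (P i) (Q j) := by
    rw [lin_apply P, hB.sum]
    refine Finset.sum_congr rfl fun i _ => ?_
    rw [hB.zsmul, hB.symm, lin_apply Q, hB.sum, Finset.mul_sum]
    refine Finset.sum_congr rfl fun j _ => ?_
    rw [hB.zsmul, hB.symm]
    ring
  rw [h1, h3]
  have h4 : ((∑ i, ∑ j, ((m i : ℤ_[p]) * (n j : ℤ_[p])) * ∑ k, x i k * y j k : ℤ_[p]) : ℚ_[p]) =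
      ∑ i, ∑ j, ((m i : ℚ_[p]) * (n j : ℚ_[p])) *
        ((∑ k, x i k * y j k : ℤ_[p]) : ℚ_[p]) := by
    have h5 := map_sum (PadicInt.Coe.ringHom (p := p))
      (fun i => ∑ j, ((m i : ℤ_[p]) * (n j : ℤ_[p])) * ∑ k, x i k * y j k) Finset.univ
    refine Eq.trans h5 (Finset.sum_congr rfl fun i _ => ?_)
    have h6 := map_sum (PadicInt.Coe.ringHom (p := p))
      (fun j => ((m i : ℤ_[p]) * (n j : ℤ_[p])) * ∑ k, x i k * y j k) Finset.univ
    refine Eq.trans h6 (Finset.sum_congr rfl fun j _ => ?_)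
    rw [map_mul, map_mul, map_intCast, map_intCast]
    rfl
  rw [h4]
  refine Finset.sum_congr rfl fun i _ => Finset.sum_congr rfl fun j _ => ?_
  rw [hxy]

/-- Interpolation determinants of the functions of the construction are highly divisible. -/
theorem det_row_dvd (hp5 : 5 ≤ p) {Bh : (curve a b).Point → (curve a b).Point → ℚ_[p]}
    (hB : IsCanonicalHeight p a b Bh) {l s ρ : ℕ} (hs : 1 ≤ s)
    {P : Fin l → (curve a b).Point} (hP : ∀ i, P i ∈ goodGroup p a b)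
    {Q : Fin s → (curve a b).Point} (hQ : ∀ j, Q j ∈ goodGroup p a b)
    (hindQ : ∀ n : Fin s → ℤ, ∑ j, n j • Q j = 0 → n = 0)
    {x : Fin l → Fin ρ → ℤ_[p]} {y : Fin s → Fin ρ → ℤ_[p]}
    (hx : ∀ i k, (p : ℤ_[p]) ∣ x i k) (hy : ∀ i k, (p : ℤ_[p]) ∣ y i k)
    (hxy : ∀ i j, ((∑ k, x i k * y j k : ℤ_[p]) : ℚ_[p]) = Bh (P i) (Q j)) (T B h : ℕ)
    (pt : Fin (T + 1) × (Fin s → Fin (T * (B - 1))) → (Fin l → ℤ))
    (hpt : ∀ r, Fine Q B (lin P (pt r))) :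
    (p : ℤ) ^ (h * ((T + 1) * (T * (B - 1)) ^ s - h ^ (ρ + 1))) ∣
      (Matrix.of fun r' r => rowF (p - 1) T Q r.1 r.2 (lin P (pt r'))).det := by
  classical
  obtain ⟨σ, ξ, W, u, hW, hu⟩ := exists_sigma2 hB
  have hu' : ∀ Q ∈ goodGroup p a b, Q ≠ 0 → IsUnit (u Q) ∧
      ev σ (tz p Q) = (dn Q : ℤ_[p]) * u Q ∧ ulog (u Q) = Bh Q Q :=
    fun Q h1 h2 => ⟨(hu Q h1 h2).1, (hu Q h1 h2).2.1, (hu Q h1 h2).2.2.1⟩
  have i0 : Fin s := ⟨0, hs⟩
  have hPg : ∀ n : Fin l → ℤ, lin P n ∈ goodGroup p a b := by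
    intro n
    rw [lin_apply]
    exact sum_mem fun i _ => zsmul_mem (hP i) _
  have hVg : ∀ n : Fin s → ℤ, lin Q n ∈ goodGroup p a b := by
    intro n
    rw [lin_apply]
    exact sum_mem fun i _ => zsmul_mem (hQ i) _
  have hV0 : ∀ (v : Fin s → Fin (T * (B - 1))) (i : Fin T), lin Q (bal T v i) ≠ 0 := by
    intro v i h0
    have h1 := hindQ _ h0
    have h2 := (bal_bounds v i i0).1
    rw [h1] at h2
    simp at h2
  set R : Fin (T + 1) × (Fin s → Fin (T * (B - 1))) → (curve a b).Point :=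
    fun r => lin P (pt r) with hR
  have hRg : ∀ r, R r ∈ goodGroup p a b := fun r => hPg _
  have hR0 : ∀ r, R r ≠ 0 := fun r => (hpt r).1
  have hXX : ∀ r (v : Fin s → Fin (T * (B - 1))) (i : Fin T),
      ptX (R r) ≠ ptX (lin Q (bal T v i)) := fun r v i => (hpt r).2 _ fun j => bal_bounds v i j
  have hs0 : ∀ r (v : Fin s → Fin (T * (B - 1))) (i : Fin T), R r + lin Q (bal T v i) ≠ 0 := by
    intro r v i h0
    apply hXX r v i
    have h1 : R r = -lin Q (bal T v i) := eq_neg_of_add_eq_zero_left h0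
    obtain ⟨hh, e⟩ := exists_eq_some _ (hV0 v i)
    rw [h1, e, Point.neg_some, ptX_some, ptX_some]
  have hRk : ∀ r, 1 < ‖((ptX (R r) : ℚ) : ℚ_[p])‖ := fun r =>
    ((hRg r).resolve_left (hR0 r)).1
  have hVk : ∀ (v : Fin s → Fin (T * (B - 1))) (i : Fin T),
      1 < ‖((ptX (lin Q (bal T v i)) : ℚ) : ℚ_[p])‖ := fun v i =>
    ((hVg _).resolve_left (hV0 v i)).1
  set X' : Fin (T + 1) × (Fin s → Fin (T * (B - 1))) → Fin ρ → ℤ_[p] :=
    fun r k => ∑ i, (pt r i : ℤ_[p]) * x i k with hX'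
  set Y' : (Fin s → ℤ) → Fin ρ → ℤ_[p] := fun n k => ∑ j, (n j : ℤ_[p]) * y j k with hY'
  have hXp : ∀ r k, (p : ℤ_[p]) ∣ X' r k := fun r k =>
    Finset.dvd_sum fun i _ => Dvd.dvd.mul_left (hx i k) _
  have hYp : ∀ n k, (p : ℤ_[p]) ∣ Y' n k := fun n k =>
    Finset.dvd_sum fun j _ => Dvd.dvd.mul_left (hy j k) _
  have hpair : ∀ r n, ((∑ k, X' r k * Y' n k : ℤ_[p]) : ℚ_[p]) = Bh (R r) (lin Q n) :=
    fun r n => pair_lin hB hxy (pt r) n
  set α : Fin (T + 1) × (Fin s → Fin (T * (B - 1))) → Fin (ρ + 1) → ℤ_[p] :=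
    fun r => Fin.cons (tz p (R r)) (X' r) with hα
  have hαp : ∀ r k, (p : ℤ_[p]) ∣ α r k := by
    intro r k
    refine Fin.cases ?_ (fun k => ?_) k
    · rw [hα]; exact Ker.dvd_tz (Or.inr (hRk r))
    · rw [hα]; exact hXp r k
  set c : ℤ_[p] := ((2 * (p - 1 : ℕ) : ℕ) : ℤ_[p]) with hc
  -- one factor
  have hfac : ∀ r (v : Fin s → Fin (T * (B - 1))) (i : Fin T),
      (dn (R r + lin Q (bal T v i)) : ℤ_[p]) ^ (p - 1) *
        (u (R r) ^ (p - 1) * u (lin Q (bal T v i)) ^ (p - 1)) =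
      ev σ (tz p (R r + lin Q (bal T v i))) ^ (p - 1) *
        ∏ k, ev (expS (-c * Y' (bal T v i) k)) (α r k.succ) := by
    intro r v i
    have hβ : (p : ℤ_[p]) ^ 2 ∣ ∑ k, X' r k * Y' (bal T v i) k := by
      apply Finset.dvd_sum
      intro k _
      rw [pow_two]
      exact mul_dvd_mul (hXp r k) (hYp _ k)
    have h1 := kernel_identity hp5 hB hu' (hRg r) (hVg (bal T v i)) (hR0 r) (hV0 v i) (hs0 r v i)
      hβ (hpair r _)
    have h2 : pexp (-c * ∑ k, X' r k * Y' (bal T v i) k) =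
        ∏ k, ev (expS (-c * Y' (bal T v i) k)) (α r k.succ) := by
      have h3 : ∀ U : Finset (Fin ρ), pexp (-c * ∑ k ∈ U, X' r k * Y' (bal T v i) k) =
          ∏ k ∈ U, ev (expS (-c * Y' (bal T v i) k)) (α r k.succ) := by
        intro U
        induction U using Finset.induction_on with
        | empty => simp [pexp_zero]
        | insert k U hk ih =>
          have d1 : (p : ℤ_[p]) ∣ -c * Y' (bal T v i) k := Dvd.dvd.mul_left (hYp _ k) _
          have d2 : α r k.succ = X' r k := by rw [hα]; rfl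
          rw [Finset.sum_insert hk, Finset.prod_insert hk, mul_add, ← ih, d2,
            ev_expS (hXp r k) d1]
          have d3 : (p : ℤ_[p]) ^ 2 ∣ X' r k * (-c * Y' (bal T v i) k) := by
            rw [pow_two]; exact mul_dvd_mul (hXp r k) d1
          have d4 : (p : ℤ_[p]) ^ 2 ∣ -c * ∑ k ∈ U, X' r k * Y' (bal T v i) k := by
            apply Dvd.dvd.mul_left
            apply Finset.dvd_sum
            intro k _
            rw [pow_two]
            exact mul_dvd_mul (hXp r k) (hYp _ k)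
          rw [← pexp_add d3 d4]
          congr 1
          ring
      exact h3 Finset.univ
    rw [h2] at h1
    exact h1
  set F : Fin (T + 1) × (Fin s → Fin (T * (B - 1))) →
      Fin (T + 1) × (Fin s → Fin (T * (B - 1))) → ℤ_[p] := fun r r' =>
    ev ξ (tz p (R r')) ^ (r.1 : ℕ) * ev σ (tz p (R r')) ^ (2 * (T - r.1)) *
      ∏ i : Fin T, (ev σ (tz p (R r' + lin Q (bal T r.2 i))) ^ (p - 1) *
        ∏ k, ev (expS (-c * Y' (bal T r.2 i) k)) (α r' k.succ)) with hF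
  have hcp : ∀ r, (p : ℤ_[p]) ∣ tz p (R r) := fun r => Ker.dvd_tz (Or.inr (hRk r))
  have hco : Appr α (fun r => tz p (R r)) := by
    have h1 := Appr.coord (a := α) 0
    exact h1
  have hFA : ∀ r, Appr α (F r) := by
    intro r
    refine (((hco.ev ξ hcp).pow _).mul ((hco.ev σ hcp).pow _)).mul
      (Appr.prod fun i _ => Appr.mul (Appr.pow (Appr.ev σ ?_ ?_) _) (Appr.prod fun k _ => ?_))
    · exact appr_tz_add (i := 0) hW hRk (hVk r.2 i) (fun r' => hXX r' r.2 i)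
        (fun r' => by rw [hα]; rfl)
    · intro r'
      exact Ker.dvd_tz (Ker.of_good (add_mem (hRg r') (hVg _)))
    · exact (Appr.coord k.succ).ev _ (fun r' => hαp r' k.succ)
  have hid : ∀ r r', F r r' = (∏ i : Fin T, u (lin Q (bal T r.2 i)) ^ (p - 1)) *
      (u (R r') ^ (2 * T + (p - 1) * T) *
        ((rowF (p - 1) T Q r.1 r.2 (R r') : ℤ) : ℤ_[p])) := by
    intro r r'
    obtain ⟨-, u2, -, u4⟩ := hu (R r') (hRg r') (hR0 r')
    have h1 : ∀ i : Fin T, ev σ (tz p (R r' + lin Q (bal T r.2 i))) ^ (p - 1) *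
        ∏ k, ev (expS (-c * Y' (bal T r.2 i) k)) (α r' k.succ) =
        (dn (R r' + lin Q (bal T r.2 i)) : ℤ_[p]) ^ (p - 1) * u (R r') ^ (p - 1) *
          u (lin Q (bal T r.2 i)) ^ (p - 1) := by
      intro i
      rw [← hfac r' r.2 i]
      ring
    have h2 : F r r' = ev ξ (tz p (R r')) ^ (r.1 : ℕ) * ev σ (tz p (R r')) ^ (2 * (T - r.1)) *
      ∏ i : Fin T, (ev σ (tz p (R r' + lin Q (bal T r.2 i))) ^ (p - 1) *
        ∏ k, ev (expS (-c * Y' (bal T r.2 i) k)) (α r' k.succ)) := by rw [hF]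
    rw [h2, u2, u4, Finset.prod_congr rfl fun i _ => h1 i, Finset.prod_mul_distrib,
      Finset.prod_mul_distrib, Finset.prod_const, Finset.card_univ, Fintype.card_fin, rowF]
    push_cast
    have h3 : u (R r') ^ (2 * T + (p - 1) * T) = u (R r') ^ (2 * (r.1 : ℕ)) *
        u (R r') ^ (2 * (T - r.1)) * (u (R r') ^ (p - 1)) ^ T := by
      rw [← pow_mul, ← pow_add, ← pow_add]
      congr 1
      have := r.1.2
      omega
    rw [h3, mul_pow, mul_pow]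
    ring
  have h1 := det_appr_dvd hαp F hFA id h
  have h2 : (Matrix.of fun r r' => F r (id r')).det =
      (∏ r : Fin (T + 1) × (Fin s → Fin (T * (B - 1))),
        ∏ i : Fin T, u (lin Q (bal T r.2 i)) ^ (p - 1)) *
      ((∏ r', u (R r') ^ (2 * T + (p - 1) * T)) *
        (Matrix.of fun r r' : Fin (T + 1) × (Fin s → Fin (T * (B - 1))) =>
          ((rowF (p - 1) T Q r.1 r.2 (R r') : ℤ) : ℤ_[p])).det) := by
    rw [← Matrix.det_mul_row, ← Matrix.det_mul_column]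
    congr 1
    ext r r'
    simp only [Matrix.of_apply, id]
    exact hid r r'
  have hU1 : IsUnit (∏ r : Fin (T + 1) × (Fin s → Fin (T * (B - 1))),
      ∏ i : Fin T, u (lin Q (bal T r.2 i)) ^ (p - 1)) := by
    rw [IsUnit.prod_univ_iff]
    intro r
    rw [IsUnit.prod_univ_iff]
    exact fun i => (hu _ (hVg _) (hV0 r.2 i)).1.pow _
  have hU2 : IsUnit (∏ r', u (R r') ^ (2 * T + (p - 1) * T)) := by
    rw [IsUnit.prod_univ_iff]
    exact fun r' => (hu _ (hRg r') (hR0 r')).1.pow _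
  rw [h2, hU1.dvd_mul_left, hU2.dvd_mul_left] at h1
  have h3 : (((Matrix.of fun r' r => rowF (p - 1) T Q r.1 r.2 (lin P (pt r'))).det : ℤ) : ℤ_[p]) =
      (Matrix.of fun r r' : Fin (T + 1) × (Fin s → Fin (T * (B - 1))) =>
          ((rowF (p - 1) T Q r.1 r.2 (R r') : ℤ) : ℤ_[p])).det := by
    rw [← Matrix.det_transpose]
    have h4 := RingHom.map_det (Int.castRingHom ℤ_[p])
      (Matrix.of fun r' r : Fin (T + 1) × (Fin s → Fin (T * (B - 1))) =>
        rowF (p - 1) T Q r.1 r.2 (lin P (pt r'))).transpose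
    rw [eq_intCast] at h4
    rw [h4]
    congr 1
  have h5 : Fintype.card (Fin (T + 1) × (Fin s → Fin (T * (B - 1)))) =
      (T + 1) * (T * (B - 1)) ^ s := by
    rw [Fintype.card_prod, Fintype.card_fun, Fintype.card_fin, Fintype.card_fin, Fintype.card_fin]
  rw [← h3, h5] at h1
  exact (PadicInt.pow_p_dvd_int_iff _ _).mp h1

/-- Either there is an integral relation between the columns or a nonzero minor. -/
private theorem padx_minor {J X : Type} [Fintype J] [DecidableEq J] (S : Set X) (M : X → J → ℤ)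
    (hJ : ∀ c : J → ℤ, (∀ x ∈ S, ∑ j, c j * M x j = 0) → c = 0) :
    ∃ pt : J → X, (∀ j, pt j ∈ S) ∧ (Matrix.of fun i j => M (pt i) j).det ≠ 0 := by
  classical
  set row : X → J → ℚ := fun x j => (M x j : ℚ) with hrow
  have htop : Submodule.span ℚ (row '' S) = ⊤ := by
    by_contra hne
    obtain ⟨f, hf0, hf⟩ := Submodule.exists_le_ker_of_lt_top _ (lt_top_iff_ne_top.2 hne)
    set c : J → ℚ := fun j => f (Pi.single j 1) with hc
    have hfc : ∀ v : J → ℚ, f v = ∑ j, c j * v j := by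
      intro v
      conv_lhs => rw [← Finset.univ_sum_single v]
      rw [map_sum]
      refine Finset.sum_congr rfl fun j _ => ?_
      have : (Pi.single j (v j) : J → ℚ) = v j • (Pi.single j 1 : J → ℚ) := by
        ext k
        by_cases hk : k = j
        · subst hk; simp
        · simp [hk]
      rw [this, map_smul, smul_eq_mul, mul_comm]
    -- clear denominators
    set D : ℕ := ∏ j, (c j).den with hD
    have hD0 : D ≠ 0 := Finset.prod_ne_zero_iff.2 fun j _ => (c j).den_nz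
    have hint : ∀ j, ∃ z : ℤ, (z : ℚ) = D * c j := by
      intro j
      obtain ⟨k, hk⟩ := Finset.dvd_prod_of_mem (fun j => (c j).den) (Finset.mem_univ j)
      refine ⟨k * (c j).num, ?_⟩
      rw [hD, hk]
      push_cast
      have h1 : ((c j).den : ℚ) * c j = (c j).num := by
        rw [mul_comm]; exact Rat.mul_den_eq_num (c j)
      calc (k : ℚ) * ((c j).num : ℚ) = k * (((c j).den : ℚ) * c j) := by rw [h1]
        _ = _ := by ring
    choose z hz using hint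
    have hz0 : z = 0 := by
      refine hJ z fun x hx => ?_
      have h1 : f (row x) = 0 := hf (Submodule.subset_span ⟨x, hx, rfl⟩)
      rw [hfc] at h1
      have h2 : ((∑ j, z j * M x j : ℤ) : ℚ) = D * ∑ j, c j * row x j := by
        push_cast
        rw [Finset.mul_sum]
        refine Finset.sum_congr rfl fun j _ => ?_
        rw [hz j, hrow]
        ring
      rw [h1, mul_zero] at h2
      exact_mod_cast h2
    apply hf0
    have hc0 : ∀ j, c j = 0 := by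
      intro j
      have := hz j
      rw [hz0] at this
      simp only [Pi.zero_apply, Int.cast_zero] at this
      rcases mul_eq_zero.1 this.symm with h | h
      · exact absurd (by exact_mod_cast h) hD0
      · exact h
    refine LinearMap.ext fun v => ?_
    rw [hfc v, LinearMap.zero_apply]
    exact Finset.sum_eq_zero fun j _ => by rw [hc0 j, zero_mul]
  obtain ⟨b, hb, hspan, hli⟩ := exists_linearIndependent ℚ (row '' S)
  rw [htop] at hspan
  have hfin : Finite b := hli.finite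
  have : Fintype b := Fintype.ofFinite b
  have hcard : Fintype.card b = Fintype.card J := by
    have B := Module.Basis.mk hli (by rw [Subtype.range_coe]; exact hspan.ge)
    have h1 := Module.finrank_eq_card_basis B
    rw [Module.finrank_fintype_fun_eq_card] at h1
    exact h1.symm
  obtain ⟨e⟩ := Fintype.card_eq.1 hcard
  have hex : ∀ j, ∃ x, x ∈ S ∧ row x = (e.symm j : J → ℚ) := by
    intro j
    obtain ⟨x, hx, hxe⟩ := hb (e.symm j).2
    exact ⟨x, hx, hxe⟩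
  choose pt hpt hpt' using hex
  refine ⟨pt, hpt, ?_⟩
  have hli2 : LinearIndependent ℚ (fun j => row (pt j)) := by
    have : (fun j => row (pt j)) = (fun x : b => (x : J → ℚ)) ∘ e.symm := by
      funext j
      exact hpt' j
    rw [this]
    exact hli.comp _ e.symm.injective
  intro h0
  have h1 := Matrix.linearIndependent_rows_iff_isUnit.1
    (show LinearIndependent ℚ (Matrix.row (Matrix.of fun i j => row (pt i) j)) from hli2)
  rw [Matrix.isUnit_iff_isUnit_det] at h1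
  apply h1.ne_zero
  have h2 := (Int.castRingHom ℚ).map_det (Matrix.of fun i j => M (pt i) j)
  rw [h0] at h2
  simp only [map_zero] at h2
  rw [h2]
  rfl

/-- The auxiliary function, with all parameters. -/
theorem pad_core (hp5 : 5 ≤ p) {Bh : (curve a b).Point → (curve a b).Point → ℚ_[p]}
    (hB : IsCanonicalHeight p a b Bh) {l s ρ : ℕ} (hs : 1 ≤ s)
    {P : Fin l → (curve a b).Point} (hP : ∀ i, P i ∈ goodGroup p a b)
    {Q : Fin s → (curve a b).Point} (hQ : ∀ j, Q j ∈ goodGroup p a b)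
    (hindQ : ∀ n : Fin s → ℤ, ∑ j, n j • Q j = 0 → n = 0)
    {x : Fin l → Fin ρ → ℤ_[p]} {y : Fin s → Fin ρ → ℤ_[p]}
    (hx : ∀ i k, (p : ℤ_[p]) ∣ x i k) (hy : ∀ i k, (p : ℤ_[p]) ∣ y i k)
    (hxy : ∀ i j, ((∑ k, x i k * y j k : ℤ_[p]) : ℚ_[p]) = Bh (P i) (Q j))
    {T B S h L : ℕ} {H : ℝ} (hL : L = (T + 1) * (T * (B - 1)) ^ s) (hL1 : 1 ≤ L)
    (hH : ∀ n ∈ bigBox l S, ∀ (k : Fin (T + 1)) (v : Fin s → Fin (T * (B - 1))),
      |(rowF (p - 1) T Q k v (lin P n) : ℝ)| ≤ Real.exp H)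
    (hsize : (L.factorial : ℝ) * Real.exp (L * H) < (p : ℝ) ^ (h * (L - h ^ (ρ + 1)))) :
    ∃ c : Fin (T + 1) × (Fin s → Fin (T * (B - 1))) → ℤ, c ≠ 0 ∧
      ∀ n ∈ bigBox l S, Fine Q B (lin P n) →
        ∑ r, c r * rowF (p - 1) T Q r.1 r.2 (lin P n) = 0 := by
  by_contra hno
  obtain ⟨pt, hpt, hdet⟩ := padx_minor (J := Fin (T + 1) × (Fin s → Fin (T * (B - 1))))
    {n : Fin l → ℤ | n ∈ bigBox l S ∧ Fine Q B (lin P n)}
    (fun n r => rowF (p - 1) T Q r.1 r.2 (lin P n)) (by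
      intro c hc
      by_contra hc0
      exact hno ⟨c, hc0, fun n hn hf => hc n ⟨hn, hf⟩⟩)
  have hdvd := det_row_dvd hp5 hB hs hP hQ hindQ hx hy hxy T B h pt fun r => (hpt r).2
  set A : Matrix (Fin (T + 1) × (Fin s → Fin (T * (B - 1))))
    (Fin (T + 1) × (Fin s → Fin (T * (B - 1)))) ℤ :=
    Matrix.of fun r' r => rowF (p - 1) T Q r.1 r.2 (lin P (pt r')) with hA
  have hcard : Fintype.card (Fin (T + 1) × (Fin s → Fin (T * (B - 1)))) = L := by
    rw [Fintype.card_prod, Fintype.card_fin, Fintype.card_fun, Fintype.card_fin, Fintype.card_fin,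
      hL]
  have hlow : (p : ℝ) ^ (h * (L - h ^ (ρ + 1))) ≤ |(A.det : ℝ)| := by
    have h1 := Int.natAbs_dvd_natAbs.2 hdvd
    have h2 := Nat.le_of_dvd (Int.natAbs_pos.2 hdet) h1
    rw [Int.natAbs_pow, Int.natAbs_natCast, ← hL] at h2
    have h3 : ((p ^ (h * (L - h ^ (ρ + 1))) : ℕ) : ℝ) ≤ ((A.det.natAbs : ℕ) : ℝ) := by
      exact_mod_cast h2
    rw [Nat.cast_natAbs, Int.cast_abs, Nat.cast_pow] at h3
    exact h3
  have hup : |(A.det : ℝ)| ≤ (L.factorial : ℝ) * Real.exp (L * H) := by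
    have h1 := Matrix.det_le (A := A.map (Int.castRingHom ℝ)) (abv := AbsoluteValue.abs)
      (x := Real.exp H) (fun i j => by
        have := hH (pt i) (hpt i).1 j.1 j.2
        simpa [hA] using this)
    rw [hcard] at h1
    have h2 : (A.map (Int.castRingHom ℝ)).det = (A.det : ℝ) := by
      have := (Int.castRingHom ℝ).map_det A
      rw [RingHom.mapMatrix_apply] at this
      rw [← this]
      rfl
    rw [h2, nsmul_eq_mul, ← Real.exp_nat_mul] at h1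
    exact h1
  exact absurd (hlow.trans hup) (not_le.2 hsize)

private lemma pad_exp {s ρ A₁ D j : ℕ} (hρ : ρ < s) (hs : s ≤ 2 * ρ + 2)
    (hD : D = 2 * A₁ ^ (ρ + 1)) :
    2 * (A₁ * (D * j ^ (2 * ρ + 2 - s)) * (j ^ (s - ρ)) ^ 2) ^ (ρ + 1) ≤
      (D * j ^ (2 * ρ + 2 - s) + 1) * (D * j ^ (2 * ρ + 2 - s) * j ^ (s - ρ)) ^ s := by
  obtain ⟨e, rfl⟩ : ∃ e, s = ρ + e := ⟨s - ρ, by omega⟩
  obtain ⟨f, hf⟩ : ∃ f, 2 * ρ + 2 = ρ + e + f := ⟨2 * ρ + 2 - (ρ + e), by omega⟩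
  have e1 : 2 * ρ + 2 - (ρ + e) = f := by omega
  have e2 : ρ + e - ρ = e := by omega
  rw [e1, e2]
  obtain ⟨T, hT⟩ : ∃ T, T = D * j ^ f := ⟨_, rfl⟩
  obtain ⟨N, hN⟩ : ∃ N, N = j ^ e := ⟨_, rfl⟩
  have h1 : D * N ^ f ≤ T ^ e := by
    rw [hT, hN, mul_pow, ← pow_mul, ← pow_mul, Nat.mul_comm f e]
    apply Nat.mul_le_mul_right
    exact Nat.le_self_pow (by omega) D
  have h2 : ((A₁ * T * N ^ 2) ^ (ρ + 1)) = A₁ ^ (ρ + 1) * T ^ (ρ + 1) * (N ^ (ρ + e) * N ^ f) := by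
    rw [← pow_add, ← hf, mul_pow, mul_pow, ← pow_mul, Nat.mul_add 2 ρ 1]
  rw [← hT, ← hN, h2]
  calc 2 * (A₁ ^ (ρ + 1) * T ^ (ρ + 1) * (N ^ (ρ + e) * N ^ f)) =
        T ^ (ρ + 1) * N ^ (ρ + e) * (D * N ^ f) := by rw [hD]; ring
    _ ≤ T ^ (ρ + 1) * N ^ (ρ + e) * T ^ e := Nat.mul_le_mul_left _ h1
    _ = T * (T * N) ^ (ρ + e) := by ring
    _ ≤ _ := Nat.mul_le_mul_right _ (Nat.le_succ T)

private lemma pad_log {s T N L : ℕ} (hT : 1 ≤ T) (hN : 1 ≤ N) (hL : L = (T + 1) * (T * N) ^ s) :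
    Real.log L ≤ (2 * s + 1) * (T * (N : ℝ) ^ 2) := by
  have hTr : (1 : ℝ) ≤ T := by exact_mod_cast hT
  have hNr : (1 : ℝ) ≤ N := by exact_mod_cast hN
  have hT0 : (0 : ℝ) < T := by linarith
  have hN0 : (0 : ℝ) < N := by linarith
  have hN2 : (1 : ℝ) ≤ (N : ℝ) ^ 2 := one_le_pow₀ hNr
  rw [hL]
  push_cast
  rw [Real.log_mul (by positivity) (by positivity), Real.log_pow,
    Real.log_mul (by positivity) (by positivity)]
  have f1 : Real.log (T + 1) ≤ T := by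
    have := Real.log_le_sub_one_of_pos (by linarith : (0 : ℝ) < T + 1)
    linarith
  have f2 : Real.log T ≤ T := by
    have := Real.log_le_sub_one_of_pos hT0
    linarith
  have f3 : Real.log N ≤ N := by
    have := Real.log_le_sub_one_of_pos hN0
    linarith
  have f4 : (T : ℝ) ≤ T * (N : ℝ) ^ 2 := le_mul_of_one_le_right (by linarith) hN2
  have f5 : (N : ℝ) ≤ T * (N : ℝ) ^ 2 := by
    calc (N : ℝ) ≤ (N : ℝ) ^ 2 := by nlinarith
      _ ≤ T * (N : ℝ) ^ 2 := le_mul_of_one_le_left (by positivity) hTr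
  have f6 : (s : ℝ) * (Real.log T + Real.log N) ≤
      s * (T * (N : ℝ) ^ 2 + T * (N : ℝ) ^ 2) := by
    apply mul_le_mul_of_nonneg_left _ (Nat.cast_nonneg _)
    linarith
  linarith

private lemma pad_size (hp5 : 5 ≤ p) {s T N L h ρ A₁ : ℕ} (hT : 1 ≤ T) (hN : 1 ≤ N)
    (hL : L = (T + 1) * (T * N) ^ s) (hL1 : 1 ≤ L) {A : ℝ}
    (hA : 2 * (A + 2 * s + 1) < (A₁ : ℝ)) (hh : h = A₁ * T * N ^ 2)
    (hle : 2 * h ^ (ρ + 1) ≤ L) :
    (L.factorial : ℝ) * Real.exp (L * (T * (A * (N : ℝ) ^ 2))) <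
      (p : ℝ) ^ (h * (L - h ^ (ρ + 1))) := by
  have hTr : (0 : ℝ) < T := by exact_mod_cast hT
  have hNr : (0 : ℝ) < N := by exact_mod_cast hN
  have hLr : (0 : ℝ) < L := by exact_mod_cast hL1
  have hp0 : (0 : ℝ) < p := by exact_mod_cast hp.out.pos
  have hlogp : 1 ≤ Real.log p := by
    rw [Real.le_log_iff_exp_le hp0]
    have h5 : (5 : ℝ) ≤ p := by exact_mod_cast hp5
    linarith [Real.exp_one_lt_d9]
  have hlog := pad_log hT hN hL
  have h1 : (L.factorial : ℝ) ≤ Real.exp (L * Real.log L) := by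
    rw [Real.exp_nat_mul, Real.exp_log hLr]
    exact_mod_cast Nat.factorial_le_pow L
  have h2 : (p : ℝ) ^ (h * (L - h ^ (ρ + 1))) =
      Real.exp (((h * (L - h ^ (ρ + 1)) : ℕ) : ℝ) * Real.log p) := by
    rw [Real.exp_nat_mul, Real.exp_log hp0]
  have h3 : (L : ℝ) / 2 ≤ ((L - h ^ (ρ + 1) : ℕ) : ℝ) := by
    have h4 : L ≤ 2 * (L - h ^ (ρ + 1)) := by omega
    have h5 : (L : ℝ) ≤ 2 * ((L - h ^ (ρ + 1) : ℕ) : ℝ) := by exact_mod_cast h4
    linarith
  have hhr : (h : ℝ) = A₁ * (T * (N : ℝ) ^ 2) := by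
    rw [hh]
    push_cast
    ring
  have hX : 0 < (T : ℝ) * (N : ℝ) ^ 2 := by positivity
  obtain ⟨X, hXd⟩ : ∃ X : ℝ, X = (T : ℝ) * (N : ℝ) ^ 2 := ⟨_, rfl⟩
  rw [← hXd] at hhr hX hlog
  have h0 : (0 : ℝ) ≤ A₁ := Nat.cast_nonneg _
  calc (L.factorial : ℝ) * Real.exp (L * (T * (A * (N : ℝ) ^ 2))) ≤
        Real.exp (L * Real.log L) * Real.exp (L * (T * (A * (N : ℝ) ^ 2))) :=
        mul_le_mul_of_nonneg_right h1 (Real.exp_pos _).le
    _ = Real.exp (L * (Real.log L + A * X)) := by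
        rw [← Real.exp_add, hXd]
        congr 1
        ring
    _ < Real.exp (((h * (L - h ^ (ρ + 1)) : ℕ) : ℝ) * Real.log p) := by
        apply Real.exp_lt_exp.mpr
        have g1 : Real.log L + A * X < (A₁ : ℝ) * X / 2 := by
          have g2 : (2 * (A + 2 * s + 1)) * X < A₁ * X := mul_lt_mul_of_pos_right hA hX
          linarith
        have g3 : (L : ℝ) * (Real.log L + A * X) < L * ((A₁ : ℝ) * X / 2) :=
          mul_lt_mul_of_pos_left g1 hLr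
        have g4 : (L : ℝ) * ((A₁ : ℝ) * X / 2) ≤ ((h * (L - h ^ (ρ + 1)) : ℕ) : ℝ) := by
          push_cast
          rw [hhr]
          calc (L : ℝ) * ((A₁ : ℝ) * X / 2) = A₁ * X * (L / 2) := by ring
            _ ≤ _ := mul_le_mul_of_nonneg_left h3 (by positivity)
        have g5 : ((h * (L - h ^ (ρ + 1)) : ℕ) : ℝ) * 1 ≤
            ((h * (L - h ^ (ρ + 1)) : ℕ) : ℝ) * Real.log p :=
          mul_le_mul_of_nonneg_left hlogp (Nat.cast_nonneg _)
        linarith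
    _ = _ := h2.symm

/-- The auxiliary function, parameters chosen: `N = j ^ (s - ρ)`, `T = C₁ j ^ (2 ρ + 2 - s)`. -/
theorem exists_pad (hp5 : 5 ≤ p) (hΔ : 4 * a ^ 3 + 27 * b ^ 2 ≠ 0)
    {Bh : (curve a b).Point → (curve a b).Point → ℚ_[p]}
    (hB : IsCanonicalHeight p a b Bh) {l s ρ : ℕ} (hρ : ρ < s) (hs : s ≤ 2 * ρ + 2)
    {P : Fin l → (curve a b).Point} (hP : ∀ i, P i ∈ goodGroup p a b)
    {Q : Fin s → (curve a b).Point} (hQ : ∀ j, Q j ∈ goodGroup p a b)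
    (hindQ : ∀ n : Fin s → ℤ, ∑ j, n j • Q j = 0 → n = 0)
    {x : Fin l → Fin ρ → ℤ_[p]} {y : Fin s → Fin ρ → ℤ_[p]}
    (hx : ∀ i k, (p : ℤ_[p]) ∣ x i k) (hy : ∀ i k, (p : ℤ_[p]) ∣ y i k)
    (hxy : ∀ i j, ((∑ k, x i k * y j k : ℤ_[p]) : ℚ_[p]) = Bh (P i) (Q j)) (K₀ : ℕ) :
    ∃ C₁ : ℕ, ∀ j : ℕ, 1 ≤ j → ∃ T B : ℕ, 1 ≤ T ∧ T ≤ C₁ * j ^ (2 * ρ + 2 - s) ∧
      B = j ^ (s - ρ) + 1 ∧
      ∃ c : Fin (T + 1) × (Fin s → Fin (T * (B - 1))) → ℤ, c ≠ 0 ∧
        ∀ n ∈ bigBox l (K₀ * j ^ (s - ρ)), Fine Q B (lin P n) →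
          ∑ r, c r * rowF (p - 1) T Q r.1 r.2 (lin P n) = 0 := by
  classical
  have hs1 : 1 ≤ s := by omega
  obtain ⟨q, C, c₁, hq, hnn, hC, hc₁, hc, hup, han, hlow⟩ := exists_arch2 hΔ
  obtain ⟨CP, hCP0, hCP⟩ := quad_lin_le hq hnn P
  obtain ⟨CQ, hCQ0, hCQ⟩ := quad_lin_le hq hnn Q
  obtain ⟨A, hA⟩ : ∃ A : ℝ, A = 2 * (CP * (K₀ : ℝ) ^ 2 + C) +
    ((p - 1 : ℕ) : ℝ) * (2 * (CP * (K₀ : ℝ) ^ 2) + 8 * CQ + C) := ⟨_, rfl⟩
  have hA0 : 0 ≤ A := by rw [hA]; positivity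
  obtain ⟨A₁, hA₁⟩ := exists_nat_gt (2 * (A + 2 * s + 1))
  have hA₁1 : 1 ≤ A₁ := by
    have h1 : (0 : ℝ) < A₁ := lt_of_le_of_lt (by positivity) hA₁
    exact_mod_cast h1
  obtain ⟨D, hD⟩ : ∃ D : ℕ, D = 2 * A₁ ^ (ρ + 1) := ⟨_, rfl⟩
  have hD1 : 1 ≤ D := by
    rw [hD]
    have : 1 ≤ A₁ ^ (ρ + 1) := Nat.one_le_pow _ _ hA₁1
    omega
  refine ⟨D, fun j hj => ?_⟩
  have hexp := pad_exp (j := j) hρ hs hD
  obtain ⟨N, hN⟩ : ∃ N : ℕ, N = j ^ (s - ρ) := ⟨_, rfl⟩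
  obtain ⟨T, hT⟩ : ∃ T : ℕ, T = D * j ^ (2 * ρ + 2 - s) := ⟨_, rfl⟩
  obtain ⟨B, hBd⟩ : ∃ B : ℕ, B = N + 1 := ⟨_, rfl⟩
  have hN1 : 1 ≤ N := by rw [hN]; exact Nat.one_le_pow _ _ hj
  have hT1 : 1 ≤ T := by
    rw [hT]
    exact Nat.mul_pos hD1 (Nat.one_le_pow _ _ hj)
  have hBN : B - 1 = N := by omega
  rw [← hN, ← hT] at hexp
  refine ⟨T, B, hT1, le_of_eq hT, by rw [hBd, hN], ?_⟩
  have hNr : (1 : ℝ) ≤ N := by exact_mod_cast hN1
  have hN2 : (1 : ℝ) ≤ (N : ℝ) ^ 2 := one_le_pow₀ hNr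
  have hBr : (B : ℝ) ^ 2 ≤ 4 * (N : ℝ) ^ 2 := by
    rw [hBd]
    push_cast
    nlinarith
  have hL1 : 1 ≤ (T + 1) * (T * N) ^ s :=
    Nat.mul_pos (by omega) (Nat.pow_pos (Nat.mul_pos hT1 hN1))
  have hsize := pad_size hp5 hT1 hN1 rfl hL1 hA₁ rfl hexp
  rw [← hN]
  refine pad_core hp5 hB hs1 hP hQ hindQ hx hy hxy (T := T) (B := B) (S := K₀ * N)
    (h := A₁ * T * N ^ 2) (L := (T + 1) * (T * N) ^ s) (H := T * (A * (N : ℝ) ^ 2))
    (by rw [hBN]) hL1 ?_ hsize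
  intro n hn k v
  refine (rowF_le (H := CP * (K₀ : ℝ) ^ 2 * (N : ℝ) ^ 2) (HQ := CQ * (4 * (N : ℝ) ^ 2)) hq hnn hup
    han (lin P n) ?_ ?_ k v).trans (Real.exp_le_exp.mpr ?_)
  · rw [lin_apply]
    have h1 := hCP n ((K₀ * N : ℕ) : ℝ) fun i => by
      have h1 := mem_bigBox.mp hn i
      rw [abs_le]
      constructor
      · exact_mod_cast h1.1
      · exact_mod_cast h1.2
    refine h1.trans (le_of_eq ?_)
    push_cast
    ring
  · intro v hv
    rw [lin_apply]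
    have h1 := hCQ v (B : ℝ) fun i => by
      have h1 := hv i
      rw [abs_le]
      constructor
      · have : (0 : ℝ) ≤ v i := by exact_mod_cast (by omega : (0 : ℤ) ≤ v i)
        have h2 : (0 : ℝ) ≤ B := Nat.cast_nonneg _
        linarith
      · exact_mod_cast h1.2
    exact h1.trans (mul_le_mul_of_nonneg_left hBr hCQ0)
  · apply mul_le_mul_of_nonneg_left _ (Nat.cast_nonneg _)
    have hm0 : (0 : ℝ) ≤ ((p - 1 : ℕ) : ℝ) := Nat.cast_nonneg _
    have hCN : C ≤ C * (N : ℝ) ^ 2 := le_mul_of_one_le_right hC hN2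
    have e1 : ((p - 1 : ℕ) : ℝ) * (2 * (CP * (K₀ : ℝ) ^ 2 * (N : ℝ) ^ 2) +
        2 * (CQ * (4 * (N : ℝ) ^ 2)) + C) ≤
        ((p - 1 : ℕ) : ℝ) * ((2 * (CP * (K₀ : ℝ) ^ 2) + 8 * CQ + C) * (N : ℝ) ^ 2) := by
      apply mul_le_mul_of_nonneg_left _ hm0
      linarith
    rw [hA]
    linarith

end MP3550b5.RG
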