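import Mathlib
import Pool.Agent.Lib.MP_3550b5_nt.RG.Dom

/-!
Functions on a power of the curve are determined by their values on a grid of rational points.
-/

namespace MP3550b5.RG

open Pool.Agent.Lib.MP_3550b5_nt

variable {a b : ℤ} {n : ℕ}

/-- A nonzero element divides a nonzero polynomial in the abscissae. -/
theorem exists_dvd_poly {z : Bn a b n} (hz : z ≠ 0) : ∃ g : MvPolynomial (Fin n) ℚ, g ≠ 0 ∧
    z ∣ MvPolynomial.aeval (fun i => xB a b i) g := by
  let φ : MvPolynomial (Fin n) ℚ →ₐ[ℚ] Bn a b n := MvPolynomial.aeval fun i => xB a b i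
  let _ : Algebra (MvPolynomial (Fin n) ℚ) (Bn a b n) := φ.toRingHom.toAlgebra
  have hφ : ∀ g, algebraMap (MvPolynomial (Fin n) ℚ) (Bn a b n) g = φ g := fun _ => rfl
  have hx : ∀ i, IsIntegral (MvPolynomial (Fin n) ℚ) (xB a b i : Bn a b n) := by
    intro i
    have h1 : xB a b i = algebraMap (MvPolynomial (Fin n) ℚ) (Bn a b n) (MvPolynomial.X i) := by
      rw [hφ]
      exact (MvPolynomial.aeval_X _ i).symm
    rw [h1]
    exact isIntegral_algebraMap
  have hc : ∀ c : ℚ, IsIntegral (MvPolynomial (Fin n) ℚ) (algebraMap ℚ (Bn a b n) c) := by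
    intro c
    have h1 : algebraMap ℚ (Bn a b n) c =
        algebraMap (MvPolynomial (Fin n) ℚ) (Bn a b n) (MvPolynomial.C c) := by
      rw [hφ]
      exact (MvPolynomial.aeval_C _ c).symm
    rw [h1]
    exact isIntegral_algebraMap
  have hint : ∀ w : Bn a b n, IsIntegral (MvPolynomial (Fin n) ℚ) w := by
    intro w
    induction w using Bn_induction with
    | hc c => exact hc c
    | hx i => exact hx i
    | hy i =>
      refine IsIntegral.of_pow (n := 2) (by norm_num) ?_
      rw [xyB]
      exact (((hx i).pow 3).add ((hc a).mul (hx i))).add (hc b)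
    | hadd z z' h1 h2 => exact h1.add h2
    | hmul z z' h1 h2 => exact h1.mul h2
  have h1 := Ideal.comap_ne_bot_of_integral_mem (R := MvPolynomial (Fin n) ℚ) hz
    (Ideal.mem_span_singleton_self z) (hint z)
  obtain ⟨g, hg, hg0⟩ := Submodule.exists_mem_ne_zero_of_ne_bot h1
  refine ⟨g, hg0, ?_⟩
  rw [Ideal.mem_comap, Ideal.mem_span_singleton] at hg
  exact hg

/-- the set of the abscissae is infinite -/
private theorem infinite_abs {S : Set (curve a b).Point} (hS : S.Infinite) :
    (ptX '' (S \ {0})).Infinite := by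
  intro hfin
  have h1 : (S \ {0}).Infinite := hS.diff (Set.finite_singleton 0)
  apply h1
  have h2 : S \ {0} ⊆ ⋃ x ∈ ptX '' (S \ {0}), {T : (curve a b).Point | T ≠ 0 ∧ ptX T = x} := by
    intro T hT
    rw [Set.mem_iUnion₂]
    exact ⟨ptX T, ⟨T, hT, rfl⟩, hT.2, rfl⟩
  refine (hfin.biUnion fun x _ => ?_).subset h2
  -- the fibres
  have h3 : (ptY '' {T : (curve a b).Point | T ≠ 0 ∧ ptX T = x}).Finite := by
    have h4 : {y : ℚ | y ^ 2 = x ^ 3 + a * x + b}.Finite := by
      by_cases h5 : ∃ y₀ : ℚ, y₀ ^ 2 = x ^ 3 + a * x + b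
      · obtain ⟨y₀, h5⟩ := h5
        refine (Set.toFinite {y₀, -y₀}).subset ?_
        intro y hy
        have h6 : (y - y₀) * (y + y₀) = 0 := by
          have : y ^ 2 = x ^ 3 + a * x + b := hy
          linear_combination this - h5
        rcases mul_eq_zero.1 h6 with h7 | h7
        · left
          linarith
        · right
          rw [Set.mem_singleton_iff]
          linarith
      · convert Set.finite_empty
        ext y
        constructor
        · intro hy
          exact absurd ⟨y, hy⟩ h5
        · intro hy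
          exact absurd hy (Set.notMem_empty y)
    refine h4.subset ?_
    rintro _ ⟨T, ⟨hT0, hT⟩, rfl⟩
    have h5 := ptY_sq hT0
    rw [hT] at h5
    exact h5
  refine Set.Finite.of_finite_image h3 ?_
  rintro T ⟨hT0, hT⟩ T' ⟨hT0', hT'⟩ h
  obtain ⟨u1, e1⟩ := exists_eq_some T hT0
  obtain ⟨u2, e2⟩ := exists_eq_some T' hT0'
  have h5 : ptX T = ptX T' := by rw [hT, hT']
  rw [e1, e2]
  simp only [WeierstrassCurve.Affine.Point.some.injEq]
  exact ⟨h5, h⟩

/-- A function which vanishes on a grid of rational points is zero. -/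
theorem sep {S : Set (curve a b).Point} (hS : S.Infinite) (z : Bn a b n)
    (h : ∀ (T : Fin n → (curve a b).Point) (h0 : ∀ i, T i ≠ 0), (∀ i, T i ∈ S) →
      evB T h0 z = 0) : z = 0 := by
  by_contra hz
  obtain ⟨g, hg, w, hw⟩ := exists_dvd_poly hz
  apply hg
  refine MvPolynomial.funext_set (fun _ => ptX '' (S \ {0})) (fun _ => infinite_abs hS) ?_
  intro x hx
  rw [map_zero]
  choose T hT hTx using fun i => hx i (Set.mem_univ i)
  have h0 : ∀ i, T i ≠ 0 := fun i => (hT i).2
  have h1 := h T h0 fun i => (hT i).1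
  have h2 : evB T h0 (MvPolynomial.aeval (fun i => xB a b i) g) = MvPolynomial.eval x g := by
    rw [MvPolynomial.comp_aeval_apply]
    have h3 : (fun i => evB T h0 (xB a b i)) = x := by
      funext i
      rw [evB_x]
      exact hTx i
    rw [h3]
    rfl
  rw [← h2, hw, map_mul, h1, zero_mul]

end MP3550b5.RG
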