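import Mathlib
import Pool.Agent.Lib.MP_3550b5_nt.RG.Sep

/-!
Translations on the function field of a power of the curve.
-/

namespace MP3550b5.RG

open Pool.Agent.Lib.MP_3550b5_nt WeierstrassCurve.Affine

variable {a b : ℤ}

private lemma tau_ptX_add {Q R : (curve a b).Point} (hQ : Q ≠ 0) (hR : R ≠ 0)
    (hne : ptX Q ≠ ptX R) :
    ptX (Q + R) = ((ptY Q - ptY R) / (ptX Q - ptX R)) ^ 2 - ptX Q - ptX R := by
  obtain ⟨hh, e⟩ := exists_eq_some Q hQ
  obtain ⟨hh', e'⟩ := exists_eq_some R hR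
  have hsum : Q + R = Point.some _ _ hh + Point.some _ _ hh' := by rw [← e, ← e']
  rw [hsum, Point.add_of_X_ne hne, ptX_some, WeierstrassCurve.Affine.slope_of_X_ne hne]
  simp [WeierstrassCurve.Affine.addX, curve]

private lemma tau_ptY_add {Q R : (curve a b).Point} (hQ : Q ≠ 0) (hR : R ≠ 0)
    (hne : ptX Q ≠ ptX R) : ptY (Q + R) =
      -(ptY Q + ((ptY Q - ptY R) / (ptX Q - ptX R)) * (ptX (Q + R) - ptX Q)) := by
  obtain ⟨hh, e⟩ := exists_eq_some Q hQ
  obtain ⟨hh', e'⟩ := exists_eq_some R hR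
  have hsum : Q + R = Point.some _ _ hh + Point.some _ _ hh' := by rw [← e, ← e']
  rw [tau_ptX_add hQ hR hne, hsum, Point.add_of_X_ne hne, ptY_some,
    WeierstrassCurve.Affine.slope_of_X_ne hne]
  simp [WeierstrassCurve.Affine.addY, WeierstrassCurve.Affine.negAddY,
    WeierstrassCurve.Affine.negY, WeierstrassCurve.Affine.addX, curve]
  ring

private lemma tau_eq_or {P Q : (curve a b).Point} (hP : P ≠ 0) (hQ : Q ≠ 0)
    (h : ptX Q = ptX P) : Q = P ∨ Q = -P := by
  obtain ⟨hh, e⟩ := exists_eq_some P hP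
  obtain ⟨hh', e'⟩ := exists_eq_some Q hQ
  have := (Point.X_eq_iff (h₁ := hh') (h₂ := hh)).mp h
  rwa [← e, ← e'] at this

/-- the chord formula can be used for the sum `Q + R` -/
private def Gd (R Q : (curve a b).Point) : Prop := Q ≠ 0 ∧ Q + R ≠ 0 ∧ (R = 0 ∨ ptX Q ≠ ptX R)

private lemma gd_of {R Q : (curve a b).Point} (h0 : Q ≠ 0) (h1 : Q ≠ -R) (h2 : Q ≠ R) :
    Gd R Q := by
  refine ⟨h0, fun h => h1 (eq_neg_of_add_eq_zero_left h), ?_⟩
  by_cases hR : R = 0
  · exact Or.inl hR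
  · refine Or.inr fun h => ?_
    rcases tau_eq_or hR h0 h with h3 | h3
    · exact h2 h3
    · exact h1 h3

private lemma gd_finite (R P : (curve a b).Point) : {Q | ¬ Gd R (Q + P)}.Finite := by
  refine Set.Finite.subset (s := {-P, -R - P, R - P}) (Set.toFinite _) fun Q hQ => ?_
  by_contra hcon
  simp only [Set.mem_insert_iff, Set.mem_singleton_iff, not_or] at hcon
  refine hQ (gd_of ?_ ?_ ?_)
  · intro h; exact hcon.1 (eq_neg_of_add_eq_zero_left h)
  · intro h; exact hcon.2.1 (eq_sub_of_add_eq h)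
  · intro h; exact hcon.2.2 (eq_sub_of_add_eq h)

private lemma gd_infinite (hinf : Infinite (curve a b).Point) {κ : Type} [Finite κ]
    (R P : κ → (curve a b).Point) : {Q | ∀ i, Gd (R i) (Q + P i)}.Infinite := by
  apply Set.infinite_of_finite_compl
  have : {Q | ∀ i, Gd (R i) (Q + P i)}ᶜ = ⋃ i, {Q | ¬ Gd (R i) (Q + P i)} := by
    ext Q
    simp
  rw [this]
  exact Set.finite_iUnion fun i => gd_finite _ _

variable {n : ℕ}

/-- equality in the function field by values on a grid -/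
private lemma tsep {G : Set (curve a b).Point} (hG : G.Infinite) {z z' : Ln a b n}
    (h : ∀ (T : Fin n → (curve a b).Point) (h0 : ∀ i, T i ≠ 0), (∀ i, T i ∈ G) →
      ∃ c, Val (evB T h0 : Bn a b n →+* ℚ) z c ∧ Val (evB T h0 : Bn a b n →+* ℚ) z' c) :
    z = z' :=
  eq_of_val (ι := {T : Fin n → (curve a b).Point // ∀ i, T i ≠ 0})
    (ev := fun t => (evB t.1 t.2 : Bn a b n →+* ℚ)) (S := {t | ∀ i, t.1 i ∈ G})
    (fun z hz => sep hG z fun T h0 hT => hz ⟨T, h0⟩ hT) (fun t ht => h t.1 t.2 ht)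

private lemma val_rat {T : Fin n → (curve a b).Point} (h0 : ∀ i, T i ≠ 0) (c : ℚ) :
    Val (evB T h0 : Bn a b n →+* ℚ) (algebraMap ℚ (Ln a b n) c) c := by
  have e : algebraMap ℚ (Ln a b n) c = algebraMap (Bn a b n) (Ln a b n) (algebraMap ℚ _ c) :=
    RingHom.congr_fun (RingHom.ext_rat (algebraMap ℚ (Ln a b n))
      ((algebraMap (Bn a b n) (Ln a b n)).comp (algebraMap ℚ (Bn a b n)))) c
  rw [e]
  exact Val.alg' ((evB T h0).commutes c)

private noncomputable def tlam (P : Fin n → (curve a b).Point) (i : Fin n) : Ln a b n :=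
  (algebraMap _ (Ln a b n) (yB a b i) - algebraMap ℚ _ (ptY (P i))) /
    (algebraMap _ (Ln a b n) (xB a b i) - algebraMap ℚ _ (ptX (P i)))

open Classical in
private noncomputable def tu (P : Fin n → (curve a b).Point) (i : Fin n) : Ln a b n :=
  if P i = 0 then algebraMap _ (Ln a b n) (xB a b i) else
    tlam P i ^ 2 - algebraMap _ (Ln a b n) (xB a b i) - algebraMap ℚ _ (ptX (P i))

open Classical in
private noncomputable def tv (P : Fin n → (curve a b).Point) (i : Fin n) : Ln a b n :=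
  if P i = 0 then algebraMap _ (Ln a b n) (yB a b i) else
    -(algebraMap _ (Ln a b n) (yB a b i) +
      tlam P i * (tu P i - algebraMap _ (Ln a b n) (xB a b i)))

private lemma tlam_val {P T : Fin n → (curve a b).Point} (h0 : ∀ i, T i ≠ 0) {i : Fin n}
    (hne : ptX (T i) ≠ ptX (P i)) : Val (evB T h0 : Bn a b n →+* ℚ) (tlam P i)
      ((ptY (T i) - ptY (P i)) / (ptX (T i) - ptX (P i))) := by
  refine Val.div ?_ ?_ (sub_ne_zero.2 hne)
  · exact (Val.alg' (evB_y T h0 i)).sub (val_rat h0 _)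
  · exact (Val.alg' (evB_x T h0 i)).sub (val_rat h0 _)

private lemma tu_val {P T T' : Fin n → (curve a b).Point} (h0 : ∀ i, T i ≠ 0) {i : Fin n}
    (hT' : T' i = T i + P i) (h : P i = 0 ∨ ptX (T i) ≠ ptX (P i)) :
    Val (evB T h0 : Bn a b n →+* ℚ) (tu P i) (ptX (T' i)) := by
  by_cases hP : P i = 0
  · rw [tu, if_pos hP, hT', hP, add_zero]
    exact Val.alg' (evB_x T h0 i)
  · have hne := h.resolve_left hP
    rw [tu, if_neg hP, hT', tau_ptX_add (h0 i) hP hne]
    exact (((tlam_val h0 hne).pow 2).sub (Val.alg' (evB_x T h0 i))).sub (val_rat h0 _)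

private lemma tv_val {P T T' : Fin n → (curve a b).Point} (h0 : ∀ i, T i ≠ 0) {i : Fin n}
    (hT' : T' i = T i + P i) (h : P i = 0 ∨ ptX (T i) ≠ ptX (P i)) :
    Val (evB T h0 : Bn a b n →+* ℚ) (tv P i) (ptY (T' i)) := by
  by_cases hP : P i = 0
  · rw [tv, if_pos hP, hT', hP, add_zero]
    exact Val.alg' (evB_y T h0 i)
  · have hne := h.resolve_left hP
    rw [tv, if_neg hP, hT', tau_ptY_add (h0 i) hP hne, ← hT']
    exact ((Val.alg' (evB_y T h0 i)).add ((tlam_val h0 hne).mul
      ((tu_val h0 hT' h).sub (Val.alg' (evB_x T h0 i))))).neg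

private lemma t_eqn (hinf : Infinite (curve a b).Point) (P : Fin n → (curve a b).Point)
    (i : Fin n) : tv P i ^ 2 = tu P i ^ 3 + algebraMap ℚ (Ln a b n) a * tu P i +
      algebraMap ℚ (Ln a b n) b := by
  refine tsep (gd_infinite hinf P fun _ => 0) fun T h0 hT => ?_
  have hi := hT i i
  rw [add_zero] at hi
  have h2 : T i + P i ≠ 0 := hi.2.1
  refine ⟨ptY (T i + P i) ^ 2, ?_, ?_⟩
  · exact (tv_val (T' := fun i => T i + P i) h0 rfl hi.2.2).pow 2
  · rw [ptY_sq h2]
    have hu := tu_val (T' := fun i => T i + P i) h0 rfl hi.2.2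
    exact ((hu.pow 3).add ((val_rat h0 _).mul hu)).add (val_rat h0 _)

private noncomputable def tpsi (hinf : Infinite (curve a b).Point)
    (P : Fin n → (curve a b).Point) : Bn a b n →ₐ[ℚ] Ln a b n :=
  liftB (tu P) (tv P) (t_eqn hinf P)

private lemma tpsi_val (hinf : Infinite (curve a b).Point) {P T T' : Fin n → (curve a b).Point}
    (h0 : ∀ i, T i ≠ 0) (h0' : ∀ i, T' i ≠ 0) (hT' : ∀ i, T' i = T i + P i)
    (h : ∀ i, P i = 0 ∨ ptX (T i) ≠ ptX (P i)) (z : Bn a b n) :
    Val (evB T h0 : Bn a b n →+* ℚ) (tpsi hinf P z) (evB T' h0' z) := by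
  induction z using Bn_induction with
  | hc c =>
    rw [AlgHom.commutes, AlgHom.commutes]
    exact val_rat h0 c
  | hx i =>
    rw [tpsi, liftB_x, evB_x]
    exact tu_val h0 (hT' i) (h i)
  | hy i =>
    rw [tpsi, liftB_y, evB_y]
    exact tv_val h0 (hT' i) (h i)
  | hadd z z' hz hz' => rw [map_add, map_add]; exact hz.add hz'
  | hmul z z' hz hz' => rw [map_mul, map_mul]; exact hz.mul hz'

private lemma tpsi_inj (hinf : Infinite (curve a b).Point) (P : Fin n → (curve a b).Point) :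
    Function.Injective (tpsi hinf P : Bn a b n →+* Ln a b n) := by
  rw [injective_iff_map_eq_zero]
  intro z hz
  refine sep (gd_infinite hinf P fun i => -P i) z fun T' h0' hT' => ?_
  have hg : ∀ i, Gd (P i) (T' i - P i) := fun i => by
    have := hT' i i
    rwa [← sub_eq_add_neg] at this
  have h1 := tpsi_val hinf (P := P) (T := fun i => T' i - P i) (T' := T') (fun i => (hg i).1) h0'
    (fun i => (sub_add_cancel _ _).symm) (fun i => (hg i).2.2) z
  rw [show tpsi hinf P z = 0 from hz] at h1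
  exact h1.unique Val.zero

private noncomputable def tsig (hinf : Infinite (curve a b).Point)
    (P : Fin n → (curve a b).Point) : Ln a b n →+* Ln a b n :=
  IsFractionRing.lift (tpsi_inj hinf P)

private lemma tsig_alg (hinf : Infinite (curve a b).Point) (P : Fin n → (curve a b).Point)
    (z : Bn a b n) : tsig hinf P (algebraMap _ _ z) = tpsi hinf P z :=
  IsFractionRing.lift_algebraMap _ _

private lemma tsig_val (hinf : Infinite (curve a b).Point) {P T T' : Fin n → (curve a b).Point}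
    (h0 : ∀ i, T i ≠ 0) (h0' : ∀ i, T' i ≠ 0) (hT' : ∀ i, T' i = T i + P i)
    (h : ∀ i, P i = 0 ∨ ptX (T i) ≠ ptX (P i)) (z : Ln a b n) (c : ℚ)
    (hz : Val (evB T' h0' : Bn a b n →+* ℚ) z c) :
    Val (evB T h0 : Bn a b n →+* ℚ) (tsig hinf P z) c := by
  obtain ⟨u, v, h1, h2, h3⟩ := hz
  have hu := tpsi_val hinf h0 h0' hT' h u
  have hv := tpsi_val hinf h0 h0' hT' h v
  have h4 : tsig hinf P z * tpsi hinf P v = tpsi hinf P u := by
    rw [← tsig_alg, ← tsig_alg, ← map_mul, h2]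
  have h5 : tpsi hinf P v ≠ 0 := hv.ne_zero h1
  have h6 : tsig hinf P z = tpsi hinf P u / tpsi hinf P v := by
    rw [eq_div_iff h5, h4]
  have h1' : evB T' h0' v ≠ 0 := h1
  have h3' : evB T' h0' u = c * evB T' h0' v := h3
  have h7 : c = evB T' h0' u / evB T' h0' v := by
    rw [h3', mul_div_assoc, div_self h1', mul_one]
  rw [h6, h7]
  exact hu.div hv h1

private lemma x_sub_ne (hinf : Infinite (curve a b).Point) (P : Fin n → (curve a b).Point)
    {i : Fin n} (hP : P i ≠ 0) :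
    algebraMap _ (Ln a b n) (xB a b i) - algebraMap ℚ _ (ptX (P i)) ≠ 0 := by
  obtain ⟨Q, hQ⟩ := (gd_infinite hinf (κ := Unit) (fun _ => P i) fun _ => 0).nonempty
  have hQ1 := hQ ()
  rw [add_zero] at hQ1
  have h0 : ∀ j : Fin n, (fun _ => Q : Fin n → (curve a b).Point) j ≠ 0 := fun _ => hQ1.1
  have h1 := (Val.alg' (F := Ln a b n) (ev := (evB (fun _ => Q) h0 : Bn a b n →+* ℚ))
    (evB_x _ h0 i)).sub (val_rat h0 (ptX (P i)))
  exact h1.ne_zero (sub_ne_zero.2 (hQ1.2.2.resolve_left hP))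

/-- Rational points act on the function field by translation. -/
theorem exists_tau (hΔ : 4 * a ^ 3 + 27 * b ^ 2 ≠ 0) (hinf : Infinite (curve a b).Point) (n : ℕ) :
    ∃ σ : (Fin n → (curve a b).Point) → (Ln a b n →+* Ln a b n),
      (∀ z, σ 0 z = z) ∧ (∀ P Q z, σ (P + Q) z = σ P (σ Q z)) ∧
      (∀ P i, P i = 0 → σ P (algebraMap _ _ (xB a b i)) = algebraMap _ _ (xB a b i) ∧
        σ P (algebraMap _ _ (yB a b i)) = algebraMap _ _ (yB a b i)) ∧
      (∀ P i, P i ≠ 0 →
        σ P (algebraMap _ _ (xB a b i)) *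
            (algebraMap _ (Ln a b n) (xB a b i) - algebraMap ℚ _ (ptX (P i))) ^ 2 =
          (algebraMap _ (Ln a b n) (yB a b i) - algebraMap ℚ _ (ptY (P i))) ^ 2 -
            (algebraMap _ (Ln a b n) (xB a b i) + algebraMap ℚ _ (ptX (P i))) *
              (algebraMap _ (Ln a b n) (xB a b i) - algebraMap ℚ _ (ptX (P i))) ^ 2 ∧
        σ P (algebraMap _ _ (yB a b i)) *
            (algebraMap _ (Ln a b n) (xB a b i) - algebraMap ℚ _ (ptX (P i))) =
          -(algebraMap _ (Ln a b n) (yB a b i) *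
              (algebraMap _ (Ln a b n) (xB a b i) - algebraMap ℚ _ (ptX (P i))) +
            (algebraMap _ (Ln a b n) (yB a b i) - algebraMap ℚ _ (ptY (P i))) *
              (σ P (algebraMap _ _ (xB a b i)) - algebraMap _ (Ln a b n) (xB a b i)))) ∧
      ∀ (P T : Fin n → (curve a b).Point) (h : ∀ i, T i ≠ 0) (h' : ∀ i, (T + P) i ≠ 0),
        (∀ i, P i = 0 ∨ ptX (T i) ≠ ptX (P i)) → ∀ (z : Ln a b n) (c : ℚ),
          Val (evB (T + P) h' : Bn a b n →+* ℚ) z c →
            Val (evB T h : Bn a b n →+* ℚ) (σ P z) c := by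
  have hfix : ∀ (P : Fin n → (curve a b).Point) i, P i = 0 →
      tsig hinf P (algebraMap _ _ (xB a b i)) = algebraMap _ _ (xB a b i) ∧
        tsig hinf P (algebraMap _ _ (yB a b i)) = algebraMap _ _ (yB a b i) := by
    intro P i hP
    rw [tsig_alg, tsig_alg, tpsi, liftB_x, liftB_y, tu, tv, if_pos hP, if_pos hP]
    exact ⟨rfl, rfl⟩
  refine ⟨tsig hinf, ?_, ?_, hfix, ?_, ?_⟩
  · intro z
    have h1 : tsig hinf (0 : Fin n → (curve a b).Point) = RingHom.id (Ln a b n) := by
      refine IsLocalization.ringHom_ext (nonZeroDivisors (Bn a b n)) (Bn_hom_ext ?_ ?_)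
      · intro i
        exact (hfix 0 i rfl).1
      · intro i
        exact (hfix 0 i rfl).2
    rw [h1]
    rfl
  · intro P Q z
    have key : ∀ w : Ln a b n, (∀ (T' : Fin n → (curve a b).Point) (h0 : ∀ i, T' i ≠ 0),
        ∃ c, Val (evB T' h0 : Bn a b n →+* ℚ) w c) →
          tsig hinf (P + Q) w = tsig hinf P (tsig hinf Q w) := by
      intro w hw
      refine tsep (gd_infinite hinf (κ := Fin n ⊕ (Fin n ⊕ Fin n))
        (Sum.elim (P + Q) (Sum.elim P Q)) (Sum.elim 0 (Sum.elim 0 P))) fun T h0 hT => ?_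
      have g1 : ∀ i, Gd (P i + Q i) (T i) := fun i => by
        have := hT i (Sum.inl i)
        simpa using this
      have g2 : ∀ i, Gd (P i) (T i) := fun i => by
        have := hT i (Sum.inr (Sum.inl i))
        simpa using this
      have g3 : ∀ i, Gd (Q i) (T i + P i) := fun i => by
        have := hT i (Sum.inr (Sum.inr i))
        simpa using this
      have h3 : ∀ i, T i + P i + Q i ≠ 0 := fun i => (g3 i).2.1
      obtain ⟨c, hc⟩ := hw (fun i => T i + P i + Q i) h3
      refine ⟨c, ?_, ?_⟩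
      · exact tsig_val hinf (T' := fun i => T i + P i + Q i) h0 h3
          (fun i => add_assoc _ _ _) (fun i => (g1 i).2.2) w c hc
      · refine tsig_val hinf (T' := fun i => T i + P i) h0 (fun i => (g2 i).2.1) (fun i => rfl)
          (fun i => (g2 i).2.2) _ c ?_
        exact tsig_val hinf (T' := fun i => T i + P i + Q i) (fun i => (g2 i).2.1) h3
          (fun i => rfl) (fun i => (g3 i).2.2) w c hc
    have h1 : tsig hinf (P + Q) = (tsig hinf P).comp (tsig hinf Q) := by
      refine IsLocalization.ringHom_ext (nonZeroDivisors (Bn a b n)) (Bn_hom_ext ?_ ?_)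
      · intro i
        exact key _ fun T' h0 => ⟨_, Val.alg _⟩
      · intro i
        exact key _ fun T' h0 => ⟨_, Val.alg _⟩
    rw [h1]
    rfl
  · intro P i hP
    have hx := x_sub_ne hinf P hP
    rw [tsig_alg, tsig_alg, tpsi, liftB_x, liftB_y]
    constructor
    · rw [tu, if_neg hP, tlam]
      field_simp
      ring
    · rw [tv, if_neg hP, tlam]
      field_simp
  · intro P T h h' hne z c hz
    exact tsig_val hinf h h' (fun i => rfl) hne z c hz

end MP3550b5.RG
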