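import Mathlib
import Pool.Agent.Lib.MP_3550b5_nt.RG.Defs

/-!
The product formula for denominators.
-/

namespace MP3550b5.RG

open Pool.Agent.Lib.MP_3550b5_nt

variable {p : ℕ} [hp : Fact p.Prime] {a b : ℤ}

private lemma two_prim_dvd {M U V N S T : ℤ}
    (hprim : ∀ l : ℤ, Prime l → l ∣ M → l ∣ U → l ∣ V → False) (hM0 : M ≠ 0)
    (h1 : S * M = N * U) (h2 : T * M = N * V) : M ∣ N := by
  have hc : IsCoprime M (gcd U V) := by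
    apply isCoprime_of_prime_dvd
    · rintro ⟨h0, -⟩
      exact hM0 h0
    · intro l hl h3 h4
      exact hprim l hl h3 (h4.trans (gcd_dvd_left U V)) (h4.trans (gcd_dvd_right U V))
  have h3 : M ∣ gcd (N * U) (N * V) := dvd_gcd (Dvd.intro_left S h1) (Dvd.intro_left T h2)
  rw [gcd_mul_left] at h3
  exact dvd_normalize_iff.mp (hc.dvd_of_dvd_mul_right h3)

/-- The forms of the map of addition and subtraction are primitive at nonsingular points. -/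
private lemma two_forms {A B D A' D' : ℤ} (hc : IsCoprime A D) (hc' : IsCoprime A' D')
    (hs : IsCoprime (2 * B) (3 * A ^ 2 + a * D ^ 4))
    (hE : B ^ 2 = A ^ 3 + a * A * D ^ 4 + b * D ^ 6) (l : ℤ) (hl : Prime l)
    (h1 : l ∣ (A * D' ^ 2 - A' * D ^ 2) ^ 2)
    (h2 : l ∣ 2 * ((A * D' ^ 2 + A' * D ^ 2) * (a * D ^ 2 * D' ^ 2 + A * A') +
      2 * b * D ^ 4 * D' ^ 4))
    (h3 : l ∣ (A * A' - a * D ^ 2 * D' ^ 2) ^ 2 -
      4 * b * D ^ 2 * D' ^ 2 * (A * D' ^ 2 + A' * D ^ 2)) : False := by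
  have hW : l ∣ A * D' ^ 2 - A' * D ^ 2 := hl.dvd_of_dvd_pow h1
  have hAD : ¬ (l ∣ A ∧ l ∣ D) := fun h => hl.not_unit (hc.isUnit_of_dvd' h.1 h.2)
  have hAD' : ¬ (l ∣ A' ∧ l ∣ D') := fun h => hl.not_unit (hc'.isUnit_of_dvd' h.1 h.2)
  by_cases hD : l ∣ D
  · have hD2 : l ∣ D ^ 2 := dvd_pow hD two_ne_zero
    have h4 : l ∣ A * D' ^ 2 := by
      have := dvd_add hW (hD2.mul_left A')
      rwa [sub_add_cancel] at this
    have hD' : l ∣ D' := by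
      rcases hl.dvd_or_dvd h4 with h5 | h5
      · exact absurd ⟨h5, hD⟩ hAD
      · exact hl.dvd_of_dvd_pow h5
    have h5 : l ∣ (A * A') ^ 2 := by
      have e : (A * A') ^ 2 = ((A * A' - a * D ^ 2 * D' ^ 2) ^ 2 -
          4 * b * D ^ 2 * D' ^ 2 * (A * D' ^ 2 + A' * D ^ 2)) +
          D ^ 2 * (2 * a * A * A' * D' ^ 2 - a ^ 2 * D ^ 2 * D' ^ 4 +
            4 * b * D' ^ 2 * (A * D' ^ 2 + A' * D ^ 2)) := by ring
      rw [e]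
      exact dvd_add h3 (hD2.mul_right _)
    rcases hl.dvd_or_dvd (hl.dvd_of_dvd_pow h5) with h6 | h6
    · exact hAD ⟨h6, hD⟩
    · exact hAD' ⟨h6, hD'⟩
  · have hD' : ¬ l ∣ D' := by
      intro h4
      have hD2 : l ∣ D' ^ 2 := dvd_pow h4 two_ne_zero
      have h5 : l ∣ A' * D ^ 2 := by
        have := dvd_sub (hD2.mul_left A) hW
        rwa [sub_sub_cancel] at this
      rcases hl.dvd_or_dvd h5 with h6 | h6
      · exact hAD' ⟨h6, h4⟩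
      · exact hD (hl.dvd_of_dvd_pow h6)
    have hD4 : ¬ l ∣ D' ^ 4 := fun h => hD' (hl.dvd_of_dvd_pow h)
    have h2B : l ∣ (2 * B) ^ 2 := by
      have e : D' ^ 4 * (2 * B) ^ 2 = D ^ 2 *
          (2 * ((A * D' ^ 2 + A' * D ^ 2) * (a * D ^ 2 * D' ^ 2 + A * A') +
            2 * b * D ^ 4 * D' ^ 4)) -
          (A * D' ^ 2 - A' * D ^ 2) * (-2 * a * D ^ 4 * D' ^ 2 - 6 * A ^ 2 * D' ^ 2 +
            2 * A * (A * D' ^ 2 - A' * D ^ 2)) := by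
        linear_combination 4 * D' ^ 4 * hE
      have h5 : l ∣ D' ^ 4 * (2 * B) ^ 2 := by
        rw [e]
        exact dvd_sub (h2.mul_left _) (hW.mul_right _)
      exact (hl.dvd_or_dvd h5).resolve_left hD4
    have h3A : l ∣ (3 * A ^ 2 + a * D ^ 4) ^ 2 := by
      have e : D' ^ 4 * (3 * A ^ 2 + a * D ^ 4) ^ 2 = D ^ 4 *
          ((A * A' - a * D ^ 2 * D' ^ 2) ^ 2 -
            4 * b * D ^ 2 * D' ^ 2 * (A * D' ^ 2 + A' * D ^ 2)) -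
          (A * D' ^ 2 - A' * D ^ 2) * (-2 * A * (A ^ 2 - a * D ^ 4) * D' ^ 2 +
            A ^ 2 * (A * D' ^ 2 - A' * D ^ 2) + 4 * b * D ^ 6 * D' ^ 2) +
          (2 * B) ^ 2 * (2 * A * D' ^ 4) := by
        linear_combination -8 * A * D' ^ 4 * hE
      have h5 : l ∣ D' ^ 4 * (3 * A ^ 2 + a * D ^ 4) ^ 2 := by
        rw [e]
        exact dvd_add (dvd_sub (h3.mul_left _) (hW.mul_right _)) (h2B.mul_right _)
      exact (hl.dvd_or_dvd h5).resolve_left hD4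
    exact hl.not_unit (hs.isUnit_of_dvd' (hl.dvd_of_dvd_pow h2B) (hl.dvd_of_dvd_pow h3A))

private lemma two_core {A B D A' D' A₃ D₃ A₄ D₄ : ℤ} (hc : IsCoprime A D)
    (hc' : IsCoprime A' D') (hs : IsCoprime (2 * B) (3 * A ^ 2 + a * D ^ 4))
    (hE : B ^ 2 = A ^ 3 + a * A * D ^ 4 + b * D ^ 6) (hc₃ : IsCoprime A₃ D₃)
    (hc₄ : IsCoprime A₄ D₄) (hD₃ : 0 < D₃) (hD₄ : 0 < D₄)
    (hW : A * D' ^ 2 - A' * D ^ 2 ≠ 0)
    (h1 : 2 * ((A * D' ^ 2 + A' * D ^ 2) * (a * D ^ 2 * D' ^ 2 + A * A') +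
      2 * b * D ^ 4 * D' ^ 4) * (D₃ ^ 2 * D₄ ^ 2) =
      (A * D' ^ 2 - A' * D ^ 2) ^ 2 * (A₃ * D₄ ^ 2 + A₄ * D₃ ^ 2))
    (h2 : ((A * A' - a * D ^ 2 * D' ^ 2) ^ 2 -
      4 * b * D ^ 2 * D' ^ 2 * (A * D' ^ 2 + A' * D ^ 2)) * (D₃ ^ 2 * D₄ ^ 2) =
      (A * D' ^ 2 - A' * D ^ 2) ^ 2 * (A₃ * A₄)) :
    D₃ * D₄ = |A * D' ^ 2 - A' * D ^ 2| := by
  have hM0 : 0 < D₃ ^ 2 * D₄ ^ 2 := by positivity
  have hN0 : 0 < (A * D' ^ 2 - A' * D ^ 2) ^ 2 := by positivity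
  have hprim : ∀ l : ℤ, Prime l → l ∣ D₃ ^ 2 * D₄ ^ 2 → l ∣ A₃ * D₄ ^ 2 + A₄ * D₃ ^ 2 →
      l ∣ A₃ * A₄ → False := by
    intro l hl g1 g2 g3
    have k3 : ¬ (l ∣ A₃ ∧ l ∣ D₃) := fun h => hl.not_unit (hc₃.isUnit_of_dvd' h.1 h.2)
    have k4 : ¬ (l ∣ A₄ ∧ l ∣ D₄) := fun h => hl.not_unit (hc₄.isUnit_of_dvd' h.1 h.2)
    rcases hl.dvd_or_dvd g3 with h | h
    · have h5 : ¬ l ∣ D₃ := fun h6 => k3 ⟨h, h6⟩
      have h6 : l ∣ A₄ * D₃ ^ 2 := by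
        have := dvd_sub g2 (h.mul_right (D₄ ^ 2))
        rwa [add_sub_cancel_left] at this
      have h7 : l ∣ A₄ := (hl.dvd_or_dvd h6).resolve_right fun h8 => h5 (hl.dvd_of_dvd_pow h8)
      rcases hl.dvd_or_dvd g1 with h8 | h8
      · exact h5 (hl.dvd_of_dvd_pow h8)
      · exact k4 ⟨h7, hl.dvd_of_dvd_pow h8⟩
    · have h5 : ¬ l ∣ D₄ := fun h6 => k4 ⟨h, h6⟩
      have h6 : l ∣ A₃ * D₄ ^ 2 := by
        have := dvd_sub g2 (h.mul_right (D₃ ^ 2))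
        rwa [add_sub_cancel_right] at this
      have h7 : l ∣ A₃ := (hl.dvd_or_dvd h6).resolve_right fun h8 => h5 (hl.dvd_of_dvd_pow h8)
      rcases hl.dvd_or_dvd g1 with h8 | h8
      · exact k3 ⟨h7, hl.dvd_of_dvd_pow h8⟩
      · exact h5 (hl.dvd_of_dvd_pow h8)
  have d1 : D₃ ^ 2 * D₄ ^ 2 ∣ (A * D' ^ 2 - A' * D ^ 2) ^ 2 :=
    two_prim_dvd hprim hM0.ne' h1 h2
  have d2 : (A * D' ^ 2 - A' * D ^ 2) ^ 2 ∣ D₃ ^ 2 * D₄ ^ 2 := by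
    refine two_prim_dvd (U := 2 * ((A * D' ^ 2 + A' * D ^ 2) * (a * D ^ 2 * D' ^ 2 + A * A') +
      2 * b * D ^ 4 * D' ^ 4)) (V := (A * A' - a * D ^ 2 * D' ^ 2) ^ 2 -
      4 * b * D ^ 2 * D' ^ 2 * (A * D' ^ 2 + A' * D ^ 2))
      (S := A₃ * D₄ ^ 2 + A₄ * D₃ ^ 2) (T := A₃ * A₄)
      (fun l hl g1 g2 g3 => two_forms hc hc' hs hE l hl g1 g2 g3) hN0.ne' ?_ ?_
    · rw [mul_comm (D₃ ^ 2 * D₄ ^ 2), h1, mul_comm]
    · rw [mul_comm (D₃ ^ 2 * D₄ ^ 2), h2, mul_comm]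
  have h3 := Int.dvd_antisymm hM0.le hN0.le d1 d2
  have h4 : (D₃ * D₄) ^ 2 = (A * D' ^ 2 - A' * D ^ 2) ^ 2 := by rw [mul_pow, h3]
  have h5 := (sq_eq_sq_iff_abs_eq_abs _ _).mp h4
  rwa [abs_of_pos (mul_pos hD₃ hD₄)] at h5

/-- Denominators of the sum and of the difference of two points of the good group. -/
theorem dn_two {P Q : (curve a b).Point} (hP : P ∈ goodGroup p a b) (hQ : Q ∈ goodGroup p a b)
    (hP0 : P ≠ 0) (hQ0 : Q ≠ 0) :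
    (dn (P + Q) : ℚ) * dn (P - Q) = (dn P : ℚ) ^ 2 * (dn Q : ℚ) ^ 2 * |ptX P - ptX Q| := by
  obtain ⟨hh, e⟩ := exists_eq_some P hP0
  obtain ⟨hh', e'⟩ := exists_eq_some Q hQ0
  by_cases hx : ptX P = ptX Q
  · rw [hx, sub_self, abs_zero, mul_zero]
    have h2 := (WeierstrassCurve.Affine.Point.X_eq_iff (h₁ := hh) (h₂ := hh')).mp hx
    rw [← e, ← e'] at h2
    rcases h2 with h2 | h2
    · rw [h2, sub_self, dn_zero, Nat.cast_zero, mul_zero]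
    · rw [h2, neg_add_cancel, dn_zero, Nat.cast_zero, zero_mul]
  obtain ⟨A, B, D, hrep, hD, hcop, -, hs⟩ := good_rep hP hP0
  obtain ⟨A', B', D', hrep', hD', hcop', -, -⟩ := good_rep hQ hQ0
  have hne : ptX P - ptX Q ≠ 0 := sub_ne_zero.mpr hx
  -- the coordinates of the sum and of the difference
  have hx3 : P + Q ≠ 0 ∧
      ptX (P + Q) = ((ptY P - ptY Q) / (ptX P - ptX Q)) ^ 2 - ptX P - ptX Q := by
    have hsum : P + Q = WeierstrassCurve.Affine.Point.some _ _ hh +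
        WeierstrassCurve.Affine.Point.some _ _ hh' := by rw [← e, ← e']
    rw [hsum, WeierstrassCurve.Affine.Point.add_of_X_ne hx]
    refine ⟨WeierstrassCurve.Affine.Point.some_ne_zero _, ?_⟩
    rw [ptX_some, WeierstrassCurve.Affine.slope_of_X_ne hx]
    simp [WeierstrassCurve.Affine.addX, curve]
  have hx4 : P - Q ≠ 0 ∧
      ptX (P - Q) = ((ptY P + ptY Q) / (ptX P - ptX Q)) ^ 2 - ptX P - ptX Q := by
    have hsum : P - Q = WeierstrassCurve.Affine.Point.some _ _ hh +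
        WeierstrassCurve.Affine.Point.some _ _
          ((WeierstrassCurve.Affine.nonsingular_neg ..).mpr hh') := by
      rw [← WeierstrassCurve.Affine.Point.neg_some hh', ← sub_eq_add_neg, ← e, ← e']
    rw [hsum, WeierstrassCurve.Affine.Point.add_of_X_ne hx]
    refine ⟨WeierstrassCurve.Affine.Point.some_ne_zero _, ?_⟩
    rw [ptX_some, WeierstrassCurve.Affine.slope_of_X_ne hx, curve_negY]
    simp [WeierstrassCurve.Affine.addX, curve]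
  obtain ⟨A₃, B₃, D₃, hrep₃, hD₃, hcop₃⟩ := exists_rep hx3.1
  obtain ⟨A₄, B₄, D₄, hrep₄, hD₄, hcop₄⟩ := exists_rep hx4.1
  have eP := curve_eq hh
  have eQ := curve_eq hh'
  set x := ptX P with hxd
  set y := ptY P with hyd
  set x' := ptX Q with hxd'
  set y' := ptY Q with hyd'
  have hsumX : (x - x') ^ 2 * (ptX (P + Q) + ptX (P - Q)) =
      2 * ((x + x') * (a + x * x') + 2 * b) := by
    rw [hx3.2, hx4.2]
    field_simp
    linear_combination 2 * eP + 2 * eQ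
  have hprodX : (x - x') ^ 2 * (ptX (P + Q) * ptX (P - Q)) =
      (x * x' - a) ^ 2 - 4 * b * (x + x') := by
    rw [hx3.2, hx4.2]
    have h3 : y ^ 2 = x ^ 3 + a * x + b := eP
    have h3' : y' ^ 2 = x' ^ 3 + a * x' + b := eQ
    field_simp
    ring_nf
    have h4 : y ^ 4 = (x ^ 3 + a * x + b) ^ 2 := by rw [← h3]; ring
    have h4' : y' ^ 4 = (x' ^ 3 + a * x' + b) ^ 2 := by rw [← h3']; ring
    simp only [h3, h4, h3', h4']
    ring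
  have hDq : (D : ℚ) ≠ 0 := by exact_mod_cast hD.ne'
  have hDq' : (D' : ℚ) ≠ 0 := by exact_mod_cast hD'.ne'
  have hDq₃ : (D₃ : ℚ) ≠ 0 := by exact_mod_cast hD₃.ne'
  have hDq₄ : (D₄ : ℚ) ≠ 0 := by exact_mod_cast hD₄.ne'
  have f1 : x = (A : ℚ) / (D : ℚ) ^ 2 := hrep.ptX_eq
  have f2 : x' = (A' : ℚ) / (D' : ℚ) ^ 2 := hrep'.ptX_eq
  rw [hrep₃.ptX_eq, hrep₄.ptX_eq, f1, f2] at hsumX hprodX
  have g1 : 2 * ((A * D' ^ 2 + A' * D ^ 2) * (a * D ^ 2 * D' ^ 2 + A * A') +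
      2 * b * D ^ 4 * D' ^ 4) * (D₃ ^ 2 * D₄ ^ 2) =
      (A * D' ^ 2 - A' * D ^ 2) ^ 2 * (A₃ * D₄ ^ 2 + A₄ * D₃ ^ 2) := by
    have h5 : (2 * ((A * D' ^ 2 + A' * D ^ 2) * (a * D ^ 2 * D' ^ 2 + A * A') +
      2 * b * D ^ 4 * D' ^ 4) * (D₃ ^ 2 * D₄ ^ 2) : ℚ) =
      (A * D' ^ 2 - A' * D ^ 2) ^ 2 * (A₃ * D₄ ^ 2 + A₄ * D₃ ^ 2) := by
      field_simp at hsumX
      linear_combination -hsumX
    exact_mod_cast h5
  have g2 : ((A * A' - a * D ^ 2 * D' ^ 2) ^ 2 -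
      4 * b * D ^ 2 * D' ^ 2 * (A * D' ^ 2 + A' * D ^ 2)) * (D₃ ^ 2 * D₄ ^ 2) =
      (A * D' ^ 2 - A' * D ^ 2) ^ 2 * (A₃ * A₄) := by
    have h5 : (((A * A' - a * D ^ 2 * D' ^ 2) ^ 2 -
      4 * b * D ^ 2 * D' ^ 2 * (A * D' ^ 2 + A' * D ^ 2)) * (D₃ ^ 2 * D₄ ^ 2) : ℚ) =
      (A * D' ^ 2 - A' * D ^ 2) ^ 2 * (A₃ * A₄) := by
      field_simp at hprodX
      linear_combination -hprodX
    exact_mod_cast h5
  have hW : A * D' ^ 2 - A' * D ^ 2 ≠ 0 := by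
    intro h0
    apply hne
    have h0' : (A : ℚ) * D' ^ 2 - A' * D ^ 2 = 0 := by exact_mod_cast h0
    rw [f1, f2]
    field_simp
    linear_combination h0'
  have key := two_core hcop hcop' hs hrep.eqn hcop₃ hcop₄ hD₃ hD₄ hW g1 g2
  have k1 : (dn (P + Q) : ℚ) = D₃ := by exact_mod_cast dn_of_rep hrep₃ hD₃ hcop₃
  have k2 : (dn (P - Q) : ℚ) = D₄ := by exact_mod_cast dn_of_rep hrep₄ hD₄ hcop₄
  have k3 : (dn P : ℚ) = D := by exact_mod_cast dn_of_rep hrep hD hcop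
  have k4 : (dn Q : ℚ) = D' := by exact_mod_cast dn_of_rep hrep' hD' hcop'
  have key' : (D₃ : ℚ) * D₄ = |(A : ℚ) * D' ^ 2 - A' * D ^ 2| := by exact_mod_cast key
  rw [k1, k2, k3, k4, key', f1, f2]
  have h6 : (A : ℚ) * D' ^ 2 - A' * D ^ 2 = (D ^ 2 * D' ^ 2) * (A / D ^ 2 - A' / D' ^ 2) := by
    field_simp
  rw [h6, abs_mul, abs_of_pos (by positivity : (0 : ℚ) < (D : ℚ) ^ 2 * (D' : ℚ) ^ 2)]

end MP3550b5.RG
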