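import Mathlib
import Pool.Agent.Lib.MP_3550b5_nt.RG.Rep
import Pool.Agent.Lib.MP_3550b5_nt.RG.Two
import Pool.Agent.Lib.MP_3550b5_nt.RG.Tau
import Pool.Agent.Lib.MP_3550b5_nt.NNear

/-!
The action of the translations.
-/

namespace MP3550b5.RG

open Pool.Agent.Lib.MP_3550b5_nt WeierstrassCurve.Affine

variable {p : ℕ} [hp : Fact p.Prime] {a b : ℤ} {n s : ℕ}

private lemma coc_ptX_ne {T P : (curve a b).Point} (hT : T ≠ 0) (hP : P ≠ 0) (h1 : T ≠ P)
    (h2 : T ≠ -P) : ptX T ≠ ptX P := by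
  obtain ⟨hh, e⟩ := exists_eq_some T hT
  obtain ⟨hh', e'⟩ := exists_eq_some P hP
  intro hx
  have h3 := (WeierstrassCurve.Affine.Point.X_eq_iff (h₁ := hh) (h₂ := hh')).mp hx
  rw [← e, ← e'] at h3
  rcases h3 with h3 | h3
  · exact h1 h3
  · exact h2 h3

private lemma coc_dn_ne {P : (curve a b).Point} (h : P ≠ 0) : (dn P : ℚ) ≠ 0 := by
  obtain ⟨A, B, D, hrep, hD, hcop⟩ := exists_rep h
  have h1 := dn_of_rep hrep hD hcop
  have h2 : dn P ≠ 0 := by omega
  exact_mod_cast h2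

/-- Constants. -/
private lemma coc_val_const (T : Fin n → (curve a b).Point) (h : ∀ i, T i ≠ 0) (c : ℚ) :
    Val (evB T h : Bn a b n →+* ℚ) (algebraMap ℚ (Ln a b n) c) c := by
  rw [IsScalarTower.algebraMap_apply ℚ (Bn a b n) (Ln a b n)]
  exact Val.alg' ((evB T h).commutes c)

/-- The function with the divisor `(P) + (-P) - 2 (0)`. -/
private noncomputable def cocF (P : (curve a b).Point) (z : Ln a b n) : Ln a b n :=
  if P = 0 then 1 else algebraMap ℚ _ ((dn P : ℚ) ^ 2) * (z - algebraMap ℚ _ (ptX P))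

private noncomputable def cocV (P : (curve a b).Point) (x : ℚ) : ℚ :=
  if P = 0 then 1 else (dn P : ℚ) ^ 2 * (x - ptX P)

private lemma coc_val_F {T : Fin n → (curve a b).Point} {h : ∀ i, T i ≠ 0} {z : Ln a b n} {x : ℚ}
    (hz : Val (evB T h : Bn a b n →+* ℚ) z x) (P : (curve a b).Point) :
    Val (evB T h : Bn a b n →+* ℚ) (cocF P z) (cocV P x) := by
  unfold cocF cocV
  split_ifs with h0
  · exact Val.one
  · exact (coc_val_const T h _).mul (hz.sub (coc_val_const T h _))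

private lemma coc_V_abs {M P : (curve a b).Point} (hM : M ∈ goodGroup p a b)
    (hP : P ∈ goodGroup p a b) (hM0 : M ≠ 0) :
    |cocV P (ptX M)| = (dn (M + P) : ℚ) * dn (M - P) / (dn M : ℚ) ^ 2 := by
  have hd := coc_dn_ne hM0
  unfold cocV
  split_ifs with h0
  · rw [h0, add_zero, sub_zero, abs_one]
    field_simp
  · rw [dn_two hM hP hM0 h0, abs_mul, abs_of_nonneg (by positivity : (0 : ℚ) ≤ (dn P : ℚ) ^ 2)]
    field_simp

private lemma coc_V_ne {M P : (curve a b).Point} (hM0 : M ≠ 0) (h1 : M - P ≠ 0)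
    (h2 : M + P ≠ 0) : cocV P (ptX M) ≠ 0 := by
  unfold cocV
  split_ifs with h0
  · exact one_ne_zero
  · refine mul_ne_zero (pow_ne_zero _ (coc_dn_ne h0)) (sub_ne_zero.mpr ?_)
    exact coc_ptX_ne hM0 h0 (fun h => h1 (sub_eq_zero.mpr h))
      fun h => h2 (by rw [h, neg_add_cancel])

/-! ### General position -/

private lemma coc_Ex_finite (X' : Fin s → (curve a b).Point) (g : (curve a b).Point) :
    (Ex X' g).Finite := by
  unfold Ex
  exact Set.toFinite _

private lemma coc_inf (hinf : Infinite (goodGroup p a b)) (E : Fin n → Set (curve a b).Point)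
    (hE : ∀ i, (E i).Finite) :
    {P : (curve a b).Point | P ∈ goodGroup p a b ∧ ∀ i, P ∉ E i}.Infinite := by
  have h1 : ((goodGroup p a b : Set (curve a b).Point)).Infinite := Set.infinite_coe_iff.mp hinf
  have h2 : (⋃ i, E i).Finite := Set.finite_iUnion hE
  refine (h1.sdiff h2).mono ?_
  rintro P ⟨hP, hP'⟩
  exact ⟨hP, fun i hi => hP' (Set.mem_iUnion.mpr ⟨i, hi⟩)⟩

section gp

variable {X' : Fin s → (curve a b).Point} {g T : (curve a b).Point}

private lemma coc_gp (h : T ∉ Ex X' g) : T ≠ 0 ∧ T ≠ g + g ∧ T ≠ -(g + g) ∧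
    (∀ k, T ≠ X' k + X' k) ∧ (∀ k, T ≠ X' k + X' k - (g + g)) ∧ (∀ k, T ≠ g - X' k) ∧
    ∀ k, T ≠ X' k - g := by
  unfold Ex at h
  simp only [Set.mem_union, Set.mem_insert_iff, Set.mem_singleton_iff, Set.mem_range, not_or,
    not_exists] at h
  obtain ⟨⟨⟨⟨⟨h1, h2, h3⟩, h4⟩, h5⟩, h6⟩, h7⟩ := h
  exact ⟨h1, h2, h3, fun k hk => h4 k hk.symm, fun k hk => h5 k hk.symm,
    fun k hk => h6 k hk.symm, fun k hk => h7 k hk.symm⟩

end gp

/-- The property of the translations which is used. -/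
private def CocT (τ : (Fin n → (curve a b).Point) → (Ln a b n →+* Ln a b n)) : Prop :=
  ∀ (P T : Fin n → (curve a b).Point) (h : ∀ i, T i ≠ 0) (h' : ∀ i, (T + P) i ≠ 0),
    (∀ i, P i = 0 ∨ ptX (T i) ≠ ptX (P i)) → ∀ (z : Ln a b n) (c : ℚ),
      Val (evB (T + P) h' : Bn a b n →+* ℚ) z c → Val (evB T h : Bn a b n →+* ℚ) (τ P z) c

/-- The factors. -/
private noncomputable def cocC (τ : (Fin n → (curve a b).Point) → (Ln a b n →+* Ln a b n)) (m : ℕ)
    (X' : Fin n → Fin s → (curve a b).Point) (γ : Fin n → (curve a b).Point) (k : Fin s) :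
    Ln a b n :=
  ∏ i, (cocF (γ i + X' i k) (τ (fun i => γ i - X' i k) (algebraMap _ _ (xB a b i))) /
    cocF (γ i - X' i k) (τ (fun i => γ i - X' i k) (algebraMap _ _ (xB a b i)))) ^ m

section val

variable {τ : (Fin n → (curve a b).Point) → (Ln a b n →+* Ln a b n)} (hτ : CocT τ)
  {X' : Fin n → Fin s → (curve a b).Point} {γ T : Fin n → (curve a b).Point} (hT : GP X' γ T)

include hτ

private lemma coc_val_sh (z : Ln a b n) (d : ℚ)
    (hz : Val (evB (sh T γ) hT.sh_ne : Bn a b n →+* ℚ) z d) :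
    Val (evB T hT.ne : Bn a b n →+* ℚ) (τ (fun i => γ i + γ i) z) d := by
  refine hτ (fun i => γ i + γ i) T hT.ne hT.sh_ne (fun i => ?_) z d hz
  obtain ⟨h1, h2, h3, -⟩ := coc_gp (hT i)
  by_cases h0 : γ i + γ i = 0
  · exact Or.inl h0
  · exact Or.inr (coc_ptX_ne h1 h0 h2 h3)

private lemma coc_val_tau (k : Fin s) (i : Fin n) :
    Val (evB T hT.ne : Bn a b n →+* ℚ) (τ (fun i => γ i - X' i k) (algebraMap _ _ (xB a b i)))
      (ptX (T i + (γ i - X' i k))) := by
  have h' : ∀ i, (T + fun i => γ i - X' i k) i ≠ 0 := by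
    intro i h0
    obtain ⟨-, -, -, -, -, -, h7⟩ := coc_gp (hT i)
    apply h7 k
    have h1 : T i + (γ i - X' i k) = 0 := h0
    rw [eq_neg_of_add_eq_zero_left h1, neg_sub]
  refine hτ (fun i => γ i - X' i k) T hT.ne h' (fun i => ?_) _ _ ?_
  · obtain ⟨h1, -, -, -, -, h6, h7⟩ := coc_gp (hT i)
    by_cases h0 : γ i - X' i k = 0
    · exact Or.inl h0
    · exact Or.inr (coc_ptX_ne h1 h0 (h6 k) (by rw [neg_sub]; exact h7 k))
  · exact Val.alg' (evB_x _ h' i)

private lemma coc_val_C (m : ℕ) (k : Fin s) :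
    Val (evB T hT.ne : Bn a b n →+* ℚ) (cocC τ m X' γ k)
      (∏ i, (cocV (γ i + X' i k) (ptX (T i + (γ i - X' i k))) /
        cocV (γ i - X' i k) (ptX (T i + (γ i - X' i k)))) ^ m) := by
  refine Val.prod _ fun i _ => Val.pow (Val.div (coc_val_F (coc_val_tau hτ hT k i) _)
    (coc_val_F (coc_val_tau hτ hT k i) _) ?_) m
  obtain ⟨h1, -, -, -, h5, -, h7⟩ := coc_gp (hT i)
  refine coc_V_ne ?_ ?_ ?_
  · intro h0
    apply h7 k
    rw [eq_neg_of_add_eq_zero_left h0, neg_sub]
  · rw [add_sub_cancel_right]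
    exact h1
  · intro h0
    apply h5 k
    rw [add_assoc] at h0
    rw [eq_neg_of_add_eq_zero_left h0]
    abel

private lemma coc_val_C' {m : ℕ} (hm : Even m) (hγ : ∀ i, γ i ∈ goodGroup p a b)
    (hX' : ∀ i k, X' i k ∈ goodGroup p a b) (hTg : ∀ i, T i ∈ goodGroup p a b) (k : Fin s) :
    Val (evB T hT.ne : Bn a b n →+* ℚ) (cocC τ m X' γ k)
      (wv m (dbl X') (sh T γ) k / wv m (dbl X') T k) := by
  have key := coc_val_C hτ hT m k
  convert key using 1
  unfold wv
  rw [← Finset.prod_div_distrib]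
  refine Finset.prod_congr rfl fun i _ => ?_
  rw [← div_pow, ← hm.pow_abs (_ / _), ← hm.pow_abs (cocV _ _ / _)]
  congr 1
  obtain ⟨h1, -, h3, h4, h5, -, h7⟩ := coc_gp (hT i)
  set M := T i + (γ i - X' i k) with hM
  have hM0 : M ≠ 0 := by
    intro h0
    apply h7 k
    rw [eq_neg_of_add_eq_zero_left h0, neg_sub]
  have hMg : M ∈ goodGroup p a b := add_mem (hTg i) (sub_mem (hγ i) (hX' i k))
  rw [abs_div (cocV _ _), coc_V_abs hMg (add_mem (hγ i) (hX' i k)) hM0,
    coc_V_abs hMg (sub_mem (hγ i) (hX' i k)) hM0]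
  have e1 : M + (γ i + X' i k) = T i + (γ i + γ i) := by rw [hM]; abel
  have e2 : M - (γ i + X' i k) = T i - (X' i k + X' i k) := by rw [hM]; abel
  have e3 : M + (γ i - X' i k) = T i + (γ i + γ i) - (X' i k + X' i k) := by rw [hM]; abel
  have e4 : M - (γ i - X' i k) = T i := by rw [hM]; abel
  rw [e1, e2, e3, e4]
  have d1 : (dn (T i + (γ i + γ i)) : ℚ) ≠ 0 := coc_dn_ne (hT.sh_ne i)
  have d2 : (dn (T i - (X' i k + X' i k)) : ℚ) ≠ 0 := coc_dn_ne (sub_ne_zero.mpr (h4 k))
  have d3 : (dn (T i + (γ i + γ i) - (X' i k + X' i k)) : ℚ) ≠ 0 := coc_dn_ne fun h0 => by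
    apply h5 k
    rw [eq_sub_iff_add_eq]
    exact sub_eq_zero.mp h0
  have d4 : (dn (T i) : ℚ) ≠ 0 := coc_dn_ne h1
  have d5 : (dn M : ℚ) ≠ 0 := coc_dn_ne hM0
  show |(dn (T i + (γ i + γ i)) : ℚ) / dn (T i + (γ i + γ i) - (X' i k + X' i k)) /
    ((dn (T i) : ℚ) / dn (T i - (X' i k + X' i k)))| = _
  rw [abs_of_nonneg (by positivity)]
  field_simp

end val

private lemma coc_wv_ne {X' : Fin n → Fin s → (curve a b).Point}
    {γ T : Fin n → (curve a b).Point} (hT : GP X' γ T) (m : ℕ) (k : Fin s) : wv m (dbl X') (sh T γ) k ≠ 0 ∧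
    wv m (dbl X') T k ≠ 0 := by
  unfold wv
  refine ⟨Finset.prod_ne_zero_iff.mpr fun i _ => ?_, Finset.prod_ne_zero_iff.mpr fun i _ => ?_⟩
  · obtain ⟨h1, -, h3, h4, h5, -, h7⟩ := coc_gp (hT i)
    refine pow_ne_zero _ (div_ne_zero (coc_dn_ne (hT.sh_ne i)) (coc_dn_ne fun h0 => h5 k ?_))
    rw [eq_sub_iff_add_eq]
    exact sub_eq_zero.mp h0
  · obtain ⟨h1, -, h3, h4, h5, -, h7⟩ := coc_gp (hT i)
    exact pow_ne_zero _ (div_ne_zero (coc_dn_ne h1) (coc_dn_ne (sub_ne_zero.mpr (h4 k))))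

/-! ### Degrees -/

private lemma coc_rep_div {C C' : ℕ} {S : Set (Fin n → (curve a b).Point)} {z z' : Ln a b n}
    (h : Rep C S z) (h' : Rep C' S z') (hne : ∃ T ∈ S, ∀ i, T i ≠ 0)
    (hv : ∀ T ∈ S, ∀ h : ∀ i, T i ≠ 0, ∃ c, c ≠ 0 ∧ Val (evB T h : Bn a b n →+* ℚ) z' c) :
    Rep (C + C') S (z / z') := by
  refine Rep.div h h' (fun T hT h h0 => ?_) ?_
  · obtain ⟨c, hc, hv⟩ := hv T hT h
    exact hc (hv.unique h0)
  · obtain ⟨T, hT, h⟩ := hne
    obtain ⟨c, hc, hv⟩ := hv T hT h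
    exact hv.ne_zero hc

private lemma coc_rep_x {S : Set (Fin n → (curve a b).Point)} (i : Fin n) :
    Rep 1 S (algebraMap (Bn a b n) (Ln a b n) (xB a b i)) :=
  Rep.poly (MvPolynomial.X (Sum.inl i)) fun j => by
    rw [MvPolynomial.degreeOf_X]
    split_ifs <;> omega

private lemma coc_rep_y {S : Set (Fin n → (curve a b).Point)} (i : Fin n) :
    Rep 1 S (algebraMap (Bn a b n) (Ln a b n) (yB a b i)) :=
  Rep.poly (MvPolynomial.X (Sum.inr i)) fun j => by
    rw [MvPolynomial.degreeOf_X]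
    split_ifs <;> omega

private lemma coc_rep_tau {S : Set (Fin n → (curve a b).Point)} (hne : ∃ T ∈ S, ∀ i, T i ≠ 0)
    (i : Fin n) (P : (curve a b).Point) (hS : ∀ T ∈ S, ptX (T i) ≠ ptX P)
    {z : Ln a b n}
    (hz : z * (algebraMap _ (Ln a b n) (xB a b i) - algebraMap ℚ _ (ptX P)) ^ 2 =
      (algebraMap _ (Ln a b n) (yB a b i) - algebraMap ℚ _ (ptY P)) ^ 2 -
        (algebraMap _ (Ln a b n) (xB a b i) + algebraMap ℚ _ (ptX P)) *
          (algebraMap _ (Ln a b n) (xB a b i) - algebraMap ℚ _ (ptX P)) ^ 2) :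
    Rep 7 S z := by
  have hx : Rep 1 S (algebraMap (Bn a b n) (Ln a b n) (xB a b i)) := coc_rep_x i
  have hy : Rep 1 S (algebraMap (Bn a b n) (Ln a b n) (yB a b i)) := coc_rep_y i
  have h1 : Rep 1 S (algebraMap (Bn a b n) (Ln a b n) (xB a b i) - algebraMap ℚ _ (ptX P)) :=
    hx.sub (Rep.const (C := 0) _)
  have h2 : Rep 1 S (algebraMap (Bn a b n) (Ln a b n) (yB a b i) - algebraMap ℚ _ (ptY P)) :=
    hy.sub (Rep.const (C := 0) _)
  have h3 : Rep 1 S (algebraMap (Bn a b n) (Ln a b n) (xB a b i) + algebraMap ℚ _ (ptX P)) :=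
    hx.add (Rep.const (C := 0) _)
  have hv : ∀ T ∈ S, ∀ h : ∀ i, T i ≠ 0, ∃ c, c ≠ 0 ∧ Val (evB T h : Bn a b n →+* ℚ)
      ((algebraMap (Bn a b n) (Ln a b n) (xB a b i) - algebraMap ℚ _ (ptX P)) ^ 2) c := by
    intro T hT h
    refine ⟨(ptX (T i) - ptX P) ^ 2, pow_ne_zero _ (sub_ne_zero.mpr (hS T hT)), ?_⟩
    exact ((Val.alg' (evB_x T h i)).sub (coc_val_const T h _)).pow 2
  have h4 := coc_rep_div ((h2.pow 2).sub (h3.mul (h1.pow 2))) (h1.pow 2) hne hv
  have h5 : z = ((algebraMap _ (Ln a b n) (yB a b i) - algebraMap ℚ _ (ptY P)) ^ 2 -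
        (algebraMap _ (Ln a b n) (xB a b i) + algebraMap ℚ _ (ptX P)) *
          (algebraMap _ (Ln a b n) (xB a b i) - algebraMap ℚ _ (ptX P)) ^ 2) /
      (algebraMap _ (Ln a b n) (xB a b i) - algebraMap ℚ _ (ptX P)) ^ 2 := by
    rw [eq_div_iff, hz]
    obtain ⟨T, hT, h⟩ := hne
    obtain ⟨c, hc, hv⟩ := hv T hT h
    exact hv.ne_zero hc
  rw [h5]
  exact h4.mono (by norm_num)

private lemma coc_rep_tau' {S : Set (Fin n → (curve a b).Point)} (hne : ∃ T ∈ S, ∀ i, T i ≠ 0)
    (i : Fin n) (P : (curve a b).Point) (hS : ∀ T ∈ S, ptX (T i) ≠ ptX P)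
    {z z' : Ln a b n} (hz : Rep 7 S z)
    (hz' : z' * (algebraMap _ (Ln a b n) (xB a b i) - algebraMap ℚ _ (ptX P)) =
      -(algebraMap _ (Ln a b n) (yB a b i) *
              (algebraMap _ (Ln a b n) (xB a b i) - algebraMap ℚ _ (ptX P)) +
            (algebraMap _ (Ln a b n) (yB a b i) - algebraMap ℚ _ (ptY P)) *
              (z - algebraMap _ (Ln a b n) (xB a b i)))) :
    Rep 12 S z' := by
  have hx : Rep 1 S (algebraMap (Bn a b n) (Ln a b n) (xB a b i)) := coc_rep_x i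
  have hy : Rep 1 S (algebraMap (Bn a b n) (Ln a b n) (yB a b i)) := coc_rep_y i
  have h1 : Rep 1 S (algebraMap (Bn a b n) (Ln a b n) (xB a b i) - algebraMap ℚ _ (ptX P)) :=
    hx.sub (Rep.const (C := 0) _)
  have h2 : Rep 1 S (algebraMap (Bn a b n) (Ln a b n) (yB a b i) - algebraMap ℚ _ (ptY P)) :=
    hy.sub (Rep.const (C := 0) _)
  have hv : ∀ T ∈ S, ∀ h : ∀ i, T i ≠ 0, ∃ c, c ≠ 0 ∧ Val (evB T h : Bn a b n →+* ℚ)
      (algebraMap (Bn a b n) (Ln a b n) (xB a b i) - algebraMap ℚ _ (ptX P)) c := by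
    intro T hT h
    refine ⟨ptX (T i) - ptX P, sub_ne_zero.mpr (hS T hT), ?_⟩
    exact (Val.alg' (evB_x T h i)).sub (coc_val_const T h _)
  have h4 := coc_rep_div ((hy.mul h1).add (h2.mul (hz.sub hx))).neg h1 hne hv
  have h5 : z' = -(algebraMap _ (Ln a b n) (yB a b i) *
              (algebraMap _ (Ln a b n) (xB a b i) - algebraMap ℚ _ (ptX P)) +
            (algebraMap _ (Ln a b n) (yB a b i) - algebraMap ℚ _ (ptY P)) *
              (z - algebraMap _ (Ln a b n) (xB a b i))) /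
      (algebraMap _ (Ln a b n) (xB a b i) - algebraMap ℚ _ (ptX P)) := by
    rw [eq_div_iff, hz']
    obtain ⟨T, hT, h⟩ := hne
    obtain ⟨c, hc, hv⟩ := hv T hT h
    exact hv.ne_zero hc
  rw [h5]
  exact h4.mono (by norm_num)

private lemma coc_rep_F {S : Set (Fin n → (curve a b).Point)} {z : Ln a b n} (hz : Rep 7 S z)
    (P : (curve a b).Point) : Rep 7 S (cocF P z) := by
  unfold cocF
  split_ifs
  · have := Rep.const (n := n) (a := a) (b := b) (C := 7) (S := S) 1
    rwa [map_one] at this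
  · have h1 : Rep 7 S (z - algebraMap ℚ _ (ptX P)) := hz.sub (Rep.const (C := 0) _)
    exact ((Rep.const (C := 0) _).mul h1).mono (by norm_num)

/-- The action of the translations exists. -/
theorem exists_act (hΔ : 4 * a ^ 3 + 27 * b ^ 2 ≠ 0) (hinf : Infinite (goodGroup p a b)) {m : ℕ}
    (hm : Even m) (X' : Fin n → Fin s → (curve a b).Point)
    (hX' : ∀ i k, X' i k ∈ goodGroup p a b) : Nonempty (Act p a b n s m X') := by
  have hinf' : Infinite (curve a b).Point :=
    Infinite.of_injective (Subtype.val : goodGroup p a b → (curve a b).Point)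
      Subtype.val_injective
  obtain ⟨τ, t0, tadd, tx0, tx, tv⟩ := exists_tau hΔ hinf' n
  have hτ : CocT τ := tv
  -- points in general position
  have hpt : ∀ γ : Fin n → goodGroup p a b, ∃ T : Fin n → (curve a b).Point,
      (∀ i, T i ∈ goodGroup p a b) ∧ GP X' (fun i => (γ i : (curve a b).Point)) T := by
    intro γ
    obtain ⟨P, hP, hP'⟩ := (coc_inf hinf (fun i => Ex (X' i) (γ i : (curve a b).Point))
      fun i => coc_Ex_finite _ _).nonempty
    exact ⟨fun _ => P, fun _ => hP, fun i => hP' i⟩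
  have hne : ∀ γ : Fin n → goodGroup p a b,
      ∃ T ∈ {T | GP X' (fun i => (γ i : (curve a b).Point)) T}, ∀ i, T i ≠ 0 := by
    intro γ
    obtain ⟨T, -, hT⟩ := hpt γ
    exact ⟨T, hT, hT.ne⟩
  have hcv : ∀ (γ : Fin n → goodGroup p a b) (T : Fin n → (curve a b).Point)
      (_ : ∀ i, T i ∈ goodGroup p a b)
      (hT : GP X' (fun i => (γ i : (curve a b).Point)) T) (k : Fin s),
      Val (evB T hT.ne : Bn a b n →+* ℚ)
        (cocC τ m X' (fun i => (γ i : (curve a b).Point)) k)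
        (wv m (dbl X') (sh T fun i => (γ i : (curve a b).Point)) k / wv m (dbl X') T k) :=
    fun γ T hTg hT k => coc_val_C' hτ hT hm (fun i => (γ i).2) hX' hTg k
  have hrx : ∀ (γ : Fin n → goodGroup p a b) (i : Fin n),
      Rep 7 {T | GP X' (fun i => (γ i : (curve a b).Point)) T}
        (τ (fun i => (γ i : (curve a b).Point) + γ i)
          (algebraMap (Bn a b n) (Ln a b n) (xB a b i))) := by
    intro γ i
    by_cases h0 : (γ i : (curve a b).Point) + γ i = 0
    · rw [(tx0 (fun i => (γ i : (curve a b).Point) + γ i) i h0).1]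
      exact (coc_rep_x i).mono (by norm_num)
    · refine coc_rep_tau (hne γ) i _ (fun T hT => ?_)
        (tx (fun i => (γ i : (curve a b).Point) + γ i) i h0).1
      obtain ⟨h1, h2, h3, -⟩ := coc_gp (hT i)
      exact coc_ptX_ne h1 h0 h2 h3
  refine ⟨{ σ := fun γ => τ fun i => (γ i : (curve a b).Point) + γ i
            c := fun γ k => cocC τ m X' (fun i => (γ i : (curve a b).Point)) k
            σ_zero := fun z => ?_
            σ_add := fun γ δ z => ?_
            c_ne := fun γ k => ?_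
            c_add := fun γ δ k => ?_
            σ_val := fun γ T hT z d hz => coc_val_sh hτ hT z d hz
            c_val := hcv
            deg := n * (m * 14) + 12
            rep_x := fun γ i => (hrx γ i).mono (by omega)
            rep_y := fun γ i => ?_
            rep_c := fun γ k => ?_ }⟩
  · have h1 : (fun i : Fin n => (((0 : Fin n → goodGroup p a b) i : goodGroup p a b) :
        (curve a b).Point) + ((0 : Fin n → goodGroup p a b) i : goodGroup p a b)) = 0 := by
      funext i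
      simp
    show τ _ z = z
    rw [h1]
    exact t0 z
  · show τ _ z = τ _ (τ _ z)
    rw [← tadd]
    congr 2
    funext i
    simp only [Pi.add_apply, AddSubgroup.coe_add]
    abel
  · obtain ⟨T, hTg, hT⟩ := hpt γ
    have h1 := hcv γ T hTg hT k
    obtain ⟨h2, h3⟩ := coc_wv_ne hT m k
    exact h1.ne_zero (div_ne_zero h2 h3)
  · -- the cocycle relation
    set S0 : Set (curve a b).Point := {P | P ∈ goodGroup p a b ∧
      ∀ i, P ∉ Ex (X' i) (γ i : (curve a b).Point) ∪
        Ex (X' i) ((γ + δ) i : goodGroup p a b) ∪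
        (fun P => P + ((γ i : (curve a b).Point) + γ i)) ⁻¹' Ex (X' i) (δ i)} with hS0
    have hS0i : S0.Infinite := coc_inf hinf _ fun i =>
      ((coc_Ex_finite _ _).union (coc_Ex_finite _ _)).union
        ((coc_Ex_finite _ _).preimage (add_left_injective _).injOn)
    refine eq_of_val (A := Bn a b n) (K := ℚ)
      (ι := {T : Fin n → (curve a b).Point // ∀ i, T i ≠ 0})
      (ev := fun T => (evB T.1 T.2 : Bn a b n →+* ℚ)) (S := {T | ∀ i, T.1 i ∈ S0}) ?_ ?_
    · intro z hz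
      exact sep hS0i z fun T h0 hT => hz ⟨T, h0⟩ hT
    · rintro ⟨T, h0⟩ hT
      have hTg : ∀ i, T i ∈ goodGroup p a b := fun i => (hT i).1
      have g1 : GP X' (fun i => (γ i : (curve a b).Point)) T := fun i h =>
        (hT i).2 i (Or.inl (Or.inl h))
      have g2 : GP X' (fun i => (((γ + δ) i : goodGroup p a b) : (curve a b).Point)) T :=
        fun i h => (hT i).2 i (Or.inl (Or.inr h))
      have g3 : GP X' (fun i => (δ i : (curve a b).Point))
          (sh T fun i => (γ i : (curve a b).Point)) := fun i h => (hT i).2 i (Or.inr h)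
      have hTg' : ∀ i, sh T (fun i => (γ i : (curve a b).Point)) i ∈ goodGroup p a b :=
        fun i => add_mem (hTg i) (add_mem (γ i).2 (γ i).2)
      refine ⟨_, hcv (γ + δ) T hTg g2 k, ?_⟩
      have v1 := hcv γ T hTg g1 k
      have v2 := coc_val_sh hτ g1 _ _ (hcv δ _ hTg' g3 k)
      have v3 := v1.mul v2
      have e1 : sh (sh T fun i => (γ i : (curve a b).Point)) (fun i => (δ i : (curve a b).Point)) =
          sh T fun i => (((γ + δ) i : goodGroup p a b) : (curve a b).Point) := by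
        funext i
        simp only [sh, Pi.add_apply, AddSubgroup.coe_add]
        abel
      rw [e1] at v3
      convert v3 using 1
      obtain ⟨w1, w2⟩ := coc_wv_ne g1 m k
      field_simp
  · by_cases h0 : (γ i : (curve a b).Point) + γ i = 0
    · rw [(tx0 (fun i => (γ i : (curve a b).Point) + γ i) i h0).2]
      exact (coc_rep_y i).mono (by omega)
    · refine (coc_rep_tau' (hne γ) i _ (fun T hT => ?_) (hrx γ i)
        (tx (fun i => (γ i : (curve a b).Point) + γ i) i h0).2).mono (by omega)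
      obtain ⟨h1, h2, h3, -⟩ := coc_gp (hT i)
      exact coc_ptX_ne h1 h0 h2 h3
  · have hrt : ∀ i, Rep 7 {T | GP X' (fun i => (γ i : (curve a b).Point)) T}
        (τ (fun i => (γ i : (curve a b).Point) - X' i k)
          (algebraMap (Bn a b n) (Ln a b n) (xB a b i))) := by
      intro i
      by_cases h0 : (γ i : (curve a b).Point) - X' i k = 0
      · rw [(tx0 (fun i => (γ i : (curve a b).Point) - X' i k) i h0).1]
        exact (coc_rep_x i).mono (by norm_num)
      · refine coc_rep_tau (hne γ) i _ (fun T hT => ?_)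
          (tx (fun i => (γ i : (curve a b).Point) - X' i k) i h0).1
        obtain ⟨h1, -, -, -, -, h6, h7⟩ := coc_gp (hT i)
        exact coc_ptX_ne h1 h0 (h6 k) (by rw [neg_sub]; exact h7 k)
    have h1 : ∀ i ∈ (Finset.univ : Finset (Fin n)),
        Rep (m * (7 + 7)) {T | GP X' (fun i => (γ i : (curve a b).Point)) T}
        ((cocF ((γ i : (curve a b).Point) + X' i k)
            (τ (fun i => (γ i : (curve a b).Point) - X' i k) (algebraMap _ _ (xB a b i))) /
          cocF ((γ i : (curve a b).Point) - X' i k)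
            (τ (fun i => (γ i : (curve a b).Point) - X' i k)
              (algebraMap _ _ (xB a b i)))) ^ m) := by
      intro i _
      refine Rep.pow (coc_rep_div (coc_rep_F (hrt i) _) (coc_rep_F (hrt i) _) (hne γ) ?_) m
      intro T hT h
      have hT' : GP X' (fun i => (γ i : (curve a b).Point)) T := hT
      refine ⟨_, ?_, coc_val_F (coc_val_tau hτ hT' k i) _⟩
      obtain ⟨h1, -, -, -, h5, -, h7⟩ := coc_gp (hT i)
      refine coc_V_ne ?_ ?_ ?_
      · intro h0
        apply h7 k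
        rw [eq_neg_of_add_eq_zero_left h0, neg_sub]
      · rw [add_sub_cancel_right]
        exact h1
      · intro h0
        apply h5 k
        rw [add_assoc] at h0
        rw [eq_neg_of_add_eq_zero_left h0]
        abel
    have h2 := Rep.prod Finset.univ h1
    refine Rep.mono h2 ?_
    rw [Finset.card_univ, Fintype.card_fin]
    exact Nat.le_add_right _ _

end MP3550b5.RG
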