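import Mathlib
import Pool.Agent.Lib.MP_3550b5_nt.RG.Sep

/-!
The quasiperiodic functions of the stabiliser argument, along the multiples of a point.
-/

namespace MP3550b5.RG

open Pool.Agent.Lib.MP_3550b5_nt WeierstrassCurve.Affine

variable {a b : ℤ}

open scoped Classical in
/-- The value at `T` of a function on the affine curve. -/
noncomputable def ev1 (u : Bn a b 1) (T : (curve a b).Point) : ℚ :=
  if h : T ≠ 0 then evB (fun _ => T) (fun _ => h) u else 0

/-- The function `(u / v) * prod_k w_k ^ μ_k`, `w_k (T) = (dn T / dn (T - X_k)) ^ m`. -/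
noncomputable def GG {s : ℕ} (m : ℕ) (X : Fin s → (curve a b).Point) (μ : Fin s → ℤ)
    (u v : Bn a b 1) (T : (curve a b).Point) : ℚ :=
  ev1 u T / ev1 v T * ∏ k, (((dn T : ℚ) / dn (T - X k)) ^ m) ^ (μ k)

/-- A nonzero function has finitely many rational zeros. -/
lemma finite_zeros {u : Bn a b 1} (hu : u ≠ 0) : {T : (curve a b).Point | ev1 u T = 0}.Finite := by
  by_contra hS
  apply hu
  refine sep (S := {T : (curve a b).Point | ev1 u T = 0}) hS u fun T h0 hT => ?_
  have h1 : ev1 u (T 0) = 0 := hT 0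
  rw [ev1, dif_pos (h0 0)] at h1
  have h2 : ∀ (T' : Fin 1 → (curve a b).Point) (h' : ∀ i, T' i ≠ 0), T' = T →
      evB T' h' u = 0 → evB T h0 u = 0 := by
    intro T' h' e h3
    subst e
    exact h3
  exact h2 (fun _ => T 0) (fun _ => h0 0) (funext fun i => by rw [Subsingleton.elim i 0]) h1

end MP3550b5.RG
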