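import Mathlib
import Pool.Agent.Lib.MP_3550b5_nt.RG.Eigen
import Pool.Agent.Lib.MP_3550b5_nt.NMain

/-!
Archimedean growth of the quasiperiodic functions.
-/

namespace MP3550b5.RG

open Pool.Agent.Lib.MP_3550b5_nt WeierstrassCurve.Affine

variable {a b : ℤ}

private lemma ga_ev1 {T : (curve a b).Point} (hT : T ≠ 0) (u : Bn a b 1) :
    ev1 u T = evB (fun _ => T) (fun _ => hT) u := by
  rw [ev1, dif_pos hT]

/-- functions are bounded away from the origin -/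
private lemma ga_upper (u : Bn a b 1) (X₁ : ℚ) : ∃ W : ℚ, 0 < W ∧ ∀ T : (curve a b).Point,
    T ≠ 0 → |ptX T| ≤ X₁ → |ev1 u T| ≤ W := by
  induction u using Bn_induction with
  | hc c =>
    refine ⟨|c| + 1, by positivity, fun T hT _ => ?_⟩
    rw [ga_ev1 hT, AlgHom.commutes]
    have h1 : algebraMap ℚ ℚ c = c := rfl
    rw [h1]
    linarith
  | hx i =>
    refine ⟨|X₁| + 1, by positivity, fun T hT hx => ?_⟩
    rw [ga_ev1 hT, evB_x]
    have := le_abs_self X₁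
    linarith
  | hy i =>
    refine ⟨|X₁| ^ 3 + |(a : ℚ)| * |X₁| + |(b : ℚ)| + 1, by positivity, fun T hT hx => ?_⟩
    rw [ga_ev1 hT, evB_y]
    have h1 := ptY_sq hT
    have h0 : ∀ r : ℚ, algebraMap ℚ ℚ r = r := fun _ => rfl
    rw [h0, h0] at h1
    have hx' : |ptX T| ≤ |X₁| := hx.trans (le_abs_self _)
    have h2 : |ptY T| ^ 2 ≤ |X₁| ^ 3 + |(a : ℚ)| * |X₁| + |(b : ℚ)| := by
      rw [sq_abs, h1]
      calc ptX T ^ 3 + (a : ℚ) * ptX T + b ≤ |ptX T ^ 3 + (a : ℚ) * ptX T + b| := le_abs_self _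
        _ ≤ |ptX T ^ 3 + (a : ℚ) * ptX T| + |(b : ℚ)| := abs_add_le _ _
        _ ≤ |ptX T ^ 3| + |(a : ℚ) * ptX T| + |(b : ℚ)| := by
            have := abs_add_le (ptX T ^ 3) ((a : ℚ) * ptX T)
            linarith
        _ = |ptX T| ^ 3 + |(a : ℚ)| * |ptX T| + |(b : ℚ)| := by rw [abs_pow, abs_mul]
        _ ≤ _ := by gcongr
    have h3 := abs_nonneg (ptY T)
    have h4 : 0 ≤ |X₁| ^ 3 + |(a : ℚ)| * |X₁| + |(b : ℚ)| := by positivity
    nlinarith
  | hadd z z' h1 h2 =>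
    obtain ⟨W, hW0, hW⟩ := h1
    obtain ⟨W', hW0', hW'⟩ := h2
    refine ⟨W + W', by positivity, fun T hT hx => ?_⟩
    have g1 := hW T hT hx
    have g2 := hW' T hT hx
    rw [ga_ev1 hT] at g1 g2 ⊢
    rw [map_add]
    exact (abs_add_le _ _).trans (add_le_add g1 g2)
  | hmul z z' h1 h2 =>
    obtain ⟨W, hW0, hW⟩ := h1
    obtain ⟨W', hW0', hW'⟩ := h2
    refine ⟨W * W', by positivity, fun T hT hx => ?_⟩
    have g1 := hW T hT hx
    have g2 := hW' T hT hx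
    rw [ga_ev1 hT] at g1 g2 ⊢
    rw [map_mul, abs_mul]
    exact mul_le_mul g1 g2 (abs_nonneg _) hW0.le

/-- polynomials are bounded below near infinity -/
private lemma ga_poly {p : Polynomial ℚ} (hp : p ≠ 0) : ∃ X₀ c : ℚ, 0 < c ∧ ∀ x : ℚ,
    X₀ ≤ |x| → c ≤ |p.eval x| := by
  by_cases hd : p.degree ≤ 0
  · rw [Polynomial.eq_C_of_degree_le_zero hd] at hp ⊢
    have h0 : p.coeff 0 ≠ 0 := fun h => hp (by rw [h, map_zero])
    exact ⟨0, |p.coeff 0|, abs_pos.2 h0, fun x _ => by rw [Polynomial.eval_C]⟩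
  · push Not at hd
    have hz : Filter.Tendsto ((abs : ℚ → ℚ) ∘ (id : ℚ → ℚ))
        (Filter.comap (abs : ℚ → ℚ) Filter.atTop) Filter.atTop := Filter.tendsto_comap
    have h1 := Polynomial.tendsto_abv_atTop (abs : ℚ → ℚ) p hd hz
    have h2 := h1.eventually (Filter.eventually_ge_atTop 1)
    rw [Filter.eventually_comap, Filter.eventually_atTop] at h2
    obtain ⟨X₀, hX⟩ := h2
    exact ⟨X₀, 1, one_pos, fun x hx => hX |x| hx x rfl⟩

/-- functions are bounded below near the origin -/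
private lemma ga_lower {u : Bn a b 1} (hu : u ≠ 0) : ∃ X₀ : ℚ, ∀ X₁ : ℚ, ∃ c : ℚ, 0 < c ∧
    ∀ T : (curve a b).Point, T ≠ 0 → X₀ ≤ |ptX T| → |ptX T| ≤ X₁ → c ≤ |ev1 u T| := by
  obtain ⟨g, hg, w, hw⟩ := exists_dvd_poly hu
  obtain ⟨p, hp⟩ : ∃ p : Polynomial ℚ, p = MvPolynomial.aeval (fun _ => Polynomial.X) g :=
    ⟨_, rfl⟩
  have hpe : ∀ x : ℚ, p.eval x = MvPolynomial.eval (fun _ => x) g := by
    intro x
    have h1 : (Polynomial.aeval x) (MvPolynomial.aeval (fun _ : Fin 1 => (Polynomial.X : Polynomial ℚ)) g) =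
        MvPolynomial.aeval (fun _ : Fin 1 => x) g := by
      rw [MvPolynomial.comp_aeval_apply]
      simp
    rw [hp, ← Polynomial.coe_aeval_eq_eval]
    exact h1
  have hp0 : p ≠ 0 := by
    intro h0
    apply hg
    apply MvPolynomial.funext
    intro x
    have h1 := hpe (x 0)
    rw [h0, Polynomial.eval_zero] at h1
    rw [map_zero, h1]
    congr 2
    funext i
    rw [Subsingleton.elim i 0]
  obtain ⟨X₀, c, hc, hX⟩ := ga_poly hp0
  refine ⟨X₀, fun X₁ => ?_⟩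
  obtain ⟨W, hW0, hW⟩ := ga_upper w X₁
  refine ⟨c / W, by positivity, fun T hT h1 h2 => ?_⟩
  have h3 := hX _ h1
  have h4 := hW T hT h2
  have h5 : p.eval (ptX T) = ev1 u T * ev1 w T := by
    rw [ga_ev1 hT, ga_ev1 hT, ← map_mul, ← hw, MvPolynomial.comp_aeval_apply, hpe]
    simp only [evB_x]
    rfl
  rw [h5, abs_mul] at h3
  rw [div_le_iff₀ hW0]
  exact h3.trans (mul_le_mul_of_nonneg_left h4 (abs_nonneg _))

private lemma ga_bp_zsmul {G : Type*} [AddCommGroup G] {q : G → ℝ}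
    (hq : ∀ x y, q (x + y) + q (x - y) = 2 * q x + 2 * q y) (x y : G) (n : ℤ) :
    bp q x (n • y) = n * bp q x y := by
  have h1 : ∀ n : ℕ, bp q x (n • y) = n * bp q x y := by
    intro n
    rw [bp_comm, bp_nsmul_left hq, bp_comm]
  rcases Int.eq_nat_or_neg n with ⟨k, rfl | rfl⟩
  · rw [natCast_zsmul, h1]
    push_cast
    rfl
  · rw [neg_smul, bp_neg_right hq, natCast_zsmul, h1]
    push_cast
    ring

/-- the logarithm of the function -/
private lemma ga_log {s : ℕ} (m : ℕ) (X : Fin s → (curve a b).Point) (μ : Fin s → ℤ)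
    (u v : Bn a b 1) (T : (curve a b).Point) (hu : ev1 u T ≠ 0) (hv : ev1 v T ≠ 0)
    (hT : (0 : ℝ) < dn T) (hX : ∀ k, (0 : ℝ) < dn (T - X k)) :
    ((GG m X μ u v T : ℚ) : ℝ) ≠ 0 ∧ Real.log ((GG m X μ u v T : ℚ) : ℝ) =
      Real.log ((ev1 u T : ℚ) : ℝ) - Real.log ((ev1 v T : ℚ) : ℝ) +
        ∑ k, (μ k : ℝ) * (m * (Real.log (dn T) - Real.log (dn (T - X k)))) := by
  have hu' : ((ev1 u T : ℚ) : ℝ) ≠ 0 := by exact_mod_cast hu
  have hv' : ((ev1 v T : ℚ) : ℝ) ≠ 0 := by exact_mod_cast hv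
  have h1 : ((GG m X μ u v T : ℚ) : ℝ) = ((ev1 u T : ℚ) : ℝ) / ((ev1 v T : ℚ) : ℝ) *
      ∏ k, (((dn T : ℝ) / dn (T - X k)) ^ m) ^ (μ k) := by
    rw [GG]
    push_cast
    rfl
  have h2 : ∀ k ∈ (Finset.univ : Finset (Fin s)),
      (((dn T : ℝ) / dn (T - X k)) ^ m) ^ (μ k) ≠ 0 := fun k _ =>
    zpow_ne_zero _ (pow_ne_zero _ (div_ne_zero hT.ne' (hX k).ne'))
  rw [h1]
  refine ⟨mul_ne_zero (div_ne_zero hu' hv') (Finset.prod_ne_zero_iff.2 h2), ?_⟩
  rw [Real.log_mul (div_ne_zero hu' hv') (Finset.prod_ne_zero_iff.2 h2),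
    Real.log_div hu' hv', Real.log_prod h2]
  congr 1
  refine Finset.sum_congr rfl fun k _ => ?_
  rw [Real.log_zpow, Real.log_pow, Real.log_div hT.ne' (hX k).ne']

/-- the size of the logarithm -/
private lemma ga_size {s : ℕ} (m : ℕ) (X : Fin s → (curve a b).Point) (μ : Fin s → ℤ)
    {q : (curve a b).Point → ℝ}
    (hq : ∀ P Q, q (P + Q) + q (P - Q) = 2 * q P + 2 * q Q) (j : ℕ) :
    ∑ k, (μ k : ℝ) * (m * (q (j • lin X μ) - q (j • lin X μ - X k))) =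
      m * (j * bp q (lin X μ) (lin X μ)) - m * ∑ k, (μ k : ℝ) * q (X k) := by
  have h1 : ∀ k, q (j • lin X μ) - q (j • lin X μ - X k) = j * bp q (lin X μ) (X k) - q (X k) := by
    intro k
    have h2 := bp_neg_right hq (j • lin X μ) (X k)
    rw [bp_nsmul_left hq j (lin X μ) (X k)] at h2
    have h3 : bp q (j • lin X μ) (-X k) = q (j • lin X μ - X k) - q (j • lin X μ) - q (X k) := by
      rw [bp, quad_neg hq, ← sub_eq_add_neg]
    linarith
  have h4 : bp q (lin X μ) (lin X μ) = ∑ k, (μ k : ℝ) * bp q (lin X μ) (X k) := by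
    have h5 : bp q (lin X μ) (lin X μ) = bp q (lin X μ) (∑ k, μ k • X k) := by
      conv_lhs => rw [lin_apply X μ]
      rw [lin_apply X μ]
    rw [h5, bp_sum_right hq]
    exact Finset.sum_congr rfl fun k _ => ga_bp_zsmul hq _ _ _
  rw [h4, Finset.mul_sum, Finset.mul_sum, Finset.mul_sum, ← Finset.sum_sub_distrib]
  refine Finset.sum_congr rfl fun k _ => ?_
  rw [h1]
  ring

/-- The factor of a quasiperiodic function is larger than one at the archimedean place. -/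
theorem eig_arch (hΔ : 4 * a ^ 3 + 27 * b ^ 2 ≠ 0) {s m : ℕ} (hm : 1 ≤ m)
    (X : Fin s → (curve a b).Point) (μ : Fin s → ℤ)
    (hX : ∀ k, X k ≠ 0) (hV : ¬ IsOfFinAddOrder (lin X μ)) {u v : Bn a b 1} (hu : u ≠ 0)
    (hv : v ≠ 0) {χ : ℚ} (J : ℕ)
    (h : ∀ j : ℕ, J ≤ j → GG m X μ u v ((j + 1) • lin X μ) = χ * GG m X μ u v (j • lin X μ)) :
    1 < |χ| := by
  classical
  obtain ⟨q, C, c, hq, hnn, hC, hc, hcq, hup, -, hlow⟩ := exists_arch2 hΔ
  obtain ⟨V, hVd⟩ : ∃ V, V = lin X μ := ⟨_, rfl⟩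
  -- translates
  have hb : ∀ k, ∃ R : ℚ, 1 ≤ R ∧ ∀ Q : (curve a b).Point, (Q ≠ 0 ∧ |ptX Q| ≤ R) ∨
      (Q + -X k ≠ 0 ∧ |ptX (Q + -X k)| ≤ R) := fun k => exists_bounded (neg_ne_zero.2 (hX k))
  choose Rk hRk1 hRk2 using hb
  obtain ⟨XA, hXA⟩ : ∃ XA : ℚ, XA = 1 + ∑ k, Rk k := ⟨_, rfl⟩
  have hXA1 : 1 ≤ XA := by
    rw [hXA]
    have : 0 ≤ ∑ k, Rk k := Finset.sum_nonneg fun k _ => zero_le_one.trans (hRk1 k)
    linarith
  have hRkle : ∀ k, Rk k < XA := by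
    intro k
    rw [hXA]
    have := Finset.single_le_sum (f := Rk) (fun k _ => zero_le_one.trans (hRk1 k))
      (Finset.mem_univ k)
    linarith
  have htr : ∀ k, ∀ T : (curve a b).Point, XA ≤ |ptX T| → T - X k ≠ 0 ∧
      |ptX (T - X k)| ≤ XA := by
    intro k T hT
    rw [sub_eq_add_neg]
    rcases hRk2 k T with h1 | h1
    · exfalso
      have := hRkle k
      linarith [h1.2]
    · exact ⟨h1.1, h1.2.trans (hRkle k).le⟩
  -- lower bounds
  obtain ⟨Xu, hXu⟩ := ga_lower hu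
  obtain ⟨Xv, hXv⟩ := ga_lower hv
  obtain ⟨X₀, hX₀⟩ : ∃ X₀ : ℚ, X₀ = max XA (max Xu Xv) := ⟨_, rfl⟩
  obtain ⟨X₁, hX₁⟩ := exists_near hΔ hV X₀
  have hX₀1 : 1 ≤ X₀ := by
    rw [hX₀]
    exact hXA1.trans (le_max_left _ _)
  have hX₁1 : 1 ≤ X₁ := by
    obtain ⟨j, -, h1, h2⟩ := hX₁ 0
    linarith
  obtain ⟨cu, hcu0, hcu⟩ := hXu X₁
  obtain ⟨cv, hcv0, hcv⟩ := hXv X₁
  obtain ⟨Wu, hWu0, hWu⟩ := ga_upper u X₁
  obtain ⟨Wv, hWv0, hWv⟩ := ga_upper v X₁
  obtain ⟨C₁, hC₁⟩ := hlow X₁ hX₁1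
  obtain ⟨CA, hCA⟩ := hlow XA hXA1
  -- the constant
  obtain ⟨K, hK⟩ : ∃ K : ℝ, ∀ j : ℕ, X₀ ≤ |ptX (j • V)| → |ptX (j • V)| ≤ X₁ →
      ((GG m X μ u v (j • V) : ℚ) : ℝ) ≠ 0 ∧
      |Real.log ((GG m X μ u v (j • V) : ℚ) : ℝ) - m * (j * bp q V V)| ≤ K := by
    refine ⟨(|Real.log cu| + |Real.log Wu|) + (|Real.log cv| + |Real.log Wv|) +
      (∑ k, |(μ k : ℝ)| * (m * ((|C| + |C₁|) + (|C| + |CA|)))) +
      |(m : ℝ) * ∑ k, (μ k : ℝ) * q (X k)|, fun j hj0 hj1 => ?_⟩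
    obtain ⟨T, hTd⟩ : ∃ T, T = j • V := ⟨_, rfl⟩
    rw [← hTd] at hj0 hj1 ⊢
    have hT0 : T ≠ 0 := by
      intro h0
      rw [h0] at hj0
      have h1 : ptX (0 : (curve a b).Point) = 0 := rfl
      rw [h1, abs_zero] at hj0
      linarith
    have hjA : XA ≤ |ptX T| := le_trans (by rw [hX₀]; exact le_max_left _ _) hj0
    have hju : Xu ≤ |ptX T| :=
      le_trans (by rw [hX₀]; exact (le_max_left _ _).trans (le_max_right _ _)) hj0
    have hjv : Xv ≤ |ptX T| :=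
      le_trans (by rw [hX₀]; exact (le_max_right _ _).trans (le_max_right _ _)) hj0
    have hbu := hcu T hT0 hju hj1
    have hbv := hcv T hT0 hjv hj1
    have hu0 : ev1 u T ≠ 0 := abs_pos.1 (hcu0.trans_le hbu)
    have hv0 : ev1 v T ≠ 0 := abs_pos.1 (hcv0.trans_le hbv)
    -- logarithms of bounded quantities
    have hlog : ∀ (z c' W : ℚ), 0 < c' → c' ≤ |z| → |z| ≤ W →
        |Real.log (z : ℝ)| ≤ |Real.log (c' : ℝ)| + |Real.log (W : ℝ)| := by
      intro z c' W h1 h2 h3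
      have h1' : (0 : ℝ) < c' := by exact_mod_cast h1
      have h2' : (c' : ℝ) ≤ |(z : ℝ)| := by exact_mod_cast h2
      have h3' : |(z : ℝ)| ≤ (W : ℝ) := by exact_mod_cast h3
      rw [← Real.log_abs (z : ℝ)]
      have g1 := Real.log_le_log h1' h2'
      have g2 := Real.log_le_log (h1'.trans_le h2') h3'
      rw [abs_le]
      have g3 := neg_abs_le (Real.log (c' : ℝ))
      have g4 := le_abs_self (Real.log (W : ℝ))
      have g5 := abs_nonneg (Real.log (c' : ℝ))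
      have g6 := abs_nonneg (Real.log (W : ℝ))
      constructor <;> linarith
    have hdn : ∀ (Q : (curve a b).Point) (C' : ℝ), Real.exp (q Q - C') ≤ (dn Q : ℝ) →
        (0 : ℝ) < dn Q ∧ |Real.log (dn Q) - q Q| ≤ |C| + |C'| := by
      intro Q C' h1
      have h2 : (0 : ℝ) < dn Q := (Real.exp_pos _).trans_le h1
      refine ⟨h2, ?_⟩
      have g1 := Real.log_le_log (Real.exp_pos _) h1
      rw [Real.log_exp] at g1
      have g2 := Real.log_le_log h2 (hup Q)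
      rw [Real.log_exp] at g2
      have g3 := le_abs_self C
      have g4 := le_abs_self C'
      have g5 := abs_nonneg C
      have g6 := abs_nonneg C'
      rw [abs_le]
      constructor <;> linarith
    obtain ⟨hdT, hdT'⟩ := hdn T C₁ (hC₁ T hT0 hj1)
    have hdk : ∀ k, (0 : ℝ) < dn (T - X k) ∧
        |Real.log (dn (T - X k)) - q (T - X k)| ≤ |C| + |CA| := fun k =>
      hdn _ CA (hCA _ (htr k T hjA).1 (htr k T hjA).2)
    obtain ⟨hne, hl⟩ := ga_log m X μ u v T hu0 hv0 hdT fun k => (hdk k).1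
    refine ⟨hne, ?_⟩
    have hs := ga_size m X μ hq j
    rw [← hVd, ← hTd] at hs
    have e1 : Real.log ((GG m X μ u v T : ℚ) : ℝ) - m * (j * bp q V V) =
        Real.log ((ev1 u T : ℚ) : ℝ) - Real.log ((ev1 v T : ℚ) : ℝ) +
        ∑ k, (μ k : ℝ) * (m * ((Real.log (dn T) - q T) -
          (Real.log (dn (T - X k)) - q (T - X k)))) - m * ∑ k, (μ k : ℝ) * q (X k) := by
      have e2 : ∑ k, (μ k : ℝ) * (m * ((Real.log (dn T) - q T) -
          (Real.log (dn (T - X k)) - q (T - X k)))) =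
          ∑ k, (μ k : ℝ) * (m * (Real.log (dn T) - Real.log (dn (T - X k)))) -
          ∑ k, (μ k : ℝ) * (m * (q T - q (T - X k))) := by
        rw [← Finset.sum_sub_distrib]
        exact Finset.sum_congr rfl fun k _ => by ring
      rw [e2, hs, hl]
      ring
    rw [e1]
    have f1 := hlog _ _ _ hcu0 hbu (hWu T hT0 hj1)
    have f2 := hlog _ _ _ hcv0 hbv (hWv T hT0 hj1)
    have f3 : |∑ k, (μ k : ℝ) * (m * ((Real.log (dn T) - q T) -
          (Real.log (dn (T - X k)) - q (T - X k))))| ≤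
        ∑ k, |(μ k : ℝ)| * (m * ((|C| + |C₁|) + (|C| + |CA|))) := by
      refine (Finset.abs_sum_le_sum_abs _ _).trans (Finset.sum_le_sum fun k _ => ?_)
      rw [abs_mul, abs_mul, Nat.abs_cast]
      refine mul_le_mul_of_nonneg_left (mul_le_mul_of_nonneg_left ?_ (Nat.cast_nonneg m))
        (abs_nonneg _)
      exact (abs_sub _ _).trans (add_le_add hdT' (hdk k).2)
    have f4 := abs_sub (Real.log ((ev1 u T : ℚ) : ℝ) - Real.log ((ev1 v T : ℚ) : ℝ) +
        ∑ k, (μ k : ℝ) * (m * ((Real.log (dn T) - q T) -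
          (Real.log (dn (T - X k)) - q (T - X k))))) (m * ∑ k, (μ k : ℝ) * q (X k))
    have f5 := abs_add_le (Real.log ((ev1 u T : ℚ) : ℝ) - Real.log ((ev1 v T : ℚ) : ℝ))
        (∑ k, (μ k : ℝ) * (m * ((Real.log (dn T) - q T) -
          (Real.log (dn (T - X k)) - q (T - X k)))))
    have f6 := abs_sub (Real.log ((ev1 u T : ℚ) : ℝ)) (Real.log ((ev1 v T : ℚ) : ℝ))
    linarith
  -- two multiples
  have hbV : 0 < bp q V V := by
    have h1 : bp q V V = 2 * q V := by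
      rw [bp, quad_double hq]
      ring
    have h2 := hcq V (by rw [hVd]; exact hV)
    rw [h1]
    linarith
  have hm' : (1 : ℝ) ≤ m := by exact_mod_cast hm
  obtain ⟨N, hN⟩ := exists_nat_gt (2 * K / bp q V V)
  rw [div_lt_iff₀ hbV] at hN
  rw [← hVd] at hX₁ h
  obtain ⟨j, hjJ, hj0, hj1⟩ := hX₁ J
  obtain ⟨j', hjj, hj0', hj1'⟩ := hX₁ (j + N + 1)
  obtain ⟨hne, hK1⟩ := hK j hj0 hj1
  obtain ⟨hne', hK2⟩ := hK j' hj0' hj1'
  have hiter : ∀ n : ℕ, GG m X μ u v ((j + n) • V) = χ ^ n * GG m X μ u v (j • V) := by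
    intro n
    induction n with
    | zero => simp
    | succ n ih =>
      have h1 := h (j + n) (by omega)
      rw [← add_assoc, h1, ih, pow_succ]
      ring
  obtain ⟨n, hn⟩ : ∃ n, j' = j + n := ⟨j' - j, by omega⟩
  have hnN : N + 1 ≤ n := by omega
  have h1 := hiter n
  rw [← hn] at h1
  have h1' : ((GG m X μ u v (j' • V) : ℚ) : ℝ) =
      (χ : ℝ) ^ n * ((GG m X μ u v (j • V) : ℚ) : ℝ) := by exact_mod_cast h1
  have hχ : (χ : ℝ) ≠ 0 := by
    intro h0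
    rw [h0, zero_pow (by omega), zero_mul] at h1'
    exact hne' h1'
  have h2 : Real.log ((GG m X μ u v (j' • V) : ℚ) : ℝ) =
      n * Real.log (χ : ℝ) + Real.log ((GG m X μ u v (j • V) : ℚ) : ℝ) := by
    rw [h1', Real.log_mul (pow_ne_zero _ hχ) hne, Real.log_pow]
  rw [abs_le] at hK1 hK2
  have hn' : (j' : ℝ) = j + n := by rw [hn]; push_cast; rfl
  have h3 : (m : ℝ) * (n * bp q V V) - 2 * K ≤ n * Real.log (χ : ℝ) := by
    have e : (m : ℝ) * (n * bp q V V) = m * (j' * bp q V V) - m * (j * bp q V V) := by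
      rw [hn']
      ring
    linarith [hK1.2, hK2.1]
  have hNn : (N : ℝ) ≤ n := by
    have : N ≤ n := by omega
    exact_mod_cast this
  have h4 : 2 * K < m * (n * bp q V V) := by
    have g1 : (N : ℝ) * bp q V V ≤ n * bp q V V := mul_le_mul_of_nonneg_right hNn hbV.le
    have g2 : (n : ℝ) * bp q V V ≤ m * (n * bp q V V) :=
      le_mul_of_one_le_left (mul_nonneg (Nat.cast_nonneg _) hbV.le) hm'
    linarith
  have hnpos : (0 : ℝ) < n := by
    have : 0 < n := by omega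
    exact_mod_cast this
  have h5 : 0 < Real.log (χ : ℝ) := by
    by_contra h0
    push Not at h0
    have := mul_nonpos_of_nonneg_of_nonpos hnpos.le h0
    linarith
  by_contra h6
  push Not at h6
  have h7 : |(χ : ℝ)| ≤ 1 := by exact_mod_cast h6
  have h8 := Real.log_nonpos (abs_nonneg _) h7
  rw [Real.log_abs] at h8
  linarith

end MP3550b5.RG
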