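import Mathlib
import Pool.Agent.Lib.MP_3550b5_nt.RG.Eigen
import Pool.Agent.Lib.MP_3550b5_nt.NMain

/-!
The quasiperiodic functions at the finite places.

A point of infinite order has multiples which are arbitrarily close to the origin at `l`: if the
abscissae of all its multiples were bounded, a convergent subsequence and the formulas for
`x (P + Q) + x (P - Q)` and `x (P + Q) x (P - Q)` would give a common zero of two polynomials
without common zeros.
-/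

namespace MP3550b5.RG

open Pool.Agent.Lib.MP_3550b5_nt WeierstrassCurve.Affine Filter Topology

variable {a b : ℤ}

section formulas

lemma gl_add {P Q : (curve a b).Point} (hP : P ≠ 0) (hQ : Q ≠ 0) (hx : ptX P ≠ ptX Q) :
    P + Q ≠ 0 ∧ ptX (P + Q) = ((ptY P - ptY Q) / (ptX P - ptX Q)) ^ 2 - ptX P - ptX Q ∧
      ptY (P + Q) = -(ptY P + (ptY P - ptY Q) / (ptX P - ptX Q) * (ptX (P + Q) - ptX P)) := by
  obtain ⟨hh, e⟩ := exists_eq_some P hP
  obtain ⟨hh', e'⟩ := exists_eq_some Q hQ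
  have hsum : P + Q = WeierstrassCurve.Affine.Point.some _ _ hh +
      WeierstrassCurve.Affine.Point.some _ _ hh' := by rw [← e, ← e']
  rw [hsum, WeierstrassCurve.Affine.Point.add_of_X_ne hx]
  refine ⟨WeierstrassCurve.Affine.Point.some_ne_zero _, ?_, ?_⟩
  · rw [ptX_some, WeierstrassCurve.Affine.slope_of_X_ne hx]
    simp [WeierstrassCurve.Affine.addX, curve]
  · rw [ptX_some, ptY_some, WeierstrassCurve.Affine.slope_of_X_ne hx]
    simp only [WeierstrassCurve.Affine.addX, WeierstrassCurve.Affine.addY,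
      WeierstrassCurve.Affine.negAddY, WeierstrassCurve.Affine.negY, curve]
    ring

lemma gl_sub {P Q : (curve a b).Point} (hP : P ≠ 0) (hQ : Q ≠ 0) (hx : ptX P ≠ ptX Q) :
    P - Q ≠ 0 ∧ ptX (P - Q) = ((ptY P + ptY Q) / (ptX P - ptX Q)) ^ 2 - ptX P - ptX Q := by
  obtain ⟨hh, e⟩ := exists_eq_some P hP
  obtain ⟨hh', e'⟩ := exists_eq_some Q hQ
  have hsum : P - Q = WeierstrassCurve.Affine.Point.some _ _ hh +
      WeierstrassCurve.Affine.Point.some _ _
        ((WeierstrassCurve.Affine.nonsingular_neg ..).mpr hh') := by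
    rw [← WeierstrassCurve.Affine.Point.neg_some hh', ← sub_eq_add_neg, ← e, ← e']
  rw [hsum, WeierstrassCurve.Affine.Point.add_of_X_ne hx]
  refine ⟨WeierstrassCurve.Affine.Point.some_ne_zero _, ?_⟩
  rw [ptX_some, WeierstrassCurve.Affine.slope_of_X_ne hx, curve_negY]
  simp [WeierstrassCurve.Affine.addX, curve]

lemma gl_forms {P Q : (curve a b).Point} (hP : P ≠ 0) (hQ : Q ≠ 0) (hx : ptX P ≠ ptX Q) :
    (ptX P - ptX Q) ^ 2 * (ptX (P + Q) + ptX (P - Q)) =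
      2 * ((ptX P + ptX Q) * (a + ptX P * ptX Q) + 2 * b) ∧
    (ptX P - ptX Q) ^ 2 * (ptX (P + Q) * ptX (P - Q)) =
      (ptX P * ptX Q - a) ^ 2 - 4 * b * (ptX P + ptX Q) := by
  obtain ⟨-, h3, -⟩ := gl_add hP hQ hx
  obtain ⟨-, h4⟩ := gl_sub hP hQ hx
  obtain ⟨hh, -⟩ := exists_eq_some P hP
  obtain ⟨hh', -⟩ := exists_eq_some Q hQ
  have eP := curve_eq hh
  have eQ := curve_eq hh'
  have hne : ptX P - ptX Q ≠ 0 := sub_ne_zero.mpr hx
  set x := ptX P with hxd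
  set y := ptY P with hyd
  set x' := ptX Q with hxd'
  set y' := ptY Q with hyd'
  constructor
  · rw [h3, h4]
    field_simp
    linear_combination 2 * eP + 2 * eQ
  · rw [h3, h4]
    have h5 : y ^ 2 = x ^ 3 + a * x + b := eP
    have h5' : y' ^ 2 = x' ^ 3 + a * x' + b := eQ
    field_simp
    ring_nf
    have h6 : y ^ 4 = (x ^ 3 + a * x + b) ^ 2 := by rw [← h5]; ring
    have h6' : y' ^ 4 = (x' ^ 3 + a * x' + b) ^ 2 := by rw [← h5']; ring
    simp only [h5, h6, h5', h6']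
    ring

end formulas

section near

variable {l : ℕ} [Fact l.Prime]

/-- Multiples close to the origin at `l`. -/
theorem padic_near (hΔ : 4 * a ^ 3 + 27 * b ^ 2 ≠ 0) {V : (curve a b).Point}
    (hV : ¬ IsOfFinAddOrder V) (N : ℝ) :
    ∃ i : ℕ, 1 ≤ i ∧ N ≤ ‖((ptX (i • V) : ℚ) : ℚ_[l])‖ := by
  by_contra hcon
  push Not at hcon
  have hnt : ∀ n : ℕ, 0 < n → n • V ≠ 0 := nsmul_ne_of_not_tor hV
  set f : ℕ → ℚ_[l] := fun i => ((ptX ((i + 1) • V) : ℚ) : ℚ_[l]) with hf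
  have hfN : ∀ i, f i ∈ Metric.closedBall (0 : ℚ_[l]) N := by
    intro i
    rw [mem_closedBall_zero_iff]
    exact (hcon (i + 1) (by omega)).le
  obtain ⟨x, -, φ, hφ, hx⟩ := (isCompact_closedBall (0 : ℚ_[l]) N).tendsto_subseq hfN
  have hx1 : Tendsto (fun n => f (φ n)) atTop (𝓝 x) := hx
  have hx2 : Tendsto (fun n => f (φ (n + 1))) atTop (𝓝 x) := hx.comp (tendsto_add_atTop_nat 1)
  -- the two formulas
  have key : ∀ n, ∃ S R : ℚ_[l], ‖S‖ ≤ 2 * N ∧ ‖R‖ ≤ N * N ∧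
      (f (φ n) - f (φ (n + 1))) ^ 2 * S =
        2 * ((f (φ n) + f (φ (n + 1))) * (a + f (φ n) * f (φ (n + 1))) + 2 * b) ∧
      (f (φ n) - f (φ (n + 1))) ^ 2 * R =
        (f (φ n) * f (φ (n + 1)) - a) ^ 2 - 4 * b * (f (φ n) + f (φ (n + 1))) := by
    intro n
    have hlt : φ n < φ (n + 1) := hφ (Nat.lt_succ_self n)
    set P := (φ n + 1) • V with hP
    set Q := (φ (n + 1) + 1) • V with hQ
    have hP0 : P ≠ 0 := hnt _ (by omega)
    have hQ0 : Q ≠ 0 := hnt _ (by omega)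
    have hs : P + Q = (φ n + 1 + (φ (n + 1) + 1)) • V := by rw [hP, hQ, ← add_smul]
    have hd : P - Q = -((φ (n + 1) - φ n) • V) := by
      have h1 : Q = (φ (n + 1) - φ n) • V + P := by
        rw [hP, hQ, ← add_smul]
        congr 1
        omega
      rw [h1]
      abel
    have hxne : ptX P ≠ ptX Q := by
      intro h0
      obtain ⟨hh, e⟩ := exists_eq_some P hP0
      obtain ⟨hh', e'⟩ := exists_eq_some Q hQ0
      have h2 := (WeierstrassCurve.Affine.Point.X_eq_iff (h₁ := hh) (h₂ := hh')).mp h0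
      rw [← e, ← e'] at h2
      rcases h2 with h2 | h2
      · apply hnt (φ (n + 1) - φ n) (by omega)
        rw [← neg_eq_zero, ← hd, h2, sub_self]
      · apply hnt (φ n + 1 + (φ (n + 1) + 1)) (by omega)
        rw [← hs, h2, neg_add_cancel]
    obtain ⟨f1, f2⟩ := gl_forms hP0 hQ0 hxne
    have n1 : ‖((ptX (P + Q) : ℚ) : ℚ_[l])‖ ≤ N := by
      rw [hs]
      exact (hcon _ (by omega)).le
    have n2 : ‖((ptX (P - Q) : ℚ) : ℚ_[l])‖ ≤ N := by
      rw [hd, ptX_neg]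
      exact (hcon _ (by omega)).le
    refine ⟨((ptX (P + Q) : ℚ) : ℚ_[l]) + ((ptX (P - Q) : ℚ) : ℚ_[l]),
      ((ptX (P + Q) : ℚ) : ℚ_[l]) * ((ptX (P - Q) : ℚ) : ℚ_[l]), ?_, ?_, ?_, ?_⟩
    · refine (norm_add_le _ _).trans ?_
      linarith
    · rw [norm_mul]
      exact mul_le_mul n1 n2 (norm_nonneg _) ((norm_nonneg _).trans n1)
    · have := congrArg (fun z : ℚ => (z : ℚ_[l])) f1
      push_cast at this
      exact this
    · have := congrArg (fun z : ℚ => (z : ℚ_[l])) f2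
      push_cast at this
      exact this
  choose S R hS hR eS eR using key
  have hd0 : Tendsto (fun n => (f (φ n) - f (φ (n + 1))) ^ 2) atTop (𝓝 0) := by
    have := (hx1.sub hx2).pow 2
    simpa using this
  have lim0 : ∀ (g : ℕ → ℚ_[l]) (C : ℝ), (∀ n, ‖g n‖ ≤ C) →
      Tendsto (fun n => (f (φ n) - f (φ (n + 1))) ^ 2 * g n) atTop (𝓝 0) := by
    intro g C hg
    refine squeeze_zero_norm (a := fun n => ‖(f (φ n) - f (φ (n + 1))) ^ 2‖ * C) ?_ ?_
    · intro n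
      rw [norm_mul]
      exact mul_le_mul_of_nonneg_left (hg n) (norm_nonneg _)
    · have := hd0.norm.mul_const C
      simpa using this
  have l1 := lim0 S _ hS
  have l2 := lim0 R _ hR
  simp only [eS] at l1
  simp only [eR] at l2
  have l1' : Tendsto (fun n => 2 * ((f (φ n) + f (φ (n + 1))) * ((a : ℚ_[l]) +
      f (φ n) * f (φ (n + 1))) + 2 * (b : ℚ_[l]))) atTop
      (𝓝 (2 * ((x + x) * ((a : ℚ_[l]) + x * x) + 2 * (b : ℚ_[l])))) :=
    (((hx1.add hx2).mul ((hx1.mul hx2).const_add _)).add_const _).const_mul _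
  have l2' : Tendsto (fun n => (f (φ n) * f (φ (n + 1)) - (a : ℚ_[l])) ^ 2 -
      4 * (b : ℚ_[l]) * (f (φ n) + f (φ (n + 1)))) atTop
      (𝓝 ((x * x - (a : ℚ_[l])) ^ 2 - 4 * (b : ℚ_[l]) * (x + x))) :=
    (((hx1.mul hx2).sub_const _).pow 2).sub ((hx1.add hx2).const_mul _)
  have z1 := tendsto_nhds_unique l1' l1
  have z2 := tendsto_nhds_unique l2' l2
  have z3 : (4 * (a : ℚ_[l]) ^ 3 + 27 * (b : ℚ_[l]) ^ 2) = 0 := by
    linear_combination (3 * x ^ 2 + 4 * (a : ℚ_[l])) * z2 -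
      (3 * x ^ 3 - 5 * (a : ℚ_[l]) * x - 27 * (b : ℚ_[l])) / 4 * z1
  apply hΔ
  exact_mod_cast z3

end near

section chord

variable {K : Type*} [NormedField K]

/-- Adding a point which tends to the origin. -/
lemma chord_tendsto {a b : K} (s u : K) {X Y : ℕ → K}
    (hE : ∀ n, Y n ^ 2 = X n ^ 3 + a * X n + b) (hX : Tendsto (fun n => ‖X n‖) atTop atTop) :
    Tendsto (fun n => ((u - Y n) / (s - X n)) ^ 2 - s - X n) atTop (𝓝 s) ∧
    Tendsto (fun n => -(u + (u - Y n) / (s - X n) *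
      ((((u - Y n) / (s - X n)) ^ 2 - s - X n) - s))) atTop (𝓝 u) := by
  set t : ℕ → K := fun n => (X n)⁻¹ with ht
  set r : ℕ → K := fun n => Y n / X n ^ 2 with hr
  have hX' : Tendsto X atTop (Bornology.cobounded K) := tendsto_norm_atTop_iff_cobounded.mp hX
  have ht0 : Tendsto t atTop (𝓝 0) := tendsto_inv₀_cobounded.comp hX'
  have hXne : ∀ᶠ n in atTop, X n ≠ 0 ∧ X n ≠ s := by
    have h1 : ∀ᶠ n in atTop, ‖s‖ + 1 ≤ ‖X n‖ := hX.eventually_ge_atTop _
    filter_upwards [h1] with n hn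
    constructor
    · intro h0
      rw [h0, norm_zero] at hn
      have := norm_nonneg s
      linarith
    · intro h0
      rw [h0] at hn
      linarith
  have hr2 : Tendsto (fun n => r n ^ 2) atTop (𝓝 0) := by
    have h1 : Tendsto (fun n => t n + a * t n ^ 3 + b * t n ^ 4) atTop
        (𝓝 (0 + a * 0 ^ 3 + b * 0 ^ 4)) :=
      (ht0.add ((ht0.pow 3).const_mul a)).add ((ht0.pow 4).const_mul b)
    have h2 : (0 : K) + a * 0 ^ 3 + b * 0 ^ 4 = 0 := by ring
    rw [h2] at h1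
    refine h1.congr' ?_
    filter_upwards [hXne] with n hn
    have h0 := hn.1
    simp only [ht, hr]
    rw [div_pow, hE n]
    field_simp
  have hr0 : Tendsto r atTop (𝓝 0) := by
    rw [tendsto_zero_iff_norm_tendsto_zero] at hr2 ⊢
    have h1 := (Real.continuous_sqrt.tendsto 0).comp hr2
    rw [Real.sqrt_zero] at h1
    refine h1.congr fun n => ?_
    rw [Function.comp_apply, norm_pow, Real.sqrt_sq (norm_nonneg _)]
  set c : K := b + u ^ 2 - 2 * s ^ 3 with hc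
  have hden : Tendsto (fun n => (1 - s * t n) ^ 2) atTop (𝓝 ((1 - s * 0) ^ 2)) :=
    ((ht0.const_mul s).const_sub 1).pow 2
  have hden3 : Tendsto (fun n => (1 - s * t n) ^ 3) atTop (𝓝 ((1 - s * 0) ^ 3)) :=
    ((ht0.const_mul s).const_sub 1).pow 3
  have hnum : Tendsto (fun n => (3 * s ^ 2 + a) * t n - 2 * u * r n + c * t n ^ 2) atTop
      (𝓝 ((3 * s ^ 2 + a) * 0 - 2 * u * 0 + c * 0 ^ 2)) :=
    ((ht0.const_mul _).sub (hr0.const_mul _)).add ((ht0.pow 2).const_mul _)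
  have hq := hnum.div hden (by simp)
  have hnum3 : Tendsto (fun n => (3 * s ^ 2 + a) * r n - 2 * u * (1 + a * t n ^ 2 + b * t n ^ 3) +
      (c + 2 * u ^ 2) * (r n * t n) - u * (3 * s ^ 2 + a) * t n ^ 2 - u * c * t n ^ 3) atTop
      (𝓝 ((3 * s ^ 2 + a) * 0 - 2 * u * (1 + a * 0 ^ 2 + b * 0 ^ 3) +
        (c + 2 * u ^ 2) * (0 * 0) - u * (3 * s ^ 2 + a) * 0 ^ 2 - u * c * 0 ^ 3)) :=
    ((((hr0.const_mul _).sub ((((ht0.pow 2).const_mul a).const_add 1 |>.add
      ((ht0.pow 3).const_mul b)).const_mul _)).add ((hr0.mul ht0).const_mul _)).sub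
      ((ht0.pow 2).const_mul _)).sub ((ht0.pow 3).const_mul _)
  have hq3 := hnum3.div hden3 (by simp)
  have id1 : ∀ n, X n ≠ 0 → X n ≠ s → ((u - Y n) / (s - X n)) ^ 2 - s - X n - s =
      ((3 * s ^ 2 + a) * t n - 2 * u * r n + c * t n ^ 2) / (1 - s * t n) ^ 2 := by
    intro n h0 h1
    have h2 : s - X n ≠ 0 := sub_ne_zero.mpr (Ne.symm h1)
    have h3 : 1 - s * t n = -(s - X n) / X n := by
      simp only [ht]
      field_simp
      ring
    rw [h3]
    simp only [ht, hr, hc]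
    rw [div_pow, div_pow, neg_sq]
    field_simp
    linear_combination hE n
  have id2 : ∀ n, X n ≠ 0 → X n ≠ s →
      (u - Y n) / (s - X n) * (((u - Y n) / (s - X n)) ^ 2 - s - X n - s) =
      ((3 * s ^ 2 + a) * r n - 2 * u * (1 + a * t n ^ 2 + b * t n ^ 3) +
      (c + 2 * u ^ 2) * (r n * t n) - u * (3 * s ^ 2 + a) * t n ^ 2 - u * c * t n ^ 3) /
        (1 - s * t n) ^ 3 := by
    intro n h0 h1
    rw [id1 n h0 h1]
    have h2 : s - X n ≠ 0 := sub_ne_zero.mpr (Ne.symm h1)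
    have h3 : 1 - s * t n = -(s - X n) / X n := by
      simp only [ht]
      field_simp
      ring
    rw [h3]
    simp only [ht, hr, hc]
    field_simp
    linear_combination (2 * u) * hE n
  constructor
  · have h1 : Tendsto (fun n => ((3 * s ^ 2 + a) * t n - 2 * u * r n + c * t n ^ 2) /
        (1 - s * t n) ^ 2 + s) atTop (𝓝 (0 + s)) := by
      refine Tendsto.add_const s ?_
      have h2 : ((3 * s ^ 2 + a) * 0 - 2 * u * 0 + c * 0 ^ 2) / (1 - s * 0) ^ 2 = 0 := by simp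
      rw [h2] at hq
      exact hq
    rw [zero_add] at h1
    refine h1.congr' ?_
    filter_upwards [hXne] with n hn
    rw [← id1 n hn.1 hn.2]
    ring
  · have h1 : Tendsto (fun n => -(u + ((3 * s ^ 2 + a) * r n -
        2 * u * (1 + a * t n ^ 2 + b * t n ^ 3) + (c + 2 * u ^ 2) * (r n * t n) -
        u * (3 * s ^ 2 + a) * t n ^ 2 - u * c * t n ^ 3) / (1 - s * t n) ^ 3)) atTop
        (𝓝 (-(u + -(2 * u)))) := by
      refine Tendsto.neg (Tendsto.const_add u ?_)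
      have h2 : ((3 * s ^ 2 + a) * 0 - 2 * u * (1 + a * 0 ^ 2 + b * 0 ^ 3) +
          (c + 2 * u ^ 2) * (0 * 0) - u * (3 * s ^ 2 + a) * 0 ^ 2 - u * c * 0 ^ 3) /
          (1 - s * 0) ^ 3 = -(2 * u) := by simp
      rw [h2] at hq3
      exact hq3
    have h2 : -(u + -(2 * u)) = u := by ring
    rw [h2] at h1
    refine h1.congr' ?_
    filter_upwards [hXne] with n hn
    rw [← id2 n hn.1 hn.2]

end chord

section values

variable {l : ℕ} [Fact l.Prime]

lemma ev1_of_ne {T : (curve a b).Point} (h : T ≠ 0) (u : Bn a b 1) :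
    ev1 u T = evB (fun _ => T) (fun _ => h) u := by
  unfold ev1
  rw [dif_pos h]

/-- The values of a function are continuous at `l`. -/
lemma ev1_tendsto {T : (curve a b).Point} (hT : T ≠ 0) {R : ℕ → (curve a b).Point}
    (hR : ∀ n, R n ≠ 0)
    (hx : Tendsto (fun n => ((ptX (R n) : ℚ) : ℚ_[l])) atTop (𝓝 ((ptX T : ℚ) : ℚ_[l])))
    (hy : Tendsto (fun n => ((ptY (R n) : ℚ) : ℚ_[l])) atTop (𝓝 ((ptY T : ℚ) : ℚ_[l])))
    (u : Bn a b 1) :
    Tendsto (fun n => ((ev1 u (R n) : ℚ) : ℚ_[l])) atTop (𝓝 ((ev1 u T : ℚ) : ℚ_[l])) := by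
  induction u using Bn_induction with
  | hc c =>
    simp only [ev1_of_ne hT, ev1_of_ne (hR _), AlgHom.commutes]
    exact tendsto_const_nhds
  | hx i =>
    simp only [ev1_of_ne hT, ev1_of_ne (hR _), evB_x]
    exact hx
  | hy i =>
    simp only [ev1_of_ne hT, ev1_of_ne (hR _), evB_y]
    exact hy
  | hadd z z' h1 h2 =>
    simp only [ev1_of_ne hT, ev1_of_ne (hR _), map_add, Rat.cast_add] at *
    exact h1.add h2
  | hmul z z' h1 h2 =>
    simp only [ev1_of_ne hT, ev1_of_ne (hR _), map_mul, Rat.cast_mul] at *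
    exact h1.mul h2

/-- The denominator at `l` in terms of the abscissa. -/
lemma norm_dn_sq {T : (curve a b).Point} (hT : T ≠ 0) :
    ‖((dn T : ℚ) : ℚ_[l])‖ ^ 2 * max 1 ‖((ptX T : ℚ) : ℚ_[l])‖ = 1 := by
  obtain ⟨A, B, D, hrep, hD, hcop⟩ := exists_rep hT
  have h1 : (dn T : ℤ) = D := dn_of_rep hrep hD hcop
  have h2 : ((dn T : ℚ) : ℚ_[l]) = (D : ℚ_[l]) := by
    rw [← h1]
    push_cast
    rfl
  have h3 : ((ptX T : ℚ) : ℚ_[l]) = (A : ℚ_[l]) / (D : ℚ_[l]) ^ 2 := by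
    rw [hrep.ptX_eq]
    push_cast
    rfl
  have hD0 : (D : ℚ_[l]) ≠ 0 := by exact_mod_cast hD.ne'
  have hDn : 0 < ‖(D : ℚ_[l])‖ := norm_pos_iff.mpr hD0
  have hD1 : ‖(D : ℚ_[l])‖ ≤ 1 := Padic.norm_int_le_one D
  have hA1 : ‖(A : ℚ_[l])‖ ≤ 1 := Padic.norm_int_le_one A
  rw [h2, h3, norm_div, norm_pow]
  by_cases hlD : (l : ℤ) ∣ D
  · have hA : ‖(A : ℚ_[l])‖ = 1 := by
      refine le_antisymm hA1 (not_lt.mp fun h => ?_)
      have h4 : (l : ℤ) ∣ A := Padic.norm_intCast_lt_one_iff.mp h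
      have h5 := hcop.isUnit_of_dvd' h4 hlD
      exact (Nat.prime_iff_prime_int.mp (Fact.out : l.Prime)).not_isUnit h5
    rw [hA, max_eq_right]
    · field_simp
    · rw [le_div_iff₀ (by positivity), one_mul]
      exact pow_le_one₀ hDn.le hD1
  · have hD' : ‖(D : ℚ_[l])‖ = 1 := by
      refine le_antisymm hD1 (not_lt.mp fun h => hlD ?_)
      exact Padic.norm_intCast_lt_one_iff.mp h
    rw [hD', max_eq_left]
    · norm_num
    · rw [one_pow, div_one]
      exact hA1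

lemma norm_dn_eq {T : (curve a b).Point} (hT : T ≠ 0) :
    ‖((dn T : ℚ) : ℚ_[l])‖ = Real.sqrt (max 1 ‖((ptX T : ℚ) : ℚ_[l])‖)⁻¹ := by
  have h1 := norm_dn_sq (l := l) hT
  have h2 : 0 < max 1 ‖((ptX T : ℚ) : ℚ_[l])‖ := lt_of_lt_of_le one_pos (le_max_left _ _)
  rw [← eq_div_iff h2.ne', one_div] at h1
  rw [← h1, Real.sqrt_sq (norm_nonneg _)]

lemma norm_dn_ne {T : (curve a b).Point} (hT : T ≠ 0) : ‖((dn T : ℚ) : ℚ_[l])‖ ≠ 0 := by
  intro h0
  have h1 := norm_dn_sq (l := l) hT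
  rw [h0] at h1
  simp at h1

lemma dn_tendsto {T : (curve a b).Point} (hT : T ≠ 0) {R : ℕ → (curve a b).Point}
    (hR : ∀ n, R n ≠ 0)
    (hx : Tendsto (fun n => ((ptX (R n) : ℚ) : ℚ_[l])) atTop (𝓝 ((ptX T : ℚ) : ℚ_[l]))) :
    Tendsto (fun n => ‖((dn (R n) : ℚ) : ℚ_[l])‖) atTop (𝓝 ‖((dn T : ℚ) : ℚ_[l])‖) := by
  rw [norm_dn_eq hT]
  simp only [norm_dn_eq (hR _)]
  have h2 : max 1 ‖((ptX T : ℚ) : ℚ_[l])‖ ≠ 0 :=
    (lt_of_lt_of_le one_pos (le_max_left _ _)).ne'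
  exact (Real.continuous_sqrt.tendsto _).comp (((tendsto_const_nhds.max hx.norm)).inv₀ h2)

/-- Translates of a point by points which tend to the origin at `l`. -/
lemma translate_tendsto {T : (curve a b).Point} (hT : T ≠ 0) {Q : ℕ → (curve a b).Point}
    (hQ : ∀ n, Q n ≠ 0)
    (hX : Tendsto (fun n => ‖((ptX (Q n) : ℚ) : ℚ_[l])‖) atTop atTop) :
    (∀ᶠ n in atTop, T + Q n ≠ 0) ∧
    Tendsto (fun n => ((ptX (T + Q n) : ℚ) : ℚ_[l])) atTop (𝓝 ((ptX T : ℚ) : ℚ_[l])) ∧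
    Tendsto (fun n => ((ptY (T + Q n) : ℚ) : ℚ_[l])) atTop (𝓝 ((ptY T : ℚ) : ℚ_[l])) := by
  have hne : ∀ᶠ n in atTop, ptX T ≠ ptX (Q n) := by
    have h1 : ∀ᶠ n in atTop, ‖((ptX T : ℚ) : ℚ_[l])‖ + 1 ≤ ‖((ptX (Q n) : ℚ) : ℚ_[l])‖ :=
      hX.eventually_ge_atTop _
    filter_upwards [h1] with n hn h0
    rw [h0] at hn
    linarith
  have hE : ∀ n, ((ptY (Q n) : ℚ) : ℚ_[l]) ^ 2 = ((ptX (Q n) : ℚ) : ℚ_[l]) ^ 3 +
      (a : ℚ_[l]) * ((ptX (Q n) : ℚ) : ℚ_[l]) + (b : ℚ_[l]) := by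
    intro n
    obtain ⟨hh, -⟩ := exists_eq_some (Q n) (hQ n)
    have h1 := congrArg (fun z : ℚ => (z : ℚ_[l])) (curve_eq hh)
    push_cast at h1
    exact h1
  obtain ⟨h1, h2⟩ := chord_tendsto ((ptX T : ℚ) : ℚ_[l]) ((ptY T : ℚ) : ℚ_[l]) hE hX
  refine ⟨?_, h1.congr' ?_, h2.congr' ?_⟩
  · filter_upwards [hne] with n hn
    exact (gl_add hT (hQ n) hn).1
  · filter_upwards [hne] with n hn
    rw [(gl_add hT (hQ n) hn).2.1]
    push_cast
    rfl
  · filter_upwards [hne] with n hn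
    rw [(gl_add hT (hQ n) hn).2.2, (gl_add hT (hQ n) hn).2.1]
    push_cast
    rfl

/-- The absolute value at `l` of a quasiperiodic function. -/
lemma norm_GG {s m : ℕ} (X : Fin s → (curve a b).Point) (μ : Fin s → ℤ) (u v : Bn a b 1)
    (T : (curve a b).Point) :
    ‖((GG m X μ u v T : ℚ) : ℚ_[l])‖ =
      ‖((ev1 u T : ℚ) : ℚ_[l])‖ / ‖((ev1 v T : ℚ) : ℚ_[l])‖ *
        ∏ k, ((‖((dn T : ℚ) : ℚ_[l])‖ / ‖((dn (T - X k) : ℚ) : ℚ_[l])‖) ^ m) ^ (μ k) := by
  unfold GG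
  rw [Rat.cast_mul, Rat.cast_div, norm_mul, norm_div, Rat.cast_prod, norm_prod]
  congr 1
  refine Finset.prod_congr rfl fun k _ => ?_
  rw [Rat.cast_zpow, norm_zpow, Rat.cast_pow, norm_pow, Rat.cast_div, norm_div]

end values

/-- The factor of a quasiperiodic function is a unit at every prime. -/
theorem eig_fin (hΔ : 4 * a ^ 3 + 27 * b ^ 2 ≠ 0) {s m : ℕ} (X : Fin s → (curve a b).Point)
    (μ : Fin s → ℤ)
    (hV : ¬ IsOfFinAddOrder (lin X μ)) {u v : Bn a b 1} (hu : u ≠ 0)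
    (hv : v ≠ 0) {χ : ℚ} (hχ : χ ≠ 0) (J : ℕ)
    (h : ∀ j : ℕ, J ≤ j → GG m X μ u v ((j + 1) • lin X μ) = χ * GG m X μ u v (j • lin X μ))
    (l : ℕ) [Fact l.Prime] : padicValRat l χ = 0 := by
  set V := lin X μ with hVdef
  have hnt : ∀ n : ℕ, 0 < n → n • V ≠ 0 := nsmul_ne_of_not_tor hV
  have hinj : Function.Injective (fun j : ℕ => j • V) := by
    intro i j hij
    by_contra hne
    rcases Nat.lt_or_gt_of_ne hne with h1 | h1
    · apply hnt (j - i) (by omega)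
      have h2 : j • V = (j - i) • V + i • V := by
        rw [← add_smul]
        congr 1
        omega
      have h3 : i • V = j • V := hij
      rw [h2] at h3
      exact right_eq_add.mp h3
    · apply hnt (i - j) (by omega)
      have h2 : i • V = (i - j) • V + j • V := by
        rw [← add_smul]
        congr 1
        omega
      have h3 : i • V = j • V := hij
      rw [h2] at h3
      exact add_eq_right.mp h3
  -- a good multiple
  obtain ⟨j0, hj0, hgood⟩ : ∃ j0, J ≤ j0 ∧ (j0 • V ∉ ({T | ev1 u T = 0} ∪ {T | ev1 v T = 0} ∪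
      {0} ∪ Set.range X)) := by
    have hfin : ({T | ev1 u T = 0} ∪ {T | ev1 v T = 0} ∪ {0} ∪ Set.range X :
        Set (curve a b).Point).Finite :=
      (((finite_zeros hu).union (finite_zeros hv)).union (Set.finite_singleton 0)).union
        (Set.finite_range X)
    have h1 : ((fun j : ℕ => j • V) ⁻¹' ({T | ev1 u T = 0} ∪ {T | ev1 v T = 0} ∪ {0} ∪
        Set.range X)).Finite := hfin.preimage hinj.injOn
    obtain ⟨j0, hj0, h2⟩ := (Set.Ici_infinite J).exists_notMem_finite h1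
    exact ⟨j0, hj0, h2⟩
  set T := j0 • V with hTdef
  simp only [Set.mem_union, Set.mem_ofPred_eq, Set.mem_singleton_iff, Set.mem_range, not_or,
    not_exists] at hgood
  obtain ⟨⟨⟨huT, hvT⟩, hT0⟩, hTX⟩ := hgood
  -- multiples which tend to the origin
  have hnear : ∀ n : ℕ, ∃ i : ℕ, 1 ≤ i ∧ (n : ℝ) ≤ ‖((ptX (i • V) : ℚ) : ℚ_[l])‖ := fun n =>
    padic_near hΔ hV n
  choose i hi1 hi2 using hnear
  have hX : Tendsto (fun n => ‖((ptX (i n • V) : ℚ) : ℚ_[l])‖) atTop atTop :=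
    tendsto_atTop_mono hi2 tendsto_natCast_atTop_atTop
  have hQ0 : ∀ n, i n • V ≠ 0 := fun n => hnt _ (by have := hi1 n; omega)
  have hsum : ∀ n, T + i n • V = (j0 + i n) • V := fun n => by rw [hTdef, ← add_smul]
  have hR0 : ∀ n, T + i n • V ≠ 0 := fun n => by
    rw [hsum]
    exact hnt _ (by have := hi1 n; omega)
  obtain ⟨-, tx, ty⟩ := translate_tendsto (l := l) hT0 hQ0 hX
  have tu := ev1_tendsto hT0 hR0 tx ty u
  have tv := ev1_tendsto hT0 hR0 tx ty v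
  have td := dn_tendsto hT0 hR0 tx
  have tdk : ∀ k, Tendsto (fun n => ‖((dn (T + i n • V - X k) : ℚ) : ℚ_[l])‖) atTop
      (𝓝 ‖((dn (T - X k) : ℚ) : ℚ_[l])‖) := by
    intro k
    have hk0 : T - X k ≠ 0 := sub_ne_zero.mpr (fun h0 => hTX k h0.symm)
    obtain ⟨e1, e2, -⟩ := translate_tendsto (l := l) hk0 hQ0 hX
    obtain ⟨n0, hn0⟩ := eventually_atTop.mp e1
    have e3 := dn_tendsto (R := fun n => T - X k + i (n + n0) • V) hk0
      (fun n => hn0 _ (Nat.le_add_left _ _)) (e2.comp (tendsto_add_atTop_nat n0))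
    rw [← tendsto_add_atTop_iff_nat n0]
    refine e3.congr fun n => ?_
    have e4 : T - X k + i (n + n0) • V = T + i (n + n0) • V - X k := by abel
    rw [e4]
  have hukT : ((ev1 u T : ℚ) : ℚ_[l]) ≠ 0 := by exact_mod_cast huT
  have hvkT : ((ev1 v T : ℚ) : ℚ_[l]) ≠ 0 := by exact_mod_cast hvT
  have hdk : ∀ k, ‖((dn (T - X k) : ℚ) : ℚ_[l])‖ ≠ 0 := fun k =>
    norm_dn_ne (sub_ne_zero.mpr (fun h0 => hTX k h0.symm))
  have hdT : ‖((dn T : ℚ) : ℚ_[l])‖ ≠ 0 := norm_dn_ne hT0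
  have tG : Tendsto (fun n => ‖((GG m X μ u v (T + i n • V) : ℚ) : ℚ_[l])‖) atTop
      (𝓝 ‖((GG m X μ u v T : ℚ) : ℚ_[l])‖) := by
    simp only [norm_GG]
    refine (tu.norm.div tv.norm (norm_ne_zero_iff.mpr hvkT)).mul ?_
    refine tendsto_finsetProd _ fun k _ => ?_
    refine Tendsto.zpow₀ ((td.div (tdk k) (hdk k)).pow m) (μ k) (Or.inl ?_)
    exact pow_ne_zero m (div_ne_zero hdT (hdk k))
  have hGT : ‖((GG m X μ u v T : ℚ) : ℚ_[l])‖ ≠ 0 := by
    rw [norm_GG]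
    refine mul_ne_zero (div_ne_zero (norm_ne_zero_iff.mpr hukT) (norm_ne_zero_iff.mpr hvkT)) ?_
    exact Finset.prod_ne_zero_iff.mpr fun k _ => zpow_ne_zero _ (pow_ne_zero m
      (div_ne_zero hdT (hdk k)))
  -- the factor
  have hrec : ∀ k : ℕ, GG m X μ u v ((j0 + k) • V) = χ ^ k * GG m X μ u v T := by
    intro k
    induction k with
    | zero => rw [add_zero, pow_zero, one_mul]
    | succ k ih =>
      rw [← add_assoc, h (j0 + k) (by omega), ih, pow_succ]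
      ring
  have tχ : Tendsto (fun n => ‖(χ : ℚ_[l])‖ ^ i n) atTop (𝓝 1) := by
    have h1 := tG.div_const ‖((GG m X μ u v T : ℚ) : ℚ_[l])‖
    rw [div_self hGT] at h1
    refine h1.congr fun n => ?_
    rw [hsum, hrec, Rat.cast_mul, norm_mul, Rat.cast_pow, norm_pow, mul_div_assoc, div_self hGT,
      mul_one]
  have hnorm : ‖(χ : ℚ_[l])‖ = (l : ℝ) ^ (-padicValRat l χ) := by
    rw [Padic.eq_padicNorm, padicNorm.eq_zpow_of_nonzero hχ]
    push_cast
    rfl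
  have hl2 : (2 : ℝ) ≤ l := by exact_mod_cast (Fact.out : l.Prime).two_le
  by_contra hne
  rcases lt_or_gt_of_ne hne with hlt | hgt
  · -- the norm is at least two
    have h1 : (2 : ℝ) ≤ ‖(χ : ℚ_[l])‖ := by
      rw [hnorm]
      calc (2 : ℝ) ≤ l := hl2
        _ = (l : ℝ) ^ (1 : ℤ) := (zpow_one _).symm
        _ ≤ (l : ℝ) ^ (-padicValRat l χ) := zpow_le_zpow_right₀ (by linarith) (by omega)
    have h2 : ∀ n, (2 : ℝ) ≤ ‖(χ : ℚ_[l])‖ ^ i n := by
      intro n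
      calc (2 : ℝ) ≤ ‖(χ : ℚ_[l])‖ ^ 1 := by rw [pow_one]; exact h1
        _ ≤ _ := pow_le_pow_right₀ (by linarith) (hi1 n)
    have := ge_of_tendsto' tχ h2
    norm_num at this
  · have h1 : ‖(χ : ℚ_[l])‖ ≤ 1 / 2 := by
      rw [hnorm]
      calc (l : ℝ) ^ (-padicValRat l χ) ≤ (l : ℝ) ^ (-1 : ℤ) :=
            zpow_le_zpow_right₀ (by linarith) (by omega)
        _ = 1 / l := by rw [zpow_neg_one, one_div]
        _ ≤ 1 / 2 := one_div_le_one_div_of_le (by norm_num) hl2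
    have h2 : ∀ n, ‖(χ : ℚ_[l])‖ ^ i n ≤ 1 / 2 := by
      intro n
      calc ‖(χ : ℚ_[l])‖ ^ i n ≤ ‖(χ : ℚ_[l])‖ ^ 1 :=
            pow_le_pow_of_le_one (norm_nonneg _) (by linarith) (hi1 n)
        _ ≤ 1 / 2 := by rw [pow_one]; exact h1
    have := le_of_tendsto' tχ h2
    norm_num at this

/-- A rational number which is a unit at every prime has absolute value one. -/
lemma abs_eq_one_of_padicValRat {χ : ℚ} (hχ : χ ≠ 0)
    (h : ∀ (l : ℕ) (_ : Fact l.Prime), padicValRat l χ = 0) : |χ| = 1 := by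
  have hn : χ.num ≠ 0 := Rat.num_ne_zero.mpr hχ
  have key : ∀ l : ℕ, l.Prime → ¬ l ∣ χ.num.natAbs ∧ ¬ l ∣ χ.den := by
    intro l hl
    have := Fact.mk hl
    have h1 := h l ⟨hl⟩
    rw [padicValRat_def] at h1
    have hcop := χ.reduced
    constructor
    · intro h2
      have h3 : ¬ l ∣ χ.den := fun h4 => hl.one_lt.ne'
        (Nat.dvd_one.mp (hcop ▸ Nat.dvd_gcd h2 h4))
      have h4 : padicValNat l χ.den = 0 := padicValNat.eq_zero_of_not_dvd h3
      have h5 : 1 ≤ padicValNat l χ.num.natAbs :=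
        one_le_padicValNat_of_dvd (Int.natAbs_ne_zero.mpr hn) h2
      unfold padicValInt at h1
      omega
    · intro h2
      have h3 : ¬ l ∣ χ.num.natAbs := fun h4 => hl.one_lt.ne'
        (Nat.dvd_one.mp (hcop ▸ Nat.dvd_gcd h4 h2))
      have h4 : padicValNat l χ.num.natAbs = 0 := padicValNat.eq_zero_of_not_dvd h3
      have h5 : 1 ≤ padicValNat l χ.den := one_le_padicValNat_of_dvd χ.den_ne_zero h2
      unfold padicValInt at h1
      omega
  have h1 : χ.num.natAbs = 1 := by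
    by_contra hne
    obtain ⟨l, hl, hd⟩ := Nat.exists_prime_and_dvd hne
    exact (key l hl).1 hd
  have h2 : χ.den = 1 := by
    by_contra hne
    obtain ⟨l, hl, hd⟩ := Nat.exists_prime_and_dvd hne
    exact (key l hl).2 hd
  rw [← Rat.num_div_den χ, h2, Nat.cast_one, div_one, ← Int.cast_abs, Int.abs_eq_natAbs, h1]
  norm_num

end MP3550b5.RG
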