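import Mathlib
import Pool.Agent.Lib.MP_3550b5_nt.RG.Data
import Pool.Agent.Lib.MP_3550b5_nt.RG.Num
import Pool.Agent.Lib.MP_3550b5_nt.ZE.CountQ

/-!
The zero estimate on the torus bundle, modulo the stabiliser.
-/

set_option linter.unusedSectionVars false

open scoped Pointwise

namespace MP3550b5.RG

open Pool.Agent.Lib.MP_3550b5_nt WeierstrassCurve.Affine

variable {p : ℕ} [hp : Fact p.Prime] {a b : ℤ} {n s m : ℕ}

/-- Heights in a quotient of a polynomial ring. -/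
lemma height_le_of_surj {A σ : Type*} [CommRing A] [Finite σ] (π : MvPolynomial σ ℚ →+* A)
    (hπ : Function.Surjective π) (I : Ideal A) (hI : I ≠ ⊤) : I.height ≤ (Nat.card σ : ℕ∞) := by
  have h1 : (I.height : WithBot ℕ∞) ≤ ringKrullDim A :=
    Ideal.height_le_ringKrullDim_of_ne_top hI
  have h2 : ringKrullDim A ≤ ringKrullDim (MvPolynomial σ ℚ) :=
    ringKrullDim_le_of_surjective π hπ
  rw [MvPolynomial.ringKrullDim_of_isNoetherianRing, ringKrullDim_eq_zero_of_field, zero_add]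
    at h2
  exact_mod_cast h1.trans h2

lemma card_var (n s : ℕ) : Nat.card ((Fin n ⊕ Fin n) ⊕ Fin s) = 2 * n + s := by
  rw [Nat.card_eq_fintype_card, Fintype.card_sum, Fintype.card_sum, Fintype.card_fin,
    Fintype.card_fin]
  ring

/-- The degrees. -/
def dg (n s D : ℕ) : (Fin n ⊕ Fin n) ⊕ Fin s → ℕ
  | .inl (.inl _) => D
  | .inl (.inr _) => 2
  | .inr _ => D

lemma prod_dg (n s D : ℕ) : ∏ i, dg n s D i = D ^ n * 2 ^ n * D ^ s := by
  rw [Fintype.prod_sum_type, Fintype.prod_sum_type]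
  simp only [dg, Finset.prod_const, Finset.card_univ, Fintype.card_fin]

lemma rel_deg {D : ℕ} (hD : 3 ≤ D) (i : Fin n) (j : (Fin n ⊕ Fin n) ⊕ Fin s) :
    (MvPolynomial.rename Sum.inl (curveRel a b n i) :
      MvPolynomial ((Fin n ⊕ Fin n) ⊕ Fin s) ℚ).degreeOf j ≤ dg n s D j := by
  classical
  have h0 : (MvPolynomial.rename Sum.inl (curveRel a b n i) :
      MvPolynomial ((Fin n ⊕ Fin n) ⊕ Fin s) ℚ) = MvPolynomial.X (Sum.inl (Sum.inr i)) ^ 2 -
        MvPolynomial.X (Sum.inl (Sum.inl i)) ^ 3 -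
        MvPolynomial.C (a : ℚ) * MvPolynomial.X (Sum.inl (Sum.inl i)) - MvPolynomial.C (b : ℚ) := by
    rw [curveRel]
    simp only [map_sub, map_pow, map_mul, MvPolynomial.rename_X, MvPolynomial.rename_C]
  rw [h0]
  have hX : ∀ (q : (Fin n ⊕ Fin n) ⊕ Fin s) (e : ℕ), MvPolynomial.degreeOf j
      (MvPolynomial.X q ^ e : MvPolynomial ((Fin n ⊕ Fin n) ⊕ Fin s) ℚ) ≤
        e * (if j = q then 1 else 0) := by
    intro q e
    refine (MvPolynomial.degreeOf_pow_le _ _ _).trans ?_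
    rw [MvPolynomial.degreeOf_X]
  have h1 : MvPolynomial.degreeOf j (MvPolynomial.X (Sum.inl (Sum.inr i)) ^ 2 :
      MvPolynomial ((Fin n ⊕ Fin n) ⊕ Fin s) ℚ) ≤ dg n s D j := by
    refine (hX _ _).trans ?_
    rcases j with (j | j) | j <;> simp [dg] <;> split_ifs <;> omega
  have h2 : MvPolynomial.degreeOf j (MvPolynomial.X (Sum.inl (Sum.inl i)) ^ 3 :
      MvPolynomial ((Fin n ⊕ Fin n) ⊕ Fin s) ℚ) ≤ dg n s D j := by
    refine (hX _ _).trans ?_
    rcases j with (j | j) | j <;> simp [dg] <;> split_ifs <;> omega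
  have h3 : MvPolynomial.degreeOf j (MvPolynomial.C (a : ℚ) * MvPolynomial.X (Sum.inl (Sum.inl i)) :
      MvPolynomial ((Fin n ⊕ Fin n) ⊕ Fin s) ℚ) ≤ dg n s D j := by
    refine (MvPolynomial.degreeOf_C_mul_le _ _ _).trans ?_
    have := hX (Sum.inl (Sum.inl i)) 1
    rw [pow_one] at this
    refine this.trans ?_
    rcases j with (j | j) | j <;> simp [dg] <;> split_ifs <;> omega
  have h4 : MvPolynomial.degreeOf j (MvPolynomial.C (b : ℚ) :
      MvPolynomial ((Fin n ⊕ Fin n) ⊕ Fin s) ℚ) ≤ dg n s D j := by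
    rw [MvPolynomial.degreeOf_C]
    exact Nat.zero_le _
  exact (MvPolynomial.degreeOf_sub_le _ _ _).trans (max_le ((MvPolynomial.degreeOf_sub_le _ _ _).trans
    (max_le ((MvPolynomial.degreeOf_sub_le _ _ _).trans (max_le h1 h2)) h3)) h4)

/-- The number of minimal primes over functions of bounded degree. -/
lemma card_minimal (K : ℕ) (hK : 3 ≤ K) (Φ : Set (An a b n s)) (hΦ : ∀ f ∈ Φ, HasLift K f)
    (P : Finset (Ideal (An a b n s))) (hP : ∀ q ∈ P, q ∈ (Ideal.span Φ).minimalPrimes) :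
    P.card ≤ 2 ^ (2 * n + s) * (2 * n + s) ^ (2 * n + s) * 2 ^ n * K ^ (n + s) := by
  have h := ZE.card_minimalPrimes_quot (presA a b n s).toRingHom presA_surjective
    (Set.range fun i => MvPolynomial.rename Sum.inl (curveRel a b n i)) ker_presA (dg n s K) ?_ ?_ Φ
    ?_ P hP
  · refine h.trans (le_of_eq ?_)
    have h3 : Fintype.card ((Fin n ⊕ Fin n) ⊕ Fin s) = 2 * n + s := by
      rw [Fintype.card_sum, Fintype.card_sum, Fintype.card_fin, Fintype.card_fin]
      ring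
    rw [h3, prod_dg, pow_add K n s]
    ring
  · rintro ((i | i) | i) <;> simp only [dg] <;> omega
  · rintro _ ⟨i, rfl⟩ j
    exact rel_deg hK i j
  · intro f hf
    obtain ⟨g, h1, h2, h3, h4⟩ := hΦ f hf
    refine ⟨g, h4, ?_⟩
    rintro ((i | i) | i)
    · exact h1 i
    · exact h2 i
    · exact h3 i

lemma HasLift.mono {K K' : ℕ} {f : An a b n s} (h : HasLift K f) (hK : K ≤ K') : HasLift K' f := by
  obtain ⟨g, h1, h2, h3, h4⟩ := h
  exact ⟨g, fun i => (h1 i).trans hK, h2, fun k => (h3 k).trans hK, h4⟩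

variable {ι : Ln a b n →+* Fn a b n s}
  (hι : ∀ z : Bn a b n, ι (algebraMap _ _ z) = algebraMap (An a b n s) _ (MvPolynomial.C z))
  {X' : Fin n → Fin s → (curve a b).Point} (𝒜 : Act p a b n s m X')
  {τ : (Fin n → goodGroup p a b) → (Fn a b n s ≃+* Fn a b n s)}
  (hτ0 : ∀ x, τ 0 x = x) (hτa : ∀ g h x, τ (g + h) x = τ g (τ h x))
  (hτι : ∀ g z, τ g (ι z) = ι (𝒜.σ g z))
  (hτX : ∀ g k, τ g (algebraMap (An a b n s) _ (MvPolynomial.X k)) =
    ι (𝒜.c g k) * algebraMap (An a b n s) _ (MvPolynomial.X k))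

include hι hτι hτX hτ0 hτa

/-- The zero estimate modulo the stabiliser. -/
theorem zero_A : ∃ C₁ : ℕ, ∀ K : ℕ, 1 ≤ K → ∀ V : Finset (Fin n → goodGroup p a b), 0 ∈ V →
    ∀ (T₀ : Fin n → (curve a b).Point) (hT₀ : ∀ i, T₀ i ∈ goodGroup p a b),
    (∀ v ∈ (2 * n + s) • (V : Set (Fin n → goodGroup p a b)),
      ∀ w ∈ (2 * n + s) • (V : Set (Fin n → goodGroup p a b)),
        GoodPair (p := p) X' T₀ v (w - v)) →
    ∀ f : An a b n s, f ≠ 0 → HasLift K f →
    (∀ v ∈ (2 * n + s) • (V : Set (Fin n → goodGroup p a b)), f ∈ mA m (dbl X') (sh T₀ (gc v))) →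
    ∃ v : Fin n → goodGroup p a b, GoodPair X' T₀ v 0 ∧ ∃ q : Ideal (An a b n s), q.IsPrime ∧
      q ≤ mA m (dbl X') (sh T₀ (gc v)) ∧ f ∈ q ∧
      (ZE.Stab (mkDat hι 𝒜 hτ0 hτa hτι hτX hT₀) q = ⊥ → V.card ≤ C₁ * K ^ (n + s)) := by
  classical
  obtain ⟨C₀, hC₀⟩ := exists_num n s 𝒜.deg
  refine ⟨2 ^ (2 * n + s) * (2 * n + s) ^ (2 * n + s) * 2 ^ n * (3 + C₀) ^ (n + s), ?_⟩
  intro K hK V hV0 T₀ hT₀ hgood f hf0 hfK hfv
  set d := 2 * n + s with hd
  -- numerators
  have hex : ∀ u : Fin n → goodGroup p a b, ∃ (num : An a b n s) (den : Bn a b n),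
      HasLift (C₀ * K) num ∧ τ u (algebraMap (An a b n s) _ f) *
        algebraMap (An a b n s) _ (MvPolynomial.C den) = algebraMap (An a b n s) _ num ∧
      ∀ T : Fin n → (curve a b).Point, GP X' (gc u) T → ∀ h : ∀ i, T i ≠ 0, evB T h den ≠ 0 := by
    intro u
    obtain ⟨num, den, h1, h2, h3⟩ := hC₀ a b {T | GP X' (gc u) T} ι hι (τ u).toRingHom
      (fun i => 𝒜.σ u (algebraMap (Bn a b n) (Ln a b n) (xB a b i)))
      (fun i => 𝒜.σ u (algebraMap (Bn a b n) (Ln a b n) (yB a b i)))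
      (fun k => 𝒜.c u k) (fun i => 𝒜.rep_x u i) (fun i => 𝒜.rep_y u i) (fun k => 𝒜.rep_c u k)
      (fun i => by
        rw [← hι]
        exact hτι u _)
      (fun i => by
        rw [← hι]
        exact hτι u _)
      (fun k => hτX u k) K hK f hfK
    exact ⟨num, den, h1, h2, fun T hT h => h3 T hT h⟩
  choose num den hnum1 hnum2 hden using hex
  -- the sets
  set S : ℕ → Set (Fin n → goodGroup p a b) := fun r =>
    if r ≤ d then (d - r) • (V : Set (Fin n → goodGroup p a b)) else ∅ with hS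
  have hmono : ∀ i j : ℕ, i ≤ j → i • (V : Set (Fin n → goodGroup p a b)) ⊆
      j • (V : Set (Fin n → goodGroup p a b)) := by
    intro i j hij
    exact Set.nsmul_subset_nsmul_right (Finset.mem_coe.2 hV0) hij
  have hSP : ∀ r v, v ∈ S r → r ≤ d ∧ v ∈ (d - r) • (V : Set (Fin n → goodGroup p a b)) := by
    intro r v hv
    by_cases hr : r ≤ d
    · have h1 : S r = (d - r) • (V : Set (Fin n → goodGroup p a b)) := if_pos hr
      rw [h1] at hv
      exact ⟨hr, hv⟩
    · have h1 : S r = ∅ := if_neg hr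
      rw [h1] at hv
      exact absurd hv (Set.notMem_empty v)
  have hadd : ∀ r v u, v ∈ S r → u ∈ r • (V : Set (Fin n → goodGroup p a b)) →
      v + u ∈ d • (V : Set (Fin n → goodGroup p a b)) := by
    intro r v u hv hu
    obtain ⟨hr, hv⟩ := hSP r v hv
    have h1 := Set.add_mem_add hv hu
    rwa [← add_nsmul, Nat.sub_add_cancel hr] at h1
  have hSd : ∀ r v, v ∈ S r → v ∈ d • (V : Set (Fin n → goodGroup p a b)) := by
    intro r v hv
    obtain ⟨hr, hv⟩ := hSP r v hv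
    exact hmono _ _ (Nat.sub_le d r) hv
  have hpair : ∀ r v u, v ∈ S r → u ∈ r • (V : Set (Fin n → goodGroup p a b)) →
      GoodPair X' T₀ v u := by
    intro r v u hv hu
    have h1 := hgood v (hSd r v hv) (v + u) (hadd r v u hv hu)
    rwa [add_sub_cancel_left] at h1
  have hS0 : S 0 = d • (V : Set (Fin n → goodGroup p a b)) := by
    show (if 0 ≤ d then (d - 0) • (V : Set (Fin n → goodGroup p a b)) else ∅) = _
    rw [if_pos (Nat.zero_le d), Nat.sub_zero]
  have hdV : S d = {0} := by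
    show (if d ≤ d then (d - d) • (V : Set (Fin n → goodGroup p a b)) else ∅) = _
    rw [if_pos le_rfl, Nat.sub_self, zero_nsmul]
    rfl
  have a1 : ∀ r, ∀ v ∈ S (r + 1), ∀ w ∈ V, v + w ∈ S r ∧ GoodPair X' T₀ v w := by
    intro r v hv w hw
    have hr : r + 1 ≤ d := (hSP _ _ hv).1
    refine ⟨?_, ?_⟩
    · have h1 : S r = (d - r) • (V : Set (Fin n → goodGroup p a b)) := if_pos (by omega)
      rw [h1]
      have h2 := Set.add_mem_add (hSP _ _ hv).2 (Finset.mem_coe.2 hw)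
      rwa [← succ_nsmul, show d - (r + 1) + 1 = d - r by omega] at h2
    · refine hpair (r + 1) v w hv (hmono 1 (r + 1) (by omega) ?_)
      rw [one_nsmul]
      exact Finset.mem_coe.2 hw
  have a2 : (S d).Nonempty := by
    rw [hdV]
    exact Set.singleton_nonempty 0
  have a3 : ∀ v ∈ S 0, f ∈ mA m (dbl X') (sh T₀ (gc v)) := by
    intro v hv
    rw [hS0] at hv
    exact hfv v hv
  have a4 : ∀ v ∈ S d, ((mkDat hι 𝒜 hτ0 hτa hτι hτX hT₀).m v).height ≤ d := by
    intro v hv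
    refine (height_le_of_surj (presA a b n s).toRingHom presA_surjective _ ?_).trans (le_of_eq
      (by rw [card_var]))
    rw [hdV, Set.mem_singleton_iff] at hv
    rw [hv]
    have h0 : (0 : Fin n → goodGroup p a b) ∈ d • (V : Set (Fin n → goodGroup p a b)) := by
      apply hmono 0 d (Nat.zero_le d)
      rw [zero_nsmul]
      rfl
    have h1 := hgood 0 h0 0 h0
    rw [sub_self] at h1
    exact ((mkDat hι 𝒜 hτ0 hτa hτι hτX hT₀).prime 0 0 h1).ne_top
  have a5 : ∀ r, ∀ v ∈ S r, ∀ u ∈ r • (V : Set (Fin n → goodGroup p a b)),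
      MvPolynomial.C (den u) ∉ mA m (dbl X') (sh T₀ (gc v)) := by
    intro r v hv u hu
    have h1 := hpair r v u hv hu
    rw [mem_mA h1.1.ne, evA_C]
    exact hden u _ h1.1 _
  have a6 : ∀ r < d, ∀ P : Finset (Ideal (An a b n s)), (∀ q ∈ P, q ∈
      (Ideal.span (num '' (r • (V : Set (Fin n → goodGroup p a b))))).minimalPrimes) →
      P.card ≤ 2 ^ (2 * n + s) * (2 * n + s) ^ (2 * n + s) * 2 ^ n *
        ((3 + C₀) * K) ^ (n + s) := by
    intro r hr P hP
    have h1 : 3 ≤ (3 + C₀) * K := by nlinarith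
    refine card_minimal ((3 + C₀) * K) h1 _ ?_ P hP
    rintro _ ⟨u, -, rfl⟩
    exact (hnum1 u).mono (by nlinarith)
  have key := ZE.zero_count (mkDat hι 𝒜 hτ0 hτa hτι hτX hT₀) d V hV0 S a1 a2 f hf0 a3 a4
    (fun r => r • (V : Set (Fin n → goodGroup p a b))) (zero_nsmul _) (fun r => succ_nsmul _ _)
    (fun r v hv u hu => hpair r v u hv hu) num (fun u => MvPolynomial.C (den u)) hnum2 a5 _ a6
  obtain ⟨r, hr, v, hv, q, hq, hqm, hfq, -, hst, -⟩ := key
  have h1 := hSd _ _ hv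
  have h2 := hgood v h1 v h1
  rw [sub_self] at h2
  refine ⟨v, h2, q, hq, hqm, hfq, fun h => (hst h).trans (le_of_eq ?_)⟩
  rw [mul_pow]
  ring

end MP3550b5.RG
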