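import Mathlib
import Pool.Agent.Lib.MP_3550b5_nt.RG.ZeroA
import Pool.Agent.Lib.MP_3550b5_nt.RG.Coc
import Pool.Agent.Lib.MP_3550b5_nt.RG.GrowA
import Pool.Agent.Lib.MP_3550b5_nt.RG.GrowL
import Pool.Agent.Lib.MP_3550b5_nt.ZE.Eig

/-!
The stabiliser is trivial for one elliptic factor.
-/

set_option linter.unusedSectionVars false

open scoped Pointwise

namespace MP3550b5.RG

open Pool.Agent.Lib.MP_3550b5_nt WeierstrassCurve.Affine

variable {p : ℕ} [hp : Fact p.Prime] {a b : ℤ} {s m : ℕ}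

lemma eq_or_neg_of_ptX {P Q : (curve a b).Point} (hP : P ≠ 0) (hQ : Q ≠ 0)
    (h : ptX P = ptX Q) : P = Q ∨ P = -Q := by
  obtain ⟨h1, e1⟩ := exists_eq_some P hP
  obtain ⟨h2, e2⟩ := exists_eq_some Q hQ
  have h3 := (Point.X_eq_iff (h₁ := h1) (h₂ := h2)).mp h
  rwa [← e1, ← e2] at h3

lemma good_nsmul {g : (curve a b).Point} (hg : g ∈ goodGroup p a b) {c : ℕ} (hc : 0 < c)
    (h : c • g = 0) : g = 0 := by
  by_contra h0
  exact good_not_torsion hg h0 (isOfFinAddOrder_iff_nsmul_eq_zero.2 ⟨c, hc, h⟩)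

/-- Division by `c` in the good group. -/
lemma finite_smul {c : ℕ} (hc : 0 < c) (R : (curve a b).Point) :
    {u : Fin 1 → goodGroup p a b | c • (u 0 : (curve a b).Point) = R}.Finite := by
  apply Set.Subsingleton.finite
  intro u hu v hv
  funext i
  rw [Subsingleton.elim i 0]
  have hu' : c • (u 0 : (curve a b).Point) = R := hu
  have hv' : c • (v 0 : (curve a b).Point) = R := hv
  have h1 : c • (((u 0 - v 0 : goodGroup p a b)) : (curve a b).Point) = 0 := by
    rw [AddSubgroup.coe_sub, nsmul_sub, hu', hv', sub_self]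
  have h2 := good_nsmul (u 0 - v 0).2 hc h1
  have h3 : u 0 - v 0 = 0 := Subtype.ext h2
  exact sub_eq_zero.1 h3

variable {ι : Ln a b 1 →+* Fn a b 1 s}
  (hι : ∀ z : Bn a b 1, ι (algebraMap _ _ z) = algebraMap (An a b 1 s) _ (MvPolynomial.C z))
  {X' : Fin 1 → Fin s → (curve a b).Point} (𝒜 : Act p a b 1 s m X')
  {τ : (Fin 1 → goodGroup p a b) → (Fn a b 1 s ≃+* Fn a b 1 s)}
  (hτ0 : ∀ x, τ 0 x = x) (hτa : ∀ g h x, τ (g + h) x = τ g (τ h x))
  (hτι : ∀ g z, τ g (ι z) = ι (𝒜.σ g z))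
  (hτX : ∀ g k, τ g (algebraMap (An a b 1 s) _ (MvPolynomial.X k)) =
    ι (𝒜.c g k) * algebraMap (An a b 1 s) _ (MvPolynomial.X k))
  {T₀ : Fin 1 → (curve a b).Point} (hT₀ : ∀ i, T₀ i ∈ goodGroup p a b)

/-- The good points. -/
def S1 (X' : Fin 1 → Fin s → (curve a b).Point) (T₀ : Fin 1 → (curve a b).Point) :
    Set (Fin 1 → goodGroup p a b) :=
  {v | sh T₀ (gc v) 0 ≠ 0 ∧ ∀ k, sh T₀ (gc v) 0 ≠ dbl X' 0 k}

lemma S1_ne {v : Fin 1 → goodGroup p a b} (hv : v ∈ S1 X' T₀) (i : Fin 1) :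
    sh T₀ (gc v) i ≠ 0 := by
  rw [Subsingleton.elim i 0]
  exact hv.1

lemma sh0 (v : Fin 1 → goodGroup p a b) : sh T₀ (gc v) 0 = T₀ 0 + 2 • (v 0 : (curve a b).Point) := by
  rw [two_nsmul]
  rfl

lemma dbl0 (k : Fin s) : dbl X' 0 k = 2 • X' 0 k := by
  rw [two_nsmul]
  rfl

/-- Almost all pairs are good. -/
lemma finite_bad {v : Fin 1 → goodGroup p a b} (hv : v ∈ S1 X' T₀) :
    {u : Fin 1 → goodGroup p a b | ¬ GoodPair X' T₀ v u}.Finite := by
  classical
  set T := sh T₀ (gc v) 0 with hT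
  set RR : Set (curve a b).Point := {T, -T} ∪ Set.range (fun k => 2 • X' 0 k - T) ∪
    Set.range (fun k => T + X' 0 k) ∪ Set.range (fun k => X' 0 k - T) ∪
    Set.range (fun k => -X' 0 k - T) with hRR
  have hfin : RR.Finite := by
    rw [hRR]
    exact ((((Set.toFinite _).union (Set.finite_range _)).union (Set.finite_range _)).union
      (Set.finite_range _)).union (Set.finite_range _)
  have hsub : {u : Fin 1 → goodGroup p a b | ¬ GoodPair X' T₀ v u} ⊆
      ⋃ c ∈ Finset.Icc 1 4, ⋃ R ∈ RR,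
        {u : Fin 1 → goodGroup p a b | c • (u 0 : (curve a b).Point) = R} := by
    intro u hu
    have key : ∃ c ∈ Finset.Icc 1 4, ∃ R ∈ RR, c • (u 0 : (curve a b).Point) = R := by
      set g : (curve a b).Point := (u 0 : (curve a b).Point) with hg
      have hT' : sh T₀ (gc (v + u)) 0 = T + (g + g) := by
        rw [← sh_sh]
        rfl
      have hm : ∀ (c : ℕ), 1 ≤ c → c ≤ 4 → ∀ R ∈ RR, c • g = R →
          ∃ c ∈ Finset.Icc 1 4, ∃ R ∈ RR, c • g = R := fun c h1 h4 R hR h =>
        ⟨c, Finset.mem_Icc.2 ⟨h1, h4⟩, R, hR, h⟩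
      have r1 : T ∈ RR := Or.inl (Or.inl (Or.inl (Or.inl (Or.inl rfl))))
      have r2 : -T ∈ RR := Or.inl (Or.inl (Or.inl (Or.inl (Or.inr rfl))))
      have r3 : ∀ k, 2 • X' 0 k - T ∈ RR := fun k => Or.inl (Or.inl (Or.inl (Or.inr ⟨k, rfl⟩)))
      have r4 : ∀ k, T + X' 0 k ∈ RR := fun k => Or.inl (Or.inl (Or.inr ⟨k, rfl⟩))
      have r5 : ∀ k, X' 0 k - T ∈ RR := fun k => Or.inl (Or.inr ⟨k, rfl⟩)
      have r6 : ∀ k, -X' 0 k - T ∈ RR := fun k => Or.inr ⟨k, rfl⟩
      have hv1 : T ≠ 0 := hv.1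
      have hv2 : ∀ k, T ≠ 2 • X' 0 k := fun k => by
        rw [← dbl0]
        exact hv.2 k
      have hu' : ¬ (GP X' (gc u) (sh T₀ (gc v)) ∧ GP X' (gc (-u)) (sh T₀ (gc (v + u)))) := hu
      rw [not_and_or] at hu'
      rcases hu' with h | h
      · rw [GP, not_forall] at h
        obtain ⟨i, hi⟩ := h
        rw [Subsingleton.elim i 0, not_not] at hi
        have hi' : T ∈ Ex (X' 0) g := hi
        rcases hi' with (((h1 | ⟨k, h1⟩) | ⟨k, h1⟩) | ⟨k, h1⟩) | ⟨k, h1⟩
        · rcases h1 with h1 | h1 | h1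
          · exact absurd h1 hv1
          · refine hm 2 (by norm_num) (by norm_num) T r1 ?_
            rw [two_nsmul]
            exact h1.symm
          · refine hm 2 (by norm_num) (by norm_num) (-T) r2 ?_
            rw [two_nsmul, show T = -(g + g) from h1, neg_neg]
        · have h2 : X' 0 k + X' 0 k = T := h1
          rw [← two_nsmul] at h2
          exact absurd h2.symm (hv2 k)
        · refine hm 2 (by norm_num) (by norm_num) _ (r3 k) ?_
          have h2 : X' 0 k + X' 0 k - (g + g) = T := h1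
          rw [two_nsmul, two_nsmul, ← h2]
          abel
        · refine hm 1 (by norm_num) (by norm_num) _ (r4 k) ?_
          have h2 : g - X' 0 k = T := h1
          rw [one_nsmul, ← h2]
          abel
        · refine hm 1 (by norm_num) (by norm_num) _ (r5 k) ?_
          have h2 : X' 0 k - g = T := h1
          rw [one_nsmul, ← h2]
          abel
      · rw [GP, not_forall] at h
        obtain ⟨i, hi⟩ := h
        rw [Subsingleton.elim i 0, not_not, hT'] at hi
        have hi' : T + (g + g) ∈ Ex (X' 0) (-g) := hi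
        rcases hi' with (((h1 | ⟨k, h1⟩) | ⟨k, h1⟩) | ⟨k, h1⟩) | ⟨k, h1⟩
        · rcases h1 with h1 | h1 | h1
          · refine hm 2 (by norm_num) (by norm_num) (-T) r2 ?_
            rw [two_nsmul]
            exact (neg_eq_of_add_eq_zero_right h1).symm
          · refine hm 4 (by norm_num) (by norm_num) (-T) r2 ?_
            have h2 : T = -g + -g - (g + g) := eq_sub_of_add_eq h1
            rw [h2]
            abel
          · have h3 : T + (g + g) = -(-g + -g) := h1
            have h2 : T = -(-g + -g) - (g + g) := eq_sub_of_add_eq h3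
            refine absurd ?_ hv1
            rw [h2]
            abel
        · refine hm 2 (by norm_num) (by norm_num) _ (r3 k) ?_
          have h2 : X' 0 k + X' 0 k = T + (g + g) := h1
          rw [two_nsmul, two_nsmul, h2]
          abel
        · refine absurd ?_ (hv2 k)
          have h2 : X' 0 k + X' 0 k - (-g + -g) = T + (g + g) := h1
          have h3 : T = X' 0 k + X' 0 k - (-g + -g) - (g + g) := eq_sub_of_add_eq h2.symm
          rw [h3]
          abel
        · refine hm 3 (by norm_num) (by norm_num) _ (r6 k) ?_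
          have h2 : -g - X' 0 k = T + (g + g) := h1
          have h3 : T = -g - X' 0 k - (g + g) := eq_sub_of_add_eq h2.symm
          rw [h3]
          abel
        · refine hm 1 (by norm_num) (by norm_num) _ (r5 k) ?_
          have h2 : X' 0 k - -g = T + (g + g) := h1
          have h3 : T = X' 0 k - -g - (g + g) := eq_sub_of_add_eq h2.symm
          rw [h3]
          abel
    obtain ⟨c, hc, R, hR, h⟩ := key
    rw [Set.mem_iUnion₂]
    refine ⟨c, hc, ?_⟩
    rw [Set.mem_iUnion₂]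
    exact ⟨R, hR, h⟩
  refine Set.Finite.subset ?_ hsub
  refine Set.Finite.biUnion (Finset.finite_toSet _) fun c hc => ?_
  refine hfin.biUnion fun R _ => finite_smul ?_ R
  exact (Finset.mem_Icc.1 (Finset.mem_coe.1 hc)).1

/-- The base curve. -/
noncomputable def mkCurve : ZE.Curve ℚ (Bn a b 1) (mkDat hι 𝒜 hτ0 hτa hτι hτX hT₀) where
  x := xB a b 0
  nrm := by
    intro z hz
    obtain ⟨g, hg, w, hw⟩ := exists_dvd_poly hz
    refine ⟨MvPolynomial.uniqueAlgEquiv ℚ (Fin 1) g, ?_, w, ?_⟩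
    · intro h
      exact hg ((map_eq_zero_iff _ (MvPolynomial.uniqueAlgEquiv ℚ (Fin 1)).injective).1 h)
    · rw [← hw]
      have h1 : (Polynomial.aeval (xB a b (0 : Fin 1) : Bn a b 1)).comp
          (MvPolynomial.uniqueAlgEquiv ℚ (Fin 1)).toAlgHom =
          MvPolynomial.aeval (fun i => xB a b i) := by
        apply MvPolynomial.algHom_ext
        intro i
        rw [AlgHom.comp_apply, MvPolynomial.aeval_X]
        show Polynomial.aeval (xB a b (0 : Fin 1) : Bn a b 1)
          (MvPolynomial.uniqueAlgEquiv ℚ (Fin 1) (MvPolynomial.X i)) = _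
        rw [MvPolynomial.uniqueAlgEquiv_apply, MvPolynomial.eval₂_X, Polynomial.aeval_X,
          Subsingleton.elim i 0]
      exact (AlgHom.congr_fun h1 g).symm
  S := S1 X' T₀
  prime := by
    intro v hv
    show (mA m (dbl X') (sh T₀ (gc v))).IsPrime
    rw [mA_eq (S1_ne hv)]
    exact RingHom.ker_isPrime _
  mem := by
    intro v u h
    exact ⟨h.1.ne 0, fun k => h.1.ne_X 0 k⟩
  ξ := fun v => ptX (sh T₀ (gc v) 0)
  hξ := by
    intro v hv
    show MvPolynomial.C (xB a b 0 - algebraMap ℚ (Bn a b 1) _) ∈ mA m (dbl X') (sh T₀ (gc v))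
    rw [mem_mA (S1_ne hv), evA_C, map_sub, evB_x, AlgHom.commutes]
    exact sub_self _
  fin := by
    intro t
    by_cases hne : ∃ v₀ : Fin 1 → goodGroup p a b, v₀ ∈ S1 X' T₀ ∧ ptX (sh T₀ (gc v₀) 0) = t
    swap
    · refine Set.Finite.subset Set.finite_empty ?_
      intro v hv
      exact absurd ⟨v, hv⟩ hne
    obtain ⟨v₀, hv₀, ht⟩ := hne
    refine Set.Finite.subset ((finite_smul (p := p) (c := 2) (by norm_num)
      (sh T₀ (gc v₀) 0 - T₀ 0)).union (finite_smul (p := p) (c := 2) (by norm_num)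
      (-sh T₀ (gc v₀) 0 - T₀ 0))) ?_
    rintro v ⟨hv, hvt⟩
    rcases eq_or_neg_of_ptX hv.1 hv₀.1 (hvt.trans ht.symm) with h | h
    · left
      show 2 • (v 0 : (curve a b).Point) = _
      rw [← h, sh0, add_sub_cancel_left]
    · right
      show 2 • (v 0 : (curve a b).Point) = _
      rw [← h, sh0, add_sub_cancel_left]
  cofin := by
    refine Set.Finite.subset ((finite_smul (p := p) (c := 2) (by norm_num) (-T₀ 0)).union
      (Set.finite_iUnion fun k => finite_smul (p := p) (c := 2) (by norm_num)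
        (2 • X' 0 k - T₀ 0))) ?_
    intro v hv
    have hv' : ¬ (sh T₀ (gc v) 0 ≠ 0 ∧ ∀ k, sh T₀ (gc v) 0 ≠ dbl X' 0 k) := hv
    rw [not_and_or] at hv'
    rcases hv' with h | h
    · left
      rw [not_not, sh0] at h
      exact (neg_eq_of_add_eq_zero_right h).symm
    · right
      rw [not_forall] at h
      obtain ⟨k, hk⟩ := h
      rw [not_not, sh0, dbl0] at hk
      rw [Set.mem_iUnion]
      exact ⟨k, eq_sub_of_add_eq' hk⟩
  good := fun v hv => finite_bad hv
  res := by
    intro v hv z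
    refine ⟨evB (sh T₀ (gc v)) (S1_ne hv) z, ?_⟩
    show MvPolynomial.C (z - algebraMap ℚ (Bn a b 1) _) ∈ mA m (dbl X') (sh T₀ (gc v))
    rw [mem_mA (S1_ne hv), evA_C, map_sub, AlgHom.commutes]
    exact sub_self _
  const := by
    intro u t
    have h1 := RingHom.congr_fun (RingHom.ext_rat
      (((τ u).toRingHom.comp (algebraMap (An a b 1 s) (Fn a b 1 s))).comp
        (algebraMap ℚ (An a b 1 s)))
      ((algebraMap (An a b 1 s) (Fn a b 1 s)).comp (algebraMap ℚ (An a b 1 s)))) t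
    exact h1

end MP3550b5.RG
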