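import Mathlib
import Pool.Agent.Lib.MP_3550b5_nt.RG.ZeroB

/-!
The zero estimate for one elliptic factor.
-/

set_option linter.unusedSectionVars false

open scoped Pointwise

namespace MP3550b5.RG

open Pool.Agent.Lib.MP_3550b5_nt WeierstrassCurve.Affine

variable {p : ℕ} [hp : Fact p.Prime] {a b : ℤ} {s m : ℕ}

lemma ev1_eq (u : Bn a b 1) {T : (curve a b).Point} (h : ∀ i : Fin 1, (fun _ => T) i ≠ 0) :
    ev1 u T = evB (fun _ => T) h u := dif_pos (h 0)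

lemma wv1 (m : ℕ) (X : Fin 1 → Fin s → (curve a b).Point) (T : (curve a b).Point) (k : Fin s) :
    wv m X (fun _ => T) k = ((dn T : ℚ) / dn (T - X 0 k)) ^ m := by
  rw [wv, Fin.prod_univ_one]

/-- The functional equation of an eigenfunction along `V = 2 δ`. -/
lemma GG_step {X' : Fin 1 → Fin s → (curve a b).Point} (𝒜 : Act p a b 1 s m X')
    {δ : Fin 1 → goodGroup p a b} {V : (curve a b).Point}
    (hV : V = (δ 0 : (curve a b).Point) + (δ 0 : (curve a b).Point)) {u v : Bn a b 1} {χ : ℚ}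
    {k₀ k₁ : Fin s →₀ ℕ}
    (h : 𝒜.σ δ (algebraMap _ (Ln a b 1) u / algebraMap _ (Ln a b 1) v) *
        (k₁.prod fun i e => 𝒜.c δ i ^ e) = algebraMap (Bn a b 1) (Ln a b 1)
          (algebraMap ℚ (Bn a b 1) χ) * (algebraMap _ (Ln a b 1) u / algebraMap _ (Ln a b 1) v *
            (k₀.prod fun i e => 𝒜.c δ i ^ e)))
    {T : (curve a b).Point} (hTg : T ∈ goodGroup p a b)
    (hT : T ∉ Ex (X' 0) (δ 0 : (curve a b).Point)) (hv : ev1 v T ≠ 0) (hv' : ev1 v (T + V) ≠ 0) :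
    GG m (dbl X' 0) (fun i => (k₁ i : ℤ) - k₀ i) u v (T + V) =
      χ * GG m (dbl X' 0) (fun i => (k₁ i : ℤ) - k₀ i) u v T := by
  classical
  have hGP : GP X' (gc δ) (fun _ => T) := by
    intro i
    rw [Subsingleton.elim i 0]
    exact hT
  have hsh : sh (fun _ => T) (gc δ) = fun _ => T + V := by
    funext i
    show T + ((δ i : (curve a b).Point) + (δ i : (curve a b).Point)) = T + V
    rw [Subsingleton.elim i 0, hV]
  have hne' : ∀ i : Fin 1, (fun _ => T + V) i ≠ 0 := by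
    intro i
    have := hGP.sh_ne i
    rwa [hsh] at this
  have e1 : ∀ z : Bn a b 1, evB (sh (fun _ => T) (gc δ)) hGP.sh_ne z = ev1 z (T + V) := by
    intro z
    rw [ev1_eq z hne']
    have h1 : ∀ (T' : Fin 1 → (curve a b).Point) (h' : ∀ i, T' i ≠ 0), T' = (fun _ => T + V) →
        evB T' h' z = evB (fun _ => T + V) hne' z := by
      intro T' h' e
      subst e
      rfl
    exact h1 _ _ hsh
  have e2 : ∀ z : Bn a b 1, evB (fun _ => T) hGP.ne z = ev1 z T := fun z => (ev1_eq z hGP.ne).symm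
  -- the values
  have hTV : ∀ i : Fin 1, (fun _ => T) i ∈ goodGroup p a b := fun _ => hTg
  set ev : Bn a b 1 →+* ℚ := (evB (fun _ => T) hGP.ne : Bn a b 1 →+* ℚ) with hev
  have v1 : Val ev (algebraMap (Bn a b 1) (Ln a b 1) u / algebraMap _ (Ln a b 1) v)
      (ev1 u T / ev1 v T) := by
    refine Val.div (Val.alg' (e2 u)) (Val.alg' (e2 v)) hv
  have v2 : Val (evB (sh (fun _ => T) (gc δ)) hGP.sh_ne : Bn a b 1 →+* ℚ)
      (algebraMap (Bn a b 1) (Ln a b 1) u / algebraMap _ (Ln a b 1) v)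
      (ev1 u (T + V) / ev1 v (T + V)) :=
    Val.div (Val.alg' (e1 u)) (Val.alg' (e1 v)) hv'
  have v3 : Val ev (𝒜.σ δ (algebraMap (Bn a b 1) (Ln a b 1) u / algebraMap _ (Ln a b 1) v))
      (ev1 u (T + V) / ev1 v (T + V)) := 𝒜.σ_val δ (fun _ => T) hGP _ _ v2
  set r : Fin s → ℚ := fun k => wv m (dbl X') (fun _ => T + V) k / wv m (dbl X') (fun _ => T) k
    with hr
  have v4 : ∀ k : Fin s, Val ev (𝒜.c δ k) (r k) := by
    intro k
    have h1 := 𝒜.c_val δ (fun _ => T) hTV hGP k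
    have h2 : (sh (fun _ => T) fun i => (δ i : (curve a b).Point)) = fun _ => T + V := hsh
    rw [h2] at h1
    exact h1
  have v5 : ∀ k : Fin s →₀ ℕ, Val ev (k.prod fun i e => 𝒜.c δ i ^ e) (k.prod fun i e => r i ^ e) :=
    fun k => Val.prod _ fun i _ => (v4 i).pow _
  have v6 : Val ev (algebraMap (Bn a b 1) (Ln a b 1) (algebraMap ℚ (Bn a b 1) χ)) χ :=
    Val.alg' (AlgHom.commutes (evB (fun _ => T) hGP.ne) χ)
  have v7 := v3.mul (v5 k₁)
  rw [h] at v7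
  have v8 := v6.mul (v1.mul (v5 k₀))
  have h1 := v7.unique v8
  -- the nonzero values
  have w1 : ∀ k, wv m (dbl X') (fun _ => T) k ≠ 0 := fun k => wv_ne_zero hGP.ne fun i => hGP.ne_X i k
  have w2 : ∀ k, wv m (dbl X') (fun _ => T + V) k ≠ 0 := fun k => wv_ne_zero hne' fun i => by
    have := hGP.sh_ne_X i k
    rwa [hsh] at this
  have hr0 : ∀ k, r k ≠ 0 := fun k => div_ne_zero (w2 k) (w1 k)
  have hprod : ∀ k : Fin s →₀ ℕ, (k.prod fun i e => r i ^ e) = ∏ i, r i ^ (k i : ℤ) := by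
    intro k
    rw [Finsupp.prod_fintype _ _ fun i => pow_zero _]
    exact Finset.prod_congr rfl fun i _ => (zpow_natCast _ _).symm
  rw [hprod, hprod] at h1
  have hP0 : (∏ i, r i ^ (k₀ i : ℤ)) ≠ 0 := Finset.prod_ne_zero_iff.2 fun i _ => zpow_ne_zero _ (hr0 i)
  have hG : ∀ T' : (curve a b).Point, GG m (dbl X' 0) (fun i => (k₁ i : ℤ) - k₀ i) u v T' =
      ev1 u T' / ev1 v T' * ∏ k, (wv m (dbl X') (fun _ => T') k) ^ ((k₁ k : ℤ) - k₀ k) := by
    intro T'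
    rw [GG]
    congr 1
    exact Finset.prod_congr rfl fun k _ => by rw [wv1]
  rw [hG, hG]
  have h2 : ∏ k, (wv m (dbl X') (fun _ => T + V) k) ^ ((k₁ k : ℤ) - k₀ k) =
      (∏ i, r i ^ (k₁ i : ℤ)) / (∏ i, r i ^ (k₀ i : ℤ)) *
        ∏ k, (wv m (dbl X') (fun _ => T) k) ^ ((k₁ k : ℤ) - k₀ k) := by
    rw [← Finset.prod_div_distrib, ← Finset.prod_mul_distrib]
    refine Finset.prod_congr rfl fun k _ => ?_
    rw [← zpow_sub₀ (hr0 k), ← mul_zpow, hr, div_mul_cancel₀ _ (w1 k)]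
  rw [h2]
  calc ev1 u (T + V) / ev1 v (T + V) * ((∏ i, r i ^ (k₁ i : ℤ)) / (∏ i, r i ^ (k₀ i : ℤ)) *
        ∏ k, (wv m (dbl X') (fun _ => T) k) ^ ((k₁ k : ℤ) - k₀ k))
      = (ev1 u (T + V) / ev1 v (T + V) * ∏ i, r i ^ (k₁ i : ℤ)) / (∏ i, r i ^ (k₀ i : ℤ)) *
        ∏ k, (wv m (dbl X') (fun _ => T) k) ^ ((k₁ k : ℤ) - k₀ k) := by ring
    _ = χ * (ev1 u T / ev1 v T * ∏ i, r i ^ (k₀ i : ℤ)) / (∏ i, r i ^ (k₀ i : ℤ)) *
        ∏ k, (wv m (dbl X') (fun _ => T) k) ^ ((k₁ k : ℤ) - k₀ k) := by rw [h1]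
    _ = _ := by
      field_simp

/-- No eigenfunctions. -/
lemma no_eigen (hΔ : 4 * a ^ 3 + 27 * b ^ 2 ≠ 0) (hm : 1 ≤ m)
    {X' : Fin 1 → Fin s → (curve a b).Point} (hX' : ∀ k, X' 0 k ∈ goodGroup p a b)
    (hind : ∀ μ : Fin s → ℤ, lin (X' 0) μ = 0 → μ = 0) (𝒜 : Act p a b 1 s m X')
    {k₀ k₁ : Fin s →₀ ℕ} (hk : k₀ ≠ k₁) {P : Ln a b 1} (hP : P ≠ 0)
    {χ : (Fin 1 → goodGroup p a b) → ℚ}
    (h : ∀ δ, 𝒜.σ δ P * (k₁.prod fun i e => 𝒜.c δ i ^ e) = algebraMap (Bn a b 1) (Ln a b 1)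
          (algebraMap ℚ (Bn a b 1) (χ δ)) * (P * (k₀.prod fun i e => 𝒜.c δ i ^ e))) : False := by
  classical
  obtain ⟨u, v, hv, rfl⟩ := IsFractionRing.div_surjective (A := Bn a b 1) P
  have hv0 : v ≠ 0 := nonZeroDivisors.ne_zero hv
  have hu0 : u ≠ 0 := by
    rintro rfl
    rw [map_zero, zero_div] at hP
    exact hP rfl
  set μ : Fin s → ℤ := fun i => (k₁ i : ℤ) - k₀ i with hμ
  have hμ0 : μ ≠ 0 := by
    intro h0
    apply hk
    ext i
    have := congrFun h0 i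
    rw [hμ] at this
    simp only [Pi.zero_apply] at this
    omega
  have hlin : lin (X' 0) μ ∈ goodGroup p a b := by
    rw [lin_apply]
    exact sum_mem fun i _ => zsmul_mem (hX' i) _
  set δ : Fin 1 → goodGroup p a b := fun _ => ⟨lin (X' 0) μ, hlin⟩ with hδ
  set V : (curve a b).Point := lin (dbl X' 0) μ with hV
  have hV2 : V = lin (X' 0) μ + lin (X' 0) μ := by
    rw [hV, lin_apply, lin_apply, ← Finset.sum_add_distrib]
    exact Finset.sum_congr rfl fun i _ => zsmul_add _ _ _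
  have hVg : V ∈ goodGroup p a b := by
    rw [hV2]
    exact add_mem hlin hlin
  have hV0 : V ≠ 0 := by
    intro h0
    rw [hV2, ← two_nsmul] at h0
    exact hμ0 (hind μ (good_nsmul hlin (by norm_num) h0))
  have hVt : ¬ IsOfFinAddOrder V := good_not_torsion hVg hV0
  have hinj : Function.Injective (fun j : ℕ => j • V) :=
    injective_nsmul_iff_not_isOfFinAddOrder.2 hVt
  -- the bad points
  have hExf : (Ex (X' 0) (δ 0 : (curve a b).Point)).Finite :=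
    ((((Set.toFinite _).union (Set.finite_range _)).union (Set.finite_range _)).union
      (Set.finite_range _)).union (Set.finite_range _)
  have hbad : (Ex (X' 0) (δ 0 : (curve a b).Point) ∪ {T | ev1 v T = 0} ∪
      (fun T => T + V) ⁻¹' {T | ev1 v T = 0}).Finite :=
    (hExf.union (finite_zeros hv0)).union
      ((finite_zeros hv0).preimage fun x _ y _ hxy => add_right_cancel hxy)
  have hbad2 := hbad.preimage (f := fun j : ℕ => j • V) hinj.injOn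
  obtain ⟨J, hJ⟩ := hbad2.bddAbove
  have hstep : ∀ j : ℕ, J + 1 ≤ j → GG m (dbl X' 0) μ u v ((j + 1) • lin (dbl X' 0) μ) =
      χ δ * GG m (dbl X' 0) μ u v (j • lin (dbl X' 0) μ) := by
    intro j hj
    have hj' : j ∉ (fun j : ℕ => j • V) ⁻¹' (Ex (X' 0) (δ 0 : (curve a b).Point) ∪
        {T | ev1 v T = 0} ∪ (fun T => T + V) ⁻¹' {T | ev1 v T = 0}) := by
      intro h1
      have := hJ h1
      omega
    have h1 : j • V ∉ Ex (X' 0) (δ 0 : (curve a b).Point) := fun h => hj' (Or.inl (Or.inl h))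
    have h2 : ev1 v (j • V) ≠ 0 := fun h => hj' (Or.inl (Or.inr h))
    have h3 : ev1 v (j • V + V) ≠ 0 := fun h => hj' (Or.inr h)
    have h4 := GG_step 𝒜 (δ := δ) (V := V) hV2 (h δ) (nsmul_mem hVg j) h1 h2 h3
    rw [← succ_nsmul] at h4
    exact h4
  have hχ : χ δ ≠ 0 := by
    intro h0
    have h1 := h δ
    rw [h0, map_zero, map_zero, zero_mul] at h1
    rcases mul_eq_zero.1 h1 with h2 | h2
    · exact hP ((map_eq_zero (𝒜.σ δ)).1 h2)
    · rw [Finsupp.prod, Finset.prod_eq_zero_iff] at h2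
      obtain ⟨i, -, hi⟩ := h2
      exact pow_ne_zero _ (𝒜.c_ne δ i) hi
  have hXne : ∀ k, dbl X' 0 k ≠ 0 := by
    intro k h0
    rw [dbl0] at h0
    have h1 := good_nsmul (hX' k) (by norm_num) h0
    have h2 := hind (Pi.single k 1) (by
      rw [lin_apply, Finset.sum_eq_single k]
      · rw [Pi.single_eq_same, one_zsmul, h1]
      · intro i _ hi
        rw [Pi.single_eq_of_ne hi, zero_zsmul]
      · intro hk
        exact absurd (Finset.mem_univ k) hk)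
    have h3 := congrFun h2 k
    rw [Pi.single_eq_same] at h3
    exact one_ne_zero h3
  have h1 := eig_arch hΔ hm (dbl X' 0) μ hXne hVt hu0 hv0 (J + 1) hstep
  have h2 := abs_eq_one_of_padicValRat hχ fun l hl =>
    eig_fin hΔ (dbl X' 0) μ hVt hu0 hv0 hχ (J + 1) hstep l
  rw [h2] at h1
  exact lt_irrefl _ h1

variable {ι : Ln a b 1 →+* Fn a b 1 s}
  (hι : ∀ z : Bn a b 1, ι (algebraMap _ _ z) = algebraMap (An a b 1 s) _ (MvPolynomial.C z))
  {X' : Fin 1 → Fin s → (curve a b).Point} (𝒜 : Act p a b 1 s m X')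
  {τ : (Fin 1 → goodGroup p a b) → (Fn a b 1 s ≃+* Fn a b 1 s)}
  (hτ0 : ∀ x, τ 0 x = x) (hτa : ∀ g h x, τ (g + h) x = τ g (τ h x))
  (hτι : ∀ g z, τ g (ι z) = ι (𝒜.σ g z))
  (hτX : ∀ g k, τ g (algebraMap (An a b 1 s) _ (MvPolynomial.X k)) =
    ι (𝒜.c g k) * algebraMap (An a b 1 s) _ (MvPolynomial.X k))
  {T₀ : Fin 1 → (curve a b).Point} (hT₀ : ∀ i, T₀ i ∈ goodGroup p a b)

/-- The stabiliser is trivial. -/
theorem stab_trivial (hΔ : 4 * a ^ 3 + 27 * b ^ 2 ≠ 0) (hm : 1 ≤ m)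
    (hX' : ∀ k, X' 0 k ∈ goodGroup p a b) (hind : ∀ μ : Fin s → ℤ, lin (X' 0) μ = 0 → μ = 0)
    {v : Fin 1 → goodGroup p a b} (hv : GoodPair X' T₀ v 0) {q : Ideal (An a b 1 s)}
    (hq : q.IsPrime) (hqm : q ≤ mA m (dbl X') (sh T₀ (gc v))) {f : An a b 1 s} (hf : f ∈ q)
    (hf0 : f ≠ 0) : ZE.Stab (mkDat hι 𝒜 hτ0 hτa hτι hτX hT₀) q = ⊥ := by
  classical
  by_contra hne
  obtain ⟨u, hu0⟩ := AddSubgroup.ne_bot_iff_exists_ne_zero.1 hne
  have hu1 : ((u : Fin 1 → goodGroup p a b) 0 : (curve a b).Point) ≠ 0 := by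
    intro h0
    apply hu0
    apply Subtype.ext
    funext i
    rw [Subsingleton.elim i 0]
    exact Subtype.ext h0
  have hinf : (ZE.Stab (mkDat hι 𝒜 hτ0 hτa hτι hτX hT₀) q :
      Set (Fin 1 → goodGroup p a b)).Infinite := by
    refine Set.infinite_of_injective_forall_mem
      (f := fun j : ℕ => j • (u : Fin 1 → goodGroup p a b)) ?_ fun j => nsmul_mem u.2 j
    intro i j hij
    have h1 := good_not_torsion ((u : Fin 1 → goodGroup p a b) 0).2 hu1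
    rw [← injective_nsmul_iff_not_isOfFinAddOrder] at h1
    apply h1
    have h2 : i • (u : Fin 1 → goodGroup p a b) = j • (u : Fin 1 → goodGroup p a b) := hij
    have h3 := congrArg (fun w : Fin 1 → goodGroup p a b => (w 0 : (curve a b).Point)) h2
    exact h3
  let _ : Algebra (Ln a b 1) (Fn a b 1 s) := ι.toAlgebra
  have hLF : ∀ z : Ln a b 1, algebraMap (Ln a b 1) (Fn a b 1 s) z = ι z := fun _ => rfl
  have hBF : ∀ z : Bn a b 1, algebraMap (Bn a b 1) (Fn a b 1 s) z =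
      algebraMap (Ln a b 1) (Fn a b 1 s) (algebraMap (Bn a b 1) (Ln a b 1) z) := by
    intro z
    have h1 : algebraMap (Ln a b 1) (Fn a b 1 s) (algebraMap (Bn a b 1) (Ln a b 1) z) =
        algebraMap (An a b 1 s) (Fn a b 1 s) (MvPolynomial.C z) := hι z
    rw [h1, ← MvPolynomial.algebraMap_eq]
    exact IsScalarTower.algebraMap_apply (Bn a b 1) (An a b 1 s) (Fn a b 1 s) z
  have hST := IsScalarTower.of_algebraMap_eq (R := Bn a b 1) (S := Ln a b 1) (A := Fn a b 1 s) hBF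
  have hmon : ∀ k : Fin s →₀ ℕ, (MvPolynomial.monomial k 1 : An a b 1 s) =
      k.prod fun i e => MvPolynomial.X i ^ e := by
    intro k
    rw [MvPolynomial.monomial_eq, MvPolynomial.C_1, one_mul]
  obtain ⟨k₀, k₁, hk, P, hP, χ, h⟩ := ZE.eigen_of_infinite (L := Ln a b 1)
    (mkCurve hι 𝒜 hτ0 hτa hτι hτX hT₀) (v₀ := v) ⟨hv.1.ne 0, fun k => hv.1.ne_X 0 k⟩ hqm hinf
    hf hf0 (fun k : Fin s →₀ ℕ => (MvPolynomial.monomial k 1 : An a b 1 s)) (by
      intro g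
      rw [g.as_sum, map_sum]
      refine Submodule.sum_mem _ fun k _ => ?_
      have h1 : (MvPolynomial.monomial k (g.coeff k) : An a b 1 s) =
          MvPolynomial.C (g.coeff k) * MvPolynomial.monomial k 1 := by
        rw [MvPolynomial.C_mul_monomial, mul_one]
      rw [h1, map_mul, ← hι, ← hLF, ← Algebra.smul_def]
      exact Submodule.smul_mem _ _ (Submodule.subset_span ⟨k, rfl⟩)) (by
      intro k
      show MvPolynomial.monomial k 1 ∉ mA m (dbl X') (sh T₀ (gc v))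
      rw [mem_mA hv.1.ne, hmon, Finsupp.prod, map_prod, Finset.prod_eq_zero_iff]
      rintro ⟨i, -, hi⟩
      rw [map_pow, evA_X] at hi
      exact pow_ne_zero _ (wv_ne_zero hv.1.ne fun i' => hv.1.ne_X i' i) hi) 𝒜.σ hτι
    (fun v k => k.prod fun i e => 𝒜.c v i ^ e) (by
      intro v k
      exact Finset.prod_ne_zero_iff.2 fun i _ => pow_ne_zero _ (𝒜.c_ne v i)) (by
      intro v k
      show τ v (algebraMap (An a b 1 s) (Fn a b 1 s) (MvPolynomial.monomial k 1)) =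
        ι (k.prod fun i e => 𝒜.c v i ^ e) *
          algebraMap (An a b 1 s) (Fn a b 1 s) (MvPolynomial.monomial k 1)
      rw [hmon, Finsupp.prod, Finsupp.prod, map_prod, map_prod, map_prod,
        ← Finset.prod_mul_distrib]
      refine Finset.prod_congr rfl fun i _ => ?_
      rw [map_pow, map_pow, map_pow, hτX, mul_pow])
  exact no_eigen hΔ hm hX' hind 𝒜 hk hP h

/-- **The zero estimate** for one elliptic factor. -/
theorem zero_est (hΔ : 4 * a ^ 3 + 27 * b ^ 2 ≠ 0) (hinf : Infinite (goodGroup p a b)) {s m : ℕ}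
    (hm : Even m) (hm1 : 1 ≤ m) {X' : Fin s → (curve a b).Point}
    (hX' : ∀ k, X' k ∈ goodGroup p a b) (hind : ∀ μ : Fin s → ℤ, lin X' μ = 0 → μ = 0) :
    ∃ C : ℕ, ∀ K : ℕ, 1 ≤ K → ∀ V : Finset (Fin 1 → goodGroup p a b), 0 ∈ V →
    ∀ (T₀ : Fin 1 → (curve a b).Point) (_ : ∀ i, T₀ i ∈ goodGroup p a b),
    (∀ v ∈ (s + 2) • (V : Set (Fin 1 → goodGroup p a b)),
      ∀ w ∈ (s + 2) • (V : Set (Fin 1 → goodGroup p a b)),
        GoodPair (p := p) (fun _ => X') T₀ v (w - v)) →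
    ∀ f : An a b 1 s, f ≠ 0 → HasLift K f →
    (∀ v ∈ (s + 2) • (V : Set (Fin 1 → goodGroup p a b)),
      f ∈ mA m (dbl fun _ => X') (sh T₀ (gc v))) → V.card ≤ C * K ^ (s + 1) := by
  obtain ⟨𝒜⟩ := exists_act (n := 1) hΔ hinf hm (fun _ => X') fun _ k => hX' k
  obtain ⟨ι, τ, hι, hτ0, hτa, hτι, hτX⟩ := exists_ext (s := s) 𝒜.σ 𝒜.c 𝒜.σ_zero 𝒜.σ_add 𝒜.c_ne
    𝒜.c_add
  obtain ⟨C, hC⟩ := zero_A hι 𝒜 hτ0 hτa hτι hτX
  refine ⟨C, ?_⟩
  intro K hK V hV0 T₀ hT₀ hgood f hf0 hfK hfv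
  have e1 : 2 * 1 + s = s + 2 := by ring
  rw [e1] at hC
  obtain ⟨v, hv, q, hq, hqm, hfq, h⟩ := hC K hK V hV0 T₀ hT₀ hgood f hf0 hfK hfv
  have h1 := h (stab_trivial hι 𝒜 hτ0 hτa hτι hτX hT₀ hΔ hm1 hX' hind hv hq hqm hfq hf0)
  rwa [add_comm 1 s] at h1

end MP3550b5.RG
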