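import Mathlib
import Pool.Agent.Lib.MP_3550b5_nt.RG.ZeroC

/-!
The zero estimate for one elliptic factor, final form.
-/

set_option linter.unusedSectionVars false

open scoped Pointwise

namespace MP3550b5.RG

open Pool.Agent.Lib.MP_3550b5_nt WeierstrassCurve.Affine

variable {p : ℕ} [hp : Fact p.Prime] {a b : ℤ}

/-- The zero estimate for one elliptic factor. -/
def ZeroEst (p : ℕ) [Fact p.Prime] (a b : ℤ) (m : ℕ) {s : ℕ}
    (X' : Fin s → (curve a b).Point) : Prop :=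
  ∃ C : ℕ, ∀ K : ℕ, 1 ≤ K → ∀ (V : Finset (goodGroup p a b)) (T₀ : (curve a b).Point),
    0 ∈ V → T₀ ∈ goodGroup p a b →
    (∀ v ∈ (s + 2) • V, ∀ w ∈ (s + 2) • V,
      T₀ + ((v : (curve a b).Point) + v) ∉ Ex X' ((w : (curve a b).Point) - v)) →
    ∀ f : An a b 1 s, f ≠ 0 → HasLift K f →
      (∀ v ∈ (s + 2) • V, ∀ hT : ∀ i : Fin 1, (fun _ => T₀ + ((v : (curve a b).Point) + v)) i ≠ 0,
        evA m (fun _ k => X' k + X' k) (fun _ => T₀ + ((v : (curve a b).Point) + v)) hT f = 0) →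
      V.card ≤ C * K ^ (s + 1)

/-- Constant functions. -/
def cst1 (p : ℕ) [Fact p.Prime] (a b : ℤ) : goodGroup p a b →+ (Fin 1 → goodGroup p a b) where
  toFun g := fun _ => g
  map_zero' := rfl
  map_add' _ _ := rfl

/-- **The zero estimate** for one elliptic factor. -/
theorem zero_est_one (hΔ : 4 * a ^ 3 + 27 * b ^ 2 ≠ 0) {m : ℕ} (hm : Even m) (hm1 : 1 ≤ m) {s : ℕ}
    {X' : Fin s → (curve a b).Point} (hX' : ∀ k, X' k ∈ goodGroup p a b)
    (hind : ∀ μ : Fin s → ℤ, ∑ k, μ k • X' k = 0 → μ = 0) (hinf : Infinite (goodGroup p a b)) :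
    ZeroEst p a b m X' := by
  classical
  obtain ⟨C, hC⟩ := zero_est (p := p) hΔ hinf hm hm1 hX' hind
  refine ⟨C, ?_⟩
  intro K hK V T₀ hV0 hT₀ hgood f hf0 hfK hfv
  have hinj : Function.Injective (cst1 p a b) := fun g h e => congrFun e 0
  set V' : Finset (Fin 1 → goodGroup p a b) := V.image (cst1 p a b) with hV'
  have hcoe : ∀ v' ∈ (s + 2) • (V' : Set (Fin 1 → goodGroup p a b)),
      ∃ v ∈ (s + 2) • V, cst1 p a b v = v' := by
    intro v' hv'
    rw [hV', Finset.coe_image, ← Set.image_nsmul] at hv'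
    obtain ⟨v, hv, rfl⟩ := hv'
    refine ⟨v, ?_, rfl⟩
    rw [← Finset.coe_nsmul] at hv
    exact Finset.mem_coe.1 hv
  have h := hC K hK V' ?_ (fun _ => T₀) (fun _ => hT₀) ?_ f hf0 hfK ?_
  · rwa [hV', Finset.card_image_of_injective _ hinj] at h
  · rw [hV', Finset.mem_image]
    exact ⟨0, hV0, rfl⟩
  · intro v' hv' w' hw'
    obtain ⟨v, hv, rfl⟩ := hcoe v' hv'
    obtain ⟨w, hw, rfl⟩ := hcoe w' hw'
    refine ⟨?_, ?_⟩
    · intro i
      exact hgood v hv w hw
    · intro i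
      have h1 := hgood w hw v hv
      have h2 : cst1 p a b v + (cst1 p a b w - cst1 p a b v) = cst1 p a b w := by abel
      have h3 : -(cst1 p a b w - cst1 p a b v) = cst1 p a b v - cst1 p a b w := by abel
      rw [h2, h3]
      exact h1
  · intro v' hv'
    obtain ⟨v, hv, rfl⟩ := hcoe v' hv'
    have hne : ∀ i : Fin 1, sh (fun _ => T₀) (gc (cst1 p a b v)) i ≠ 0 := by
      intro i
      have h1 := hgood v hv v hv
      intro h0
      apply h1
      have h2 : T₀ + ((v : (curve a b).Point) + v) = 0 := h0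
      rw [h2]
      exact Or.inl (Or.inl (Or.inl (Or.inl (Or.inl rfl))))
    rw [mem_mA hne]
    exact hfv v hv hne

end MP3550b5.RG
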