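import Mathlib
import Pool.Agent.Lib.MP_3550b5_nt.RG.Fun
import Pool.Agent.Lib.MP_3550b5_nt.RG.Pad
import Pool.Agent.Lib.MP_3550b5_nt.RG.Data
import Pool.Agent.Lib.MP_3550b5_nt.ZE.Two
import Pool.Agent.Lib.MP_3550b5_nt.RG.Zero

/-!
The main inequality.
-/

namespace MP3550b5.RG

open Pool.Agent.Lib.MP_3550b5_nt WeierstrassCurve.Affine

open scoped Pointwise

variable {p : ℕ} [hp : Fact p.Prime] {a b : ℤ}

/-- The box in the group generated by `P`. -/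
noncomputable def boxV {l : ℕ} (P : Fin l → (curve a b).Point)
    (hP : ∀ i, P i ∈ goodGroup p a b) (N : ℕ) : Finset (goodGroup p a b) :=
  open scoped Classical in
  (bigBox l N).image fun n => ⟨lin P n, by
    rw [lin_apply]; exact sum_mem fun i _ => zsmul_mem (hP i) _⟩

lemma mem_boxV {l : ℕ} {P : Fin l → (curve a b).Point} {hP : ∀ i, P i ∈ goodGroup p a b} {N : ℕ}
    {v : goodGroup p a b} : v ∈ boxV P hP N ↔ ∃ n ∈ bigBox l N, lin P n = v := by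
  classical
  rw [boxV, Finset.mem_image]
  constructor
  · rintro ⟨n, hn, rfl⟩
    exact ⟨n, hn, rfl⟩
  · rintro ⟨n, hn, h⟩
    exact ⟨n, hn, Subtype.ext h⟩

lemma card_boxV {l : ℕ} {P : Fin l → (curve a b).Point} {hP : ∀ i, P i ∈ goodGroup p a b}
    (hind : ∀ n : Fin l → ℤ, ∑ i, n i • P i = 0 → n = 0) (N : ℕ) :
    (boxV P hP N).card = (2 * N + 1) ^ l := by
  classical
  rw [boxV, Finset.card_image_of_injective, card_bigBox]
  intro n n' h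
  have h1 : lin P n = lin P n' := congrArg Subtype.val h
  have h2 : lin P (n - n') = 0 := by rw [map_sub, h1, sub_self]
  rw [lin_apply] at h2
  exact sub_eq_zero.mp (hind _ h2)

lemma zero_mem_boxV {l : ℕ} {P : Fin l → (curve a b).Point} {hP : ∀ i, P i ∈ goodGroup p a b}
    (N : ℕ) : 0 ∈ boxV P hP N := by
  rw [mem_boxV]
  refine ⟨0, mem_bigBox.mpr fun i => ⟨?_, ?_⟩, by rw [map_zero]; rfl⟩ <;> simp

lemma nsmul_boxV {l : ℕ} {P : Fin l → (curve a b).Point} {hP : ∀ i, P i ∈ goodGroup p a b}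
    (N d : ℕ) {v : goodGroup p a b} (hv : v ∈ d • boxV P hP N) :
    ∃ n ∈ bigBox l (d * N), lin P n = v := by
  induction d generalizing v with
  | zero =>
    rw [zero_smul, Finset.mem_zero] at hv
    refine ⟨0, mem_bigBox.mpr fun i => ?_, by rw [map_zero, hv]; rfl⟩
    simp
  | succ d ih =>
    rw [succ_nsmul, Finset.mem_add] at hv
    obtain ⟨u, hu, w, hw, rfl⟩ := hv
    obtain ⟨n, hn, h1⟩ := ih hu
    obtain ⟨n', hn', h2⟩ := mem_boxV.mp hw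
    refine ⟨n + n', mem_bigBox.mpr fun i => ?_, by rw [map_add, h1, h2]; rfl⟩
    have e1 := mem_bigBox.mp hn i
    have e2 := mem_bigBox.mp hn' i
    rw [Pi.add_apply]
    push_cast at e1 ⊢
    constructor <;> linarith [e1.1, e1.2, e2.1, e2.2]

section far

variable {G : Type*} [AddCommGroup G] {q : G → ℝ}

lemma quad_combo (hq : ∀ x y, q (x + y) + q (x - y) = 2 * q x + 2 * q y) (hnn : ∀ x, 0 ≤ q x)
    {A : ℝ} {v w x : G} (hv : q v ≤ A) (hw : q w ≤ A) (hx : q x ≤ A) (i j k : ℤ) :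
    q (i • v + j • w + k • x) ≤ 4 * ((i : ℝ) ^ 2 + (j : ℝ) ^ 2 + (k : ℝ) ^ 2) * A := by
  have hle : ∀ x y, q (x + y) ≤ 2 * q x + 2 * q y := fun x y => by
    have h1 := hq x y
    have h2 := hnn (x - y)
    linarith
  have h1 := hle (i • v + j • w) (k • x)
  have h2 := hle (i • v) (j • w)
  rw [quad_zsmul hq] at h1 h2
  rw [quad_zsmul hq] at h2
  have e1 : (i : ℝ) ^ 2 * q v ≤ (i : ℝ) ^ 2 * A := mul_le_mul_of_nonneg_left hv (sq_nonneg _)
  have e2 : (j : ℝ) ^ 2 * q w ≤ (j : ℝ) ^ 2 * A := mul_le_mul_of_nonneg_left hw (sq_nonneg _)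
  have e3 : (k : ℝ) ^ 2 * q x ≤ (k : ℝ) ^ 2 * A := mul_le_mul_of_nonneg_left hx (sq_nonneg _)
  have e4 : 0 ≤ (k : ℝ) ^ 2 * A := mul_nonneg (sq_nonneg _) ((hnn x).trans hx)
  linarith

lemma ne_combo (hq : ∀ x y, q (x + y) + q (x - y) = 2 * q x + 2 * q y) (hnn : ∀ x, 0 ≤ q x)
    {A : ℝ} {T₀ v w x : G} (hv : q v ≤ A) (hw : q w ≤ A) (hx : q x ≤ A) (hT : 80 * A < q T₀)
    (i j k : ℤ) (h : i ^ 2 + j ^ 2 + k ^ 2 ≤ 20) : T₀ ≠ i • v + j • w + k • x := by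
  intro h0
  have h1 := quad_combo hq hnn hv hw hx i j k
  rw [← h0] at h1
  have h2 : (i : ℝ) ^ 2 + (j : ℝ) ^ 2 + (k : ℝ) ^ 2 ≤ 20 := by exact_mod_cast h
  have hA : 0 ≤ A := (hnn v).trans hv
  have h3 : 4 * ((i : ℝ) ^ 2 + (j : ℝ) ^ 2 + (k : ℝ) ^ 2) * A ≤ 80 * A := by
    apply mul_le_mul_of_nonneg_right _ hA
    linarith
  linarith

end far

lemma far_Ex {q : (curve a b).Point → ℝ}
    (hq : ∀ x y, q (x + y) + q (x - y) = 2 * q x + 2 * q y) (hnn : ∀ x, 0 ≤ q x)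
    {A : ℝ} {s : ℕ} {X' : Fin s → (curve a b).Point} {T₀ v w : (curve a b).Point} (hv : q v ≤ A)
    (hw : q w ≤ A) (hx : ∀ k, q (X' k) ≤ A) (hT : 80 * A < q T₀) :
    T₀ + (v + v) ∉ Ex X' (w - v) := by
  intro h0
  simp only [Ex, Set.mem_union, Set.mem_insert_iff, Set.mem_singleton_iff, Set.mem_range] at h0
  obtain (((((h | h | h) | ⟨k, hk⟩) | ⟨k, hk⟩) | ⟨k, hk⟩) | ⟨k, hk⟩) := h0
  · refine ne_combo hq hnn hv hw hv hT (-2) 0 0 (by norm_num) ?_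
    rw [eq_sub_of_add_eq h]
    module
  · refine ne_combo hq hnn hv hw hv hT (-4) 2 0 (by norm_num) ?_
    rw [eq_sub_of_add_eq h]
    module
  · refine ne_combo hq hnn hv hw hv hT 0 (-2) 0 (by norm_num) ?_
    rw [eq_sub_of_add_eq h]
    module
  · refine ne_combo hq hnn hv hw (hx k) hT (-2) 0 2 (by norm_num) ?_
    rw [eq_sub_of_add_eq hk.symm]
    module
  · refine ne_combo hq hnn hv hw (hx k) hT 0 (-2) 2 (by norm_num) ?_
    rw [eq_sub_of_add_eq hk.symm]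
    module
  · refine ne_combo hq hnn hv hw (hx k) hT (-3) 1 (-1) (by norm_num) ?_
    rw [eq_sub_of_add_eq hk.symm]
    module
  · refine ne_combo hq hnn hv hw (hx k) hT (-1) (-1) 1 (by norm_num) ?_
    rw [eq_sub_of_add_eq hk.symm]
    module

/-- The main inequality. -/
theorem core_bound (hp5 : 5 ≤ p) (hΔ : 4 * a ^ 3 + 27 * b ^ 2 ≠ 0)
    {Bh : (curve a b).Point → (curve a b).Point → ℚ_[p]}
    (hB : IsCanonicalHeight p a b Bh) {l s ρ : ℕ} (hρ : ρ < s) (hs : s ≤ 2 * ρ + 2) (hs2 : 2 ≤ s)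
    {P : Fin l → (curve a b).Point} (hP : ∀ i, P i ∈ goodGroup p a b)
    (hindP : ∀ n : Fin l → ℤ, ∑ i, n i • P i = 0 → n = 0)
    {Q' : Fin s → (curve a b).Point} (hQ' : ∀ j, Q' j ∈ goodGroup p a b)
    (hindQ' : ∀ n : Fin s → ℤ, ∑ j, n j • Q' j = 0 → n = 0)
    {x : Fin l → Fin ρ → ℤ_[p]} {y : Fin s → Fin ρ → ℤ_[p]}
    (hx : ∀ i k, (p : ℤ_[p]) ∣ x i k) (hy : ∀ i k, (p : ℤ_[p]) ∣ y i k)
    (hxy : ∀ i j, ((∑ k, x i k * y j k : ℤ_[p]) : ℚ_[p]) = Bh (P i) (Q' j + Q' j))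
    (hZ : ZeroEst p a b (p - 1) Q') : (s - ρ) * l ≤ (s + 1) * (ρ + 2) := by
  classical
  by_contra hcon
  push Not at hcon
  have hl : 1 ≤ l := by
    rcases Nat.eq_zero_or_pos l with h | h
    · rw [h] at hcon; omega
    · exact h
  obtain ⟨q, C, c, hq, hnn, hC, hc, hc', hup, han, hlow⟩ := exists_arch2 hΔ
  obtain ⟨Q, hQd⟩ : ∃ Q : Fin s → (curve a b).Point, Q = fun j => Q' j + Q' j := ⟨_, rfl⟩
  have hQ : ∀ j, Q j ∈ goodGroup p a b := by
    intro j; rw [hQd]; exact add_mem (hQ' j) (hQ' j)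
  have hlinQ : ∀ n : Fin s → ℤ, lin Q n = lin Q' (n + n) := by
    intro n
    rw [lin_apply, lin_apply, hQd]
    refine Finset.sum_congr rfl fun j _ => ?_
    show n j • (Q' j + Q' j) = (n j + n j) • Q' j
    rw [add_zsmul, zsmul_add]
  have hindQ : ∀ n : Fin s → ℤ, lin Q n = 0 → n = 0 := by
    intro n hn
    rw [hlinQ, lin_apply] at hn
    have h1 := hindQ' _ hn
    funext j
    have h2 := congrFun h1 j
    simp only [Pi.add_apply, Pi.zero_apply] at h2 ⊢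
    omega
  obtain ⟨CP, hCP0, hCP⟩ := quad_lin_le hq hnn P
  obtain ⟨CQ, hCQ0, hCQ⟩ := quad_lin_le hq hnn Q
  obtain ⟨i₀, -⟩ : ∃ i₀ : Fin l, True := ⟨⟨0, hl⟩, trivial⟩
  have hPi : P i₀ ≠ 0 := by
    intro h0
    have h1 := hindP (Pi.single i₀ 1) (by
      rw [Finset.sum_eq_single i₀]
      · rw [h0]; exact zsmul_zero _
      · intro i _ hi
        rw [Pi.single_eq_of_ne hi]; exact zero_zsmul _
      · intro h; exact absurd (Finset.mem_univ _) h)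
    have h2 := congrFun h1 i₀
    rw [Pi.single_eq_same] at h2
    exact one_ne_zero h2
  obtain ⟨q₁, hq₁⟩ : ∃ z, z = q (P i₀) := ⟨_, rfl⟩
  have hq₁0 : 0 < q₁ := by
    rw [hq₁]
    exact lt_of_lt_of_le hc (hc' _ (good_not_torsion (hP i₀) hPi))
  -- constants
  obtain ⟨d, hd⟩ : ∃ d : ℕ, d = s + 2 := ⟨_, rfl⟩
  obtain ⟨A₀, hA₀⟩ : ∃ A₀ : ℝ, A₀ = CP * d ^ 2 + CQ * 3 ^ 2 + ∑ k, q (Q' k) := ⟨_, rfl⟩
  have hsum0 : 0 ≤ ∑ k, q (Q' k) := Finset.sum_nonneg fun k _ => hnn _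
  have hA₀0 : 0 ≤ A₀ := by rw [hA₀]; positivity
  obtain ⟨K₁, hK₁⟩ : ∃ K₁ : ℕ, 80 * A₀ < (K₁ : ℝ) ^ 2 * q₁ := by
    obtain ⟨k, hk⟩ := exists_nat_gt (80 * A₀ / q₁)
    refine ⟨k + 1, ?_⟩
    rw [div_lt_iff₀ hq₁0] at hk
    have h1 : (k : ℝ) ≤ ((k + 1 : ℕ) : ℝ) ^ 2 := by
      push_cast
      have : (0 : ℝ) ≤ k := Nat.cast_nonneg _
      nlinarith
    have h2 := mul_le_mul_of_nonneg_right h1 hq₁0.le
    linarith
  obtain ⟨K₀, hK₀⟩ : ∃ K₀ : ℕ, K₀ = K₁ + 2 * d := ⟨_, rfl⟩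
  obtain ⟨C₁, hC₁⟩ := exists_pad hp5 hΔ hB hρ hs hP hQ (fun n hn => hindQ n hn) hx hy
    (fun i j => by rw [hQd]; exact hxy i j) K₀
  have hm : Even (p - 1) := by
    have hodd : Odd p := hp.out.odd_of_ne_two (by omega)
    obtain ⟨k, hk⟩ := hodd
    exact ⟨k, by omega⟩
  obtain ⟨C₂, hC₂⟩ := exists_fun (p := p) twoTerm hs2 hQ hindQ hm
  obtain ⟨C₃, hC₃⟩ := hZ
  -- the parameter
  obtain ⟨J, hJ⟩ : ∃ J : ℕ, J = C₃ * ((C₂ + 1) * (2 * C₁)) ^ (s + 1) := ⟨_, rfl⟩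
  obtain ⟨j, hj⟩ : ∃ j : ℕ, j = J + 1 := ⟨_, rfl⟩
  have hj1 : 1 ≤ j := by omega
  obtain ⟨T, B, hT1, hTC, hBj, v₀, hv₀, hpad⟩ := hC₁ j hj1
  obtain ⟨N, hN⟩ : ∃ N : ℕ, N = j ^ (s - ρ) := ⟨_, rfl⟩
  have hN1 : 1 ≤ N := by rw [hN]; exact Nat.one_le_pow _ _ hj1
  rw [← hN] at hBj hpad
  obtain ⟨f, hf0, hfl, hfv⟩ := hC₂ T B hT1 (by omega) v₀ hv₀
  have hNr : (1 : ℝ) ≤ N := by exact_mod_cast hN1
  -- heights
  obtain ⟨A, hA⟩ : ∃ A : ℝ, A = A₀ * N ^ 2 := ⟨_, rfl⟩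
  have hN2 : (1 : ℝ) ≤ (N : ℝ) ^ 2 := one_le_pow₀ hNr
  have hbP : ∀ n ∈ bigBox l (d * N), q (lin P n) ≤ A := by
    intro n hn
    rw [lin_apply]
    have h1 := hCP n (d * N) (fun i => by
      have h2 := mem_bigBox.mp hn i
      rw [abs_le]
      constructor
      · exact_mod_cast h2.1
      · exact_mod_cast h2.2)
    refine h1.trans ?_
    rw [hA, hA₀, mul_pow]
    have h2 : 0 ≤ (CQ * 3 ^ 2 + ∑ k, q (Q' k)) * (N : ℝ) ^ 2 := by positivity
    nlinarith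
  have hbX : ∀ k, q (Q' k) ≤ A := by
    intro k
    have h1 : q (Q' k) ≤ ∑ k, q (Q' k) :=
      Finset.single_le_sum (f := fun k => q (Q' k)) (fun k _ => hnn _) (Finset.mem_univ k)
    have h2 : A₀ ≤ A := by
      rw [hA]; exact le_mul_of_one_le_right hA₀0 hN2
    have h3 : ∑ k, q (Q' k) ≤ A₀ := by
      rw [hA₀]
      have : 0 ≤ CP * (d : ℝ) ^ 2 + CQ * 3 ^ 2 := by positivity
      linarith
    linarith
  have hbQ : ∀ w : Fin s → ℤ, (∀ j, |w j| ≤ (B + 1 : ℕ)) → q (lin Q w) ≤ A := by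
    intro w hw
    rw [lin_apply]
    have h1 := hCQ w (3 * N) (fun j => by
      have h2 : |w j| ≤ 3 * (N : ℤ) := by
        have := hw j
        rw [hBj] at this
        push_cast at this
        omega
      exact_mod_cast h2)
    refine h1.trans ?_
    rw [hA, hA₀, mul_pow]
    have h2 : 0 ≤ (CP * (d : ℝ) ^ 2 + ∑ k, q (Q' k)) * (N : ℝ) ^ 2 := by positivity
    nlinarith
  obtain ⟨t₀, ht₀⟩ : ∃ t₀ : Fin l → ℤ, t₀ = Pi.single i₀ ((K₁ * N : ℕ) : ℤ) := ⟨_, rfl⟩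
  obtain ⟨T₀, hT₀⟩ : ∃ T₀ : (curve a b).Point, T₀ = lin P t₀ := ⟨_, rfl⟩
  have hT₀' : T₀ = ((K₁ * N : ℕ) : ℤ) • P i₀ := by
    rw [hT₀, lin_apply, ht₀, Finset.sum_eq_single i₀]
    · rw [Pi.single_eq_same]
    · intro i _ hi
      rw [Pi.single_eq_of_ne hi]; exact zero_zsmul _
    · intro h; exact absurd (Finset.mem_univ _) h
  have hqT : 80 * A < q T₀ := by
    rw [hT₀', quad_zsmul hq, ← hq₁, hA]
    push_cast
    have : 80 * A₀ * (N : ℝ) ^ 2 < (K₁ : ℝ) ^ 2 * q₁ * (N : ℝ) ^ 2 :=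
      mul_lt_mul_of_pos_right hK₁ (by positivity)
    nlinarith
  have hT₀g : T₀ ∈ goodGroup p a b := by
    rw [hT₀']; exact zsmul_mem (hP i₀) _
  -- the points
  have hcard := hC₃ ((C₂ + 1) * (T * B)) (Nat.mul_pos (by omega) (Nat.mul_pos hT1 (by omega)))
    (boxV P hP N) T₀ (zero_mem_boxV N) hT₀g ?_ f hf0 (hfl.mono (by nlinarith)) ?_
  · -- conclusion
    rw [card_boxV hindP] at hcard
    have h1 : N ^ l ≤ (2 * N + 1) ^ l := Nat.pow_le_pow_left (by omega) l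
    have h2 : T * B ≤ 2 * C₁ * j ^ (ρ + 2) := by
      have h3 : B ≤ 2 * j ^ (s - ρ) := by rw [hBj, ← hN]; omega
      calc T * B ≤ (C₁ * j ^ (2 * ρ + 2 - s)) * (2 * j ^ (s - ρ)) := Nat.mul_le_mul hTC h3
        _ = 2 * C₁ * (j ^ (2 * ρ + 2 - s) * j ^ (s - ρ)) := by ring
        _ = 2 * C₁ * j ^ (ρ + 2) := by
            rw [← pow_add]
            congr 2
            omega
    have h3 : j ^ ((s - ρ) * l) ≤ J * j ^ ((s + 1) * (ρ + 2)) := by
      calc j ^ ((s - ρ) * l) = N ^ l := by rw [hN, ← pow_mul]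
        _ ≤ C₃ * ((C₂ + 1) * (T * B)) ^ (s + 1) := h1.trans hcard
        _ ≤ C₃ * ((C₂ + 1) * (2 * C₁ * j ^ (ρ + 2))) ^ (s + 1) := by gcongr
        _ = J * j ^ ((s + 1) * (ρ + 2)) := by
            rw [hJ, mul_comm (s + 1) (ρ + 2), pow_mul, mul_assoc C₃, ← mul_pow]
            congr 2
            ring
    have h4 : j ^ ((s + 1) * (ρ + 2) + 1) ≤ j ^ ((s - ρ) * l) := Nat.pow_le_pow_right hj1 hcon
    have h5 : j * j ^ ((s + 1) * (ρ + 2)) ≤ J * j ^ ((s + 1) * (ρ + 2)) := by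
      rw [← pow_succ']
      exact h4.trans h3
    have h6 := Nat.le_of_mul_le_mul_right h5 (pow_pos hj1 _)
    omega
  · -- general position
    intro v hv w hw
    rw [← hd] at hv hw
    obtain ⟨n, hn, h1⟩ := nsmul_boxV N d hv
    obtain ⟨n', hn', h2⟩ := nsmul_boxV N d hw
    rw [← h1, ← h2]
    exact far_Ex hq hnn (hbP n hn) (hbP n' hn') hbX hqT
  · -- zeros
    intro v hv hR
    rw [← hd] at hv
    obtain ⟨n, hn, h1⟩ := nsmul_boxV N d hv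
    have hv1 := hbP n hn
    rw [h1] at hv1
    obtain ⟨R, hRd⟩ : ∃ R : (curve a b).Point, R = T₀ + ((v : (curve a b).Point) + v) := ⟨_, rfl⟩
    have hRg : R ∈ goodGroup p a b := by rw [hRd]; exact add_mem hT₀g (add_mem v.2 v.2)
    have hne : ∀ w : Fin s → ℤ, (∀ j, |w j| ≤ (B + 1 : ℕ)) → R ≠ lin Q w ∧ R ≠ -lin Q w := by
      intro w hw
      have hw1 := hbQ w hw
      constructor
      · intro h0
        refine ne_combo hq hnn hv1 hw1 hw1 hqT (-2) 1 0 (by norm_num) ?_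
        rw [hRd] at h0
        rw [eq_sub_of_add_eq h0]
        module
      · intro h0
        refine ne_combo hq hnn hv1 hw1 hw1 hqT (-2) (-1) 0 (by norm_num) ?_
        rw [hRd] at h0
        rw [eq_sub_of_add_eq h0]
        module
    have hR0 : R ≠ 0 := by
      have := (hne 0 (fun j => by simp; positivity)).1
      rwa [map_zero] at this
    have hRlin : R = lin P (t₀ + (n + n)) := by
      rw [hRd, hT₀, map_add, map_add, h1]
    have hfine : Fine Q B (lin P (t₀ + (n + n))) := by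
      rw [← hRlin]
      refine ⟨hR0, fun w hw => ?_⟩
      have hw' : ∀ j, |w j| ≤ ((B + 1 : ℕ) : ℤ) := by
        intro j
        have := hw j
        rw [abs_le]
        push_cast
        constructor <;> omega
      have hw0 : lin Q w ≠ 0 := by
        intro h0
        have h2 := congrFun (hindQ w h0) ⟨0, by omega⟩
        have h3 := (hw ⟨0, by omega⟩).1
        rw [h2] at h3
        simp at h3
      exact X_ne_of hR0 hw0 (hne w hw').1 (hne w hw').2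
    have hsum := hpad (t₀ + (n + n)) ?_ hfine
    · have hval := hfv R hRg (fun w hw => (hne w (fun j => by exact_mod_cast hw j)).1)
        (fun _ => hR0)
      rw [← hRlin] at hsum
      rw [hsum, Int.cast_zero] at hval
      have hdn : (dn R : ℚ) ^ (2 * T + (p - 1) * T) ≠ 0 := pow_ne_zero _ (dn_ne_zero hR0)
      have h0 := (mul_eq_zero.mp hval).resolve_right hdn
      subst hQd
      subst hRd
      exact h0
    · rw [mem_bigBox]
      intro i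
      have h2 := mem_bigBox.mp hn i
      have h3 : 0 ≤ t₀ i ∧ t₀ i ≤ ((K₁ * N : ℕ) : ℤ) := by
        rw [ht₀]
        by_cases hi : i = i₀
        · rw [hi, Pi.single_eq_same]
          exact ⟨Int.natCast_nonneg _, le_rfl⟩
        · rw [Pi.single_eq_of_ne hi]
          exact ⟨le_rfl, Int.natCast_nonneg _⟩
      rw [Pi.add_apply, Pi.add_apply, hK₀]
      obtain ⟨z, hz⟩ : ∃ z : ℤ, z = n i := ⟨_, rfl⟩
      obtain ⟨z', hz'⟩ : ∃ z : ℤ, z = t₀ i := ⟨_, rfl⟩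
      obtain ⟨D, hD⟩ : ∃ D : ℤ, D = (d : ℤ) * (N : ℤ) := ⟨_, rfl⟩
      obtain ⟨E, hE⟩ : ∃ E : ℤ, E = (K₁ : ℤ) * (N : ℤ) := ⟨_, rfl⟩
      have hE0 : 0 ≤ E := by rw [hE]; positivity
      have e1 : (((K₁ + 2 * d) * N : ℕ) : ℤ) = E + 2 * D := by
        rw [hE, hD]; push_cast; ring
      rw [e1]
      rw [← hz, ← hz']
      push_cast at h2 h3
      rw [← hz, ← hD] at h2
      rw [← hz', ← hE] at h3
      constructor
      · linarith [h2.1, h3.1]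
      · linarith [h2.2, h3.2]

end MP3550b5.RG
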