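import Mathlib
import Pool.Agent.Lib.MP_3550b5_nt.RFinal
import Pool.Agent.Lib.MP_3550b5_nt.NMain
import Pool.Agent.Lib.MP_3550b5_nt.RG.Main

/-!
Linear relations with `p`-adic coefficients between heights.
-/

namespace MP3550b5.RG

open Pool.Agent.Lib.MP_3550b5_nt WeierstrassCurve.Affine Module

/-- Factorisation of a matrix killed by `k` independent vectors. -/
lemma exists_fact {K : Type*} [Field K] {r s k : ℕ} (M : Fin r → Fin s → K) (u : Fin k → Fin s → K)
    (hu : LinearIndependent K u) (h0 : ∀ i l, ∑ j, u i j * M l j = 0) :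
    ∃ (x : Fin r → Fin (s - k) → K) (y : Fin s → Fin (s - k) → K),
      ∀ l j, ∑ i, x l i * y j i = M l j := by
  classical
  obtain ⟨W, hW⟩ : ∃ W, W = Submodule.span K (Set.range u) := ⟨_, rfl⟩
  have hWk : finrank K W = k := by
    rw [hW, finrank_span_eq_card hu, Fintype.card_fin]
  have hq : finrank K ((Fin s → K) ⧸ W) = s - k := by
    have h1 := Submodule.finrank_quotient_add_finrank W
    rw [hWk, Module.finrank_fintype_fun_eq_card, Fintype.card_fin] at h1
    omega
  obtain ⟨φ, hφ⟩ : ∃ φ : (Fin s → K) →ₗ[K] (Fin r → K), ∀ v l, φ v l = ∑ j, v j * M l j :=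
    ⟨Matrix.mulVecLin (Matrix.of M), fun v l => by
      rw [Matrix.mulVecLin_apply, Matrix.mulVec, dotProduct]
      exact Finset.sum_congr rfl fun j _ => mul_comm _ _⟩
  have hle : W ≤ LinearMap.ker φ := by
    rw [hW, Submodule.span_le]
    rintro _ ⟨i, rfl⟩
    rw [SetLike.mem_coe, LinearMap.mem_ker]
    funext l
    rw [hφ]
    exact h0 i l
  have e := Module.finBasisOfFinrankEq K _ hq
  refine ⟨fun l i => W.liftQ φ hle (e i) l, fun j i => e.repr (W.mkQ (Pi.single j 1)) i,
    fun l j => ?_⟩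
  have h1 := e.sum_repr (W.mkQ (Pi.single j 1))
  have h2 := congrArg (fun z => W.liftQ φ hle z l) h1
  simp only [map_sum, map_smul, Finset.sum_apply, Pi.smul_apply, smul_eq_mul] at h2
  rw [Submodule.mkQ_apply, Submodule.liftQ_apply, hφ, Finset.sum_eq_single j] at h2
  · rw [Pi.single_eq_same, one_mul] at h2
    rw [← h2]
    exact Finset.sum_congr rfl fun i _ => mul_comm _ _
  · intro i _ hi
    rw [Pi.single_eq_of_ne hi, zero_mul]
  · intro h; exact absurd (Finset.mem_univ _) h

variable {p : ℕ} [hp : Fact p.Prime] {a b : ℤ}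

/-- A common multiple in the good group. -/
lemma exists_common (hΔ : 4 * a ^ 3 + 27 * b ^ 2 ≠ 0) {r : ℕ} (P : Fin r → (curve a b).Point) :
    ∃ N : ℕ, N ≠ 0 ∧ ∀ i, ∀ t : ℕ, (t * N) • P i ∈ goodGroup p a b := by
  classical
  choose N hN1 hN using fun i => exists_mult_good (p := p) hΔ (P i)
  refine ⟨∏ i, N i, ?_, fun i t => ?_⟩
  · rw [Finset.prod_ne_zero_iff]
    intro i _
    have := hN1 i
    omega
  · obtain ⟨t', ht⟩ : N i ∣ ∏ i, N i := Finset.dvd_prod_of_mem _ (Finset.mem_univ i)
    have e1 : (t * ∏ i, N i) • P i = (t * t') • (N i • P i) := by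
      rw [← mul_smul, ht]; congr 1; ring
    rw [e1]
    exact nsmul_mem (hN i) _

lemma indep_nsmul {G : Type*} [AddCommGroup G] {r : ℕ} {P : Fin r → G}
    (hP : LinearIndependent ℤ P) {N : ℕ} (hN : N ≠ 0) (n : Fin r → ℤ)
    (hn : ∑ i, n i • (N • P i) = 0) : n = 0 := by
  have h1 : ∑ i, (n i * (N : ℤ)) • P i = 0 := by
    rw [← hn]
    refine Finset.sum_congr rfl fun i _ => ?_
    rw [mul_smul, natCast_zsmul]
  have h2 := Fintype.linearIndependent_iff.mp hP (fun i => n i * (N : ℤ)) h1
  funext i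
  exact (mul_eq_zero.mp (h2 i)).resolve_right (by exact_mod_cast hN)

/-- Heights of independent points satisfy few linear relations with `p`-adic coefficients. -/
theorem relations_le (hp5 : 5 ≤ p) (hΔ : 4 * a ^ 3 + 27 * b ^ 2 ≠ 0)
    {Bh : (curve a b).Point → (curve a b).Point → ℚ_[p]} (hB : IsCanonicalHeight p a b Bh)
    {r s k : ℕ} {P : Fin r → (curve a b).Point} (hP : LinearIndependent ℤ P)
    {Q : Fin s → (curve a b).Point} (hQ : LinearIndependent ℤ Q) {u : Fin k → Fin s → ℚ_[p]}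
    (hu : LinearIndependent ℚ_[p] u) (h0 : ∀ i l, ∑ j, u i j * Bh (P l) (Q j) = 0)
    (hs : 2 ≤ s) (hk : 2 * k ≤ s + 2) : k * r ≤ (s + 1) * (s + 2 - k) := by
  classical
  rcases Nat.eq_zero_or_pos k with hk0 | hk0
  · rw [hk0, zero_mul]; exact Nat.zero_le _
  have hks : k ≤ s := by
    have := hu.fintype_card_le_finrank
    rwa [Fintype.card_fin, Module.finrank_fintype_fun_eq_card, Fintype.card_fin] at this
  obtain ⟨X, Y, hXY⟩ := exists_fact (fun l j => Bh (P l) (Q j)) u hu h0
  obtain ⟨NP, hNP, hPg⟩ := exists_common (p := p) hΔ P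
  obtain ⟨NQ, hNQ, hQg⟩ := exists_common (p := p) hΔ Q
  choose eX heX using fun (v : Fin r × Fin (s - k)) => exists_scale (X v.1 v.2)
  choose eY heY using fun (v : Fin s × Fin (s - k)) => exists_scale (Y v.1 v.2)
  obtain ⟨e, he⟩ : ∃ e, e = (Finset.univ.sup eX) ⊔ (Finset.univ.sup eY) := ⟨_, rfl⟩
  choose x hx1 hx2 using fun (i : Fin r) (k : Fin (s - k)) => heX (i, k) e (by
    rw [he]; exact le_sup_of_le_left (Finset.le_sup (Finset.mem_univ (i, k))))
  choose y hy1 hy2 using fun (i : Fin s) (k : Fin (s - k)) => heY (i, k) e (by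
    rw [he]; exact le_sup_of_le_right (Finset.le_sup (Finset.mem_univ (i, k))))
  have hp0 := hp.out.ne_zero
  have hNP' : p ^ e * NP ≠ 0 := mul_ne_zero (pow_ne_zero _ hp0) hNP
  have hNQ' : p ^ e * NQ ≠ 0 := mul_ne_zero (pow_ne_zero _ hp0) hNQ
  have hm : Even (p - 1) := by
    have hodd : Odd p := hp.out.odd_of_ne_two (by omega)
    obtain ⟨k, hk⟩ := hodd
    exact ⟨k, by omega⟩
  have hinf : Infinite (goodGroup p a b) := by
    have j₀ : Fin s := ⟨0, by omega⟩
    have hinj : Function.Injective (fun n : ℤ => (⟨n • ((p ^ e * NQ) • Q j₀),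
        zsmul_mem (hQg j₀ _) n⟩ : goodGroup p a b)) := by
      intro n n' h
      have h1 : n • ((p ^ e * NQ) • Q j₀) = n' • ((p ^ e * NQ) • Q j₀) := congrArg Subtype.val h
      have h2 : (n - n') • ((p ^ e * NQ) • Q j₀) = 0 := by
        rw [sub_zsmul, h1, add_neg_cancel]
      have h3 := indep_nsmul hQ hNQ' (Pi.single j₀ (n - n')) (by
        rw [Finset.sum_eq_single j₀]
        · rw [Pi.single_eq_same, h2]
        · intro i _ hi
          rw [Pi.single_eq_of_ne hi]
          exact zero_zsmul _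
        · intro h; exact absurd (Finset.mem_univ _) h)
      have h4 := congrFun h3 j₀
      rw [Pi.single_eq_same] at h4
      exact sub_eq_zero.mp h4
    exact Infinite.of_injective _ hinj
  have key := core_bound hp5 hΔ hB (l := r) (s := s) (ρ := s - k) (by omega) (by omega) hs
    (P := fun i => (p ^ e * NP) • P i) (fun i => hPg i _)
    (fun n hn => indep_nsmul hP hNP' n hn)
    (Q' := fun j => (p ^ e * NQ) • Q j) (fun j => hQg j _)
    (fun n hn => indep_nsmul hQ hNQ' n hn)
    (x := fun i k => (NP : ℤ_[p]) * x i k) (y := fun i k => ((2 * NQ : ℕ) : ℤ_[p]) * y i k)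
    (fun i k => Dvd.dvd.mul_left (hx1 i k) _) (fun i k => Dvd.dvd.mul_left (hy1 i k) _) ?_
    (zero_est_one hΔ hm (by omega) (fun j => hQg j _) (fun n hn => indep_nsmul hQ hNQ' n hn)
      hinf)
  · have e1 : s - (s - k) = k := by omega
    have e2 : s - k + 2 = s + 2 - k := by omega
    rwa [e1, e2] at key
  · intro i j
    have e1 : (p ^ e * NQ) • Q j + (p ^ e * NQ) • Q j = (2 * (p ^ e * NQ)) • Q j := by
      rw [two_mul, add_smul]
    rw [e1, hB.nsmul, hB.symm, hB.nsmul, hB.symm]
    rw [← hXY i j, PadicInt.coe_sum, Finset.mul_sum, Finset.mul_sum]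
    refine Finset.sum_congr rfl fun k _ => ?_
    rw [PadicInt.coe_mul, PadicInt.coe_mul, PadicInt.coe_mul, hx2, hy2, PadicInt.coe_natCast,
      PadicInt.coe_natCast]
    push_cast
    ring

/-- The same for points of the group generated by the first family. -/
theorem kernel_le (hp5 : 5 ≤ p) (hΔ : 4 * a ^ 3 + 27 * b ^ 2 ≠ 0)
    {Bh : (curve a b).Point → (curve a b).Point → ℚ_[p]} (hB : IsCanonicalHeight p a b Bh)
    {r s k : ℕ} {P : Fin r → (curve a b).Point} (hP : LinearIndependent ℤ P)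
    {Q : Fin s → (curve a b).Point} (hQ : LinearIndependent ℤ Q) {u : Fin k → Fin s → ℚ_[p]}
    (hu : LinearIndependent ℚ_[p] u) (h0 : ∀ i l, ∑ j, u i j * Bh (P l) (Q j) = 0)
    (hQP : ∀ j, Q j ∈ Submodule.span ℤ (Set.range P)) :
    2 * k ≤ s + 2 ∧ k * r ≤ (s + 1) * (s + 2 - k) := by
  classical
  have hks : k ≤ s := by
    have := hu.fintype_card_le_finrank
    rwa [Fintype.card_fin, Module.finrank_fintype_fun_eq_card, Fintype.card_fin] at this
  have hspan : ∀ i, ∀ T ∈ Submodule.span ℤ (Set.range P), ∑ j, u i j * Bh T (Q j) = 0 := by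
    intro i T hT
    induction hT using Submodule.span_induction with
    | mem T hT =>
      obtain ⟨l, rfl⟩ := hT
      exact h0 i l
    | zero =>
      apply Finset.sum_eq_zero
      intro j _
      have h1 := hB.zsmul 0 (0 : (curve a b).Point) (Q j)
      rw [zero_zsmul, Int.cast_zero, zero_mul] at h1
      rw [h1, mul_zero]
    | add T T' _ _ h1 h2 =>
      have h3 : ∑ j, u i j * Bh (T + T') (Q j) =
          ∑ j, u i j * Bh T (Q j) + ∑ j, u i j * Bh T' (Q j) := by
        rw [← Finset.sum_add_distrib]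
        refine Finset.sum_congr rfl fun j _ => ?_
        rw [hB.add]; ring
      rw [h3, h1, h2, add_zero]
    | smul n T _ h1 =>
      have h3 : ∑ j, u i j * Bh (n • T) (Q j) = (n : ℚ_[p]) * ∑ j, u i j * Bh T (Q j) := by
        rw [Finset.mul_sum]
        refine Finset.sum_congr rfl fun j _ => ?_
        rw [hB.zsmul]; ring
      rw [h3, h1, mul_zero]
  have h2k : 2 * k ≤ s + 2 := by
    have h1 := rank_bound hp5 hΔ hB hQ
    obtain ⟨M, hM⟩ : ∃ M : Matrix (Fin s) (Fin s) ℚ_[p],
        M = Matrix.of fun i j => Bh (Q i) (Q j) := ⟨_, rfl⟩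
    rw [← hM] at h1
    have h2 : M.rank + k ≤ s := by
      have hle : Submodule.span ℚ_[p] (Set.range u) ≤ LinearMap.ker M.mulVecLin := by
        rw [Submodule.span_le]
        rintro _ ⟨i, rfl⟩
        rw [SetLike.mem_coe, LinearMap.mem_ker]
        funext l
        rw [Matrix.mulVecLin_apply, Matrix.mulVec, dotProduct, hM]
        simp only [Matrix.of_apply, Pi.zero_apply]
        rw [← hspan i (Q l) (hQP l)]
        exact Finset.sum_congr rfl fun j _ => mul_comm _ _
      have h3 := Submodule.finrank_mono hle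
      rw [finrank_span_eq_card hu, Fintype.card_fin] at h3
      have h4 := LinearMap.finrank_range_add_finrank_ker M.mulVecLin
      rw [Module.finrank_fintype_fun_eq_card, Fintype.card_fin] at h4
      have h5 : M.rank = finrank ℚ_[p] (LinearMap.range M.mulVecLin) := rfl
      omega
    omega
  refine ⟨h2k, ?_⟩
  rcases Nat.lt_or_ge s 2 with hs | hs
  · rcases Nat.eq_zero_or_pos k with hk0 | hk0
    · rw [hk0, zero_mul]; exact Nat.zero_le _
    have hs1 : s = 1 := by omega
    have hk1 : k = 1 := by omega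
    subst hs1
    subst hk1
    have hu0 : u 0 0 ≠ 0 := by
      intro h
      apply hu.ne_zero 0
      funext j
      rw [Subsingleton.elim j 0, h]; rfl
    have h3 := orth_bound hp5 hΔ hB hP hQ hQP (fun i j => by
      have h4 := h0 0 i
      rw [Fin.sum_univ_one] at h4
      rw [Subsingleton.elim j 0]
      exact (mul_eq_zero.mp h4).resolve_left hu0)
    omega
  · exact relations_le hp5 hΔ hB hP hQ hu h0 hs h2k

/-- All relations. -/
lemma orth_of_all {Bh : (curve a b).Point → (curve a b).Point → ℚ_[p]} {r s : ℕ}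
    {P : Fin r → (curve a b).Point} {Q : Fin s → (curve a b).Point} {u : Fin s → Fin s → ℚ_[p]}
    (hu : LinearIndependent ℚ_[p] u) (h0 : ∀ i l, ∑ j, u i j * Bh (P l) (Q j) = 0) (l : Fin r)
    (j : Fin s) : Bh (P l) (Q j) = 0 := by
  classical
  have hspan : Submodule.span ℚ_[p] (Set.range u) = ⊤ :=
    hu.span_eq_top_of_card_eq_finrank' (by
      rw [Fintype.card_fin, Module.finrank_fintype_fun_eq_card, Fintype.card_fin])
  obtain ⟨φ, hφ⟩ : ∃ φ : (Fin s → ℚ_[p]) →ₗ[ℚ_[p]] ℚ_[p], ∀ v, φ v = ∑ j, v j * Bh (P l) (Q j) :=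
    ⟨{ toFun := fun v => ∑ j, v j * Bh (P l) (Q j)
       map_add' := fun v w => by
        rw [← Finset.sum_add_distrib]
        exact Finset.sum_congr rfl fun j _ => by rw [Pi.add_apply, add_mul]
       map_smul' := fun c v => by
        rw [RingHom.id_apply, smul_eq_mul, Finset.mul_sum]
        exact Finset.sum_congr rfl fun j _ => by rw [Pi.smul_apply, smul_eq_mul, mul_assoc] },
      fun v => rfl⟩
  have hle : Submodule.span ℚ_[p] (Set.range u) ≤ LinearMap.ker φ := by
    rw [Submodule.span_le]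
    rintro _ ⟨i, rfl⟩
    rw [SetLike.mem_coe, LinearMap.mem_ker, hφ]
    exact h0 i l
  rw [hspan, top_le_iff] at hle
  have h1 : (Pi.single j 1 : Fin s → ℚ_[p]) ∈ LinearMap.ker φ := by rw [hle]; trivial
  rw [LinearMap.mem_ker, hφ, Finset.sum_eq_single j] at h1
  · rwa [Pi.single_eq_same, one_mul] at h1
  · intro i _ hi
    rw [Pi.single_eq_of_ne hi, zero_mul]
  · intro h; exact absurd (Finset.mem_univ _) h

end MP3550b5.RG
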