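import Mathlib
import Pool.Agent.Lib.MP_3550b5_nt.RG.Tup
import Pool.Agent.Lib.MP_3550b5_nt.RG.Fun

/-!
The auxiliary function for tuples as a regular function on the torus bundle.
-/

namespace MP3550b5.RG

open Pool.Agent.Lib.MP_3550b5_nt WeierstrassCurve.Affine

variable {p : ℕ} [hp : Fact p.Prime] {a b : ℤ}

private lemma nf_an {R : (curve a b).Point} (hR : R ≠ 0) :
    (an R : ℚ) = ptX R * (dn R : ℚ) ^ 2 := by
  obtain ⟨A, B, D, hrep, hD, hc⟩ := exists_rep hR
  have h1 := dn_of_rep hrep hD hc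
  have h2 := (rep_num_den hrep hc).1
  have h3 : (dn R : ℚ) = (D : ℚ) := by exact_mod_cast congrArg (fun z : ℤ => (z : ℚ)) h1
  have hDr : (D : ℚ) ≠ 0 := by exact_mod_cast hD.ne'
  rw [an, h2, h3, hrep.ptX_eq]
  field_simp

private lemma nf_sub_ne {s : ℕ} {Q : Fin s → (curve a b).Point} {M : ℕ}
    {R : (curve a b).Point} (hfar : FarQ Q (M + 1) R) (j : Fin s) : R - Q j ≠ 0 := by
  intro h0
  refine hfar.ne (w := Pi.single j 1) (fun i => ?_) ?_
  · rcases eq_or_ne i j with h | h
    · subst h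
      rw [Pi.single_eq_same]
      simp
    · rw [Pi.single_eq_of_ne h, abs_zero]
      positivity
  · rw [lin_single]
    exact sub_eq_zero.1 h0

/-- the value of the product of denominators, from `IsNv` -/
private lemma nf_val {s m : ℕ} (hm : Even m) {Q : Fin s → (curve a b).Point} {v : Fin s → ℕ}
    {N : Polynomial ℚ × Polynomial ℚ} {c : ℚ} (hN : IsNv p Q v N c) {M : ℕ} (hv : ∀ j, v j ≤ M)
    {R : (curve a b).Point} (gR : R ∈ goodGroup p a b) (hfar : FarQ Q (M + 1) R) :
    (dn (R + lin Q fun j => (v j : ℤ)) : ℚ) ^ m = (c⁻¹ * pv N R) ^ m * (dn R : ℚ) ^ m *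
      ∏ j, (((dn R : ℚ) / dn (R - Q j)) ^ m) ^ v j := by
  obtain ⟨hc, -, -, -, hval⟩ := hN
  have h1 := hval R gR M hv hfar
  have hne : ∀ j, (dn (R - Q j) : ℚ) ≠ 0 := by
    intro j
    exact_mod_cast (dn_pos (nf_sub_ne hfar j)).ne'
  obtain ⟨P, hP⟩ : ∃ P, P = ∏ j, (dn (R - Q j) : ℚ) ^ v j := ⟨_, rfl⟩
  have hP0 : P ≠ 0 := by
    rw [hP]
    exact Finset.prod_ne_zero_iff.2 fun j _ => pow_ne_zero _ (hne j)
  rw [← hP] at h1
  have h2 : ∏ j, (((dn R : ℚ) / dn (R - Q j)) ^ m) ^ v j =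
      ((dn R : ℚ) ^ (∑ j, v j) / P) ^ m := by
    rw [hP, ← Finset.prod_pow_eq_pow_sum, ← Finset.prod_div_distrib, ← Finset.prod_pow]
    refine Finset.prod_congr rfl fun j _ => ?_
    rw [← div_pow, ← pow_mul, ← pow_mul, mul_comm]
  have h3 : (dn (R + lin Q fun j => (v j : ℤ)) : ℚ) =
      c⁻¹ * |pv N R| * (dn R * ((dn R : ℚ) ^ (∑ j, v j) / P)) := by
    have hc0 : c ≠ 0 := hc.ne'
    have h4 : |pv N R| * ((dn R : ℚ) * (dn R : ℚ) ^ (∑ j, v j)) =
        c * dn (R + lin Q fun j => (v j : ℤ)) * P := by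
      rw [← h1, pow_add, pow_one]
    field_simp
    linear_combination -h4
  rw [h2, h3, mul_pow, mul_pow, mul_pow, mul_pow, hm.pow_abs]
  ring

/-- the function does not vanish at a point in general position -/
private lemma nf_ne {s : ℕ} {Q : Fin s → (curve a b).Point} {v : Fin s → ℕ}
    {N : Polynomial ℚ × Polynomial ℚ} {c : ℚ} (hN : IsNv p Q v N c) {M : ℕ} (hv : ∀ j, v j ≤ M)
    {R : (curve a b).Point} (gR : R ∈ goodGroup p a b) (hfar : FarQ Q (M + 1) R) :
    pv N R ≠ 0 := by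
  intro h2
  have h3 := hN.2.2.2.2 R gR M hv hfar
  rw [h2, abs_zero, zero_mul] at h3
  have h4 : (dn (R + lin Q fun j => (v j : ℤ)) : ℚ) ≠ 0 := by
    have h5 : R + lin Q (fun j => (v j : ℤ)) ≠ 0 := by
      intro h5
      refine hfar.ne (w := fun j => -(v j : ℤ)) (fun j => ?_) ?_
      · rw [abs_neg, Nat.abs_cast]
        have := hv j
        push_cast
        omega
      · rw [eq_neg_of_add_eq_zero_left h5, ← map_neg]
        rfl
    exact_mod_cast (dn_pos h5).ne'
  have h5 : ∏ j, (dn (R - Q j) : ℚ) ^ v j ≠ 0 := by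
    refine Finset.prod_ne_zero_iff.2 fun j _ => pow_ne_zero _ ?_
    exact_mod_cast (dn_pos (nf_sub_ne hfar j)).ne'
  exact mul_ne_zero (mul_ne_zero hN.1.ne' h4) h5 h3.symm

/-- a point in general position -/
private lemma nf_far {s : ℕ} (hs : 0 < s) {Q : Fin s → (curve a b).Point}
    (hQ : ∀ j, Q j ∈ goodGroup p a b) (hind : ∀ n : Fin s → ℤ, lin Q n = 0 → n = 0) (B : ℕ) :
    ∃ R ∈ goodGroup p a b, FarQ Q (B + 1) R := by
  refine ⟨lin Q (fun _ => ((B + 2 : ℕ) : ℤ)), ?_, ?_⟩
  · rw [lin_apply]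
    exact sum_mem fun i _ => zsmul_mem (hQ i) _
  · intro w hw h1
    have h2 : lin Q ((fun _ => ((B + 2 : ℕ) : ℤ)) - w) = 0 := by
      rw [map_sub, h1, sub_self]
    have h3 := congrFun (hind _ h2) ⟨0, hs⟩
    have h4 := hw ⟨0, hs⟩
    simp only [Pi.sub_apply, Pi.zero_apply] at h3
    have h5 := abs_le.1 h4
    push_cast at h3 h5
    omega

section poly

variable {n s : ℕ}

private noncomputable def npX (s : ℕ) (i : Fin n) : MvPolynomial ((Fin n ⊕ Fin n) ⊕ Fin s) ℚ :=
  MvPolynomial.X (Sum.inl (Sum.inl i))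

private noncomputable def npY (s : ℕ) (i : Fin n) : MvPolynomial ((Fin n ⊕ Fin n) ⊕ Fin s) ℚ :=
  MvPolynomial.X (Sum.inl (Sum.inr i))

private noncomputable def npN (s : ℕ) (i : Fin n) (N : Polynomial ℚ × Polynomial ℚ) :
    MvPolynomial ((Fin n ⊕ Fin n) ⊕ Fin s) ℚ :=
  Polynomial.aeval (npX s i) N.1 + Polynomial.aeval (npX s i) N.2 * npY s i

private lemma nf_deg (i : Fin n) (P : Polynomial ℚ) {d : ℕ} (h : P.natDegree ≤ d) :
    (Polynomial.aeval (npX s i) P).totalDegree ≤ d := by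
  rw [Polynomial.aeval_eq_sum_range]
  refine MvPolynomial.totalDegree_finsetSum_le fun i hi => ?_
  refine (MvPolynomial.totalDegree_smul_le _ _).trans ?_
  refine (MvPolynomial.totalDegree_pow _ _).trans ?_
  rw [npX, MvPolynomial.totalDegree_X, mul_one]
  have := Finset.mem_range.1 hi
  omega

private lemma npN_deg {i : Fin n} {N : Polynomial ℚ × Polynomial ℚ} {d : ℕ}
    (h1 : N.1.natDegree ≤ d) (h2 : N.2.natDegree + 1 ≤ d) : (npN s i N).totalDegree ≤ d := by
  refine (MvPolynomial.totalDegree_add _ _).trans (max_le (nf_deg i _ h1) ?_)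
  refine (MvPolynomial.totalDegree_mul _ _).trans ?_
  have h3 := nf_deg (s := s) i N.2 le_rfl
  rw [npY, MvPolynomial.totalDegree_X]
  omega

/-- one coordinate of the row -/
private noncomputable def npR {T : ℕ} (s m : ℕ) (i : Fin n)
    (N : Fin T → Polynomial ℚ × Polynomial ℚ) (c : Fin T → ℚ) (k : ℕ) :
    MvPolynomial ((Fin n ⊕ Fin n) ⊕ Fin s) ℚ :=
  npX s i ^ k * ∏ t, (MvPolynomial.C (c t)⁻¹ * npN s i (N t)) ^ m

private lemma npR_deg {T m : ℕ} {i : Fin n} {N : Fin T → Polynomial ℚ × Polynomial ℚ}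
    {c : Fin T → ℚ} {k d : ℕ} (h1 : ∀ i, (N i).1.natDegree ≤ d)
    (h2 : ∀ i, (N i).2.natDegree + 1 ≤ d) : (npR s m i N c k).totalDegree ≤ k + T * (m * d) := by
  refine (MvPolynomial.totalDegree_mul _ _).trans (add_le_add ?_ ?_)
  · refine (MvPolynomial.totalDegree_pow _ _).trans ?_
    rw [npX, MvPolynomial.totalDegree_X, mul_one]
  · refine (MvPolynomial.totalDegree_finsetProd _ _).trans ?_
    refine (Finset.sum_le_card_nsmul _ _ (m * d) fun i _ => ?_).trans ?_
    · refine (MvPolynomial.totalDegree_pow _ _).trans (Nat.mul_le_mul_left _ ?_)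
      refine (MvPolynomial.totalDegree_mul _ _).trans ?_
      rw [MvPolynomial.totalDegree_C, zero_add]
      exact npN_deg (h1 i) (h2 i)
    · simp

/-- the monomial of the fibre coordinates -/
private noncomputable def npW (n : ℕ) {s : ℕ} (e : Fin s → ℕ) :
    MvPolynomial ((Fin n ⊕ Fin n) ⊕ Fin s) ℚ := ∏ j, MvPolynomial.X (Sum.inr j) ^ e j

private lemma npW_deg {e : Fin s → ℕ} {d : ℕ} (he : ∀ j, e j ≤ d) :
    (npW n e).totalDegree ≤ s * d := by
  refine (MvPolynomial.totalDegree_finsetProd _ _).trans ?_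
  refine (Finset.sum_le_card_nsmul _ _ d fun j _ => ?_).trans ?_
  · refine (MvPolynomial.totalDegree_pow _ _).trans ?_
    rw [MvPolynomial.totalDegree_X, mul_one]
    exact he j
  · simp

/-- the function `N_1 (x_i) + N_2 (x_i) y_i` -/
private noncomputable def ncN (a b : ℤ) (i : Fin n) (N : Polynomial ℚ × Polynomial ℚ) :
    Bn a b n :=
  Polynomial.aeval (xB a b i) N.1 + Polynomial.aeval (xB a b i) N.2 * yB a b i

/-- the product of the functions `N` -/
private noncomputable def ncE (a b : ℤ) {T : ℕ} (m : ℕ) (i : Fin n)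
    (N : Fin T → Polynomial ℚ × Polynomial ℚ) (c : Fin T → ℚ) : Bn a b n :=
  ∏ t, (algebraMap ℚ (Bn a b n) (c t)⁻¹ * ncN a b i (N t)) ^ m

private lemma nf_C_aeval (i : Fin n) (P : Polynomial ℚ) :
    (MvPolynomial.C (Polynomial.aeval (xB a b i) P) : An a b n s) =
      Polynomial.aeval (MvPolynomial.C (xB a b i) : An a b n s) P := by
  rw [Polynomial.aeval_def, Polynomial.aeval_def, Polynomial.hom_eval₂]
  rfl

private lemma nf_X (i : Fin n) : presA a b n s (npX s i) = MvPolynomial.C (xB a b i) := by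
  rw [presA, npX, MvPolynomial.aeval_X]
  rfl

private lemma nf_Y (i : Fin n) : presA a b n s (npY s i) = MvPolynomial.C (yB a b i) := by
  rw [presA, npY, MvPolynomial.aeval_X]
  rfl

private lemma nf_N (i : Fin n) (N : Polynomial ℚ × Polynomial ℚ) :
    presA a b n s (npN s i N) = MvPolynomial.C (ncN a b i N) := by
  rw [npN, ncN, map_add, map_mul, map_add, map_mul, nf_C_aeval, nf_C_aeval,
    ← Polynomial.aeval_algHom_apply, ← Polynomial.aeval_algHom_apply, nf_X, nf_Y]

private lemma nf_C (c : ℚ) : presA a b n s (MvPolynomial.C c) =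
    MvPolynomial.C (algebraMap ℚ (Bn a b n) c) := by
  rw [presA, MvPolynomial.aeval_C]
  rfl

private lemma nf_R {T m : ℕ} (i : Fin n) (N : Fin T → Polynomial ℚ × Polynomial ℚ)
    (c : Fin T → ℚ) (k : ℕ) : presA a b n s (npR s m i N c k) =
      MvPolynomial.C (xB a b i ^ k * ncE a b m i N c) := by
  rw [npR, ncE, map_mul, map_mul, map_pow, map_pow, map_prod, map_prod, nf_X]
  congr 1
  refine Finset.prod_congr rfl fun i _ => ?_
  rw [map_pow, map_pow, map_mul, map_mul, nf_N, nf_C]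

private lemma nf_W (e : Fin s → ℕ) : presA a b n s (npW n e) =
    MvPolynomial.monomial (Finsupp.equivFunOnFinite.symm e) 1 := by
  rw [MvPolynomial.monomial_eq, npW, map_prod, MvPolynomial.C_1, one_mul,
    Finsupp.prod_fintype _ _ fun _ => pow_zero _]
  refine Finset.prod_congr rfl fun j _ => ?_
  rw [map_pow, presA, MvPolynomial.aeval_X]
  rfl

private lemma nf_evB {R : Fin n → (curve a b).Point} (hR : ∀ i, R i ≠ 0) (i : Fin n)
    (P : Polynomial ℚ) : evB R hR (Polynomial.aeval (xB a b i) P) = P.eval (ptX (R i)) := by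
  rw [← Polynomial.aeval_algHom_apply, evB_x, Polynomial.coe_aeval_eq_eval]

private lemma nf_evN {R : Fin n → (curve a b).Point} (hR : ∀ i, R i ≠ 0) (i : Fin n)
    (N : Polynomial ℚ × Polynomial ℚ) : evB R hR (ncN a b i N) = pv N (R i) := by
  rw [ncN, map_add, map_mul, nf_evB, nf_evB, evB_y, pv]

private lemma nf_evE {R : Fin n → (curve a b).Point} (hR : ∀ i, R i ≠ 0) {T m : ℕ} (i : Fin n)
    (N : Fin T → Polynomial ℚ × Polynomial ℚ) (c : Fin T → ℚ) :
    evB R hR (ncE a b m i N c) = ∏ t, ((c t)⁻¹ * pv (N t) (R i)) ^ m := by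
  rw [ncE, map_prod]
  refine Finset.prod_congr rfl fun t _ => ?_
  rw [map_pow, map_mul, AlgHom.commutes, nf_evN]
  rfl

end poly

/-- the abscissae are algebraically independent -/
private lemma nf_alg {n : ℕ} {P : MvPolynomial (Fin n) ℚ} (hP : P ≠ 0) :
    MvPolynomial.aeval (fun i => xB a b i) P ≠ 0 := by
  let K := AlgebraicClosure (FractionRing (MvPolynomial (Fin n) ℚ))
  choose v hv using fun i : Fin n => IsAlgClosed.exists_pow_nat_eq
    ((algebraMap (MvPolynomial (Fin n) ℚ) K (MvPolynomial.X i)) ^ 3 +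
      algebraMap ℚ K a * algebraMap (MvPolynomial (Fin n) ℚ) K (MvPolynomial.X i) +
      algebraMap ℚ K b) (n := 2) (by norm_num)
  intro h0
  have h1 := congrArg (liftB (n := n)
    (fun i => algebraMap (MvPolynomial (Fin n) ℚ) K (MvPolynomial.X i)) v hv) h0
  rw [map_zero, MvPolynomial.comp_aeval_apply] at h1
  simp only [liftB_x] at h1
  have h2 : MvPolynomial.aeval
      (fun i => algebraMap (MvPolynomial (Fin n) ℚ) K (MvPolynomial.X i)) P =
      algebraMap (MvPolynomial (Fin n) ℚ) K P :=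
    (MvPolynomial.aeval_algebraMap_apply (B := K) MvPolynomial.X P).trans (by
      rw [MvPolynomial.aeval_X_left_apply])
  rw [h2] at h1
  refine hP ((map_eq_zero_iff _ ?_).1 h1)
  have h3 : Function.Injective (algebraMap (FractionRing (MvPolynomial (Fin n) ℚ)) K) :=
    (algebraMap (FractionRing (MvPolynomial (Fin n) ℚ)) K).injective
  have h4 : (algebraMap (MvPolynomial (Fin n) ℚ) K : MvPolynomial (Fin n) ℚ → K) =
      (algebraMap (FractionRing (MvPolynomial (Fin n) ℚ)) K) ∘
        (algebraMap (MvPolynomial (Fin n) ℚ) (FractionRing (MvPolynomial (Fin n) ℚ))) := by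
    rw [IsScalarTower.algebraMap_eq (MvPolynomial (Fin n) ℚ)
      (FractionRing (MvPolynomial (Fin n) ℚ)) K]
    rfl
  rw [h4]
  exact h3.comp (IsFractionRing.injective _ _)

private lemma nf_wv {d n s : ℕ} {π : Fin d → Fin n → Fin s} (hπ : ∀ i, Function.Injective (π i))
    (T' : Fin n → (curve a b).Point) (m : ℕ) {R : Fin d → (curve a b).Point}
    (h : ∀ i, R i ≠ 0) (e : Fin s → ℕ) :
    ∏ k, wv m (TX π T') R k ^ e k =
      ∏ i, ∏ j, (((dn (R i) : ℚ) / dn (R i - T' j)) ^ m) ^ e (π i j) := by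
  simp only [wv, ← Finset.prod_pow]
  rw [Finset.prod_comm]
  refine Finset.prod_congr rfl fun i _ => ?_
  have h1 : ∏ j, (((dn (R i) : ℚ) / dn (R i - T' j)) ^ m) ^ e (π i j) =
      ∏ k ∈ Finset.univ.image (π i),
        (((dn (R i) : ℚ) / dn (R i - TX π T' i k)) ^ m) ^ e k := by
    rw [Finset.prod_image fun x _ y _ hxy => hπ i hxy]
    exact Finset.prod_congr rfl fun j _ => by rw [TX_self T' (hπ i) j]
  rw [h1]
  refine (Finset.prod_subset (Finset.subset_univ _) fun k _ hk => ?_).symm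
  rw [TX_zero T' fun j hj => hk (Finset.mem_image.2 ⟨j, Finset.mem_univ _, hj⟩), sub_zero,
    div_self (dn_ne_zero (h i)), one_pow, one_pow]

/-- one coordinate of a row at a point -/
private lemma nf_row {m : ℕ} (hm : Even m) {d n s : ℕ} {π : Fin d → Fin n → Fin s}
    {T' : Fin n → (curve a b).Point} {T B : ℕ} (hT : 1 ≤ T)
    (i : Fin d) (l : Fin s → Fin (T * (B - 1))) {v : Fin T → Fin s → ℕ}
    (hv : ∀ t j, (v t j : ℤ) = bal T l t j) (hvB : ∀ t j, v t j ≤ B)
    {N : Fin T → Polynomial ℚ × Polynomial ℚ} {c : Fin T → ℚ}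
    (hN : ∀ t, IsNv p T' (fun j => v t (π i j)) (N t) (c t)) {R : (curve a b).Point}
    (gR : R ∈ goodGroup p a b) (hfar : FarQ T' (B + 1) R) (k : Fin (T + 1)) :
    (rowF m T (TX π T' i) k l R : ℚ) =
      ptX R ^ (k : ℕ) * (∏ t, ((c t)⁻¹ * pv (N t) R) ^ m) *
        (∏ j, (((dn R : ℚ) / dn (R - T' j)) ^ m) ^ (T + (l (π i j) : ℕ))) *
          (dn R : ℚ) ^ (2 * T + m * T) := by
  have hR0 := hfar.ne_zero
  have hvtot : ∀ j, ∑ t, v t j = T + (l j : ℕ) := fun j => by
    have h1 := bal_sum (T := T) (by omega) l j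
    have h2 : ((∑ t, v t j : ℕ) : ℤ) = T + (l j : ℕ) := by
      rw [← h1]
      push_cast
      exact Finset.sum_congr rfl fun t _ => hv t j
    exact_mod_cast h2
  have h2 : ∏ t, (dn (R + lin (TX π T' i) (bal T l t)) : ℚ) ^ m =
      (∏ t, ((c t)⁻¹ * pv (N t) R) ^ m) * (dn R : ℚ) ^ (m * T) *
        ∏ j, (((dn R : ℚ) / dn (R - T' j)) ^ m) ^ (T + (l (π i j) : ℕ)) := by
    have h3 : ∀ t, (dn (R + lin (TX π T' i) (bal T l t)) : ℚ) ^ m =
        ((c t)⁻¹ * pv (N t) R) ^ m * (dn R : ℚ) ^ m *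
          ∏ j, (((dn R : ℚ) / dn (R - T' j)) ^ m) ^ v t (π i j) := by
      intro t
      rw [← nf_val hm (hN t) (fun j => hvB t (π i j)) gR hfar, lin_TX]
      have h4 : (fun j => bal T l t (π i j)) = fun j => (v t (π i j) : ℤ) :=
        funext fun j => (hv t (π i j)).symm
      rw [h4]
    rw [Finset.prod_congr rfl fun t _ => h3 t, Finset.prod_mul_distrib,
      Finset.prod_mul_distrib, Finset.prod_const, Finset.card_univ, Fintype.card_fin,
      ← pow_mul, Finset.prod_comm]
    congr 1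
    refine Finset.prod_congr rfl fun j _ => ?_
    rw [Finset.prod_pow_eq_pow_sum, hvtot]
  rw [rowF]
  push_cast
  rw [h2, nf_an hR0, mul_pow, ← pow_mul, pow_add (dn R : ℚ) (2 * T) (m * T)]
  have h5 : (dn R : ℚ) ^ (2 * T) = (dn R : ℚ) ^ (2 * (k : ℕ)) *
      (dn R : ℚ) ^ (2 * (T - (k : ℕ))) := by
    rw [← pow_add]
    congr 1
    have : (k : ℕ) ≤ T := Nat.lt_succ_iff.1 k.2
    omega
  rw [h5]
  ring

/-- The auxiliary function of the construction as a function on the torus bundle. -/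
theorem exists_funN (H : TwoTerm p a b) {d n s : ℕ} (hn : 2 ≤ n) {π : Fin d → Fin n → Fin s}
    (hπ : ∀ i, Function.Injective (π i)) {T' : Fin n → (curve a b).Point}
    (hT : ∀ j, T' j ∈ goodGroup p a b) (hind : ∀ c : Fin n → ℤ, lin T' c = 0 → c = 0) {m : ℕ}
    (hm : Even m) : ∃ C : ℕ, ∀ T B : ℕ, 1 ≤ T → 2 ≤ B →
      ∀ c : (Fin d → Fin (T + 1)) × (Fin s → Fin (T * (B - 1))) → ℤ, c ≠ 0 →
        ∃ f : An a b d s, f ≠ 0 ∧ HasLift (C * (T * B)) f ∧
          ∀ R : Fin d → (curve a b).Point, (∀ i, R i ∈ goodGroup p a b) →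
            (∀ i, FarQ T' (B + 1) (R i)) → ∀ hR : ∀ i, R i ≠ 0,
              evA m (TX π T') R hR f * (∏ i, (dn (R i) : ℚ)) ^ (2 * T + m * T) =
                ((∑ r, c r * rowN m T (TX π T') r R : ℤ) : ℚ) := by
  have hNex : ∀ v : Fin n → ℕ, (∀ j, 1 ≤ v j) →
      ∃ (N : Polynomial ℚ × Polynomial ℚ) (c : ℚ), IsNv p T' v N c := fun v hv =>
    exists_isNv H hT hind (i₀ := ⟨0, by omega⟩) (i₁ := ⟨1, by omega⟩) (by
      intro h
      have := congrArg Fin.val h
      simp at this) v (hv _) (hv _)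
  refine ⟨4 * (d * (1 + m * (n + 1)) + s), fun T B hT1 hB c hc => ?_⟩
  let v : (Fin s → Fin (T * (B - 1))) → Fin T → Fin s → ℕ := fun l i j => (bal T l i j).toNat
  have hv : ∀ l i j, (v l i j : ℤ) = bal T l i j := fun l i j =>
    Int.toNat_of_nonneg (by have := (bal_bounds l i j).1; omega)
  have hv1 : ∀ l i j, 1 ≤ v l i j := fun l i j => by
    have h1 := (bal_bounds l i j).1
    have h2 := hv l i j
    omega
  have hvB : ∀ l i j, v l i j ≤ B := fun l i j => by
    have h1 := (bal_bounds l i j).2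
    have h2 := hv l i j
    omega
  choose N cc hN using fun (i : Fin d) (l : Fin s → Fin (T * (B - 1))) (t : Fin T) =>
    hNex (fun j => v l t (π i j)) (fun j => hv1 l t (π i j))
  let e : (Fin s → Fin (T * (B - 1))) → Fin s → ℕ := fun l j => T + (l j : ℕ)
  have hlN : ∀ (l : Fin s → Fin (T * (B - 1))) j, e l j ≤ T * B := by
    intro l j
    have h1 := (l j).2
    have h2 : T * B = T * (B - 1) + T := by
      obtain ⟨B', rfl⟩ : ∃ B', B = B' + 1 := ⟨B - 1, by omega⟩
      rw [Nat.add_sub_cancel]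
      ring
    show T + (l j : ℕ) ≤ T * B
    omega
  let g : MvPolynomial ((Fin d ⊕ Fin d) ⊕ Fin s) ℚ :=
    ∑ r, MvPolynomial.C (c r : ℚ) *
      ((∏ i, npR s m i (N i r.2) (cc i r.2) (r.1 i)) * npW d (e r.2))
  have hgdeg : g.totalDegree ≤ (d * (1 + m * (n + 1)) + s) * (T * B) := by
    refine MvPolynomial.totalDegree_finsetSum_le fun r _ => ?_
    refine (MvPolynomial.totalDegree_mul _ _).trans ?_
    rw [MvPolynomial.totalDegree_C, zero_add]
    have hsum : ∀ i l t, ∑ j, v l t (π i j) ≤ n * B := fun i l t => by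
      refine (Finset.sum_le_card_nsmul _ _ B fun j _ => hvB l t (π i j)).trans ?_
      simp
    have hd1 : ∀ i l t, (N i l t).1.natDegree ≤ 1 + n * B := fun i l t => by
      refine (hN i l t).2.1.trans ?_
      exact Nat.add_le_add_left (hsum i l t) 1
    have hd2 : ∀ i l t, (N i l t).2.natDegree + 1 ≤ 1 + n * B := fun i l t => by
      refine (hN i l t).2.2.1.trans ?_
      exact Nat.add_le_add_left (hsum i l t) 1
    refine (MvPolynomial.totalDegree_mul _ _).trans ?_
    have h7 : ∀ i, (npR s m i (N i r.2) (cc i r.2) (r.1 i)).totalDegree ≤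
        (1 + m * (n + 1)) * (T * B) := by
      intro i
      refine (npR_deg (hd1 i r.2) (hd2 i r.2)).trans ?_
      have h1 : (r.1 i : ℕ) ≤ T := Nat.lt_succ_iff.1 (r.1 i).2
      have h2 : T * 1 ≤ T * B := Nat.mul_le_mul_left T (by omega)
      have h3 : T * (m * (1 + n * B)) ≤ m * (n + 1) * (T * B) := by
        have h4 : T * (m * (1 + n * B)) = m * (T * (1 + n * B)) := by ring
        have h5 : m * (n + 1) * (T * B) = m * (T * (n * B + B)) := by ring
        rw [h4, h5]
        exact Nat.mul_le_mul_left _ (Nat.mul_le_mul_left _ (by omega))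
      have h6 : (1 + m * (n + 1)) * (T * B) = T * B + m * (n + 1) * (T * B) := by ring
      omega
    have h8 : (∏ i, npR s m i (N i r.2) (cc i r.2) (r.1 i)).totalDegree ≤
        d * ((1 + m * (n + 1)) * (T * B)) := by
      refine (MvPolynomial.totalDegree_finsetProd _ _).trans ?_
      refine (Finset.sum_le_card_nsmul _ _ _ fun i _ => h7 i).trans ?_
      simp
    refine (add_le_add h8 (npW_deg (hlN r.2))).trans ?_
    have h9 : (d * (1 + m * (n + 1)) + s) * (T * B) =
        d * ((1 + m * (n + 1)) * (T * B)) + s * (T * B) := by ring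
    omega
  have hf : presA a b d s g = ∑ r, MvPolynomial.monomial (Finsupp.equivFunOnFinite.symm (e r.2))
      (algebraMap ℚ (Bn a b d) (c r : ℚ) * ∏ i, (xB a b i ^ (r.1 i : ℕ) *
        ncE a b m i (N i r.2) (cc i r.2))) := by
    rw [map_sum]
    refine Finset.sum_congr rfl fun r _ => ?_
    rw [map_mul, map_mul, map_prod, nf_C, nf_W,
      Finset.prod_congr rfl fun i _ => nf_R i (N i r.2) (cc i r.2) (r.1 i : ℕ), ← map_prod,
      MvPolynomial.C_mul_monomial, MvPolynomial.C_mul_monomial, mul_one]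
  refine ⟨presA a b d s g, ?_, ?_, ?_⟩
  · -- the function is not zero
    intro h0
    obtain ⟨r0, hr0⟩ : ∃ r, c r ≠ 0 := by
      by_contra hcon
      push Not at hcon
      exact hc (funext hcon)
    obtain ⟨R, gR, hfar⟩ := nf_far (s := n) (by omega) hT hind B
    have hE : ∀ i l, ncE a b m i (N i l) (cc i l) ≠ 0 := by
      intro i l
      refine Finset.prod_ne_zero_iff.2 fun t _ => pow_ne_zero _ (mul_ne_zero ?_ ?_)
      · exact (map_ne_zero_iff _ (algebraMap ℚ (Bn a b d)).injective).2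
          (inv_ne_zero (hN i l t).1.ne')
      · intro h1
        refine nf_ne (hN i l t) (fun j => hvB l t (π i j)) gR hfar ?_
        rw [← nf_evN (R := fun _ => R) (fun _ => hfar.ne_zero) i (N i l t), h1, map_zero]
    let P : MvPolynomial (Fin d) ℚ := ∑ r : (Fin d → Fin (T + 1)) ×
      (Fin s → Fin (T * (B - 1))), if r.2 = r0.2 then
        MvPolynomial.monomial (Finsupp.equivFunOnFinite.symm fun i => (r.1 i : ℕ))
          (c r : ℚ) else 0
    have hP0 : P ≠ 0 := by
      intro h3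
      have h4 := congrArg (MvPolynomial.coeff
        (Finsupp.equivFunOnFinite.symm fun i => (r0.1 i : ℕ))) h3
      rw [MvPolynomial.coeff_sum, MvPolynomial.coeff_zero, Finset.sum_eq_single r0] at h4
      · rw [if_pos rfl, MvPolynomial.coeff_monomial, if_pos rfl] at h4
        exact hr0 (by exact_mod_cast h4)
      · intro r _ hr
        split_ifs with h5
        · rw [MvPolynomial.coeff_monomial, if_neg]
          intro h6
          have h7 := Finsupp.equivFunOnFinite.symm.injective h6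
          apply hr
          exact Prod.ext (funext fun i => Fin.ext (congrFun h7 i)) h5
        · exact MvPolynomial.coeff_zero _
      · intro h5
        exact absurd (Finset.mem_univ _) h5
    refine nf_alg (a := a) (b := b) hP0 ?_
    have hcoef := congrArg
      (MvPolynomial.coeff (Finsupp.equivFunOnFinite.symm (e r0.2))) h0
    rw [hf, MvPolynomial.coeff_sum, MvPolynomial.coeff_zero] at hcoef
    have h1 : MvPolynomial.aeval (fun i => xB a b i) P *
        ∏ i, ncE a b m i (N i r0.2) (cc i r0.2) = 0 := by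
      rw [← hcoef, map_sum, Finset.sum_mul]
      refine Finset.sum_congr rfl fun r _ => ?_
      rw [MvPolynomial.coeff_monomial]
      by_cases h5 : r.2 = r0.2
      · rw [if_pos h5, if_pos (by rw [h5]), MvPolynomial.aeval_monomial,
          Finsupp.prod_fintype _ _ fun _ => pow_zero _, h5, Finset.prod_mul_distrib, mul_assoc]
        rfl
      · rw [if_neg h5, if_neg, map_zero, zero_mul]
        intro h6
        apply h5
        have h2 := Finsupp.equivFunOnFinite.symm.injective h6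
        funext j
        have h3 := congrFun h2 j
        have h4 : T + (r.2 j : ℕ) = T + (r0.2 j : ℕ) := h3
        exact Fin.ext (by omega)
    exact (mul_eq_zero.1 h1).resolve_right (Finset.prod_ne_zero_iff.2 fun i _ => hE i _)
  · -- degrees
    have h1 := hasLift_of_degree (a := a) (b := b) g fun j =>
      (MvPolynomial.degreeOf_le_totalDegree g j).trans hgdeg
    rwa [← mul_assoc] at h1
  · -- values
    intro R gR hfar hR
    rw [hf, map_sum, Finset.sum_mul]
    push_cast
    refine Finset.sum_congr rfl fun r _ => ?_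
    have h1 : evA m (TX π T') R hR (MvPolynomial.monomial
        (Finsupp.equivFunOnFinite.symm (e r.2)) (algebraMap ℚ (Bn a b d) (c r : ℚ) *
          ∏ i, (xB a b i ^ (r.1 i : ℕ) * ncE a b m i (N i r.2) (cc i r.2)))) =
        (c r : ℚ) * (∏ i, (ptX (R i) ^ (r.1 i : ℕ) *
          (∏ t, ((cc i r.2 t)⁻¹ * pv (N i r.2 t) (R i)) ^ m))) *
        ∏ k, wv m (TX π T') R k ^ e r.2 k := by
      rw [MvPolynomial.monomial_eq, map_mul, evA_C, map_mul, AlgHom.commutes, map_prod,
        Finsupp.prod_fintype _ _ fun _ => pow_zero _, map_prod]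
      congr 1
      · congr 1
        refine Finset.prod_congr rfl fun i _ => ?_
        rw [map_mul, map_pow, evB_x, nf_evE]
      · refine Finset.prod_congr rfl fun j _ => ?_
        rw [map_pow, evA_X]
        rfl
    rw [h1, nf_wv hπ T' m hR, rowN]
    push_cast
    rw [Finset.prod_congr rfl fun i _ => nf_row hm hT1 i r.2 (hv r.2) (hvB r.2) (hN i r.2) (gR i)
      (hfar i) (r.1 i), ← Finset.prod_pow, mul_assoc, mul_assoc, ← Finset.prod_mul_distrib,
      ← Finset.prod_mul_distrib]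
    congr 1
    refine Finset.prod_congr rfl fun i _ => ?_
    show _ = ptX (R i) ^ (r.1 i : ℕ) *
      (∏ t, ((cc i r.2 t)⁻¹ * pv (N i r.2 t) (R i)) ^ m) *
      (∏ j, (((dn (R i) : ℚ) / dn (R i - T' j)) ^ m) ^ e r.2 (π i j)) *
      (dn (R i) : ℚ) ^ (2 * T + m * T)
    ring

end MP3550b5.RG
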