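import Mathlib

/-!
Subgroups of lattices in boxes, and groups of dependent pairs.
-/

namespace MP3550b5.RG

open Module in
/-- A subgroup of rank at most `r` has few elements in a box. -/
theorem card_box_subgroup {l r : ℕ} (H : AddSubgroup (Fin l → ℤ))
    (hr : ∀ n : Fin (r + 1) → (Fin l → ℤ), (∀ i, n i ∈ H) → ¬ LinearIndependent ℤ n)
    (N : ℕ) (W : Finset (Fin l → ℤ)) (hW : ∀ w ∈ W, w ∈ H ∧ ∀ i, |w i| ≤ N) :
    W.card ≤ (2 * N + 1) ^ r := by
  classical
  let c : (Fin l → ℤ) →ₗ[ℤ] (Fin l → ℚ) :=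
    { toFun := fun w i => (w i : ℚ)
      map_add' := by intro a b; ext i; simp
      map_smul' := by intro a b; ext i; simp }
  have hc : ∀ w i, c w i = (w i : ℚ) := fun _ _ => rfl
  let V : Submodule ℚ (Fin l → ℚ) := Submodule.span ℚ (c '' (H : Set (Fin l → ℤ)))
  have hV : finrank ℚ V ≤ r := by
    by_contra hlt
    push Not at hlt
    obtain ⟨b, hb, hspan, hli⟩ := exists_linearIndependent ℚ (c '' (H : Set (Fin l → ℤ)))
    have hfin : b.Finite := hli.setFinite
    have := hfin.fintype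
    have hcard : finrank ℚ V = b.toFinset.card := by
      rw [← finrank_span_set_eq_card hli, hspan]
    have hcard2 : r + 1 ≤ Fintype.card b := by
      rw [← Set.toFinset_card, ← hcard]; exact hlt
    obtain ⟨e⟩ : Nonempty (Fin (r + 1) ↪ b) := by
      apply Function.Embedding.nonempty_of_card_le
      simpa using hcard2
    have hpre : ∀ i, ∃ w ∈ H, c w = (e i : Fin l → ℚ) := by
      intro i
      obtain ⟨w, hw, hw2⟩ := hb (e i).2
      exact ⟨w, hw, hw2⟩
    choose n hn hn2 using hpre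
    apply hr n hn
    have h1 : LinearIndependent ℚ (fun i => ((e i : b) : Fin l → ℚ)) := hli.comp _ e.injective
    have h2 : LinearIndependent ℤ (fun i => ((e i : b) : Fin l → ℚ)) := by
      apply h1.restrict_scalars
      intro a b hab
      simpa using hab
    have h3 : LinearIndependent ℤ (c ∘ n) := by
      have : (c ∘ n) = (fun i => ((e i : b) : Fin l → ℚ)) := by
        funext i; exact hn2 i
      rw [this]; exact h2
    exact LinearIndependent.of_comp c h3
  let f : Fin l → (V →ₗ[ℚ] ℚ) := fun i => (LinearMap.proj i).comp V.subtype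
  obtain ⟨b, hb, hspan, hli⟩ := exists_linearIndependent ℚ (Set.range f)
  have hfin : b.Finite := hli.setFinite
  have := hfin.fintype
  have hbr : Fintype.card b ≤ r := by
    have h1 : Fintype.card b ≤ finrank ℚ (V →ₗ[ℚ] ℚ) := hli.fintype_card_le_finrank
    have h2 : finrank ℚ (V →ₗ[ℚ] ℚ) = finrank ℚ V := Subspace.dual_finrank_eq
    omega
  have hidx : ∀ φ : b, ∃ i, f i = φ := fun φ => hb φ.2
  choose idx hidx using hidx
  have hsep : ∀ v : V, (∀ φ : b, f (idx φ) v = 0) → v = 0 := by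
    intro v hv
    have h1 : ∀ ψ ∈ Submodule.span ℚ b, ψ v = 0 := by
      intro ψ hψ
      induction hψ using Submodule.span_induction with
      | mem x hx =>
        have h := hidx ⟨x, hx⟩
        simp only at h
        rw [← h]
        exact hv ⟨x, hx⟩
      | zero => rfl
      | add x y _ _ hx hy => rw [LinearMap.add_apply, hx, hy, add_zero]
      | smul a x _ hx => rw [LinearMap.smul_apply, hx, smul_zero]
    ext i
    have h2 : f i v = 0 := by
      apply h1
      rw [hspan]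
      exact Submodule.subset_span ⟨i, rfl⟩
    exact h2
  have hmap : W.card ≤ (Fintype.piFinset (fun _ : b => Finset.Icc (-(N : ℤ)) N)).card := by
    apply Finset.card_le_card_of_injOn (fun w φ => w (idx φ))
    · intro w hw
      rw [Finset.mem_coe, Fintype.mem_piFinset]
      intro φ
      rw [Finset.mem_Icc, ← abs_le]
      exact (hW w hw).2 _
    · intro w hw w' hw' heq
      have hmem : c (w - w') ∈ V := Submodule.subset_span
        ⟨w - w', H.sub_mem (hW w hw).1 (hW w' hw').1, rfl⟩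
      have h0 := hsep ⟨c (w - w'), hmem⟩ (by
        intro φ
        change c (w - w') (idx φ) = 0
        rw [hc]
        have : w (idx φ) = w' (idx φ) := congrFun heq φ
        simp [this])
      have h1 : c (w - w') = 0 := congrArg Subtype.val h0
      funext i
      have h2 : ((w - w') i : ℚ) = 0 := by rw [← hc, h1]; rfl
      have h3 : (w - w') i = 0 := by exact_mod_cast h2
      exact sub_eq_zero.1 h3
  refine hmap.trans ?_
  rw [Fintype.card_piFinset, Finset.prod_const, Int.card_Icc, Finset.card_univ]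
  have h1 : ((N : ℤ) + 1 - -(N : ℤ)).toNat = 2 * N + 1 := by omega
  rw [h1]
  exact Nat.pow_le_pow_right (by omega) hbr

private theorem dpx_param {K V : Type} [Field K] [AddCommGroup V] [Module K V] {g0 g1 : V}
    {c d : K} (h0 : c ≠ 0 ∨ d ≠ 0) (h : c • g0 + d • g1 = 0) :
    ∃ z : V, g0 = d • z ∧ g1 = (-c) • z := by
  by_cases hd : d = 0
  · have hc : c ≠ 0 := h0.resolve_right (fun hn => hn hd)
    subst hd
    rw [zero_smul, add_zero, smul_eq_zero] at h
    refine ⟨-(c⁻¹ • g1), ?_, ?_⟩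
    · rw [h.resolve_left hc, zero_smul]
    · rw [smul_neg, neg_smul, neg_neg, smul_smul, mul_inv_cancel₀ hc, one_smul]
  · refine ⟨d⁻¹ • g0, ?_, ?_⟩
    · rw [smul_smul, mul_inv_cancel₀ hd, one_smul]
    · have h1 : d • g1 = (-c) • g0 := by
        rw [neg_smul]
        exact eq_neg_of_add_eq_zero_right h
      calc g1 = d⁻¹ • (d • g1) := by rw [smul_smul, inv_mul_cancel₀ hd, one_smul]
        _ = (-c) • (d⁻¹ • g0) := by rw [h1, smul_smul, smul_smul, mul_comm]

private theorem dpx_pair {K V : Type} [Field K] [AddCommGroup V] [Module K V] {x y : V}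
    {c d c' d' : K} (hD : c * d' - c' * d ≠ 0) (hx : x ≠ 0)
    (h : ∃ a b : K, (a ≠ 0 ∨ b ≠ 0) ∧ a • (d • x + d' • y) + b • ((-c) • x + (-c') • y) = 0) :
    ∃ l : K, y = l • x := by
  obtain ⟨a, b, hab, h⟩ := h
  have h1 : (a * d - b * c) • x + (a * d' - b * c') • y = 0 := by
    rw [← h]
    module
  have hn : a * d' - b * c' ≠ 0 := by
    intro hn
    rw [hn, zero_smul, add_zero, smul_eq_zero] at h1
    have hm := h1.resolve_right hx
    have e1 : a * (c * d' - c' * d) = 0 := by linear_combination c * hn - c' * hm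
    have e2 : b * (c * d' - c' * d) = 0 := by linear_combination d * hn - d' * hm
    rcases hab with h2 | h2
    · exact h2 ((mul_eq_zero.mp e1).resolve_right hD)
    · exact h2 ((mul_eq_zero.mp e2).resolve_right hD)
  refine ⟨-((a * d' - b * c')⁻¹ * (a * d - b * c)), ?_⟩
  have h2 : (a * d' - b * c') • y = -((a * d - b * c) • x) := eq_neg_of_add_eq_zero_right h1
  calc y = (a * d' - b * c')⁻¹ • ((a * d' - b * c') • y) := by
        rw [smul_smul, inv_mul_cancel₀ hn, one_smul]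
    _ = _ := by rw [h2, smul_neg, smul_smul, neg_smul]

private theorem dpx_core {K V : Type} [Field K] [AddCommGroup V] [Module K V]
    (S : Set (Fin 2 → V)) (hadd : ∀ g ∈ S, ∀ h ∈ S, g + h ∈ S)
    (hdep : ∀ g ∈ S, ∃ c d : K, (c ≠ 0 ∨ d ≠ 0) ∧ c • g 0 + d • g 1 = 0) :
    (∃ c d : K, (c ≠ 0 ∨ d ≠ 0) ∧ ∀ g ∈ S, c • g 0 + d • g 1 = 0) ∨
      ∃ x : V, ∀ g ∈ S, ∃ a b : K, g 0 = a • x ∧ g 1 = b • x := by
  by_cases hz : ∀ g ∈ S, g = 0
  · right
    refine ⟨0, fun g hg => ⟨0, 0, ?_, ?_⟩⟩ <;> rw [hz g hg] <;> simp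
  push Not at hz
  obtain ⟨f, hf, hf0⟩ := hz
  obtain ⟨c, d, hcd, hfr⟩ := hdep f hf
  by_cases hall : ∀ g ∈ S, c • g 0 + d • g 1 = 0
  · exact Or.inl ⟨c, d, hcd, hall⟩
  right
  push Not at hall
  obtain ⟨g, hg, hgr'⟩ := hall
  obtain ⟨c', d', hcd', hgr⟩ := hdep g hg
  obtain ⟨x, hx0, hx1⟩ := dpx_param hcd hfr
  obtain ⟨y, hy0, hy1⟩ := dpx_param hcd' hgr
  have hx : x ≠ 0 := by
    rintro rfl
    apply hf0
    funext i
    fin_cases i
    · simpa using hx0
    · simpa using hx1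
  have hy : y ≠ 0 := by
    rintro rfl
    apply hgr'
    rw [hy0, hy1]
    simp
  have hD : c * d' - c' * d ≠ 0 := by
    intro hD
    apply hgr'
    rw [hy0, hy1, smul_smul, smul_smul, ← add_smul]
    have : c * d' + d * -c' = 0 := by linear_combination hD
    rw [this, zero_smul]
  have hsum : ∀ h ∈ S, ∀ h' ∈ S, ∀ z z' : V, ∀ p q p' q' : K, h 0 = q • z → h 1 = (-p) • z →
      h' 0 = q' • z' → h' 1 = (-p') • z' →
      ∃ a b : K, (a ≠ 0 ∨ b ≠ 0) ∧ a • (q • z + q' • z') + b • ((-p) • z + (-p') • z') = 0 := by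
    intro h hh h' hh' z z' p q p' q' e1 e2 e3 e4
    obtain ⟨a, b, hab, hr⟩ := hdep (h + h') (hadd h hh h' hh')
    refine ⟨a, b, hab, ?_⟩
    rw [← e1, ← e2, ← e3, ← e4]
    exact hr
  obtain ⟨l, hl⟩ := dpx_pair hD hx (hsum f hf g hg x y c d c' d' hx0 hx1 hy0 hy1)
  refine ⟨x, fun h hh => ?_⟩
  obtain ⟨p, q, hpq, hr⟩ := hdep h hh
  obtain ⟨z, hz0, hz1⟩ := dpx_param hpq hr
  have hzx : ∃ m : K, z = m • x := by
    by_cases h1 : c * q - p * d = 0
    · have h2 : c' * q - p * d' ≠ 0 := by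
        intro h2
        have e1 : q * (c * d' - c' * d) = 0 := by linear_combination d' * h1 - d * h2
        have e2 : p * (c * d' - c' * d) = 0 := by linear_combination c' * h1 - c * h2
        rcases hpq with h3 | h3
        · exact h3 ((mul_eq_zero.mp e2).resolve_right hD)
        · exact h3 ((mul_eq_zero.mp e1).resolve_right hD)
      obtain ⟨m, hm⟩ := dpx_pair h2 hy (hsum g hg h hh y z c' d' p q hy0 hy1 hz0 hz1)
      exact ⟨m * l, by rw [hm, hl, smul_smul]⟩
    · exact dpx_pair h1 hx (hsum f hf h hh x z c d p q hx0 hx1 hz0 hz1)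
  obtain ⟨m, rfl⟩ := hzx
  exact ⟨q * m, -p * m, by rw [hz0, smul_smul], by rw [hz1, smul_smul]⟩

private theorem dpx_emb {G : Type} [AddCommGroup G] (htf : ∀ (n : ℤ) (x : G), n • x = 0 →
    n = 0 ∨ x = 0) :
    ∃ (V : Type) (_ : AddCommGroup V) (_ : Module ℚ V) (ι : G →+ V), Function.Injective ι := by
  refine ⟨LocalizedModule (nonZeroDivisors ℤ) G, inferInstance,
    Module.compHom _ (((FractionRing.algEquiv ℤ ℚ).symm : ℚ →+* FractionRing ℤ)),
    (LocalizedModule.mkLinearMap (nonZeroDivisors ℤ) G).toAddMonoidHom, ?_⟩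
  rw [injective_iff_map_eq_zero]
  intro x hx
  have h1 : LocalizedModule.mk x (1 : nonZeroDivisors ℤ) = LocalizedModule.mk (0 : G) 1 := by
    rw [LocalizedModule.zero_mk]
    exact hx
  rw [LocalizedModule.mk_eq] at h1
  obtain ⟨u, hu⟩ := h1
  rw [one_smul, smul_zero, smul_zero] at hu
  exact (htf _ _ hu).resolve_left (nonZeroDivisors.ne_zero u.2)

/-- A group of dependent pairs: either one relation for all pairs, or the rank is at most two. -/
theorem dependent_pairs {G : Type} [AddCommGroup G] (htf : ∀ (n : ℤ) (x : G), n • x = 0 →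
    n = 0 ∨ x = 0) (H : AddSubgroup (Fin 2 → G))
    (hdep : ∀ g ∈ H, ∃ c d : ℤ, (c ≠ 0 ∨ d ≠ 0) ∧ c • g 0 + d • g 1 = 0) :
    (∃ c d : ℤ, (c ≠ 0 ∨ d ≠ 0) ∧ ∀ g ∈ H, c • g 0 + d • g 1 = 0) ∨
      ∀ n : Fin 3 → (Fin 2 → G), (∀ i, n i ∈ H) → ¬ LinearIndependent ℤ n := by
  obtain ⟨V, _, _, ι, hι⟩ := dpx_emb htf
  have hsm : ∀ (c : ℤ) (v : V), (c : ℚ) • v = c • v := fun c v => Int.cast_smul_eq_zsmul ℚ c v
  have hcK : ∀ c : ℤ, c ≠ 0 → (c : ℚ) ≠ 0 := fun c hc => Int.cast_ne_zero.mpr hc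
  let ι2 : (Fin 2 → G) →ₗ[ℤ] (Fin 2 → V) := (ι.toIntLinearMap).compLeft (Fin 2)
  have hι2 : ∀ (g : Fin 2 → G) (i : Fin 2), ι2 g i = ι (g i) := fun g i => rfl
  have hι2i : Function.Injective ι2 := by
    intro g h e
    funext i
    apply hι
    rw [← hι2, ← hι2, e]
  rcases dpx_core (K := ℚ) (ι2 '' (H : Set (Fin 2 → G)))
    (by
      rintro _ ⟨g, hg, rfl⟩ _ ⟨h, hh, rfl⟩
      exact ⟨g + h, H.add_mem hg hh, map_add _ _ _⟩)
    (by
      rintro _ ⟨g, hg, rfl⟩
      obtain ⟨c, d, hcd, hr⟩ := hdep g hg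
      refine ⟨c, d, ?_, ?_⟩
      · rcases hcd with h | h
        · exact Or.inl (hcK c h)
        · exact Or.inr (hcK d h)
      · rw [hsm, hsm, hι2, hι2, ← map_zsmul, ← map_zsmul, ← map_add, hr, map_zero]) with h | h
  · left
    obtain ⟨c, d, hcd, hr⟩ := h
    refine ⟨c.num * d.den, d.num * c.den, ?_, fun g hg => ?_⟩
    · rcases hcd with h | h
      · left
        exact mul_ne_zero (Rat.num_ne_zero.mpr h) (Int.natCast_ne_zero.mpr d.den_nz)
      · right
        exact mul_ne_zero (Rat.num_ne_zero.mpr h) (Int.natCast_ne_zero.mpr c.den_nz)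
    · apply hι
      have h1 := hr _ ⟨g, hg, rfl⟩
      rw [hι2, hι2] at h1
      rw [map_zero, map_add, map_zsmul, map_zsmul, ← hsm, ← hsm]
      have e1 : ((c.num * d.den : ℤ) : ℚ) = (c.den * d.den : ℚ) * c := by
        push_cast
        have : (c.num : ℚ) = c.den * c := (Rat.den_mul_eq_num c).symm
        rw [this]; ring
      have e2 : ((d.num * c.den : ℤ) : ℚ) = (c.den * d.den : ℚ) * d := by
        push_cast
        have : (d.num : ℚ) = d.den * d := (Rat.den_mul_eq_num d).symm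
        rw [this]; ring
      rw [e1, e2, mul_smul, mul_smul _ d, ← smul_add, h1, smul_zero]
  · right
    intro n hn hli
    obtain ⟨x, hx⟩ := h
    choose a b hab using fun i : Fin 3 => hx (ι2 (n i)) ⟨n i, hn i, rfl⟩
    have h1 : LinearIndependent ℤ (ι2 ∘ n) :=
      hli.map' ι2 (LinearMap.ker_eq_bot.mpr hι2i)
    have h2 : LinearIndependent ℚ (ι2 ∘ n) := (LinearIndependent.iff_fractionRing ℤ ℚ).mp h1
    let L : (Fin 2 → ℚ) →ₗ[ℚ] (Fin 2 → V) := (LinearMap.toSpanSingleton ℚ V x).compLeft (Fin 2)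
    let w : Fin 3 → (Fin 2 → ℚ) := fun i => ![a i, b i]
    have h3 : ι2 ∘ n = L ∘ w := by
      funext i j
      fin_cases j
      · exact (hab i).1
      · exact (hab i).2
    rw [h3] at h2
    have h4 : LinearIndependent ℚ w := h2.of_comp L
    have h5 := h4.fintype_card_le_finrank
    simp at h5

end MP3550b5.RG
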