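import Mathlib
import Pool.Agent.Lib.MP_3550b5_nt.RG.Main
import Pool.Agent.Lib.MP_3550b5_nt.RG.PadN
import Pool.Agent.Lib.MP_3550b5_nt.RG.FunN
import Pool.Agent.Lib.MP_3550b5_nt.RG.TensP

/-!
The main inequality for tuples.
-/

namespace MP3550b5.RG

open Pool.Agent.Lib.MP_3550b5_nt WeierstrassCurve.Affine

open scoped Pointwise

variable {p : ℕ} [hp : Fact p.Prime] {a b : ℤ}

/-- The tuple of points with the coordinates `n`. -/
noncomputable def ptN {d l : ℕ} (P : Fin d → Fin l → (curve a b).Point)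
    (hP : ∀ i j, P i j ∈ goodGroup p a b) : (Fin l → ℤ) →+ (Fin d → goodGroup p a b) where
  toFun n := fun i => ⟨lin (P i) n, by rw [lin_apply]; exact sum_mem fun j _ => zsmul_mem (hP i j) _⟩
  map_zero' := by
    funext i
    apply Subtype.ext
    show lin (P i) 0 = 0
    exact map_zero _
  map_add' n n' := by
    funext i
    apply Subtype.ext
    show lin (P i) (n + n') = lin (P i) n + lin (P i) n'
    exact map_add _ _ _

lemma ptN_coe {d l : ℕ} (P : Fin d → Fin l → (curve a b).Point)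
    (hP : ∀ i j, P i j ∈ goodGroup p a b) (n : Fin l → ℤ) (i : Fin d) :
    (ptN P hP n i : (curve a b).Point) = lin (P i) n := rfl

/-- The box of tuples. -/
noncomputable def boxN {d l : ℕ} (P : Fin d → Fin l → (curve a b).Point)
    (hP : ∀ i j, P i j ∈ goodGroup p a b) (N : ℕ) : Finset (Fin d → goodGroup p a b) :=
  open scoped Classical in (bigBox l N).image (ptN P hP)

lemma mem_boxN {d l : ℕ} {P : Fin d → Fin l → (curve a b).Point}
    {hP : ∀ i j, P i j ∈ goodGroup p a b} {N : ℕ} {v : Fin d → goodGroup p a b} :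
    v ∈ boxN P hP N ↔ ∃ n ∈ bigBox l N, ptN P hP n = v := by
  classical
  rw [boxN, Finset.mem_image]

lemma nsmul_boxN {d l : ℕ} {P : Fin d → Fin l → (curve a b).Point}
    {hP : ∀ i j, P i j ∈ goodGroup p a b} (N e : ℕ) {v : Fin d → goodGroup p a b}
    (hv : v ∈ e • (boxN P hP N : Set (Fin d → goodGroup p a b))) :
    ∃ n ∈ bigBox l (e * N), ptN P hP n = v := by
  induction e generalizing v with
  | zero =>
    rw [zero_smul, Set.mem_zero] at hv
    refine ⟨0, mem_bigBox.mpr fun i => ?_, by rw [map_zero, hv]⟩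
    simp
  | succ e ih =>
    rw [succ_nsmul, Set.mem_add] at hv
    obtain ⟨u, hu, w, hw, rfl⟩ := hv
    obtain ⟨n, hn, h1⟩ := ih hu
    obtain ⟨n', hn', h2⟩ := mem_boxN.mp (Finset.mem_coe.mp hw)
    refine ⟨n + n', mem_bigBox.mpr fun i => ?_, by rw [map_add, h1, h2]⟩
    have e1 := mem_bigBox.mp hn i
    have e2 := mem_bigBox.mp hn' i
    rw [Pi.add_apply]
    push_cast at e1 ⊢
    constructor <;> linarith [e1.1, e1.2, e2.1, e2.2]

/-- The conclusion of a zero estimate with classes: `Good H x y` says that the subgroup `H` may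
occur with the exponent `x` and that it will have rank at most `y`. -/
def ZeroEstN (p : ℕ) [Fact p.Prime] (a b : ℤ) (m : ℕ) {d s : ℕ}
    (X' : Fin d → Fin s → (curve a b).Point)
    (Good : AddSubgroup (Fin d → goodGroup p a b) → ℕ → ℕ → Prop) : Prop :=
  ∃ C : ℕ, ∀ K : ℕ, 1 ≤ K → ∀ V : Finset (Fin d → goodGroup p a b), 0 ∈ V →
    ∀ T₀ : Fin d → (curve a b).Point, (∀ i, T₀ i ∈ goodGroup p a b) →
    (∀ v ∈ (2 * d + s) • (V : Set (Fin d → goodGroup p a b)),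
      ∀ w ∈ (2 * d + s) • (V : Set (Fin d → goodGroup p a b)),
        GoodPair (p := p) X' T₀ v (w - v)) →
    ∀ f : An a b d s, f ≠ 0 → HasLift K f →
    (∀ v ∈ (2 * d + s) • (V : Set (Fin d → goodGroup p a b)),
      f ∈ mA m (dbl X') (sh T₀ (gc v))) →
    ∃ (H : AddSubgroup (Fin d → goodGroup p a b)) (x y : ℕ), Good H x y ∧
      ∃ w ∈ V, ∃ W ⊆ V, (∀ w' ∈ W, w' - w ∈ H) ∧ V.card ≤ C * K ^ x * W.card

/-- The main inequality for tuples. -/
theorem tuple_core (hp5 : 5 ≤ p) (hΔ : 4 * a ^ 3 + 27 * b ^ 2 ≠ 0)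
    {Bh : (curve a b).Point → (curve a b).Point → ℚ_[p]}
    (hB : IsCanonicalHeight p a b Bh) {d n l s ρ Bd : ℕ} (hd : 1 ≤ d) (hn2 : 2 ≤ n)
    (hs : ρ + 1 = s) {π : Fin d → Fin n → Fin s} (hπ : ∀ i, Function.Injective (π i))
    {P : Fin d → Fin l → (curve a b).Point} (hP : ∀ i j, P i j ∈ goodGroup p a b)
    (hindP : ∀ n : Fin l → ℤ, (∀ i, lin (P i) n = 0) → n = 0)
    {T' : Fin n → (curve a b).Point} (hT' : ∀ j, T' j ∈ goodGroup p a b)
    (hindT : ∀ c : Fin n → ℤ, lin T' c = 0 → c = 0)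
    (hBp : ∀ i j k, ∃ β : ℤ_[p], (p : ℤ_[p]) ^ 2 ∣ β ∧
      (β : ℚ_[p]) = Bh (P i j) (TX π (fun j => T' j + T' j) i k))
    {x : Fin l → Fin ρ → ℤ_[p]} {y : Fin s → Fin ρ → ℤ_[p]}
    (hx : ∀ j t, (p : ℤ_[p]) ∣ x j t) (hy : ∀ k t, (p : ℤ_[p]) ∣ y k t)
    (hxy : ∀ j k, ((∑ t, x j t * y k t : ℤ_[p]) : ℚ_[p]) =
      ∑ i, Bh (P i j) (TX π (fun j => T' j + T' j) i k))
    (hne : ∃ t : Fin l → ℤ, ∀ i, lin (P i) t ≠ 0)
    (Good : AddSubgroup (Fin d → goodGroup p a b) → ℕ → ℕ → Prop)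
    (hZ : ZeroEstN p a b (p - 1) (TX π T') Good)
    (hH : ∀ H x y, Good H x y → (∀ n : Fin (y + 1) → (Fin l → ℤ), (∀ i, ptN P hP (n i) ∈ H) →
      ¬ LinearIndependent ℤ n) ∧ (2 * d + s - 1) * x + y ≤ Bd) : l ≤ Bd := by
  classical
  by_contra hcon
  push Not at hcon
  obtain ⟨q, C, c, hq, hnn, hC, hc, hc', hup, han, hlow⟩ := exists_arch2 hΔ
  obtain ⟨T'', hT''d⟩ : ∃ T'' : Fin n → (curve a b).Point, T'' = fun j => T' j + T' j := ⟨_, rfl⟩
  rw [← hT''d] at hBp hxy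
  have hT'' : ∀ j, T'' j ∈ goodGroup p a b := by
    intro j; rw [hT''d]; exact add_mem (hT' j) (hT' j)
  have hlinT'' : ∀ c : Fin n → ℤ, lin T'' c = lin T' (c + c) := by
    intro c
    rw [lin_apply, lin_apply, hT''d]
    refine Finset.sum_congr rfl fun j _ => ?_
    show c j • (T' j + T' j) = (c j + c j) • T' j
    rw [add_zsmul, zsmul_add]
  have hindT'' : ∀ c : Fin n → ℤ, lin T'' c = 0 → c = 0 := by
    intro c hc
    rw [hlinT''] at hc
    have h1 := hindT _ hc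
    funext j
    have h2 := congrFun h1 j
    simp only [Pi.add_apply, Pi.zero_apply] at h2 ⊢
    omega
  have hQ : ∀ i k, TX π T'' i k ∈ goodGroup p a b := fun i k => TX_good hT'' i k
  have hlin0 : ∀ i (v : Fin s → ℤ), (∀ k, 1 ≤ v k) → lin (TX π T'' i) v ≠ 0 := by
    intro i v hv h0
    rw [lin_TX] at h0
    have h1 := congrFun (hindT'' _ h0) ⟨0, by omega⟩
    have h2 := hv (π i ⟨0, by omega⟩)
    simp only [Pi.zero_apply] at h1
    omega
  have hm : Even (p - 1) := by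
    have hodd : Odd p := hp.out.odd_of_ne_two (by omega)
    obtain ⟨k, hk⟩ := hodd
    exact ⟨k, by omega⟩
  -- heights
  choose CP hCP0 hCP using fun i => quad_lin_le hq hnn (P i)
  obtain ⟨CQ, hCQ0, hCQ⟩ := quad_lin_le hq hnn T''
  choose CR hCR0 hCR using fun i => quad_lin_le hq hnn (TX π T'' i)
  obtain ⟨t, ht⟩ := hne
  have htors : ∀ i, 0 < q (lin (P i) t) := by
    intro i
    have hg : lin (P i) t ∈ goodGroup p a b := by
      rw [lin_apply]; exact sum_mem fun j _ => zsmul_mem (hP i j) _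
    exact lt_of_lt_of_le hc (hc' _ (good_not_torsion hg (ht i)))
  have hq₁le : ∀ i, c ≤ q (lin (P i) t) := by
    intro i
    have hg : lin (P i) t ∈ goodGroup p a b := by
      rw [lin_apply]; exact sum_mem fun j _ => zsmul_mem (hP i j) _
    exact hc' _ (good_not_torsion hg (ht i))
  obtain ⟨e, he⟩ : ∃ e : ℕ, e = 2 * d + s := ⟨_, rfl⟩
  obtain ⟨SP, hSP⟩ : ∃ SP : ℝ, SP = ∑ i, CP i := ⟨_, rfl⟩
  obtain ⟨SR, hSR⟩ : ∃ SR : ℝ, SR = ∑ i, CR i := ⟨_, rfl⟩
  obtain ⟨SX, hSX⟩ : ∃ SX : ℝ, SX = q 0 + ∑ i, ∑ k, q (TX π T' i k) := ⟨_, rfl⟩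
  have hSP0 : 0 ≤ SP := by rw [hSP]; exact Finset.sum_nonneg fun i _ => hCP0 i
  have hSR0 : 0 ≤ SR := by rw [hSR]; exact Finset.sum_nonneg fun i _ => hCR0 i
  have hSX0 : 0 ≤ SX := by
    rw [hSX]
    exact add_nonneg (hnn _) (Finset.sum_nonneg fun i _ => Finset.sum_nonneg fun k _ => hnn _)
  have hCPS : ∀ i, CP i ≤ SP := fun i => by
    rw [hSP]
    exact Finset.single_le_sum (f := CP) (fun i _ => hCP0 i) (Finset.mem_univ i)
  have hCRS : ∀ i, CR i ≤ SR := fun i => by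
    rw [hSR]
    exact Finset.single_le_sum (f := CR) (fun i _ => hCR0 i) (Finset.mem_univ i)
  have hXS : ∀ i k, q (TX π T' i k) ≤ SX := fun i k => by
    have h1 : q (TX π T' i k) ≤ ∑ k, q (TX π T' i k) :=
      Finset.single_le_sum (f := fun k => q (TX π T' i k)) (fun _ _ => hnn _) (Finset.mem_univ k)
    have h2 : ∑ k, q (TX π T' i k) ≤ ∑ i, ∑ k, q (TX π T' i k) :=
      Finset.single_le_sum (f := fun i => ∑ k, q (TX π T' i k))
        (fun _ _ => Finset.sum_nonneg fun _ _ => hnn _) (Finset.mem_univ i)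
    have h3 := hnn 0
    rw [hSX]
    linarith
  obtain ⟨A₀, hA₀⟩ : ∃ A₀ : ℝ, A₀ = SP * e ^ 2 + (CQ + SR) * 3 ^ 2 + SX := ⟨_, rfl⟩
  have hA₀0 : 0 ≤ A₀ := by rw [hA₀]; positivity
  obtain ⟨K₁, hK₁⟩ : ∃ K₁ : ℕ, 80 * A₀ < (K₁ : ℝ) ^ 2 * c := by
    obtain ⟨k, hk⟩ := exists_nat_gt (80 * A₀ / c)
    refine ⟨k + 1, ?_⟩
    rw [div_lt_iff₀ hc] at hk
    have h1 : (k : ℝ) ≤ ((k + 1 : ℕ) : ℝ) ^ 2 := by
      push_cast
      have : (0 : ℝ) ≤ k := Nat.cast_nonneg _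
      nlinarith
    have h2 := mul_le_mul_of_nonneg_right h1 hc.le
    linarith
  obtain ⟨M, hM⟩ : ∃ M : ℕ, ∀ j, |t j| ≤ M := by
    refine ⟨∑ j, (t j).natAbs, fun j => ?_⟩
    rw [Int.abs_eq_natAbs]
    exact_mod_cast Finset.single_le_sum (f := fun j => (t j).natAbs) (fun _ _ => Nat.zero_le _)
      (Finset.mem_univ j)
  obtain ⟨K₀, hK₀⟩ : ∃ K₀ : ℕ, K₀ = K₁ * M + 2 * e := ⟨_, rfl⟩
  obtain ⟨C₁, hC₁⟩ := exists_padN hp5 hΔ hB hd hs hP hQ hlin0 hBp hx hy hxy K₀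
  obtain ⟨C₂, hC₂⟩ := exists_funN (p := p) twoTerm hn2 hπ hT'' hindT'' hm
  obtain ⟨C₃, hC₃⟩ := hZ
  -- the parameter
  obtain ⟨b₀, hb₀⟩ : ∃ b₀ : ℕ, b₀ = (C₂ + 1) * (2 * C₁ + 1) := ⟨_, rfl⟩
  have hb₀1 : 1 ≤ b₀ := by rw [hb₀]; exact Nat.mul_pos (by omega) (by omega)
  obtain ⟨J, hJ⟩ : ∃ J : ℕ, J = C₃ * b₀ ^ Bd * 5 ^ Bd := ⟨_, rfl⟩
  obtain ⟨N, hN⟩ : ∃ N : ℕ, N = J + 1 := ⟨_, rfl⟩
  have hN1 : 1 ≤ N := by omega
  obtain ⟨T, hT1, hTC, v₀, hv₀, hpad⟩ := hC₁ N hN1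
  obtain ⟨f, hf0, hfl, hfv⟩ := hC₂ T (N + 1) hT1 (by omega) v₀ hv₀
  have hNr : (1 : ℝ) ≤ N := by exact_mod_cast hN1
  have hN2 : (1 : ℝ) ≤ (N : ℝ) ^ 2 := one_le_pow₀ hNr
  obtain ⟨A, hA⟩ : ∃ A : ℝ, A = A₀ * N ^ 2 := ⟨_, rfl⟩
  have hbP : ∀ i, ∀ n ∈ bigBox l (e * N), q (lin (P i) n) ≤ A := by
    intro i n hn
    have h0 : ∀ j, |(n j : ℝ)| ≤ ((e * N : ℕ) : ℝ) := by
      intro j
      have h2 := mem_bigBox.mp hn j
      rw [abs_le]
      constructor
      · exact_mod_cast h2.1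
      · exact_mod_cast h2.2
    rw [lin_apply]
    refine (hCP i n _ h0).trans ?_
    rw [hA, hA₀]
    push_cast
    have h2 : 0 ≤ ((CQ + SR) * 3 ^ 2 + SX) * (N : ℝ) ^ 2 := by positivity
    have h3 : CP i * (e * (N : ℝ)) ^ 2 ≤ SP * (e * (N : ℝ)) ^ 2 :=
      mul_le_mul_of_nonneg_right (hCPS i) (by positivity)
    nlinarith
  have hA₀A : A₀ ≤ A := by
    rw [hA]; exact le_mul_of_one_le_right hA₀0 hN2
  have hSXA : SX ≤ A := by
    have h3 : 0 ≤ SP * (e : ℝ) ^ 2 + (CQ + SR) * 3 ^ 2 := by positivity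
    linarith
  have hbX : ∀ i k, q (TX π T' i k) ≤ A := fun i k => (hXS i k).trans hSXA
  have hbQ : ∀ w : Fin n → ℤ, (∀ j, |w j| ≤ ((N + 1 + 1 : ℕ) : ℤ)) → q (lin T'' w) ≤ A := by
    intro w hw
    rw [lin_apply]
    have h1 := hCQ w (3 * N) (fun j => by
      have h2 : |w j| ≤ 3 * (N : ℤ) := by
        have := hw j
        push_cast at this
        omega
      exact_mod_cast h2)
    refine h1.trans ?_
    rw [hA, hA₀, mul_pow]
    have h2 : 0 ≤ (SP * (e : ℝ) ^ 2 + SR * 3 ^ 2 + SX) * (N : ℝ) ^ 2 := by positivity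
    nlinarith
  have hbR : ∀ i, ∀ w : Fin s → ℤ, (∀ j, |w j| ≤ ((N + 1 : ℕ) : ℤ)) →
      q (lin (TX π T'' i) w) ≤ A := by
    intro i w hw
    rw [lin_apply]
    have h1 := hCR i w (3 * N) (fun j => by
      have h2 : |w j| ≤ 3 * (N : ℤ) := by
        have := hw j
        push_cast at this
        omega
      exact_mod_cast h2)
    refine h1.trans ?_
    rw [hA, hA₀]
    have h2 : 0 ≤ (SP * (e : ℝ) ^ 2 + CQ * 3 ^ 2 + SX) * (N : ℝ) ^ 2 := by positivity
    have h3 : CR i * (3 * (N : ℝ)) ^ 2 ≤ SR * (3 * (N : ℝ)) ^ 2 :=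
      mul_le_mul_of_nonneg_right (hCRS i) (by positivity)
    nlinarith
  obtain ⟨t₀, ht₀⟩ : ∃ t₀ : Fin l → ℤ, t₀ = ((K₁ * N : ℕ) : ℤ) • t := ⟨_, rfl⟩
  obtain ⟨T₀, hT₀⟩ : ∃ T₀ : Fin d → (curve a b).Point, T₀ = fun i => lin (P i) t₀ := ⟨_, rfl⟩
  have hqT : ∀ i, 80 * A < q (T₀ i) := by
    intro i
    rw [hT₀]
    show 80 * A < q (lin (P i) t₀)
    rw [ht₀, map_zsmul, quad_zsmul hq, hA]
    have h1 : 80 * A₀ * (N : ℝ) ^ 2 < (K₁ : ℝ) ^ 2 * c * (N : ℝ) ^ 2 :=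
      mul_lt_mul_of_pos_right hK₁ (by positivity)
    have h2 : (K₁ : ℝ) ^ 2 * c * (N : ℝ) ^ 2 ≤ (K₁ : ℝ) ^ 2 * (N : ℝ) ^ 2 * q (lin (P i) t) := by
      have := mul_le_mul_of_nonneg_left (hq₁le i)
        (by positivity : (0 : ℝ) ≤ (K₁ : ℝ) ^ 2 * (N : ℝ) ^ 2)
      linarith
    push_cast
    nlinarith
  have hT₀g : ∀ i, T₀ i ∈ goodGroup p a b := by
    intro i
    rw [hT₀]
    show lin (P i) t₀ ∈ _
    rw [lin_apply]; exact sum_mem fun j _ => zsmul_mem (hP i j) _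
  rw [← he] at hC₃
  have hVP : ∀ v ∈ e • (boxN P hP N : Set (Fin d → goodGroup p a b)), ∃ n ∈ bigBox l (e * N),
      ptN P hP n = v := fun v hv => nsmul_boxN N e hv
  have hfar : ∀ v ∈ e • (boxN P hP N : Set (Fin d → goodGroup p a b)),
      ∀ w ∈ e • (boxN P hP N : Set (Fin d → goodGroup p a b)), ∀ i,
      T₀ i + ((v i : (curve a b).Point) + v i) ∉ Ex (TX π T' i)
        ((w i : (curve a b).Point) - v i) := by
    intro v hv w hw i
    obtain ⟨n, hn, rfl⟩ := hVP v hv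
    obtain ⟨n', hn', rfl⟩ := hVP w hw
    rw [ptN_coe, ptN_coe]
    exact far_Ex hq hnn (hbP i n hn) (hbP i n' hn') (hbX i) (hqT i)
  have hKK : 1 ≤ (C₂ + 1) * (T * (N + 1)) :=
    Nat.mul_pos (by omega) (Nat.mul_pos hT1 (by omega))
  have hzero := hC₃ ((C₂ + 1) * (T * (N + 1))) hKK (boxN P hP N) (mem_boxN.mpr ⟨0,
    mem_bigBox.mpr fun i => by simp, map_zero _⟩) T₀ hT₀g ?_ f hf0 (hfl.mono (by nlinarith)) ?_
  · -- conclusion
    have hinjP : Function.Injective (ptN P hP) := by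
      intro n n' h
      have h1 : n - n' = 0 := hindP _ fun i => by
        have h2 := congrArg Subtype.val (congrFun h i)
        rw [ptN_coe, ptN_coe] at h2
        rw [map_sub, h2, sub_self]
      exact sub_eq_zero.mp h1
    have hcardV : (boxN P hP N).card = (2 * N + 1) ^ l := by
      rw [boxN, Finset.card_image_of_injective _ hinjP, card_bigBox]
    obtain ⟨κ, hκ⟩ : ∃ κ : ℕ, κ = 2 * d + s - 1 := ⟨_, rfl⟩
    have hκ1 : 1 ≤ κ := by omega
    have h2 : T * (N + 1) ≤ (2 * C₁ + 1) * N ^ κ := by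
      have e1 : κ = (2 * d + s - 2) + 1 := by omega
      calc T * (N + 1) ≤ (C₁ * N ^ (2 * d + s - 2)) * (2 * N) := Nat.mul_le_mul hTC (by omega)
        _ = 2 * C₁ * N ^ κ := by rw [e1, pow_succ]; ring
        _ ≤ (2 * C₁ + 1) * N ^ κ := Nat.mul_le_mul_right _ (by omega)
    have hK : (C₂ + 1) * (T * (N + 1)) ≤ b₀ * N ^ κ := by
      rw [hb₀, mul_assoc (C₂ + 1)]
      exact Nat.mul_le_mul_left _ h2
    obtain ⟨H, x', y', hgood, w, hw, W, hWV, hWH, hcard⟩ := hzero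
    obtain ⟨hH1, hH2⟩ := hH H x' y' hgood
    rw [← hκ] at hH2
    have hx' : x' ≤ Bd := by nlinarith
    have hy' : y' ≤ Bd := by omega
    obtain ⟨nw, hnw, hnw'⟩ := mem_boxN.mp hw
    have hWc : W.card ≤ (2 * (2 * N) + 1) ^ y' := by
      obtain ⟨W', hW'⟩ : ∃ W' : Finset (Fin l → ℤ), W' = ((bigBox l N).filter
        fun n => ptN P hP n ∈ W).image fun n => n - nw := ⟨_, rfl⟩
      have hcard' : W.card ≤ W'.card := by
        have hsurj : W ⊆ W'.image fun z => ptN P hP (z + nw) := by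
          intro v hv
          obtain ⟨n, hn, h5⟩ := mem_boxN.mp (hWV hv)
          rw [Finset.mem_image]
          refine ⟨n - nw, ?_, by rw [sub_add_cancel, h5]⟩
          rw [hW', Finset.mem_image]
          exact ⟨n, Finset.mem_filter.mpr ⟨hn, by rw [h5]; exact hv⟩, rfl⟩
        exact (Finset.card_le_card hsurj).trans Finset.card_image_le
      refine hcard'.trans ?_
      refine card_box_subgroup (H.comap (ptN P hP)) (r := y') (fun n hn => hH1 n hn) (2 * N)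
        W' ?_
      intro z hz
      rw [hW', Finset.mem_image] at hz
      obtain ⟨n, hn, rfl⟩ := hz
      obtain ⟨hn1, hn2⟩ := Finset.mem_filter.mp hn
      refine ⟨?_, fun i => ?_⟩
      · rw [AddSubgroup.mem_comap, map_sub, hnw']
        exact hWH _ hn2
      · have e1 := mem_bigBox.mp hn1 i
        have e2 := mem_bigBox.mp hnw i
        rw [Pi.sub_apply, abs_le]
        push_cast
        constructor <;> linarith [e1.1, e1.2, e2.1, e2.2]
    have hfin : N ^ (Bd + 1) ≤ J * N ^ Bd := by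
      calc N ^ (Bd + 1) ≤ N ^ l := Nat.pow_le_pow_right hN1 hcon
        _ ≤ (2 * N + 1) ^ l := Nat.pow_le_pow_left (by omega) l
        _ = (boxN P hP N).card := hcardV.symm
        _ ≤ C₃ * ((C₂ + 1) * (T * (N + 1))) ^ x' * W.card := hcard
        _ ≤ C₃ * (b₀ * N ^ κ) ^ x' * (5 * N) ^ y' := by
            gcongr
            exact hWc.trans (Nat.pow_le_pow_left (by omega) y')
        _ = C₃ * b₀ ^ x' * 5 ^ y' * N ^ (κ * x' + y') := by
            rw [mul_pow, mul_pow, pow_add, pow_mul]; ring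
        _ ≤ C₃ * b₀ ^ Bd * 5 ^ Bd * N ^ Bd := by
            gcongr
            all_goals norm_num
        _ = J * N ^ Bd := by rw [hJ]
    rw [pow_succ'] at hfin
    have := Nat.le_of_mul_le_mul_right hfin (pow_pos hN1 _)
    omega
  · -- general position
    intro v hv w hw
    refine ⟨fun i => ?_, fun i => ?_⟩
    · exact hfar v hv w hw i
    · have h1 := hfar w hw v hv i
      have h2 : v + (w - v) = w := by abel
      have h3 : -(w - v) = v - w := by abel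
      rw [h2, h3]
      exact h1
  · -- zeros
    intro v hv
    obtain ⟨n, hn, hnv⟩ := hVP v hv
    obtain ⟨R, hRd⟩ : ∃ R : Fin d → (curve a b).Point, R = sh T₀ (gc v) := ⟨_, rfl⟩
    rw [← hRd]
    have hRi : ∀ i, R i = T₀ i + (lin (P i) n + lin (P i) n) := by
      intro i
      rw [hRd, ← hnv]
      rfl
    have hRg : ∀ i, R i ∈ goodGroup p a b := by
      intro i
      rw [hRd]
      exact sh_good hT₀g v i
    have hv1 : ∀ i, q (lin (P i) n) ≤ A := fun i => hbP i n hn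
    have hne1 : ∀ i z, q z ≤ A → R i ≠ z ∧ R i ≠ -z := by
      intro i z hz
      constructor
      · intro h0
        refine ne_combo hq hnn (hv1 i) hz hz (hqT i) (-2) 1 0 (by norm_num) ?_
        rw [hRi] at h0
        rw [eq_sub_of_add_eq h0]
        module
      · intro h0
        refine ne_combo hq hnn (hv1 i) hz hz (hqT i) (-2) (-1) 0 (by norm_num) ?_
        rw [hRi] at h0
        rw [eq_sub_of_add_eq h0]
        module
    have hR0 : ∀ i, R i ≠ 0 := by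
      intro i
      refine (hne1 i 0 ?_).1
      have h3 : q 0 ≤ SX := by
        rw [hSX]
        have : 0 ≤ ∑ i, ∑ k, q (TX π T' i k) :=
          Finset.sum_nonneg fun i _ => Finset.sum_nonneg fun k _ => hnn _
        linarith
      linarith
    have hRlin : ∀ i, R i = lin (P i) (t₀ + (n + n)) := by
      intro i
      rw [hRi, hT₀, map_add, map_add]
    have hfine : ∀ i, Fine (TX π T'' i) (N + 1) (lin (P i) (t₀ + (n + n))) := by
      intro i
      rw [← hRlin]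
      refine ⟨hR0 i, fun w hw => ?_⟩
      have hw' : ∀ j, |w j| ≤ ((N + 1 : ℕ) : ℤ) := by
        intro j
        have := hw j
        rw [abs_le]
        push_cast at this ⊢
        constructor <;> omega
      have hw0 : lin (TX π T'' i) w ≠ 0 := hlin0 i w fun k => (hw k).1
      have h4 := hne1 i _ (hbR i w hw')
      exact X_ne_of (hR0 i) hw0 h4.1 h4.2
    have hsum := hpad (t₀ + (n + n)) ?_ hfine
    · have hval := hfv R hRg (fun i w hw => (hne1 i _ (hbQ w fun j => by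
        exact_mod_cast hw j)).1) hR0
      have hfun : (fun i => lin (P i) (t₀ + (n + n))) = R := by
        funext i
        exact (hRlin i).symm
      rw [hfun] at hsum
      have hsum' : ∑ r, v₀ r * rowN (p - 1) T (TX π T'') r R = 0 := hsum
      rw [hsum', Int.cast_zero] at hval
      have hdn : (∏ i, (dn (R i) : ℚ)) ^ (2 * T + (p - 1) * T) ≠ 0 :=
        pow_ne_zero _ (Finset.prod_ne_zero_iff.mpr fun i _ => dn_ne_zero (hR0 i))
      have h0 := (mul_eq_zero.mp hval).resolve_right hdn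
      rw [dbl_TX, ← hT''d, mem_mA hR0]
      exact h0
    · rw [mem_bigBox]
      intro i
      have h2 := mem_bigBox.mp hn i
      have h3 : |t₀ i| ≤ ((K₁ * N : ℕ) : ℤ) * M := by
        rw [ht₀, Pi.smul_apply, smul_eq_mul, abs_mul, Nat.abs_cast]
        exact mul_le_mul_of_nonneg_left (hM i) (Int.natCast_nonneg _)
      rw [abs_le] at h3
      rw [Pi.add_apply, Pi.add_apply, hK₀]
      obtain ⟨z, hz⟩ : ∃ z : ℤ, z = n i := ⟨_, rfl⟩
      obtain ⟨z', hz'⟩ : ∃ z : ℤ, z = t₀ i := ⟨_, rfl⟩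
      obtain ⟨E, hE⟩ : ∃ E : ℤ, E = ((K₁ * N : ℕ) : ℤ) * M := ⟨_, rfl⟩
      obtain ⟨D, hD⟩ : ∃ D : ℤ, D = (e : ℤ) * N := ⟨_, rfl⟩
      have e1 : (((K₁ * M + 2 * e) * N : ℕ) : ℤ) = E + 2 * D := by
        rw [hE, hD]; push_cast; ring
      rw [e1, ← hz, ← hz']
      rw [← hE, ← hz'] at h3
      push_cast at h2
      rw [← hz, ← hD] at h2
      constructor
      · linarith [h2.1, h3.1]
      · linarith [h2.2, h3.2]

end MP3550b5.RG
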