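import Mathlib
import Pool.Agent.Lib.MP_3550b5_nt.RG.Data
import Pool.Agent.Lib.MP_3550b5_nt.NRow

/-!
The case of two elliptic factors: definitions.
-/

namespace MP3550b5.RG

open Pool.Agent.Lib.MP_3550b5_nt WeierstrassCurve.Affine

variable {p : ℕ} [hp : Fact p.Prime] {a b : ℤ} {n s m : ℕ}

/-- The classes of the three fibre coordinates: `(R₁, 0)`, `(0, R₂)`, `(R₂, R₁)`. -/
def PX (R₁ R₂ : (curve a b).Point) : Fin 2 → Fin 3 → (curve a b).Point :=
  ![![R₁, 0, R₂], ![0, R₂, R₁]]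

/-- The functions of the construction for pairs. -/
noncomputable def rowP (m T : ℕ) {N : ℕ} (Q : Fin 2 → Fin 3 → (curve a b).Point)
    (r : Fin (T + 1) × Fin (T + 1) × (Fin 3 → Fin N)) (R : Fin 2 → (curve a b).Point) : ℤ :=
  rowF m T (Q 0) r.1 r.2.2 (R 0) * rowF m T (Q 1) r.2.1 r.2.2 (R 1)

/-- No nonzero function vanishes at almost all points of an orbit `T + 2 j g` (the points over
which a coordinate is `0` do not count). -/
def Orbit (p : ℕ) [Fact p.Prime] (a b : ℤ) (n s m : ℕ)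
    (X' : Fin n → Fin s → (curve a b).Point) (g : Fin n → goodGroup p a b) : Prop :=
  ∀ T : Fin n → (curve a b).Point, (∀ i, T i ∈ goodGroup p a b) → ∀ f : An a b n s, f ≠ 0 →
    {j : ℕ | f ∉ mA m (dbl X') (sh T (gc (j • g)))}.Infinite

lemma dbl_PX (R₁ R₂ : (curve a b).Point) : dbl (PX R₁ R₂) = PX (R₁ + R₁) (R₂ + R₂) := by
  funext i k
  fin_cases i <;> fin_cases k <;> simp [dbl, PX]

end MP3550b5.RG
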