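import Mathlib
import Pool.Agent.Lib.MP_3550b5_nt.RG.Pair
import Pool.Agent.Lib.MP_3550b5_nt.RG.ZeroC

/-!
A function which vanishes along almost all of an orbit gives an eigenfunction of all translations.
-/

set_option linter.unusedSectionVars false

namespace MP3550b5.RG

open Pool.Agent.Lib.MP_3550b5_nt WeierstrassCurve.Affine

variable {p : ℕ} [hp : Fact p.Prime] {a b : ℤ} {n s m : ℕ}

/-- Every nonzero function on the base is nonzero at infinitely many points `T + 2 j g`. -/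
def Dense (T : Fin n → (curve a b).Point) (g : Fin n → goodGroup p a b) : Prop :=
  ∀ z : Bn a b n, z ≠ 0 →
    {j : ℕ | ∃ h : ∀ i, sh T (gc (j • g)) i ≠ 0, evB (sh T (gc (j • g))) h z ≠ 0}.Infinite

lemma orb_inj {T : Fin n → (curve a b).Point} {g : Fin n → goodGroup p a b} {i : Fin n}
    (hg : g i ≠ 0) : Function.Injective fun j : ℕ => sh T (gc (j • g)) i := by
  intro j k hjk
  have hg' : (g i : (curve a b).Point) ≠ 0 := fun h => hg (Subtype.ext h)
  have h1 : j • (g i : (curve a b).Point) + j • (g i : (curve a b).Point) =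
      k • (g i : (curve a b).Point) + k • (g i : (curve a b).Point) := add_left_cancel hjk
  rw [← add_nsmul, ← add_nsmul] at h1
  have h2 := injective_nsmul_iff_not_isOfFinAddOrder.2 (good_not_torsion (g i).2 hg') h1
  omega

/-- Finitely many points of an orbit have a coordinate in a finite set. -/
lemma orb_finite {T : Fin n → (curve a b).Point} {g : Fin n → goodGroup p a b}
    (hg : ∀ i, g i ≠ 0) {E : Fin n → Set (curve a b).Point} (hE : ∀ i, (E i).Finite) :
    {j : ℕ | ∃ i, sh T (gc (j • g)) i ∈ E i}.Finite := by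
  have h1 : {j : ℕ | ∃ i, sh T (gc (j • g)) i ∈ E i} =
      ⋃ i, (fun j : ℕ => sh T (gc (j • g)) i) ⁻¹' (E i) := by
    ext j
    simp
  rw [h1]
  exact Set.finite_iUnion fun i => (hE i).preimage (orb_inj (hg i)).injOn

lemma Ex_finite (X' : Fin s → (curve a b).Point) (g : (curve a b).Point) :
    (Ex X' g).Finite := by
  unfold Ex
  exact Set.toFinite _

lemma orb_GP (X' : Fin n → Fin s → (curve a b).Point) (δ : Fin n → goodGroup p a b)
    {T : Fin n → (curve a b).Point} {g : Fin n → goodGroup p a b} (hg : ∀ i, g i ≠ 0) :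
    {j : ℕ | ¬ GP X' (gc δ) (sh T (gc (j • g)))}.Finite := by
  refine (orb_finite (T := T) hg (E := fun i => Ex (X' i) (gc δ i)) fun i =>
    Ex_finite _ _).subset ?_
  intro j hj
  by_contra hcon
  exact hj fun i hi => hcon ⟨i, hi⟩

lemma sh_succ (T : Fin n → (curve a b).Point) (g : Fin n → goodGroup p a b) (j : ℕ) :
    sh (sh T (gc (j • g))) (gc g) = sh T (gc ((j + 1) • g)) := by
  rw [sh_sh, succ_nsmul]

/-- Values do not depend on the proof. -/
lemma val_congr {T T' : Fin n → (curve a b).Point} (e : T = T') {h : ∀ i, T i ≠ 0}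
    {h' : ∀ i, T' i ≠ 0} {z : Ln a b n} {d : ℚ} (hz : Val (evB T h : Bn a b n →+* ℚ) z d) :
    Val (evB T' h' : Bn a b n →+* ℚ) z d := by
  subst e
  exact hz

/-- The invariants are constants. -/
lemma orb_const {X' : Fin n → Fin s → (curve a b).Point} (𝒜 : Act p a b n s m X')
    {T : Fin n → (curve a b).Point} {g : Fin n → goodGroup p a b} (hg : ∀ i, g i ≠ 0)
    (hD : Dense T g) {z : Ln a b n} (hz : 𝒜.σ g z = z) :
    ∃ t : ℚ, z = algebraMap (Bn a b n) (Ln a b n) (algebraMap ℚ (Bn a b n) t) := by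
  classical
  obtain ⟨u, v, hv, hzuv⟩ := IsFractionRing.div_surjective (A := Bn a b n) z
  have hv0 : v ≠ 0 := nonZeroDivisors.ne_zero hv
  have hz' : 𝒜.σ (-g) z = z := by
    have h1 : 𝒜.σ (-g + g) z = 𝒜.σ (-g) (𝒜.σ g z) := 𝒜.σ_add _ _ _
    rw [neg_add_cancel, 𝒜.σ_zero, hz] at h1
    exact h1.symm
  obtain ⟨J, hJ⟩ := (orb_GP X' (-g) (T := T) hg).bddAbove
  have hgood : ∀ j, J < j → GP X' (gc (-g)) (sh T (gc (j • g))) := by
    intro j hj
    by_contra h
    exact absurd (hJ h) (not_le.2 hj)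
  obtain ⟨j₀, hj₀, hJj⟩ := (hD v hv0).exists_gt J
  obtain ⟨h0, hv1⟩ := hj₀
  set d : ℚ := evB (sh T (gc (j₀ • g))) h0 u / evB (sh T (gc (j₀ • g))) h0 v with hd
  have hval0 : Val (evB (sh T (gc (j₀ • g))) h0 : Bn a b n →+* ℚ) z d := by
    rw [← hzuv]
    exact Val.div (Val.alg' rfl) (Val.alg' rfl) hv1
  have hval : ∀ j, j₀ ≤ j → ∃ h : ∀ i, sh T (gc (j • g)) i ≠ 0,
      Val (evB (sh T (gc (j • g))) h : Bn a b n →+* ℚ) z d := by
    intro j hj
    induction j, hj using Nat.le_induction with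
    | base => exact ⟨h0, hval0⟩
    | succ j hj ih =>
      obtain ⟨h1, h2⟩ := ih
      have hG := hgood (j + 1) (by omega)
      refine ⟨hG.ne, ?_⟩
      have e1 : sh T (gc (j • g)) = sh (sh T (gc ((j + 1) • g))) (gc (-g)) := by
        rw [sh_sh, succ_nsmul, add_neg_cancel_right]
      have h3 := 𝒜.σ_val (-g) _ hG z d (val_congr e1 h2)
      rwa [hz'] at h3
  refine ⟨d, ?_⟩
  have huv : u - algebraMap ℚ (Bn a b n) d * v = 0 := by
    by_contra hne
    obtain ⟨j, ⟨h1, h2⟩, h3⟩ := (hD _ hne).exists_gt j₀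
    obtain ⟨h4, h5⟩ := hval j h3.le
    apply h2
    have h6 := h5.mul (Val.alg (F := Ln a b n) (ev := (evB (sh T (gc (j • g))) h4 : Bn a b n →+* ℚ)) v)
    have hv1 : algebraMap (Bn a b n) (Ln a b n) v ≠ 0 := fun h0 =>
      hv0 (IsFractionRing.injective (Bn a b n) (Ln a b n) (by rw [h0, map_zero]))
    rw [← hzuv, div_mul_cancel₀ _ hv1] at h6
    have h7 := h6.unique (Val.alg u)
    rw [map_sub, map_mul, AlgHom.commutes, sub_eq_zero]
    exact h7.symm
  have hv1 : algebraMap (Bn a b n) (Ln a b n) v ≠ 0 := fun h0 =>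
    hv0 (IsFractionRing.injective (Bn a b n) (Ln a b n) (by rw [h0, map_zero]))
  rw [← hzuv, div_eq_iff hv1, ← map_mul, sub_eq_zero.1 huv]

section eig

variable {ι : Ln a b n →+* Fn a b n s}
  (hι : ∀ z : Bn a b n, ι (algebraMap _ _ z) = algebraMap (An a b n s) _ (MvPolynomial.C z))
  {X' : Fin n → Fin s → (curve a b).Point} (𝒜 : Act p a b n s m X')
  {τ : (Fin n → goodGroup p a b) → (Fn a b n s ≃+* Fn a b n s)}
  (hτι : ∀ g z, τ g (ι z) = ι (𝒜.σ g z))
  (hτX : ∀ g k, τ g (algebraMap (An a b n s) _ (MvPolynomial.X k)) =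
    ι (𝒜.c g k) * algebraMap (An a b n s) _ (MvPolynomial.X k))

include hι

/-- Fractions of the base have denominators in the base. -/
lemma den_ι (z : Ln a b n) : ∃ d : Bn a b n, d ≠ 0 ∧ ∃ f : An a b n s,
    ι z * algebraMap (An a b n s) (Fn a b n s) (MvPolynomial.C d) = algebraMap _ _ f := by
  obtain ⟨u, v, hv, rfl⟩ := IsFractionRing.div_surjective (A := Bn a b n) z
  have hv0 : v ≠ 0 := nonZeroDivisors.ne_zero hv
  refine ⟨v, hv0, MvPolynomial.C u, ?_⟩
  have hv1 : algebraMap (Bn a b n) (Ln a b n) v ≠ 0 := fun h0 =>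
    hv0 (IsFractionRing.injective (Bn a b n) (Ln a b n) (by rw [h0, map_zero]))
  rw [← hι, ← hι, ← map_mul, div_mul_cancel₀ _ hv1]

include hτι hτX

/-- Translates have denominators in the base. -/
lemma den_τ (g : Fin n → goodGroup p a b) (f : An a b n s) : ∃ d : Bn a b n, d ≠ 0 ∧
    ∃ f' : An a b n s, τ g (algebraMap _ _ f) *
      algebraMap (An a b n s) (Fn a b n s) (MvPolynomial.C d) = algebraMap _ _ f' := by
  induction f using MvPolynomial.induction_on with
  | C z =>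
    rw [← hι, hτι]
    exact den_ι hι _
  | add f g hf hg =>
    obtain ⟨d, hd, f', hf'⟩ := hf
    obtain ⟨e, he, g', hg'⟩ := hg
    refine ⟨d * e, mul_ne_zero hd he, f' * MvPolynomial.C e + g' * MvPolynomial.C d, ?_⟩
    rw [map_add (algebraMap (An a b n s) (Fn a b n s)) f, map_add (τ _),
      map_add (algebraMap (An a b n s) (Fn a b n s)),
      map_mul (algebraMap (An a b n s) (Fn a b n s)) f',
      map_mul (algebraMap (An a b n s) (Fn a b n s)) g', ← hf', ← hg', MvPolynomial.C_mul,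
      map_mul (algebraMap (An a b n s) (Fn a b n s)) (MvPolynomial.C d)]
    ring
  | mul_X f k hf =>
    obtain ⟨d, hd, f', hf'⟩ := hf
    obtain ⟨e, he, g', hg'⟩ := den_ι (s := s) hι (𝒜.c g k)
    refine ⟨d * e, mul_ne_zero hd he, f' * g' * MvPolynomial.X k, ?_⟩
    rw [map_mul (algebraMap (An a b n s) (Fn a b n s)) f, map_mul (τ g), hτX,
      map_mul (algebraMap (An a b n s) (Fn a b n s)) (f' * g'),
      map_mul (algebraMap (An a b n s) (Fn a b n s)) f', ← hf', ← hg', MvPolynomial.C_mul,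
      map_mul (algebraMap (An a b n s) (Fn a b n s)) (MvPolynomial.C d)]
    ring

/-- **Eigenfunctions.** -/
theorem orbit_eigen {T : Fin n → (curve a b).Point} (hT : ∀ i, T i ∈ goodGroup p a b)
    {g : Fin n → goodGroup p a b} (hg : ∀ i, g i ≠ 0) (hD : Dense T g) {f : An a b n s}
    (hf0 : f ≠ 0) (hf : {j : ℕ | f ∉ mA m (dbl X') (sh T (gc (j • g)))}.Finite) :
    ∃ k₀ k₁ : Fin s →₀ ℕ, k₀ ≠ k₁ ∧ ∃ P : Ln a b n, P ≠ 0 ∧
      ∃ χ : (Fin n → goodGroup p a b) → ℚ, ∀ δ,
        𝒜.σ δ P * (k₁.prod fun i e => 𝒜.c δ i ^ e) =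
          algebraMap (Bn a b n) (Ln a b n) (algebraMap ℚ (Bn a b n) (χ δ)) *
            (P * (k₀.prod fun i e => 𝒜.c δ i ^ e)) := by
  classical
  let _ : Algebra (Ln a b n) (Fn a b n s) := ι.toAlgebra
  have hLF : ∀ z : Ln a b n, algebraMap (Ln a b n) (Fn a b n s) z = ι z := fun _ => rfl
  have hmon : ∀ k : Fin s →₀ ℕ, (MvPolynomial.monomial k 1 : An a b n s) =
      k.prod fun i e => MvPolynomial.X i ^ e := by
    intro k
    rw [MvPolynomial.monomial_eq, MvPolynomial.C_1, one_mul]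
  have hinj : Function.Injective (algebraMap (An a b n s) (Fn a b n s)) :=
    IsFractionRing.injective (An a b n s) (Fn a b n s)
  -- the subspace
  let M : Submodule (Ln a b n) (Fn a b n s) :=
    { carrier := {x | ∃ d : Bn a b n, d ≠ 0 ∧ ∃ f : An a b n s,
        x * algebraMap (An a b n s) (Fn a b n s) (MvPolynomial.C d) = algebraMap _ _ f ∧
          {j : ℕ | f ∉ mA m (dbl X') (sh T (gc (j • g)))}.Finite}
      zero_mem' := by
        refine ⟨1, one_ne_zero, 0, by rw [zero_mul, map_zero], ?_⟩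
        refine Set.finite_empty.subset ?_
        intro j hj
        exact hj (Ideal.zero_mem _)
      add_mem' := by
        rintro x y ⟨d, hd, f, hf, hF⟩ ⟨d', hd', f', hf', hF'⟩
        refine ⟨d * d', mul_ne_zero hd hd', f * MvPolynomial.C d' + f' * MvPolynomial.C d, ?_, ?_⟩
        · rw [map_add, map_mul (algebraMap (An a b n s) (Fn a b n s)) f,
            map_mul (algebraMap (An a b n s) (Fn a b n s)) f', ← hf, ← hf', MvPolynomial.C_mul,
            map_mul]
          ring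
        · refine (hF.union hF').subset ?_
          intro j hj
          by_contra hcon
          rw [Set.mem_union, not_or] at hcon
          apply hj
          have h1 : f ∈ mA m (dbl X') (sh T (gc (j • g))) := by
            by_contra h; exact hcon.1 h
          have h2 : f' ∈ mA m (dbl X') (sh T (gc (j • g))) := by
            by_contra h; exact hcon.2 h
          exact Ideal.add_mem _ (Ideal.mul_mem_right _ _ h1) (Ideal.mul_mem_right _ _ h2)
      smul_mem' := by
        rintro z x ⟨d, hd, f, hf, hF⟩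
        obtain ⟨e, he, f', hf'⟩ := den_ι (s := s) hι z
        refine ⟨d * e, mul_ne_zero hd he, f * f', ?_, ?_⟩
        · rw [Algebra.smul_def, hLF, map_mul (algebraMap (An a b n s) (Fn a b n s)) f, ← hf, ← hf',
            MvPolynomial.C_mul, map_mul]
          ring
        · refine hF.subset ?_
          intro j hj hcon
          exact hj (Ideal.mul_mem_right _ _ hcon) }
  have hM : ∀ x, x ∈ M ↔ ∃ d : Bn a b n, d ≠ 0 ∧ ∃ f : An a b n s,
        x * algebraMap (An a b n s) (Fn a b n s) (MvPolynomial.C d) = algebraMap _ _ f ∧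
          {j : ℕ | f ∉ mA m (dbl X') (sh T (gc (j • g)))}.Finite := fun _ => Iff.rfl
  obtain ⟨k₀, k₁, hk, P, hP, h⟩ := ZE.min_support
    (fun k : Fin s →₀ ℕ => algebraMap (An a b n s) (Fn a b n s) (MvPolynomial.monomial k 1)) M
    (by
      intro k hk
      rw [hM] at hk
      obtain ⟨d, hd, f', hf', hF⟩ := hk
      rw [← map_mul] at hf'
      have h1 := hinj hf'
      -- the fibre coordinates do not vanish
      have h2 := orb_finite (T := T) hg (E := fun i => {0} ∪ Set.range fun k => dbl X' i k)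
        fun i => (Set.finite_singleton _).union (Set.finite_range _)
      have h3 := hD d hd
      apply h3
      refine (hF.union h2).subset ?_
      rintro j ⟨h0, hj⟩
      by_contra hcon
      rw [Set.mem_union, not_or] at hcon
      have h4 : f' ∈ mA m (dbl X') (sh T (gc (j • g))) := by
        by_contra h; exact hcon.1 h
      rw [mem_mA h0, ← h1, map_mul, evA_C, hmon, Finsupp.prod, map_prod] at h4
      rcases mul_eq_zero.1 h4 with h5 | h5
      · rw [Finset.prod_eq_zero_iff] at h5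
        obtain ⟨i, -, hi⟩ := h5
        rw [map_pow, evA_X] at hi
        refine pow_ne_zero _ (wv_ne_zero h0 fun i' hi' => hcon.2 ⟨i', ?_⟩) hi
        exact Or.inr ⟨i, hi'.symm⟩
      · exact hj h5)
    (algebraMap (An a b n s) (Fn a b n s) f)
    (fun h0 => hf0 (hinj (by rw [h0, map_zero])))
    (by
      rw [hM]
      exact ⟨1, one_ne_zero, f, by rw [MvPolynomial.C_1, map_one, mul_one], hf⟩)
    (by
      rw [f.as_sum, map_sum]
      refine Submodule.sum_mem _ fun k _ => ?_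
      have h1 : (MvPolynomial.monomial k (f.coeff k) : An a b n s) =
          MvPolynomial.C (f.coeff k) * MvPolynomial.monomial k 1 := by
        rw [MvPolynomial.C_mul_monomial, mul_one]
      rw [h1, map_mul, ← hι, ← hLF, ← Algebra.smul_def]
      exact Submodule.smul_mem _ _ (Submodule.subset_span ⟨k, rfl⟩))
    ({g} : Set (Fin n → goodGroup p a b)) (fun v => (τ v).toRingHom) 𝒜.σ
    (fun v _ a => hτι v a) (fun v k => k.prod fun i e => 𝒜.c v i ^ e)
    (by
      intro v _ k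
      exact Finset.prod_ne_zero_iff.2 fun i _ => pow_ne_zero _ (𝒜.c_ne v i))
    (by
      intro v _ k
      show τ v (algebraMap (An a b n s) (Fn a b n s) (MvPolynomial.monomial k 1)) =
        ι (k.prod fun i e => 𝒜.c v i ^ e) *
          algebraMap (An a b n s) (Fn a b n s) (MvPolynomial.monomial k 1)
      rw [hmon, Finsupp.prod, Finsupp.prod, map_prod, map_prod, map_prod,
        ← Finset.prod_mul_distrib]
      refine Finset.prod_congr rfl fun i _ => ?_
      rw [map_pow, map_pow, map_pow, hτX, mul_pow])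
    (by
      intro v hv y hy
      rw [Set.mem_singleton_iff] at hv
      subst hv
      rw [hM] at hy ⊢
      obtain ⟨d, hd, f', hf', hF⟩ := hy
      -- denominators
      obtain ⟨d₁, hd₁, f₁, hf₁⟩ := den_τ hι 𝒜 hτι hτX v f'
      obtain ⟨u₂, v₂, hv₂, hz₂⟩ := IsFractionRing.div_surjective (A := Bn a b n)
        (𝒜.σ v (algebraMap _ _ d))
      have hv20 : v₂ ≠ 0 := nonZeroDivisors.ne_zero hv₂
      have hv21 : algebraMap (Bn a b n) (Ln a b n) v₂ ≠ 0 := fun h0 =>
        hv20 (IsFractionRing.injective (Bn a b n) (Ln a b n) (by rw [h0, map_zero]))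
      have hu20 : u₂ ≠ 0 := by
        rintro rfl
        rw [map_zero, zero_div] at hz₂
        have h1 := (map_eq_zero (𝒜.σ v)).1 hz₂.symm
        exact hd (IsFractionRing.injective (Bn a b n) (Ln a b n) (by rw [h1, map_zero]))
      have hσ : ι (𝒜.σ v (algebraMap _ _ d)) *
          algebraMap (An a b n s) (Fn a b n s) (MvPolynomial.C v₂) =
            algebraMap (An a b n s) (Fn a b n s) (MvPolynomial.C u₂) := by
        rw [← hι, ← hι, ← map_mul, ← hz₂, div_mul_cancel₀ _ hv21]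
      have hy1 : τ v y * ι (𝒜.σ v (algebraMap _ _ d)) = τ v (algebraMap _ _ f') := by
        rw [← hf', map_mul, ← hι, hτι]
      refine ⟨u₂ * d₁, mul_ne_zero hu20 hd₁, f₁ * MvPolynomial.C v₂, ?_, ?_⟩
      · show τ v y * _ = _
        rw [MvPolynomial.C_mul, map_mul, ← hσ, map_mul (algebraMap (An a b n s) (Fn a b n s)) f₁,
          ← hf₁, ← hy1]
        ring
      · have h1 : {j : ℕ | f' ∉ mA m (dbl X') (sh T (gc ((j + 1) • v)))}.Finite :=
          hF.preimage (f := fun j : ℕ => j + 1) (fun x _ y _ hxy => Nat.succ_injective hxy)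
        refine (h1.union (orb_GP X' v (T := T) hg)).subset ?_
        intro j hj
        by_contra hcon
        rw [Set.mem_union, not_or] at hcon
        have h2 : f' ∈ mA m (dbl X') (sh T (gc ((j + 1) • v))) := by
          by_contra h; exact hcon.1 h
        have h3 : GP X' (gc v) (sh T (gc (j • v))) := by
          by_contra h; exact hcon.2 h
        apply hj
        refine Ideal.mul_mem_right _ _ ?_
        rw [mem_mA h3.ne]
        have h4 := val_tau' hι 𝒜 hτι hτX hT h3 f'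
        have e2 : j • v + v = (j + 1) • v := (succ_nsmul v j).symm
        have h5 : evA m (dbl X') (sh T (gc (j • v + v))) (by
            intro i
            rw [← sh_sh]
            exact h3.sh_ne i) f' = 0 := by
          rw [← mem_mA, e2]
          exact h2
        rw [h5] at h4
        have h6 := h4.mul (Val.alg (F := Fn a b n s) (ev := evA m (dbl X') (sh T (gc (j • v))) h3.ne)
          (MvPolynomial.C d₁))
        rw [hf₁, zero_mul] at h6
        exact (Val.alg (F := Fn a b n s) f₁).unique h6)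
  refine ⟨k₀, k₁, hk, P, hP, ?_⟩
  have hg1 := h g rfl
  set C : (Fin n → goodGroup p a b) → (Fin s →₀ ℕ) → Ln a b n :=
    fun v k => k.prod fun i e => 𝒜.c v i ^ e with hC
  have hC0 : ∀ v k, C v k ≠ 0 := fun v k =>
    Finset.prod_ne_zero_iff.2 fun i _ => pow_ne_zero _ (𝒜.c_ne v i)
  have hcc : ∀ u v k, 𝒜.σ u (C v k) * C u k = C (u + v) k := by
    intro u v k
    rw [hC]
    simp only [Finsupp.prod]
    rw [map_prod, ← Finset.prod_mul_distrib]
    refine Finset.prod_congr rfl fun i _ => ?_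
    rw [map_pow, ← mul_pow, 𝒜.c_add, mul_comm (𝒜.c u i)]
  have hcomm : ∀ u v z, 𝒜.σ u (𝒜.σ v z) = 𝒜.σ v (𝒜.σ u z) := by
    intro u v z
    rw [← 𝒜.σ_add, add_comm, 𝒜.σ_add]
  have hcc' : ∀ u v k, 𝒜.σ u (C v k) * C u k = 𝒜.σ v (C u k) * C v k := by
    intro u v k
    rw [hcc, add_comm, hcc]
  have key : ∀ δ, ∃ t : ℚ, 𝒜.σ δ P * C δ k₁ / (P * C δ k₀) =
      algebraMap (Bn a b n) (Ln a b n) (algebraMap ℚ (Bn a b n) t) := by
    intro δ
    apply orb_const 𝒜 hg hD
    have hs0 : ∀ {z}, z ≠ 0 → 𝒜.σ g z ≠ 0 := fun hz h0 => hz ((map_eq_zero (𝒜.σ g)).1 h0)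
    rw [map_div₀, map_mul, map_mul, div_eq_div_iff (mul_ne_zero (hs0 hP) (hs0 (hC0 δ k₀)))
      (mul_ne_zero hP (hC0 δ k₀))]
    have h1 : 𝒜.σ δ (𝒜.σ g P) * 𝒜.σ δ (C g k₁) = 𝒜.σ δ P * 𝒜.σ δ (C g k₀) := by
      rw [← map_mul, hg1, map_mul]
    have h3 := hcc' g δ k₀
    have h4 := hcc' g δ k₁
    rw [hcomm g δ P]
    have h5 : C g k₀ * C g k₁ ≠ 0 := mul_ne_zero (hC0 g k₀) (hC0 g k₁)
    apply mul_right_cancel₀ h5
    calc 𝒜.σ δ (𝒜.σ g P) * 𝒜.σ g (C δ k₁) * (P * C δ k₀) * (C g k₀ * C g k₁)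
        = 𝒜.σ δ (𝒜.σ g P) * (𝒜.σ g (C δ k₁) * C g k₁) * (P * C g k₀) * C δ k₀ := by ring
      _ = 𝒜.σ δ (𝒜.σ g P) * (𝒜.σ δ (C g k₁) * C δ k₁) * (𝒜.σ g P * C g k₁) * C δ k₀ := by
          rw [h4, hg1]
      _ = (𝒜.σ δ (𝒜.σ g P) * 𝒜.σ δ (C g k₁)) * C δ k₁ * (𝒜.σ g P * C g k₁) * C δ k₀ := by ring
      _ = (𝒜.σ δ P * 𝒜.σ δ (C g k₀)) * C δ k₁ * (𝒜.σ g P * C g k₁) * C δ k₀ := by rw [h1]
      _ = (𝒜.σ δ P * C δ k₁) * 𝒜.σ g P * (𝒜.σ δ (C g k₀) * C δ k₀) * C g k₁ := by ring
      _ = (𝒜.σ δ P * C δ k₁) * 𝒜.σ g P * (𝒜.σ g (C δ k₀) * C g k₀) * C g k₁ := by rw [h3]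
      _ = 𝒜.σ δ P * C δ k₁ * (𝒜.σ g P * 𝒜.σ g (C δ k₀)) * (C g k₀ * C g k₁) := by ring
  choose χ hχ using key
  refine ⟨χ, fun δ => ?_⟩
  show 𝒜.σ δ P * C δ k₁ = _ * (P * C δ k₀)
  rw [← hχ δ, div_mul_cancel₀ _ (mul_ne_zero hP (hC0 δ k₀))]

end eig

/-- One factor: every nonzero function has finitely many zeros. -/
lemma dense_one {T : Fin 1 → (curve a b).Point} {g : Fin 1 → goodGroup p a b} (hg : g 0 ≠ 0) :
    Dense T g := by
  intro z hz
  have h1 := (finite_zeros hz).preimage (orb_inj (T := T) hg).injOn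
  have h2 := h1.infinite_compl
  refine h2.mono ?_
  intro j hj
  have h3 : ev1 z (sh T (gc (j • g)) 0) ≠ 0 := hj
  have h4 : (fun _ : Fin 1 => sh T (gc (j • g)) 0) = sh T (gc (j • g)) := by
    funext i
    rw [Subsingleton.elim i 0]
  have h5 : sh T (gc (j • g)) 0 ≠ 0 := by
    intro h0
    apply h3
    rw [h0, ev1, dif_neg (fun h => h rfl)]
  have h6 : ∀ i, sh T (gc (j • g)) i ≠ 0 := by
    intro i
    rw [Subsingleton.elim i 0]
    exact h5
  refine ⟨h6, ?_⟩
  rw [ev1, dif_pos h5] at h3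
  intro h0
  apply h3
  have h7 : ∀ (T' : Fin 1 → (curve a b).Point) (h' : ∀ i, T' i ≠ 0), T' = sh T (gc (j • g)) →
      evB T' h' z = 0 := by
    intro T' h' e
    subst e
    exact h0
  exact h7 _ _ h4

/-- **Orbits in one factor.** -/
theorem orbit_one (hΔ : 4 * a ^ 3 + 27 * b ^ 2 ≠ 0) (hinf : Infinite (goodGroup p a b)) {m : ℕ}
    (hm : Even m) (hm1 : 1 ≤ m) {X' : Fin 1 → Fin s → (curve a b).Point}
    (hX' : ∀ k, X' 0 k ∈ goodGroup p a b) (hind : ∀ μ : Fin s → ℤ, lin (X' 0) μ = 0 → μ = 0)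
    {g : Fin 1 → goodGroup p a b} (hg : g ≠ 0) : Orbit p a b 1 s m X' g := by
  intro T hT f hf0 hfin
  have hg0 : g 0 ≠ 0 := by
    intro h0
    apply hg
    funext i
    rw [Subsingleton.elim i 0]
    exact h0
  obtain ⟨𝒜⟩ := exists_act (n := 1) hΔ hinf hm X' fun i k => by
    rw [Subsingleton.elim i 0]
    exact hX' k
  obtain ⟨ι, τ, hι, hτ0, hτa, hτι, hτX⟩ := exists_ext (s := s) 𝒜.σ 𝒜.c 𝒜.σ_zero 𝒜.σ_add 𝒜.c_ne
    𝒜.c_add
  obtain ⟨k₀, k₁, hk, P, hP, χ, h⟩ := orbit_eigen hι 𝒜 hτι hτX hT (g := g)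
    (fun i => by rw [Subsingleton.elim i 0]; exact hg0) (dense_one hg0) hf0 hfin
  exact no_eigen hΔ hm1 hX' hind 𝒜 hk hP h

end MP3550b5.RG
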