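import Mathlib
import Pool.Agent.Lib.MP_3550b5_nt.RG.OrbE

/-!
Eigenfunctions of all translations on a power of the curve, by specialisation; orbits in two
factors.
-/

set_option linter.unusedSectionVars false

namespace MP3550b5.RG

open Pool.Agent.Lib.MP_3550b5_nt WeierstrassCurve.Affine

variable {p : ℕ} [hp : Fact p.Prime] {a b : ℤ} {n s m : ℕ}

/-- Specialisation of all coordinates but one. -/
noncomputable def spB (i : Fin n) (S : Fin n → (curve a b).Point) (hS : ∀ j, S j ≠ 0) :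
    Bn a b n →ₐ[ℚ] Bn a b 1 :=
  liftB (fun j => if j = i then xB a b 0 else algebraMap ℚ (Bn a b 1) (ptX (S j)))
    (fun j => if j = i then yB a b 0 else algebraMap ℚ (Bn a b 1) (ptY (S j))) (by
      intro j
      by_cases h : j = i
      · rw [if_pos h, if_pos h]
        exact xyB 0
      · rw [if_neg h, if_neg h, ← map_pow, ptY_sq (hS j), map_add, map_add, map_mul, map_pow]
        rfl)

lemma update_ne {i : Fin n} {S : Fin n → (curve a b).Point} (hS : ∀ j, S j ≠ 0)
    {T : (curve a b).Point} (hT : T ≠ 0) (j : Fin n) : Function.update S i T j ≠ 0 := by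
  by_cases h : j = i
  · rw [h, Function.update_self]
    exact hT
  · rw [Function.update_of_ne h]
    exact hS j

/-- The value of the specialisation. -/
lemma ev1_spB {i : Fin n} {S : Fin n → (curve a b).Point} (hS : ∀ j, S j ≠ 0)
    {T : (curve a b).Point} (hT : T ≠ 0) (u : Bn a b n) :
    ev1 (spB i S hS u) T = evB (Function.update S i T) (update_ne hS hT) u := by
  rw [ev1, dif_pos hT]
  have h1 : ((evB (fun _ : Fin 1 => T) (fun _ => hT) : Bn a b 1 →+* ℚ).comp
      (spB i S hS : Bn a b n →+* Bn a b 1)) =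
      (evB (Function.update S i T) (update_ne hS hT) : Bn a b n →+* ℚ) := by
    apply Bn_hom_ext
    · intro j
      show evB (fun _ : Fin 1 => T) (fun _ => hT) (spB i S hS (xB a b j)) =
        evB (Function.update S i T) (update_ne hS hT) (xB a b j)
      rw [spB, liftB_x, evB_x]
      by_cases h : j = i
      · rw [if_pos h, evB_x, h, Function.update_self]
      · rw [if_neg h, AlgHom.commutes, Function.update_of_ne h]
        rfl
    · intro j
      show evB (fun _ : Fin 1 => T) (fun _ => hT) (spB i S hS (yB a b j)) =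
        evB (Function.update S i T) (update_ne hS hT) (yB a b j)
      rw [spB, liftB_y, evB_y]
      by_cases h : j = i
      · rw [if_pos h, evB_y, h, Function.update_self]
      · rw [if_neg h, AlgHom.commutes, Function.update_of_ne h]
        rfl
  exact RingHom.congr_fun h1 u

/-- Coordinates in the fibre. -/
lemma wv_update {X : Fin n → Fin s → (curve a b).Point} (i : Fin n)
    (S : Fin n → (curve a b).Point) (T : (curve a b).Point) (k : Fin s) :
    wv m X (Function.update S i T) k = ((dn T : ℚ) / dn (T - X i k)) ^ m *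
      ∏ j ∈ Finset.univ.erase i, ((dn (S j) : ℚ) / dn (S j - X j k)) ^ m := by
  classical
  rw [wv, ← Finset.mul_prod_erase Finset.univ _ (Finset.mem_univ i)]
  congr 1
  · rw [Function.update_self]
  · refine Finset.prod_congr rfl fun j hj => ?_
    rw [Function.update_of_ne (Finset.ne_of_mem_erase hj)]

/-- The functional equation of an eigenfunction along `V = 2 δ`, one coordinate moving. -/
lemma GG_stepN {X' : Fin n → Fin s → (curve a b).Point} (𝒜 : Act p a b n s m X') {i : Fin n}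
    {S : Fin n → (curve a b).Point} (hS : ∀ j, S j ≠ 0) (hSg : ∀ j, S j ∈ goodGroup p a b)
    (hSE : ∀ j, j ≠ i → S j ∉ Ex (X' j) 0)
    {v₀ : goodGroup p a b} {V : (curve a b).Point}
    (hV : V = (v₀ : (curve a b).Point) + (v₀ : (curve a b).Point)) {u v : Bn a b n} {χ : ℚ}
    {k₀ k₁ : Fin s →₀ ℕ}
    (h : 𝒜.σ (Pi.single i v₀) (algebraMap _ (Ln a b n) u / algebraMap _ (Ln a b n) v) *
        (k₁.prod fun l e => 𝒜.c (Pi.single i v₀) l ^ e) = algebraMap (Bn a b n) (Ln a b n)
          (algebraMap ℚ (Bn a b n) χ) * (algebraMap _ (Ln a b n) u / algebraMap _ (Ln a b n) v *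
            (k₀.prod fun l e => 𝒜.c (Pi.single i v₀) l ^ e)))
    {T : (curve a b).Point} (hTg : T ∈ goodGroup p a b)
    (hT : T ∉ Ex (X' i) (v₀ : (curve a b).Point)) (hv : ev1 (spB i S hS v) T ≠ 0)
    (hv' : ev1 (spB i S hS v) (T + V) ≠ 0) :
    GG m (dbl X' i) (fun l => (k₁ l : ℤ) - k₀ l) (spB i S hS u) (spB i S hS v) (T + V) =
      χ * GG m (dbl X' i) (fun l => (k₁ l : ℤ) - k₀ l) (spB i S hS u) (spB i S hS v) T := by
  classical
  set δ : Fin n → goodGroup p a b := Pi.single i v₀ with hδ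
  have hδi : gc δ i = v₀ := by
    show ((δ i : goodGroup p a b) : (curve a b).Point) = v₀
    rw [hδ, Pi.single_eq_same]
  have hδj : ∀ j, j ≠ i → gc δ j = 0 := by
    intro j hj
    show ((δ j : goodGroup p a b) : (curve a b).Point) = 0
    rw [hδ, Pi.single_eq_of_ne hj]
    rfl
  have hGP : GP X' (gc δ) (Function.update S i T) := by
    intro j
    by_cases hj : j = i
    · rw [hj, Function.update_self, hδi]
      exact hT
    · rw [Function.update_of_ne hj, hδj j hj]
      exact hSE j hj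
  have hsh : sh (Function.update S i T) (gc δ) = Function.update S i (T + V) := by
    funext j
    show Function.update S i T j + (gc δ j + gc δ j) = _
    by_cases hj : j = i
    · rw [hj, Function.update_self, Function.update_self, hδi, hV]
    · rw [Function.update_of_ne hj, Function.update_of_ne hj, hδj j hj, add_zero, add_zero]
  have hT0 : T ≠ 0 := by
    have := hGP.ne i
    rwa [Function.update_self] at this
  have hTV0 : T + V ≠ 0 := by
    have := hGP.sh_ne i
    rwa [hsh, Function.update_self] at this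
  have hTg' : ∀ j, Function.update S i T j ∈ goodGroup p a b := by
    intro j
    by_cases hj : j = i
    · rw [hj, Function.update_self]
      exact hTg
    · rw [Function.update_of_ne hj]
      exact hSg j
  -- the values
  set ev : Bn a b n →+* ℚ := (evB (Function.update S i T) hGP.ne : Bn a b n →+* ℚ) with hev
  have v1 : Val ev (algebraMap (Bn a b n) (Ln a b n) u / algebraMap _ (Ln a b n) v)
      (ev1 (spB i S hS u) T / ev1 (spB i S hS v) T) := by
    refine Val.div (Val.alg' ?_) (Val.alg' ?_) hv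
    · rw [ev1_spB hS hT0]; rfl
    · rw [ev1_spB hS hT0]; rfl
  have v2 : Val (evB (sh (Function.update S i T) (gc δ)) hGP.sh_ne : Bn a b n →+* ℚ)
      (algebraMap (Bn a b n) (Ln a b n) u / algebraMap _ (Ln a b n) v)
      (ev1 (spB i S hS u) (T + V) / ev1 (spB i S hS v) (T + V)) := by
    refine val_congr (h := update_ne hS hTV0) hsh.symm ?_
    refine Val.div (Val.alg' ?_) (Val.alg' ?_) hv'
    · rw [ev1_spB hS hTV0]; rfl
    · rw [ev1_spB hS hTV0]; rfl
  have v3 : Val ev (𝒜.σ δ (algebraMap (Bn a b n) (Ln a b n) u / algebraMap _ (Ln a b n) v))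
      (ev1 (spB i S hS u) (T + V) / ev1 (spB i S hS v) (T + V)) :=
    𝒜.σ_val δ (Function.update S i T) hGP _ _ v2
  set w : (curve a b).Point → Fin s → ℚ := fun T' k => ((dn T' : ℚ) / dn (T' - dbl X' i k)) ^ m
    with hw
  have w1 : ∀ k, wv m (dbl X') (Function.update S i T) k ≠ 0 :=
    fun k => wv_ne_zero hGP.ne fun j => hGP.ne_X j k
  have w2 : ∀ k, wv m (dbl X') (Function.update S i (T + V)) k ≠ 0 := fun k => by
    refine wv_ne_zero (update_ne hS hTV0) fun j => ?_
    have := hGP.sh_ne_X j k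
    rwa [hsh] at this
  have w3 : ∀ k, w T k ≠ 0 := fun k => left_ne_zero_of_mul (by rw [← wv_update]; exact w1 k)
  have w4 : ∀ k, w (T + V) k ≠ 0 := fun k => left_ne_zero_of_mul (by rw [← wv_update]; exact w2 k)
  set r : Fin s → ℚ := fun k => w (T + V) k / w T k with hr
  have v4 : ∀ k : Fin s, Val ev (𝒜.c δ k) (r k) := by
    intro k
    have h1 := 𝒜.c_val δ (Function.update S i T) hTg' hGP k
    have h2 : (sh (Function.update S i T) fun l => (δ l : (curve a b).Point)) =
        Function.update S i (T + V) := hsh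
    rw [h2] at h1
    have h3 : wv m (dbl X') (Function.update S i (T + V)) k /
        wv m (dbl X') (Function.update S i T) k = r k := by
      have h4 := right_ne_zero_of_mul (by rw [← wv_update]; exact w1 k :
        ((dn T : ℚ) / dn (T - dbl X' i k)) ^ m *
          ∏ j ∈ Finset.univ.erase i, ((dn (S j) : ℚ) / dn (S j - dbl X' j k)) ^ m ≠ 0)
      rw [wv_update, wv_update, mul_div_mul_right _ _ h4]
    rw [h3] at h1
    exact h1
  have v5 : ∀ k : Fin s →₀ ℕ, Val ev (k.prod fun l e => 𝒜.c δ l ^ e) (k.prod fun l e => r l ^ e) :=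
    fun k => Val.prod _ fun l _ => (v4 l).pow _
  have v6 : Val ev (algebraMap (Bn a b n) (Ln a b n) (algebraMap ℚ (Bn a b n) χ)) χ :=
    Val.alg' (AlgHom.commutes (evB (Function.update S i T) hGP.ne) χ)
  have v7 := v3.mul (v5 k₁)
  rw [h] at v7
  have v8 := v6.mul (v1.mul (v5 k₀))
  have h1 := v7.unique v8
  -- the nonzero values
  have hr0 : ∀ k, r k ≠ 0 := fun k => div_ne_zero (w4 k) (w3 k)
  have hprod : ∀ k : Fin s →₀ ℕ, (k.prod fun l e => r l ^ e) = ∏ l, r l ^ (k l : ℤ) := by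
    intro k
    rw [Finsupp.prod_fintype _ _ fun l => pow_zero _]
    exact Finset.prod_congr rfl fun l _ => (zpow_natCast _ _).symm
  rw [hprod, hprod] at h1
  have hP0 : (∏ l, r l ^ (k₀ l : ℤ)) ≠ 0 :=
    Finset.prod_ne_zero_iff.2 fun l _ => zpow_ne_zero _ (hr0 l)
  have hG : ∀ T' : (curve a b).Point, GG m (dbl X' i) (fun l => (k₁ l : ℤ) - k₀ l)
      (spB i S hS u) (spB i S hS v) T' = ev1 (spB i S hS u) T' / ev1 (spB i S hS v) T' *
        ∏ k, (w T' k) ^ ((k₁ k : ℤ) - k₀ k) := fun T' => rfl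
  rw [hG, hG]
  have h2 : ∏ k, (w (T + V) k) ^ ((k₁ k : ℤ) - k₀ k) =
      (∏ l, r l ^ (k₁ l : ℤ)) / (∏ l, r l ^ (k₀ l : ℤ)) *
        ∏ k, (w T k) ^ ((k₁ k : ℤ) - k₀ k) := by
    rw [← Finset.prod_div_distrib, ← Finset.prod_mul_distrib]
    refine Finset.prod_congr rfl fun k _ => ?_
    rw [← zpow_sub₀ (hr0 k), ← mul_zpow, hr, div_mul_cancel₀ _ (w3 k)]
  rw [h2]
  calc ev1 (spB i S hS u) (T + V) / ev1 (spB i S hS v) (T + V) *
        ((∏ l, r l ^ (k₁ l : ℤ)) / (∏ l, r l ^ (k₀ l : ℤ)) *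
          ∏ k, (w T k) ^ ((k₁ k : ℤ) - k₀ k))
      = (ev1 (spB i S hS u) (T + V) / ev1 (spB i S hS v) (T + V) * ∏ l, r l ^ (k₁ l : ℤ)) /
        (∏ l, r l ^ (k₀ l : ℤ)) * ∏ k, (w T k) ^ ((k₁ k : ℤ) - k₀ k) := by ring
    _ = χ * (ev1 (spB i S hS u) T / ev1 (spB i S hS v) T * ∏ l, r l ^ (k₀ l : ℤ)) /
        (∏ l, r l ^ (k₀ l : ℤ)) * ∏ k, (w T k) ^ ((k₁ k : ℤ) - k₀ k) := by rw [h1]
    _ = _ := by
      field_simp

/-- `eig_arch` without the hypothesis that the classes are nonzero. -/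
lemma eig_arch0 (hΔ : 4 * a ^ 3 + 27 * b ^ 2 ≠ 0) {s m : ℕ} (hm : 1 ≤ m)
    (X : Fin s → (curve a b).Point) (μ : Fin s → ℤ)
    (hV : ¬ IsOfFinAddOrder (lin X μ)) {u v : Bn a b 1} (hu : u ≠ 0)
    (hv : v ≠ 0) {χ : ℚ} (J : ℕ)
    (h : ∀ j : ℕ, J ≤ j → GG m X μ u v ((j + 1) • lin X μ) = χ * GG m X μ u v (j • lin X μ)) :
    1 < |χ| := by
  classical
  have hV0 : lin X μ ≠ 0 := by
    intro h0
    apply hV
    rw [h0]
    exact IsOfFinAddOrder.zero
  set Y : Fin s → (curve a b).Point := fun k => if X k = 0 then lin X μ else X k with hY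
  set ν : Fin s → ℤ := fun k => if X k = 0 then 0 else μ k with hν
  have hlin : lin Y ν = lin X μ := by
    rw [lin_apply, lin_apply]
    refine Finset.sum_congr rfl fun k _ => ?_
    by_cases hk : X k = 0
    · rw [hν, hY]
      simp only
      rw [if_pos hk, if_pos hk, hk, zero_zsmul, zsmul_zero]
    · rw [hν, hY]
      simp only
      rw [if_neg hk, if_neg hk]
  have hGG : ∀ T : (curve a b).Point, T ≠ 0 → GG m Y ν u v T = GG m X μ u v T := by
    intro T hT
    rw [GG, GG]
    congr 1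
    refine Finset.prod_congr rfl fun k _ => ?_
    by_cases hk : X k = 0
    · rw [hν, hY]
      simp only
      rw [if_pos hk, if_pos hk, hk, zpow_zero, sub_zero, div_self (dn_ne_zero hT), one_pow,
        one_zpow]
    · rw [hν, hY]
      simp only
      rw [if_neg hk, if_neg hk]
  have hne : ∀ j : ℕ, 0 < j → j • lin X μ ≠ 0 := by
    intro j hj h0
    exact hV (isOfFinAddOrder_iff_nsmul_eq_zero.2 ⟨j, hj, h0⟩)
  refine eig_arch hΔ hm Y ν ?_ (by rw [hlin]; exact hV) hu hv (χ := χ) (J + 1) ?_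
  · intro k
    rw [hY]
    simp only
    by_cases hk : X k = 0
    · rw [if_pos hk]
      exact hV0
    · rw [if_neg hk]
      exact hk
  · intro j hj
    rw [hlin, hGG _ (hne _ (by omega)), hGG _ (hne _ (by omega))]
    exact h j (by omega)

/-- **No eigenfunctions** of all translations on a power of the curve. -/
theorem no_eigenN (hΔ : 4 * a ^ 3 + 27 * b ^ 2 ≠ 0) (hinf : Infinite (goodGroup p a b))
    (hm : 1 ≤ m) {X' : Fin n → Fin s → (curve a b).Point}
    (hX' : ∀ i k, X' i k ∈ goodGroup p a b) (𝒜 : Act p a b n s m X')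
    {k₀ k₁ : Fin s →₀ ℕ} {i : Fin n} (hi : lin (X' i) (fun l => (k₁ l : ℤ) - k₀ l) ≠ 0)
    {P : Ln a b n} (hP : P ≠ 0) {χ : (Fin n → goodGroup p a b) → ℚ}
    (h : ∀ δ, 𝒜.σ δ P * (k₁.prod fun i e => 𝒜.c δ i ^ e) = algebraMap (Bn a b n) (Ln a b n)
          (algebraMap ℚ (Bn a b n) (χ δ)) * (P * (k₀.prod fun i e => 𝒜.c δ i ^ e))) : False := by
  classical
  obtain ⟨u, v, hv, rfl⟩ := IsFractionRing.div_surjective (A := Bn a b n) P
  have hv0 : v ≠ 0 := nonZeroDivisors.ne_zero hv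
  have hu0 : u ≠ 0 := by
    rintro rfl
    rw [map_zero, zero_div] at hP
    exact hP rfl
  set μ : Fin s → ℤ := fun l => (k₁ l : ℤ) - k₀ l with hμ
  have hlin : lin (X' i) μ ∈ goodGroup p a b := by
    rw [lin_apply]
    exact sum_mem fun l _ => zsmul_mem (hX' i l) _
  set v₀ : goodGroup p a b := ⟨lin (X' i) μ, hlin⟩ with hv₀
  set V : (curve a b).Point := lin (dbl X' i) μ with hV
  have hV2 : V = lin (X' i) μ + lin (X' i) μ := by
    rw [hV, lin_apply, lin_apply, ← Finset.sum_add_distrib]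
    exact Finset.sum_congr rfl fun l _ => zsmul_add _ _ _
  have hVg : V ∈ goodGroup p a b := by
    rw [hV2]
    exact add_mem hlin hlin
  have hV0 : V ≠ 0 := by
    intro h0
    rw [hV2, ← two_nsmul] at h0
    exact hi (good_nsmul hlin (by norm_num) h0)
  have hVt : ¬ IsOfFinAddOrder V := good_not_torsion hVg hV0
  have hinj : Function.Injective (fun j : ℕ => j • V) :=
    injective_nsmul_iff_not_isOfFinAddOrder.2 hVt
  -- the other coordinates
  have hSinf : ((goodGroup p a b : Set (curve a b).Point) \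
      (⋃ j : Fin n, Ex (X' j) (0 : (curve a b).Point) ∪ {0})).Infinite := by
    have h1 : ((goodGroup p a b : Set (curve a b).Point)).Infinite := Set.infinite_coe_iff.mp hinf
    exact h1.sdiff (Set.finite_iUnion fun j => (Ex_finite _ _).union (Set.finite_singleton _))
  obtain ⟨S, hS0, hSE, hSuv⟩ : ∃ (S : Fin n → (curve a b).Point) (h0 : ∀ j, S j ≠ 0),
      (∀ j, S j ∈ (goodGroup p a b : Set (curve a b).Point) \
        (⋃ j : Fin n, Ex (X' j) (0 : (curve a b).Point) ∪ {0})) ∧ evB S h0 (u * v) ≠ 0 := by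
    by_contra hcon
    push Not at hcon
    exact mul_ne_zero hu0 hv0 (sep hSinf (u * v) fun T h0 hT => hcon T h0 hT)
  have hSg : ∀ j, S j ∈ goodGroup p a b := fun j => (hSE j).1
  have hSE' : ∀ j, S j ∉ Ex (X' j) (0 : (curve a b).Point) := by
    intro j hj
    exact (hSE j).2 (Set.mem_iUnion.2 ⟨j, Or.inl hj⟩)
  have hSi : Function.update S i (S i) = S := Function.update_eq_self i S
  have hne : ∀ z : Bn a b n, evB S hS0 z ≠ 0 → spB i S hS0 z ≠ 0 := by
    intro z hz h0
    have h1 := ev1_spB (i := i) hS0 (hS0 i) z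
    rw [h0, ev1, dif_pos (hS0 i), map_zero] at h1
    apply hz
    have h2 : ∀ (T' : Fin n → (curve a b).Point) (h' : ∀ j, T' j ≠ 0), T' = S →
        evB T' h' z = 0 → evB S hS0 z = 0 := by
      intro T' h' e h3
      subst e
      exact h3
    exact h2 _ _ hSi h1.symm
  rw [map_mul] at hSuv
  have hu1 : spB i S hS0 u ≠ 0 := hne u (left_ne_zero_of_mul hSuv)
  have hv1 : spB i S hS0 v ≠ 0 := hne v (right_ne_zero_of_mul hSuv)
  -- the bad points
  have hbad : (Ex (X' i) (v₀ : (curve a b).Point) ∪ {T | ev1 (spB i S hS0 v) T = 0} ∪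
      (fun T => T + V) ⁻¹' {T | ev1 (spB i S hS0 v) T = 0}).Finite :=
    ((Ex_finite _ _).union (finite_zeros hv1)).union
      ((finite_zeros hv1).preimage fun x _ y _ hxy => add_right_cancel hxy)
  have hbad2 := hbad.preimage (f := fun j : ℕ => j • V) hinj.injOn
  obtain ⟨J, hJ⟩ := hbad2.bddAbove
  have hδ0 := h (Pi.single i v₀)
  have hstep : ∀ j : ℕ, J + 1 ≤ j →
      GG m (dbl X' i) μ (spB i S hS0 u) (spB i S hS0 v) ((j + 1) • lin (dbl X' i) μ) =
        χ (Pi.single i v₀) *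
          GG m (dbl X' i) μ (spB i S hS0 u) (spB i S hS0 v) (j • lin (dbl X' i) μ) := by
    intro j hj
    have hj' : j ∉ (fun j : ℕ => j • V) ⁻¹' (Ex (X' i) (v₀ : (curve a b).Point) ∪
        {T | ev1 (spB i S hS0 v) T = 0} ∪
          (fun T => T + V) ⁻¹' {T | ev1 (spB i S hS0 v) T = 0}) := by
      intro h1
      have := hJ h1
      omega
    have h1 : j • V ∉ Ex (X' i) (v₀ : (curve a b).Point) := fun h => hj' (Or.inl (Or.inl h))
    have h2 : ev1 (spB i S hS0 v) (j • V) ≠ 0 := fun h => hj' (Or.inl (Or.inr h))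
    have h3 : ev1 (spB i S hS0 v) (j • V + V) ≠ 0 := fun h => hj' (Or.inr h)
    have h4 := GG_stepN 𝒜 (i := i) hS0 hSg (fun j _ => hSE' j) (v₀ := v₀) (V := V) hV2 hδ0
      (nsmul_mem hVg j) h1 h2 h3
    rw [← succ_nsmul] at h4
    exact h4
  have hχ : χ (Pi.single i v₀) ≠ 0 := by
    intro h0
    have h1 := hδ0
    rw [h0, map_zero, map_zero, zero_mul] at h1
    rcases mul_eq_zero.1 h1 with h2 | h2
    · exact hP ((map_eq_zero (𝒜.σ _)).1 h2)
    · rw [Finsupp.prod, Finset.prod_eq_zero_iff] at h2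
      obtain ⟨l, -, hl⟩ := h2
      exact pow_ne_zero _ (𝒜.c_ne _ l) hl
  have h1 := eig_arch0 hΔ hm (dbl X' i) μ hVt hu1 hv1 (J + 1) hstep
  have h2 := abs_eq_one_of_padicValRat hχ fun l hl =>
    eig_fin hΔ (dbl X' i) μ hVt hu1 hv1 hχ (J + 1) hstep l
  rw [h2] at h1
  exact lt_irrefl _ h1

/-- **Orbits in a power of the curve**, given the density in the base. -/
theorem orbit_of_dense (hΔ : 4 * a ^ 3 + 27 * b ^ 2 ≠ 0) (hinf : Infinite (goodGroup p a b))
    {m : ℕ} (hm : Even m) (hm1 : 1 ≤ m) {X' : Fin n → Fin s → (curve a b).Point}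
    (hX' : ∀ i k, X' i k ∈ goodGroup p a b)
    (hind : ∀ μ : Fin s → ℤ, (∀ i, lin (X' i) μ = 0) → μ = 0)
    {g : Fin n → goodGroup p a b} (hg : ∀ i, g i ≠ 0)
    (hD : ∀ T : Fin n → (curve a b).Point, (∀ i, T i ∈ goodGroup p a b) → Dense T g) :
    Orbit p a b n s m X' g := by
  intro T hT f hf0 hfin
  obtain ⟨𝒜⟩ := exists_act (n := n) hΔ hinf hm X' hX'
  obtain ⟨ι, τ, hι, hτ0, hτa, hτι, hτX⟩ := exists_ext (s := s) 𝒜.σ 𝒜.c 𝒜.σ_zero 𝒜.σ_add 𝒜.c_ne
    𝒜.c_add
  obtain ⟨k₀, k₁, hk, P, hP, χ, h⟩ := orbit_eigen hι 𝒜 hτι hτX hT (g := g) hg (hD T hT) hf0 hfin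
  have h1 : ∃ i, lin (X' i) (fun l => (k₁ l : ℤ) - k₀ l) ≠ 0 := by
    by_contra hcon
    push Not at hcon
    have h2 := hind _ hcon
    apply hk
    ext l
    have h3 := congrFun h2 l
    simp only [Pi.zero_apply] at h3
    omega
  obtain ⟨i, hi⟩ := h1
  exact no_eigenN hΔ hinf hm1 hX' 𝒜 hi hP h

/-- **Orbits in two factors**, given the density in the base. -/
theorem orbit_two_of_dense (hΔ : 4 * a ^ 3 + 27 * b ^ 2 ≠ 0) (hinf : Infinite (goodGroup p a b))
    {m : ℕ} (hm : Even m) (hm1 : 1 ≤ m) {R₁ R₂ : (curve a b).Point}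
    (hR₁ : R₁ ∈ goodGroup p a b) (hR₂ : R₂ ∈ goodGroup p a b)
    (hR : ∀ c d : ℤ, c • R₁ + d • R₂ = 0 → c = 0 ∧ d = 0) {g : Fin 2 → goodGroup p a b}
    (hg : ∀ c d : ℤ, c • g 0 + d • g 1 = 0 → c = 0 ∧ d = 0)
    (hD : ∀ T : Fin 2 → (curve a b).Point, (∀ i, T i ∈ goodGroup p a b) → Dense T g) :
    Orbit p a b 2 3 m (PX R₁ R₂) g := by
  refine orbit_of_dense hΔ hinf hm hm1 ?_ ?_ ?_ hD
  · intro i k
    fin_cases i <;> fin_cases k
    · exact hR₁
    · exact zero_mem _
    · exact hR₂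
    · exact zero_mem _
    · exact hR₂
    · exact hR₁
  · intro μ h
    have h0 := h 0
    have h1 := h 1
    rw [lin_apply, Fin.sum_univ_three] at h0 h1
    have e0 : μ 0 • R₁ + μ 2 • R₂ = 0 := by
      rw [← h0]
      show μ 0 • R₁ + μ 2 • R₂ = μ 0 • R₁ + μ 1 • (0 : (curve a b).Point) + μ 2 • R₂
      rw [zsmul_zero, add_zero]
    have e1 : μ 2 • R₁ + μ 1 • R₂ = 0 := by
      rw [← h1]
      show μ 2 • R₁ + μ 1 • R₂ = μ 0 • (0 : (curve a b).Point) + μ 1 • R₂ + μ 2 • R₁
      rw [zsmul_zero, zero_add, add_comm]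
    obtain ⟨f0, f2⟩ := hR _ _ e0
    obtain ⟨-, f1⟩ := hR _ _ e1
    funext k
    fin_cases k
    · exact f0
    · exact f1
    · exact f2
  · intro i h0
    fin_cases i
    · have h1 := hg 1 0 (by
        have h2 : g 0 = 0 := h0
        rw [h2, zsmul_zero, zero_zsmul, add_zero])
      exact one_ne_zero h1.1
    · have h1 := hg 0 1 (by
        have h2 : g 1 = 0 := h0
        rw [h2, zsmul_zero, zero_zsmul, add_zero])
      exact one_ne_zero h1.2

end MP3550b5.RG
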