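import Mathlib
import Pool.Agent.Lib.MP_3550b5_nt.RG.ZeroA

/-!
The number of minimal primes of transcendence degree at least `e`.
-/

set_option linter.unusedSectionVars false

namespace MP3550b5.RG

open Pool.Agent.Lib.MP_3550b5_nt WeierstrassCurve.Affine

variable {p : ℕ} [hp : Fact p.Prime] {a b : ℤ} {n s m : ℕ}

/-- The variables of the presentation. -/
abbrev Vr (n s : ℕ) : Type := (Fin n ⊕ Fin n) ⊕ Fin s

/-- The abscissae and the fibre coordinates. -/
def JJ (n s : ℕ) : Set (Vr n s) := {j | ∀ i, j ≠ Sum.inl (Sum.inr i)}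

/-- The quotient is algebraic over the abscissae and the fibre coordinates. -/
lemma alg_JJ (q : Ideal (MvPolynomial (Vr n s) ℚ)) [hq : q.IsPrime]
    (hrel : ∀ i, MvPolynomial.rename Sum.inl (curveRel a b n i) ∈ q) :
    Algebra.IsAlgebraic (Algebra.adjoin ℚ
      ((fun i => (Ideal.Quotient.mk q (MvPolynomial.X i) : MvPolynomial (Vr n s) ℚ ⧸ q)) ''
        JJ n s)) (MvPolynomial (Vr n s) ℚ ⧸ q) := by
  classical
  set R' := Algebra.adjoin ℚ
      ((fun i => (Ideal.Quotient.mk q (MvPolynomial.X i) : MvPolynomial (Vr n s) ℚ ⧸ q)) ''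
        JJ n s) with hR'
  have hJ : ∀ j ∈ JJ n s, IsIntegral R'
      (Ideal.Quotient.mk q (MvPolynomial.X j) : MvPolynomial (Vr n s) ℚ ⧸ q) := by
    intro j hj
    have h1 : (Ideal.Quotient.mk q (MvPolynomial.X j) : MvPolynomial (Vr n s) ℚ ⧸ q) ∈ R' :=
      Algebra.subset_adjoin ⟨j, hj, rfl⟩
    exact isIntegral_algebraMap (R := R') (x := ⟨_, h1⟩)
  have hc : ∀ c : ℚ, IsIntegral R'
      (Ideal.Quotient.mk q (MvPolynomial.C c) : MvPolynomial (Vr n s) ℚ ⧸ q) := by
    intro c
    have h1 : (Ideal.Quotient.mk q (MvPolynomial.C c) : MvPolynomial (Vr n s) ℚ ⧸ q) ∈ R' :=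
      R'.algebraMap_mem c
    exact isIntegral_algebraMap (R := R') (x := ⟨_, h1⟩)
  have hX : ∀ j, IsIntegral R'
      (Ideal.Quotient.mk q (MvPolynomial.X j) : MvPolynomial (Vr n s) ℚ ⧸ q) := by
    intro j
    by_cases hj : j ∈ JJ n s
    · exact hJ j hj
    · have hj' : ∃ i, j = Sum.inl (Sum.inr i) := by
        by_contra hcon
        push Not at hcon
        exact hj hcon
      obtain ⟨i, rfl⟩ := hj'
      refine IsIntegral.of_pow (n := 2) (by norm_num) ?_
      have h1 := Ideal.Quotient.eq_zero_iff_mem.2 (hrel i)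
      rw [curveRel] at h1
      simp only [map_sub, map_pow, map_mul, MvPolynomial.rename_X, MvPolynomial.rename_C] at h1
      have h2 : (Ideal.Quotient.mk q (MvPolynomial.X (Sum.inl (Sum.inr i))) :
          MvPolynomial (Vr n s) ℚ ⧸ q) ^ 2 =
          (Ideal.Quotient.mk q (MvPolynomial.X (Sum.inl (Sum.inl i)))) ^ 3 +
          (Ideal.Quotient.mk q (MvPolynomial.C (a : ℚ))) *
            (Ideal.Quotient.mk q (MvPolynomial.X (Sum.inl (Sum.inl i)))) +
          (Ideal.Quotient.mk q (MvPolynomial.C (b : ℚ))) := by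
        linear_combination h1
      rw [h2]
      have h3 := hJ (Sum.inl (Sum.inl i)) (fun i' h => by simp at h)
      exact ((h3.pow 3).add ((hc _).mul h3)).add (hc _)
  have hall : ∀ g : MvPolynomial (Vr n s) ℚ, IsIntegral R'
      (Ideal.Quotient.mk q g : MvPolynomial (Vr n s) ℚ ⧸ q) := by
    intro g
    induction g using MvPolynomial.induction_on with
    | C c => exact hc c
    | add f g hf hg =>
      rw [map_add]
      exact hf.add hg
    | mul_X f j hf =>
      rw [map_mul]
      exact hf.mul (hX j)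
  constructor
  intro y
  obtain ⟨g, rfl⟩ := Ideal.Quotient.mk_surjective y
  exact (hall g).isAlgebraic

lemma dg_JJ {K : ℕ} {j : Vr n s} (hj : j ∈ JJ n s) : dg n s K j = K := by
  rcases j with (j | j) | j
  · rfl
  · exact absurd rfl (hj j)
  · rfl

/-- The number of minimal primes of transcendence degree at least `e`. -/
lemma card_minimal_tr (K : ℕ) (hK : 3 ≤ K) (Φ : Set (An a b n s)) (hΦ : ∀ f ∈ Φ, HasLift K f)
    (P : Finset (Ideal (An a b n s))) (hP : ∀ q ∈ P, q ∈ (Ideal.span Φ).minimalPrimes) (e : ℕ)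
    (he : e ≤ n + s) (htr : ∀ q ∈ P, ∃ y : Fin e → MvPolynomial (Vr n s) ℚ,
      AlgebraicIndependent ℚ fun i => (Ideal.Quotient.mk (q.comap (presA a b n s).toRingHom) (y i) :
        MvPolynomial (Vr n s) ℚ ⧸ q.comap (presA a b n s).toRingHom)) :
    P.card ≤ 2 ^ (2 * n + s) * (2 * n + s) ^ (2 * n + s) * 2 ^ n * K ^ (n + s - e) := by
  classical
  have h := ZE.card_minimalPrimes_quot' (presA a b n s).toRingHom presA_surjective
    (Set.range fun i => MvPolynomial.rename Sum.inl (curveRel a b n i)) ker_presA (dg n s K) ?_ ?_ Φ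
    ?_ P hP (2 ^ n * K ^ (n + s - e)) ?_
  · refine h.trans (le_of_eq ?_)
    have h3 : Fintype.card ((Fin n ⊕ Fin n) ⊕ Fin s) = 2 * n + s := by
      rw [Fintype.card_sum, Fintype.card_sum, Fintype.card_fin, Fintype.card_fin]
      ring
    rw [h3]
    ring
  · rintro ((i | i) | i) <;> simp only [dg] <;> omega
  · rintro _ ⟨i, rfl⟩ j
    exact rel_deg hK i j
  · intro f hf
    obtain ⟨g, h1, h2, h3, h4⟩ := hΦ f hf
    refine ⟨g, h4, ?_⟩
    rintro ((i | i) | i)
    · exact h1 i
    · exact h2 i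
    · exact h3 i
  · intro q hq
    have hqp : q.IsPrime := (hP q hq).1.1
    set q' := q.comap (presA a b n s).toRingHom with hq'
    have hq'p : q'.IsPrime := Ideal.comap_isPrime _ _
    have hrel : ∀ i, MvPolynomial.rename Sum.inl (curveRel a b n i) ∈ q' := by
      intro i
      have h1 : (MvPolynomial.rename Sum.inl (curveRel a b n i) : MvPolynomial (Vr n s) ℚ) ∈
          RingHom.ker (presA a b n s) := by
        rw [ker_presA]
        exact Ideal.subset_span ⟨i, rfl⟩
      rw [hq', Ideal.mem_comap]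
      have h2 : (presA a b n s).toRingHom (MvPolynomial.rename Sum.inl (curveRel a b n i)) = 0 :=
        RingHom.mem_ker.1 h1
      rw [h2]
      exact q.zero_mem
    obtain ⟨I, hIJ, hI⟩ := ZE.exists_basis q' (JJ n s) (alg_JJ q' hrel)
    refine ⟨I, hI, ?_⟩
    obtain ⟨y, hy⟩ := htr q hq
    have hf : @FaithfulSMul ℚ (MvPolynomial (Vr n s) ℚ ⧸ q') Algebra.toSMul :=
      (faithfulSMul_iff_algebraMap_injective ℚ _).mpr (algebraMap ℚ _).injective
    have hcard : e ≤ I.card := by
      have h1 := hy.lift_cardinalMk_le_trdeg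
      have h2 := hI.lift_cardinalMk_eq_trdeg
      rw [Cardinal.mk_fin, Cardinal.lift_natCast] at h1
      rw [Cardinal.mk_coe_finset, Cardinal.lift_natCast] at h2
      rw [Cardinal.lift_id'] at h1 h2
      rw [← h2] at h1
      exact_mod_cast h1
    have hK0 : 0 < K := by omega
    -- the product
    have h1 : (∏ j : {j // j ∉ I}, dg n s K j) * K ^ I.card = 2 ^ n * K ^ (n + s) := by
      have h2 : ∏ j ∈ I, dg n s K j = K ^ I.card := by
        rw [Finset.prod_congr rfl fun j hj => dg_JJ (hIJ (Finset.mem_coe.2 hj)),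
          Finset.prod_const]
      have h3 : ∏ j : {j // j ∉ I}, dg n s K j = ∏ j ∈ Iᶜ, dg n s K j := by
        rw [← Finset.prod_coe_sort (Iᶜ) (dg n s K)]
        refine Fintype.prod_equiv (Equiv.subtypeEquivRight fun j => by
          rw [Finset.mem_compl]) _ _ fun j => rfl
      rw [h3, ← h2, mul_comm, Finset.prod_mul_prod_compl, prod_dg, pow_add]
      ring
    have h4 : K ^ (n + s) = K ^ (n + s - e) * K ^ e := by
      rw [← pow_add, Nat.sub_add_cancel he]
    have h5 : K ^ e ≤ K ^ I.card := Nat.pow_le_pow_right hK0 hcard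
    have h6 : (∏ j : {j // j ∉ I}, dg n s K j) * K ^ I.card ≤
        2 ^ n * K ^ (n + s - e) * K ^ I.card := by
      rw [h1, h4, ← mul_assoc]
      exact Nat.mul_le_mul_left _ h5
    exact Nat.le_of_mul_le_mul_right h6 (pow_pos hK0 _)

end MP3550b5.RG
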