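import Mathlib
import Pool.Agent.Lib.MP_3550b5_nt.RG.CountE
import Pool.Agent.Lib.MP_3550b5_nt.ZE.ZCls

/-!
The zero estimate on the torus bundle, with classes of translates.
-/

set_option linter.unusedSectionVars false

open scoped Pointwise

namespace MP3550b5.RG

open Pool.Agent.Lib.MP_3550b5_nt WeierstrassCurve.Affine

variable {p : ℕ} [hp : Fact p.Prime] {a b : ℤ} {n s m : ℕ}

variable {ι : Ln a b n →+* Fn a b n s}
  (hι : ∀ z : Bn a b n, ι (algebraMap _ _ z) = algebraMap (An a b n s) _ (MvPolynomial.C z))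
  {X' : Fin n → Fin s → (curve a b).Point} (𝒜 : Act p a b n s m X')
  {τ : (Fin n → goodGroup p a b) → (Fn a b n s ≃+* Fn a b n s)}
  (hτ0 : ∀ x, τ 0 x = x) (hτa : ∀ g h x, τ (g + h) x = τ g (τ h x))
  (hτι : ∀ g z, τ g (ι z) = ι (𝒜.σ g z))
  (hτX : ∀ g k, τ g (algebraMap (An a b n s) _ (MvPolynomial.X k)) =
    ι (𝒜.c g k) * algebraMap (An a b n s) _ (MvPolynomial.X k))

include hι hτι hτX hτ0 hτa

/-- The zero estimate with classes of translates. -/
theorem zero_E : ∃ C₁ : ℕ, ∀ K : ℕ, 1 ≤ K → ∀ V : Finset (Fin n → goodGroup p a b), 0 ∈ V →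
    ∀ (T₀ : Fin n → (curve a b).Point) (hT₀ : ∀ i, T₀ i ∈ goodGroup p a b),
    (∀ v ∈ (2 * n + s) • (V : Set (Fin n → goodGroup p a b)),
      ∀ w ∈ (2 * n + s) • (V : Set (Fin n → goodGroup p a b)),
        GoodPair (p := p) X' T₀ v (w - v)) →
    ∀ f : An a b n s, f ≠ 0 → HasLift K f →
    (∀ v ∈ (2 * n + s) • (V : Set (Fin n → goodGroup p a b)), f ∈ mA m (dbl X') (sh T₀ (gc v))) →
    ∃ v : Fin n → goodGroup p a b, GoodPair X' T₀ v 0 ∧ ∃ q : Ideal (An a b n s), q.IsPrime ∧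
      q ≤ mA m (dbl X') (sh T₀ (gc v)) ∧ f ∈ q ∧
      ∀ e ≤ n + s, (∀ (q' : Ideal (An a b n s)) (w : Fin n → goodGroup p a b), q'.IsPrime →
        ZE.Stab (mkDat hι 𝒜 hτ0 hτa hτι hτX hT₀) q' = ZE.Stab (mkDat hι 𝒜 hτ0 hτa hτι hτX hT₀) q →
        GoodPair X' T₀ w 0 → q' ≤ mA m (dbl X') (sh T₀ (gc w)) →
        ∃ y : Fin e → MvPolynomial (Vr n s) ℚ, AlgebraicIndependent ℚ fun i =>
          (Ideal.Quotient.mk (q'.comap (presA a b n s).toRingHom) (y i) :
            MvPolynomial (Vr n s) ℚ ⧸ q'.comap (presA a b n s).toRingHom)) →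
        ∃ w ∈ V, ∃ W ⊆ V, (∀ w' ∈ W, w' - w ∈ ZE.Stab (mkDat hι 𝒜 hτ0 hτa hτι hτX hT₀) q) ∧
          V.card ≤ C₁ * K ^ (n + s - e) * W.card := by
  classical
  obtain ⟨C₀, hC₀⟩ := exists_num n s 𝒜.deg
  refine ⟨2 ^ (2 * n + s) * (2 * n + s) ^ (2 * n + s) * 2 ^ n * (3 + C₀) ^ (n + s), ?_⟩
  intro K hK V hV0 T₀ hT₀ hgood f hf0 hfK hfv
  set d := 2 * n + s with hd
  -- numerators
  have hex : ∀ u : Fin n → goodGroup p a b, ∃ (num : An a b n s) (den : Bn a b n),
      HasLift (C₀ * K) num ∧ τ u (algebraMap (An a b n s) _ f) *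
        algebraMap (An a b n s) _ (MvPolynomial.C den) = algebraMap (An a b n s) _ num ∧
      ∀ T : Fin n → (curve a b).Point, GP X' (gc u) T → ∀ h : ∀ i, T i ≠ 0, evB T h den ≠ 0 := by
    intro u
    obtain ⟨num, den, h1, h2, h3⟩ := hC₀ a b {T | GP X' (gc u) T} ι hι (τ u).toRingHom
      (fun i => 𝒜.σ u (algebraMap (Bn a b n) (Ln a b n) (xB a b i)))
      (fun i => 𝒜.σ u (algebraMap (Bn a b n) (Ln a b n) (yB a b i)))
      (fun k => 𝒜.c u k) (fun i => 𝒜.rep_x u i) (fun i => 𝒜.rep_y u i) (fun k => 𝒜.rep_c u k)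
      (fun i => by
        rw [← hι]
        exact hτι u _)
      (fun i => by
        rw [← hι]
        exact hτι u _)
      (fun k => hτX u k) K hK f hfK
    exact ⟨num, den, h1, h2, fun T hT h => h3 T hT h⟩
  choose num den hnum1 hnum2 hden using hex
  -- the sets
  set S : ℕ → Set (Fin n → goodGroup p a b) := fun r =>
    if r ≤ d then (d - r) • (V : Set (Fin n → goodGroup p a b)) else ∅ with hS
  have hmono : ∀ i j : ℕ, i ≤ j → i • (V : Set (Fin n → goodGroup p a b)) ⊆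
      j • (V : Set (Fin n → goodGroup p a b)) := by
    intro i j hij
    exact Set.nsmul_subset_nsmul_right (Finset.mem_coe.2 hV0) hij
  have hSP : ∀ r v, v ∈ S r → r ≤ d ∧ v ∈ (d - r) • (V : Set (Fin n → goodGroup p a b)) := by
    intro r v hv
    by_cases hr : r ≤ d
    · have h1 : S r = (d - r) • (V : Set (Fin n → goodGroup p a b)) := if_pos hr
      rw [h1] at hv
      exact ⟨hr, hv⟩
    · have h1 : S r = ∅ := if_neg hr
      rw [h1] at hv
      exact absurd hv (Set.notMem_empty v)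
  have hadd : ∀ r v u, v ∈ S r → u ∈ r • (V : Set (Fin n → goodGroup p a b)) →
      v + u ∈ d • (V : Set (Fin n → goodGroup p a b)) := by
    intro r v u hv hu
    obtain ⟨hr, hv⟩ := hSP r v hv
    have h1 := Set.add_mem_add hv hu
    rwa [← add_nsmul, Nat.sub_add_cancel hr] at h1
  have hSd : ∀ r v, v ∈ S r → v ∈ d • (V : Set (Fin n → goodGroup p a b)) := by
    intro r v hv
    obtain ⟨hr, hv⟩ := hSP r v hv
    exact hmono _ _ (Nat.sub_le d r) hv
  have hpair : ∀ r v u, v ∈ S r → u ∈ r • (V : Set (Fin n → goodGroup p a b)) →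
      GoodPair X' T₀ v u := by
    intro r v u hv hu
    have h1 := hgood v (hSd r v hv) (v + u) (hadd r v u hv hu)
    rwa [add_sub_cancel_left] at h1
  have hS0 : S 0 = d • (V : Set (Fin n → goodGroup p a b)) := by
    show (if 0 ≤ d then (d - 0) • (V : Set (Fin n → goodGroup p a b)) else ∅) = _
    rw [if_pos (Nat.zero_le d), Nat.sub_zero]
  have hdV : S d = {0} := by
    show (if d ≤ d then (d - d) • (V : Set (Fin n → goodGroup p a b)) else ∅) = _
    rw [if_pos le_rfl, Nat.sub_self, zero_nsmul]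
    rfl
  have a1 : ∀ r, ∀ v ∈ S (r + 1), ∀ w ∈ V, v + w ∈ S r ∧ GoodPair X' T₀ v w := by
    intro r v hv w hw
    have hr : r + 1 ≤ d := (hSP _ _ hv).1
    refine ⟨?_, ?_⟩
    · have h1 : S r = (d - r) • (V : Set (Fin n → goodGroup p a b)) := if_pos (by omega)
      rw [h1]
      have h2 := Set.add_mem_add (hSP _ _ hv).2 (Finset.mem_coe.2 hw)
      rwa [← succ_nsmul, show d - (r + 1) + 1 = d - r by omega] at h2
    · refine hpair (r + 1) v w hv (hmono 1 (r + 1) (by omega) ?_)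
      rw [one_nsmul]
      exact Finset.mem_coe.2 hw
  have a2 : (S d).Nonempty := by
    rw [hdV]
    exact Set.singleton_nonempty 0
  have a3 : ∀ v ∈ S 0, f ∈ mA m (dbl X') (sh T₀ (gc v)) := by
    intro v hv
    rw [hS0] at hv
    exact hfv v hv
  have a4 : ∀ v ∈ S d, ((mkDat hι 𝒜 hτ0 hτa hτι hτX hT₀).m v).height ≤ d := by
    intro v hv
    refine (height_le_of_surj (presA a b n s).toRingHom presA_surjective _ ?_).trans (le_of_eq
      (by rw [card_var]))
    rw [hdV, Set.mem_singleton_iff] at hv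
    rw [hv]
    have h0 : (0 : Fin n → goodGroup p a b) ∈ d • (V : Set (Fin n → goodGroup p a b)) := by
      apply hmono 0 d (Nat.zero_le d)
      rw [zero_nsmul]
      rfl
    have h1 := hgood 0 h0 0 h0
    rw [sub_self] at h1
    exact ((mkDat hι 𝒜 hτ0 hτa hτι hτX hT₀).prime 0 0 h1).ne_top
  have a5 : ∀ r, ∀ v ∈ S r, ∀ u ∈ r • (V : Set (Fin n → goodGroup p a b)),
      MvPolynomial.C (den u) ∉ mA m (dbl X') (sh T₀ (gc v)) := by
    intro r v hv u hu
    have h1 := hpair r v u hv hu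
    rw [mem_mA h1.1.ne, evA_C]
    exact hden u _ h1.1 _
  have key := ZE.zero_classes (mkDat hι 𝒜 hτ0 hτa hτι hτX hT₀) d V hV0 S a1 a2 f hf0 a3 a4
    (fun r => r • (V : Set (Fin n → goodGroup p a b))) (zero_nsmul _) (fun r => succ_nsmul _ _)
    (fun r v hv u hu => hpair r v u hv hu) num (fun u => MvPolynomial.C (den u)) hnum2 a5
  obtain ⟨r, hr, v, hv, q, hq, hqm, hfq, hst⟩ := key
  have h1 := hSd _ _ hv
  have h2 := hgood v h1 v h1
  rw [sub_self] at h2
  refine ⟨v, h2, q, hq, hqm, hfq, fun e he htr => ?_⟩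
  obtain ⟨w, hw, W, hWV, hW, hc⟩ := hst (2 ^ (2 * n + s) * (2 * n + s) ^ (2 * n + s) * 2 ^ n *
    ((3 + C₀) * K) ^ (n + s - e)) (by
      intro P hP
      have h3 : 3 ≤ (3 + C₀) * K := by nlinarith
      refine card_minimal_tr ((3 + C₀) * K) h3
        (num '' (r • (V : Set (Fin n → goodGroup p a b)))) ?_ P (fun q' hq' => (hP q' hq').1) e he
        fun q' hq' => ?_
      · rintro _ ⟨u, -, rfl⟩
        exact (hnum1 u).mono (by nlinarith)
      · obtain ⟨h4, h5, w, hw, hG, h6⟩ := hP q' hq'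
        have h7 : v + w ∈ S r := (a1 r v hv w hw).1
        have h8 := hSd _ _ h7
        have h9 := hgood (v + w) h8 (v + w) h8
        rw [sub_self] at h9
        exact htr q' (v + w) h4.1.1 h5 h9 h6)
  refine ⟨w, hw, W, hWV, hW, hc.trans ?_⟩
  refine Nat.mul_le_mul_right _ ?_
  rw [mul_pow]
  have h5 : (3 + C₀) ^ (n + s - e) ≤ (3 + C₀) ^ (n + s) :=
    Nat.pow_le_pow_right (by omega) (Nat.sub_le _ _)
  calc 2 ^ (2 * n + s) * (2 * n + s) ^ (2 * n + s) * 2 ^ n *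
        ((3 + C₀) ^ (n + s - e) * K ^ (n + s - e))
      = 2 ^ (2 * n + s) * (2 * n + s) ^ (2 * n + s) * 2 ^ n * (3 + C₀) ^ (n + s - e) *
        K ^ (n + s - e) := by ring
    _ ≤ _ := Nat.mul_le_mul_right _ (Nat.mul_le_mul_left _ h5)

end MP3550b5.RG
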