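import Mathlib
import Pool.Agent.Lib.MP_3550b5_nt.RG.ZeroE
import Pool.Agent.Lib.MP_3550b5_nt.RG.ZeroC
import Pool.Agent.Lib.MP_3550b5_nt.RG.Pair

/-!
The zero estimate for two elliptic factors.
-/

set_option linter.unusedSectionVars false

open scoped Pointwise

namespace MP3550b5.RG

open Pool.Agent.Lib.MP_3550b5_nt WeierstrassCurve.Affine

variable {p : ℕ} [hp : Fact p.Prime] {a b : ℤ} {n s m : ℕ}

/-- One fibre coordinate over one factor. -/
def X1 (R : (curve a b).Point) : Fin 1 → Fin 1 → (curve a b).Point := fun _ _ => R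

lemma goodPair_iff {X' : Fin n → Fin s → (curve a b).Point} {T₀ : Fin n → (curve a b).Point}
    {v u : Fin n → goodGroup p a b} : GoodPair X' T₀ v u ↔
      ∀ i, GoodPair (fun _ : Fin 1 => X' i) (fun _ => T₀ i) (fun _ => v i) (fun _ => u i) := by
  constructor
  · intro h i
    exact ⟨fun _ => h.1 i, fun _ => h.2 i⟩
  · intro h
    exact ⟨fun i => (h i).1 0, fun i => (h i).2 0⟩

/-- Almost all multiples of an element give good pairs. -/
lemma finite_bad_mul {X' : Fin n → Fin s → (curve a b).Point} {T₀ : Fin n → (curve a b).Point}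
    {v : Fin n → goodGroup p a b} (hv : GoodPair X' T₀ v 0) (g : Fin n → goodGroup p a b) :
    {j : ℕ | ¬ GoodPair X' T₀ v (j • g)}.Finite := by
  classical
  have h1 : ∀ i, {j : ℕ | ¬ GoodPair (fun _ : Fin 1 => X' i) (fun _ => T₀ i) (fun _ => v i)
      (fun _ => (j • g) i)}.Finite := by
    intro i
    have hvi := goodPair_iff.1 hv i
    by_cases hg : g i = 0
    · refine Set.Finite.subset Set.finite_empty ?_
      intro j hj
      apply hj
      have h2 : (fun _ : Fin 1 => (j • g) i) = fun _ => (0 : Fin n → goodGroup p a b) i := by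
        funext _
        rw [Pi.smul_apply, hg, smul_zero]
        rfl
      rw [h2]
      exact hvi
    · have hS : (fun _ : Fin 1 => v i) ∈ S1 (fun _ : Fin 1 => X' i) (fun _ => T₀ i) :=
        ⟨hvi.1.ne 0, fun k => hvi.1.ne_X 0 k⟩
      have hinj : Function.Injective (fun j : ℕ => (fun _ : Fin 1 => (j • g) i)) := by
        intro j j' hjj
        have h3 : (j • g) i = (j' • g) i := congrFun hjj 0
        have hg1 : ((g i : goodGroup p a b) : (curve a b).Point) ≠ 0 := by
          intro h0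
          exact hg (Subtype.ext h0)
        have h4 := good_not_torsion (g i).2 hg1
        rw [← injective_nsmul_iff_not_isOfFinAddOrder] at h4
        apply h4
        exact congrArg Subtype.val h3
      exact (finite_bad hS).preimage hinj.injOn
  refine (Set.finite_iUnion h1).subset ?_
  intro j hj
  rw [Set.mem_iUnion]
  by_contra hcon
  push Not at hcon
  apply hj
  rw [goodPair_iff]
  intro i
  have := hcon i
  by_contra h2
  exact this h2

/-- The abscissae of infinitely many points are infinite in number. -/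
lemma infinite_ptX (hinf : Infinite (goodGroup p a b)) :
    (ptX '' {T : (curve a b).Point | T ∈ goodGroup p a b ∧ T ≠ 0}).Infinite := by
  intro hfin
  have hS : {T : (curve a b).Point | T ∈ goodGroup p a b ∧ T ≠ 0}.Infinite := by
    have h1 : ((goodGroup p a b : Set (curve a b).Point)).Infinite := Set.infinite_coe_iff.1 hinf
    have h2 := h1.sdiff (Set.finite_singleton 0)
    refine h2.mono ?_
    rintro T ⟨hT, hT0⟩
    exact ⟨hT, hT0⟩
  apply hS
  have h2 : {T : (curve a b).Point | T ∈ goodGroup p a b ∧ T ≠ 0} ⊆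
      ⋃ x ∈ ptX '' {T : (curve a b).Point | T ∈ goodGroup p a b ∧ T ≠ 0},
        {T : (curve a b).Point | T ≠ 0 ∧ ptX T = x} := by
    intro T hT
    rw [Set.mem_iUnion₂]
    exact ⟨ptX T, ⟨T, hT, rfl⟩, hT.2, rfl⟩
  refine (hfin.biUnion fun x _ => ?_).subset h2
  by_cases hne : ∃ T₀ : (curve a b).Point, T₀ ≠ 0 ∧ ptX T₀ = x
  · obtain ⟨T₀, h3, h4⟩ := hne
    refine (Set.toFinite {T₀, -T₀}).subset ?_
    rintro T ⟨h5, h6⟩
    exact eq_or_neg_of_ptX h5 h3 (h6.trans h4.symm)
  · refine Set.Finite.subset Set.finite_empty ?_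
    intro T hT
    exact absurd ⟨T, hT⟩ hne

/-- The abscissa and a fibre coordinate are algebraically independent. -/
lemma aeval_ne_zero (hinf : Infinite (goodGroup p a b)) {F : MvPolynomial (Fin 2) ℚ}
    (hF : F ≠ 0) : MvPolynomial.aeval (![MvPolynomial.C (xB a b (0 : Fin 1)),
      MvPolynomial.X (0 : Fin 1)] : Fin 2 → An a b 1 1) F ≠ 0 := by
  intro h
  apply hF
  refine MvPolynomial.funext_set (![ptX '' {T : (curve a b).Point | T ∈ goodGroup p a b ∧ T ≠ 0},
    Set.univ] : Fin 2 → Set ℚ) ?_ ?_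
  · intro i
    fin_cases i
    · exact infinite_ptX hinf
    · exact Set.infinite_univ
  · intro x hx
    rw [map_zero]
    obtain ⟨T, ⟨-, hT0⟩, hT⟩ : x 0 ∈ ptX '' {T : (curve a b).Point | T ∈ goodGroup p a b ∧ T ≠ 0} :=
      hx 0 (Set.mem_univ _)
    let θ : An a b 1 1 →+* ℚ := MvPolynomial.eval₂Hom
      (evB (n := 1) (fun _ => T) (fun _ => hT0) : Bn a b 1 →+* ℚ) (fun _ => x 1)
    have h1 : ∀ G : MvPolynomial (Fin 2) ℚ, θ (MvPolynomial.aeval
        (![MvPolynomial.C (xB a b (0 : Fin 1)), MvPolynomial.X (0 : Fin 1)] : Fin 2 → An a b 1 1) G)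
          = MvPolynomial.eval x G := by
      intro G
      induction G using MvPolynomial.induction_on with
      | C c =>
        rw [MvPolynomial.aeval_C, MvPolynomial.eval_C]
        exact RingHom.congr_fun (RingHom.ext_rat (θ.comp (algebraMap ℚ (An a b 1 1)))
          (RingHom.id ℚ)) c
      | add G G' hG hG' =>
        rw [map_add, map_add, map_add, hG, hG']
      | mul_X G i hG =>
        rw [map_mul, map_mul, map_mul, hG, MvPolynomial.aeval_X, MvPolynomial.eval_X]
        congr 1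
        fin_cases i
        · show θ (MvPolynomial.C (xB a b (0 : Fin 1))) = x 0
          show MvPolynomial.eval₂Hom _ _ _ = _
          rw [MvPolynomial.coe_eval₂Hom, MvPolynomial.eval₂_C]
          rw [← hT]
          exact evB_x (fun _ => T) (fun _ => hT0) 0
        · show θ (MvPolynomial.X (0 : Fin 1)) = x 1
          show MvPolynomial.eval₂Hom _ _ _ = _
          rw [MvPolynomial.coe_eval₂Hom, MvPolynomial.eval₂_X]
    rw [← h1, h, map_zero]

/-- The value of a polynomial in an abscissa and a fibre coordinate. -/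
lemma evA_aeval {X' : Fin n → Fin s → (curve a b).Point} {T : Fin n → (curve a b).Point}
    (hT : ∀ i, T i ≠ 0) (i : Fin n) (k : Fin s) (F : MvPolynomial (Fin 2) ℚ) :
    evA m X' T hT (MvPolynomial.aeval (![MvPolynomial.C (xB a b i),
      MvPolynomial.X k] : Fin 2 → An a b n s) F) =
      MvPolynomial.eval ![ptX (T i), wv m X' T k] F := by
  induction F using MvPolynomial.induction_on with
  | C c =>
    rw [MvPolynomial.aeval_C, MvPolynomial.eval_C]
    exact RingHom.congr_fun (RingHom.ext_rat ((evA m X' T hT).comp (algebraMap ℚ (An a b n s)))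
      (RingHom.id ℚ)) c
  | add G G' hG hG' =>
    rw [map_add, map_add, map_add, hG, hG']
  | mul_X G j hG =>
    rw [map_mul, map_mul, map_mul, hG, MvPolynomial.aeval_X, MvPolynomial.eval_X]
    congr 1
    fin_cases j
    · show evA m X' T hT (MvPolynomial.C (xB a b i)) = ptX (T i)
      rw [evA_C, evB_x]
    · show evA m X' T hT (MvPolynomial.X k) = wv m X' T k
      rw [evA_X]

variable {ι : Ln a b n →+* Fn a b n s}
  (hι : ∀ z : Bn a b n, ι (algebraMap _ _ z) = algebraMap (An a b n s) _ (MvPolynomial.C z))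
  {X' : Fin n → Fin s → (curve a b).Point} (𝒜 : Act p a b n s m X')
  {τ : (Fin n → goodGroup p a b) → (Fn a b n s ≃+* Fn a b n s)}
  (hτ0 : ∀ x, τ 0 x = x) (hτa : ∀ g h x, τ (g + h) x = τ g (τ h x))
  (hτι : ∀ g z, τ g (ι z) = ι (𝒜.σ g z))
  (hτX : ∀ g k, τ g (algebraMap (An a b n s) _ (MvPolynomial.X k)) =
    ι (𝒜.c g k) * algebraMap (An a b n s) _ (MvPolynomial.X k))
  {T₀ : Fin n → (curve a b).Point} (hT₀ : ∀ i, T₀ i ∈ goodGroup p a b)

/-- A function in a stable prime ideal vanishes along almost all multiples. -/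
lemma vanish_mul {v : Fin n → goodGroup p a b} (hv : GoodPair X' T₀ v 0) {q : Ideal (An a b n s)}
    (hq : q.IsPrime) (hqm : q ≤ mA m (dbl X') (sh T₀ (gc v))) {f : An a b n s} (hf : f ∈ q)
    {g : Fin n → goodGroup p a b} (hg : g ∈ ZE.Stab (mkDat hι 𝒜 hτ0 hτa hτι hτX hT₀) q) :
    {j : ℕ | f ∉ mA m (dbl X') (sh T₀ (gc (v + j • g)))}.Finite := by
  refine (finite_bad_mul hv g).subset ?_
  intro j hj hG
  apply hj
  exact ZE.mem_of_Stab (𝒟 := mkDat hι 𝒜 hτ0 hτa hτι hτX hT₀) hG hqm hf (nsmul_mem hg j)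

/-- An abscissa and a fibre coordinate which depends on one factor only are algebraically
independent modulo a stable prime ideal. -/
lemma indep_of_stab (hinf : Infinite (goodGroup p a b)) {i : Fin n} {k : Fin s}
    (hX : ∀ i', i' ≠ i → X' i' k = 0) {g : Fin n → goodGroup p a b}
    (hO : Orbit p a b 1 1 m (X1 (X' i k)) fun _ : Fin 1 => g i)
    {v : Fin n → goodGroup p a b} (hv : GoodPair X' T₀ v 0) {q : Ideal (An a b n s)}
    (hq : q.IsPrime) (hqm : q ≤ mA m (dbl X') (sh T₀ (gc v)))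
    (hg : g ∈ ZE.Stab (mkDat hι 𝒜 hτ0 hτa hτι hτX hT₀) q) :
    AlgebraicIndependent ℚ fun j : Fin 2 =>
      (Ideal.Quotient.mk (q.comap (presA a b n s).toRingHom)
        ((![MvPolynomial.X (Sum.inl (Sum.inl i)), MvPolynomial.X (Sum.inr k)] :
          Fin 2 → MvPolynomial (Vr n s) ℚ) j) :
            MvPolynomial (Vr n s) ℚ ⧸ q.comap (presA a b n s).toRingHom) := by
  classical
  rw [algebraicIndependent_iff]
  intro F hF
  by_contra hF0
  set y : Fin 2 → MvPolynomial (Vr n s) ℚ :=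
    ![MvPolynomial.X (Sum.inl (Sum.inl i)), MvPolynomial.X (Sum.inr k)] with hy
  have h1 : (Ideal.Quotient.mk (q.comap (presA a b n s).toRingHom) (MvPolynomial.aeval y F) :
      MvPolynomial (Vr n s) ℚ ⧸ q.comap (presA a b n s).toRingHom) = 0 := by
    rw [← hF]
    exact (MvPolynomial.comp_aeval_apply _
      (Ideal.Quotient.mkₐ ℚ (q.comap (presA a b n s).toRingHom)) F)
  rw [Ideal.Quotient.eq_zero_iff_mem, Ideal.mem_comap] at h1
  set f' : An a b n s := MvPolynomial.aeval (![MvPolynomial.C (xB a b i), MvPolynomial.X k] :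
    Fin 2 → An a b n s) F with hf'
  have h2 : (presA a b n s).toRingHom (MvPolynomial.aeval y F) = f' := by
    show presA a b n s (MvPolynomial.aeval y F) = f'
    rw [MvPolynomial.comp_aeval_apply, hf']
    congr 2
    funext j
    fin_cases j
    · show presA a b n s (MvPolynomial.X (Sum.inl (Sum.inl i))) = MvPolynomial.C (xB a b i)
      rw [presA, MvPolynomial.aeval_X]
      rfl
    · show presA a b n s (MvPolynomial.X (Sum.inr k)) = MvPolynomial.X k
      rw [presA, MvPolynomial.aeval_X]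
      rfl
  rw [h2] at h1
  have h3 := vanish_mul hι 𝒜 hτ0 hτa hτι hτX hT₀ hv hq hqm h1 hg
  have h4 := hO (fun _ => sh T₀ (gc v) i) (fun _ => sh_good hT₀ v i) _ (aeval_ne_zero hinf hF0)
  -- the bad multiples
  have h5 := finite_bad_mul hv g
  apply h4
  refine (h3.union h5).subset ?_
  intro j hj
  by_contra hcon
  rw [Set.mem_union, not_or] at hcon
  obtain ⟨h6, h7⟩ := hcon
  have h6' : f' ∈ mA m (dbl X') (sh T₀ (gc (v + j • g))) := by
    by_contra h
    exact h6 h
  have h7' : GoodPair X' T₀ v (j • g) := by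
    by_contra h
    exact h7 h
  apply hj
  set T : Fin n → (curve a b).Point := sh T₀ (gc (v + j • g)) with hT
  have hT0 : ∀ i, T i ≠ 0 := h7'.2.ne
  have e1 : sh (fun _ : Fin 1 => sh T₀ (gc v) i) (gc (j • fun _ : Fin 1 => g i)) =
      fun _ : Fin 1 => T i := by
    funext _
    rw [hT, ← sh_sh]
    rfl
  have hne : ∀ i' : Fin 1, (fun _ : Fin 1 => T i) i' ≠ 0 := fun _ => hT0 i
  rw [e1, mem_mA hne]
  rw [mem_mA hT0, hf', evA_aeval] at h6'
  have e2 : wv m (dbl (X1 (X' i k))) (fun _ : Fin 1 => T i) 0 = wv m (dbl X') T k := by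
    rw [wv, wv, Fin.prod_univ_one, Finset.prod_eq_single i]
    · rfl
    · intro i' _ hi'
      have h8 : dbl X' i' k = 0 := by
        show X' i' k + X' i' k = 0
        rw [hX i' hi', add_zero]
      rw [h8, sub_zero, div_self (dn_ne_zero (hT0 i')), one_pow]
    · intro h
      exact absurd (Finset.mem_univ i) h
  have e3 := evA_aeval (m := m) (X' := dbl (X1 (X' i k))) hne 0 0 F
  rw [e2] at e3
  rw [e3]
  exact h6'

/-- **The zero estimate** for two elliptic factors and three fibre coordinates. -/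
theorem zero_two (hΔ : 4 * a ^ 3 + 27 * b ^ 2 ≠ 0) (hinf : Infinite (goodGroup p a b)) {m : ℕ}
    (hm : Even m) {R₁ R₂ : (curve a b).Point} (hR₁ : R₁ ∈ goodGroup p a b)
    (hR₂ : R₂ ∈ goodGroup p a b)
    (hO1 : ∀ R ∈ ({R₁, R₂} : Set (curve a b).Point), ∀ g : Fin 1 → goodGroup p a b, g ≠ 0 →
      Orbit p a b 1 1 m (X1 R) g)
    (hO2 : ∀ g : Fin 2 → goodGroup p a b, (∀ c d : ℤ, c • g 0 + d • g 1 = 0 → c = 0 ∧ d = 0) →
      Orbit p a b 2 3 m (PX R₁ R₂) g) :
    ∃ C : ℕ, ∀ K : ℕ, 1 ≤ K → ∀ V : Finset (Fin 2 → goodGroup p a b), 0 ∈ V →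
    ∀ (T₀ : Fin 2 → (curve a b).Point) (_ : ∀ i, T₀ i ∈ goodGroup p a b),
    (∀ v ∈ 7 • (V : Set (Fin 2 → goodGroup p a b)),
      ∀ w ∈ 7 • (V : Set (Fin 2 → goodGroup p a b)),
        GoodPair (p := p) (PX R₁ R₂) T₀ v (w - v)) →
    ∀ f : An a b 2 3, f ≠ 0 → HasLift K f →
    (∀ v ∈ 7 • (V : Set (Fin 2 → goodGroup p a b)),
      f ∈ mA m (dbl (PX R₁ R₂)) (sh T₀ (gc v))) →
    V.card ≤ C * K ^ 5 ∨ ∃ H : AddSubgroup (Fin 2 → goodGroup p a b),
      (∀ g ∈ H, ∃ c d : ℤ, (c ≠ 0 ∨ d ≠ 0) ∧ c • g 0 + d • g 1 = 0) ∧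
      ∃ w ∈ V, ∃ W ⊆ V, (∀ w' ∈ W, w' - w ∈ H) ∧ V.card ≤ C * K ^ 3 * W.card := by
  classical
  have hX2 : ∀ i k, PX R₁ R₂ i k ∈ goodGroup p a b := by
    intro i k
    fin_cases i <;> fin_cases k
    · exact hR₁
    · exact zero_mem _
    · exact hR₂
    · exact zero_mem _
    · exact hR₂
    · exact hR₁
  obtain ⟨𝒜⟩ := exists_act (n := 2) hΔ hinf hm (PX R₁ R₂) hX2
  obtain ⟨ι, τ, hι, hτ0, hτa, hτι, hτX⟩ := exists_ext (s := 3) 𝒜.σ 𝒜.c 𝒜.σ_zero 𝒜.σ_add 𝒜.c_ne
    𝒜.c_add
  obtain ⟨C, hC⟩ := zero_E hι 𝒜 hτ0 hτa hτι hτX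
  refine ⟨C, ?_⟩
  intro K hK V hV0 T₀ hT₀ hgood f hf0 hfK hfv
  have e1 : 2 * 2 + 3 = 7 := rfl
  rw [e1] at hC
  obtain ⟨v, hv, q, hq, hqm, hfq, h⟩ := hC K hK V hV0 T₀ hT₀ hgood f hf0 hfK hfv
  by_cases hst : ZE.Stab (mkDat hι 𝒜 hτ0 hτa hτι hτX hT₀) q = ⊥
  · left
    obtain ⟨w, hw, W, hWV, hW, hc⟩ := h 0 (by norm_num) fun q' w hq' _ _ _ =>
      ⟨fun i => Fin.elim0 i, by
        have : (q'.comap (presA a b 2 3).toRingHom).IsPrime := Ideal.comap_isPrime _ _
        have : Nontrivial (MvPolynomial (Vr 2 3) ℚ ⧸ q'.comap (presA a b 2 3).toRingHom) :=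
          Ideal.Quotient.nontrivial_iff.2 this.ne_top
        exact algebraicIndependent_empty_type⟩
    have h1 : W ⊆ {w} := by
      intro x hx
      have := hW x hx
      rw [hst, AddSubgroup.mem_bot, sub_eq_zero] at this
      rw [Finset.mem_singleton]
      exact this
    have h2 : W.card ≤ 1 := by
      have := Finset.card_le_card h1
      rwa [Finset.card_singleton] at this
    calc V.card ≤ C * K ^ (2 + 3 - 0) * W.card := hc
      _ ≤ C * K ^ (2 + 3 - 0) * 1 := Nat.mul_le_mul_left _ h2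
      _ = C * K ^ 5 := mul_one _
  · right
    obtain ⟨g, hg0⟩ := AddSubgroup.ne_bot_iff_exists_ne_zero.1 hst
    refine ⟨ZE.Stab (mkDat hι 𝒜 hτ0 hτa hτι hτX hT₀) q, ?_, ?_⟩
    · intro g hg
      by_contra hcon
      push Not at hcon
      have h1 : ∀ c d : ℤ, c • g 0 + d • g 1 = 0 → c = 0 ∧ d = 0 := by
        intro c d h0
        by_contra hcd
        rw [not_and_or] at hcd
        exact hcon c d hcd h0
      have h2 := hO2 g h1 (sh T₀ (gc v)) (fun i => sh_good hT₀ v i) f hf0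
      apply h2
      refine (vanish_mul hι 𝒜 hτ0 hτa hτι hτX hT₀ hv hq hqm hfq hg).subset ?_
      intro j hj
      rw [Set.mem_ofPred_eq, sh_sh] at hj
      exact hj
    · refine h 2 (by norm_num) fun q' w hq' hst' hw hq'm => ?_
      have hgst : (g : Fin 2 → goodGroup p a b) ∈
          ZE.Stab (mkDat hι 𝒜 hτ0 hτa hτι hτX hT₀) q' := by
        rw [hst']
        exact g.2
      have hne : ∃ i, (g : Fin 2 → goodGroup p a b) i ≠ 0 := by
        by_contra hcon
        push Not at hcon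
        exact hg0 (Subtype.ext (funext hcon))
      obtain ⟨i, hi⟩ := hne
      have hc1 : (fun _ : Fin 1 => (g : Fin 2 → goodGroup p a b) i) ≠ 0 :=
        fun h0 => hi (congrFun h0 0)
      fin_cases i
      · refine ⟨_, indep_of_stab hι 𝒜 hτ0 hτa hτι hτX hT₀ hinf (i := 0) (k := 0) ?_ ?_ hw hq'
          hq'm hgst⟩
        · intro i' hi'
          fin_cases i'
          · exact absurd rfl hi'
          · rfl
        · exact hO1 R₁ (Or.inl rfl) _ hc1
      · refine ⟨_, indep_of_stab hι 𝒜 hτ0 hτa hτι hτX hT₀ hinf (i := 1) (k := 1) ?_ ?_ hw hq'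
          hq'm hgst⟩
        · intro i' hi'
          fin_cases i'
          · rfl
          · exact absurd rfl hi'
        · exact hO1 R₂ (Or.inr rfl) _ hc1

end MP3550b5.RG
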