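import Mathlib
import Pool.Agent.Lib.MP_3550b5_nt.RG.OrbT
import Pool.Agent.Lib.MP_3550b5_nt.RG.Zero2

/-!
Orbits of a subgroup of a power of the good group.
-/

set_option linter.unusedSectionVars false

namespace MP3550b5.RG

open Pool.Agent.Lib.MP_3550b5_nt WeierstrassCurve.Affine

variable {p : ℕ} [hp : Fact p.Prime] {a b : ℤ} {n s m : ℕ}

/-- A set of translations is small if, apart from finitely many proper cosets, a nonzero function
on the base vanishes at all points `T + 2 h`. -/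
def Small (T : Fin n → (curve a b).Point) (S : Set (Fin n → goodGroup p a b)) : Prop :=
  ∃ z : Bn a b n, z ≠ 0 ∧ ∃ C : Finset ((Fin n → ℤ) × goodGroup p a b), (∀ c ∈ C, c.1 ≠ 0) ∧
    ∀ h ∈ S, (∀ c ∈ C, ∑ i, c.1 i • h i ≠ c.2) →
      ∀ h0 : ∀ i, sh T (gc h) i ≠ 0, evB (sh T (gc h)) h0 z = 0

lemma Small.mono {T : Fin n → (curve a b).Point} {S S' : Set (Fin n → goodGroup p a b)}
    (h : Small T S) (hS : S' ⊆ S) : Small T S' := by
  obtain ⟨z, hz, C, hC, h⟩ := h
  exact ⟨z, hz, C, hC, fun g hg => h g (hS hg)⟩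

lemma Small.union {T : Fin n → (curve a b).Point} {S S' : Set (Fin n → goodGroup p a b)}
    (h : Small T S) (h' : Small T S') : Small T (S ∪ S') := by
  classical
  obtain ⟨z, hz, C, hC, h⟩ := h
  obtain ⟨z', hz', C', hC', h'⟩ := h'
  refine ⟨z * z', mul_ne_zero hz hz', C ∪ C', ?_, ?_⟩
  · intro c hc
    rcases Finset.mem_union.1 hc with hc | hc
    · exact hC c hc
    · exact hC' c hc
  · intro g hg hgC h0
    rw [map_mul]
    rcases hg with hg | hg
    · rw [h g hg (fun c hc => hgC c (Finset.mem_union_left _ hc)) h0, zero_mul]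
    · rw [h' g hg (fun c hc => hgC c (Finset.mem_union_right _ hc)) h0, mul_zero]

lemma Small.empty {T : Fin n → (curve a b).Point} : Small (p := p) T ∅ :=
  ⟨1, one_ne_zero, ∅, fun _ h => absurd h (Finset.notMem_empty _), fun _ h => absurd h id⟩

lemma Small.iUnion {ι : Type*} [Finite ι] {T : Fin n → (curve a b).Point}
    {S : ι → Set (Fin n → goodGroup p a b)} (h : ∀ i, Small T (S i)) : Small T (⋃ i, S i) := by
  classical
  have h1 : ∀ t : Finset ι, Small T (⋃ i ∈ t, S i) := by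
    intro t
    induction t using Finset.induction_on with
    | empty => simpa using Small.empty
    | insert i t _ ih =>
      rw [Finset.set_biUnion_insert]
      exact (h i).union ih
  have := Fintype.ofFinite ι
  have h2 := h1 Finset.univ
  simpa using h2

/-- Zero sets are small. -/
lemma Small.zeros {T : Fin n → (curve a b).Point} {z : Bn a b n} (hz : z ≠ 0) :
    Small (p := p) T {h | ∀ h0 : ∀ i, sh T (gc h) i ≠ 0, evB (sh T (gc h)) h0 z = 0} :=
  ⟨z, hz, ∅, fun _ h => absurd h (Finset.notMem_empty _), fun _ h _ => h⟩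

/-- Proper cosets are small. -/
lemma Small.coset {T : Fin n → (curve a b).Point} {c : Fin n → ℤ} (hc : c ≠ 0)
    (e : goodGroup p a b) : Small T {h | ∑ i, c i • h i = e} := by
  refine ⟨1, one_ne_zero, {(c, e)}, ?_, ?_⟩
  · intro c' hc'
    rw [Finset.mem_singleton] at hc'
    rw [hc']
    exact hc
  · intro h hh hC
    exact absurd hh (hC (c, e) (Finset.mem_singleton_self _))

/-- Conditions on a coordinate are small. -/
lemma Small.coord {T : Fin n → (curve a b).Point} (i : Fin n) {F : Set (goodGroup p a b)}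
    (hF : F.Finite) : Small T {h | h i ∈ F} := by
  classical
  have := hF.to_subtype
  have h1 : Small T (⋃ e : F, {h : Fin n → goodGroup p a b | ∑ j, (Pi.single i (1 : ℤ) :
      Fin n → ℤ) j • h j = e}) := by
    refine Small.iUnion fun e => Small.coset ?_ _
    intro h0
    have := congrFun h0 i
    rw [Pi.single_eq_same] at this
    exact one_ne_zero this
  refine h1.mono ?_
  intro h hh
  rw [Set.mem_iUnion]
  refine ⟨⟨h i, hh⟩, ?_⟩
  show ∑ j, (Pi.single i (1 : ℤ) : Fin n → ℤ) j • h j = h i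
  rw [Finset.sum_eq_single i]
  · rw [Pi.single_eq_same, one_zsmul]
  · intro j _ hj
    rw [Pi.single_eq_of_ne hj, zero_zsmul]
  · intro h
    exact absurd (Finset.mem_univ i) h

/-- Doubling is injective. -/
lemma sh_inj_coord (T : (curve a b).Point) :
    Function.Injective fun x : goodGroup p a b =>
      T + ((x : (curve a b).Point) + (x : (curve a b).Point)) := by
  intro x y hxy
  have h1 : (x : (curve a b).Point) + x = (y : (curve a b).Point) + y := add_left_cancel hxy
  have h2 : 2 • ((x - y : goodGroup p a b) : (curve a b).Point) = 0 := by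
    rw [AddSubgroup.coe_sub, nsmul_sub, two_nsmul, two_nsmul, h1, sub_self]
  have h3 := good_nsmul (x - y).2 (by norm_num) h2
  exact sub_eq_zero.1 (Subtype.ext h3)

lemma Small.coordE {T : Fin n → (curve a b).Point} (T' : Fin n → (curve a b).Point)
    {E : Fin n → Set (curve a b).Point} (hE : ∀ i, (E i).Finite) :
    Small (p := p) T {h | ∃ i, sh T' (gc h) i ∈ E i} := by
  have h1 : Small T (⋃ i, {h : Fin n → goodGroup p a b | h i ∈
      (fun x : goodGroup p a b => T' i + ((x : (curve a b).Point) + (x : (curve a b).Point))) ⁻¹'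
        (E i)}) :=
    Small.iUnion fun i => Small.coord i ((hE i).preimage (sh_inj_coord _).injOn)
  refine h1.mono ?_
  rintro h ⟨i, hi⟩
  rw [Set.mem_iUnion]
  exact ⟨i, hi⟩

lemma Small.gp {T : Fin n → (curve a b).Point} (T' : Fin n → (curve a b).Point)
    (X' : Fin n → Fin s → (curve a b).Point) (δ : Fin n → goodGroup p a b) :
    Small T {h : Fin n → goodGroup p a b | ¬ GP X' (gc δ) (sh T' (gc h))} := by
  refine (Small.coordE (T := T) T' (E := fun i => Ex (X' i) (gc δ i)) fun i =>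
    Ex_finite _ _).mono ?_
  intro h hh
  by_contra hcon
  exact hh fun i hi => hcon ⟨i, hi⟩

/-- Bad pairs are small. -/
lemma Small.bad {T : Fin n → (curve a b).Point} {X' : Fin n → Fin s → (curve a b).Point}
    {T₀ : Fin n → (curve a b).Point} {v : Fin n → goodGroup p a b} (hv : GoodPair X' T₀ v 0) :
    Small T {h | ¬ GoodPair X' T₀ v h} := by
  have h1 : ∀ i, Small T {h : Fin n → goodGroup p a b |
      ¬ GoodPair (fun _ : Fin 1 => X' i) (fun _ => T₀ i) (fun _ => v i) (fun _ => h i)} := by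
    intro i
    have hvi := goodPair_iff.1 hv i
    have hS : (fun _ : Fin 1 => v i) ∈ S1 (fun _ : Fin 1 => X' i) (fun _ => T₀ i) :=
      ⟨hvi.1.ne 0, fun k => hvi.1.ne_X 0 k⟩
    have h2 := (finite_bad hS).preimage (f := fun (x : goodGroup p a b) (_ : Fin 1) => x)
      (fun x _ y _ hxy => congrFun hxy 0)
    exact Small.coord i h2
  refine (Small.iUnion h1).mono ?_
  intro h hh
  rw [Set.mem_iUnion]
  by_contra hcon
  push Not at hcon
  apply hh
  rw [goodPair_iff]
  intro i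
  have := hcon i
  by_contra h2
  exact this h2

/-- Translates of small sets. -/
lemma Small.shift {X' : Fin n → Fin s → (curve a b).Point} (𝒜 : Act p a b n s m X')
    {T : Fin n → (curve a b).Point} {S : Set (Fin n → goodGroup p a b)} (h : Small T S)
    (g : Fin n → goodGroup p a b) : Small T {h | h + g ∈ S} := by
  classical
  obtain ⟨z, hz, C, hC, h⟩ := h
  obtain ⟨u, v, hv, hzuv⟩ := IsFractionRing.div_surjective (A := Bn a b n)
    (𝒜.σ g (algebraMap _ _ z))
  have hv0 : v ≠ 0 := nonZeroDivisors.ne_zero hv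
  have hv1 : algebraMap (Bn a b n) (Ln a b n) v ≠ 0 := fun h0 =>
    hv0 (IsFractionRing.injective (Bn a b n) (Ln a b n) (by rw [h0, map_zero]))
  have hu0 : u ≠ 0 := by
    rintro rfl
    rw [map_zero, zero_div] at hzuv
    have h1 := (map_eq_zero (𝒜.σ g)).1 hzuv.symm
    exact hz (IsFractionRing.injective (Bn a b n) (Ln a b n) (by rw [h1, map_zero]))
  have h1 : Small T {h : Fin n → goodGroup p a b | h + g ∈ S ∧ GP X' (gc g) (sh T (gc h))} := by
    refine ⟨u, hu0, C.image fun c => (c.1, c.2 - ∑ i, c.1 i • g i), ?_, ?_⟩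
    · intro c hc
      obtain ⟨c', hc', rfl⟩ := Finset.mem_image.1 hc
      exact hC c' hc'
    · rintro h' ⟨h2, h3⟩ h4 h0
      have h5 : ∀ c ∈ C, ∑ i, c.1 i • (h' + g) i ≠ c.2 := by
        intro c hc h6
        apply h4 (c.1, c.2 - ∑ i, c.1 i • g i) (Finset.mem_image.2 ⟨c, hc, rfl⟩)
        show ∑ i, c.1 i • h' i = c.2 - ∑ i, c.1 i • g i
        rw [← h6, eq_sub_iff_add_eq, ← Finset.sum_add_distrib]
        exact Finset.sum_congr rfl fun i _ => (zsmul_add _ _ _).symm
      have e1 : sh (sh T (gc h')) (gc g) = sh T (gc (h' + g)) := sh_sh _ _ _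
      have h6 : ∀ i, sh T (gc (h' + g)) i ≠ 0 := by
        rw [← e1]
        exact h3.sh_ne
      have h7 := h (h' + g) h2 h5 h6
      have h8 : Val (evB (sh (sh T (gc h')) (gc g)) h3.sh_ne : Bn a b n →+* ℚ)
          (algebraMap (Bn a b n) (Ln a b n) z) 0 :=
        val_congr (h := h6) e1.symm (Val.alg' h7)
      have h9 := (𝒜.σ_val g _ h3 _ _ h8).mul
        (Val.alg (F := Ln a b n) (ev := (evB (sh T (gc h')) h3.ne : Bn a b n →+* ℚ)) v)
      rw [← hzuv, div_mul_cancel₀ _ hv1, zero_mul] at h9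
      exact (Val.alg (F := Ln a b n) u).unique h9
  refine (h1.union (Small.gp T X' g)).mono ?_
  intro h' hh'
  by_cases h2 : GP X' (gc g) (sh T (gc h'))
  · exact Or.inl ⟨hh', h2⟩
  · exact Or.inr h2

/-- The invariants of a subgroup which is not small are constants. -/
lemma orb_constH {X' : Fin n → Fin s → (curve a b).Point} (𝒜 : Act p a b n s m X')
    {T : Fin n → (curve a b).Point} {H : AddSubgroup (Fin n → goodGroup p a b)}
    (hD : ¬ Small T (H : Set (Fin n → goodGroup p a b))) {z : Ln a b n}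
    (hz : ∀ g ∈ H, 𝒜.σ g z = z) :
    ∃ t : ℚ, z = algebraMap (Bn a b n) (Ln a b n) (algebraMap ℚ (Bn a b n) t) := by
  classical
  obtain ⟨u, v, hv, hzuv⟩ := IsFractionRing.div_surjective (A := Bn a b n) z
  have hv0 : v ≠ 0 := nonZeroDivisors.ne_zero hv
  have hv1 : algebraMap (Bn a b n) (Ln a b n) v ≠ 0 := fun h0 =>
    hv0 (IsFractionRing.injective (Bn a b n) (Ln a b n) (by rw [h0, map_zero]))
  -- a good point
  obtain ⟨h₀, hh₀, h0, hv2, hGP⟩ : ∃ h₀ ∈ H, ∃ h0 : ∀ i, sh T (gc h₀) i ≠ 0,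
      evB (sh T (gc h₀)) h0 v ≠ 0 ∧ GP X' (gc (0 : Fin n → goodGroup p a b)) (sh T (gc h₀)) := by
    by_contra hcon
    push Not at hcon
    apply hD
    refine ((Small.zeros hv0).union (Small.gp T X' 0)).mono ?_
    intro h hh
    by_cases h1 : GP X' (gc (0 : Fin n → goodGroup p a b)) (sh T (gc h))
    · left
      intro h0
      by_contra h2
      exact hcon h hh h0 h2 h1
    · exact Or.inr h1
  have hgp0 : GoodPair X' T h₀ 0 := by
    refine ⟨hGP, ?_⟩
    rw [neg_zero, add_zero]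
    exact hGP
  set d : ℚ := evB (sh T (gc h₀)) h0 u / evB (sh T (gc h₀)) h0 v with hd
  have hval0 : Val (evB (sh T (gc h₀)) h0 : Bn a b n →+* ℚ) z d := by
    rw [← hzuv]
    exact Val.div (Val.alg' rfl) (Val.alg' rfl) hv2
  have hval : ∀ g ∈ H, GoodPair X' T h₀ (g - h₀) → ∀ h1 : ∀ i, sh T (gc g) i ≠ 0,
      Val (evB (sh T (gc g)) h1 : Bn a b n →+* ℚ) z d := by
    intro g hg hG h1
    have h2 := hG.2
    rw [add_sub_cancel] at h2
    have e1 : sh T (gc h₀) = sh (sh T (gc g)) (gc (-(g - h₀))) := by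
      rw [sh_sh]
      congr 2
      abel
    have h3 := 𝒜.σ_val (-(g - h₀)) _ h2 z d (val_congr e1 hval0)
    rwa [hz _ (neg_mem (sub_mem hg hh₀))] at h3
  refine ⟨d, ?_⟩
  have huv : u - algebraMap ℚ (Bn a b n) d * v = 0 := by
    by_contra hne
    apply hD
    refine ((Small.zeros hne).union ((Small.bad (T := T) hgp0).shift 𝒜 (-h₀))).mono ?_
    intro g hg
    by_cases h1 : GoodPair X' T h₀ (g - h₀)
    · left
      intro h2
      have h5 := hval g hg h1 h2
      have h6 := h5.mul (Val.alg (F := Ln a b n) (ev := (evB (sh T (gc g)) h2 : Bn a b n →+* ℚ)) v)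
      rw [← hzuv, div_mul_cancel₀ _ hv1] at h6
      have h7 := h6.unique (Val.alg u)
      rw [map_sub, map_mul, AlgHom.commutes, sub_eq_zero]
      exact h7.symm
    · right
      show ¬ GoodPair X' T h₀ (g + -h₀)
      rw [← sub_eq_add_neg]
      exact h1
  rw [← hzuv, div_eq_iff hv1, ← map_mul, sub_eq_zero.1 huv]

section eig

variable {ι : Ln a b n →+* Fn a b n s}
  (hι : ∀ z : Bn a b n, ι (algebraMap _ _ z) = algebraMap (An a b n s) _ (MvPolynomial.C z))
  {X' : Fin n → Fin s → (curve a b).Point} (𝒜 : Act p a b n s m X')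
  {τ : (Fin n → goodGroup p a b) → (Fn a b n s ≃+* Fn a b n s)}
  (hτι : ∀ g z, τ g (ι z) = ι (𝒜.σ g z))
  (hτX : ∀ g k, τ g (algebraMap (An a b n s) _ (MvPolynomial.X k)) =
    ι (𝒜.c g k) * algebraMap (An a b n s) _ (MvPolynomial.X k))

include hι hτι hτX

/-- **Eigenfunctions** from a function which vanishes along the orbit of a subgroup. -/
theorem orbit_eigenH {T : Fin n → (curve a b).Point} (hT : ∀ i, T i ∈ goodGroup p a b)
    {H : AddSubgroup (Fin n → goodGroup p a b)}
    (hD : ¬ Small T (H : Set (Fin n → goodGroup p a b))) {f : An a b n s}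
    (hf0 : f ≠ 0) (hf : Small T {h | h ∈ H ∧ f ∉ mA m (dbl X') (sh T (gc h))}) :
    ∃ k₀ k₁ : Fin s →₀ ℕ, k₀ ≠ k₁ ∧ ∃ P : Ln a b n, P ≠ 0 ∧
      ∃ χ : (Fin n → goodGroup p a b) → ℚ, ∀ δ,
        𝒜.σ δ P * (k₁.prod fun i e => 𝒜.c δ i ^ e) =
          algebraMap (Bn a b n) (Ln a b n) (algebraMap ℚ (Bn a b n) (χ δ)) *
            (P * (k₀.prod fun i e => 𝒜.c δ i ^ e)) := by
  classical
  let _ : Algebra (Ln a b n) (Fn a b n s) := ι.toAlgebra
  have hLF : ∀ z : Ln a b n, algebraMap (Ln a b n) (Fn a b n s) z = ι z := fun _ => rfl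
  have hmon : ∀ k : Fin s →₀ ℕ, (MvPolynomial.monomial k 1 : An a b n s) =
      k.prod fun i e => MvPolynomial.X i ^ e := by
    intro k
    rw [MvPolynomial.monomial_eq, MvPolynomial.C_1, one_mul]
  have hinj : Function.Injective (algebraMap (An a b n s) (Fn a b n s)) :=
    IsFractionRing.injective (An a b n s) (Fn a b n s)
  -- the subspace
  let M : Submodule (Ln a b n) (Fn a b n s) :=
    { carrier := {x | ∃ d : Bn a b n, d ≠ 0 ∧ ∃ f : An a b n s,
        x * algebraMap (An a b n s) (Fn a b n s) (MvPolynomial.C d) = algebraMap _ _ f ∧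
          Small T {h | h ∈ H ∧ f ∉ mA m (dbl X') (sh T (gc h))}}
      zero_mem' := by
        refine ⟨1, one_ne_zero, 0, by rw [zero_mul, map_zero], ?_⟩
        refine Small.empty.mono ?_
        rintro j ⟨-, hj⟩
        exact hj (Ideal.zero_mem _)
      add_mem' := by
        rintro x y ⟨d, hd, f, hf, hF⟩ ⟨d', hd', f', hf', hF'⟩
        refine ⟨d * d', mul_ne_zero hd hd', f * MvPolynomial.C d' + f' * MvPolynomial.C d, ?_, ?_⟩
        · rw [map_add, map_mul (algebraMap (An a b n s) (Fn a b n s)) f,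
            map_mul (algebraMap (An a b n s) (Fn a b n s)) f', ← hf, ← hf', MvPolynomial.C_mul,
            map_mul]
          ring
        · refine (hF.union hF').mono ?_
          rintro j ⟨hjH, hj⟩
          by_contra hcon
          rw [Set.mem_union, not_or] at hcon
          apply hj
          have h1 : f ∈ mA m (dbl X') (sh T (gc j)) := by
            by_contra h; exact hcon.1 ⟨hjH, h⟩
          have h2 : f' ∈ mA m (dbl X') (sh T (gc j)) := by
            by_contra h; exact hcon.2 ⟨hjH, h⟩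
          exact Ideal.add_mem _ (Ideal.mul_mem_right _ _ h1) (Ideal.mul_mem_right _ _ h2)
      smul_mem' := by
        rintro z x ⟨d, hd, f, hf, hF⟩
        obtain ⟨e, he, f', hf'⟩ := den_ι (s := s) hι z
        refine ⟨d * e, mul_ne_zero hd he, f * f', ?_, ?_⟩
        · rw [Algebra.smul_def, hLF, map_mul (algebraMap (An a b n s) (Fn a b n s)) f, ← hf, ← hf',
            MvPolynomial.C_mul, map_mul]
          ring
        · refine hF.mono ?_
          rintro j ⟨hjH, hj⟩
          exact ⟨hjH, fun hcon => hj (Ideal.mul_mem_right _ _ hcon)⟩ }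
  have hM : ∀ x, x ∈ M ↔ ∃ d : Bn a b n, d ≠ 0 ∧ ∃ f : An a b n s,
        x * algebraMap (An a b n s) (Fn a b n s) (MvPolynomial.C d) = algebraMap _ _ f ∧
          Small T {h | h ∈ H ∧ f ∉ mA m (dbl X') (sh T (gc h))} := fun _ => Iff.rfl
  obtain ⟨k₀, k₁, hk, P, hP, h⟩ := ZE.min_support
    (fun k : Fin s →₀ ℕ => algebraMap (An a b n s) (Fn a b n s) (MvPolynomial.monomial k 1)) M
    (by
      intro k hk
      rw [hM] at hk
      obtain ⟨d, hd, f', hf', hF⟩ := hk
      rw [← map_mul] at hf'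
      have h1 := hinj hf'
      -- the fibre coordinates do not vanish
      have h2 : Small T {h : Fin n → goodGroup p a b |
          ∃ i, sh T (gc h) i ∈ ({0} ∪ Set.range fun k => dbl X' i k : Set (curve a b).Point)} :=
        Small.coordE (T := T) T (E := fun i => {0} ∪ Set.range fun k => dbl X' i k)
          fun i => (Set.finite_singleton _).union (Set.finite_range _)
      apply hD
      refine ((Small.zeros hd).union (hF.union h2)).mono ?_
      intro j hjH
      by_contra hcon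
      rw [Set.mem_union, Set.mem_union, not_or, not_or] at hcon
      obtain ⟨h3, h3', h3''⟩ := hcon
      apply h3
      intro h0
      have h4 : f' ∈ mA m (dbl X') (sh T (gc j)) := by
        by_contra h; exact h3' ⟨hjH, h⟩
      rw [mem_mA h0, ← h1, map_mul, evA_C, hmon, Finsupp.prod, map_prod] at h4
      rcases mul_eq_zero.1 h4 with h5 | h5
      · rw [Finset.prod_eq_zero_iff] at h5
        obtain ⟨i, -, hi⟩ := h5
        rw [map_pow, evA_X] at hi
        refine absurd hi (pow_ne_zero _ (wv_ne_zero h0 fun i' hi' => h3'' ⟨i', ?_⟩))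
        exact Or.inr ⟨i, hi'.symm⟩
      · exact h5)
    (algebraMap (An a b n s) (Fn a b n s) f)
    (fun h0 => hf0 (hinj (by rw [h0, map_zero])))
    (by
      rw [hM]
      exact ⟨1, one_ne_zero, f, by rw [MvPolynomial.C_1, map_one, mul_one], hf⟩)
    (by
      rw [f.as_sum, map_sum]
      refine Submodule.sum_mem _ fun k _ => ?_
      have h1 : (MvPolynomial.monomial k (f.coeff k) : An a b n s) =
          MvPolynomial.C (f.coeff k) * MvPolynomial.monomial k 1 := by
        rw [MvPolynomial.C_mul_monomial, mul_one]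
      rw [h1, map_mul, ← hι, ← hLF, ← Algebra.smul_def]
      exact Submodule.smul_mem _ _ (Submodule.subset_span ⟨k, rfl⟩))
    (H : Set (Fin n → goodGroup p a b)) (fun v => (τ v).toRingHom) 𝒜.σ
    (fun v _ a => hτι v a) (fun v k => k.prod fun i e => 𝒜.c v i ^ e)
    (by
      intro v _ k
      exact Finset.prod_ne_zero_iff.2 fun i _ => pow_ne_zero _ (𝒜.c_ne v i))
    (by
      intro v _ k
      show τ v (algebraMap (An a b n s) (Fn a b n s) (MvPolynomial.monomial k 1)) =
        ι (k.prod fun i e => 𝒜.c v i ^ e) *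
          algebraMap (An a b n s) (Fn a b n s) (MvPolynomial.monomial k 1)
      rw [hmon, Finsupp.prod, Finsupp.prod, map_prod, map_prod, map_prod,
        ← Finset.prod_mul_distrib]
      refine Finset.prod_congr rfl fun i _ => ?_
      rw [map_pow, map_pow, map_pow, hτX, mul_pow])
    (by
      intro v hv y hy
      rw [hM] at hy ⊢
      obtain ⟨d, hd, f', hf', hF⟩ := hy
      -- denominators
      obtain ⟨d₁, hd₁, f₁, hf₁⟩ := den_τ hι 𝒜 hτι hτX v f'
      obtain ⟨u₂, v₂, hv₂, hz₂⟩ := IsFractionRing.div_surjective (A := Bn a b n)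
        (𝒜.σ v (algebraMap _ _ d))
      have hv20 : v₂ ≠ 0 := nonZeroDivisors.ne_zero hv₂
      have hv21 : algebraMap (Bn a b n) (Ln a b n) v₂ ≠ 0 := fun h0 =>
        hv20 (IsFractionRing.injective (Bn a b n) (Ln a b n) (by rw [h0, map_zero]))
      have hu20 : u₂ ≠ 0 := by
        rintro rfl
        rw [map_zero, zero_div] at hz₂
        have h1 := (map_eq_zero (𝒜.σ v)).1 hz₂.symm
        exact hd (IsFractionRing.injective (Bn a b n) (Ln a b n) (by rw [h1, map_zero]))
      have hσ : ι (𝒜.σ v (algebraMap _ _ d)) *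
          algebraMap (An a b n s) (Fn a b n s) (MvPolynomial.C v₂) =
            algebraMap (An a b n s) (Fn a b n s) (MvPolynomial.C u₂) := by
        rw [← hι, ← hι, ← map_mul, ← hz₂, div_mul_cancel₀ _ hv21]
      have hy1 : τ v y * ι (𝒜.σ v (algebraMap _ _ d)) = τ v (algebraMap _ _ f') := by
        rw [← hf', map_mul, ← hι, hτι]
      refine ⟨u₂ * d₁, mul_ne_zero hu20 hd₁, f₁ * MvPolynomial.C v₂, ?_, ?_⟩
      · show τ v y * _ = _
        rw [MvPolynomial.C_mul, map_mul, ← hσ, map_mul (algebraMap (An a b n s) (Fn a b n s)) f₁,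
          ← hf₁, ← hy1]
        ring
      · refine ((hF.shift 𝒜 v).union (Small.gp (T := T) T X' v)).mono ?_
        rintro j ⟨hjH, hj⟩
        by_contra hcon
        rw [Set.mem_union, not_or] at hcon
        have h2 : f' ∈ mA m (dbl X') (sh T (gc (j + v))) := by
          by_contra h; exact hcon.1 ⟨add_mem hjH hv, h⟩
        have h3 : GP X' (gc v) (sh T (gc j)) := by
          by_contra h; exact hcon.2 h
        apply hj
        refine Ideal.mul_mem_right _ _ ?_
        rw [mem_mA h3.ne]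
        have h4 := val_tau' hι 𝒜 hτι hτX hT h3 f'
        have h5 : evA m (dbl X') (sh T (gc (j + v))) (by
            intro i
            rw [← sh_sh]
            exact h3.sh_ne i) f' = 0 := by
          rw [← mem_mA]
          exact h2
        rw [h5] at h4
        have h6 := h4.mul (Val.alg (F := Fn a b n s) (ev := evA m (dbl X') (sh T (gc j)) h3.ne)
          (MvPolynomial.C d₁))
        rw [hf₁, zero_mul] at h6
        exact (Val.alg (F := Fn a b n s) f₁).unique h6)
  refine ⟨k₀, k₁, hk, P, hP, ?_⟩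
  set C : (Fin n → goodGroup p a b) → (Fin s →₀ ℕ) → Ln a b n :=
    fun v k => k.prod fun i e => 𝒜.c v i ^ e with hC
  have hC0 : ∀ v k, C v k ≠ 0 := fun v k =>
    Finset.prod_ne_zero_iff.2 fun i _ => pow_ne_zero _ (𝒜.c_ne v i)
  have hcc : ∀ u v k, 𝒜.σ u (C v k) * C u k = C (u + v) k := by
    intro u v k
    rw [hC]
    simp only [Finsupp.prod]
    rw [map_prod, ← Finset.prod_mul_distrib]
    refine Finset.prod_congr rfl fun i _ => ?_
    rw [map_pow, ← mul_pow, 𝒜.c_add, mul_comm (𝒜.c u i)]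
  have hcomm : ∀ u v z, 𝒜.σ u (𝒜.σ v z) = 𝒜.σ v (𝒜.σ u z) := by
    intro u v z
    rw [← 𝒜.σ_add, add_comm, 𝒜.σ_add]
  have hcc' : ∀ u v k, 𝒜.σ u (C v k) * C u k = 𝒜.σ v (C u k) * C v k := by
    intro u v k
    rw [hcc, add_comm, hcc]
  have key : ∀ δ, ∃ t : ℚ, 𝒜.σ δ P * C δ k₁ / (P * C δ k₀) =
      algebraMap (Bn a b n) (Ln a b n) (algebraMap ℚ (Bn a b n) t) := by
    intro δ
    apply orb_constH 𝒜 hD
    intro g hg
    have hg1 := h g hg
    have hs0 : ∀ {z}, z ≠ 0 → 𝒜.σ g z ≠ 0 := fun hz h0 => hz ((map_eq_zero (𝒜.σ g)).1 h0)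
    rw [map_div₀, map_mul, map_mul, div_eq_div_iff (mul_ne_zero (hs0 hP) (hs0 (hC0 δ k₀)))
      (mul_ne_zero hP (hC0 δ k₀))]
    have h1 : 𝒜.σ δ (𝒜.σ g P) * 𝒜.σ δ (C g k₁) = 𝒜.σ δ P * 𝒜.σ δ (C g k₀) := by
      rw [← map_mul, hg1, map_mul]
    have h3 := hcc' g δ k₀
    have h4 := hcc' g δ k₁
    rw [hcomm g δ P]
    have h5 : C g k₀ * C g k₁ ≠ 0 := mul_ne_zero (hC0 g k₀) (hC0 g k₁)
    apply mul_right_cancel₀ h5
    calc 𝒜.σ δ (𝒜.σ g P) * 𝒜.σ g (C δ k₁) * (P * C δ k₀) * (C g k₀ * C g k₁)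
        = 𝒜.σ δ (𝒜.σ g P) * (𝒜.σ g (C δ k₁) * C g k₁) * (P * C g k₀) * C δ k₀ := by ring
      _ = 𝒜.σ δ (𝒜.σ g P) * (𝒜.σ δ (C g k₁) * C δ k₁) * (𝒜.σ g P * C g k₁) * C δ k₀ := by
          rw [h4, hg1]
      _ = (𝒜.σ δ (𝒜.σ g P) * 𝒜.σ δ (C g k₁)) * C δ k₁ * (𝒜.σ g P * C g k₁) * C δ k₀ := by ring
      _ = (𝒜.σ δ P * 𝒜.σ δ (C g k₀)) * C δ k₁ * (𝒜.σ g P * C g k₁) * C δ k₀ := by rw [h1]
      _ = (𝒜.σ δ P * C δ k₁) * 𝒜.σ g P * (𝒜.σ δ (C g k₀) * C δ k₀) * C g k₁ := by ring
      _ = (𝒜.σ δ P * C δ k₁) * 𝒜.σ g P * (𝒜.σ g (C δ k₀) * C g k₀) * C g k₁ := by rw [h3]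
      _ = 𝒜.σ δ P * C δ k₁ * (𝒜.σ g P * 𝒜.σ g (C δ k₀)) * (C g k₀ * C g k₁) := by ring
  choose χ hχ using key
  refine ⟨χ, fun δ => ?_⟩
  show 𝒜.σ δ P * C δ k₁ = _ * (P * C δ k₀)
  rw [← hχ δ, div_mul_cancel₀ _ (mul_ne_zero hP (hC0 δ k₀))]

end eig

/-- No nonzero function vanishes along the orbit of a subgroup, up to a small set. -/
def OrbitH (p : ℕ) [Fact p.Prime] (a b : ℤ) (n s m : ℕ)
    (X' : Fin n → Fin s → (curve a b).Point) (H : AddSubgroup (Fin n → goodGroup p a b)) : Prop :=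
  ∀ T : Fin n → (curve a b).Point, (∀ i, T i ∈ goodGroup p a b) → ∀ f : An a b n s, f ≠ 0 →
    ¬ Small T {h | h ∈ H ∧ f ∉ mA m (dbl X') (sh T (gc h))}

/-- **Orbits of subgroups**, given the density in the base. -/
theorem orbitH_of_dense (hΔ : 4 * a ^ 3 + 27 * b ^ 2 ≠ 0) (hinf : Infinite (goodGroup p a b))
    {m : ℕ} (hm : Even m) (hm1 : 1 ≤ m) {X' : Fin n → Fin s → (curve a b).Point}
    (hX' : ∀ i k, X' i k ∈ goodGroup p a b)
    (hind : ∀ μ : Fin s → ℤ, (∀ i, lin (X' i) μ = 0) → μ = 0)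
    {H : AddSubgroup (Fin n → goodGroup p a b)}
    (hD : ∀ T : Fin n → (curve a b).Point, (∀ i, T i ∈ goodGroup p a b) →
      ¬ Small T (H : Set (Fin n → goodGroup p a b))) :
    OrbitH p a b n s m X' H := by
  intro T hT f hf0 hfin
  obtain ⟨𝒜⟩ := exists_act (n := n) hΔ hinf hm X' hX'
  obtain ⟨ι, τ, hι, hτ0, hτa, hτι, hτX⟩ := exists_ext (s := s) 𝒜.σ 𝒜.c 𝒜.σ_zero 𝒜.σ_add 𝒜.c_ne
    𝒜.c_add
  obtain ⟨k₀, k₁, hk, P, hP, χ, h⟩ := orbit_eigenH hι 𝒜 hτι hτX hT (hD T hT) hf0 hfin
  have h1 : ∃ i, lin (X' i) (fun l => (k₁ l : ℤ) - k₀ l) ≠ 0 := by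
    by_contra hcon
    push Not at hcon
    have h2 := hind _ hcon
    apply hk
    ext l
    have h3 := congrFun h2 l
    simp only [Pi.zero_apply] at h3
    omega
  obtain ⟨i, hi⟩ := h1
  exact no_eigenN hΔ hinf hm1 hX' 𝒜 hi hP h

end MP3550b5.RG
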