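import Mathlib
import Pool.Agent.Lib.MP_3550b5_nt.RG.OrbH
import Pool.Agent.Lib.MP_3550b5_nt.RG.Frame

/-!
The zero estimate for tuples: stabilisers.
-/

set_option linter.unusedSectionVars false

open scoped Pointwise

namespace MP3550b5.RG

open Pool.Agent.Lib.MP_3550b5_nt WeierstrassCurve.Affine

variable {p : ℕ} [hp : Fact p.Prime] {a b : ℤ} {n s m : ℕ}

/-- The abscissae and the fibre coordinates are algebraically independent. -/
lemma aeval_ne_zeroN {d' s' : ℕ} (hinf : Infinite (goodGroup p a b))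
    {F : MvPolynomial (Fin d' ⊕ Fin s') ℚ} (hF : F ≠ 0) :
    MvPolynomial.aeval (Sum.elim (fun i => MvPolynomial.C (xB a b i))
      (fun k => MvPolynomial.X k) : Fin d' ⊕ Fin s' → An a b d' s') F ≠ 0 := by
  intro h
  apply hF
  refine MvPolynomial.funext_set
    (Sum.elim (fun _ => ptX '' {T : (curve a b).Point | T ∈ goodGroup p a b ∧ T ≠ 0})
      (fun _ => Set.univ) : Fin d' ⊕ Fin s' → Set ℚ) ?_ ?_
  · rintro (i | i)
    · exact infinite_ptX hinf
    · exact Set.infinite_univ
  · intro x hx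
    rw [map_zero]
    have hx' : ∀ i : Fin d', ∃ T : (curve a b).Point, T ≠ 0 ∧ ptX T = x (Sum.inl i) := by
      intro i
      obtain ⟨T, ⟨-, hT0⟩, hT⟩ : x (Sum.inl i) ∈
          ptX '' {T : (curve a b).Point | T ∈ goodGroup p a b ∧ T ≠ 0} :=
        hx (Sum.inl i) (Set.mem_univ _)
      exact ⟨T, hT0, hT⟩
    choose T hT0 hT using hx'
    let θ : An a b d' s' →+* ℚ := MvPolynomial.eval₂Hom
      (evB T hT0 : Bn a b d' →+* ℚ) (fun k => x (Sum.inr k))
    have h1 : ∀ G : MvPolynomial (Fin d' ⊕ Fin s') ℚ, θ (MvPolynomial.aeval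
        (Sum.elim (fun i => MvPolynomial.C (xB a b i))
          (fun k => MvPolynomial.X k) : Fin d' ⊕ Fin s' → An a b d' s') G) =
          MvPolynomial.eval x G := by
      intro G
      induction G using MvPolynomial.induction_on with
      | C c =>
        rw [MvPolynomial.aeval_C, MvPolynomial.eval_C]
        exact RingHom.congr_fun (RingHom.ext_rat (θ.comp (algebraMap ℚ (An a b d' s')))
          (RingHom.id ℚ)) c
      | add G G' hG hG' =>
        rw [map_add, map_add, map_add, hG, hG']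
      | mul_X G i hG =>
        rw [map_mul, map_mul, map_mul, hG, MvPolynomial.aeval_X, MvPolynomial.eval_X]
        congr 1
        rcases i with i | i
        · show MvPolynomial.eval₂Hom _ _ (MvPolynomial.C (xB a b i)) = _
          rw [MvPolynomial.coe_eval₂Hom, MvPolynomial.eval₂_C, ← hT]
          exact evB_x T hT0 i
        · show MvPolynomial.eval₂Hom _ _ (MvPolynomial.X i) = _
          rw [MvPolynomial.coe_eval₂Hom, MvPolynomial.eval₂_X]
    rw [← h1, h, map_zero]

/-- The value of a polynomial in abscissae and fibre coordinates. -/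
lemma evA_aevalN {d' s' : ℕ} {X' : Fin n → Fin s → (curve a b).Point}
    {T : Fin n → (curve a b).Point} (hT : ∀ i, T i ≠ 0) (κ : Fin d' → Fin n) (l : Fin s' → Fin s)
    (F : MvPolynomial (Fin d' ⊕ Fin s') ℚ) :
    evA m X' T hT (MvPolynomial.aeval (Sum.elim (fun i => MvPolynomial.C (xB a b (κ i)))
      (fun k => MvPolynomial.X (l k)) : Fin d' ⊕ Fin s' → An a b n s) F) =
      MvPolynomial.eval (Sum.elim (fun i => ptX (T (κ i))) fun k => wv m X' T (l k)) F := by
  induction F using MvPolynomial.induction_on with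
  | C c =>
    rw [MvPolynomial.aeval_C, MvPolynomial.eval_C]
    exact RingHom.congr_fun (RingHom.ext_rat ((evA m X' T hT).comp (algebraMap ℚ (An a b n s)))
      (RingHom.id ℚ)) c
  | add G G' hG hG' =>
    rw [map_add, map_add, map_add, hG, hG']
  | mul_X G j hG =>
    rw [map_mul, map_mul, map_mul, hG, MvPolynomial.aeval_X, MvPolynomial.eval_X]
    congr 1
    rcases j with j | j
    · show evA m X' T hT (MvPolynomial.C (xB a b (κ j))) = ptX (T (κ j))
      rw [evA_C, evB_x]
    · show evA m X' T hT (MvPolynomial.X (l j)) = wv m X' T (l j)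
      rw [evA_X]

/-- The projection to some coordinates. -/
def prj {G : Type*} [AddCommGroup G] {d d' : ℕ} (κ : Fin d' → Fin d) :
    (Fin d → G) →+ (Fin d' → G) where
  toFun g i := g (κ i)
  map_zero' := rfl
  map_add' _ _ := rfl

/-- The fibre coordinates over some coordinates. -/
lemma wv_prj {d' s' : ℕ} {X : Fin n → Fin s → (curve a b).Point} {T : Fin n → (curve a b).Point}
    (hT : ∀ i, T i ≠ 0) {κ : Fin d' → Fin n} (hκ : Function.Injective κ) {l : Fin s' → Fin s}
    (hX : ∀ j, (∀ i, κ i ≠ j) → ∀ k, X j (l k) = 0) (k : Fin s') :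
    wv m (fun i k => X (κ i) (l k)) (fun i => T (κ i)) k = wv m X T (l k) := by
  classical
  rw [wv, wv, ← Finset.prod_subset (Finset.subset_univ (Finset.univ.image κ))]
  · rw [Finset.prod_image fun x _ y _ h => hκ h]
  · intro j _ hj
    have h1 : ∀ i, κ i ≠ j := fun i hi => hj (Finset.mem_image.2 ⟨i, Finset.mem_univ _, hi⟩)
    rw [hX j h1 k, sub_zero, div_self (dn_ne_zero (hT j)), one_pow]

variable {ι : Ln a b n →+* Fn a b n s}
  (hι : ∀ z : Bn a b n, ι (algebraMap _ _ z) = algebraMap (An a b n s) _ (MvPolynomial.C z))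
  {X' : Fin n → Fin s → (curve a b).Point} (𝒜 : Act p a b n s m X')
  {τ : (Fin n → goodGroup p a b) → (Fn a b n s ≃+* Fn a b n s)}
  (hτ0 : ∀ x, τ 0 x = x) (hτa : ∀ g h x, τ (g + h) x = τ g (τ h x))
  (hτι : ∀ g z, τ g (ι z) = ι (𝒜.σ g z))
  (hτX : ∀ g k, τ g (algebraMap (An a b n s) _ (MvPolynomial.X k)) =
    ι (𝒜.c g k) * algebraMap (An a b n s) _ (MvPolynomial.X k))
  {T₀ : Fin n → (curve a b).Point} (hT₀ : ∀ i, T₀ i ∈ goodGroup p a b)

/-- A function in a stable prime ideal vanishes along the orbit of the stabiliser, up to a small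
set. -/
lemma vanish_stab {v : Fin n → goodGroup p a b} (hv : GoodPair X' T₀ v 0)
    {q : Ideal (An a b n s)} (hq : q.IsPrime) (hqm : q ≤ mA m (dbl X') (sh T₀ (gc v)))
    {f : An a b n s} (hf : f ∈ q) :
    Small (sh T₀ (gc v)) {g | g ∈ ZE.Stab (mkDat hι 𝒜 hτ0 hτa hτι hτX hT₀) q ∧
      f ∉ mA m (dbl X') (sh (sh T₀ (gc v)) (gc g))} := by
  refine (Small.bad hv).mono ?_
  rintro g ⟨hg, hgf⟩ hG
  apply hgf
  rw [sh_sh]
  exact ZE.mem_of_Stab (𝒟 := mkDat hι 𝒜 hτ0 hτa hτι hτX hT₀) hG hqm hf hg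

/-- Bad elements of a subgroup with a frame are small after projection. -/
lemma small_prj {d' : ℕ} {κ : Fin d' → Fin n} {H : AddSubgroup (Fin n → goodGroup p a b)}
    (hrel : ∀ j, ∃ D : ℤ, D ≠ 0 ∧ ∃ α : Fin d' → ℤ, ∀ g ∈ H, D • g j = ∑ i, α i • g (κ i))
    {v : Fin n → goodGroup p a b} (hv : GoodPair X' T₀ v 0) (T : Fin d' → (curve a b).Point) :
    Small T {h : Fin d' → goodGroup p a b | ∃ g ∈ H, prj κ g = h ∧ ¬ GoodPair X' T₀ v g} := by
  have h1 : ∀ j : Fin n, Small T {h : Fin d' → goodGroup p a b | ∃ g ∈ H, prj κ g = h ∧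
      ¬ GoodPair (fun _ : Fin 1 => X' j) (fun _ => T₀ j) (fun _ => v j) (fun _ => g j)} := by
    intro j
    have hvj := goodPair_iff.1 hv j
    have hS : (fun _ : Fin 1 => v j) ∈ S1 (fun _ : Fin 1 => X' j) (fun _ => T₀ j) :=
      ⟨hvj.1.ne 0, fun k => hvj.1.ne_X 0 k⟩
    have hfin := (finite_bad hS).preimage (f := fun (x : goodGroup p a b) (_ : Fin 1) => x)
      (fun x _ y _ hxy => congrFun hxy 0)
    set F : Set (goodGroup p a b) := (fun (x : goodGroup p a b) (_ : Fin 1) => x) ⁻¹'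
      {u : Fin 1 → goodGroup p a b | ¬ GoodPair (fun _ : Fin 1 => X' j) (fun _ => T₀ j)
        (fun _ => v j) u} with hF
    have := hfin.to_subtype
    obtain ⟨D, hD, α, hα⟩ := hrel j
    by_cases hα0 : α = 0
    · refine Small.empty.mono ?_
      rintro h ⟨g, hg, -, hbad⟩
      have h2 := hα g hg
      rw [hα0] at h2
      simp only [Pi.zero_apply, zero_zsmul, Finset.sum_const_zero] at h2
      have h3 : g j = 0 := by
        by_contra hne
        have h4 : ((g j : goodGroup p a b) : (curve a b).Point) ≠ 0 := fun h =>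
          hne (Subtype.ext h)
        have h5 := good_not_torsion (g j).2 h4
        apply h5
        rw [isOfFinAddOrder_iff_zsmul_eq_zero]
        exact ⟨D, hD, congrArg Subtype.val h2⟩
      apply hbad
      rw [h3]
      exact hvj
    · refine (Small.iUnion (ι := F) (S := fun e => {h : Fin d' → goodGroup p a b |
        ∑ i, α i • h i = D • (e : goodGroup p a b)}) fun e => Small.coset hα0 _).mono ?_
      rintro h ⟨g, hg, hgh, hbad⟩
      rw [Set.mem_iUnion]
      refine ⟨⟨g j, hbad⟩, ?_⟩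
      show ∑ i, α i • h i = D • g j
      rw [hα g hg, ← hgh]
      rfl
  refine (Small.iUnion h1).mono ?_
  rintro h ⟨g, hg, hgh, hbad⟩
  rw [Set.mem_iUnion]
  by_contra hcon
  push Not at hcon
  apply hbad
  rw [goodPair_iff]
  intro j
  by_contra h2
  exact hcon j ⟨g, hg, hgh, h2⟩

/-- The abscissae and the fibre coordinates over the coordinates of a frame are algebraically
independent modulo a stable prime ideal. -/
lemma indep_frame {d' s' : ℕ} (hinf : Infinite (goodGroup p a b)) {κ : Fin d' → Fin n}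
    (hκ : Function.Injective κ) {l : Fin s' → Fin s}
    (hX : ∀ j, (∀ i, κ i ≠ j) → ∀ k, X' j (l k) = 0)
    {v : Fin n → goodGroup p a b} (hv : GoodPair X' T₀ v 0) {q : Ideal (An a b n s)}
    (hq : q.IsPrime) (hqm : q ≤ mA m (dbl X') (sh T₀ (gc v)))
    (hrel : ∀ j, ∃ D : ℤ, D ≠ 0 ∧ ∃ α : Fin d' → ℤ,
      ∀ g ∈ ZE.Stab (mkDat hι 𝒜 hτ0 hτa hτι hτX hT₀) q, D • g j = ∑ i, α i • g (κ i))
    (hO : OrbitH p a b d' s' m (fun i k => X' (κ i) (l k))
      ((ZE.Stab (mkDat hι 𝒜 hτ0 hτa hτι hτX hT₀) q).map (prj κ))) :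
    AlgebraicIndependent ℚ fun j : Fin d' ⊕ Fin s' =>
      (Ideal.Quotient.mk (q.comap (presA a b n s).toRingHom)
        ((Sum.elim (fun i => MvPolynomial.X (Sum.inl (Sum.inl (κ i))))
          (fun k => MvPolynomial.X (Sum.inr (l k))) :
            Fin d' ⊕ Fin s' → MvPolynomial (Vr n s) ℚ) j) :
              MvPolynomial (Vr n s) ℚ ⧸ q.comap (presA a b n s).toRingHom) := by
  classical
  rw [algebraicIndependent_iff]
  intro F hF
  by_contra hF0
  set y : Fin d' ⊕ Fin s' → MvPolynomial (Vr n s) ℚ :=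
    Sum.elim (fun i => MvPolynomial.X (Sum.inl (Sum.inl (κ i))))
      (fun k => MvPolynomial.X (Sum.inr (l k))) with hy
  have h1 : (Ideal.Quotient.mk (q.comap (presA a b n s).toRingHom) (MvPolynomial.aeval y F) :
      MvPolynomial (Vr n s) ℚ ⧸ q.comap (presA a b n s).toRingHom) = 0 := by
    rw [← hF]
    exact (MvPolynomial.comp_aeval_apply _
      (Ideal.Quotient.mkₐ ℚ (q.comap (presA a b n s).toRingHom)) F)
  rw [Ideal.Quotient.eq_zero_iff_mem, Ideal.mem_comap] at h1
  set f' : An a b n s := MvPolynomial.aeval (Sum.elim (fun i => MvPolynomial.C (xB a b (κ i)))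
    (fun k => MvPolynomial.X (l k)) : Fin d' ⊕ Fin s' → An a b n s) F with hf'
  have h2 : (presA a b n s).toRingHom (MvPolynomial.aeval y F) = f' := by
    show presA a b n s (MvPolynomial.aeval y F) = f'
    rw [MvPolynomial.comp_aeval_apply, hf']
    congr 2
    funext j
    rcases j with j | j
    · show presA a b n s (MvPolynomial.X (Sum.inl (Sum.inl (κ j)))) = MvPolynomial.C (xB a b (κ j))
      rw [presA, MvPolynomial.aeval_X]
      rfl
    · show presA a b n s (MvPolynomial.X (Sum.inr (l j))) = MvPolynomial.X (l j)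
      rw [presA, MvPolynomial.aeval_X]
      rfl
  rw [h2] at h1
  refine hO (fun i => sh T₀ (gc v) (κ i)) (fun i => sh_good hT₀ v (κ i)) _
    (aeval_ne_zeroN hinf hF0) ?_
  refine (small_prj (X' := X') hrel hv _).mono ?_
  rintro h ⟨hh, hhf⟩
  obtain ⟨g, hg, rfl⟩ := AddSubgroup.mem_map.1 hh
  refine ⟨g, hg, rfl, fun hG => hhf ?_⟩
  have h6 : f' ∈ mA m (dbl X') (sh T₀ (gc (v + g))) :=
    ZE.mem_of_Stab (𝒟 := mkDat hι 𝒜 hτ0 hτa hτι hτX hT₀) hG hqm h1 hg
  set T : Fin n → (curve a b).Point := sh T₀ (gc (v + g)) with hT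
  have hT0 : ∀ i, T i ≠ 0 := hG.2.ne
  have e1 : sh (fun i => sh T₀ (gc v) (κ i)) (gc (prj κ g)) = fun i => T (κ i) := by
    funext i
    rw [hT, ← sh_sh]
    rfl
  have hne : ∀ i, (fun i => T (κ i)) i ≠ 0 := fun i => hT0 (κ i)
  rw [e1, mem_mA hne]
  rw [mem_mA hT0, hf', evA_aevalN] at h6
  have e3 := evA_aevalN (m := m) (X' := dbl fun i k => X' (κ i) (l k)) hne (fun i => i)
    (fun k => k) F
  have e2 : ∀ k, wv m (dbl fun i k => X' (κ i) (l k)) (fun i => T (κ i)) k =
      wv m (dbl X') T (l k) := fun k =>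
    wv_prj (X := dbl X') hT0 hκ (fun j hj k => by
      show X' j (l k) + X' j (l k) = 0
      rw [hX j hj k, add_zero]) k
  rw [e3, ← h6]
  congr 2
  funext j
  rcases j with j | j
  · rfl
  · exact e2 j

end MP3550b5.RG
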