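import Mathlib
import Pool.Agent.Lib.MP_3550b5_nt.RG.ZeroN

/-!
The zero estimate for tuples.
-/

set_option linter.unusedSectionVars false

open scoped Pointwise

namespace MP3550b5.RG

open Pool.Agent.Lib.MP_3550b5_nt WeierstrassCurve.Affine

variable {p : ℕ} [hp : Fact p.Prime] {a b : ℤ} {m : ℕ}

/-- The density of the orbits of subgroups, as a hypothesis. -/
def DensityH (p : ℕ) [Fact p.Prime] (a b : ℤ) : Prop :=
  ∀ (d : ℕ) (H : AddSubgroup (Fin d → goodGroup p a b)),
    (∀ c : Fin d → ℤ, (∀ g ∈ H, ∑ i, c i • g i = 0) → c = 0) →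
      ∀ T : Fin d → (curve a b).Point, (∀ i, T i ∈ goodGroup p a b) →
        ¬ Small T (H : Set (Fin d → goodGroup p a b))

/-- The number of fibre coordinates which involve a given set of factors. -/
lemma card_ix {d n s : ℕ} (hdn : d ≤ n) {π : Fin d → Fin n → Fin s} (hπ : IsIx hdn π)
    (R : Finset (Fin d)) :
    (Finset.univ.filter fun k : Fin s => ∃ i ∈ R, ∃ j, π i j = k).card = sN R.card n := by
  classical
  induction R using Finset.induction_on with
  | empty =>
    rw [Finset.card_empty, sN, Finset.range_zero, Finset.sum_empty, Finset.card_eq_zero,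
      Finset.filter_eq_empty_iff]
    rintro k - ⟨i, hi, -⟩
    exact absurd hi (Finset.notMem_empty i)
  | insert i₀ R hi₀ ih =>
    rw [Finset.card_insert_of_notMem hi₀, sN, Finset.sum_range_succ, ← sN, ← ih]
    have h1 : (Finset.univ.filter fun k : Fin s => ∃ i ∈ insert i₀ R, ∃ j, π i j = k) =
        (Finset.univ.filter fun k : Fin s => ∃ i ∈ R, ∃ j, π i j = k) ∪
          ((Finset.univ \ R.image (Fin.castLE hdn)).image (π i₀)) := by
      ext k
      simp only [Finset.mem_filter, Finset.mem_univ, true_and, Finset.mem_union, Finset.mem_image,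
        Finset.mem_sdiff, Finset.mem_insert]
      constructor
      · rintro ⟨i, rfl | hi, j, hj⟩
        · by_cases h2 : ∃ a ∈ R, Fin.castLE hdn a = j
          · obtain ⟨a, ha, haj⟩ := h2
            left
            refine ⟨a, ha, Fin.castLE hdn i, ?_⟩
            rw [← hj, ← haj]
            exact hπ.symm a i
          · right
            exact ⟨j, h2, hj⟩
        · exact Or.inl ⟨i, hi, j, hj⟩
      · rintro (⟨i, hi, j, hj⟩ | ⟨j, -, hj⟩)
        · exact ⟨i, Or.inr hi, j, hj⟩
        · exact ⟨i₀, Or.inl rfl, j, hj⟩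
    rw [h1, Finset.card_union_of_disjoint, Finset.card_image_of_injective _ (hπ.inj i₀),
      Finset.card_sdiff_of_subset (Finset.subset_univ _), Finset.card_univ, Fintype.card_fin,
      Finset.card_image_of_injective _ (Fin.castLE_injective hdn)]
    rw [Finset.disjoint_left]
    intro k hk hk'
    simp only [Finset.mem_filter, Finset.mem_univ, true_and, Finset.mem_image,
      Finset.mem_sdiff] at hk hk'
    obtain ⟨i, hi, j, hj⟩ := hk
    obtain ⟨j', hj', hj''⟩ := hk'
    rcases hπ.eq i i₀ j j' (hj.trans hj''.symm) with h2 | h2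
    · exact hi₀ (h2.1 ▸ hi)
    · exact hj' ⟨i, hi, h2.2.symm⟩

/-- Relations from a frame. -/
lemma frame_rel {G : Type*} [AddCommGroup G] {d d' : ℕ} (hd : d' ≤ d) {κ : Fin d' → Fin d}
    {M : Matrix (Fin d) (Fin d) ℤ} (hdet : M.det ≠ 0)
    (hrow : ∀ (i : Fin d') (j : Fin d), M (Fin.castLE hd i) j = if j = κ i then 1 else 0)
    {H : AddSubgroup (Fin d → G)}
    (hrel : ∀ i : Fin d, d' ≤ (i : ℕ) → ∀ g ∈ H, ∑ j, M i j • g j = 0) (j : Fin d) :
    ∃ D : ℤ, D ≠ 0 ∧ ∃ α : Fin d' → ℤ, ∀ g ∈ H, D • g j = ∑ i, α i • g (κ i) := by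
  classical
  refine ⟨M.det, hdet, fun i => M.adjugate j (Fin.castLE hd i), fun g hg => ?_⟩
  have h1 : ∑ l, M.adjugate j l • ∑ k, M l k • g k = M.det • g j := by
    have h2 : ∀ l, M.adjugate j l • ∑ k, M l k • g k = ∑ k, (M.adjugate j l * M l k) • g k := by
      intro l
      rw [Finset.smul_sum]
      exact Finset.sum_congr rfl fun k _ => smul_smul _ _ _
    rw [Finset.sum_congr rfl fun l _ => h2 l, Finset.sum_comm]
    have h3 : ∀ k, ∑ l, (M.adjugate j l * M l k) • g k = (if j = k then M.det else 0) • g k := by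
      intro k
      rw [← Finset.sum_smul]
      congr 1
      have h4 := congrFun (congrFun M.adjugate_mul j) k
      rw [Matrix.mul_apply, Matrix.smul_apply, Matrix.one_apply, smul_eq_mul] at h4
      rw [h4]
      split_ifs
      · exact mul_one _
      · exact mul_zero _
    rw [Finset.sum_congr rfl fun k _ => h3 k, Finset.sum_eq_single j]
    · rw [if_pos rfl]
    · intro k _ hk
      rw [if_neg (Ne.symm hk), zero_smul]
    · intro h
      exact absurd (Finset.mem_univ j) h
  rw [← h1, ← Finset.sum_subset (Finset.subset_univ (Finset.univ.image (Fin.castLE hd)))]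
  · rw [Finset.sum_image fun x _ y _ h => Fin.castLE_injective hd h]
    refine Finset.sum_congr rfl fun i _ => ?_
    congr 1
    rw [Finset.sum_eq_single (κ i)]
    · rw [hrow, if_pos rfl, one_smul]
    · intro k _ hk
      rw [hrow, if_neg hk, zero_smul]
    · intro h
      exact absurd (Finset.mem_univ _) h
  · intro l _ hl
    have h2 : d' ≤ (l : ℕ) := by
      by_contra h
      push Not at h
      exact hl (Finset.mem_image.2 ⟨⟨l, h⟩, Finset.mem_univ _, Fin.ext rfl⟩)
    rw [hrel l h2 g hg, smul_zero]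

/-- The classes over some coordinates are independent. -/
lemma ind_sub {d s d' s' : ℕ} {X' : Fin d → Fin s → (curve a b).Point}
    (hind : ∀ μ : Fin s → ℤ, (∀ i, lin (X' i) μ = 0) → μ = 0) {κ : Fin d' → Fin d}
    {l : Fin s' → Fin s} (hl : Function.Injective l)
    (hX : ∀ j, (∀ i, κ i ≠ j) → ∀ k, X' j (l k) = 0) (μ : Fin s' → ℤ)
    (h : ∀ i, lin (fun k => X' (κ i) (l k)) μ = 0) : μ = 0 := by
  classical
  set ν : Fin s → ℤ := fun k => ∑ k', if l k' = k then μ k' else 0 with hν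
  have h1 : ∀ j, lin (X' j) ν = ∑ k', μ k' • X' j (l k') := by
    intro j
    rw [lin_apply]
    have h2 : ∀ k, ν k • X' j k = ∑ k', if l k' = k then μ k' • X' j k else 0 := by
      intro k
      have h3 := map_sum (zmultiplesHom _ (X' j k)) (fun k' => if l k' = k then μ k' else 0)
        Finset.univ
      refine h3.trans (Finset.sum_congr rfl fun k' _ => ?_)
      show (if l k' = k then μ k' else 0) • X' j k = _
      split_ifs
      · rfl
      · exact zero_zsmul _
    rw [Finset.sum_congr rfl fun k _ => h2 k, Finset.sum_comm]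
    refine Finset.sum_congr rfl fun k' _ => ?_
    rw [Finset.sum_ite_eq Finset.univ (l k') fun k => μ k' • X' j k,
      if_pos (Finset.mem_univ _)]
  have h2 : ν = 0 := by
    refine hind ν fun j => ?_
    rw [h1]
    by_cases hj : ∃ i, κ i = j
    · obtain ⟨i, rfl⟩ := hj
      rw [← h i, lin_apply]
    · push Not at hj
      exact Finset.sum_eq_zero fun k' _ => by rw [hX j hj k', zsmul_zero]
  funext k'
  have h3 := congrFun h2 (l k')
  rw [hν] at h3
  simp only [Pi.zero_apply] at h3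
  rw [Finset.sum_eq_single k'] at h3
  · rw [if_pos rfl] at h3
    exact h3
  · intro k'' _ hk''
    rw [if_neg fun h => hk'' (hl h)]
  · intro h
    exact absurd (Finset.mem_univ _) h

/-- **The zero estimate** for tuples. -/
theorem zero_tup (hΔ : 4 * a ^ 3 + 27 * b ^ 2 ≠ 0) (hinf : Infinite (goodGroup p a b))
    (hm : Even m) (hm1 : 1 ≤ m) (hD : DensityH p a b) {d n s : ℕ} (hdn : d ≤ n)
    {π : Fin d → Fin n → Fin s} (hπ : IsIx hdn π) {R : Fin n → (curve a b).Point}
    (hR : ∀ j, R j ∈ goodGroup p a b) (hind : ∀ c : Fin n → ℤ, lin R c = 0 → c = 0) :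
    ∃ C : ℕ, ∀ K : ℕ, 1 ≤ K → ∀ V : Finset (Fin d → goodGroup p a b), 0 ∈ V →
    ∀ (T₀ : Fin d → (curve a b).Point) (_ : ∀ i, T₀ i ∈ goodGroup p a b),
    (∀ v ∈ (2 * d + s) • (V : Set (Fin d → goodGroup p a b)),
      ∀ w ∈ (2 * d + s) • (V : Set (Fin d → goodGroup p a b)),
        GoodPair (p := p) (TX π R) T₀ v (w - v)) →
    ∀ f : An a b d s, f ≠ 0 → HasLift K f →
    (∀ v ∈ (2 * d + s) • (V : Set (Fin d → goodGroup p a b)),
      f ∈ mA m (dbl (TX π R)) (sh T₀ (gc v))) →
    ∃ (H : AddSubgroup (Fin d → goodGroup p a b)) (d' : ℕ), d' < d ∧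
      (∃ M : Matrix (Fin d) (Fin d) ℤ, M.det ≠ 0 ∧
        ∀ i : Fin d, d' ≤ (i : ℕ) → ∀ g ∈ H, ∑ j, M i j • g j = 0) ∧
      ∃ w ∈ V, ∃ W ⊆ V, (∀ w' ∈ W, w' - w ∈ H) ∧
        V.card ≤ C * K ^ ((d - d') + sN (d - d') n) * W.card := by
  classical
  have hX' : ∀ i k, TX π R i k ∈ goodGroup p a b := fun i k => TX_good hR i k
  have hind' : ∀ μ : Fin s → ℤ, (∀ i, lin (TX π R i) μ = 0) → μ = 0 := by
    intro μ h
    funext k
    obtain ⟨i, j, rfl⟩ := hπ.surj k
    have h1 := h i
    rw [lin_TX] at h1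
    exact congrFun (hind _ h1) j
  obtain ⟨𝒜⟩ := exists_act (n := d) hΔ hinf hm (TX π R) hX'
  obtain ⟨ι, τ, hι, hτ0, hτa, hτι, hτX⟩ := exists_ext (s := s) 𝒜.σ 𝒜.c 𝒜.σ_zero 𝒜.σ_add 𝒜.c_ne
    𝒜.c_add
  obtain ⟨C, hC⟩ := zero_E hι 𝒜 hτ0 hτa hτι hτX
  refine ⟨C, ?_⟩
  intro K hK V hV0 T₀ hT₀ hgood f hf0 hfK hfv
  obtain ⟨v, hv, q, hq, hqm, hfq, h⟩ := hC K hK V hV0 T₀ hT₀ hgood f hf0 hfK hfv
  have htf : ∀ (c : ℤ) (x : goodGroup p a b), c • x = 0 → c = 0 ∨ x = 0 := by
    intro c x hcx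
    by_cases hx : x = 0
    · exact Or.inr hx
    · left
      by_contra hc
      have h4 : (x : (curve a b).Point) ≠ 0 := fun h => hx (Subtype.ext h)
      apply good_not_torsion x.2 h4
      rw [isOfFinAddOrder_iff_zsmul_eq_zero]
      exact ⟨c, hc, congrArg Subtype.val hcx⟩
  obtain ⟨d', hd', κ, M, hκ, hdet, hrow, hrel, hno⟩ := exists_frame htf
    (ZE.Stab (mkDat hι 𝒜 hτ0 hτa hτι hτX hT₀) q)
  have hlt : d' < d := by
    by_contra hcon
    have hdd : d' = d := by omega
    subst hdd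
    have hκb : Function.Bijective κ := Finite.injective_iff_bijective.1 hκ
    have h1 : ∀ c : Fin d' → ℤ, (∀ g ∈ ZE.Stab (mkDat hι 𝒜 hτ0 hτa hτι hτX hT₀) q,
        ∑ i, c i • g i = 0) → c = 0 := by
      intro c hc
      have h2 := hno (fun i => c (κ i)) (by
        intro g hg
        rw [← hc g hg]
        exact hκb.sum_comp fun i => c i • g i)
      funext i
      obtain ⟨i', rfl⟩ := hκb.2 i
      exact congrFun h2 i'
    exact orbitH_of_dense hΔ hinf hm hm1 hX' hind' (fun T hT => hD _ _ h1 T hT)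
      (sh T₀ (gc v)) (fun i => sh_good hT₀ v i) f hf0
      (vanish_stab hι 𝒜 hτ0 hτa hτι hτX hT₀ hv hq hqm hfq)
  refine ⟨ZE.Stab (mkDat hι 𝒜 hτ0 hτa hτι hτX hT₀) q, d', hlt, ⟨M, hdet, hrel⟩, ?_⟩
  have hrel' := fun j => frame_rel hd' hdet hrow hrel j
  -- the fibre coordinates over the frame
  set Kκ : Finset (Fin s) := Finset.univ.filter
    fun k => ¬ ∃ i ∈ Finset.univ \ Finset.univ.image κ, ∃ j, π i j = k with hKκ
  set s' := Kκ.card with hs'
  obtain ⟨l, hl⟩ : ∃ l : Fin s' → Fin s, l = fun k => Kκ.orderEmbOfFin rfl k := ⟨_, rfl⟩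
  have hlinj : Function.Injective l := by
    rw [hl]
    exact (Kκ.orderEmbOfFin rfl).injective
  have hlmem : ∀ k, l k ∈ Kκ := fun k => by
    rw [hl]
    exact Finset.orderEmbOfFin_mem _ _ k
  have hX : ∀ j, (∀ i, κ i ≠ j) → ∀ k, TX π R j (l k) = 0 := by
    intro j hj k
    refine TX_zero R fun j' hj' => ?_
    have h1 := hlmem k
    rw [hKκ, Finset.mem_filter] at h1
    refine h1.2 ⟨j, ?_, j', hj'⟩
    rw [Finset.mem_sdiff, Finset.mem_image]
    exact ⟨Finset.mem_univ _, fun ⟨i, _, hi⟩ => hj i hi⟩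
  have hcount : s = sN (d - d') n + s' := by
    have h1 := card_ix hdn hπ (Finset.univ \ Finset.univ.image κ)
    rw [Finset.card_sdiff_of_subset (Finset.subset_univ _), Finset.card_univ, Fintype.card_fin,
      Finset.card_image_of_injective _ hκ, Finset.card_univ, Fintype.card_fin] at h1
    rw [← h1, hs', hKκ, Finset.card_filter_add_card_filter_not, Finset.card_univ,
      Fintype.card_fin]
  have hexp : d + s - (d' + s') = (d - d') + sN (d - d') n := by omega
  have hfin := h (d' + s') (by omega) fun q' w hq' hst hw hq'm => by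
    have hO : OrbitH p a b d' s' m (fun i k => TX π R (κ i) (l k))
        ((ZE.Stab (mkDat hι 𝒜 hτ0 hτa hτι hτX hT₀) q').map (prj κ)) := by
      refine orbitH_of_dense hΔ hinf hm hm1 (fun i k => hX' _ _)
        (fun μ hμ => ind_sub hind' hlinj hX μ hμ) fun T hT => hD _ _ ?_ T hT
      intro c hc
      apply hno c
      intro g hg
      rw [← hst] at hg
      exact hc (prj κ g) (AddSubgroup.mem_map.2 ⟨g, hg, rfl⟩)
    have h1 := indep_frame hι 𝒜 hτ0 hτa hτι hτX hT₀ hinf hκ hX hw hq' hq'm (by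
      rw [hst]
      exact hrel') hO
    exact ⟨fun i => (Sum.elim (fun i => MvPolynomial.X (Sum.inl (Sum.inl (κ i))))
          (fun k => MvPolynomial.X (Sum.inr (l k))) :
            Fin d' ⊕ Fin s' → MvPolynomial (Vr d s) ℚ) (finSumFinEquiv.symm i),
      h1.comp _ finSumFinEquiv.symm.injective⟩
  rw [hexp] at hfin
  exact hfin

end MP3550b5.RG
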