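import Mathlib
import Pool.Agent.Lib.MP_3550b5_nt.RG.MainN
import Pool.Agent.Lib.MP_3550b5_nt.RG.ZeroT
import Pool.Agent.Lib.MP_3550b5_nt.RG.ArithN
import Pool.Agent.Lib.MP_3550b5_nt.RG.Frame
import Pool.Agent.Lib.MP_3550b5_nt.RG.Final

/-!
The group of tuples with one relation has bounded rank.
-/

namespace MP3550b5.RG

open Pool.Agent.Lib.MP_3550b5_nt WeierstrassCurve.Affine Module

section algebra

/-- Finitely many nonzero homomorphisms to a torsion-free group have a common point at which none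
of them vanishes. -/
lemma exists_common_ne {G H ι : Type*} [AddCommGroup G] [AddCommGroup H]
    (htf : ∀ (n : ℤ) (x : H), n • x = 0 → n = 0 ∨ x = 0) (S : Finset ι) (f : ι → (G →+ H))
    (hf : ∀ i ∈ S, ∃ t, f i t ≠ 0) : ∃ t, ∀ i ∈ S, f i t ≠ 0 := by
  classical
  induction S using Finset.induction_on with
  | empty => exact ⟨0, fun i hi => absurd hi (Finset.notMem_empty i)⟩
  | insert i₀ S hi₀ ih =>
    obtain ⟨t, ht⟩ := ih fun i hi => hf i (Finset.mem_insert_of_mem hi)
    obtain ⟨t', ht'⟩ := hf i₀ (Finset.mem_insert_self _ _)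
    by_cases h0 : f i₀ t = 0
    · obtain ⟨k, hk⟩ : ∃ k : ℤ, ∀ i ∈ S, k • f i t + f i t' ≠ 0 := by
        have hfin : (⋃ i ∈ S, {k : ℤ | k • f i t + f i t' = 0}).Finite := by
          refine Set.Finite.biUnion S.finite_toSet fun i hi => ?_
          refine Set.Subsingleton.finite ?_
          intro k hk k' hk'
          have h1 : (k - k') • f i t = 0 := by
            have h2 : k • f i t = k' • f i t := by
              have e1 : k • f i t = - f i t' := eq_neg_of_add_eq_zero_left hk
              have e2 : k' • f i t = - f i t' := eq_neg_of_add_eq_zero_left hk'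
              rw [e1, e2]
            rw [sub_smul, h2, sub_self]
          rcases htf _ _ h1 with h2 | h2
          · exact sub_eq_zero.mp h2
          · exact absurd h2 (ht i hi)
        obtain ⟨k, hk⟩ := hfin.exists_notMem
        refine ⟨k, fun i hi h => hk ?_⟩
        simp only [Set.mem_iUnion]
        exact ⟨i, hi, h⟩
      refine ⟨k • t + t', fun i hi => ?_⟩
      rw [map_add, map_zsmul]
      rcases Finset.mem_insert.mp hi with rfl | hi
      · rw [h0, smul_zero, zero_add]
        exact ht'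
      · exact hk i hi
    · refine ⟨t, fun i hi => ?_⟩
      rcases Finset.mem_insert.mp hi with rfl | hi
      · exact h0
      · exact ht i hi

/-- Extending a nonsingular integral matrix. -/
lemma base_change {d e : ℕ} (M : Matrix (Fin d) (Fin d) ℤ) (hM : M.det ≠ 0) :
    ∃ (M' A' : Matrix (Fin (d + e)) (Fin (d + e)) ℤ) (D : ℤ), D ≠ 0 ∧
      (∀ i j, ∑ k, A' i k * M' k j = if i = j then D else 0) ∧
      (∀ i j, ∑ k, M' i k * A' k j = if i = j then D else 0) ∧
      (∀ i j : Fin d, M' (Fin.castAdd e i) (Fin.castAdd e j) = M i j) ∧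
      (∀ (i : Fin e) (j : Fin d), M' (Fin.natAdd d i) (Fin.castAdd e j) = 0) := by
  classical
  obtain ⟨B, hB⟩ : ∃ B : Matrix (Fin d ⊕ Fin e) (Fin d ⊕ Fin e) ℤ,
    B = Matrix.fromBlocks M 0 0 1 := ⟨_, rfl⟩
  obtain ⟨C, hC⟩ : ∃ C : Matrix (Fin d ⊕ Fin e) (Fin d ⊕ Fin e) ℤ,
    C = Matrix.fromBlocks M.adjugate 0 0 (M.det • 1) := ⟨_, rfl⟩
  have h1 : C * B = M.det • 1 := by
    rw [hB, hC, Matrix.fromBlocks_multiply, Matrix.adjugate_mul, ← Matrix.fromBlocks_one,
      Matrix.fromBlocks_smul, smul_zero, smul_zero]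
    simp
  have h2 : B * C = M.det • 1 := by
    rw [hB, hC, Matrix.fromBlocks_multiply, Matrix.mul_adjugate, ← Matrix.fromBlocks_one,
      Matrix.fromBlocks_smul, smul_zero, smul_zero]
    simp
  refine ⟨B.submatrix finSumFinEquiv.symm finSumFinEquiv.symm,
    C.submatrix finSumFinEquiv.symm finSumFinEquiv.symm, M.det, hM, ?_, ?_, ?_, ?_⟩
  · intro i j
    have h3 := congrFun (congrFun h1 (finSumFinEquiv.symm i)) (finSumFinEquiv.symm j)
    rw [Matrix.mul_apply, Matrix.smul_apply, Matrix.one_apply] at h3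
    simp only [EmbeddingLike.apply_eq_iff_eq, smul_eq_mul, mul_ite, mul_one, mul_zero] at h3
    rw [← h3]
    exact (Fintype.sum_equiv finSumFinEquiv.symm _ _ fun k => rfl)
  · intro i j
    have h3 := congrFun (congrFun h2 (finSumFinEquiv.symm i)) (finSumFinEquiv.symm j)
    rw [Matrix.mul_apply, Matrix.smul_apply, Matrix.one_apply] at h3
    simp only [EmbeddingLike.apply_eq_iff_eq, smul_eq_mul, mul_ite, mul_one, mul_zero] at h3
    rw [← h3]
    exact (Fintype.sum_equiv finSumFinEquiv.symm _ _ fun k => rfl)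
  · intro i j
    rw [Matrix.submatrix_apply, finSumFinEquiv_symm_apply_castAdd,
      finSumFinEquiv_symm_apply_castAdd, hB, Matrix.fromBlocks_apply₁₁]
  · intro i j
    rw [Matrix.submatrix_apply, finSumFinEquiv_symm_apply_castAdd,
      finSumFinEquiv_symm_apply_natAdd, hB, Matrix.fromBlocks_apply₂₁]
    rfl

end algebra

variable {p : ℕ} [hp : Fact p.Prime] {a b : ℤ}

lemma TX_nsmul {d n s : ℕ} (π : Fin d → Fin n → Fin s) (N : ℕ) (T : Fin n → (curve a b).Point)
    (i : Fin d) (k : Fin s) : TX π (fun j => N • T j) i k = N • TX π T i k := by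
  rw [TX, TX, Finset.smul_sum]
  refine Finset.sum_congr rfl fun j _ => ?_
  split_ifs
  · rfl
  · exact (smul_zero N).symm

lemma B_TX {Bh : (curve a b).Point → (curve a b).Point → ℚ_[p]} (hB : IsCanonicalHeight p a b Bh)
    {d n s : ℕ} (π : Fin d → Fin n → Fin s) (T : Fin n → (curve a b).Point) (X : (curve a b).Point)
    (i : Fin d) (k : Fin s) :
    Bh X (TX π T i k) = ∑ j, if π i j = k then Bh X (T j) else 0 := by
  rw [hB.symm, TX, hB.sum]
  refine Finset.sum_congr rfl fun j _ => ?_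
  split_ifs
  · exact hB.symm _ _
  · exact hB.zero _

lemma good_smul_zero {g : (curve a b).Point} (hg : g ∈ goodGroup p a b) {c : ℤ} (hc : c ≠ 0)
    (h : c • g = 0) : g = 0 := by
  by_contra h0
  apply good_not_torsion hg h0
  rw [isOfFinAddOrder_iff_zsmul_eq_zero]
  exact ⟨c, hc, h⟩

/-- A common multiple for all members of several families. -/
lemma exists_common2 (hΔ : 4 * a ^ 3 + 27 * b ^ 2 ≠ 0) {d l : ℕ}
    (v : Fin d → Fin l → (curve a b).Point) :
    ∃ N : ℕ, N ≠ 0 ∧ ∀ i k, ∀ t : ℕ, (t * N) • v i k ∈ goodGroup p a b := by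
  classical
  choose N hN1 hN using fun i => exists_common (p := p) hΔ (v i)
  refine ⟨∏ i, N i, ?_, fun i k t => ?_⟩
  · rw [Finset.prod_ne_zero_iff]
    intro i _
    exact hN1 i
  · obtain ⟨t', ht⟩ : N i ∣ ∏ i, N i := Finset.dvd_prod_of_mem _ (Finset.mem_univ i)
    have := hN i k (t * t')
    rw [ht]
    have e1 : t * (N i * t') = t * t' * N i := by ring
    rw [e1]
    exact this

/-- The induction hypothesis as a property. -/
def TupBound {Bh : (curve a b).Point → (curve a b).Point → ℚ_[p]}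
    (_ : IsCanonicalHeight p a b Bh) (n d : ℕ) : Prop :=
  ∀ (hdn : d ≤ n) (T : Fin n → (curve a b).Point), LinearIndependent ℤ T →
    ∀ u : Fin n → ℚ_[p], (∀ c : Fin n → ℤ, ∑ j, (c j : ℚ_[p]) * u j = 0 → c = 0) →
    ∀ (l : ℕ) (v : Fin d → Fin l → (curve a b).Point),
      (∀ m : Fin l → ℤ, (∀ i, lin (v i) m = 0) → m = 0) →
      (∀ k, ∑ i, ∑ j, u (Fin.castLE hdn i) * u j * Bh (v i k) (T j) = 0) → l ≤ BN d n

/-- Base change: the rank of the part of the group that satisfies further relations. -/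
lemma rank_rel {Bh : (curve a b).Point → (curve a b).Point → ℚ_[p]}
    (hB : IsCanonicalHeight p a b Bh) {d e d' : ℕ} (hd' : d' < d) (ih : TupBound hB (d + e) d')
    {T : Fin (d + e) → (curve a b).Point} (hT : LinearIndependent ℤ T) {u : Fin (d + e) → ℚ_[p]}
    (hu : ∀ c : Fin (d + e) → ℤ, ∑ j, (c j : ℚ_[p]) * u j = 0 → c = 0)
    {M : Matrix (Fin d) (Fin d) ℤ} (hM : M.det ≠ 0) {l' : ℕ}
    {g : Fin l' → Fin d → (curve a b).Point} (hg : ∀ k i, g k i ∈ goodGroup p a b)
    (hind : ∀ m : Fin l' → ℤ, (∀ i, ∑ k, m k • g k i = 0) → m = 0)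
    (hrow : ∀ k, ∀ i : Fin d, d' ≤ (i : ℕ) → ∑ j, M i j • g k j = 0)
    (hrel : ∀ k, ∑ i, ∑ j, u (Fin.castAdd e i) * u j * Bh (g k i) (T j) = 0) :
    l' ≤ BN d' (d + e) := by
  classical
  obtain ⟨M', A', D, hD, hAM, hMA, hM1, hM2⟩ := base_change (e := e) M hM
  have hDp : (D : ℚ_[p]) ≠ 0 := by exact_mod_cast hD
  obtain ⟨T', hT'⟩ : ∃ T' : Fin (d + e) → (curve a b).Point, T' = fun i => ∑ k, M' i k • T k :=
    ⟨_, rfl⟩
  obtain ⟨u', hu'⟩ : ∃ u' : Fin (d + e) → ℚ_[p], u' = fun i => ∑ k, (A' k i : ℚ_[p]) * u k :=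
    ⟨_, rfl⟩
  -- contraction of the base change
  have hcontr : ∀ X Y : Fin (d + e) → ℚ_[p], (∀ i, Y i = ∑ k, (M' i k : ℚ_[p]) * X k) →
      ∑ i, u' i * Y i = D * ∑ i, u i * X i := by
    intro X Y hY
    have h1 : ∀ i, u' i * Y i = ∑ k, ∑ j, (A' k i : ℚ_[p]) * M' i j * (u k * X j) := by
      intro i
      rw [hY, hu', Finset.sum_mul_sum]
      refine Finset.sum_congr rfl fun k _ => Finset.sum_congr rfl fun j _ => ?_
      ring
    rw [Finset.sum_congr rfl fun i _ => h1 i, Finset.sum_comm, Finset.mul_sum]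
    refine Finset.sum_congr rfl fun k _ => ?_
    rw [Finset.sum_comm]
    have h2 : ∀ j, ∑ i, (A' k i : ℚ_[p]) * M' i j * (u k * X j) =
        if k = j then (D : ℚ_[p]) * (u k * X j) else 0 := by
      intro j
      rw [← Finset.sum_mul]
      have h3 : ∑ i, (A' k i : ℚ_[p]) * M' i j = ((∑ i, A' k i * M' i j : ℤ) : ℚ_[p]) := by
        push_cast; rfl
      rw [h3, hAM k j]
      split_ifs
      · rfl
      · rw [Int.cast_zero, zero_mul]
    rw [Finset.sum_congr rfl fun j _ => h2 j, Finset.sum_ite_eq, if_pos (Finset.mem_univ _)]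
  have hT'i : LinearIndependent ℤ T' := by
    rw [Fintype.linearIndependent_iff]
    intro c hc
    have h1 : ∑ k, (∑ i, c i * M' i k) • T k = 0 := by
      have e1 : lin T (∑ i, c i • M' i) = 0 := by
        rw [map_sum, ← hc, hT']
        refine Finset.sum_congr rfl fun i _ => ?_
        rw [map_zsmul, lin_apply]
      rw [lin_apply] at e1
      rw [← e1]
      refine Finset.sum_congr rfl fun k _ => ?_
      rw [Finset.sum_apply]
      rfl
    have h2 := Fintype.linearIndependent_iff.mp hT _ h1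
    intro i
    have h3 : ∑ k, (∑ i, c i * M' i k) * A' k i = c i * D := by
      have h4 : ∀ k, (∑ i', c i' * M' i' k) * A' k i = ∑ i', c i' * (M' i' k * A' k i) := by
        intro k
        rw [Finset.sum_mul]
        exact Finset.sum_congr rfl fun i' _ => mul_assoc _ _ _
      rw [Finset.sum_congr rfl fun k _ => h4 k, Finset.sum_comm]
      simp only [← Finset.mul_sum, hMA, mul_ite, mul_zero]
      rw [Finset.sum_ite_eq', if_pos (Finset.mem_univ _)]
    simp only [h2, zero_mul, Finset.sum_const_zero] at h3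
    exact (mul_eq_zero.mp h3.symm).resolve_right hD
  have hu'i : ∀ c : Fin (d + e) → ℤ, ∑ j, (c j : ℚ_[p]) * u' j = 0 → c = 0 := by
    intro c hc
    have h1 : ∑ k, ((∑ j, A' k j * c j : ℤ) : ℚ_[p]) * u k = 0 := by
      rw [← hc, hu']
      simp only [Int.cast_sum, Int.cast_mul, Finset.sum_mul, Finset.mul_sum]
      rw [Finset.sum_comm]
      refine Finset.sum_congr rfl fun j _ => Finset.sum_congr rfl fun k _ => ?_
      ring
    have h2 := hu _ h1
    funext i
    have h3 : ∑ k, M' i k * (∑ j, A' k j * c j) = D * c i := by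
      have h4 : ∀ k, M' i k * (∑ j, A' k j * c j) = ∑ j, M' i k * A' k j * c j := by
        intro k
        rw [Finset.mul_sum]
        exact Finset.sum_congr rfl fun j _ => (mul_assoc _ _ _).symm
      rw [Finset.sum_congr rfl fun k _ => h4 k, Finset.sum_comm]
      simp only [← Finset.sum_mul, hMA, ite_mul, zero_mul]
      rw [Finset.sum_ite_eq, if_pos (Finset.mem_univ _)]
    have h5 : ∀ k, ∑ j, A' k j * c j = 0 := fun k => congrFun h2 k
    simp only [h5, mul_zero, Finset.sum_const_zero] at h3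
    exact (mul_eq_zero.mp h3.symm).resolve_left hD
  have hd'n : d' ≤ d + e := by omega
  -- the new tuples
  obtain ⟨w, hw⟩ : ∃ w : Fin d → Fin l' → (curve a b).Point, w = fun i k => ∑ j, M i j • g k j :=
    ⟨_, rfl⟩
  refine ih hd'n T' hT'i u' hu'i l' (fun i k => w (Fin.castLE hd'.le i) k) ?_ ?_
  · intro m hm
    apply hind
    -- all rows vanish
    have h1 : ∀ i, ∑ k, m k • w i k = 0 := by
      intro i
      rcases Nat.lt_or_ge (i : ℕ) d' with hi | hi
      · have h2 := hm ⟨i, hi⟩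
        rw [lin_apply] at h2
        exact h2
      · apply Finset.sum_eq_zero
        intro k _
        rw [hw]
        show m k • (∑ j, M i j • g k j) = 0
        rw [hrow k i hi]
        exact zsmul_zero _
    have h2 : ∀ i, ∑ j, M i j • ∑ k, m k • g k j = 0 := by
      intro i
      rw [← h1 i, hw]
      simp only [Finset.smul_sum]
      rw [Finset.sum_comm]
      refine Finset.sum_congr rfl fun k _ => Finset.sum_congr rfl fun j _ => ?_
      rw [smul_comm]
    intro j
    have h3 : M.det • ∑ k, m k • g k j = 0 := by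
      obtain ⟨G, hG⟩ : ∃ G : Fin d → (curve a b).Point, G = fun j => ∑ k, m k • g k j := ⟨_, rfl⟩
      have e1 : ∀ i, lin G (M i) = 0 := by
        intro i
        rw [lin_apply, hG]
        exact h2 i
      have e2 : ∑ i, M.adjugate j i • M i = M.det • Pi.single j 1 := by
        funext j'
        have e3 := congrFun (congrFun (Matrix.adjugate_mul M) j) j'
        rw [Matrix.mul_apply, Matrix.smul_apply, Matrix.one_apply] at e3
        rw [Finset.sum_apply, Pi.smul_apply, Pi.single_apply]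
        simp only [Pi.smul_apply, smul_eq_mul] at e3 ⊢
        rw [e3]
        simp only [eq_comm]
      have e4 : lin G (M.det • Pi.single j 1) = 0 := by
        rw [← e2, map_sum]
        apply Finset.sum_eq_zero
        intro i _
        rw [map_zsmul, e1]
        exact zsmul_zero _
      rw [map_zsmul, lin_apply, Finset.sum_eq_single j] at e4
      · rw [Pi.single_eq_same, one_zsmul, hG] at e4
        exact e4
      · intro j' _ hj'
        rw [Pi.single_eq_of_ne hj']
        exact zero_zsmul _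
      · intro h; exact absurd (Finset.mem_univ _) h
    exact good_smul_zero (sum_mem fun k _ => zsmul_mem (hg k j) _) hM h3
  · intro k
    -- the relation
    have hφ : ∀ j, ∑ i : Fin d, u' (Fin.castAdd e i) * Bh (w i k) (T' j) =
        D * ∑ i : Fin d, u (Fin.castAdd e i) * Bh (g k i) (T' j) := by
      intro j
      have h1 := hcontr (fun i => Fin.addCases (fun i => Bh (g k i) (T' j)) (fun _ => 0) i)
        (fun i => Fin.addCases (fun i => Bh (w i k) (T' j)) (fun _ => 0) i) (fun i => by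
          rw [Fin.sum_univ_add]
          refine Fin.addCases (fun i => ?_) (fun i => ?_) i
          · simp only [Fin.addCases_left, Fin.addCases_right, hM1, mul_zero,
              Finset.sum_const_zero, add_zero]
            rw [hw, hB.sum]
            exact Finset.sum_congr rfl fun i' _ => hB.zsmul _ _ _
          · simp only [Fin.addCases_left, Fin.addCases_right, hM2, mul_zero,
              Finset.sum_const_zero, add_zero, Int.cast_zero, zero_mul])
      rw [Fin.sum_univ_add, Fin.sum_univ_add] at h1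
      simpa only [Fin.addCases_left, Fin.addCases_right, mul_zero, Finset.sum_const_zero,
        add_zero] using h1
    have hψ : ∀ i, ∑ j, u' j * Bh (g k i) (T' j) = D * ∑ j, u j * Bh (g k i) (T j) := by
      intro i
      refine hcontr _ _ fun j => ?_
      rw [hT', hB.symm, hB.sum]
      exact Finset.sum_congr rfl fun j' _ => by rw [hB.zsmul, hB.symm]
    have hsplit : ∑ i : Fin d', ∑ j, u' (Fin.castLE hd'n i) * u' j *
        Bh (w (Fin.castLE hd'.le i) k) (T' j) =
          ∑ i : Fin d, ∑ j, u' (Fin.castAdd e i) * u' j * Bh (w i k) (T' j) := by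
      obtain ⟨c, rfl⟩ := Nat.exists_eq_add_of_le hd'.le
      rw [Fin.sum_univ_add]
      have h2 : ∑ i : Fin c, ∑ j, u' (Fin.castAdd e (Fin.natAdd d' i)) * u' j *
          Bh (w (Fin.natAdd d' i) k) (T' j) = 0 := by
        apply Finset.sum_eq_zero
        intro i _
        apply Finset.sum_eq_zero
        intro j _
        rw [hw]
        show _ * Bh (∑ j, M (Fin.natAdd d' i) j • g k j) (T' j) = 0
        rw [hrow k _ (by simp), hB.zero, mul_zero]
      rw [h2, add_zero]
      rfl
    rw [hsplit]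
    have h3 : ∑ i : Fin d, ∑ j, u' (Fin.castAdd e i) * u' j * Bh (w i k) (T' j) =
        ∑ j, u' j * ∑ i : Fin d, u' (Fin.castAdd e i) * Bh (w i k) (T' j) := by
      rw [Finset.sum_comm]
      refine Finset.sum_congr rfl fun j _ => ?_
      rw [Finset.mul_sum]
      exact Finset.sum_congr rfl fun i _ => by ring
    rw [h3, Finset.sum_congr rfl fun j _ => by rw [hφ j]]
    have h4 : ∑ j, u' j * ((D : ℚ_[p]) * ∑ i : Fin d, u (Fin.castAdd e i) * Bh (g k i) (T' j)) =
        D * ∑ i : Fin d, u (Fin.castAdd e i) * ∑ j, u' j * Bh (g k i) (T' j) := by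
      simp only [Finset.mul_sum]
      rw [Finset.sum_comm]
      exact Finset.sum_congr rfl fun i _ => Finset.sum_congr rfl fun j _ => by ring
    rw [h4, Finset.sum_congr rfl fun i _ => by rw [hψ i]]
    have h5 : ∑ i : Fin d, u (Fin.castAdd e i) * ((D : ℚ_[p]) * ∑ j, u j * Bh (g k i) (T j)) =
        D * ∑ i : Fin d, ∑ j, u (Fin.castAdd e i) * u j * Bh (g k i) (T j) := by
      simp only [Finset.mul_sum]
      exact Finset.sum_congr rfl fun i _ => Finset.sum_congr rfl fun j _ => by ring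
    rw [h5, hrel k, mul_zero, mul_zero]

/-- **The main inequality for tuples.** -/
theorem tuple_bound (hD : DensityH p a b) (hp5 : 5 ≤ p) (hΔ : 4 * a ^ 3 + 27 * b ^ 2 ≠ 0)
    {Bh : (curve a b).Point → (curve a b).Point → ℚ_[p]}
    (hB : IsCanonicalHeight p a b Bh) {n : ℕ} (hn : 2 ≤ n) (d : ℕ) : TupBound hB n d := by
  classical
  induction d using Nat.strong_induction_on generalizing n with
  | _ d ih =>
  intro hdn T hT u hu l v hv hrel
  rcases Nat.eq_zero_or_pos d with hd0 | hd
  · subst hd0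
    rcases Nat.eq_zero_or_pos l with hl | hl
    · rw [hl]; exact Nat.zero_le _
    · have h1 := hv (Pi.single ⟨0, hl⟩ 1) (fun i => Fin.elim0 i)
      have h2 := congrFun h1 ⟨0, hl⟩
      rw [Pi.single_eq_same] at h2
      exact absurd h2 one_ne_zero
  obtain ⟨e, rfl⟩ := Nat.exists_eq_add_of_le hdn
  -- multiples in the good group
  obtain ⟨NP, hNP0, hPg⟩ := exists_common2 (p := p) hΔ v
  obtain ⟨NR, hNR0, hRg⟩ := exists_common (p := p) hΔ T
  have hu0 : ∀ j, u j ≠ 0 := by
    intro j h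
    have h1 := hu (Pi.single j 1) (by
      rw [Finset.sum_eq_single j]
      · rw [h, mul_zero]
      · intro j' _ hj'
        rw [Pi.single_eq_of_ne hj', Int.cast_zero, zero_mul]
      · intro h; exact absurd (Finset.mem_univ _) h)
    have h2 := congrFun h1 j
    rw [Pi.single_eq_same] at h2
    exact one_ne_zero h2
  -- the enumeration of the products
  obtain ⟨π, hπ⟩ := exists_ix hdn
  have hs1 : 1 ≤ sN d (d + e) := by
    rw [sN]
    have h1 : d + e - 0 ≤ ∑ i ∈ Finset.range d, (d + e - i) :=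
      Finset.single_le_sum (f := fun i => d + e - i) (fun _ _ => Nat.zero_le _)
        (Finset.mem_range.mpr hd)
    omega
  choose ki kj hkij using hπ.surj
  obtain ⟨κ, hκd⟩ : ∃ κ : Fin (sN d (d + e)) → ℚ_[p],
    κ = fun k => u (Fin.castLE hdn (ki k)) * u (kj k) := ⟨_, rfl⟩
  have hκ : ∀ i j, κ (π i j) = u (Fin.castLE hdn i) * u j := by
    intro i j
    rw [hκd]
    show u (Fin.castLE hdn (ki (π i j))) * u (kj (π i j)) = _
    rcases hπ.eq _ _ _ _ (hkij (π i j)) with h1 | h1
    · rw [h1.1, h1.2]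
    · rw [h1.1, congrArg u h1.2, mul_comm]
  have hκ0 : κ ≠ 0 := by
    intro h
    have h1 := hκ ⟨0, hd⟩ ⟨0, by omega⟩
    rw [h] at h1
    exact mul_ne_zero (hu0 _) (hu0 _) h1.symm
  obtain ⟨Z, hZ⟩ : ∃ Z : Fin l → Fin (sN d (d + e)) → ℚ_[p],
    Z = fun j k => ∑ i, Bh (v i j) (TX π T i k) := ⟨_, rfl⟩
  obtain ⟨X, Y, hXY⟩ := exists_fact Z (fun _ : Fin 1 => κ)
    (by rw [linearIndependent_unique_iff]; exact hκ0) (fun _ j => by
      rw [← hrel j, hZ]
      simp only [Finset.mul_sum, B_TX hB]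
      rw [Finset.sum_comm]
      refine Finset.sum_congr rfl fun i _ => ?_
      rw [Finset.sum_comm]
      refine Finset.sum_congr rfl fun j' _ => ?_
      simp only [mul_ite, mul_zero]
      rw [Finset.sum_ite_eq, if_pos (Finset.mem_univ _), hκ])
  choose eX heX using fun (w : Fin l × Fin (sN d (d + e) - 1)) => exists_scale (X w.1 w.2)
  choose eY heY using fun (w : Fin (sN d (d + e)) × Fin (sN d (d + e) - 1)) =>
    exists_scale (Y w.1 w.2)
  choose eB heB using fun (w : Fin d × Fin l × Fin (sN d (d + e))) =>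
    exists_scale (Bh (v w.1 w.2.1) (TX π T w.1 w.2.2))
  obtain ⟨E, hE⟩ : ∃ E, E = (Finset.univ.sup eX) + (Finset.univ.sup eY) +
    (Finset.univ.sup eB) + 1 := ⟨_, rfl⟩
  have heX' : ∀ w, eX w ≤ E := fun w => by
    have h1 := Finset.le_sup (f := eX) (Finset.mem_univ w)
    omega
  have heY' : ∀ w, eY w ≤ E := fun w => by
    have h1 := Finset.le_sup (f := eY) (Finset.mem_univ w)
    omega
  have heB' : ∀ w, eB w ≤ E := fun w => by
    have h1 := Finset.le_sup (f := eB) (Finset.mem_univ w)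
    omega
  have hE1 : 1 ≤ E := by omega
  choose x hx1 hx2 using fun (j : Fin l) (t : Fin (sN d (d + e) - 1)) => heX (j, t) E (heX' _)
  choose y hy1 hy2 using fun (k : Fin (sN d (d + e))) (t : Fin (sN d (d + e) - 1)) =>
    heY (k, t) E (heY' _)
  choose β hβ1 hβ2 using fun (i : Fin d) (j : Fin l) (k : Fin (sN d (d + e))) =>
    heB (i, j, k) E (heB' _)
  have hp0 := hp.out.ne_zero
  have hNP' : p ^ E * NP ≠ 0 := mul_ne_zero (pow_ne_zero _ hp0) hNP0
  have hNR' : p ^ E * NR ≠ 0 := mul_ne_zero (pow_ne_zero _ hp0) hNR0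
  -- the scaled points
  obtain ⟨P', hP'⟩ : ∃ P' : Fin d → Fin l → (curve a b).Point,
    P' = fun i j => (p ^ E * NP) • v i j := ⟨_, rfl⟩
  have hP'g : ∀ i j, P' i j ∈ goodGroup p a b := by
    intro i j; rw [hP']; exact hPg i j _
  have hlinP' : ∀ i m, lin (P' i) m = lin (v i) (((p ^ E * NP : ℕ) : ℤ) • m) := by
    intro i m
    rw [map_zsmul, natCast_zsmul, lin_apply, lin_apply, Finset.smul_sum, hP']
    refine Finset.sum_congr rfl fun j _ => ?_
    show m j • ((p ^ E * NP) • v i j) = (p ^ E * NP) • (m j • v i j)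
    rw [← natCast_zsmul, ← natCast_zsmul, smul_comm]
  have hindP' : ∀ m : Fin l → ℤ, (∀ i, lin (P' i) m = 0) → m = 0 := by
    intro m hm
    have h1 := hv _ fun i => by rw [← hlinP']; exact hm i
    have h2 : ((p ^ E * NP : ℕ) : ℤ) ≠ 0 := by exact_mod_cast hNP'
    exact (smul_eq_zero.1 h1).resolve_left h2
  obtain ⟨R', hR'⟩ : ∃ R' : Fin (d + e) → (curve a b).Point,
    R' = fun j => (p ^ E * NR) • T j := ⟨_, rfl⟩
  have hR'g : ∀ j, R' j ∈ goodGroup p a b := by
    intro j; rw [hR']; exact hRg j _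
  have hindR' : ∀ c : Fin (d + e) → ℤ, lin R' c = 0 → c = 0 := by
    intro c hc
    rw [lin_apply, hR'] at hc
    exact indep_nsmul hT hNR' c hc
  have hdd : ∀ i k, TX π (fun j => R' j + R' j) i k = (2 * (p ^ E * NR)) • TX π T i k := by
    intro i k
    rw [← TX_nsmul]
    congr 1
    funext j
    rw [hR', two_mul, add_smul]
  have hBsc : ∀ i j k, Bh (P' i j) (TX π (fun j => R' j + R' j) i k) =
      ((NP * (2 * NR) : ℕ) : ℚ_[p]) * ((p : ℚ_[p]) ^ E * ((p : ℚ_[p]) ^ E *
        Bh (v i j) (TX π T i k))) := by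
    intro i j k
    rw [hdd, hP']
    show Bh ((p ^ E * NP) • v i j) _ = _
    rw [hB.nsmul, hB.symm, hB.nsmul, hB.symm]
    push_cast
    ring
  -- the relation for all combinations
  have hrel' : ∀ m : Fin l → ℤ, ∑ i, ∑ j, u (Fin.castLE hdn i) * u j *
      Bh (lin (P' i) m) (T j) = 0 := by
    intro m
    have h1 : ∀ i Q, Bh (lin (P' i) m) Q = ∑ k, (m k : ℚ_[p]) * ((p ^ E * NP : ℕ) *
        Bh (v i k) Q) := by
      intro i Q
      rw [lin_apply, hB.sum]
      refine Finset.sum_congr rfl fun k _ => ?_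
      rw [hB.zsmul, hP']
      show _ * Bh ((p ^ E * NP) • v i k) Q = _
      rw [hB.nsmul]
    have h2 : ∑ i, ∑ j, u (Fin.castLE hdn i) * u j * Bh (lin (P' i) m) (T j) =
        ∑ k, (m k : ℚ_[p]) * ((p ^ E * NP : ℕ) * ∑ i, ∑ j, u (Fin.castLE hdn i) * u j *
          Bh (v i k) (T j)) := by
      simp only [h1, Finset.mul_sum]
      rw [Finset.sum_comm]
      refine (Finset.sum_congr rfl fun j _ => Finset.sum_comm).trans ?_
      rw [Finset.sum_comm]
      refine Finset.sum_congr rfl fun k _ => ?_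
      rw [Finset.sum_comm]
      refine Finset.sum_congr rfl fun i _ => Finset.sum_congr rfl fun j _ => ?_
      ring
    rw [h2]
    apply Finset.sum_eq_zero
    intro k _
    rw [hrel k, mul_zero, mul_zero]
  have htf : ∀ (c : ℤ) (g : goodGroup p a b), c • g = 0 → c = 0 ∨ g = 0 := by
    intro c g h
    by_cases hc : c = 0
    · exact Or.inl hc
    · right
      apply Subtype.ext
      exact good_smul_zero g.2 hc (congrArg Subtype.val h)
  have hpinj : ∀ m : Fin l → ℤ, ptN P' hP'g m = 0 → m = 0 := by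
    intro m hm
    refine hindP' m fun i => ?_
    rw [← ptN_coe P' hP'g, hm]
    rfl
  -- groups with further relations
  have hrank : ∀ (H : AddSubgroup (Fin d → goodGroup p a b)) (d' : ℕ), d' < d →
      (∃ M : Matrix (Fin d) (Fin d) ℤ, M.det ≠ 0 ∧
        ∀ i : Fin d, d' ≤ (i : ℕ) → ∀ g ∈ H, ∑ j, M i j • g j = 0) →
      ∀ (l' : ℕ) (z : Fin l' → (Fin l → ℤ)), (∀ k, ptN P' hP'g (z k) ∈ H) →
        LinearIndependent ℤ z → l' ≤ BN d' (d + e) := by
    rintro H d' hd' ⟨M, hM, hMr⟩ l' z hz hzi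
    refine rank_rel hB hd' (ih d' hd' hn) hT hu hM
      (g := fun k i => (ptN P' hP'g (z k) i : (curve a b).Point)) (fun k i => (ptN P' hP'g (z k) i).2)
      ?_ ?_ ?_
    · intro m hm
      have h1 : ∑ k, m k • z k = 0 := by
        apply hindP'
        intro i
        rw [map_sum, ← hm i]
        exact Finset.sum_congr rfl fun k _ => map_zsmul _ _ _
      exact funext (Fintype.linearIndependent_iff.mp hzi m h1)
    · intro k i hi
      have h1 := congrArg Subtype.val (hMr i hi _ (hz k))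
      rw [AddSubgroup.val_finsetSum] at h1
      exact h1
    · intro k
      exact hrel' (z k)
  have hinf : Infinite (goodGroup p a b) := by
    have j₀ : Fin (d + e) := ⟨0, by omega⟩
    have hinj : Function.Injective (fun c : ℤ => (⟨c • R' j₀, zsmul_mem (hR'g j₀) c⟩ :
        goodGroup p a b)) := by
      intro c c' h
      have h1 : c • R' j₀ = c' • R' j₀ := congrArg Subtype.val h
      have h2 : (c - c') • R' j₀ = 0 := by
        rw [sub_zsmul, h1, add_neg_cancel]
      have h3 := hindR' (Pi.single j₀ (c - c')) (by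
        rw [lin_apply, Finset.sum_eq_single j₀]
        · rw [Pi.single_eq_same, h2]
        · intro j' _ hj'
          rw [Pi.single_eq_of_ne hj']
          exact zero_zsmul _
        · intro h; exact absurd (Finset.mem_univ _) h)
      have h4 := congrFun h3 j₀
      rw [Pi.single_eq_same] at h4
      exact sub_eq_zero.mp h4
    exact Infinite.of_injective _ hinj
  have hm : Even (p - 1) := by
    have hodd : Odd p := hp.out.odd_of_ne_two (by omega)
    obtain ⟨k, hk⟩ := hodd
    exact ⟨k, by omega⟩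
  -- a frame of the whole group
  obtain ⟨d₀, hd₀, κ₀, M₀, -, hM₀, hM₀1, hM₀2, hM₀3⟩ := exists_frame htf (ptN P' hP'g).range
  rcases Nat.lt_or_ge d₀ d with hlt | hge
  · refine (hrank _ d₀ hlt ⟨M₀, hM₀, hM₀2⟩ l (fun k => Pi.single k 1) (fun k => ⟨_, rfl⟩) ?_).trans
      (BN_mono hd₀ hdn)
    rw [Fintype.linearIndependent_iff]
    intro m hm' k
    have h1 := congrFun hm' k
    rw [Finset.sum_apply, Finset.sum_eq_single k] at h1
    · simpa using h1
    · intro k' _ hk'
      simp [Pi.single_eq_of_ne hk'.symm]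
    · intro h; exact absurd (Finset.mem_univ _) h
  have hd₀e : d₀ = d := le_antisymm hd₀ hge
  subst hd₀e
  -- no coordinate vanishes identically
  have hcoord : ∀ i : Fin d₀, ∃ t : Fin l → ℤ, ptN P' hP'g t i ≠ 0 := by
    intro i
    by_contra hcon
    push Not at hcon
    have hκinj : Function.Injective κ₀ := by
      intro i₁ i₂ h
      by_contra hne
      have h1 := hM₀
      apply h1
      refine Matrix.det_zero_of_row_eq hne ?_
      funext j
      have e1 := hM₀1 i₁ j
      have e2 := hM₀1 i₂ j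
      have e3 : Fin.castLE hd₀ i₁ = i₁ := rfl
      have e4 : Fin.castLE hd₀ i₂ = i₂ := rfl
      rw [e3] at e1
      rw [e4] at e2
      rw [e1, e2, h]
    obtain ⟨i', hi'⟩ := (Finite.injective_iff_surjective.mp hκinj) i
    have h2 := hM₀3 (Pi.single i' 1) (by
      rintro _ ⟨t, rfl⟩
      rw [Finset.sum_eq_single i']
      · rw [Pi.single_eq_same, one_zsmul, hi']
        exact hcon t
      · intro j' _ hj'
        rw [Pi.single_eq_of_ne hj']
        exact zero_zsmul _
      · intro h; exact absurd (Finset.mem_univ _) h)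
    have h3 := congrFun h2 i'
    rw [Pi.single_eq_same] at h3
    exact one_ne_zero h3
  obtain ⟨t, ht⟩ := exists_common_ne (G := Fin l → ℤ) (H := goodGroup p a b) htf Finset.univ
    (fun i : Fin d₀ => (Pi.evalAddMonoidHom (fun _ : Fin d₀ => goodGroup p a b) i).comp
      (ptN P' hP'g)) (fun i _ => hcoord i)
  have hne : ∃ t : Fin l → ℤ, ∀ i, lin (P' i) t ≠ 0 := by
    refine ⟨t, fun i h => ht i (Finset.mem_univ _) ?_⟩
    apply Subtype.ext
    exact h
  obtain ⟨C₀, hC₀⟩ := zero_tup (m := p - 1) hΔ hinf hm (by omega) hD hdn hπ hR'g hindR'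
  refine tuple_core hp5 hΔ hB (ρ := sN d₀ (d₀ + e) - 1) (Bd := BN d₀ (d₀ + e)) hd hn (by omega)
    hπ.inj hP'g hindP' hR'g hindR' ?_
    (x := fun j t => (NP : ℤ_[p]) * x j t) (y := fun k t => ((2 * NR : ℕ) : ℤ_[p]) * y k t)
    (fun j t => Dvd.dvd.mul_left (hx1 j t) _) (fun k t => Dvd.dvd.mul_left (hy1 k t) _) ?_ hne
    (fun H x y => ∃ d', d' < d₀ ∧ x = (d₀ - d') + sN (d₀ - d') (d₀ + e) ∧ y = BN d' (d₀ + e) ∧
      ∃ M : Matrix (Fin d₀) (Fin d₀) ℤ, M.det ≠ 0 ∧
        ∀ i : Fin d₀, d' ≤ (i : ℕ) → ∀ g ∈ H, ∑ j, M i j • g j = 0) ?_ ?_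
  · intro i j k
    refine ⟨((NP * (2 * NR) : ℕ) : ℤ_[p]) * ((p : ℤ_[p]) ^ E * β i j k), ?_, ?_⟩
    · rw [pow_two]
      refine Dvd.dvd.mul_left (mul_dvd_mul ?_ (hβ1 i j k)) _
      exact dvd_pow_self _ (by omega)
    · rw [hBsc, PadicInt.coe_mul, PadicInt.coe_mul, PadicInt.coe_pow, hβ2, PadicInt.coe_natCast,
        PadicInt.coe_natCast]
  · intro j k
    have h1 : Z j k = ∑ i, Bh (v i j) (TX π T i k) := by
      rw [hZ]
    simp only [hBsc]
    rw [← Finset.mul_sum, ← Finset.mul_sum, ← Finset.mul_sum, ← h1, ← hXY j k, PadicInt.coe_sum,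
      Finset.mul_sum, Finset.mul_sum, Finset.mul_sum]
    refine Finset.sum_congr rfl fun t _ => ?_
    rw [PadicInt.coe_mul, PadicInt.coe_mul, PadicInt.coe_mul, hx2, hy2, PadicInt.coe_natCast,
      PadicInt.coe_natCast]
    push_cast
    ring
  · refine ⟨C₀, fun K hK V hV T₀ hT₀ hg f hf hfK hfv => ?_⟩
    obtain ⟨H, d', hd', hM, w, hw, W, hWV, hWH, hc⟩ := hC₀ K hK V hV T₀ hT₀ hg f hf hfK hfv
    exact ⟨H, _, _, ⟨d', hd', rfl, rfl, hM⟩, w, hw, W, hWV, hWH, hc⟩
  · rintro H x' y' ⟨d', hd', rfl, rfl, hM⟩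
    refine ⟨fun z hz hzi => ?_, ?_⟩
    · have h1 := hrank H d' hd' hM _ z hz hzi
      omega
    · have h1 := BN_step (d := d₀) (e := d₀ - d') (n := d₀ + e) (by omega) (by omega) hdn
      have h2 : d₀ - (d₀ - d') = d' := by omega
      rw [h2] at h1
      exact h1

/-- The case of as many factors as points. -/
theorem tuple_bound' (hD : DensityH p a b) (hp5 : 5 ≤ p) (hΔ : 4 * a ^ 3 + 27 * b ^ 2 ≠ 0)
    {Bh : (curve a b).Point → (curve a b).Point → ℚ_[p]}
    (hB : IsCanonicalHeight p a b Bh) {n l : ℕ} (hn : 2 ≤ n)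
    {P : Fin n → Fin l → (curve a b).Point}
    (hindP : ∀ c : Fin l → ℤ, (∀ i, lin (P i) c = 0) → c = 0)
    {R : Fin n → (curve a b).Point} (hR : LinearIndependent ℤ R) {u : Fin n → ℚ_[p]}
    (hu : ∀ c : Fin n → ℤ, ∑ i, (c i : ℚ_[p]) * u i = 0 → c = 0)
    (hrel : ∀ j, ∑ i, ∑ k, u i * u k * Bh (P i j) (R k) = 0) : l ≤ BN n n :=
  tuple_bound hD hp5 hΔ hB hn n le_rfl R hR u hu l P hindP hrel

end MP3550b5.RG
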