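import Mathlib
import Pool.Agent.Lib.MP_3550b5_nt.RG.Sep

/-!
Functions on a power of the curve which vanish along the orbit of a point under a translation with
independent coordinates are zero.
-/

namespace MP3550b5.RG

open Pool.Agent.Lib.MP_3550b5_nt WeierstrassCurve.Affine

variable {p : ℕ} [hp : Fact p.Prime] {a b : ℤ}

section taylor

/-- The Taylor formula of order one. -/
lemma dens_taylor {σ : Type} [Fintype σ] [DecidableEq σ] (F : MvPolynomial σ ℚ_[p])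
    (x : σ → ℚ_[p]) :
    ∃ C : ℝ, 0 ≤ C ∧ ∀ (d : σ → ℚ_[p]) (ε : ℝ), 0 ≤ ε → ε ≤ 1 → (∀ i, ‖d i‖ ≤ ε) →
      ‖MvPolynomial.eval (x + d) F - MvPolynomial.eval x F -
        ∑ i, MvPolynomial.eval x (MvPolynomial.pderiv i F) * d i‖ ≤ C * ε ^ 2 := by
  induction F using MvPolynomial.induction_on with
  | C c =>
    refine ⟨0, le_rfl, fun d ε _ _ _ => ?_⟩
    simp
  | add F G hF hG =>
    obtain ⟨C, hC, h⟩ := hF
    obtain ⟨C', hC', h'⟩ := hG
    refine ⟨C + C', by linarith, fun d ε h0 h1 hd => ?_⟩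
    have e : MvPolynomial.eval (x + d) (F + G) - MvPolynomial.eval x (F + G) -
        ∑ i, MvPolynomial.eval x (MvPolynomial.pderiv i (F + G)) * d i =
        (MvPolynomial.eval (x + d) F - MvPolynomial.eval x F -
        ∑ i, MvPolynomial.eval x (MvPolynomial.pderiv i F) * d i) +
        (MvPolynomial.eval (x + d) G - MvPolynomial.eval x G -
        ∑ i, MvPolynomial.eval x (MvPolynomial.pderiv i G) * d i) := by
      have e1 : ∑ i, MvPolynomial.eval x (MvPolynomial.pderiv i (F + G)) * d i =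
          ∑ i, MvPolynomial.eval x (MvPolynomial.pderiv i F) * d i +
            ∑ i, MvPolynomial.eval x (MvPolynomial.pderiv i G) * d i := by
        rw [← Finset.sum_add_distrib]
        refine Finset.sum_congr rfl fun i _ => ?_
        rw [map_add, map_add]
        ring
      rw [e1, map_add, map_add]
      ring
    rw [e, add_mul]
    exact (norm_add_le _ _).trans (add_le_add (h d ε h0 h1 hd) (h' d ε h0 h1 hd))
  | mul_X F j hF =>
    obtain ⟨C, hC, h⟩ := hF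
    refine ⟨∑ i, ‖MvPolynomial.eval x (MvPolynomial.pderiv i F)‖ + C * (‖x j‖ + 1),
      by positivity, fun d ε h0 h1 hd => ?_⟩
    set L := ∑ i, MvPolynomial.eval x (MvPolynomial.pderiv i F) * d i with hL
    set R := MvPolynomial.eval (x + d) F - MvPolynomial.eval x F - L with hR
    have e1 : ∑ i, MvPolynomial.eval x (MvPolynomial.pderiv i (F * MvPolynomial.X j)) * d i =
        x j * L + MvPolynomial.eval x F * d j := by
      rw [hL, Finset.mul_sum]
      have e2 : ∀ i, MvPolynomial.eval x (MvPolynomial.pderiv i (F * MvPolynomial.X j)) * d i =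
          x j * (MvPolynomial.eval x (MvPolynomial.pderiv i F) * d i) +
            if i = j then MvPolynomial.eval x F * d j else 0 := by
        intro i
        rw [MvPolynomial.pderiv_mul, map_add, map_mul, map_mul, MvPolynomial.eval_X]
        split_ifs with hij
        · subst hij
          rw [MvPolynomial.pderiv_X_self, map_one]
          ring
        · rw [MvPolynomial.pderiv_X_of_ne (Ne.symm hij), map_zero]
          ring
      rw [Finset.sum_congr rfl fun i _ => e2 i, Finset.sum_add_distrib, Finset.sum_ite_eq']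
      simp
    have e : MvPolynomial.eval (x + d) (F * MvPolynomial.X j) -
        MvPolynomial.eval x (F * MvPolynomial.X j) -
        ∑ i, MvPolynomial.eval x (MvPolynomial.pderiv i (F * MvPolynomial.X j)) * d i =
        L * d j + R * (x j + d j) := by
      rw [e1, map_mul, map_mul, MvPolynomial.eval_X, MvPolynomial.eval_X, hR, Pi.add_apply]
      ring
    have hLn : ‖L‖ ≤ (∑ i, ‖MvPolynomial.eval x (MvPolynomial.pderiv i F)‖) * ε := by
      rw [hL, Finset.sum_mul]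
      refine (norm_sum_le _ _).trans (Finset.sum_le_sum fun i _ => ?_)
      rw [norm_mul]
      exact mul_le_mul_of_nonneg_left (hd i) (norm_nonneg _)
    rw [e, add_mul]
    refine (norm_add_le _ _).trans (add_le_add ?_ ?_)
    · rw [norm_mul, pow_two, ← mul_assoc]
      exact mul_le_mul hLn (hd j) (norm_nonneg _) (by positivity)
    · rw [norm_mul]
      calc ‖R‖ * ‖x j + d j‖ ≤ (C * ε ^ 2) * (‖x j‖ + 1) := by
            refine mul_le_mul (h d ε h0 h1 hd) ?_ (norm_nonneg _) (by positivity)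
            exact (norm_add_le _ _).trans (add_le_add le_rfl ((hd j).trans h1))
        _ = C * (‖x j‖ + 1) * ε ^ 2 := by ring

end taylor

section translate

/-- The abscissa of a translate by a point near the origin. -/
lemma dens_translate {T Q : (curve a b).Point} (hT : T ≠ 0)
    (hQ : 1 < ‖((ptX Q : ℚ) : ℚ_[p])‖) {M : ℝ} (hM : 1 ≤ M)
    (hx : ‖((ptX T : ℚ) : ℚ_[p])‖ ≤ M) (hy : ‖((ptY T : ℚ) : ℚ_[p])‖ ≤ M)
    (hlt : ‖((ptX T : ℚ) : ℚ_[p])‖ < ‖((ptX Q : ℚ) : ℚ_[p])‖) :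
    ‖((ptX (T + Q) : ℚ) : ℚ_[p]) - ((ptX T : ℚ) : ℚ_[p]) +
      2 * ((ptY T : ℚ) : ℚ_[p]) * tt p Q‖ ≤ M ^ 3 * ‖tt p Q‖ ^ 2 := by
  obtain ⟨hh, e⟩ := exists_eq_some T hT
  obtain ⟨hh', e'⟩ := exists_eq_some Q (ne_zero_of_norm hQ)
  have hxx : ptX T ≠ ptX Q := by
    intro h
    rw [h] at hlt
    exact lt_irrefl _ hlt
  have h0 : T + Q ≠ 0 := by
    intro h0
    rw [e, e', Point.add_of_X_ne hxx] at h0
    exact Point.some_ne_zero _ h0
  have h0' : (Point.some _ _ hh : (curve a b).Point) + Point.some _ _ hh' ≠ 0 := by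
    rw [← e, ← e']; exact h0
  obtain ⟨L, M', g1, g2, g3, g4, g5, g6, g7⟩ := exists_line hh hh' h0'
  rw [← e, ← e'] at g5
  have hLd : L * (ptX T - ptX Q) = ptY T - ptY Q := by
    rcases g7 with h7 | h7
    · exact h7.2
    · exact absurd h7.1 hxx
  have E1 := ker_eqn (p := p) hT
  have E2 := ker_eqn (p := p) (ne_zero_of_norm hQ)
  have c5 := congrArg (fun z : ℚ => (z : ℚ_[p])) g5
  have c7 := congrArg (fun z : ℚ => (z : ℚ_[p])) hLd
  push_cast at c5 c7
  obtain ⟨k1, k2, k3, k4, k5⟩ := ker_norms (Padic.norm_int_le_one a) (Padic.norm_int_le_one b) hQ E2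
  have ha : ‖(a : ℚ_[p])‖ ≤ 1 := Padic.norm_int_le_one a
  have hb : ‖(b : ℚ_[p])‖ ≤ 1 := Padic.norm_int_le_one b
  have htt : tt p Q = ((ptX Q : ℚ) : ℚ_[p]) / ((ptY Q : ℚ) : ℚ_[p]) := rfl
  rw [htt]
  set X := ((ptX Q : ℚ) : ℚ_[p]) with hX
  set Y := ((ptY Q : ℚ) : ℚ_[p]) with hY
  set x := ((ptX T : ℚ) : ℚ_[p]) with hxd
  set y := ((ptY T : ℚ) : ℚ_[p]) with hyd
  rw [c5]
  set ℓ : ℚ_[p] := (L : ℚ_[p]) with hℓ
  -- the identity
  have hid : (ℓ ^ 2 - x - X - x + 2 * y * (X / Y)) * (X - x) ^ 2 =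
      2 * y / Y * (-2 * x * X ^ 2 + (x ^ 2 - a) * X - b) + X * (3 * x ^ 2 + a) +
        (a * x + 2 * b - x ^ 3) := by
    have e1 : (ℓ ^ 2 - x - X - x) * (X - x) ^ 2 =
        -2 * Y * y + X * (3 * x ^ 2 + a) + (a * x + 2 * b - x ^ 3) := by
      have e2 : ℓ ^ 2 * (X - x) ^ 2 = (y - Y) ^ 2 := by
        rw [← c7]; ring
      linear_combination e2 + E1 + E2
    have e3 : 2 * y * (X / Y) * (X - x) ^ 2 = 2 * Y * y +
        2 * y / Y * (-2 * x * X ^ 2 + (x ^ 2 - a) * X - b) := by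
      field_simp
      linear_combination (-y) * E2
    linear_combination e1 + e3
  have hXpos : 0 < ‖X‖ := by linarith
  have hYpos : 0 < ‖Y‖ := norm_pos_iff.mpr k1
  have hXY : ‖X‖ ≤ ‖Y‖ := by
    have h1 : ‖X / Y‖ ≤ 1 := k5.le
    rw [norm_div, div_le_one hYpos] at h1
    exact h1
  have hn : ‖X - x‖ = ‖X‖ := by
    rw [sub_eq_add_neg]
    exact norm_add_eq_left (by rw [norm_neg]; exact hlt)
  have h2n : ‖(2 : ℚ_[p])‖ ≤ 1 := by exact_mod_cast Padic.norm_int_le_one (p := p) 2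
  have h3n : ‖(3 : ℚ_[p])‖ ≤ 1 := by exact_mod_cast Padic.norm_int_le_one (p := p) 3
  have hM0 : 0 ≤ M := by linarith
  have hM2 : M ≤ M ^ 2 := by nlinarith
  have hM3 : M ^ 2 ≤ M ^ 3 := by
    have : M ^ 2 * 1 ≤ M ^ 2 * M := mul_le_mul_of_nonneg_left hM (by positivity)
    linarith [show M ^ 2 * M = M ^ 3 by ring]
  -- the pieces
  have p1 : ‖-2 * x * X ^ 2 + (x ^ 2 - a) * X - b‖ ≤ M ^ 2 * ‖X‖ ^ 2 := by
    rw [sub_eq_add_neg]
    have hX2 : ‖X‖ ≤ ‖X‖ ^ 2 := by nlinarith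
    refine (Padic.nonarchimedean _ _).trans (max_le ((Padic.nonarchimedean _ _).trans
      (max_le ?_ ?_)) ?_)
    · rw [norm_mul, norm_mul, norm_neg, norm_pow]
      have h1 : ‖(2 : ℚ_[p])‖ * ‖x‖ ≤ 1 * M := mul_le_mul h2n hx (norm_nonneg _) zero_le_one
      have h2 : ‖(2 : ℚ_[p])‖ * ‖x‖ ≤ M ^ 2 := by linarith
      exact mul_le_mul_of_nonneg_right h2 (by positivity)
    · rw [norm_mul]
      have h1 : ‖x ^ 2 - a‖ ≤ M ^ 2 := by
        rw [sub_eq_add_neg]
        refine (Padic.nonarchimedean _ _).trans (max_le ?_ ?_)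
        · rw [norm_pow]; exact pow_le_pow_left₀ (norm_nonneg _) hx 2
        · rw [norm_neg]; nlinarith
      exact mul_le_mul h1 hX2 (norm_nonneg _) (by positivity)
    · rw [norm_neg]
      have h1 : (1 : ℝ) ≤ M ^ 2 := by nlinarith
      have h2 : (1 : ℝ) ≤ ‖X‖ ^ 2 := by nlinarith
      calc ‖(b : ℚ_[p])‖ ≤ 1 * 1 := by linarith
        _ ≤ M ^ 2 * ‖X‖ ^ 2 := mul_le_mul h1 h2 zero_le_one (by positivity)
  have p2 : ‖2 * y / Y * (-2 * x * X ^ 2 + (x ^ 2 - a) * X - b)‖ ≤ M ^ 3 * ‖X‖ := by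
    rw [norm_mul, norm_div, norm_mul]
    have h1 : ‖(2 : ℚ_[p])‖ * ‖y‖ ≤ M := by
      have := mul_le_mul h2n hy (norm_nonneg _) zero_le_one
      linarith
    calc ‖(2 : ℚ_[p])‖ * ‖y‖ / ‖Y‖ * ‖-2 * x * X ^ 2 + (x ^ 2 - a) * X - b‖ ≤
        M / ‖Y‖ * (M ^ 2 * ‖X‖ ^ 2) := by
          refine mul_le_mul ?_ p1 (norm_nonneg _) (by positivity)
          exact div_le_div_of_nonneg_right h1 hYpos.le
      _ = M ^ 3 * ‖X‖ * (‖X‖ / ‖Y‖) := by ring
      _ ≤ M ^ 3 * ‖X‖ * 1 := by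
          apply mul_le_mul_of_nonneg_left _ (by positivity)
          rw [div_le_one hYpos]
          exact hXY
      _ = _ := mul_one _
  have p3 : ‖X * (3 * x ^ 2 + a)‖ ≤ M ^ 3 * ‖X‖ := by
    rw [norm_mul, mul_comm]
    apply mul_le_mul_of_nonneg_right _ (norm_nonneg _)
    refine (Padic.nonarchimedean _ _).trans (max_le ?_ ?_)
    · rw [norm_mul, norm_pow]
      have h1 : ‖(3 : ℚ_[p])‖ * ‖x‖ ^ 2 ≤ 1 * M ^ 2 :=
        mul_le_mul h3n (pow_le_pow_left₀ (norm_nonneg _) hx 2) (by positivity) zero_le_one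
      linarith
    · nlinarith
  have p4 : ‖a * x + 2 * b - x ^ 3‖ ≤ M ^ 3 * ‖X‖ := by
    have h1 : ‖a * x + 2 * b - x ^ 3‖ ≤ M ^ 3 := by
      rw [sub_eq_add_neg]
      refine (Padic.nonarchimedean _ _).trans (max_le ((Padic.nonarchimedean _ _).trans
        (max_le ?_ ?_)) ?_)
      · rw [norm_mul]
        have := mul_le_mul ha hx (norm_nonneg _) zero_le_one
        linarith
      · rw [norm_mul]
        have := mul_le_mul h2n hb (norm_nonneg _) zero_le_one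
        linarith
      · rw [norm_neg, norm_pow]
        exact pow_le_pow_left₀ (norm_nonneg _) hx 3
    calc _ ≤ M ^ 3 * 1 := by linarith
      _ ≤ _ := mul_le_mul_of_nonneg_left hQ.le (by positivity)
  have hfin : ‖(ℓ ^ 2 - x - X - x + 2 * y * (X / Y)) * (X - x) ^ 2‖ ≤ M ^ 3 * ‖X‖ := by
    rw [hid]
    exact (Padic.nonarchimedean _ _).trans (max_le ((Padic.nonarchimedean _ _).trans
      (max_le p2 p3)) p4)
  rw [norm_mul, norm_pow, hn] at hfin
  have k2' : ‖X / Y‖ ^ 2 = ‖X‖⁻¹ := by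
    field_simp
    exact k2
  rw [k2']
  have hfin2 : ‖ℓ ^ 2 - x - X - x + 2 * y * (X / Y)‖ * ‖X‖ * ‖X‖ ≤ M ^ 3 * ‖X‖ := by
    calc _ = ‖ℓ ^ 2 - x - X - x + 2 * y * (X / Y)‖ * ‖X‖ ^ 2 := by ring
      _ ≤ _ := hfin
  have hfin3 := le_of_mul_le_mul_right hfin2 hXpos
  rw [← div_eq_mul_inv, le_div_iff₀ hXpos]
  exact hfin3

end translate

section comb

lemma tt_zero : tt p (0 : (curve a b).Point) = 0 := by
  rw [tt]
  have : ((ptX (0 : (curve a b).Point) : ℚ) : ℚ_[p]) = 0 := by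
    show (((0 : ℚ)) : ℚ_[p]) = 0
    simp
  rw [this, zero_div]

lemma ptX_neg (Q : (curve a b).Point) : ptX (-Q) = ptX Q := by
  match Q with
  | .zero => rfl
  | .some x y hh => rw [Point.neg_some]; rfl

lemma Ker.neg' {Q : (curve a b).Point} (h : Ker p Q) : Ker p (-Q) := by
  rcases h with rfl | h
  · rw [neg_zero]; exact Or.inl rfl
  · right; rw [ptX_neg]; exact h

/-- Sums of two points of the kernel of reduction. -/
lemma dens_add {A B : (curve a b).Point} (hA : Ker p A) (hB : Ker p B) {ε : ℝ} (h0 : 0 ≤ ε)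
    (hA' : ‖tt p A‖ ≤ ε) (hB' : ‖tt p B‖ ≤ ε) :
    Ker p (A + B) ∧ ‖tt p (A + B) - tt p A - tt p B‖ ≤ ε ^ 3 := by
  have hε : (0 : ℝ) ≤ ε ^ 3 := by positivity
  rcases hA with rfl | hA
  · rw [zero_add, tt_zero, sub_zero, sub_self, norm_zero]
    exact ⟨hB, hε⟩
  rcases hB with rfl | hB
  · rw [add_zero, tt_zero, sub_zero, sub_self, norm_zero]
    exact ⟨Or.inr hA, hε⟩
  by_cases hs : A + B = 0
  · have h1 : B = -A := (neg_eq_of_add_eq_zero_right hs).symm
    refine ⟨Or.inl hs, ?_⟩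
    rw [hs, tt_zero, h1, tt_neg]
    simpa using hε
  · rcases le_total ‖tt p A‖ ‖tt p B‖ with h | h
    · obtain ⟨h1, h2⟩ := ker_add hA hB hs h
      exact ⟨Or.inr h1, h2.trans (pow_le_pow_left₀ (norm_nonneg _) hB' 3)⟩
    · rw [add_comm] at hs ⊢
      obtain ⟨h1, h2⟩ := ker_add hB hA hs h
      refine ⟨Or.inr h1, le_trans (le_of_eq ?_) (h2.trans (pow_le_pow_left₀ (norm_nonneg _) hA' 3))⟩
      congr 1
      ring

/-- The parameter of a sum is small. -/
lemma dens_add_le {A B : (curve a b).Point} {ε : ℝ} (h0 : 0 ≤ ε) (h1 : ε ≤ 1)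
    (hA' : ‖tt p A‖ ≤ ε) (hB' : ‖tt p B‖ ≤ ε)
    (h : ‖tt p (A + B) - tt p A - tt p B‖ ≤ ε ^ 3) : ‖tt p (A + B)‖ ≤ ε := by
  have hε : ε ^ 3 ≤ ε := by
    calc ε ^ 3 = ε * ε ^ 2 := by ring
      _ ≤ ε * 1 := mul_le_mul_of_nonneg_left (pow_le_one₀ h0 h1) h0
      _ = ε := mul_one _
  have e : tt p (A + B) = (tt p (A + B) - tt p A - tt p B) + (tt p A + tt p B) := by ring
  rw [e]
  exact (Padic.nonarchimedean _ _).trans (max_le (h.trans hε)
    ((Padic.nonarchimedean _ _).trans (max_le hA' hB')))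

lemma dens_nsmul {Q : (curve a b).Point} (hQ : Ker p Q) {ε : ℝ} (h0 : 0 ≤ ε) (h1 : ε ≤ 1)
    (hQ' : ‖tt p Q‖ ≤ ε) (n : ℕ) :
    Ker p (n • Q) ∧ ‖tt p (n • Q)‖ ≤ ε ∧ ‖tt p (n • Q) - n * tt p Q‖ ≤ ε ^ 3 := by
  induction n with
  | zero =>
    rw [zero_nsmul, tt_zero, norm_zero, Nat.cast_zero, zero_mul, sub_zero, norm_zero]
    exact ⟨Or.inl rfl, h0, by positivity⟩
  | succ n ih =>
    obtain ⟨i1, i2, i3⟩ := ih
    obtain ⟨k1, k2⟩ := dens_add i1 hQ h0 i2 hQ'
    rw [succ_nsmul]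
    refine ⟨k1, dens_add_le h0 h1 i2 hQ' k2, ?_⟩
    have e : tt p (n • Q + Q) - ((n + 1 : ℕ) : ℚ_[p]) * tt p Q =
        (tt p (n • Q + Q) - tt p (n • Q) - tt p Q) + (tt p (n • Q) - n * tt p Q) := by
      push_cast; ring
    rw [e]
    exact (Padic.nonarchimedean _ _).trans (max_le k2 i3)

lemma dens_zsmul {Q : (curve a b).Point} (hQ : Ker p Q) {ε : ℝ} (h0 : 0 ≤ ε) (h1 : ε ≤ 1)
    (hQ' : ‖tt p Q‖ ≤ ε) (n : ℤ) :
    Ker p (n • Q) ∧ ‖tt p (n • Q)‖ ≤ ε ∧ ‖tt p (n • Q) - n * tt p Q‖ ≤ ε ^ 3 := by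
  obtain ⟨k, rfl | rfl⟩ := n.eq_nat_or_neg
  · rw [natCast_zsmul]
    have := dens_nsmul hQ h0 h1 hQ' k
    exact_mod_cast this
  · rw [neg_zsmul, natCast_zsmul, tt_neg]
    obtain ⟨i1, i2, i3⟩ := dens_nsmul hQ h0 h1 hQ' k
    refine ⟨Ker.neg' i1, by rw [norm_neg]; exact i2, ?_⟩
    have e : -tt p (k • Q) - ((-(k : ℤ) : ℤ) : ℚ_[p]) * tt p Q =
        -(tt p (k • Q) - k * tt p Q) := by
      push_cast; ring
    rw [e, norm_neg]
    exact i3

lemma dens_sum {ι : Type} (s : Finset ι) (n : ι → ℤ) {Q : ι → (curve a b).Point}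
    (hQ : ∀ i, Ker p (Q i)) {ε : ℝ} (h0 : 0 ≤ ε) (h1 : ε ≤ 1) (hQ' : ∀ i, ‖tt p (Q i)‖ ≤ ε) :
    Ker p (∑ i ∈ s, n i • Q i) ∧ ‖tt p (∑ i ∈ s, n i • Q i)‖ ≤ ε ∧
      ‖tt p (∑ i ∈ s, n i • Q i) - ∑ i ∈ s, n i * tt p (Q i)‖ ≤ ε ^ 3 := by
  classical
  induction s using Finset.induction_on with
  | empty =>
    rw [Finset.sum_empty, Finset.sum_empty, tt_zero, norm_zero, sub_zero, norm_zero]
    exact ⟨Or.inl rfl, h0, by positivity⟩
  | insert i s hi ih =>
    obtain ⟨i1, i2, i3⟩ := ih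
    obtain ⟨j1, j2, j3⟩ := dens_zsmul (hQ i) h0 h1 (hQ' i) (n i)
    obtain ⟨k1, k2⟩ := dens_add j1 i1 h0 j2 i2
    rw [Finset.sum_insert hi, Finset.sum_insert hi]
    refine ⟨k1, dens_add_le h0 h1 j2 i2 k2, ?_⟩
    have e : tt p (n i • Q i + ∑ j ∈ s, n j • Q j) -
        (n i * tt p (Q i) + ∑ j ∈ s, n j * tt p (Q j)) =
        (tt p (n i • Q i + ∑ j ∈ s, n j • Q j) - tt p (n i • Q i) - tt p (∑ j ∈ s, n j • Q j)) +
        ((tt p (n i • Q i) - n i * tt p (Q i)) +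
          (tt p (∑ j ∈ s, n j • Q j) - ∑ j ∈ s, n j * tt p (Q j))) := by
      ring
    rw [e]
    exact (Padic.nonarchimedean _ _).trans (max_le k2 ((Padic.nonarchimedean _ _).trans
      (max_le j3 i3)))

/-- Multiplication by powers of `p`. -/
lemma dens_scale (hp3 : 3 ≤ p) {Q : (curve a b).Point} (hQ : 1 < ‖((ptX Q : ℚ) : ℚ_[p])‖)
    (k : ℕ) : 1 < ‖((ptX (p ^ k • Q) : ℚ) : ℚ_[p])‖ ∧
      ‖tt p (p ^ k • Q)‖ = ((p : ℝ)⁻¹) ^ k * ‖tt p Q‖ := by
  induction k with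
  | zero =>
    rw [pow_zero, one_smul, pow_zero, one_mul]
    exact ⟨hQ, rfl⟩
  | succ k ih =>
    obtain ⟨i1, i2⟩ := ih
    obtain ⟨t1, t2, t3⟩ := tt_pos i1
    set R := p ^ k • Q with hR
    have hp0 : (0 : ℝ) < p := by exact_mod_cast hp.out.pos
    have hp3' : (3 : ℝ) ≤ p := by exact_mod_cast hp3
    have hlt1 : ‖tt p R‖ < 1 := by
      by_contra hcon
      push Not at hcon
      have : (1 : ℝ) ≤ ‖tt p R‖ ^ 2 := one_le_pow₀ hcon
      linarith
    have hle : ‖tt p R‖ ≤ (p : ℝ)⁻¹ := by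
      have h1 : ‖tt p R‖ ≤ (p : ℝ) ^ (-(1 : ℤ)) := by
        rw [Padic.norm_le_pow_iff_norm_lt_pow_add_one]
        simpa using hlt1
      rwa [zpow_neg, zpow_one] at h1
    obtain ⟨n1, n2, n3⟩ := dens_nsmul (Or.inr i1) (norm_nonneg _) hlt1.le le_rfl p
    have hpR : p ^ (k + 1) • Q = p • R := by
      rw [hR, ← mul_smul, pow_succ, mul_comm]
    have hcomp : ‖tt p R‖ ^ 3 < ‖(p : ℚ_[p]) * tt p R‖ := by
      rw [norm_mul, Padic.norm_p]
      have h1 : ‖tt p R‖ ^ 2 < (p : ℝ)⁻¹ := by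
        calc ‖tt p R‖ ^ 2 ≤ (p : ℝ)⁻¹ * (p : ℝ)⁻¹ := by
              rw [pow_two]
              exact mul_le_mul hle hle (norm_nonneg _) (by positivity)
          _ < (p : ℝ)⁻¹ * 1 := by
              apply mul_lt_mul_of_pos_left _ (by positivity)
              exact inv_lt_one_of_one_lt₀ (by linarith)
          _ = _ := mul_one _
      calc ‖tt p R‖ ^ 3 = ‖tt p R‖ ^ 2 * ‖tt p R‖ := by ring
        _ < (p : ℝ)⁻¹ * ‖tt p R‖ := mul_lt_mul_of_pos_right h1 t1
    have hn : ‖tt p (p • R)‖ = (p : ℝ)⁻¹ * ‖tt p R‖ := by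
      have e : tt p (p • R) = (p : ℚ_[p]) * tt p R + (tt p (p • R) - p * tt p R) := by ring
      rw [e, norm_add_eq_left (lt_of_le_of_lt n3 hcomp), norm_mul, Padic.norm_p]
    rw [hpR]
    constructor
    · rcases n1 with h | h
      · exfalso
        rw [h, tt_zero, norm_zero] at hn
        have : 0 < (p : ℝ)⁻¹ * ‖tt p R‖ := by positivity
        linarith
      · exact h
    · rw [hn, i2, pow_succ]
      ring

end comb

section poly

/-- Common denominators. -/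
lemma dens_clear {ι : Type} [Fintype ι] (q : ι → ℚ) :
    ∃ N : ℤ, N ≠ 0 ∧ ∃ z : ι → ℤ, ∀ i, (z i : ℚ) = (N : ℚ) * q i := by
  classical
  refine ⟨∏ i, ((q i).den : ℤ), ?_,
    fun i => (∏ j ∈ Finset.univ.erase i, ((q j).den : ℤ)) * (q i).num, fun i => ?_⟩
  · rw [Finset.prod_ne_zero_iff]
    intro i _
    exact_mod_cast (q i).den_nz
  · rw [← Finset.mul_prod_erase Finset.univ _ (Finset.mem_univ i)]
    push_cast
    have h1 : (q i) * ((q i).den : ℚ) = (q i).num := Rat.mul_den_eq_num (q i)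
    rw [← h1]
    ring

lemma dens_ptY_ne {T : (curve a b).Point} (hT : T ∈ goodGroup p a b) (h0 : T ≠ 0) :
    ptY T ≠ 0 := by
  intro hy
  obtain ⟨hh, e⟩ := exists_eq_some T h0
  have h1 : T + T = 0 := by
    have h2 : T = -T := by
      conv_rhs => rw [e, Point.neg_some]
      conv_lhs => rw [e]
      simp only [Point.some.injEq]
      refine ⟨trivial, ?_⟩
      rw [curve_negY, hy, neg_zero]
    nth_rewrite 1 [h2]
    exact neg_add_cancel T
  exact good_not_torsion hT h0 (isOfFinAddOrder_iff_nsmul_eq_zero.2 ⟨2, two_pos, by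
    rw [two_nsmul]; exact h1⟩)

lemma dens_eval_map {σ : Type} (G : MvPolynomial σ ℚ) (v : σ → ℚ) :
    MvPolynomial.eval (fun i => (v i : ℚ_[p])) (G.map (algebraMap ℚ ℚ_[p])) =
      ((MvPolynomial.eval v G : ℚ) : ℚ_[p]) := by
  induction G using MvPolynomial.induction_on with
  | C c => rw [MvPolynomial.map_C, MvPolynomial.eval_C, MvPolynomial.eval_C, eq_ratCast]
  | add F G hF hG => rw [map_add, map_add, hF, hG, map_add]; push_cast; rfl
  | mul_X F i hF =>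
    rw [map_mul, map_mul, hF, MvPolynomial.map_X, MvPolynomial.eval_X, map_mul,
      MvPolynomial.eval_X]
    push_cast
    rfl

variable {n : ℕ}

/-- One point of the orbit: the derivatives vanish, too. -/
lemma dens_step (hp3 : 3 ≤ p) {R γ : Fin n → (curve a b).Point}
    (hR : ∀ i, R i ∈ goodGroup p a b) (hR0 : ∀ i, R i ≠ 0) (hγ : ∀ i, γ i ∈ goodGroup p a b)
    (hind : ∀ c : Fin n → ℤ, ∑ i, c i • γ i = 0 → c = 0) (F : MvPolynomial (Fin n) ℚ)
    (hF0 : MvPolynomial.eval (fun i => ptX (R i)) F = 0)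
    (hF : ∀ k : ℕ, MvPolynomial.eval (fun i => ptX (R i + p ^ k • γ i)) F = 0) (i : Fin n) :
    MvPolynomial.eval (fun i => ptX (R i)) (MvPolynomial.pderiv i F) = 0 := by
  classical
  by_contra hne
  set x : Fin n → ℚ := fun i => ptX (R i) with hx
  have hγ0 : ∀ i, γ i ≠ 0 := by
    intro i h0
    have h1 := hind (Pi.single i 1) (by
      rw [Finset.sum_eq_single i]
      · rw [Pi.single_eq_same, one_smul, h0]
      · intro j _ hj
        rw [Pi.single_eq_of_ne hj, zero_zsmul]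
      · intro h; exact absurd (Finset.mem_univ _) h)
    have h2 := congrFun h1 i
    rw [Pi.single_eq_same] at h2
    exact one_ne_zero h2
  have hγk : ∀ i, 1 < ‖((ptX (γ i) : ℚ) : ℚ_[p])‖ := fun i =>
    ((hγ i).resolve_left (hγ0 i)).1
  -- the integer combination
  obtain ⟨N, hN, z, hz⟩ := dens_clear fun i =>
    2 * ptY (R i) * MvPolynomial.eval x (MvPolynomial.pderiv i F)
  have hzi : z i ≠ 0 := by
    intro h0
    have h1 := hz i
    rw [h0, Int.cast_zero] at h1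
    have h2 : (N : ℚ) * (2 * ptY (R i) * MvPolynomial.eval x (MvPolynomial.pderiv i F)) ≠ 0 := by
      refine mul_ne_zero (by exact_mod_cast hN) (mul_ne_zero (mul_ne_zero two_ne_zero
        (dens_ptY_ne (hR i) (hR0 i))) hne)
    exact h2 h1.symm
  obtain ⟨δ, hδ⟩ : ∃ δ, δ = ∑ i, z i • γ i := ⟨_, rfl⟩
  have hδ0 : δ ≠ 0 := by
    rw [hδ]
    intro h0
    exact hzi (congrFun (hind z h0) i)
  have hδg : δ ∈ goodGroup p a b := by
    rw [hδ]
    exact sum_mem fun i _ => zsmul_mem (hγ i) _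
  have hδk : 1 < ‖((ptX δ : ℚ) : ℚ_[p])‖ := (hδg.resolve_left hδ0).1
  -- constants
  have hp0 : (0 : ℝ) < p := by exact_mod_cast hp.out.pos
  have hp1 : (1 : ℝ) < p := by exact_mod_cast hp.out.one_lt
  obtain ⟨M, hM⟩ : ∃ M : ℝ, M = 1 + ∑ i, (‖((ptX (R i) : ℚ) : ℚ_[p])‖ +
      ‖((ptY (R i) : ℚ) : ℚ_[p])‖) := ⟨_, rfl⟩
  have hM1 : 1 ≤ M := by
    rw [hM]
    have : 0 ≤ ∑ i, (‖((ptX (R i) : ℚ) : ℚ_[p])‖ + ‖((ptY (R i) : ℚ) : ℚ_[p])‖) :=
      Finset.sum_nonneg fun i _ => by positivity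
    linarith
  have hMi : ∀ i, ‖((ptX (R i) : ℚ) : ℚ_[p])‖ + ‖((ptY (R i) : ℚ) : ℚ_[p])‖ ≤ M := by
    intro i
    rw [hM]
    have := Finset.single_le_sum (f := fun i => ‖((ptX (R i) : ℚ) : ℚ_[p])‖ +
      ‖((ptY (R i) : ℚ) : ℚ_[p])‖) (fun i _ => by positivity) (Finset.mem_univ i)
    linarith
  have hMx : ∀ i, ‖((ptX (R i) : ℚ) : ℚ_[p])‖ ≤ M := fun i => by
    have := hMi i
    have := norm_nonneg ((ptY (R i) : ℚ) : ℚ_[p])
    linarith
  have hMy : ∀ i, ‖((ptY (R i) : ℚ) : ℚ_[p])‖ ≤ M := fun i => by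
    have := hMi i
    have := norm_nonneg ((ptX (R i) : ℚ) : ℚ_[p])
    linarith
  obtain ⟨C, hC0, hC⟩ := dens_taylor (p := p) (F.map (algebraMap ℚ ℚ_[p]))
    (fun i => (x i : ℚ_[p]))
  have hev := fun (G : MvPolynomial (Fin n) ℚ) (v : Fin n → ℚ) => dens_eval_map (p := p) G v
  obtain ⟨E, hE⟩ : ∃ E : ℝ, E = ∑ i, ‖((MvPolynomial.eval x (MvPolynomial.pderiv i F) : ℚ) :
      ℚ_[p])‖ := ⟨_, rfl⟩
  have hE0 : 0 ≤ E := by rw [hE]; exact Finset.sum_nonneg fun _ _ => norm_nonneg _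
  -- the bound
  have hkey : ∀ k : ℕ, M ^ 3 * ((p : ℝ)⁻¹) ^ k ≤ 1 → M * ((p : ℝ)⁻¹) ^ k < 1 →
      ((p : ℝ)⁻¹) ^ k * ‖tt p δ‖ ≤ (C * M ^ 6 + E * M ^ 3 + 1) * (((p : ℝ)⁻¹) ^ k) ^ 2 := by
    intro k hk1 hk2
    obtain ⟨ε, hε⟩ : ∃ ε : ℝ, ε = ((p : ℝ)⁻¹) ^ k := ⟨_, rfl⟩
    have hε0 : 0 < ε := by rw [hε]; positivity
    have hε1 : ε ≤ 1 := by
      rw [hε]
      exact pow_le_one₀ (by positivity) (inv_le_one_of_one_le₀ hp1.le)
    rw [← hε] at hk1 hk2 ⊢
    have hQ : ∀ i, 1 < ‖((ptX (p ^ k • γ i) : ℚ) : ℚ_[p])‖ ∧ ‖tt p (p ^ k • γ i)‖ ≤ ε := by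
      intro i
      obtain ⟨h1, h2⟩ := dens_scale hp3 (hγk i) k
      refine ⟨h1, ?_⟩
      rw [h2, ← hε]
      obtain ⟨t1, t2, -⟩ := tt_pos (hγk i)
      have : ‖tt p (γ i)‖ ≤ 1 := by
        by_contra hcon
        push Not at hcon
        have : (1 : ℝ) < ‖tt p (γ i)‖ ^ 2 := one_lt_pow₀ hcon two_ne_zero
        linarith
      calc ε * ‖tt p (γ i)‖ ≤ ε * 1 := mul_le_mul_of_nonneg_left this hε0.le
        _ = ε := mul_one _
    have hlt : ∀ i, ‖((ptX (R i) : ℚ) : ℚ_[p])‖ < ‖((ptX (p ^ k • γ i) : ℚ) : ℚ_[p])‖ := by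
      intro i
      obtain ⟨h1, h2⟩ := hQ i
      obtain ⟨t1, t2, t3⟩ := tt_pos h1
      have h3 : ‖tt p (p ^ k • γ i)‖ ^ 2 ≤ ε := by
        calc ‖tt p (p ^ k • γ i)‖ ^ 2 ≤ ε ^ 2 := pow_le_pow_left₀ (norm_nonneg _) h2 2
          _ ≤ ε := by nlinarith
      by_contra hcon
      push Not at hcon
      have h4 : (1 : ℝ) ≤ ε * M :=
        t3.symm.le.trans (mul_le_mul h3 (hcon.trans (hMx i)) (norm_nonneg _) hε0.le)
      linarith
    -- the increments
    set d : Fin n → ℚ_[p] := fun i =>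
      ((ptX (R i + p ^ k • γ i) : ℚ) : ℚ_[p]) - ((ptX (R i) : ℚ) : ℚ_[p]) with hd
    have hdi : ∀ i, ‖d i + 2 * ((ptY (R i) : ℚ) : ℚ_[p]) * tt p (p ^ k • γ i)‖ ≤
        M ^ 3 * ε ^ 2 := by
      intro i
      refine (dens_translate (hR0 i) (hQ i).1 hM1 (hMx i) (hMy i) (hlt i)).trans ?_
      exact mul_le_mul_of_nonneg_left (pow_le_pow_left₀ (norm_nonneg _) (hQ i).2 2)
        (by positivity)
    have h2n : ‖(2 : ℚ_[p])‖ ≤ 1 := by exact_mod_cast Padic.norm_int_le_one (p := p) 2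
    have hM3 : M ≤ M ^ 3 := by
      calc M = M * 1 := (mul_one _).symm
        _ ≤ M * M ^ 2 := mul_le_mul_of_nonneg_left (one_le_pow₀ hM1) (by linarith)
        _ = M ^ 3 := by ring
    have hdn : ∀ i, ‖d i‖ ≤ M ^ 3 * ε := by
      intro i
      have e : d i = (d i + 2 * ((ptY (R i) : ℚ) : ℚ_[p]) * tt p (p ^ k • γ i)) -
          2 * ((ptY (R i) : ℚ) : ℚ_[p]) * tt p (p ^ k • γ i) := by ring
      rw [e, sub_eq_add_neg]
      refine (Padic.nonarchimedean _ _).trans (max_le ((hdi i).trans ?_) ?_)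
      · apply mul_le_mul_of_nonneg_left _ (by positivity)
        nlinarith
      · rw [norm_neg, norm_mul, norm_mul]
        have h1 : ‖(2 : ℚ_[p])‖ * ‖((ptY (R i) : ℚ) : ℚ_[p])‖ ≤ M ^ 3 := by
          have := mul_le_mul h2n (hMy i) (norm_nonneg _) zero_le_one
          linarith
        exact mul_le_mul h1 (hQ i).2 (norm_nonneg _) (by positivity)
    have hT := hC d (M ^ 3 * ε) (by positivity) hk1 hdn
    have e1 : (fun i => (x i : ℚ_[p])) + d = fun i =>
        (((fun i => ptX (R i + p ^ k • γ i)) i : ℚ) : ℚ_[p]) := by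
      funext i
      simp only [Pi.add_apply, hd, hx]
      ring
    rw [e1, hev, hev, hF k, hF0, Rat.cast_zero, sub_zero, zero_sub, norm_neg] at hT
    have e2 : ∀ i, MvPolynomial.eval (fun i => (x i : ℚ_[p]))
        (MvPolynomial.pderiv i (F.map (algebraMap ℚ ℚ_[p]))) =
        ((MvPolynomial.eval x (MvPolynomial.pderiv i F) : ℚ) : ℚ_[p]) := by
      intro i
      rw [MvPolynomial.pderiv_map, hev]
    rw [Finset.sum_congr rfl fun i _ => by rw [e2 i]] at hT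
    -- replace the increments by the parameters
    set S : ℚ_[p] := ∑ i, ((MvPolynomial.eval x (MvPolynomial.pderiv i F) : ℚ) : ℚ_[p]) * d i
      with hS
    set S' : ℚ_[p] := ∑ i, ((MvPolynomial.eval x (MvPolynomial.pderiv i F) : ℚ) : ℚ_[p]) *
      (2 * ((ptY (R i) : ℚ) : ℚ_[p]) * tt p (p ^ k • γ i)) with hS'
    have hSS : ‖S + S'‖ ≤ E * (M ^ 3 * ε ^ 2) := by
      rw [hS, hS', ← Finset.sum_add_distrib, hE, Finset.sum_mul]
      refine (norm_sum_le _ _).trans (Finset.sum_le_sum fun i _ => ?_)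
      rw [← mul_add, norm_mul]
      exact mul_le_mul_of_nonneg_left (hdi i) (norm_nonneg _)
    have hS'n : ‖S'‖ ≤ C * M ^ 6 * ε ^ 2 + E * M ^ 3 * ε ^ 2 := by
      have e : S' = (S + S') - S := by ring
      rw [e]
      refine (norm_sub_le _ _).trans ?_
      calc ‖S + S'‖ + ‖S‖ ≤ E * (M ^ 3 * ε ^ 2) + C * (M ^ 3 * ε) ^ 2 := add_le_add hSS hT
        _ = _ := by ring
    -- the integer combination of the parameters
    have e3 : ∑ i, (z i : ℚ_[p]) * tt p (p ^ k • γ i) = (N : ℚ_[p]) * S' := by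
      rw [hS', Finset.mul_sum]
      refine Finset.sum_congr rfl fun i _ => ?_
      have h1 := congrArg (fun q : ℚ => (q : ℚ_[p])) (hz i)
      push_cast at h1
      rw [h1]
      ring
    obtain ⟨-, -, c3⟩ := dens_sum Finset.univ z (fun i => Or.inr (hQ i).1) hε0.le hε1
      fun i => (hQ i).2
    have e4 : ∑ i, z i • (p ^ k • γ i) = p ^ k • δ := by
      rw [hδ, ← natCast_zsmul (∑ i, z i • γ i), Finset.smul_sum]
      refine Finset.sum_congr rfl fun i _ => ?_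
      rw [← natCast_zsmul (γ i), smul_smul, smul_smul, mul_comm]
    rw [e4, e3] at c3
    have c4 := (dens_scale hp3 hδk k).2
    rw [← hε] at c4
    rw [← c4]
    have e5 : tt p (p ^ k • δ) = (tt p (p ^ k • δ) - (N : ℚ_[p]) * S') + (N : ℚ_[p]) * S' := by
      ring
    rw [e5]
    refine (norm_add_le _ _).trans ?_
    have hN1 : ‖(N : ℚ_[p])‖ ≤ 1 := Padic.norm_int_le_one N
    have h6 : ‖(N : ℚ_[p]) * S'‖ ≤ C * M ^ 6 * ε ^ 2 + E * M ^ 3 * ε ^ 2 := by
      rw [norm_mul]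
      have := mul_le_mul hN1 hS'n (norm_nonneg _) zero_le_one
      linarith
    have h7 : ε ^ 3 ≤ ε ^ 2 := pow_le_pow_of_le_one hε0.le hε1 (by norm_num)
    calc ‖tt p (p ^ k • δ) - (N : ℚ_[p]) * S'‖ + ‖(N : ℚ_[p]) * S'‖ ≤
        ε ^ 2 + (C * M ^ 6 * ε ^ 2 + E * M ^ 3 * ε ^ 2) := add_le_add (c3.trans h7) h6
      _ = _ := by ring
  -- contradiction
  obtain ⟨t1, -, -⟩ := tt_pos hδk
  obtain ⟨A, hA⟩ : ∃ A : ℝ, A = C * M ^ 6 + E * M ^ 3 + 1 := ⟨_, rfl⟩
  have hA0 : 0 < A := by rw [hA]; positivity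
  have hlim : Filter.Tendsto (fun k : ℕ => ((p : ℝ)⁻¹) ^ k) Filter.atTop (nhds 0) :=
    tendsto_pow_atTop_nhds_zero_of_lt_one (by positivity) (inv_lt_one_of_one_lt₀ hp1)
  have hm : 0 < min (1 / M ^ 3) (min (1 / (2 * M)) (‖tt p δ‖ / (2 * A))) := by
    refine lt_min (by positivity) (lt_min (by positivity) (by positivity))
  obtain ⟨k, hk⟩ := (hlim.eventually (gt_mem_nhds hm)).exists
  have hk1 := lt_of_lt_of_le hk (min_le_left _ _)
  have hk2 := lt_of_lt_of_le hk ((min_le_right _ _).trans (min_le_left _ _))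
  have hk3 := lt_of_lt_of_le hk ((min_le_right _ _).trans (min_le_right _ _))
  obtain ⟨ε, hε⟩ : ∃ ε : ℝ, ε = ((p : ℝ)⁻¹) ^ k := ⟨_, rfl⟩
  have hε0 : 0 < ε := by rw [hε]; positivity
  have h1 := hkey k (by
    rw [lt_div_iff₀ (by positivity)] at hk1
    linarith [mul_comm (((p : ℝ)⁻¹) ^ k) (M ^ 3)]) (by
    rw [lt_div_iff₀ (by positivity)] at hk2
    have : 0 < M * ((p : ℝ)⁻¹) ^ k := by positivity
    nlinarith)
  rw [← hε, ← hA] at h1
  rw [← hε, lt_div_iff₀ (by positivity)] at hk3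
  have h2 : ‖tt p δ‖ ≤ A * ε := by
    have h3 : ε * ‖tt p δ‖ ≤ ε * (A * ε) := by
      calc ε * ‖tt p δ‖ ≤ A * ε ^ 2 := h1
        _ = ε * (A * ε) := by ring
    exact le_of_mul_le_mul_left h3 hε0
  nlinarith

/-- Polynomials in the abscissae which vanish along an orbit. -/
theorem dens_poly (hp3 : 3 ≤ p) {T γ : Fin n → (curve a b).Point}
    (hT : ∀ i, T i ∈ goodGroup p a b) (hγ : ∀ i, γ i ∈ goodGroup p a b)
    (hind : ∀ c : Fin n → ℤ, ∑ i, c i • γ i = 0 → c = 0) (J : ℕ)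
    (hJ : ∀ j, J ≤ j → ∀ i, T i + j • γ i ≠ 0) :
    ∀ (D : ℕ) (F : MvPolynomial (Fin n) ℚ), F.totalDegree ≤ D →
      (∀ j, J ≤ j → MvPolynomial.eval (fun i => ptX (T i + j • γ i)) F = 0) → F = 0 := by
  classical
  intro D
  induction D with
  | zero =>
    intro F hF h
    have h1 := MvPolynomial.totalDegree_eq_zero_iff_eq_C.1 (Nat.le_zero.1 hF)
    have h2 := h J le_rfl
    rw [h1, MvPolynomial.eval_C] at h2
    rw [h1, h2, map_zero]
  | succ D ih =>
    intro F hF h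
    have hder : ∀ i, MvPolynomial.pderiv i F = 0 := by
      intro i
      apply ih
      · rw [MvPolynomial.totalDegree]
        refine Finset.sup_le fun m hm => ?_
        rw [MvPolynomial.mem_support_iff, MvPolynomial.coeff_pderiv] at hm
        have h1 := left_ne_zero_of_mul hm
        have h2 := MvPolynomial.le_totalDegree (MvPolynomial.mem_support_iff.2 h1)
        rw [Finsupp.sum_add_index' (fun _ => rfl) (fun _ _ _ => rfl),
          Finsupp.sum_single_index rfl] at h2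
        omega
      · intro j hj
        refine dens_step hp3 (R := fun i => T i + j • γ i)
          (fun i => add_mem (hT i) (nsmul_mem (hγ i) _)) (hJ j hj) hγ hind F (h j hj) ?_ i
        intro k
        have h1 := h (j + p ^ k) (by omega)
        have e : (fun i => ptX (T i + j • γ i + p ^ k • γ i)) =
            fun i => ptX (T i + (j + p ^ k) • γ i) := by
          funext i
          rw [add_assoc, ← add_smul]
        rw [e]
        exact h1
    apply ih F _ h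
    -- a polynomial without derivatives is constant
    rw [MvPolynomial.totalDegree]
    refine Finset.sup_le fun m hm => ?_
    have hm0 : m = 0 := by
      by_contra hne
      obtain ⟨i, hi⟩ := Finsupp.ne_iff.1 hne
      rw [Finsupp.coe_zero, Pi.zero_apply] at hi
      have h1 := MvPolynomial.coeff_pderiv (i := i) F (m - Finsupp.single i 1)
      rw [hder i, MvPolynomial.coeff_zero] at h1
      have h2 : m - Finsupp.single i 1 + Finsupp.single i 1 = m := by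
        apply tsub_add_cancel_of_le
        rw [Finsupp.single_le_iff]
        omega
      rw [h2] at h1
      rcases mul_eq_zero.1 h1.symm with h4 | h4
      · exact (MvPolynomial.mem_support_iff.1 hm) h4
      · exact absurd h4 (Nat.cast_add_one_ne_zero _)
    rw [hm0]
    simp

/-- **Density of orbits.** -/
theorem dens (hp3 : 3 ≤ p) {T γ : Fin n → (curve a b).Point}
    (hT : ∀ i, T i ∈ goodGroup p a b) (hγ : ∀ i, γ i ∈ goodGroup p a b)
    (hind : ∀ c : Fin n → ℤ, ∑ i, c i • γ i = 0 → c = 0) (z : Bn a b n) (J : ℕ)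
    (h : ∀ j, J ≤ j → ∀ h0 : ∀ i, T i + j • γ i ≠ 0, evB (fun i => T i + j • γ i) h0 z = 0) :
    z = 0 := by
  classical
  by_contra hz
  obtain ⟨g, hg, w, hw⟩ := exists_dvd_poly hz
  -- almost all points have nonzero coordinates
  have hγ0 : ∀ i, γ i ≠ 0 := by
    intro i h0
    have h1 := hind (Pi.single i 1) (by
      rw [Finset.sum_eq_single i]
      · rw [Pi.single_eq_same, one_smul, h0]
      · intro j _ hj
        rw [Pi.single_eq_of_ne hj, zero_zsmul]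
      · intro h; exact absurd (Finset.mem_univ _) h)
    have h2 := congrFun h1 i
    rw [Pi.single_eq_same] at h2
    exact one_ne_zero h2
  have hbad : ∀ i, ∃ J' : ℕ, ∀ j : ℕ, J' ≤ j → T i + j • γ i ≠ 0 := by
    intro i
    by_cases hex : ∃ j₀ : ℕ, T i + j₀ • γ i = 0
    · obtain ⟨j₀, hj₀⟩ := hex
      refine ⟨j₀ + 1, fun j hj h0 => ?_⟩
      have h1 : (j - j₀) • γ i = 0 := by
        have h2 : j • γ i = (j - j₀) • γ i + j₀ • γ i := by
          rw [← add_smul]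
          congr 1
          omega
        have h3 : T i + j • γ i = T i + j₀ • γ i := by rw [h0, hj₀]
        have h4 := add_left_cancel h3
        rw [h2] at h4
        exact add_eq_right.1 h4
      exact good_not_torsion (hγ i) (hγ0 i)
        (isOfFinAddOrder_iff_nsmul_eq_zero.2 ⟨j - j₀, by omega, h1⟩)
    · push Not at hex
      exact ⟨0, fun j _ => hex j⟩
  choose J' hJ' using hbad
  apply hg
  refine dens_poly hp3 hT hγ hind (J + ∑ i, J' i) ?_ g.totalDegree g le_rfl ?_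
  · intro j hj i
    apply hJ' i
    have := Finset.single_le_sum (f := J') (fun i _ => Nat.zero_le _) (Finset.mem_univ i)
    omega
  · intro j hj
    have h0 : ∀ i, T i + j • γ i ≠ 0 := by
      intro i
      apply hJ' i
      have := Finset.single_le_sum (f := J') (fun i _ => Nat.zero_le _) (Finset.mem_univ i)
      omega
    have h1 := h j (by omega) h0
    have h2 : evB (fun i => T i + j • γ i) h0 (MvPolynomial.aeval (fun i => xB a b i) g) =
        MvPolynomial.eval (fun i => ptX (T i + j • γ i)) g := by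
      rw [MvPolynomial.comp_aeval_apply]
      have h3 : (fun i => evB (fun i => T i + j • γ i) h0 (xB a b i)) =
          fun i => ptX (T i + j • γ i) := by
        funext i
        rw [evB_x]
      rw [h3]
      rfl
    rw [← h2, hw, map_mul, h1, zero_mul]

end poly

end MP3550b5.RG
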