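import Mathlib
import Pool.Agent.Lib.MP_3550b5_nt.RG.Dens
import Pool.Agent.Lib.MP_3550b5_nt.RG.ZeroT

/-!
Functions on a power of the curve which vanish along the orbit of a subgroup of translations are
zero, if the subgroup satisfies no linear relation. The first part follows RG/Dens.lean.
-/

set_option linter.unusedSectionVars false

namespace MP3550b5.RG

open Pool.Agent.Lib.MP_3550b5_nt WeierstrassCurve.Affine

variable {p : ℕ} [hp : Fact p.Prime] {a b : ℤ} {n : ℕ}

/-- At a zero of a polynomial: an integral combination which vanishes for all directions in which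
the polynomial vanishes `p`-adically. -/
lemma densH_step (hp3 : 3 ≤ p) {R : Fin n → (curve a b).Point}
    (hR : ∀ i, R i ∈ goodGroup p a b) (hR0 : ∀ i, R i ≠ 0) (F : MvPolynomial (Fin n) ℚ)
    (hF0 : MvPolynomial.eval (fun i => ptX (R i)) F = 0) :
    ∃ z : Fin n → ℤ, (∀ i, z i = 0 →
      MvPolynomial.eval (fun i => ptX (R i)) (MvPolynomial.pderiv i F) = 0) ∧
      ∀ γ : Fin n → (curve a b).Point, (∀ i, γ i ∈ goodGroup p a b) → ∀ K : ℕ,
        (∀ k : ℕ, K ≤ k → MvPolynomial.eval (fun i => ptX (R i + p ^ k • γ i)) F = 0) →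
          ∑ i, z i • γ i = 0 := by
  classical
  set x : Fin n → ℚ := fun i => ptX (R i) with hx
  -- the integer combination
  obtain ⟨N, hN, z, hz⟩ := dens_clear fun i =>
    2 * ptY (R i) * MvPolynomial.eval x (MvPolynomial.pderiv i F)
  refine ⟨z, fun i h0 => ?_, fun γ hγ K hF => ?_⟩
  · by_contra hne
    have h1 := hz i
    rw [h0, Int.cast_zero] at h1
    have h2 : (N : ℚ) * (2 * ptY (R i) * MvPolynomial.eval x (MvPolynomial.pderiv i F)) ≠ 0 := by
      refine mul_ne_zero (by exact_mod_cast hN) (mul_ne_zero (mul_ne_zero two_ne_zero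
        (dens_ptY_ne (hR i) (hR0 i))) hne)
    exact h2 h1.symm
  by_contra hcon
  have hγk : ∀ i, γ i ≠ 0 → 1 < ‖((ptX (γ i) : ℚ) : ℚ_[p])‖ := fun i hi =>
    ((hγ i).resolve_left hi).1
  obtain ⟨δ, hδ⟩ : ∃ δ, δ = ∑ i, z i • γ i := ⟨_, rfl⟩
  have hδ0 : δ ≠ 0 := by
    rw [hδ]
    exact hcon
  have hδg : δ ∈ goodGroup p a b := by
    rw [hδ]
    exact sum_mem fun i _ => zsmul_mem (hγ i) _
  have hδk : 1 < ‖((ptX δ : ℚ) : ℚ_[p])‖ := (hδg.resolve_left hδ0).1
  -- constants
  have hp0 : (0 : ℝ) < p := by exact_mod_cast hp.out.pos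
  have hp1 : (1 : ℝ) < p := by exact_mod_cast hp.out.one_lt
  obtain ⟨M, hM⟩ : ∃ M : ℝ, M = 1 + ∑ i, (‖((ptX (R i) : ℚ) : ℚ_[p])‖ +
      ‖((ptY (R i) : ℚ) : ℚ_[p])‖) := ⟨_, rfl⟩
  have hM1 : 1 ≤ M := by
    rw [hM]
    have : 0 ≤ ∑ i, (‖((ptX (R i) : ℚ) : ℚ_[p])‖ + ‖((ptY (R i) : ℚ) : ℚ_[p])‖) :=
      Finset.sum_nonneg fun i _ => by positivity
    linarith
  have hMi : ∀ i, ‖((ptX (R i) : ℚ) : ℚ_[p])‖ + ‖((ptY (R i) : ℚ) : ℚ_[p])‖ ≤ M := by
    intro i
    rw [hM]
    have := Finset.single_le_sum (f := fun i => ‖((ptX (R i) : ℚ) : ℚ_[p])‖ +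
      ‖((ptY (R i) : ℚ) : ℚ_[p])‖) (fun i _ => by positivity) (Finset.mem_univ i)
    linarith
  have hMx : ∀ i, ‖((ptX (R i) : ℚ) : ℚ_[p])‖ ≤ M := fun i => by
    have := hMi i
    have := norm_nonneg ((ptY (R i) : ℚ) : ℚ_[p])
    linarith
  have hMy : ∀ i, ‖((ptY (R i) : ℚ) : ℚ_[p])‖ ≤ M := fun i => by
    have := hMi i
    have := norm_nonneg ((ptX (R i) : ℚ) : ℚ_[p])
    linarith
  obtain ⟨C, hC0, hC⟩ := dens_taylor (p := p) (F.map (algebraMap ℚ ℚ_[p]))
    (fun i => (x i : ℚ_[p]))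
  have hev := fun (G : MvPolynomial (Fin n) ℚ) (v : Fin n → ℚ) => dens_eval_map (p := p) G v
  obtain ⟨E, hE⟩ : ∃ E : ℝ, E = ∑ i, ‖((MvPolynomial.eval x (MvPolynomial.pderiv i F) : ℚ) :
      ℚ_[p])‖ := ⟨_, rfl⟩
  have hE0 : 0 ≤ E := by rw [hE]; exact Finset.sum_nonneg fun _ _ => norm_nonneg _
  -- the bound
  have hkey : ∀ k : ℕ, K ≤ k → M ^ 3 * ((p : ℝ)⁻¹) ^ k ≤ 1 → M * ((p : ℝ)⁻¹) ^ k < 1 →
      ((p : ℝ)⁻¹) ^ k * ‖tt p δ‖ ≤ (C * M ^ 6 + E * M ^ 3 + 1) * (((p : ℝ)⁻¹) ^ k) ^ 2 := by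
    intro k hKk hk1 hk2
    obtain ⟨ε, hε⟩ : ∃ ε : ℝ, ε = ((p : ℝ)⁻¹) ^ k := ⟨_, rfl⟩
    have hε0 : 0 < ε := by rw [hε]; positivity
    have hε1 : ε ≤ 1 := by
      rw [hε]
      exact pow_le_one₀ (by positivity) (inv_le_one_of_one_le₀ hp1.le)
    rw [← hε] at hk1 hk2 ⊢
    have hQ : ∀ i, γ i ≠ 0 →
        1 < ‖((ptX (p ^ k • γ i) : ℚ) : ℚ_[p])‖ ∧ ‖tt p (p ^ k • γ i)‖ ≤ ε := by
      intro i hi
      obtain ⟨h1, h2⟩ := dens_scale hp3 (hγk i hi) k
      refine ⟨h1, ?_⟩
      rw [h2, ← hε]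
      obtain ⟨t1, t2, -⟩ := tt_pos (hγk i hi)
      have : ‖tt p (γ i)‖ ≤ 1 := by
        by_contra hcon
        push Not at hcon
        have : (1 : ℝ) < ‖tt p (γ i)‖ ^ 2 := one_lt_pow₀ hcon two_ne_zero
        linarith
      calc ε * ‖tt p (γ i)‖ ≤ ε * 1 := mul_le_mul_of_nonneg_left this hε0.le
        _ = ε := mul_one _
    have hz0 : ∀ i, γ i = 0 → p ^ k • γ i = 0 := fun i hi => by rw [hi, nsmul_zero]
    have hQK : ∀ i, Ker p (p ^ k • γ i) ∧ ‖tt p (p ^ k • γ i)‖ ≤ ε := by
      intro i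
      by_cases hi : γ i = 0
      · rw [hz0 i hi, tt_zero, norm_zero]
        exact ⟨Or.inl rfl, hε0.le⟩
      · exact ⟨Or.inr (hQ i hi).1, (hQ i hi).2⟩
    have hlt : ∀ i, γ i ≠ 0 →
        ‖((ptX (R i) : ℚ) : ℚ_[p])‖ < ‖((ptX (p ^ k • γ i) : ℚ) : ℚ_[p])‖ := by
      intro i hi
      obtain ⟨h1, h2⟩ := hQ i hi
      obtain ⟨t1, t2, t3⟩ := tt_pos h1
      have h3 : ‖tt p (p ^ k • γ i)‖ ^ 2 ≤ ε := by
        calc ‖tt p (p ^ k • γ i)‖ ^ 2 ≤ ε ^ 2 := pow_le_pow_left₀ (norm_nonneg _) h2 2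
          _ ≤ ε := by nlinarith
      by_contra hcon
      push Not at hcon
      have h4 : (1 : ℝ) ≤ ε * M :=
        t3.symm.le.trans (mul_le_mul h3 (hcon.trans (hMx i)) (norm_nonneg _) hε0.le)
      linarith
    -- the increments
    set d : Fin n → ℚ_[p] := fun i =>
      ((ptX (R i + p ^ k • γ i) : ℚ) : ℚ_[p]) - ((ptX (R i) : ℚ) : ℚ_[p]) with hd
    have hdi : ∀ i, ‖d i + 2 * ((ptY (R i) : ℚ) : ℚ_[p]) * tt p (p ^ k • γ i)‖ ≤
        M ^ 3 * ε ^ 2 := by
      intro i
      by_cases hi : γ i = 0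
      · have h1 : d i + 2 * ((ptY (R i) : ℚ) : ℚ_[p]) * tt p (p ^ k • γ i) = 0 := by
          rw [hd]
          simp only
          rw [hz0 i hi, tt_zero, add_zero, sub_self, mul_zero, add_zero]
        rw [h1, norm_zero]
        positivity
      refine (dens_translate (hR0 i) (hQ i hi).1 hM1 (hMx i) (hMy i) (hlt i hi)).trans ?_
      exact mul_le_mul_of_nonneg_left (pow_le_pow_left₀ (norm_nonneg _) (hQ i hi).2 2)
        (by positivity)
    have h2n : ‖(2 : ℚ_[p])‖ ≤ 1 := by exact_mod_cast Padic.norm_int_le_one (p := p) 2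
    have hM3 : M ≤ M ^ 3 := by
      calc M = M * 1 := (mul_one _).symm
        _ ≤ M * M ^ 2 := mul_le_mul_of_nonneg_left (one_le_pow₀ hM1) (by linarith)
        _ = M ^ 3 := by ring
    have hdn : ∀ i, ‖d i‖ ≤ M ^ 3 * ε := by
      intro i
      have e : d i = (d i + 2 * ((ptY (R i) : ℚ) : ℚ_[p]) * tt p (p ^ k • γ i)) -
          2 * ((ptY (R i) : ℚ) : ℚ_[p]) * tt p (p ^ k • γ i) := by ring
      rw [e, sub_eq_add_neg]
      refine (Padic.nonarchimedean _ _).trans (max_le ((hdi i).trans ?_) ?_)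
      · apply mul_le_mul_of_nonneg_left _ (by positivity)
        nlinarith
      · rw [norm_neg, norm_mul, norm_mul]
        have h1 : ‖(2 : ℚ_[p])‖ * ‖((ptY (R i) : ℚ) : ℚ_[p])‖ ≤ M ^ 3 := by
          have := mul_le_mul h2n (hMy i) (norm_nonneg _) zero_le_one
          linarith
        exact mul_le_mul h1 (hQK i).2 (norm_nonneg _) (by positivity)
    have hT := hC d (M ^ 3 * ε) (by positivity) hk1 hdn
    have e1 : (fun i => (x i : ℚ_[p])) + d = fun i =>
        (((fun i => ptX (R i + p ^ k • γ i)) i : ℚ) : ℚ_[p]) := by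
      funext i
      simp only [Pi.add_apply, hd, hx]
      ring
    rw [e1, hev, hev, hF k hKk, hF0, Rat.cast_zero, sub_zero, zero_sub, norm_neg] at hT
    have e2 : ∀ i, MvPolynomial.eval (fun i => (x i : ℚ_[p]))
        (MvPolynomial.pderiv i (F.map (algebraMap ℚ ℚ_[p]))) =
        ((MvPolynomial.eval x (MvPolynomial.pderiv i F) : ℚ) : ℚ_[p]) := by
      intro i
      rw [MvPolynomial.pderiv_map, hev]
    rw [Finset.sum_congr rfl fun i _ => by rw [e2 i]] at hT
    -- replace the increments by the parameters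
    set S : ℚ_[p] := ∑ i, ((MvPolynomial.eval x (MvPolynomial.pderiv i F) : ℚ) : ℚ_[p]) * d i
      with hS
    set S' : ℚ_[p] := ∑ i, ((MvPolynomial.eval x (MvPolynomial.pderiv i F) : ℚ) : ℚ_[p]) *
      (2 * ((ptY (R i) : ℚ) : ℚ_[p]) * tt p (p ^ k • γ i)) with hS'
    have hSS : ‖S + S'‖ ≤ E * (M ^ 3 * ε ^ 2) := by
      rw [hS, hS', ← Finset.sum_add_distrib, hE, Finset.sum_mul]
      refine (norm_sum_le _ _).trans (Finset.sum_le_sum fun i _ => ?_)
      rw [← mul_add, norm_mul]
      exact mul_le_mul_of_nonneg_left (hdi i) (norm_nonneg _)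
    have hS'n : ‖S'‖ ≤ C * M ^ 6 * ε ^ 2 + E * M ^ 3 * ε ^ 2 := by
      have e : S' = (S + S') - S := by ring
      rw [e]
      refine (norm_sub_le _ _).trans ?_
      calc ‖S + S'‖ + ‖S‖ ≤ E * (M ^ 3 * ε ^ 2) + C * (M ^ 3 * ε) ^ 2 := add_le_add hSS hT
        _ = _ := by ring
    -- the integer combination of the parameters
    have e3 : ∑ i, (z i : ℚ_[p]) * tt p (p ^ k • γ i) = (N : ℚ_[p]) * S' := by
      rw [hS', Finset.mul_sum]
      refine Finset.sum_congr rfl fun i _ => ?_
      have h1 := congrArg (fun q : ℚ => (q : ℚ_[p])) (hz i)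
      push_cast at h1
      rw [h1]
      ring
    obtain ⟨-, -, c3⟩ := dens_sum Finset.univ z (fun i => (hQK i).1) hε0.le hε1
      fun i => (hQK i).2
    have e4 : ∑ i, z i • (p ^ k • γ i) = p ^ k • δ := by
      rw [hδ, ← natCast_zsmul (∑ i, z i • γ i), Finset.smul_sum]
      refine Finset.sum_congr rfl fun i _ => ?_
      rw [← natCast_zsmul (γ i), smul_smul, smul_smul, mul_comm]
    rw [e4, e3] at c3
    have c4 := (dens_scale hp3 hδk k).2
    rw [← hε] at c4
    rw [← c4]
    have e5 : tt p (p ^ k • δ) = (tt p (p ^ k • δ) - (N : ℚ_[p]) * S') + (N : ℚ_[p]) * S' := by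
      ring
    rw [e5]
    refine (norm_add_le _ _).trans ?_
    have hN1 : ‖(N : ℚ_[p])‖ ≤ 1 := Padic.norm_int_le_one N
    have h6 : ‖(N : ℚ_[p]) * S'‖ ≤ C * M ^ 6 * ε ^ 2 + E * M ^ 3 * ε ^ 2 := by
      rw [norm_mul]
      have := mul_le_mul hN1 hS'n (norm_nonneg _) zero_le_one
      linarith
    have h7 : ε ^ 3 ≤ ε ^ 2 := pow_le_pow_of_le_one hε0.le hε1 (by norm_num)
    calc ‖tt p (p ^ k • δ) - (N : ℚ_[p]) * S'‖ + ‖(N : ℚ_[p]) * S'‖ ≤
        ε ^ 2 + (C * M ^ 6 * ε ^ 2 + E * M ^ 3 * ε ^ 2) := add_le_add (c3.trans h7) h6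
      _ = _ := by ring
  -- contradiction
  obtain ⟨t1, -, -⟩ := tt_pos hδk
  obtain ⟨A, hA⟩ : ∃ A : ℝ, A = C * M ^ 6 + E * M ^ 3 + 1 := ⟨_, rfl⟩
  have hA0 : 0 < A := by rw [hA]; positivity
  have hlim : Filter.Tendsto (fun k : ℕ => ((p : ℝ)⁻¹) ^ k) Filter.atTop (nhds 0) :=
    tendsto_pow_atTop_nhds_zero_of_lt_one (by positivity) (inv_lt_one_of_one_lt₀ hp1)
  have hm : 0 < min (1 / M ^ 3) (min (1 / (2 * M)) (‖tt p δ‖ / (2 * A))) := by
    refine lt_min (by positivity) (lt_min (by positivity) (by positivity))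
  obtain ⟨k, hk, hKk⟩ := ((hlim.eventually (gt_mem_nhds hm)).and
    (Filter.eventually_ge_atTop K)).exists
  have hk1 := lt_of_lt_of_le hk (min_le_left _ _)
  have hk2 := lt_of_lt_of_le hk ((min_le_right _ _).trans (min_le_left _ _))
  have hk3 := lt_of_lt_of_le hk ((min_le_right _ _).trans (min_le_right _ _))
  obtain ⟨ε, hε⟩ : ∃ ε : ℝ, ε = ((p : ℝ)⁻¹) ^ k := ⟨_, rfl⟩
  have hε0 : 0 < ε := by rw [hε]; positivity
  have h1 := hkey k hKk (by
    rw [lt_div_iff₀ (by positivity)] at hk1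
    linarith [mul_comm (((p : ℝ)⁻¹) ^ k) (M ^ 3)]) (by
    rw [lt_div_iff₀ (by positivity)] at hk2
    have : 0 < M * ((p : ℝ)⁻¹) ^ k := by positivity
    nlinarith)
  rw [← hε, ← hA] at h1
  rw [← hε, lt_div_iff₀ (by positivity)] at hk3
  have h2 : ‖tt p δ‖ ≤ A * ε := by
    have h3 : ε * ‖tt p δ‖ ≤ ε * (A * ε) := by
      calc ε * ‖tt p δ‖ ≤ A * ε ^ 2 := h1
        _ = ε * (A * ε) := by ring
    exact le_of_mul_le_mul_left h3 hε0
  nlinarith


/-- Elements outside finitely many subgroups. -/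
lemma densH_avoid {H : AddSubgroup (Fin n → goodGroup p a b)}
    (hH : ∀ c : Fin n → ℤ, (∀ g ∈ H, ∑ i, c i • g i = 0) → c = 0) (C : Finset (Fin n → ℤ))
    (hC : ∀ c ∈ C, c ≠ 0) : ∃ g ∈ H, ∀ c ∈ C, ∑ i, c i • g i ≠ 0 := by
  classical
  induction C using Finset.induction_on with
  | empty => exact ⟨0, zero_mem _, fun c hc => absurd hc (Finset.notMem_empty c)⟩
  | insert c₀ C _ ih =>
    obtain ⟨g, hg, hgC⟩ := ih fun c hc => hC c (Finset.mem_insert_of_mem hc)
    obtain ⟨g₀, hg₀, hgc₀⟩ : ∃ g₀ ∈ H, ∑ i, c₀ i • g₀ i ≠ 0 := by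
      by_contra hcon
      push Not at hcon
      exact hC c₀ (Finset.mem_insert_self _ _) (hH c₀ hcon)
    -- bad parameters
    have hfin : ∀ c ∈ insert c₀ C, {t : ℕ | ∑ i, c i • (g + t • g₀) i = 0}.Finite := by
      intro c hc
      apply Set.Subsingleton.finite
      have hlin : ∀ t : ℕ, ∑ i, c i • (g + t • g₀) i =
          ∑ i, c i • g i + t • ∑ i, c i • g₀ i := by
        intro t
        rw [Finset.smul_sum, ← Finset.sum_add_distrib]
        refine Finset.sum_congr rfl fun i _ => ?_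
        rw [Pi.add_apply, Pi.smul_apply, zsmul_add, smul_comm]
      intro t ht t' ht'
      have h1 : ∑ i, c i • g i + t • ∑ i, c i • g₀ i = 0 := by rw [← hlin]; exact ht
      have h2 : ∑ i, c i • g i + t' • ∑ i, c i • g₀ i = 0 := by rw [← hlin]; exact ht'
      have h3 : ∑ i, c i • g₀ i ≠ 0 := by
        rcases Finset.mem_insert.1 hc with rfl | hc
        · exact hgc₀
        · intro h0
          rw [h0, smul_zero, add_zero] at h1
          exact hgC c hc h1
      have h4 : t • ∑ i, c i • g₀ i = t' • ∑ i, c i • g₀ i := add_left_cancel (h1.trans h2.symm)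
      have h5 : ((∑ i, c i • g₀ i : goodGroup p a b) : (curve a b).Point) ≠ 0 := fun h =>
        h3 (Subtype.ext h)
      exact injective_nsmul_iff_not_isOfFinAddOrder.2 (good_not_torsion (Subtype.property _) h5)
        (congrArg Subtype.val h4)
    have hfin2 : (⋃ c ∈ insert c₀ C, {t : ℕ | ∑ i, c i • (g + t • g₀) i = 0}).Finite :=
      Set.Finite.biUnion (Finset.finite_toSet _) hfin
    obtain ⟨t, ht⟩ := hfin2.infinite_compl.nonempty
    refine ⟨g + t • g₀, add_mem hg (nsmul_mem hg₀ t), fun c hc h0 => ht ?_⟩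
    rw [Set.mem_iUnion₂]
    exact ⟨c, hc, h0⟩

/-- Along `h + f (k) g`, only finitely many `k` lie in a coset. -/
lemma densH_coset {c : Fin n → ℤ} {e : goodGroup p a b} {h g : Fin n → goodGroup p a b}
    (hh : ∑ i, c i • h i ≠ e) (f : ℕ → ℕ) (hf : Function.Injective f) :
    ∃ K : ℕ, ∀ k, K ≤ k → ∑ i, c i • (h + f k • g) i ≠ e := by
  classical
  have hlin : ∀ t : ℕ, ∑ i, c i • (h + t • g) i = ∑ i, c i • h i + t • ∑ i, c i • g i := by
    intro t
    rw [Finset.smul_sum, ← Finset.sum_add_distrib]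
    refine Finset.sum_congr rfl fun i _ => ?_
    rw [Pi.add_apply, Pi.smul_apply, zsmul_add, smul_comm]
  by_cases h0 : ∑ i, c i • g i = 0
  · refine ⟨0, fun k _ => ?_⟩
    rw [hlin, h0, smul_zero, add_zero]
    exact hh
  · have hfin : {k : ℕ | ∑ i, c i • (h + f k • g) i = e}.Finite := by
      apply Set.Subsingleton.finite
      intro k hk k' hk'
      have h1 : ∑ i, c i • h i + f k • ∑ i, c i • g i = e := by rw [← hlin]; exact hk
      have h2 : ∑ i, c i • h i + f k' • ∑ i, c i • g i = e := by rw [← hlin]; exact hk'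
      have h4 := add_left_cancel (h1.trans h2.symm)
      have h5 : ((∑ i, c i • g i : goodGroup p a b) : (curve a b).Point) ≠ 0 := fun h =>
        h0 (Subtype.ext h)
      exact hf (injective_nsmul_iff_not_isOfFinAddOrder.2
        (good_not_torsion (Subtype.property _) h5) (congrArg Subtype.val h4))
    obtain ⟨K, hK⟩ := hfin.bddAbove
    refine ⟨K + 1, fun k hk h1 => ?_⟩
    have := hK h1
    omega

/-- Polynomials in the abscissae which vanish along the orbit of a subgroup, up to finitely many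
cosets. -/
theorem densH_poly (hp3 : 3 ≤ p) {H : AddSubgroup (Fin n → goodGroup p a b)}
    (hH : ∀ c : Fin n → ℤ, (∀ g ∈ H, ∑ i, c i • g i = 0) → c = 0)
    {T : Fin n → (curve a b).Point} (hT : ∀ i, T i ∈ goodGroup p a b)
    (C : Finset ((Fin n → ℤ) × goodGroup p a b)) (hC : ∀ c ∈ C, c.1 ≠ 0) :
    ∀ (D : ℕ) (F : MvPolynomial (Fin n) ℚ), F.totalDegree ≤ D →
      (∀ h ∈ H, (∀ c ∈ C, ∑ i, c.1 i • h i ≠ c.2) → (∀ i, sh T (gc h) i ≠ 0) →
        MvPolynomial.eval (fun i => ptX (sh T (gc h) i)) F = 0) → F = 0 := by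
  classical
  -- the conditions
  set Good : (Fin n → goodGroup p a b) → Prop := fun h =>
    (∀ c ∈ C, ∑ i, c.1 i • h i ≠ c.2) ∧ ∀ i, sh T (gc h) i ≠ 0 with hGood
  -- a vanishing coordinate as a coset
  have hcoord : ∀ i : Fin n, ∃ o : Option (goodGroup p a b),
      ∀ h : Fin n → goodGroup p a b, sh T (gc h) i = 0 ↔ o = some (h i) := by
    intro i
    by_cases hex : ∃ e : goodGroup p a b, T i + ((e : (curve a b).Point) + e) = 0
    · obtain ⟨e, he⟩ := hex
      refine ⟨some e, fun h => ?_⟩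
      constructor
      · intro h0
        have h1 : T i + ((h i : (curve a b).Point) + h i) = 0 := h0
        exact congrArg some (sh_inj_coord (T i) (he.trans h1.symm))
      · intro h0
        rw [Option.some.injEq] at h0
        show T i + ((h i : (curve a b).Point) + h i) = 0
        rw [← h0]
        exact he
    · push Not at hex
      refine ⟨none, fun h => ?_⟩
      constructor
      · intro h0
        exact absurd h0 (hex (h i))
      · intro h0
        exact absurd h0 (by simp)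
  choose o ho using hcoord
  have hsingle : ∀ (i : Fin n) (h : Fin n → goodGroup p a b),
      ∑ j, (Pi.single i (1 : ℤ) : Fin n → ℤ) j • h j = h i := by
    intro i h
    rw [Finset.sum_eq_single i]
    · rw [Pi.single_eq_same, one_zsmul]
    · intro j _ hj
      rw [Pi.single_eq_of_ne hj, zero_zsmul]
    · intro h
      exact absurd (Finset.mem_univ i) h
  have hline : ∀ (h g : Fin n → goodGroup p a b) (f : ℕ → ℕ), Function.Injective f → Good h →
      ∃ K : ℕ, ∀ k, K ≤ k → Good (h + f k • g) := by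
    intro h g f hf hh
    have h1 : ∀ c : C, ∃ K : ℕ, ∀ k, K ≤ k →
        ∑ i, (c : (Fin n → ℤ) × goodGroup p a b).1 i • (h + f k • g) i ≠
          (c : (Fin n → ℤ) × goodGroup p a b).2 := fun c =>
      densH_coset (hh.1 c.1 c.2) f hf
    have h2 : ∀ i, ∃ K : ℕ, ∀ k, K ≤ k → sh T (gc (h + f k • g)) i ≠ 0 := by
      intro i
      rcases hoi : o i with _ | e
      · refine ⟨0, fun k _ h0 => ?_⟩
        rw [ho i, hoi] at h0
        exact absurd h0 (by simp)
      · have h3 : ∑ j, (Pi.single i (1 : ℤ) : Fin n → ℤ) j • h j ≠ e := by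
          rw [hsingle]
          intro h4
          apply hh.2 i
          rw [ho i, hoi, h4]
        obtain ⟨K, hK⟩ := densH_coset (g := g) h3 f hf
        refine ⟨K, fun k hk h0 => hK k hk ?_⟩
        rw [hsingle]
        rw [ho i, hoi, Option.some.injEq] at h0
        exact h0.symm
    choose K₁ hK₁ using h1
    choose K₂ hK₂ using h2
    refine ⟨∑ c, K₁ c + ∑ i, K₂ i, fun k hk => ⟨fun c hc => ?_, fun i => ?_⟩⟩
    · apply hK₁ ⟨c, hc⟩
      have := Finset.single_le_sum (f := K₁) (fun i _ => Nat.zero_le _)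
        (Finset.mem_univ ⟨c, hc⟩)
      omega
    · apply hK₂ i
      have := Finset.single_le_sum (f := K₂) (fun i _ => Nat.zero_le _) (Finset.mem_univ i)
      omega
  -- a good element
  have hex : ∃ h ∈ H, Good h := by
    obtain ⟨g, hg, hgC⟩ := densH_avoid hH (C.image Prod.fst ∪
      Finset.univ.image fun i => (Pi.single i (1 : ℤ) : Fin n → ℤ)) (by
        intro c hc
        rcases Finset.mem_union.1 hc with hc | hc
        · obtain ⟨c', hc', rfl⟩ := Finset.mem_image.1 hc
          exact hC c' hc'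
        · obtain ⟨i, -, rfl⟩ := Finset.mem_image.1 hc
          intro h0
          have := congrFun h0 i
          rw [Pi.single_eq_same] at this
          exact one_ne_zero this)
    have h1 : ∀ (c : Fin n → ℤ) (e : goodGroup p a b), ∑ i, c i • g i ≠ 0 →
        {t : ℕ | ∑ i, c i • (t • g) i = e}.Finite := by
      intro c e hc
      apply Set.Subsingleton.finite
      have hlin : ∀ t : ℕ, ∑ i, c i • (t • g) i = t • ∑ i, c i • g i := by
        intro t
        rw [Finset.smul_sum]
        refine Finset.sum_congr rfl fun i _ => ?_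
        rw [Pi.smul_apply, smul_comm]
      intro t ht t' ht'
      have h2 : t • ∑ i, c i • g i = e := by rw [← hlin]; exact ht
      have h3 : t' • ∑ i, c i • g i = e := by rw [← hlin]; exact ht'
      have h5 : ((∑ i, c i • g i : goodGroup p a b) : (curve a b).Point) ≠ 0 := fun h =>
        hc (Subtype.ext h)
      exact injective_nsmul_iff_not_isOfFinAddOrder.2
        (good_not_torsion (Subtype.property _) h5) (congrArg Subtype.val (h2.trans h3.symm))
    have h2 : (⋃ c ∈ C, {t : ℕ | ∑ i, c.1 i • (t • g) i = c.2}).Finite :=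
      Set.Finite.biUnion (Finset.finite_toSet _) fun c hc =>
        h1 c.1 c.2 (hgC c.1 (Finset.mem_union_left _ (Finset.mem_image.2 ⟨c, hc, rfl⟩)))
    have h3 : (⋃ i : Fin n, {t : ℕ | sh T (gc (t • g)) i = 0}).Finite := by
      refine Set.finite_iUnion fun i => ?_
      rcases hoi : o i with _ | e
      · refine Set.finite_empty.subset fun t ht => ?_
        have h0 : sh T (gc (t • g)) i = 0 := ht
        rw [ho i, hoi] at h0
        exact absurd h0 (by simp)
      · refine (h1 (Pi.single i 1) e (hgC _ (Finset.mem_union_right _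
          (Finset.mem_image.2 ⟨i, Finset.mem_univ _, rfl⟩)))).subset fun t ht => ?_
        have h0 : sh T (gc (t • g)) i = 0 := ht
        rw [ho i, hoi, Option.some.injEq] at h0
        show ∑ j, (Pi.single i (1 : ℤ) : Fin n → ℤ) j • (t • g) j = e
        rw [hsingle]
        exact h0.symm
    obtain ⟨t, ht⟩ := (h2.union h3).infinite_compl.nonempty
    refine ⟨t • g, nsmul_mem hg t, fun c hc h0 => ht (Or.inl ?_), fun i h0 => ht (Or.inr ?_)⟩
    · rw [Set.mem_iUnion₂]
      exact ⟨c, hc, h0⟩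
    · rw [Set.mem_iUnion]
      exact ⟨i, h0⟩
  intro D
  induction D with
  | zero =>
    intro F hF h
    have h1 := MvPolynomial.totalDegree_eq_zero_iff_eq_C.1 (Nat.le_zero.1 hF)
    obtain ⟨h', hh', hG⟩ := hex
    have h2 := h h' hh' hG.1 hG.2
    rw [h1, MvPolynomial.eval_C] at h2
    rw [h1, h2, map_zero]
  | succ D ih =>
    intro F hF h
    have hder : ∀ i, MvPolynomial.pderiv i F = 0 := by
      intro i
      apply ih
      · rw [MvPolynomial.totalDegree]
        refine Finset.sup_le fun m hm => ?_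
        rw [MvPolynomial.mem_support_iff, MvPolynomial.coeff_pderiv] at hm
        have h1 := left_ne_zero_of_mul hm
        have h2 := MvPolynomial.le_totalDegree (MvPolynomial.mem_support_iff.2 h1)
        rw [Finsupp.sum_add_index' (fun _ => rfl) (fun _ _ _ => rfl),
          Finsupp.sum_single_index rfl] at h2
        omega
      · intro h' hh' hG1 hG2
        obtain ⟨z, hz1, hz2⟩ := densH_step hp3 (R := sh T (gc h')) (fun i => sh_good hT h' i)
          hG2 F (h h' hh' hG1 hG2)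
        apply hz1
        have hz : z = 0 := by
          apply hH
          intro g hg
          obtain ⟨K, hK⟩ := hline h' g (fun k => p ^ k)
            (Nat.pow_right_injective hp.out.two_le) ⟨hG1, hG2⟩
          have h3 := hz2 (fun i => (g i : (curve a b).Point) + g i)
            (fun i => add_mem (g i).2 (g i).2) K (by
              intro k hk
              have h4 := hK k hk
              have h5 := h (h' + p ^ k • g) (add_mem hh' (nsmul_mem hg _)) h4.1 h4.2
              have e : (fun i => ptX (sh T (gc (h' + p ^ k • g)) i)) =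
                  fun i => ptX (sh T (gc h') i +
                    p ^ k • ((g i).1 + (g i).1)) := by
                funext i
                congr 1
                rw [← sh_sh]
                change sh T (gc h') i + ((goodGroup p a b).subtype (p ^ k • g i) +
                  (goodGroup p a b).subtype (p ^ k • g i)) = _
                rw [map_nsmul, ← nsmul_add]
                rfl
              rw [e] at h5
              exact h5)
          have h6 : 2 • ((∑ i, z i • g i : goodGroup p a b) : (curve a b).Point) = 0 := by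
            rw [← h3, AddSubgroup.val_finsetSum, Finset.smul_sum]
            refine Finset.sum_congr rfl fun i _ => ?_
            rw [AddSubgroup.coe_zsmul, smul_comm, two_nsmul]
          exact Subtype.ext (good_nsmul (Subtype.property _) (by norm_num) h6)
        rw [hz]
        rfl
    apply ih F _ h
    -- a polynomial without derivatives is constant
    rw [MvPolynomial.totalDegree]
    refine Finset.sup_le fun m hm => ?_
    have hm0 : m = 0 := by
      by_contra hne
      obtain ⟨i, hi⟩ := Finsupp.ne_iff.1 hne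
      rw [Finsupp.coe_zero, Pi.zero_apply] at hi
      have h1 := MvPolynomial.coeff_pderiv (i := i) F (m - Finsupp.single i 1)
      rw [hder i, MvPolynomial.coeff_zero] at h1
      have h2 : m - Finsupp.single i 1 + Finsupp.single i 1 = m := by
        apply tsub_add_cancel_of_le
        rw [Finsupp.single_le_iff]
        omega
      rw [h2] at h1
      rcases mul_eq_zero.1 h1.symm with h4 | h4
      · exact (MvPolynomial.mem_support_iff.1 hm) h4
      · exact absurd h4 (Nat.cast_add_one_ne_zero _)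
    rw [hm0]
    simp

/-- **Density of the orbits of subgroups.** -/
theorem densityH (hp3 : 3 ≤ p) : DensityH p a b := by
  classical
  rintro d H hH T hT ⟨z, hz, C, hC, h⟩
  obtain ⟨g, hg, w, hw⟩ := exists_dvd_poly hz
  apply hg
  refine densH_poly hp3 hH hT C hC g.totalDegree g le_rfl ?_
  intro h' hh' hG1 hG2
  have h1 := h h' hh' hG1 hG2
  have h2 : evB (sh T (gc h')) hG2 (MvPolynomial.aeval (fun i => xB a b i) g) =
      MvPolynomial.eval (fun i => ptX (sh T (gc h') i)) g := by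
    rw [MvPolynomial.comp_aeval_apply]
    have h3 : (fun i => evB (sh T (gc h')) hG2 (xB a b i)) =
        fun i => ptX (sh T (gc h') i) := by
      funext i
      rw [evB_x]
    rw [h3]
    rfl
  rw [← h2, hw, map_mul, h1, zero_mul]

end MP3550b5.RG
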