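import Mathlib
import Pool.Agent.Lib.MP_3550b5_nt.RG.Main
import Pool.Agent.Lib.MP_3550b5_nt.RG.Zero2
import Pool.Agent.Lib.MP_3550b5_nt.RG.PadP
import Pool.Agent.Lib.MP_3550b5_nt.RG.FunP
import Pool.Agent.Lib.MP_3550b5_nt.RG.TensP

/-!
The main inequality for pairs.
-/

namespace MP3550b5.RG

open Pool.Agent.Lib.MP_3550b5_nt WeierstrassCurve.Affine

open scoped Pointwise

variable {p : ℕ} [hp : Fact p.Prime] {a b : ℤ}

/-- The pair of points with the coordinates `n`. -/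
noncomputable def pt2 {l : ℕ} (P : Fin 2 → Fin l → (curve a b).Point)
    (hP : ∀ i j, P i j ∈ goodGroup p a b) : (Fin l → ℤ) →+ (Fin 2 → goodGroup p a b) where
  toFun n := fun i => ⟨lin (P i) n, by rw [lin_apply]; exact sum_mem fun j _ => zsmul_mem (hP i j) _⟩
  map_zero' := by
    funext i
    apply Subtype.ext
    show lin (P i) 0 = 0
    exact map_zero _
  map_add' n n' := by
    funext i
    apply Subtype.ext
    show lin (P i) (n + n') = lin (P i) n + lin (P i) n'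
    exact map_add _ _ _

lemma pt2_coe {l : ℕ} (P : Fin 2 → Fin l → (curve a b).Point)
    (hP : ∀ i j, P i j ∈ goodGroup p a b) (n : Fin l → ℤ) (i : Fin 2) :
    (pt2 P hP n i : (curve a b).Point) = lin (P i) n := rfl

/-- The box of pairs. -/
noncomputable def boxP {l : ℕ} (P : Fin 2 → Fin l → (curve a b).Point)
    (hP : ∀ i j, P i j ∈ goodGroup p a b) (N : ℕ) : Finset (Fin 2 → goodGroup p a b) :=
  open scoped Classical in (bigBox l N).image (pt2 P hP)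

lemma mem_boxP {l : ℕ} {P : Fin 2 → Fin l → (curve a b).Point}
    {hP : ∀ i j, P i j ∈ goodGroup p a b} {N : ℕ} {v : Fin 2 → goodGroup p a b} :
    v ∈ boxP P hP N ↔ ∃ n ∈ bigBox l N, pt2 P hP n = v := by
  classical
  rw [boxP, Finset.mem_image]

lemma nsmul_boxP {l : ℕ} {P : Fin 2 → Fin l → (curve a b).Point}
    {hP : ∀ i j, P i j ∈ goodGroup p a b} (N d : ℕ) {v : Fin 2 → goodGroup p a b}
    (hv : v ∈ d • (boxP P hP N : Set (Fin 2 → goodGroup p a b))) :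
    ∃ n ∈ bigBox l (d * N), pt2 P hP n = v := by
  induction d generalizing v with
  | zero =>
    rw [zero_smul, Set.mem_zero] at hv
    refine ⟨0, mem_bigBox.mpr fun i => ?_, by rw [map_zero, hv]⟩
    simp
  | succ d ih =>
    rw [succ_nsmul, Set.mem_add] at hv
    obtain ⟨u, hu, w, hw, rfl⟩ := hv
    obtain ⟨n, hn, h1⟩ := ih hu
    obtain ⟨n', hn', h2⟩ := mem_boxP.mp (Finset.mem_coe.mp hw)
    refine ⟨n + n', mem_bigBox.mpr fun i => ?_, by rw [map_add, h1, h2]⟩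
    have e1 := mem_bigBox.mp hn i
    have e2 := mem_bigBox.mp hn' i
    rw [Pi.add_apply]
    push_cast at e1 ⊢
    constructor <;> linarith [e1.1, e1.2, e2.1, e2.2]

lemma lin_PX0 {Q₁ Q₂ : (curve a b).Point} (v : Fin 3 → ℤ) :
    lin (PX Q₁ Q₂ 0) v = v 0 • Q₁ + v 2 • Q₂ := by
  rw [lin_apply, Fin.sum_univ_three]
  simp [PX]
  exact zsmul_zero _

lemma lin_PX1 {Q₁ Q₂ : (curve a b).Point} (v : Fin 3 → ℤ) :
    lin (PX Q₁ Q₂ 1) v = v 1 • Q₂ + v 2 • Q₁ := by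
  rw [lin_apply, Fin.sum_univ_three]
  simp [PX]
  exact zsmul_zero _

/-- The main inequality for pairs. -/
theorem pair_core (hp5 : 5 ≤ p) (hΔ : 4 * a ^ 3 + 27 * b ^ 2 ≠ 0)
    {Bh : (curve a b).Point → (curve a b).Point → ℚ_[p]}
    (hB : IsCanonicalHeight p a b Bh) {l : ℕ}
    {P : Fin 2 → Fin l → (curve a b).Point} (hP : ∀ i j, P i j ∈ goodGroup p a b)
    (hindP : ∀ n : Fin l → ℤ, (∀ i, lin (P i) n = 0) → n = 0)
    {R₁ R₂ : (curve a b).Point} (hR₁ : R₁ ∈ goodGroup p a b) (hR₂ : R₂ ∈ goodGroup p a b)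
    (hR : ∀ c d : ℤ, c • R₁ + d • R₂ = 0 → c = 0 ∧ d = 0)
    (hBp : ∀ i j k, ∃ β : ℤ_[p], (p : ℤ_[p]) ^ 2 ∣ β ∧
      (β : ℚ_[p]) = Bh (P i j) (PX (R₁ + R₁) (R₂ + R₂) i k))
    {x : Fin l → Fin 2 → ℤ_[p]} {y : Fin 3 → Fin 2 → ℤ_[p]}
    (hx : ∀ j t, (p : ℤ_[p]) ∣ x j t) (hy : ∀ k t, (p : ℤ_[p]) ∣ y k t)
    (hxy : ∀ j k, ((∑ t, x j t * y k t : ℤ_[p]) : ℚ_[p]) =
      Bh (P 0 j) (PX (R₁ + R₁) (R₂ + R₂) 0 k) + Bh (P 1 j) (PX (R₁ + R₁) (R₂ + R₂) 1 k))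
    (hne : ∃ t : Fin l → ℤ, ∀ i, lin (P i) t ≠ 0)
    (h9 : ∀ H : AddSubgroup (Fin 2 → goodGroup p a b),
      (∀ g ∈ H, ∃ c d : ℤ, (c ≠ 0 ∨ d ≠ 0) ∧ c • g 0 + d • g 1 = 0) →
      ∀ n : Fin 10 → (Fin l → ℤ), (∀ i, pt2 P hP (n i) ∈ H) → ¬ LinearIndependent ℤ n)
    (hO1 : ∀ R ∈ ({R₁, R₂} : Set (curve a b).Point), ∀ g : Fin 1 → goodGroup p a b, g ≠ 0 →
      Orbit p a b 1 1 (p - 1) (X1 R) g)
    (hO2 : ∀ g : Fin 2 → goodGroup p a b, (∀ c d : ℤ, c • g 0 + d • g 1 = 0 → c = 0 ∧ d = 0) →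
      Orbit p a b 2 3 (p - 1) (PX R₁ R₂) g) : l ≤ 30 := by
  classical
  by_contra hcon
  push Not at hcon
  obtain ⟨q, C, c, hq, hnn, hC, hc, hc', hup, han, hlow⟩ := exists_arch2 hΔ
  obtain ⟨Q₁, hQ₁d⟩ : ∃ Q, Q = R₁ + R₁ := ⟨_, rfl⟩
  obtain ⟨Q₂, hQ₂d⟩ : ∃ Q, Q = R₂ + R₂ := ⟨_, rfl⟩
  rw [← hQ₁d, ← hQ₂d] at hBp hxy
  have hQ₁ : Q₁ ∈ goodGroup p a b := by rw [hQ₁d]; exact add_mem hR₁ hR₁
  have hQ₂ : Q₂ ∈ goodGroup p a b := by rw [hQ₂d]; exact add_mem hR₂ hR₂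
  have hQind : ∀ c d : ℤ, c • Q₁ + d • Q₂ = 0 → c = 0 ∧ d = 0 := by
    intro c d h
    rw [hQ₁d, hQ₂d] at h
    have h1 : (c + c) • R₁ + (d + d) • R₂ = 0 := by
      rw [← h, zsmul_add, zsmul_add, add_zsmul, add_zsmul]
    obtain ⟨h2, h3⟩ := hR _ _ h1
    omega
  have hQ : ∀ i k, PX Q₁ Q₂ i k ∈ goodGroup p a b := by
    intro i k
    fin_cases i <;> fin_cases k
    · exact hQ₁
    · exact zero_mem _
    · exact hQ₂
    · exact zero_mem _
    · exact hQ₂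
    · exact hQ₁
  have hX' : ∀ i k, PX R₁ R₂ i k ∈ goodGroup p a b := by
    intro i k
    fin_cases i <;> fin_cases k
    · exact hR₁
    · exact zero_mem _
    · exact hR₂
    · exact zero_mem _
    · exact hR₂
    · exact hR₁
  have hlin0 : ∀ i (v : Fin 3 → ℤ), (∀ k, 1 ≤ v k) → lin (PX Q₁ Q₂ i) v ≠ 0 := by
    intro i v hv
    fin_cases i
    · show lin (PX Q₁ Q₂ 0) v ≠ 0
      rw [lin_PX0]
      intro h
      have := (hQind _ _ h).1
      have := hv 0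
      omega
    · show lin (PX Q₁ Q₂ 1) v ≠ 0
      rw [lin_PX1, add_comm]
      intro h
      have := (hQind _ _ h).1
      have := hv 2
      omega
  have hind2 : ∀ c : Fin 2 → ℤ, lin ![Q₁, Q₂] c = 0 → c = 0 := by
    intro c h
    rw [lin_apply, Fin.sum_univ_two] at h
    obtain ⟨h1, h2⟩ := hQind (c 0) (c 1) h
    funext i
    fin_cases i
    · exact h1
    · exact h2
  have hinf : Infinite (goodGroup p a b) := by
    have hinj : Function.Injective (fun n : ℤ => (⟨n • R₁, zsmul_mem hR₁ n⟩ :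
        goodGroup p a b)) := by
      intro n n' h
      have h1 : n • R₁ = n' • R₁ := congrArg Subtype.val h
      have h2 : (n - n') • R₁ + (0 : ℤ) • R₂ = 0 := by
        rw [sub_zsmul, h1, add_neg_cancel, zero_zsmul, add_zero]
      exact sub_eq_zero.mp (hR _ _ h2).1
    exact Infinite.of_injective _ hinj
  have hm : Even (p - 1) := by
    have hodd : Odd p := hp.out.odd_of_ne_two (by omega)
    obtain ⟨k, hk⟩ := hodd
    exact ⟨k, by omega⟩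
  -- heights
  obtain ⟨CP0, hCP00, hCP0⟩ := quad_lin_le hq hnn (P 0)
  obtain ⟨CP1, hCP10, hCP1⟩ := quad_lin_le hq hnn (P 1)
  obtain ⟨CQ, hCQ0, hCQ⟩ := quad_lin_le hq hnn ![Q₁, Q₂]
  obtain ⟨CR0, hCR00, hCR0⟩ := quad_lin_le hq hnn (PX Q₁ Q₂ 0)
  obtain ⟨CR1, hCR10, hCR1⟩ := quad_lin_le hq hnn (PX Q₁ Q₂ 1)
  obtain ⟨t, ht⟩ := hne
  have htors : ∀ i, 0 < q (lin (P i) t) := by
    intro i
    have hg : lin (P i) t ∈ goodGroup p a b := by
      rw [lin_apply]; exact sum_mem fun j _ => zsmul_mem (hP i j) _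
    exact lt_of_lt_of_le hc (hc' _ (good_not_torsion hg (ht i)))
  obtain ⟨q₁, hq₁⟩ : ∃ z, z = min (q (lin (P 0) t)) (q (lin (P 1) t)) := ⟨_, rfl⟩
  have hq₁0 : 0 < q₁ := by rw [hq₁]; exact lt_min (htors 0) (htors 1)
  have hq₁le : ∀ i, q₁ ≤ q (lin (P i) t) := by
    intro i
    rw [hq₁]
    fin_cases i
    · exact min_le_left _ _
    · exact min_le_right _ _
  obtain ⟨A₀, hA₀⟩ : ∃ A₀ : ℝ, A₀ = (CP0 + CP1) * 7 ^ 2 + (CQ + CR0 + CR1) * 3 ^ 2 +
    (q 0 + q R₁ + q R₂) := ⟨_, rfl⟩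
  have hq00 := hnn 0
  have hqR1 := hnn R₁
  have hqR2 := hnn R₂
  have hA₀0 : 0 ≤ A₀ := by rw [hA₀]; positivity
  obtain ⟨K₁, hK₁⟩ : ∃ K₁ : ℕ, 80 * A₀ < (K₁ : ℝ) ^ 2 * q₁ := by
    obtain ⟨k, hk⟩ := exists_nat_gt (80 * A₀ / q₁)
    refine ⟨k + 1, ?_⟩
    rw [div_lt_iff₀ hq₁0] at hk
    have h1 : (k : ℝ) ≤ ((k + 1 : ℕ) : ℝ) ^ 2 := by
      push_cast
      have : (0 : ℝ) ≤ k := Nat.cast_nonneg _
      nlinarith
    have h2 := mul_le_mul_of_nonneg_right h1 hq₁0.le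
    linarith
  obtain ⟨M, hM⟩ : ∃ M : ℕ, ∀ j, |t j| ≤ M := by
    refine ⟨∑ j, (t j).natAbs, fun j => ?_⟩
    rw [Int.abs_eq_natAbs]
    exact_mod_cast Finset.single_le_sum (f := fun j => (t j).natAbs) (fun _ _ => Nat.zero_le _)
      (Finset.mem_univ j)
  obtain ⟨K₀, hK₀⟩ : ∃ K₀ : ℕ, K₀ = K₁ * M + 14 := ⟨_, rfl⟩
  obtain ⟨C₁, hC₁⟩ := exists_padP hp5 hΔ hB hP hQ hlin0 hBp hx hy hxy K₀
  obtain ⟨C₂, hC₂⟩ := exists_funP (p := p) twoTerm hQ₁ hQ₂ hind2 hm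
  obtain ⟨C₃, hC₃⟩ := zero_two (p := p) hΔ hinf hm hR₁ hR₂ hO1 hO2
  -- the parameter
  obtain ⟨J, hJ⟩ : ∃ J : ℕ, J = C₃ * ((C₂ + 1) * (2 * C₁)) ^ 5 + C₃ * ((C₂ + 1) * (2 * C₁)) ^ 3 *
    5 ^ 9 := ⟨_, rfl⟩
  obtain ⟨N, hN⟩ : ∃ N : ℕ, N = J + 1 := ⟨_, rfl⟩
  have hN1 : 1 ≤ N := by omega
  obtain ⟨T, hT1, hTC, v₀, hv₀, hpad⟩ := hC₁ N hN1
  obtain ⟨f, hf0, hfl, hfv⟩ := hC₂ T (N + 1) hT1 (by omega) v₀ hv₀
  have hNr : (1 : ℝ) ≤ N := by exact_mod_cast hN1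
  have hN2 : (1 : ℝ) ≤ (N : ℝ) ^ 2 := one_le_pow₀ hNr
  obtain ⟨A, hA⟩ : ∃ A : ℝ, A = A₀ * N ^ 2 := ⟨_, rfl⟩
  have hbP : ∀ i, ∀ n ∈ bigBox l (7 * N), q (lin (P i) n) ≤ A := by
    intro i n hn
    have h0 : ∀ j, |(n j : ℝ)| ≤ ((7 * N : ℕ) : ℝ) := by
      intro j
      have h2 := mem_bigBox.mp hn j
      rw [abs_le]
      constructor
      · exact_mod_cast h2.1
      · exact_mod_cast h2.2
    have e1 : ∀ C' : ℝ, 0 ≤ C' → C' ≤ CP0 + CP1 → C' * ((7 * N : ℕ) : ℝ) ^ 2 ≤ A := by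
      intro C' hC'0 hC'
      rw [hA, hA₀]
      push_cast
      have h2 : 0 ≤ ((CQ + CR0 + CR1) * 3 ^ 2 + (q 0 + q R₁ + q R₂)) * (N : ℝ) ^ 2 := by
        positivity
      have h3 : C' * (7 * (N : ℝ)) ^ 2 ≤ (CP0 + CP1) * (7 * (N : ℝ)) ^ 2 :=
        mul_le_mul_of_nonneg_right hC' (by positivity)
      nlinarith
    fin_cases i
    · show q (lin (P 0) n) ≤ A
      rw [lin_apply]
      exact (hCP0 n _ h0).trans (e1 _ hCP00 (by linarith))
    · show q (lin (P 1) n) ≤ A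
      rw [lin_apply]
      exact (hCP1 n _ h0).trans (e1 _ hCP10 (by linarith))
  have hA₀A : A₀ ≤ A := by
    rw [hA]; exact le_mul_of_one_le_right hA₀0 hN2
  have hbX : ∀ i k, q (PX R₁ R₂ i k) ≤ A := by
    have h3 : 0 ≤ (CP0 + CP1) * 7 ^ 2 + (CQ + CR0 + CR1) * 3 ^ 2 := by positivity
    have e0 : q 0 ≤ A := by linarith
    have e1 : q R₁ ≤ A := by linarith
    have e2 : q R₂ ≤ A := by linarith
    intro i k
    fin_cases i <;> fin_cases k
    · exact e1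
    · exact e0
    · exact e2
    · exact e0
    · exact e2
    · exact e1
  have hbQ : ∀ w : Fin 2 → ℤ, (∀ j, |w j| ≤ ((N + 1 + 1 : ℕ) : ℤ)) → q (lin ![Q₁, Q₂] w) ≤ A := by
    intro w hw
    rw [lin_apply]
    have h1 := hCQ w (3 * N) (fun j => by
      have h2 : |w j| ≤ 3 * (N : ℤ) := by
        have := hw j
        push_cast at this
        omega
      exact_mod_cast h2)
    refine h1.trans ?_
    rw [hA, hA₀, mul_pow]
    have h2 : 0 ≤ ((CP0 + CP1) * 7 ^ 2 + (CR0 + CR1) * 3 ^ 2 + (q 0 + q R₁ + q R₂)) *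
      (N : ℝ) ^ 2 := by positivity
    nlinarith
  have hbR : ∀ i, ∀ w : Fin 3 → ℤ, (∀ j, |w j| ≤ ((N + 1 : ℕ) : ℤ)) →
      q (lin (PX Q₁ Q₂ i) w) ≤ A := by
    intro i w hw
    have h0 : ∀ j, |(w j : ℝ)| ≤ 3 * (N : ℝ) := by
      intro j
      have h2 : |w j| ≤ 3 * (N : ℤ) := by
        have := hw j
        push_cast at this
        omega
      exact_mod_cast h2
    have e1 : ∀ C' : ℝ, C' ≤ CR0 + CR1 → C' * (3 * (N : ℝ)) ^ 2 ≤ A := by
      intro C' hC'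
      rw [hA, hA₀]
      have h2 : 0 ≤ ((CP0 + CP1) * 7 ^ 2 + CQ * 3 ^ 2 + (q 0 + q R₁ + q R₂)) *
        (N : ℝ) ^ 2 := by positivity
      have h3 : C' * (3 * (N : ℝ)) ^ 2 ≤ (CR0 + CR1) * (3 * (N : ℝ)) ^ 2 :=
        mul_le_mul_of_nonneg_right hC' (by positivity)
      nlinarith
    fin_cases i
    · show q (lin (PX Q₁ Q₂ 0) w) ≤ A
      rw [lin_apply]
      exact (hCR0 w _ h0).trans (e1 _ (by linarith))
    · show q (lin (PX Q₁ Q₂ 1) w) ≤ A
      rw [lin_apply]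
      exact (hCR1 w _ h0).trans (e1 _ (by linarith))
  obtain ⟨t₀, ht₀⟩ : ∃ t₀ : Fin l → ℤ, t₀ = ((K₁ * N : ℕ) : ℤ) • t := ⟨_, rfl⟩
  obtain ⟨T₀, hT₀⟩ : ∃ T₀ : Fin 2 → (curve a b).Point, T₀ = fun i => lin (P i) t₀ := ⟨_, rfl⟩
  have hqT : ∀ i, 80 * A < q (T₀ i) := by
    intro i
    rw [hT₀]
    show 80 * A < q (lin (P i) t₀)
    rw [ht₀, map_zsmul, quad_zsmul hq, hA]
    have h1 : 80 * A₀ * (N : ℝ) ^ 2 < (K₁ : ℝ) ^ 2 * q₁ * (N : ℝ) ^ 2 :=
      mul_lt_mul_of_pos_right hK₁ (by positivity)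
    have h2 : (K₁ : ℝ) ^ 2 * q₁ * (N : ℝ) ^ 2 ≤ (K₁ : ℝ) ^ 2 * (N : ℝ) ^ 2 * q (lin (P i) t) := by
      have := mul_le_mul_of_nonneg_left (hq₁le i)
        (by positivity : (0 : ℝ) ≤ (K₁ : ℝ) ^ 2 * (N : ℝ) ^ 2)
      linarith
    push_cast
    nlinarith
  have hT₀g : ∀ i, T₀ i ∈ goodGroup p a b := by
    intro i
    rw [hT₀]
    show lin (P i) t₀ ∈ _
    rw [lin_apply]; exact sum_mem fun j _ => zsmul_mem (hP i j) _
  have hVP : ∀ v ∈ 7 • (boxP P hP N : Set (Fin 2 → goodGroup p a b)), ∃ n ∈ bigBox l (7 * N),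
      pt2 P hP n = v := fun v hv => nsmul_boxP N 7 hv
  have hfar : ∀ v ∈ 7 • (boxP P hP N : Set (Fin 2 → goodGroup p a b)),
      ∀ w ∈ 7 • (boxP P hP N : Set (Fin 2 → goodGroup p a b)), ∀ i,
      T₀ i + ((v i : (curve a b).Point) + v i) ∉ Ex (PX R₁ R₂ i)
        ((w i : (curve a b).Point) - v i) := by
    intro v hv w hw i
    obtain ⟨n, hn, rfl⟩ := hVP v hv
    obtain ⟨n', hn', rfl⟩ := hVP w hw
    rw [pt2_coe, pt2_coe]
    exact far_Ex hq hnn (hbP i n hn) (hbP i n' hn') (hbX i) (hqT i)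
  have hKK : 1 ≤ (C₂ + 1) * (T * (N + 1)) :=
    Nat.mul_pos (by omega) (Nat.mul_pos hT1 (by omega))
  have hzero := hC₃ ((C₂ + 1) * (T * (N + 1))) hKK (boxP P hP N) (mem_boxP.mpr ⟨0,
    mem_bigBox.mpr fun i => by simp, map_zero _⟩) T₀ hT₀g ?_ f hf0 (hfl.mono (by nlinarith)) ?_
  · -- conclusion
    have hinjP : Function.Injective (pt2 P hP) := by
      intro n n' h
      have h1 : n - n' = 0 := hindP _ fun i => by
        have h2 := congrArg Subtype.val (congrFun h i)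
        rw [pt2_coe, pt2_coe] at h2
        rw [map_sub, h2, sub_self]
      exact sub_eq_zero.mp h1
    have hcardV : (boxP P hP N).card = (2 * N + 1) ^ l := by
      rw [boxP, Finset.card_image_of_injective _ hinjP, card_bigBox]
    have h2 : T * (N + 1) ≤ 2 * C₁ * N ^ 6 := by
      calc T * (N + 1) ≤ (C₁ * N ^ 5) * (2 * N) := Nat.mul_le_mul hTC (by omega)
        _ = 2 * C₁ * N ^ 6 := by ring
    have hK : (C₂ + 1) * (T * (N + 1)) ≤ (C₂ + 1) * (2 * C₁) * N ^ 6 := by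
      rw [mul_assoc (C₂ + 1)]
      exact Nat.mul_le_mul_left _ h2
    have hbig : N ^ 31 ≤ (2 * N + 1) ^ l := by
      calc N ^ 31 ≤ N ^ l := Nat.pow_le_pow_right hN1 hcon
        _ ≤ (2 * N + 1) ^ l := Nat.pow_le_pow_left (by omega) l
    have hfin : N ^ 31 ≤ J * N ^ 30 → False := by
      intro h
      rw [pow_succ'] at h
      have := Nat.le_of_mul_le_mul_right h (pow_pos hN1 _)
      omega
    rcases hzero with h | ⟨H, hH, w, hw, W, hWV, hWH, hcard⟩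
    · apply hfin
      calc N ^ 31 ≤ (boxP P hP N).card := by rw [hcardV]; exact hbig
        _ ≤ C₃ * ((C₂ + 1) * (T * (N + 1))) ^ 5 := h
        _ ≤ C₃ * ((C₂ + 1) * (2 * C₁) * N ^ 6) ^ 5 := by gcongr
        _ = C₃ * ((C₂ + 1) * (2 * C₁)) ^ 5 * N ^ 30 := by ring
        _ ≤ J * N ^ 30 := by
            rw [hJ]
            exact Nat.mul_le_mul_right _ (Nat.le_add_right _ _)
    · obtain ⟨nw, hnw, hnw'⟩ := mem_boxP.mp hw
      have hWc : W.card ≤ (2 * (2 * N) + 1) ^ 9 := by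
        obtain ⟨W', hW'⟩ : ∃ W' : Finset (Fin l → ℤ), W' = ((bigBox l N).filter
          fun n => pt2 P hP n ∈ W).image fun n => n - nw := ⟨_, rfl⟩
        have hcard' : W.card ≤ W'.card := by
          have hsurj : W ⊆ W'.image fun z => pt2 P hP (z + nw) := by
            intro v hv
            obtain ⟨n, hn, h5⟩ := mem_boxP.mp (hWV hv)
            rw [Finset.mem_image]
            refine ⟨n - nw, ?_, by rw [sub_add_cancel, h5]⟩
            rw [hW', Finset.mem_image]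
            exact ⟨n, Finset.mem_filter.mpr ⟨hn, by rw [h5]; exact hv⟩, rfl⟩
          exact (Finset.card_le_card hsurj).trans Finset.card_image_le
        refine hcard'.trans ?_
        refine card_box_subgroup (H.comap (pt2 P hP)) (r := 9) (fun n hn => h9 H hH n hn) (2 * N)
          W' ?_
        intro z hz
        rw [hW', Finset.mem_image] at hz
        obtain ⟨n, hn, rfl⟩ := hz
        obtain ⟨hn1, hn2⟩ := Finset.mem_filter.mp hn
        refine ⟨?_, fun i => ?_⟩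
        · rw [AddSubgroup.mem_comap, map_sub, hnw']
          exact hWH _ hn2
        · have e1 := mem_bigBox.mp hn1 i
          have e2 := mem_bigBox.mp hnw i
          rw [Pi.sub_apply, abs_le]
          push_cast
          constructor <;> linarith [e1.1, e1.2, e2.1, e2.2]
      apply hfin
      calc N ^ 31 ≤ (boxP P hP N).card := by rw [hcardV]; exact hbig
        _ ≤ C₃ * ((C₂ + 1) * (T * (N + 1))) ^ 3 * W.card := hcard
        _ ≤ C₃ * ((C₂ + 1) * (2 * C₁) * N ^ 6) ^ 3 * (5 * N) ^ 9 := by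
            gcongr
            exact hWc.trans (Nat.pow_le_pow_left (by omega) 9)
        _ = C₃ * ((C₂ + 1) * (2 * C₁)) ^ 3 * 5 ^ 9 * N ^ 27 := by ring
        _ ≤ C₃ * ((C₂ + 1) * (2 * C₁)) ^ 3 * 5 ^ 9 * N ^ 30 :=
            Nat.mul_le_mul_left _ (Nat.pow_le_pow_right hN1 (by norm_num))
        _ ≤ J * N ^ 30 := by
            rw [hJ]
            exact Nat.mul_le_mul_right _ (Nat.le_add_left _ _)
  · -- general position
    intro v hv w hw
    refine ⟨fun i => ?_, fun i => ?_⟩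
    · exact hfar v hv w hw i
    · have h1 := hfar w hw v hv i
      have h2 : v + (w - v) = w := by abel
      have h3 : -(w - v) = v - w := by abel
      rw [h2, h3]
      exact h1
  · -- zeros
    intro v hv
    obtain ⟨n, hn, hnv⟩ := hVP v hv
    obtain ⟨R, hRd⟩ : ∃ R : Fin 2 → (curve a b).Point, R = sh T₀ (gc v) := ⟨_, rfl⟩
    rw [← hRd]
    have hRi : ∀ i, R i = T₀ i + (lin (P i) n + lin (P i) n) := by
      intro i
      rw [hRd, ← hnv]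
      rfl
    have hRg : ∀ i, R i ∈ goodGroup p a b := by
      intro i
      rw [hRd]
      exact sh_good hT₀g v i
    have hv1 : ∀ i, q (lin (P i) n) ≤ A := fun i => hbP i n hn
    have hne1 : ∀ i z, q z ≤ A → R i ≠ z ∧ R i ≠ -z := by
      intro i z hz
      constructor
      · intro h0
        refine ne_combo hq hnn (hv1 i) hz hz (hqT i) (-2) 1 0 (by norm_num) ?_
        rw [hRi] at h0
        rw [eq_sub_of_add_eq h0]
        module
      · intro h0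
        refine ne_combo hq hnn (hv1 i) hz hz (hqT i) (-2) (-1) 0 (by norm_num) ?_
        rw [hRi] at h0
        rw [eq_sub_of_add_eq h0]
        module
    have hR0 : ∀ i, R i ≠ 0 := by
      intro i
      have h3 : 0 ≤ (CP0 + CP1) * 7 ^ 2 + (CQ + CR0 + CR1) * 3 ^ 2 := by positivity
      exact (hne1 i 0 (by linarith)).1
    have hRlin : ∀ i, R i = lin (P i) (t₀ + (n + n)) := by
      intro i
      rw [hRi, hT₀, map_add, map_add]
    have hfine : ∀ i, Fine (PX Q₁ Q₂ i) (N + 1) (lin (P i) (t₀ + (n + n))) := by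
      intro i
      rw [← hRlin]
      refine ⟨hR0 i, fun w hw => ?_⟩
      have hw' : ∀ j, |w j| ≤ ((N + 1 : ℕ) : ℤ) := by
        intro j
        have := hw j
        rw [abs_le]
        push_cast at this ⊢
        constructor <;> omega
      have hw0 : lin (PX Q₁ Q₂ i) w ≠ 0 := hlin0 i w fun k => (hw k).1
      have h4 := hne1 i _ (hbR i w hw')
      exact X_ne_of (hR0 i) hw0 h4.1 h4.2
    have hsum := hpad (t₀ + (n + n)) ?_ hfine
    · have hval := hfv R hRg (fun i w hw => (hne1 i _ (hbQ w fun j => by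
        exact_mod_cast hw j)).1) hR0
      have hfun : (fun i => lin (P i) (t₀ + (n + n))) = R := by
        funext i
        exact (hRlin i).symm
      rw [hfun] at hsum
      have hsum' : ∑ r, v₀ r * rowP (p - 1) T (PX Q₁ Q₂) r R = 0 := hsum
      rw [hsum', Int.cast_zero] at hval
      have hdn : ((dn (R 0) : ℚ) * dn (R 1)) ^ (2 * T + (p - 1) * T) ≠ 0 :=
        pow_ne_zero _ (mul_ne_zero (dn_ne_zero (hR0 0)) (dn_ne_zero (hR0 1)))
      have h0 := (mul_eq_zero.mp hval).resolve_right hdn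
      rw [dbl_PX, ← hQ₁d, ← hQ₂d, mem_mA hR0]
      exact h0
    · rw [mem_bigBox]
      intro i
      have h2 := mem_bigBox.mp hn i
      have h3 : |t₀ i| ≤ ((K₁ * N : ℕ) : ℤ) * M := by
        rw [ht₀, Pi.smul_apply, smul_eq_mul, abs_mul, Nat.abs_cast]
        exact mul_le_mul_of_nonneg_left (hM i) (Int.natCast_nonneg _)
      rw [abs_le] at h3
      rw [Pi.add_apply, Pi.add_apply, hK₀]
      obtain ⟨z, hz⟩ : ∃ z : ℤ, z = n i := ⟨_, rfl⟩
      obtain ⟨z', hz'⟩ : ∃ z : ℤ, z = t₀ i := ⟨_, rfl⟩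
      obtain ⟨E, hE⟩ : ∃ E : ℤ, E = ((K₁ * N : ℕ) : ℤ) * M := ⟨_, rfl⟩
      have e1 : (((K₁ * M + 14) * N : ℕ) : ℤ) = E + 14 * N := by
        rw [hE]; push_cast; ring
      rw [e1, ← hz, ← hz']
      rw [← hE, ← hz'] at h3
      push_cast at h2
      rw [← hz] at h2
      constructor
      · linarith [h2.1, h3.1]
      · linarith [h2.2, h3.2]

end MP3550b5.RG
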