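import Mathlib
import Pool.Agent.Lib.MP_3550b5_nt.RG.MainP
import Pool.Agent.Lib.MP_3550b5_nt.RG.OrbT
import Pool.Agent.Lib.MP_3550b5_nt.RG.Final

/-!
The group of pairs with one relation has rank at most `30`.
-/

namespace MP3550b5.RG

open Pool.Agent.Lib.MP_3550b5_nt WeierstrassCurve.Affine Module

variable {p : ℕ} [hp : Fact p.Prime] {a b : ℤ}

lemma hB_zero_right {Bh : (curve a b).Point → (curve a b).Point → ℚ_[p]}
    (hB : IsCanonicalHeight p a b Bh) (X : (curve a b).Point) : Bh X 0 = 0 := by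
  rw [hB.symm, hB.zero]

lemma PX_nsmul (N : ℕ) (R₁ R₂ : (curve a b).Point) (i : Fin 2) (k : Fin 3) :
    PX (N • R₁) (N • R₂) i k = N • PX R₁ R₂ i k := by
  fin_cases i <;> fin_cases k <;> simp [PX]

lemma good_smul_eq_zero {g : (curve a b).Point} (hg : g ∈ goodGroup p a b) {c : ℤ} (hc : c ≠ 0)
    (h : c • g = 0) : g = 0 := by
  by_contra h0
  apply good_not_torsion hg h0
  rw [isOfFinAddOrder_iff_zsmul_eq_zero]
  exact ⟨c, hc, h⟩

/-- One relation and dependent coordinates: both points are orthogonal to the kernel vector. -/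
lemma dep_orth {u₀ u₁ φ₀ φ₁ : ℚ_[p]} (hu : ∀ c d : ℤ, (c : ℚ_[p]) * u₀ + (d : ℚ_[p]) * u₁ = 0 →
    c = 0 ∧ d = 0) (h1 : u₀ * φ₀ + u₁ * φ₁ = 0) {c d : ℤ} (hcd : c ≠ 0 ∨ d ≠ 0)
    (h2 : (c : ℚ_[p]) * φ₀ + d * φ₁ = 0) : φ₀ = 0 ∧ φ₁ = 0 := by
  have hdet : (d : ℚ_[p]) * u₀ - c * u₁ ≠ 0 := by
    intro h
    have h3 := hu d (-c) (by push_cast; linear_combination h)
    rcases hcd with h4 | h4
    · exact h4 (by omega)
    · exact h4 h3.1
  constructor
  · have : ((d : ℚ_[p]) * u₀ - c * u₁) * φ₀ = 0 := by linear_combination (d : ℚ_[p]) * h1 - u₁ * h2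
    exact (mul_eq_zero.mp this).resolve_left hdet
  · have : ((d : ℚ_[p]) * u₀ - c * u₁) * φ₁ = 0 := by linear_combination u₀ * h2 - (c : ℚ_[p]) * h1
    exact (mul_eq_zero.mp this).resolve_left hdet

/-- Ten independent pairs cannot satisfy the same rational relation. -/
lemma ten_pairs (hp5 : 5 ≤ p) (hΔ : 4 * a ^ 3 + 27 * b ^ 2 ≠ 0)
    {Bh : (curve a b).Point → (curve a b).Point → ℚ_[p]}
    (hB : IsCanonicalHeight p a b Bh) {R : Fin 2 → (curve a b).Point}
    (hR : LinearIndependent ℤ R) {u : Fin 2 → ℚ_[p]}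
    (hu : ∀ c d : ℤ, (c : ℚ_[p]) * u 0 + (d : ℚ_[p]) * u 1 = 0 → c = 0 ∧ d = 0)
    (g : Fin 10 → Fin 2 → (curve a b).Point) (hg : ∀ k i, g k i ∈ goodGroup p a b)
    (hrel : ∀ k, u 0 * (u 0 * Bh (g k 0) (R 0) + u 1 * Bh (g k 0) (R 1)) +
      u 1 * (u 0 * Bh (g k 1) (R 0) + u 1 * Bh (g k 1) (R 1)) = 0)
    {c d : ℤ} (hcd : c ≠ 0 ∨ d ≠ 0) (hdep : ∀ k, c • g k 0 + d • g k 1 = 0)
    (hind : ∀ n : Fin 10 → ℤ, (∀ i, ∑ k, n k • g k i = 0) → n = 0) : False := by
  have horth : ∀ k i, u 0 * Bh (g k i) (R 0) + u 1 * Bh (g k i) (R 1) = 0 := by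
    intro k
    have h2 : (c : ℚ_[p]) * (u 0 * Bh (g k 0) (R 0) + u 1 * Bh (g k 0) (R 1)) +
        d * (u 0 * Bh (g k 1) (R 0) + u 1 * Bh (g k 1) (R 1)) = 0 := by
      have h3 : ∀ Q, (c : ℚ_[p]) * Bh (g k 0) Q + d * Bh (g k 1) Q = 0 := by
        intro Q
        rw [← hB.zsmul, ← hB.zsmul, ← hB.add, hdep, hB.zero]
      linear_combination u 0 * h3 (R 0) + u 1 * h3 (R 1)
    obtain ⟨h4, h5⟩ := dep_orth hu (hrel k) hcd h2
    intro i
    fin_cases i
    · exact h4
    · exact h5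
  -- one of the coordinates is independent
  obtain ⟨i, hi⟩ : ∃ i, ∀ n : Fin 10 → ℤ, ∑ k, n k • g k i = 0 → n = 0 := by
    have hsumg : ∀ (n : Fin 10 → ℤ) i, ∑ k, n k • g k i ∈ goodGroup p a b := fun n i =>
      sum_mem fun k _ => zsmul_mem (hg k i) _
    have hsumdep : ∀ n : Fin 10 → ℤ, c • ∑ k, n k • g k 0 + d • ∑ k, n k • g k 1 = 0 := by
      intro n
      rw [Finset.smul_sum, Finset.smul_sum, ← Finset.sum_add_distrib]
      apply Finset.sum_eq_zero
      intro k _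
      rw [smul_comm c, smul_comm d, ← zsmul_add, hdep, zsmul_zero]
    by_cases hd : d = 0
    · have hc : c ≠ 0 := hcd.resolve_right (fun h => h hd)
      refine ⟨1, fun n hn => hind n fun i => ?_⟩
      fin_cases i
      · have h1 := hsumdep n
        rw [hd, zero_zsmul, add_zero] at h1
        exact good_smul_eq_zero (hsumg n 0) hc h1
      · exact hn
    · refine ⟨0, fun n hn => hind n fun i => ?_⟩
      fin_cases i
      · exact hn
      · have h1 := hsumdep n
        rw [hn, zsmul_zero, zero_add] at h1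
        exact good_smul_eq_zero (hsumg n 1) hd h1
  have hP : LinearIndependent ℤ fun k => g k i := by
    rw [Fintype.linearIndependent_iff]
    intro n hn k
    exact congrFun (hi n hn) k
  have hu0 : u ≠ 0 := by
    intro h
    have h1 := (hu 1 0 (by rw [h]; simp)).1
    exact one_ne_zero h1
  have h := relations_le hp5 hΔ hB (k := 1) hP hR (u := fun _ => u)
    (by rw [linearIndependent_unique_iff]; exact hu0)
    (fun _ l => by rw [Fin.sum_univ_two]; exact horth l i) le_rfl (by norm_num)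
  omega

/-- The main inequality for pairs. -/
theorem pair_bound (hp5 : 5 ≤ p) (hΔ : 4 * a ^ 3 + 27 * b ^ 2 ≠ 0)
    {Bh : (curve a b).Point → (curve a b).Point → ℚ_[p]}
    (hB : IsCanonicalHeight p a b Bh) {l : ℕ}
    {P : Fin 2 → Fin l → (curve a b).Point}
    (hindP : ∀ n : Fin l → ℤ, (∀ i, lin (P i) n = 0) → n = 0)
    {R : Fin 2 → (curve a b).Point} (hR : LinearIndependent ℤ R) {u : Fin 2 → ℚ_[p]}
    (hu : ∀ c d : ℤ, (c : ℚ_[p]) * u 0 + (d : ℚ_[p]) * u 1 = 0 → c = 0 ∧ d = 0)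
    (hrel : ∀ j, u 0 * (u 0 * Bh (P 0 j) (R 0) + u 1 * Bh (P 0 j) (R 1)) +
      u 1 * (u 0 * Bh (P 1 j) (R 0) + u 1 * Bh (P 1 j) (R 1)) = 0)
    (hD : ∀ g : Fin 2 → goodGroup p a b, (∀ c d : ℤ, c • g 0 + d • g 1 = 0 → c = 0 ∧ d = 0) →
      ∀ T : Fin 2 → (curve a b).Point, (∀ i, T i ∈ goodGroup p a b) → Dense T g) : l ≤ 30 := by
  classical
  have hu0 : u 0 ≠ 0 := by
    intro h
    have h1 := (hu 1 0 (by rw [h]; simp)).1
    exact one_ne_zero h1
  -- multiples in the good group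
  obtain ⟨N0, hN0, hP0⟩ := exists_common (p := p) hΔ (P 0)
  obtain ⟨N1, hN1, hP1⟩ := exists_common (p := p) hΔ (P 1)
  obtain ⟨NR, hNR, hRg⟩ := exists_common (p := p) hΔ R
  obtain ⟨NP, hNP⟩ : ∃ NP : ℕ, NP = N0 * N1 := ⟨_, rfl⟩
  have hNP0 : NP ≠ 0 := by rw [hNP]; exact mul_ne_zero hN0 hN1
  have hPg : ∀ i j (t : ℕ), (t * NP) • P i j ∈ goodGroup p a b := by
    intro i j t
    fin_cases i
    · have := hP0 j (t * N1)
      have e : t * N1 * N0 = t * NP := by rw [hNP]; ring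
      rw [e] at this
      exact this
    · have := hP1 j (t * N0)
      have e : t * N0 * N1 = t * NP := by rw [hNP]; ring
      rw [e] at this
      exact this
  -- the factorisation
  obtain ⟨Z, hZ⟩ : ∃ Z : Fin l → Fin 3 → ℚ_[p], Z = fun j k =>
    Bh (P 0 j) (PX (R 0) (R 1) 0 k) + Bh (P 1 j) (PX (R 0) (R 1) 1 k) := ⟨_, rfl⟩
  obtain ⟨κ, hκ⟩ : ∃ κ : Fin 3 → ℚ_[p], κ = ![u 0 * u 0, u 1 * u 1, u 0 * u 1] := ⟨_, rfl⟩
  have hκ0 : κ ≠ 0 := by
    intro h
    have h1 := congrFun h 0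
    rw [hκ] at h1
    exact mul_ne_zero hu0 hu0 h1
  obtain ⟨X, Y, hXY⟩ := exists_fact Z (fun _ : Fin 1 => κ)
    (by rw [linearIndependent_unique_iff]; exact hκ0) (fun _ j => by
      rw [Fin.sum_univ_three, hκ, hZ]
      simp only [PX, Matrix.cons_val_zero, Matrix.cons_val_one, Matrix.cons_val]
      rw [hB_zero_right hB, hB_zero_right hB]
      linear_combination hrel j)
  obtain ⟨eX, heX⟩ : ∃ eX : Fin l × Fin 2 → ℕ, ∀ v e', eX v ≤ e' → ∃ w : ℤ_[p],
      (p : ℤ_[p]) ∣ w ∧ (w : ℚ_[p]) = (p : ℚ_[p]) ^ e' * X v.1 v.2 := by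
    choose eX heX using fun (v : Fin l × Fin 2) => exists_scale (X v.1 v.2)
    exact ⟨eX, heX⟩
  obtain ⟨eY, heY⟩ : ∃ eY : Fin 3 × Fin 2 → ℕ, ∀ v e', eY v ≤ e' → ∃ w : ℤ_[p],
      (p : ℤ_[p]) ∣ w ∧ (w : ℚ_[p]) = (p : ℚ_[p]) ^ e' * Y v.1 v.2 := by
    choose eY heY using fun (v : Fin 3 × Fin 2) => exists_scale (Y v.1 v.2)
    exact ⟨eY, heY⟩
  choose eB heB using fun (v : Fin 2 × Fin l × Fin 3) =>
    exists_scale (Bh (P v.1 v.2.1) (PX (R 0) (R 1) v.1 v.2.2))
  obtain ⟨e, he⟩ : ∃ e, e = (Finset.univ.sup eX) ⊔ (Finset.univ.sup eY) ⊔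
    (Finset.univ.sup eB) + 1 := ⟨_, rfl⟩
  have heX' : ∀ v, eX v ≤ e := fun v => by
    have h1 := Finset.le_sup (f := eX) (Finset.mem_univ v)
    have h2 := le_max_left (Finset.univ.sup eX) (Finset.univ.sup eY)
    have h3 := le_max_left (max (Finset.univ.sup eX) (Finset.univ.sup eY)) (Finset.univ.sup eB)
    rw [he]; omega
  have heY' : ∀ v, eY v ≤ e := fun v => by
    have h1 := Finset.le_sup (f := eY) (Finset.mem_univ v)
    have h2 := le_max_right (Finset.univ.sup eX) (Finset.univ.sup eY)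
    have h3 := le_max_left (max (Finset.univ.sup eX) (Finset.univ.sup eY)) (Finset.univ.sup eB)
    rw [he]; omega
  have heB' : ∀ v, eB v ≤ e := fun v => by
    have h1 := Finset.le_sup (f := eB) (Finset.mem_univ v)
    have h3 := le_max_right (max (Finset.univ.sup eX) (Finset.univ.sup eY)) (Finset.univ.sup eB)
    rw [he]; omega
  have he1 : 1 ≤ e := by rw [he]; omega
  choose x hx1 hx2 using fun (j : Fin l) (t : Fin 2) => heX (j, t) e (heX' _)
  choose y hy1 hy2 using fun (k : Fin 3) (t : Fin 2) => heY (k, t) e (heY' _)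
  choose β hβ1 hβ2 using fun (i : Fin 2) (j : Fin l) (k : Fin 3) => heB (i, j, k) e (heB' _)
  have hp0 := hp.out.ne_zero
  have hNP' : p ^ e * NP ≠ 0 := mul_ne_zero (pow_ne_zero _ hp0) hNP0
  have hNR' : p ^ e * NR ≠ 0 := mul_ne_zero (pow_ne_zero _ hp0) hNR
  -- the scaled points
  obtain ⟨P', hP'⟩ : ∃ P' : Fin 2 → Fin l → (curve a b).Point,
    P' = fun i j => (p ^ e * NP) • P i j := ⟨_, rfl⟩
  have hP'g : ∀ i j, P' i j ∈ goodGroup p a b := by
    intro i j; rw [hP']; exact hPg i j _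
  have hlinP' : ∀ i n, lin (P' i) n = lin (P i) (((p ^ e * NP : ℕ) : ℤ) • n) := by
    intro i n
    rw [map_zsmul, natCast_zsmul, lin_apply, lin_apply, Finset.smul_sum, hP']
    refine Finset.sum_congr rfl fun j _ => ?_
    show n j • ((p ^ e * NP) • P i j) = (p ^ e * NP) • (n j • P i j)
    rw [← natCast_zsmul, ← natCast_zsmul, smul_comm]
  have hindP' : ∀ n : Fin l → ℤ, (∀ i, lin (P' i) n = 0) → n = 0 := by
    intro n hn
    have h1 := hindP _ fun i => by rw [← hlinP']; exact hn i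
    have h2 : ((p ^ e * NP : ℕ) : ℤ) ≠ 0 := by exact_mod_cast hNP'
    exact (smul_eq_zero.1 h1).resolve_left h2
  obtain ⟨R₁, hR₁⟩ : ∃ R₁, R₁ = (p ^ e * NR) • R 0 := ⟨_, rfl⟩
  obtain ⟨R₂, hR₂⟩ : ∃ R₂, R₂ = (p ^ e * NR) • R 1 := ⟨_, rfl⟩
  have hR₁g : R₁ ∈ goodGroup p a b := by rw [hR₁]; exact hRg 0 _
  have hR₂g : R₂ ∈ goodGroup p a b := by rw [hR₂]; exact hRg 1 _
  have hRind : ∀ c d : ℤ, c • R₁ + d • R₂ = 0 → c = 0 ∧ d = 0 := by
    intro c d h
    have h1 := indep_nsmul hR hNR' ![c, d] (by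
      rw [Fin.sum_univ_two]
      simp only [Matrix.cons_val_zero, Matrix.cons_val_one]
      rw [← hR₁, ← hR₂]
      exact h)
    exact ⟨congrFun h1 0, congrFun h1 1⟩
  have hdd : ∀ i k, PX (R₁ + R₁) (R₂ + R₂) i k = (2 * (p ^ e * NR)) • PX (R 0) (R 1) i k := by
    intro i k
    rw [← PX_nsmul, hR₁, hR₂, two_mul, add_smul, add_smul]
  have hBsc : ∀ i j k, Bh (P' i j) (PX (R₁ + R₁) (R₂ + R₂) i k) =
      ((NP * (2 * NR) : ℕ) : ℚ_[p]) * ((p : ℚ_[p]) ^ e * ((p : ℚ_[p]) ^ e *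
        Bh (P i j) (PX (R 0) (R 1) i k))) := by
    intro i j k
    rw [hdd, hP']
    show Bh ((p ^ e * NP) • P i j) _ = _
    rw [hB.nsmul, hB.symm, hB.nsmul, hB.symm]
    push_cast
    ring
  have hne_or : (∃ t : Fin l → ℤ, ∀ i, lin (P' i) t ≠ 0) ∨
      ∀ t : Fin l → ℤ, ∃ i, lin (P' i) t = 0 := by
    by_cases h : ∃ t : Fin l → ℤ, ∀ i, lin (P' i) t ≠ 0
    · exact Or.inl h
    · push Not at h
      exact Or.inr h
  -- relation for all combinations
  have hrel' : ∀ n : Fin l → ℤ, u 0 * (u 0 * Bh (lin (P' 0) n) (R 0) + u 1 * Bh (lin (P' 0) n) (R 1)) +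
      u 1 * (u 0 * Bh (lin (P' 1) n) (R 0) + u 1 * Bh (lin (P' 1) n) (R 1)) = 0 := by
    intro n
    have h1 : ∀ i Q, Bh (lin (P' i) n) Q = ∑ j, (n j : ℚ_[p]) * ((p ^ e * NP : ℕ) *
        Bh (P i j) Q) := by
      intro i Q
      rw [lin_apply, hB.sum]
      refine Finset.sum_congr rfl fun j _ => ?_
      rw [hB.zsmul, hP']
      show _ * Bh ((p ^ e * NP) • P i j) Q = _
      rw [hB.nsmul]
    rw [h1, h1, h1, h1]
    simp only [Finset.mul_sum, ← Finset.sum_add_distrib]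
    apply Finset.sum_eq_zero
    intro j _
    linear_combination (n j : ℚ_[p]) * ((p ^ e * NP : ℕ) : ℚ_[p]) * hrel j
  -- groups of dependent pairs
  have htf : ∀ (n : ℤ) (x : goodGroup p a b), n • x = 0 → n = 0 ∨ x = 0 := by
    intro n x h
    by_cases hn : n = 0
    · exact Or.inl hn
    · right
      apply Subtype.ext
      exact good_smul_eq_zero x.2 hn (congrArg Subtype.val h)
  have hpinj : ∀ n : Fin l → ℤ, pt2 P' hP'g n = 0 → n = 0 := by
    intro n hn
    refine hindP' n fun i => ?_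
    rw [← pt2_coe P' hP'g, hn]
    rfl
  have h9 : ∀ H : AddSubgroup (Fin 2 → goodGroup p a b),
      (∀ g ∈ H, ∃ c d : ℤ, (c ≠ 0 ∨ d ≠ 0) ∧ c • g 0 + d • g 1 = 0) →
      ∀ n : Fin 10 → (Fin l → ℤ), (∀ i, pt2 P' hP'g (n i) ∈ H) → ¬ LinearIndependent ℤ n := by
    intro H hH n hn hli
    have hcomb : ∀ m : Fin 10 → ℤ, ∑ k, m k • pt2 P' hP'g (n k) = 0 → m = 0 := by
      intro m hm
      have h1 : pt2 P' hP'g (∑ k, m k • n k) = 0 := by
        rw [map_sum, ← hm]
        exact Finset.sum_congr rfl fun k _ => map_zsmul _ _ _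
      have h2 := Fintype.linearIndependent_iff.mp hli m (hpinj _ h1)
      exact funext h2
    rcases dependent_pairs htf H hH with ⟨c, d, hcd, h⟩ | h
    · refine ten_pairs hp5 hΔ hB hR hu (fun k i => (pt2 P' hP'g (n k) i : (curve a b).Point))
        (fun k i => (pt2 P' hP'g (n k) i).2) (fun k => ?_) hcd (fun k => ?_) ?_
      · simp only [pt2_coe]
        exact hrel' (n k)
      · exact congrArg Subtype.val (h _ (hn k))
      · intro m hm
        apply hcomb
        funext i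
        apply Subtype.ext
        rw [Finset.sum_apply]
        have h3 := hm i
        rw [AddSubgroup.val_finsetSum]
        exact h3
    · refine h (fun k : Fin 3 => pt2 P' hP'g (n (Fin.castLE (by norm_num) k))) (fun k => hn _) ?_
      have h4 : LinearIndependent ℤ fun k : Fin 10 => pt2 P' hP'g (n k) := by
        rw [Fintype.linearIndependent_iff]
        intro m hm k
        exact congrFun (hcomb m hm) k
      exact h4.comp _ (Fin.castLE_injective (by norm_num))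
  have hinf : Infinite (goodGroup p a b) := by
    have hinj : Function.Injective (fun n : ℤ => (⟨n • R₁, zsmul_mem hR₁g n⟩ :
        goodGroup p a b)) := by
      intro n n' h
      have h1 : n • R₁ = n' • R₁ := congrArg Subtype.val h
      have h2 : (n - n') • R₁ + (0 : ℤ) • R₂ = 0 := by
        rw [sub_zsmul, h1, add_neg_cancel, zero_zsmul, add_zero]
      exact sub_eq_zero.mp (hRind _ _ h2).1
    exact Infinite.of_injective _ hinj
  have hm : Even (p - 1) := by
    have hodd : Odd p := hp.out.odd_of_ne_two (by omega)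
    obtain ⟨k, hk⟩ := hodd
    exact ⟨k, by omega⟩
  rcases hne_or with hne | hne
  · refine pair_core hp5 hΔ hB hP'g hindP' hR₁g hR₂g hRind ?_
      (x := fun j t => (NP : ℤ_[p]) * x j t) (y := fun k t => ((2 * NR : ℕ) : ℤ_[p]) * y k t)
      (fun j t => Dvd.dvd.mul_left (hx1 j t) _) (fun k t => Dvd.dvd.mul_left (hy1 k t) _) ?_ hne h9
      ?_ ?_
    · intro i j k
      refine ⟨((NP * (2 * NR) : ℕ) : ℤ_[p]) * ((p : ℤ_[p]) ^ e * β i j k), ?_, ?_⟩
      · rw [pow_two]
        refine Dvd.dvd.mul_left (mul_dvd_mul ?_ (hβ1 i j k)) _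
        exact dvd_pow_self _ (by omega)
      · rw [hBsc, PadicInt.coe_mul, PadicInt.coe_mul, PadicInt.coe_pow, hβ2, PadicInt.coe_natCast,
          PadicInt.coe_natCast]
    · intro j k
      have h1 : Z j k = Bh (P 0 j) (PX (R 0) (R 1) 0 k) + Bh (P 1 j) (PX (R 0) (R 1) 1 k) := by
        rw [hZ]
      rw [hBsc, hBsc, ← mul_add, ← mul_add, ← mul_add, ← h1, ← hXY j k, PadicInt.coe_sum,
        Finset.mul_sum, Finset.mul_sum, Finset.mul_sum]
      refine Finset.sum_congr rfl fun t _ => ?_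
      rw [PadicInt.coe_mul, PadicInt.coe_mul, PadicInt.coe_mul, hx2, hy2, PadicInt.coe_natCast,
        PadicInt.coe_natCast]
      push_cast
      ring
    · intro R' hR' g hg
      have hR'g : R' ∈ goodGroup p a b := by
        rcases hR' with h | h
        · rw [h]; exact hR₁g
        · rw [Set.mem_singleton_iff] at h; rw [h]; exact hR₂g
      have hR'0 : R' ≠ 0 := by
        rcases hR' with h | h
        · rw [h]
          intro h0
          have := (hRind 1 0 (by rw [h0, zsmul_zero, zero_zsmul, add_zero])).1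
          exact one_ne_zero this
        · rw [Set.mem_singleton_iff] at h
          rw [h]
          intro h0
          have := (hRind 0 1 (by rw [h0, zsmul_zero, zero_zsmul, add_zero])).2
          exact one_ne_zero this
      refine orbit_one hΔ hinf hm (by omega) (fun _ => hR'g) (fun μ hμ => ?_) hg
      rw [lin_apply, Fin.sum_univ_one] at hμ
      funext k
      rw [Subsingleton.elim k 0]
      by_contra h
      exact hR'0 (good_smul_eq_zero hR'g h hμ)
    · intro g hg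
      exact orbit_two_of_dense hΔ hinf hm (by omega) hR₁g hR₂g hRind hg (hD g hg)
  · by_contra hl
    push Not at hl
    refine h9 (pt2 P' hP'g).range ?_ (fun k => Pi.single (Fin.castLE (by omega) k) 1)
      (fun k => ⟨_, rfl⟩) ?_
    · rintro _ ⟨t, rfl⟩
      obtain ⟨i, hi⟩ := hne t
      fin_cases i
      · refine ⟨1, 0, Or.inl one_ne_zero, ?_⟩
        apply Subtype.ext
        show (1 : ℤ) • lin (P' 0) t + (0 : ℤ) • lin (P' 1) t = 0
        rw [zero_zsmul, one_zsmul, add_zero]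
        exact hi
      · refine ⟨0, 1, Or.inr one_ne_zero, ?_⟩
        apply Subtype.ext
        show (0 : ℤ) • lin (P' 0) t + (1 : ℤ) • lin (P' 1) t = 0
        rw [zero_zsmul, one_zsmul, zero_add]
        exact hi
    · rw [Fintype.linearIndependent_iff]
      intro m hm k
      have h1 := congrFun hm (Fin.castLE (by omega) k)
      rw [Finset.sum_apply, Finset.sum_eq_single k] at h1
      · simpa using h1
      · intro k' _ hk'
        have h2 : (Fin.castLE (by omega : 10 ≤ l) k) ≠ Fin.castLE (by omega) k' := by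
          intro h3
          exact hk' (Fin.castLE_injective (by omega : 10 ≤ l) h3).symm
        simp [Pi.single_eq_of_ne h2]
      · intro h; exact absurd (Finset.mem_univ _) h

end MP3550b5.RG
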