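import Mathlib
import Pool.Agent.Lib.MP_3550b5_nt.Iso.Height
import Pool.Agent.Lib.MP_3550b5_nt.Iso.PairGeneric
import Pool.Agent.Lib.MP_3550b5_nt.RG.BoundP

/-!
Regulators of pairs of points.
-/

namespace MP3550b5.RG

open Pool.Agent.Lib.MP_3550b5_nt Pool.Agent.Lib.MP_3550b5_nt.Iso WeierstrassCurve.Affine Module

/-- Integral vectors spanning a rational subspace. -/
lemma exists_int_span {ι : Type} [Fintype ι] (W : Submodule ℚ (ι → ℚ)) :
    ∃ (z : Fin (finrank ℚ W) → ι → ℤ),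
      (∀ n : Fin (finrank ℚ W) → ℤ, (fun i => ∑ k, n k * z k i) = 0 → n = 0) ∧
      (∀ k, (fun i => (z k i : ℚ)) ∈ W) := by
  classical
  obtain ⟨d, hd⟩ : ∃ d, d = finrank ℚ W := ⟨_, rfl⟩
  rw [← hd]
  obtain ⟨e⟩ : Nonempty (Basis (Fin d) ℚ W) := ⟨finBasisOfFinrankEq ℚ W hd.symm⟩
  obtain ⟨N, hN, z, hz⟩ := clear_den fun v : Fin d × ι => (e v.1 : ι → ℚ) v.2
  have hNq : (N : ℚ) ≠ 0 := by exact_mod_cast hN
  refine ⟨fun k i => z (k, i), ?_, ?_⟩
  · intro n hn
    have h2 : (fun i => ((∑ k, n k * z (k, i) : ℤ) : ℚ)) =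
        (N : ℚ) • ((∑ k, (n k : ℚ) • e k : W) : ι → ℚ) := by
      funext i
      rw [Submodule.coe_sum, Pi.smul_apply, Finset.sum_apply, smul_eq_mul, Finset.mul_sum]
      push_cast
      refine Finset.sum_congr rfl fun k _ => ?_
      have h1 := hz (k, i)
      rw [h1, Pi.smul_apply, smul_eq_mul]
      ring
    have h3 : (fun i => ((∑ k, n k * z (k, i) : ℤ) : ℚ)) = 0 := by
      funext i
      have := congrFun hn i
      simp only [Pi.zero_apply] at this ⊢
      rw [this]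
      simp
    rw [h3] at h2
    have h4 : (∑ k, (n k : ℚ) • e k : W) = 0 := by
      apply Subtype.ext
      rcases smul_eq_zero.1 h2.symm with h5 | h5
      · exact absurd h5 hNq
      · exact h5
    funext k
    have h6 := Fintype.linearIndependent_iff.mp e.linearIndependent (fun k => (n k : ℚ)) h4 k
    exact_mod_cast h6
  · intro k
    have h1 : (fun i => ((z (k, i) : ℤ) : ℚ)) = (N : ℚ) • (e k : ι → ℚ) := by
      funext i
      exact hz (k, i)
    rw [h1]
    exact Submodule.smul_mem _ _ (e k).2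

variable {p : ℕ} [hp : Fact p.Prime] {a b : ℤ}

lemma hf_smul_left {K : Type} [Field K] [Algebra ℚ K] {r : ℕ} (G : Matrix (Fin r) (Fin r) K)
    (c : ℚ) (x y : Fin r → ℚ) : hf G (c • x) y = algebraMap ℚ K c * hf G x y := by
  have h := (hfL G y).map_smul c x
  have h1 : hf G (c • x) y = c • hf G x y := h
  rw [h1, Algebra.smul_def]

lemma hf_smul_right {K : Type} [Field K] [Algebra ℚ K] {r : ℕ} {G : Matrix (Fin r) (Fin r) K}
    (hG : ∀ i j, G i j = G j i) (c : ℚ) (x y : Fin r → ℚ) :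
    hf G x (c • y) = algebraMap ℚ K c * hf G x y := by
  rw [hf_symm hG, hf_smul_left, hf_symm hG]

lemma hf_add_left {K : Type} [Field K] [Algebra ℚ K] {r : ℕ} (G : Matrix (Fin r) (Fin r) K)
    (x x' y : Fin r → ℚ) : hf G (x + x') y = hf G x y + hf G x' y :=
  (hfL G y).map_add x x'

/-- The tangent spaces at singular pairs have rank at most `30`. -/
theorem ptan_le (hp5 : 5 ≤ p) (hΔ : 4 * a ^ 3 + 27 * b ^ 2 ≠ 0)
    {Bh : (curve a b).Point → (curve a b).Point → ℚ_[p]} (hB : IsCanonicalHeight p a b Bh) {r : ℕ}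
    {P : Fin r → (curve a b).Point} (hP : LinearIndependent ℤ P)
    (hD : ∀ g : Fin 2 → goodGroup p a b, (∀ c d : ℤ, c • g 0 + d • g 1 = 0 → c = 0 ∧ d = 0) →
      ∀ T : Fin 2 → (curve a b).Point, (∀ i, T i ∈ goodGroup p a b) → Dense T g)
    (x y : Fin r → ℚ) (hxy : LinearIndependent ℚ ![x, y])
    (hdet : hf (gram Bh P) x x * hf (gram Bh P) y y = hf (gram Bh P) x y ^ 2)
    (hiso : ∀ c d : ℚ, (c ≠ 0 ∨ d ≠ 0) → hf (gram Bh P) (c • x + d • y) (c • x + d • y) ≠ 0) :
    finrank ℚ (ptan (gram Bh P) x y) ≤ 30 := by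
  classical
  obtain ⟨G, hGd⟩ : ∃ G, G = gram Bh P := ⟨_, rfl⟩
  rw [← hGd] at hdet hiso ⊢
  have hG : ∀ i j, G i j = G j i := by rw [hGd]; exact gram_symm hB P
  -- the pairs as vectors
  obtain ⟨W, hW⟩ : ∃ W : Submodule ℚ (Fin 2 × Fin r → ℚ), W = (ptan G x y).map
    (LinearEquiv.curry ℚ ℚ (Fin 2) (Fin r)).symm.toLinearMap := ⟨_, rfl⟩
  have hWf : finrank ℚ W = finrank ℚ (ptan G x y) := by
    rw [hW]
    exact LinearEquiv.finrank_map_eq (LinearEquiv.curry ℚ ℚ (Fin 2) (Fin r)).symm _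
  rw [← hWf]
  obtain ⟨z, hz1, hz2⟩ := exists_int_span W
  have hz3 : ∀ k, (fun i j => ((z k (i, j) : ℤ) : ℚ)) ∈ ptan G x y := by
    intro k
    have h1 := hz2 k
    rw [hW, Submodule.mem_map] at h1
    obtain ⟨v, hv, hv'⟩ := h1
    have h2 : v = fun i j => ((z k (i, j) : ℤ) : ℚ) := by
      funext i j
      have := congrFun hv' (i, j)
      exact this
    rw [← h2]
    exact hv
  obtain ⟨M, hM, w, hw⟩ := clear_den fun v : Fin 2 × Fin r => (![x, y] : Fin 2 → Fin r → ℚ) v.1 v.2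
  have hMq : (M : ℚ) ≠ 0 := by exact_mod_cast hM
  have hwx : (fun j => ((w (0, j) : ℤ) : ℚ)) = (M : ℚ) • x := by
    funext j
    exact hw (0, j)
  have hwy : (fun j => ((w (1, j) : ℤ) : ℚ)) = (M : ℚ) • y := by
    funext j
    exact hw (1, j)
  have hinj : ∀ n : Fin r → ℤ, lin P n = 0 → n = 0 := by
    intro n hn
    rw [lin_apply] at hn
    funext i
    exact Fintype.linearIndependent_iff.mp hP n hn i
  obtain ⟨R, hR⟩ : ∃ R : Fin 2 → (curve a b).Point, R = fun i => lin P fun j => w (i, j) :=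
    ⟨_, rfl⟩
  have hRind : LinearIndependent ℤ R := by
    rw [Fintype.linearIndependent_iff]
    intro g hg
    rw [hR] at hg
    have h1 : lin P (∑ i, g i • fun j => w (i, j)) = 0 := by
      rw [map_sum, ← hg]
      exact Finset.sum_congr rfl fun i _ => map_zsmul _ _ _
    have h2 := hinj _ h1
    have h3 : ((g 0 : ℚ) * M) • x + ((g 1 : ℚ) * M) • y = 0 := by
      rw [mul_smul, mul_smul, ← hwx, ← hwy]
      funext j
      have h4 := congrFun h2 j
      rw [Fin.sum_univ_two] at h4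
      simp only [Pi.add_apply, Pi.smul_apply, smul_eq_mul, Pi.zero_apply] at h4 ⊢
      exact_mod_cast h4
    have h5 := LinearIndependent.pair_iff.mp hxy _ _ h3
    intro i
    fin_cases i
    · have := (mul_eq_zero.mp h5.1).resolve_right hMq
      exact_mod_cast this
    · have := (mul_eq_zero.mp h5.2).resolve_right hMq
      exact_mod_cast this
  -- the kernel vector
  obtain ⟨A, hA⟩ : ∃ A, A = hf G x x := ⟨_, rfl⟩
  obtain ⟨B, hBd⟩ : ∃ B, B = hf G x y := ⟨_, rfl⟩
  obtain ⟨C, hC⟩ : ∃ C, C = hf G y y := ⟨_, rfl⟩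
  rw [← hA, ← hBd, ← hC] at hdet
  have hA0 : A ≠ 0 := by
    have := hiso 1 0 (Or.inl one_ne_zero)
    rw [one_smul, zero_smul, add_zero, ← hA] at this
    exact this
  have hirr : ∀ c d : ℤ, (c : ℚ_[p]) * (-B) + (d : ℚ_[p]) * A = 0 → c = 0 ∧ d = 0 := by
    intro c d h
    by_contra hcd
    apply hiso (d : ℚ) (-(c : ℚ)) (by
      by_contra h1
      push Not at h1
      apply hcd
      constructor
      · exact_mod_cast neg_eq_zero.mp h1.2
      · exact_mod_cast h1.1)
    have h2 : A * hf G ((d : ℚ) • x + (-(c : ℚ)) • y) ((d : ℚ) • x + (-(c : ℚ)) • y) = 0 := by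
      rw [hf_add_left, hf_smul_left, hf_smul_left, hf_symm hG x, hf_symm hG y, hf_add_left,
        hf_add_left, hf_smul_left, hf_smul_left, hf_smul_left, hf_smul_left, hf_symm hG y x,
        ← hA, ← hBd, ← hC]
      rw [map_neg, map_intCast, map_intCast]
      linear_combination ((c : ℚ_[p]) * (-B) + (d : ℚ_[p]) * A) * h + (c : ℚ_[p]) ^ 2 * hdet
    exact (mul_eq_zero.mp h2).resolve_left hA0
  obtain ⟨P', hP'⟩ : ∃ P' : Fin 2 → Fin (finrank ℚ W) → (curve a b).Point,
    P' = fun i k => lin P fun j => z k (i, j) := ⟨_, rfl⟩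
  have hlinP' : ∀ i (n : Fin (finrank ℚ W) → ℤ), lin (P' i) n =
      lin P (fun j => ∑ k, n k * z k (i, j)) := by
    intro i n
    have h1 : (fun j => ∑ k, n k * z k (i, j)) = ∑ k, n k • fun j => z k (i, j) := by
      funext j
      rw [Finset.sum_apply]
      exact Finset.sum_congr rfl fun k _ => by rw [Pi.smul_apply, smul_eq_mul]
    rw [h1, map_sum, lin_apply, hP']
    exact Finset.sum_congr rfl fun k _ => by rw [map_zsmul]
  refine pair_bound hp5 hΔ hB (P := P') ?_ hRind (u := ![-B, A]) hirr ?_ hD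
  · intro n hn
    apply hz1
    funext v
    obtain ⟨i, j⟩ := v
    have h1 := hn i
    rw [hlinP'] at h1
    exact congrFun (hinj _ h1) j
  · intro k
    have h1 := hz3 k
    rw [mem_ptan] at h1
    have hval : ∀ (v : Fin r → ℤ) (i : Fin 2), Bh (lin P v) (R i) =
        (M : ℚ_[p]) * hf G (fun j => (v j : ℚ)) ((![x, y] : Fin 2 → Fin r → ℚ) i) := by
      intro v i
      rw [hR]
      show Bh (lin P v) (lin P fun j => w (i, j)) = _
      rw [height_lin hB, ← hGd]
      have h2 : (fun j => ((w (i, j) : ℤ) : ℚ)) = (M : ℚ) • (![x, y] : Fin 2 → Fin r → ℚ) i := by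
        funext j
        exact hw (i, j)
      rw [h2, hf_smul_right hG, map_intCast]
    rw [hP']
    simp only [hval, Matrix.cons_val_zero, Matrix.cons_val_one]
    rw [← hA, ← hBd, ← hC] at h1
    linear_combination (M : ℚ_[p]) * A * h1 - (M : ℚ_[p]) *
      hf G (fun j => ((z k (0, j) : ℤ) : ℚ)) x * hdet

/-- Generic subgroups of corank `14` contain no singular pairs. -/
theorem pair_forms (hp5 : 5 ≤ p) (hΔ : 4 * a ^ 3 + 27 * b ^ 2 ≠ 0)
    {Bh : (curve a b).Point → (curve a b).Point → ℚ_[p]} (hB : IsCanonicalHeight p a b Bh) {r : ℕ}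
    {P : Fin r → (curve a b).Point} (hP : LinearIndependent ℤ P)
    (hD : ∀ g : Fin 2 → goodGroup p a b, (∀ c d : ℤ, c • g 0 + d • g 1 = 0 → c = 0 ∧ d = 0) →
      ∀ T : Fin 2 → (curve a b).Point, (∀ i, T i ∈ goodGroup p a b) → Dense T g) :
    ∃ F : MvPolynomial (Fin 14 × Fin r) ℚ, F ≠ 0 ∧ ∀ φ : Fin 14 × Fin r → ℤ,
      MvPolynomial.eval (fun v => (φ v : ℚ)) F ≠ 0 → ∀ x y : Fin r → ℤ,
        LinearIndependent ℤ ![x, y] → (∀ j, ∑ i, φ (j, i) * x i = 0) →
        (∀ j, ∑ i, φ (j, i) * y i = 0) →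
          Bh (∑ i, x i • P i) (∑ i, x i • P i) * Bh (∑ i, y i • P i) (∑ i, y i • P i) ≠
            Bh (∑ i, x i • P i) (∑ i, y i • P i) ^ 2 := by
  classical
  obtain ⟨F₁, hF₁, h₁⟩ := iso_generic (gram Bh P) (gram_symm hB P)
    (m := 14) (fun x hx h0 => (perp_finrank hp5 hΔ hB hP x hx h0).trans (by norm_num))
  obtain ⟨F₂, hF₂, h₂⟩ := pair_generic (gram Bh P) (gram_symm hB P)
    (m := 14) (fun x y hxy hdet hiso => (ptan_le hp5 hΔ hB hP hD x y hxy hdet hiso).trans
      (by norm_num))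
  refine ⟨F₁ * F₂, mul_ne_zero hF₁ hF₂, fun φ hφ x y hxy hx hy => ?_⟩
  rw [map_mul] at hφ
  have hφ1 := left_ne_zero_of_mul hφ
  have hφ2 := right_ne_zero_of_mul hφ
  have hxy' : LinearIndependent ℚ ![fun i => (x i : ℚ), fun i => (y i : ℚ)] := by
    rw [LinearIndependent.pair_iff]
    intro s t hst
    obtain ⟨N, hN, z, hz⟩ := clear_den (![s, t] : Fin 2 → ℚ)
    have hNq : (N : ℚ) ≠ 0 := by exact_mod_cast hN
    have h3 := LinearIndependent.pair_iff.mp hxy (z 0) (z 1) (by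
      funext i
      have h4 := congrFun hst i
      simp only [Pi.add_apply, Pi.smul_apply, smul_eq_mul, Pi.zero_apply] at h4 ⊢
      have h5 : ((z 0 * x i + z 1 * y i : ℤ) : ℚ) = 0 := by
        push_cast
        rw [hz, hz]
        simp only [Matrix.cons_val_zero, Matrix.cons_val_one]
        linear_combination (N : ℚ) * h4
      exact_mod_cast h5)
    have h6 := hz 0
    have h7 := hz 1
    rw [h3.1] at h6
    rw [h3.2] at h7
    simp only [Matrix.cons_val_zero, Matrix.cons_val_one, Int.cast_zero] at h6 h7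
    exact ⟨(mul_eq_zero.mp h6.symm).resolve_left hNq, (mul_eq_zero.mp h7.symm).resolve_left hNq⟩
  have h := h₂ (fun v => (φ v : ℚ)) hφ2 (fun i => (x i : ℚ)) (fun i => (y i : ℚ)) hxy'
    (fun j => by exact_mod_cast hx j) (fun j => by exact_mod_cast hy j) (fun c d hcd => by
      refine h₁ (fun v => (φ v : ℚ)) hφ1 _ ?_ fun j => ?_
      · intro h0
        have h3 := LinearIndependent.pair_iff.mp hxy' c d h0
        rcases hcd with h4 | h4
        · exact h4 h3.1
        · exact h4 h3.2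
      · have e1 : ∑ i, (φ (j, i) : ℚ) * x i = 0 := by exact_mod_cast hx j
        have e2 : ∑ i, (φ (j, i) : ℚ) * y i = 0 := by exact_mod_cast hy j
        have e3 : ∑ i, (φ (j, i) : ℚ) * (c • (fun i => (x i : ℚ)) + d • fun i => (y i : ℚ)) i =
            c * ∑ i, (φ (j, i) : ℚ) * x i + d * ∑ i, (φ (j, i) : ℚ) * y i := by
          rw [Finset.mul_sum, Finset.mul_sum, ← Finset.sum_add_distrib]
          refine Finset.sum_congr rfl fun i _ => ?_
          simp only [Pi.add_apply, Pi.smul_apply, smul_eq_mul]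
          ring
        rw [e3, e1, e2, mul_zero, mul_zero, add_zero])
  rwa [← height_lin hB P x x, ← height_lin hB P y y, ← height_lin hB P x y, lin_apply,
    lin_apply] at h

end MP3550b5.RG
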