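import Mathlib
import Pool.Agent.Lib.MP_3550b5_nt.Iso.TupleGeneric
import Pool.Agent.Lib.MP_3550b5_nt.RG.GeoP
import Pool.Agent.Lib.MP_3550b5_nt.RG.ArithN
import Pool.Agent.Lib.MP_3550b5_nt.RG.BoundN
import Pool.Agent.Lib.MP_3550b5_nt.RG.DensH

/-!
Regulators of tuples of points.
-/

namespace MP3550b5.RG

open Pool.Agent.Lib.MP_3550b5_nt Pool.Agent.Lib.MP_3550b5_nt.Iso WeierstrassCurve.Affine Module

section Ker

variable {K : Type} [Field K] [Algebra ℚ K] {r n : ℕ}

/-- The adjugate does not vanish if all smaller tuples are nonsingular. -/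
lemma adj_ne {G : Matrix (Fin r) (Fin r) K} {x : Fin (n + 1) → Fin r → ℚ}
    (hx : LinearIndependent ℚ x)
    (hS : ∀ y : Fin n → Fin r → ℚ, LinearIndependent ℚ y →
      (∀ i, y i ∈ Submodule.span ℚ (Set.range x)) → (tgram G y).det ≠ 0) :
    (tgram G x).adjugate ≠ 0 := by
  intro h
  have h1 : (tgram G x).adjugate 0 0 = 0 := by rw [h]; rfl
  rw [Matrix.adjugate_fin_succ_eq_det_submatrix] at h1
  have h2 : (tgram G x).submatrix (Fin.succAbove 0) (Fin.succAbove 0) =
      tgram G (fun k => x (Fin.succAbove 0 k)) := by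
    ext i j
    rfl
  rw [h2] at h1
  refine hS (fun k => x (Fin.succAbove 0 k)) (hx.comp _ Fin.succAbove_right_injective)
    (fun i => Submodule.subset_span ⟨_, rfl⟩) ?_
  rcases mul_eq_zero.1 h1 with h3 | h3
  · exact absurd h3 (pow_ne_zero _ (neg_ne_zero.2 one_ne_zero))
  · exact h3

/-- The coordinates of the kernel vector are independent over the rational numbers. -/
lemma indep_ker {G : Matrix (Fin r) (Fin r) K} {x : Fin (n + 1) → Fin r → ℚ}
    (hx : LinearIndependent ℚ x) (hG : ∀ i j, G i j = G j i)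
    (hS : ∀ y : Fin n → Fin r → ℚ, LinearIndependent ℚ y →
      (∀ i, y i ∈ Submodule.span ℚ (Set.range x)) → (tgram G y).det ≠ 0)
    {u : Fin (n + 1) → K} (hu : u ≠ 0) (hker : ∀ j, ∑ i, u i * hf G (x i) (x j) = 0)
    {c : Fin (n + 1) → ℚ} (hc : ∑ i, algebraMap ℚ K (c i) * u i = 0) : c = 0 := by
  classical
  by_contra hne
  obtain ⟨i0, hi0⟩ : ∃ i, c i ≠ 0 := by
    by_contra h
    push Not at h
    exact hne (funext h)
  obtain ⟨t, ht⟩ : ∃ t : Fin n → ℚ, t = fun k => c (i0.succAbove k) / c i0 := ⟨_, rfl⟩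
  obtain ⟨y, hy⟩ : ∃ y : Fin n → Fin r → ℚ, y = fun k => (-t k) • x i0 + x (i0.succAbove k) :=
    ⟨_, rfl⟩
  have hi0K : algebraMap ℚ K (c i0) ≠ 0 := by
    intro h
    exact hi0 ((algebraMap ℚ K).injective (by rw [h, map_zero]))
  have hsum : ∑ k, algebraMap ℚ K (t k) * u (i0.succAbove k) = -u i0 := by
    rw [Fin.sum_univ_succAbove _ i0] at hc
    have h1 : algebraMap ℚ K (c i0) * ∑ k, algebraMap ℚ K (t k) * u (i0.succAbove k) =
        ∑ k, algebraMap ℚ K (c (i0.succAbove k)) * u (i0.succAbove k) := by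
      rw [Finset.mul_sum]
      refine Finset.sum_congr rfl fun k _ => ?_
      rw [← mul_assoc, ← map_mul, ht]
      congr 2
      show c i0 * (c (i0.succAbove k) / c i0) = _
      field_simp
    have h2 : algebraMap ℚ K (c i0) * (∑ k, algebraMap ℚ K (t k) * u (i0.succAbove k) + u i0) = 0 := by
      rw [mul_add, h1, add_comm]
      exact hc
    exact eq_neg_of_add_eq_zero_left ((mul_eq_zero.1 h2).resolve_left hi0K)
  have hyi : LinearIndependent ℚ y := by
    rw [Fintype.linearIndependent_iff]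
    intro g hg k
    have h1 : ∑ i, (i0.insertNth (-∑ k, g k * t k) g : Fin (n + 1) → ℚ) i • x i = 0 := by
      rw [Fin.sum_univ_succAbove _ i0, Fin.insertNth_apply_same]
      simp only [Fin.insertNth_apply_succAbove]
      rw [← hg, hy, neg_smul, Finset.sum_smul, ← Finset.sum_neg_distrib, ← Finset.sum_add_distrib]
      refine Finset.sum_congr rfl fun k _ => ?_
      rw [smul_add, neg_smul, smul_neg, smul_smul]
    have h2 := Fintype.linearIndependent_iff.mp hx _ h1 (i0.succAbove k)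
    rw [Fin.insertNth_apply_succAbove] at h2
    exact h2
  refine hS y hyi (fun k => ?_) ?_
  · rw [hy]
    exact add_mem (Submodule.smul_mem _ _ (Submodule.subset_span ⟨_, rfl⟩))
      (Submodule.subset_span ⟨_, rfl⟩)
  · rw [← Matrix.exists_vecMul_eq_zero_iff]
    refine ⟨fun k => u (i0.succAbove k), ?_, ?_⟩
    · intro h0
      apply hu
      have h1 : u i0 = 0 := by
        rw [← neg_eq_zero, ← hsum]
        apply Finset.sum_eq_zero
        intro k _
        rw [congrFun h0 k]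
        exact mul_zero _
      funext i
      rcases Fin.eq_self_or_eq_succAbove i0 i with h2 | ⟨k, h2⟩
      · rw [h2]; exact h1
      · rw [h2]; exact congrFun h0 k
    · funext l
      have h1 : ∀ z : Fin r → ℚ, ∑ k, u (i0.succAbove k) * hf G (y k) z =
          ∑ i, u i * hf G (x i) z := by
        intro z
        rw [Fin.sum_univ_succAbove _ i0]
        have h2 : ∀ k, u (i0.succAbove k) * hf G (y k) z =
            u (i0.succAbove k) * hf G (x (i0.succAbove k)) z -
              (algebraMap ℚ K (t k) * u (i0.succAbove k)) * hf G (x i0) z := by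
          intro k
          rw [hy]
          show _ * hf G ((-t k) • x i0 + x (i0.succAbove k)) z = _
          rw [hf_lin_left, map_neg]
          ring
        rw [Finset.sum_congr rfl fun k _ => h2 k, Finset.sum_sub_distrib, ← Finset.sum_mul, hsum]
        ring
      show ∑ k, u (i0.succAbove k) * hf G (y k) (y l) = 0
      rw [h1]
      have h3 : ∀ i, u i * hf G (x i) (y l) = u i * hf G (x i) (x (i0.succAbove l)) -
          algebraMap ℚ K (t l) * (u i * hf G (x i) (x i0)) := by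
        intro i
        rw [hy]
        show _ * hf G (x i) ((-t l) • x i0 + x (i0.succAbove l)) = _
        rw [hf_lin_right, map_neg]
        ring
      rw [Finset.sum_congr rfl fun k _ => h3 k, Finset.sum_sub_distrib, ← Finset.mul_sum, hker,
        hker, mul_zero, sub_zero]

end Ker

variable {p : ℕ} [hp : Fact p.Prime] {a b : ℤ}

/-- The bound for tuples with one relation. -/
def TupBd (Bh : (curve a b).Point → (curve a b).Point → ℚ_[p]) (n : ℕ) : Prop :=
  ∀ (l : ℕ) (P : Fin n → Fin l → (curve a b).Point),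
    (∀ c : Fin l → ℤ, (∀ i, lin (P i) c = 0) → c = 0) →
    ∀ R : Fin n → (curve a b).Point, LinearIndependent ℤ R → ∀ u : Fin n → ℚ_[p],
    (∀ c : Fin n → ℤ, ∑ i, (c i : ℚ_[p]) * u i = 0 → c = 0) →
    (∀ j, ∑ i, ∑ k, u i * u k * Bh (P i j) (R k) = 0) → l ≤ BN n n

/-- The tangent spaces at singular tuples have bounded rank. -/
theorem ttan_le {Bh : (curve a b).Point → (curve a b).Point → ℚ_[p]}
    (hB : IsCanonicalHeight p a b Bh) {r n : ℕ}
    {P : Fin r → (curve a b).Point} (hP : LinearIndependent ℤ P) (hbd : TupBd Bh n)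
    {x : Fin n → Fin r → ℚ} (hx : LinearIndependent ℚ x) {u : Fin n → ℚ_[p]}
    (hu : ∀ c : Fin n → ℤ, ∑ i, (c i : ℚ_[p]) * u i = 0 → c = 0)
    (hrel : ∀ v ∈ ttan (gram Bh P) x, ∑ i, ∑ j, u i * u j * hf (gram Bh P) (v i) (x j) = 0) :
    finrank ℚ (ttan (gram Bh P) x) ≤ BN n n := by
  classical
  obtain ⟨G, hGd⟩ : ∃ G, G = gram Bh P := ⟨_, rfl⟩
  rw [← hGd] at hrel ⊢
  have hG : ∀ i j, G i j = G j i := by rw [hGd]; exact gram_symm hB P
  -- the tuples as vectors
  obtain ⟨W, hW⟩ : ∃ W : Submodule ℚ (Fin n × Fin r → ℚ), W = (ttan G x).map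
    (LinearEquiv.curry ℚ ℚ (Fin n) (Fin r)).symm.toLinearMap := ⟨_, rfl⟩
  have hWf : finrank ℚ W = finrank ℚ (ttan G x) := by
    rw [hW]
    exact LinearEquiv.finrank_map_eq (LinearEquiv.curry ℚ ℚ (Fin n) (Fin r)).symm _
  rw [← hWf]
  obtain ⟨z, hz1, hz2⟩ := exists_int_span W
  have hz3 : ∀ k, (fun i j => ((z k (i, j) : ℤ) : ℚ)) ∈ ttan G x := by
    intro k
    have h1 := hz2 k
    rw [hW, Submodule.mem_map] at h1
    obtain ⟨v, hv, hv'⟩ := h1
    have h2 : v = fun i j => ((z k (i, j) : ℤ) : ℚ) := by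
      funext i j
      have := congrFun hv' (i, j)
      exact this
    rw [← h2]
    exact hv
  obtain ⟨M, hM, w, hw⟩ := clear_den fun v : Fin n × Fin r => x v.1 v.2
  have hMq : (M : ℚ) ≠ 0 := by exact_mod_cast hM
  have hwx : ∀ i, (fun j => ((w (i, j) : ℤ) : ℚ)) = (M : ℚ) • x i := by
    intro i
    funext j
    exact hw (i, j)
  have hinj : ∀ n : Fin r → ℤ, lin P n = 0 → n = 0 := by
    intro n hn
    rw [lin_apply] at hn
    funext i
    exact Fintype.linearIndependent_iff.mp hP n hn i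
  obtain ⟨R, hR⟩ : ∃ R : Fin n → (curve a b).Point, R = fun i => lin P fun j => w (i, j) :=
    ⟨_, rfl⟩
  have hRind : LinearIndependent ℤ R := by
    rw [Fintype.linearIndependent_iff]
    intro g hg
    rw [hR] at hg
    have h1 : lin P (∑ i, g i • fun j => w (i, j)) = 0 := by
      rw [map_sum, ← hg]
      exact Finset.sum_congr rfl fun i _ => map_zsmul _ _ _
    have h2 := hinj _ h1
    have h3 : ∑ i, ((g i : ℚ) * M) • x i = 0 := by
      have h4 : ∀ i, ((g i : ℚ) * M) • x i = (g i : ℚ) • fun j => ((w (i, j) : ℤ) : ℚ) := by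
        intro i
        rw [hwx, smul_smul]
      rw [Finset.sum_congr rfl fun i _ => h4 i]
      funext j
      have h5 := congrFun h2 j
      rw [Finset.sum_apply] at h5 ⊢
      simp only [Pi.smul_apply, smul_eq_mul, Pi.zero_apply] at h5 ⊢
      exact_mod_cast h5
    intro i
    have h5 := Fintype.linearIndependent_iff.mp hx _ h3 i
    have := (mul_eq_zero.mp h5).resolve_right hMq
    exact_mod_cast this
  obtain ⟨P', hP'⟩ : ∃ P' : Fin n → Fin (finrank ℚ W) → (curve a b).Point,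
    P' = fun i k => lin P fun j => z k (i, j) := ⟨_, rfl⟩
  have hlinP' : ∀ i (c : Fin (finrank ℚ W) → ℤ), lin (P' i) c =
      lin P (fun j => ∑ k, c k * z k (i, j)) := by
    intro i c
    have h1 : (fun j => ∑ k, c k * z k (i, j)) = ∑ k, c k • fun j => z k (i, j) := by
      funext j
      rw [Finset.sum_apply]
      exact Finset.sum_congr rfl fun k _ => by rw [Pi.smul_apply, smul_eq_mul]
    rw [h1, map_sum, lin_apply, hP']
    exact Finset.sum_congr rfl fun k _ => by rw [map_zsmul]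
  refine hbd _ P' ?_ R hRind u hu ?_
  · intro c hc
    apply hz1
    funext v
    obtain ⟨i, j⟩ := v
    have h1 := hc i
    rw [hlinP'] at h1
    exact congrFun (hinj _ h1) j
  · intro k
    have h1 := hrel _ (hz3 k)
    have hval : ∀ (v : Fin r → ℤ) (i : Fin n), Bh (lin P v) (R i) =
        (M : ℚ_[p]) * hf G (fun j => (v j : ℚ)) (x i) := by
      intro v i
      rw [hR]
      show Bh (lin P v) (lin P fun j => w (i, j)) = _
      rw [height_lin hB, ← hGd, hwx, hf_smul_right hG, map_intCast]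
    rw [hP']
    simp only [hval]
    have h2 : (M : ℚ_[p]) * ∑ i, ∑ j, u i * u j *
        hf G ((fun i j => ((z k (i, j) : ℤ) : ℚ)) i) (x j) = 0 := by rw [h1, mul_zero]
    rw [← h2, Finset.mul_sum]
    refine Finset.sum_congr rfl fun i _ => ?_
    rw [Finset.mul_sum]
    refine Finset.sum_congr rfl fun j _ => ?_
    ring

/-- The step of the induction. -/
theorem tuple_step {Bh : (curve a b).Point → (curve a b).Point → ℚ_[p]}
    (hB : IsCanonicalHeight p a b Bh) {r n m : ℕ}
    {P : Fin r → (curve a b).Point} (hP : LinearIndependent ℤ P) (hn : 1 ≤ n)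
    (hbd : TupBd Bh (n + 1)) (hm : (n + 1) ^ 2 * (n + 1 + 5) ≤ 2 * m) :
    ∃ F : MvPolynomial (Fin m × Fin r) ℚ, F ≠ 0 ∧ ∀ φ : Fin m × Fin r → ℚ,
      MvPolynomial.eval φ F ≠ 0 → ∀ x : Fin (n + 1) → Fin r → ℚ, LinearIndependent ℚ x →
        (∀ e j, ∑ i, φ (j, i) * x e i = 0) →
        (∀ y : Fin n → Fin r → ℚ, LinearIndependent ℚ y →
          (∀ i, y i ∈ Submodule.span ℚ (Set.range x)) → (tgram (gram Bh P) y).det ≠ 0) →
        (tgram (gram Bh P) x).det ≠ 0 := by
  have hG : ∀ i j, gram Bh P i j = gram Bh P j i := gram_symm hB P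
  refine tuple_generic (gram Bh P) hG (m := m) (fun x => ∀ y : Fin n → Fin r → ℚ,
    LinearIndependent ℚ y → (∀ i, y i ∈ Submodule.span ℚ (Set.range x)) →
      (tgram (gram Bh P) y).det ≠ 0) ?_
  intro x hx hS h0
  obtain ⟨u, hu, hker, hrel⟩ := ttan_ker hG h0 (adj_ne hx hS)
  refine (ttan_le hB hP hbd hx (u := u) ?_ hrel).trans_lt (BN_lt (by omega) hm)
  intro c hc
  have h1 := indep_ker hx hG hS hu hker (c := fun i => (c i : ℚ)) (by
    rw [← hc]
    refine Finset.sum_congr rfl fun i _ => ?_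
    rw [map_intCast])
  funext i
  have h2 : ((c i : ℤ) : ℚ) = 0 := congrFun h1 i
  show c i = 0
  exact_mod_cast h2

/-- Generic rational subspaces contain no singular tuples. -/
theorem tuple_rat (hp5 : 5 ≤ p) (hΔ : 4 * a ^ 3 + 27 * b ^ 2 ≠ 0)
    {Bh : (curve a b).Point → (curve a b).Point → ℚ_[p]}
    (hB : IsCanonicalHeight p a b Bh) {r : ℕ}
    {P : Fin r → (curve a b).Point} (hP : LinearIndependent ℤ P)
    (hbd : ∀ n, 2 ≤ n → TupBd Bh n) {m : ℕ} (n : ℕ) (hn : 1 ≤ n)
    (hm : n ^ 2 * (n + 5) ≤ 2 * m) :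
    ∃ F : MvPolynomial (Fin m × Fin r) ℚ, F ≠ 0 ∧ ∀ φ : Fin m × Fin r → ℚ,
      MvPolynomial.eval φ F ≠ 0 → ∀ k ≤ n, ∀ x : Fin k → Fin r → ℚ, LinearIndependent ℚ x →
        (∀ e j, ∑ i, φ (j, i) * x e i = 0) → (tgram (gram Bh P) x).det ≠ 0 := by
  induction n with
  | zero => omega
  | succ n ih =>
    rcases Nat.eq_zero_or_pos n with hn0 | hn0
    · subst hn0
      have hm3 : 3 ≤ m := by
        norm_num at hm
        omega
      obtain ⟨F, hF, h⟩ := iso_generic (gram Bh P) (gram_symm hB P) (m := m)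
        (fun x hx h0 => (perp_finrank hp5 hΔ hB hP x hx h0).trans hm3)
      refine ⟨F, hF, fun φ hφ k hk x hx hxφ => ?_⟩
      rcases Nat.eq_zero_or_pos k with hk0 | hk0
      · subst hk0
        rw [Matrix.det_isEmpty]
        exact one_ne_zero
      · obtain rfl : k = 1 := by omega
        rw [Matrix.det_unique]
        exact h φ hφ (x default) (hx.ne_zero _) (fun j => hxφ _ j)
    · have hm' : n ^ 2 * (n + 5) ≤ 2 * m := by
        refine le_trans ?_ hm
        exact Nat.mul_le_mul (Nat.pow_le_pow_left (by omega) 2) (by omega)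
      obtain ⟨F₁, hF₁, h₁⟩ := ih hn0 hm'
      obtain ⟨F₂, hF₂, h₂⟩ := tuple_step hB hP hn0 (hbd (n + 1) (by omega)) hm
      refine ⟨F₁ * F₂, mul_ne_zero hF₁ hF₂, fun φ hφ k hk x hx hxφ => ?_⟩
      rw [map_mul] at hφ
      have hφ1 := left_ne_zero_of_mul hφ
      have hφ2 := right_ne_zero_of_mul hφ
      rcases Nat.lt_or_ge k (n + 1) with hk1 | hk1
      · exact h₁ φ hφ1 k (by omega) x hx hxφ
      · obtain rfl : k = n + 1 := by omega
        refine h₂ φ hφ2 x hx hxφ fun y hy hyx => h₁ φ hφ1 n le_rfl y hy fun e j => ?_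
        have h3 : Submodule.span ℚ (Set.range x) ≤
            LinearMap.ker (Fintype.linearCombination ℚ (fun i => φ (j, i)) :
              (Fin r → ℚ) →ₗ[ℚ] ℚ) := by
          rw [Submodule.span_le]
          rintro _ ⟨e', rfl⟩
          show Fintype.linearCombination ℚ (fun i => φ (j, i)) (x e') = 0
          rw [Fintype.linearCombination_apply, ← hxφ e' j]
          exact Finset.sum_congr rfl fun i _ => by rw [smul_eq_mul, mul_comm]
        have h4 := h3 (hyx e)
        rw [LinearMap.mem_ker, Fintype.linearCombination_apply] at h4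
        rw [← h4]
        exact Finset.sum_congr rfl fun i _ => by rw [smul_eq_mul, mul_comm]

/-- Generic subgroups contain no singular tuples, from the bound. -/
theorem tuple_forms_of (hp5 : 5 ≤ p) (hΔ : 4 * a ^ 3 + 27 * b ^ 2 ≠ 0)
    {Bh : (curve a b).Point → (curve a b).Point → ℚ_[p]}
    (hB : IsCanonicalHeight p a b Bh) {r : ℕ}
    {P : Fin r → (curve a b).Point} (hP : LinearIndependent ℤ P)
    (hbd : ∀ n, 2 ≤ n → TupBd Bh n) {m : ℕ} {n : ℕ} (hn : 1 ≤ n)
    (hm : n ^ 2 * (n + 5) ≤ 2 * m) :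
    ∃ F : MvPolynomial (Fin m × Fin r) ℚ, F ≠ 0 ∧ ∀ φ : Fin m × Fin r → ℤ,
      MvPolynomial.eval (fun v => (φ v : ℚ)) F ≠ 0 → ∀ k ≤ n, ∀ x : Fin k → Fin r → ℤ,
        LinearIndependent ℤ x → (∀ e j, ∑ i, φ (j, i) * x e i = 0) →
          (Matrix.of fun e e' => Bh (∑ i, x e i • P i) (∑ i, x e' i • P i)).det ≠ 0 := by
  classical
  obtain ⟨F, hF, h⟩ := tuple_rat hp5 hΔ hB hP hbd n hn hm
  refine ⟨F, hF, fun φ hφ k hk x hx hxφ => ?_⟩
  have hx' : LinearIndependent ℚ fun e i => (x e i : ℚ) := by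
    rw [Fintype.linearIndependent_iff]
    intro g hg
    obtain ⟨N, hN, z, hz⟩ := clear_den g
    have hNq : (N : ℚ) ≠ 0 := by exact_mod_cast hN
    have h3 : ∑ e, z e • x e = 0 := by
      funext i
      have h4 := congrFun hg i
      rw [Finset.sum_apply] at h4 ⊢
      simp only [Pi.smul_apply, smul_eq_mul, Pi.zero_apply] at h4 ⊢
      have h5 : ((∑ e, z e * x e i : ℤ) : ℚ) = 0 := by
        push_cast
        rw [← mul_zero (N : ℚ), ← h4, Finset.mul_sum]
        refine Finset.sum_congr rfl fun e _ => ?_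
        rw [hz]
        ring
      exact_mod_cast h5
    intro e
    have h6 := Fintype.linearIndependent_iff.mp hx z h3 e
    have h7 := hz e
    rw [h6, Int.cast_zero] at h7
    exact (mul_eq_zero.mp h7.symm).resolve_left hNq
  have h8 := h (fun v => (φ v : ℚ)) hφ k hk (fun e i => (x e i : ℚ)) hx'
    (fun e j => by exact_mod_cast hxφ e j)
  have h9 : tgram (gram Bh P) (fun e i => (x e i : ℚ)) =
      Matrix.of fun e e' => Bh (∑ i, x e i • P i) (∑ i, x e' i • P i) := by
    ext e e'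
    show hf (gram Bh P) _ _ = Bh _ _
    rw [← height_lin hB P (x e) (x e'), lin_apply, lin_apply]
  rw [h9] at h8
  exact h8

/-- Generic subgroups contain no singular tuples. -/
theorem tuple_forms (hp5 : 5 ≤ p) (hΔ : 4 * a ^ 3 + 27 * b ^ 2 ≠ 0)
    {Bh : (curve a b).Point → (curve a b).Point → ℚ_[p]}
    (hB : IsCanonicalHeight p a b Bh) {r : ℕ}
    {P : Fin r → (curve a b).Point} (hP : LinearIndependent ℤ P) {n m : ℕ}
    (hm : n ^ 2 * (n + 5) ≤ 2 * m) :
    ∃ F : MvPolynomial (Fin m × Fin r) ℚ, F ≠ 0 ∧ ∀ φ : Fin m × Fin r → ℤ,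
      MvPolynomial.eval (fun v => (φ v : ℚ)) F ≠ 0 → ∀ k ≤ n, ∀ x : Fin k → Fin r → ℤ,
        LinearIndependent ℤ x → (∀ e j, ∑ i, φ (j, i) * x e i = 0) →
          (Matrix.of fun e e' => Bh (∑ i, x e i • P i) (∑ i, x e' i • P i)).det ≠ 0 := by
  rcases Nat.eq_zero_or_pos n with hn | hn
  · subst hn
    refine ⟨1, one_ne_zero, fun φ _ k hk x _ _ => ?_⟩
    obtain rfl : k = 0 := by omega
    rw [Matrix.det_isEmpty]
    exact one_ne_zero
  · exact tuple_forms_of hp5 hΔ hB hP (fun n' hn' l P hindP R hR u hu hrel =>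
      tuple_bound' (densityH (by omega)) hp5 hΔ hB hn' hindP hR hu hrel) hn hm

end MP3550b5.RG
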