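import Mathlib
import Pool.Agent.Lib.MP_3550b5_nt.Iso.Height
import Pool.Agent.Lib.MP_3550b5_nt.RG.Final

/-!
Regulators with one more point.
-/

namespace MP3550b5.RG

open Pool.Agent.Lib.MP_3550b5_nt Pool.Agent.Lib.MP_3550b5_nt.Iso WeierstrassCurve.Affine Module

/-- Integral vectors spanning the rational orthogonal space of an isotropic vector. -/
lemma exists_int_basis {K : Type} [Field K] [Algebra ℚ K] {r : ℕ} (G : Matrix (Fin r) (Fin r) K)
    (x : Fin r → ℚ) (h0 : hf G x x = 0) :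
    ∃ (z : Fin (finrank ℚ (perp G x)) → Fin r → ℤ) (w : Fin (finrank ℚ (perp G x)) → ℤ) (c : ℚ),
      c ≠ 0 ∧ (∀ n : Fin (finrank ℚ (perp G x)) → ℤ, (fun i => ∑ k, n k * z k i) = 0 → n = 0) ∧
      (∀ k, hf G (fun i => (z k i : ℚ)) x = 0) ∧
      ∀ i, ((∑ k, w k * z k i : ℤ) : ℚ) = c * x i := by
  classical
  obtain ⟨d, hd⟩ : ∃ d, d = finrank ℚ (perp G x) := ⟨_, rfl⟩
  rw [← hd]
  obtain ⟨e⟩ : Nonempty (Basis (Fin d) ℚ (perp G x)) := ⟨finBasisOfFinrankEq ℚ (perp G x) hd.symm⟩
  have hxp : x ∈ perp G x := mem_perp.2 h0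
  obtain ⟨N, hN, z, hz⟩ := clear_den fun v : Fin d × Fin r => (e v.1 : Fin r → ℚ) v.2
  obtain ⟨M, hM, w, hw⟩ := clear_den fun k : Fin d => e.repr ⟨x, hxp⟩ k
  have hNq : (N : ℚ) ≠ 0 := by exact_mod_cast hN
  have hMq : (M : ℚ) ≠ 0 := by exact_mod_cast hM
  have hcomb : ∀ c : Fin d → ℤ, (fun i => ((∑ k, c k * z (k, i) : ℤ) : ℚ)) =
      (N : ℚ) • ((∑ k, (c k : ℚ) • e k : perp G x) : Fin r → ℚ) := by
    intro c
    funext i
    rw [Submodule.coe_sum, Pi.smul_apply, Finset.sum_apply, smul_eq_mul, Finset.mul_sum]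
    push_cast
    refine Finset.sum_congr rfl fun k _ => ?_
    have h1 := hz (k, i)
    rw [h1, Pi.smul_apply, smul_eq_mul]
    ring
  refine ⟨fun k i => z (k, i), w, (N : ℚ) * M, mul_ne_zero hNq hMq, ?_, ?_, ?_⟩
  · intro n hn
    have h2 := hcomb n
    have h3 : (fun i => ((∑ k, n k * z (k, i) : ℤ) : ℚ)) = 0 := by
      funext i
      have := congrFun hn i
      simp only [Pi.zero_apply] at this ⊢
      rw [this]
      simp
    rw [h3] at h2
    have h4 : (∑ k, (n k : ℚ) • e k : perp G x) = 0 := by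
      apply Subtype.ext
      rcases smul_eq_zero.1 h2.symm with h5 | h5
      · exact absurd h5 hNq
      · exact h5
    funext k
    have h6 := Fintype.linearIndependent_iff.mp e.linearIndependent (fun k => (n k : ℚ)) h4 k
    exact_mod_cast h6
  · intro k
    have h1 : (fun i => ((z (k, i) : ℤ) : ℚ)) = (N : ℚ) • (e k : Fin r → ℚ) := by
      funext i
      exact hz (k, i)
    rw [h1, ← mem_perp]
    exact Submodule.smul_mem _ _ (e k).2
  · intro i
    have h1 := congrFun (hcomb w) i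
    refine h1.trans ?_
    have h2 : (∑ k, (w k : ℚ) • e k : perp G x) = (M : ℚ) • ⟨x, hxp⟩ := by
      have h3 : ∀ k, (w k : ℚ) • e k = (M : ℚ) • (e.repr ⟨x, hxp⟩ k • e k) := by
        intro k
        rw [hw, smul_smul]
      rw [Finset.sum_congr rfl fun k _ => h3 k, ← Finset.smul_sum, e.sum_repr]
    rw [h2, Pi.smul_apply, Submodule.coe_smul, Pi.smul_apply, smul_eq_mul, smul_eq_mul, mul_assoc]

variable {p : ℕ} [hp : Fact p.Prime] {a b : ℤ}

/-- The bordered determinant. -/
noncomputable def bord (Bh : (curve a b).Point → (curve a b).Point → ℚ_[p]) {t : ℕ}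
    (T : Fin t → (curve a b).Point) (Y X : (curve a b).Point) : ℚ_[p] :=
  (Matrix.of fun i j : Fin (t + 1) => Bh ((Fin.cons Y T : Fin (t + 1) → (curve a b).Point) i)
    ((Fin.cons X T : Fin (t + 1) → (curve a b).Point) j)).det

/-- The coefficients of the expansion along the first row. -/
noncomputable def cof (Bh : (curve a b).Point → (curve a b).Point → ℚ_[p]) {t : ℕ}
    (T : Fin t → (curve a b).Point) (X : (curve a b).Point) (j : Fin (t + 1)) : ℚ_[p] :=
  (-1) ^ (j : ℕ) * ((Matrix.of fun (i : Fin t) (j : Fin (t + 1)) => Bh (T i)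
    ((Fin.cons X T : Fin (t + 1) → (curve a b).Point) j)).submatrix id j.succAbove).det

lemma bord_eq (Bh : (curve a b).Point → (curve a b).Point → ℚ_[p]) {t : ℕ}
    (T : Fin t → (curve a b).Point) (Y X : (curve a b).Point) :
    bord Bh T Y X = ∑ j, cof Bh T X j *
      Bh Y ((Fin.cons X T : Fin (t + 1) → (curve a b).Point) j) := by
  rw [bord, Matrix.det_succ_row_zero]
  refine Finset.sum_congr rfl fun j _ => ?_
  rw [cof, Matrix.of_apply, Fin.cons_zero]
  have h1 : (Matrix.of fun i j : Fin (t + 1) =>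
      Bh ((Fin.cons Y T : Fin (t + 1) → (curve a b).Point) i)
        ((Fin.cons X T : Fin (t + 1) → (curve a b).Point) j)).submatrix Fin.succ j.succAbove =
      (Matrix.of fun (i : Fin t) (j : Fin (t + 1)) => Bh (T i)
        ((Fin.cons X T : Fin (t + 1) → (curve a b).Point) j)).submatrix id j.succAbove := by
    ext i k
    simp [Matrix.submatrix_apply, Matrix.of_apply]
  rw [h1]
  ring

lemma cof_zero (Bh : (curve a b).Point → (curve a b).Point → ℚ_[p]) {t : ℕ}
    (T : Fin t → (curve a b).Point) (X : (curve a b).Point) :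
    cof Bh T X 0 = (Matrix.of fun i j => Bh (T i) (T j)).det := by
  rw [cof]
  simp only [Fin.val_zero, pow_zero, one_mul]
  congr 1

variable {Bh : (curve a b).Point → (curve a b).Point → ℚ_[p]}

lemma bord_symm (hB : IsCanonicalHeight p a b Bh) {t : ℕ} (T : Fin t → (curve a b).Point)
    (Y X : (curve a b).Point) : bord Bh T Y X = bord Bh T X Y := by
  rw [bord, bord, ← Matrix.det_transpose]
  congr 1
  ext i j
  rw [Matrix.transpose_apply, Matrix.of_apply, Matrix.of_apply]
  exact hB.symm _ _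

lemma bord_self {t : ℕ} (T : Fin t → (curve a b).Point)
    (l : Fin t) (X : (curve a b).Point) : bord Bh T (T l) X = 0 := by
  rw [bord]
  refine Matrix.det_zero_of_row_eq (i := 0) (j := l.succ) (Fin.succ_ne_zero l).symm ?_
  funext j
  rw [Matrix.of_apply, Matrix.of_apply, Fin.cons_zero, Fin.cons_succ]

lemma bord_lin (hB : IsCanonicalHeight p a b Bh) {t r : ℕ} (T : Fin t → (curve a b).Point)
    (R : Fin r → (curve a b).Point) (n : Fin r → ℤ) (X : (curve a b).Point) :
    bord Bh T (lin R n) X = ∑ i, (n i : ℚ_[p]) * bord Bh T (R i) X := by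
  rw [bord_eq, lin_apply]
  have h1 : ∀ i, bord Bh T (R i) X = ∑ j, cof Bh T X j *
      Bh (R i) ((Fin.cons X T : Fin (t + 1) → (curve a b).Point) j) := fun i => bord_eq _ _ _ _
  simp only [h1]
  have h2 : ∀ j, cof Bh T X j * Bh (∑ i, n i • R i)
      ((Fin.cons X T : Fin (t + 1) → (curve a b).Point) j) = ∑ i, (n i : ℚ_[p]) *
        (cof Bh T X j * Bh (R i) ((Fin.cons X T : Fin (t + 1) → (curve a b).Point) j)) := by
    intro j
    rw [hB.sum, Finset.mul_sum]
    refine Finset.sum_congr rfl fun i _ => ?_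
    rw [hB.zsmul]
    ring
  simp only [h2]
  rw [Finset.sum_comm]
  refine Finset.sum_congr rfl fun i _ => ?_
  rw [← Finset.mul_sum]

/-- The matrix of the form. -/
noncomputable def bmat (Bh : (curve a b).Point → (curve a b).Point → ℚ_[p]) {t r : ℕ}
    (T : Fin t → (curve a b).Point) (R : Fin r → (curve a b).Point) :
    Matrix (Fin r) (Fin r) ℚ_[p] :=
  Matrix.of fun i j => bord Bh T (R i) (R j)

lemma bmat_symm (hB : IsCanonicalHeight p a b Bh) {t r : ℕ} (T : Fin t → (curve a b).Point)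
    (R : Fin r → (curve a b).Point) (i j : Fin r) : bmat Bh T R i j = bmat Bh T R j i :=
  bord_symm hB T _ _

lemma bord_hf (hB : IsCanonicalHeight p a b Bh) {t r : ℕ} (T : Fin t → (curve a b).Point)
    (R : Fin r → (curve a b).Point) (n n' : Fin r → ℤ) :
    bord Bh T (lin R n) (lin R n') =
      hf (bmat Bh T R) (fun i => (n i : ℚ)) (fun i => (n' i : ℚ)) := by
  rw [bord_lin hB]
  unfold hf
  refine Finset.sum_congr rfl fun i _ => ?_
  rw [bord_symm hB, bord_lin hB, Finset.mul_sum]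
  refine Finset.sum_congr rfl fun j _ => ?_
  rw [map_mul]
  have h1 : ∀ k : ℤ, algebraMap ℚ ℚ_[p] (k : ℚ) = (k : ℚ_[p]) := fun k => by simp
  rw [h1, h1, bord_symm hB]
  show _ = _ * _ * bord Bh T (R i) (R j)
  ring

/-- The corank theorem for a family with any finite index type. -/
lemma kernel_le' (hp5 : 5 ≤ p) (hΔ : 4 * a ^ 3 + 27 * b ^ 2 ≠ 0)
    (hB : IsCanonicalHeight p a b Bh) {ι : Type} [Fintype ι] {s k : ℕ}
    {P : ι → (curve a b).Point} (hP : LinearIndependent ℤ P)
    {Q : Fin s → (curve a b).Point} (hQ : LinearIndependent ℤ Q) {u : Fin k → Fin s → ℚ_[p]}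
    (hu : LinearIndependent ℚ_[p] u) (h0 : ∀ i l, ∑ j, u i j * Bh (P l) (Q j) = 0)
    (hQP : ∀ j, Q j ∈ Submodule.span ℤ (Set.range P)) :
    k * Fintype.card ι ≤ (s + 1) * (s + 2 - k) := by
  obtain ⟨e⟩ : Nonempty (Fin (Fintype.card ι) ≃ ι) := ⟨(Fintype.equivFin ι).symm⟩
  refine (kernel_le hp5 hΔ hB (P := P ∘ e) (hP.comp e e.injective) hQ hu
    (fun i l => h0 i (e l)) fun j => ?_).2
  rw [Set.range_comp, e.range_eq_univ, Set.image_univ]
  exact hQP j

/-- The rational orthogonal spaces of the bordered form. -/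
theorem perp_bord (hp5 : 5 ≤ p) (hΔ : 4 * a ^ 3 + 27 * b ^ 2 ≠ 0)
    (hB : IsCanonicalHeight p a b Bh) {t r : ℕ} {T : Fin t → (curve a b).Point}
    {R : Fin r → (curve a b).Point} (hTR : LinearIndependent ℤ (Sum.elim T R))
    (hreg : (Matrix.of fun i j => Bh (T i) (T j)).det ≠ 0) (x : Fin r → ℚ) (hx : x ≠ 0)
    (h0 : hf (bmat Bh T R) x x = 0) :
    finrank ℚ (perp (bmat Bh T R) x) + t ≤ (t + 2) ^ 2 := by
  classical
  obtain ⟨z, w, c, hc, hz1, hz2, hz3⟩ := exists_int_basis (bmat Bh T R) x h0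
  obtain ⟨d, hd⟩ : ∃ d, d = finrank ℚ (perp (bmat Bh T R) x) := ⟨_, rfl⟩
  revert z w
  rw [← hd]
  intro z w hz1 hz2 hz3
  -- independence in integral form
  have hind : ∀ (m : Fin t → ℤ) (n : Fin r → ℤ), ∑ l, m l • T l + lin R n = 0 →
      m = 0 ∧ n = 0 := by
    intro m n h
    have h1 := Fintype.linearIndependent_iff.mp hTR (Sum.elim m n) (by
      rw [Fintype.sum_sum_type]
      simp only [Sum.elim_inl, Sum.elim_inr]
      rw [← lin_apply]
      exact h)
    exact ⟨funext fun l => h1 (Sum.inl l), funext fun i => h1 (Sum.inr i)⟩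
  obtain ⟨X, hX⟩ : ∃ X : Fin r → ℤ, X = fun i => ∑ k, w k * z k i := ⟨_, rfl⟩
  have hX0 : X ≠ 0 := by
    intro h
    apply hx
    funext i
    have h1 := hz3 i
    have h2 : ∑ k, w k * z k i = 0 := by
      have := congrFun h i
      rw [hX] at this
      exact this
    rw [h2, Int.cast_zero] at h1
    exact (mul_eq_zero.mp h1.symm).resolve_left hc
  have hlin : ∀ n : Fin d → ℤ, ∑ k, n k • lin R (z k) = lin R (fun i => ∑ k, n k * z k i) := by
    intro n
    have h1 : (fun i => ∑ k, n k * z k i) = ∑ k, n k • z k := by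
      funext i
      rw [Finset.sum_apply]
      exact Finset.sum_congr rfl fun k _ => by rw [Pi.smul_apply, smul_eq_mul]
    rw [h1, map_sum]
    exact Finset.sum_congr rfl fun k _ => by rw [map_zsmul]
  -- the family `P`
  have hP : LinearIndependent ℤ (Sum.elim T fun k => lin R (z k)) := by
    rw [Fintype.linearIndependent_iff]
    intro g hg
    rw [Fintype.sum_sum_type] at hg
    simp only [Sum.elim_inl, Sum.elim_inr] at hg
    rw [hlin] at hg
    obtain ⟨h1, h2⟩ := hind _ _ hg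
    have h3 := hz1 _ h2
    rintro (l | k)
    · exact congrFun h1 l
    · exact congrFun h3 k
  -- the family `Q`
  have hQ : LinearIndependent ℤ (Fin.cons (lin R X) T : Fin (t + 1) → (curve a b).Point) := by
    rw [Fintype.linearIndependent_iff]
    intro g hg
    rw [Fin.sum_univ_succ] at hg
    simp only [Fin.cons_zero, Fin.cons_succ] at hg
    rw [add_comm, ← map_zsmul] at hg
    obtain ⟨h1, h2⟩ := hind _ _ hg
    have h3 : g 0 = 0 := by
      by_contra h
      exact hX0 ((smul_eq_zero.1 h2).resolve_left h)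
    intro i
    refine Fin.cases h3 (fun l => congrFun h1 l) i
  have hQP : ∀ j, (Fin.cons (lin R X) T : Fin (t + 1) → (curve a b).Point) j ∈
      Submodule.span ℤ (Set.range (Sum.elim T fun k => lin R (z k))) := by
    intro j
    refine Fin.cases ?_ (fun l => ?_) j
    · rw [Fin.cons_zero, hX, ← hlin]
      exact Submodule.sum_mem _ fun k _ =>
        Submodule.smul_mem _ _ (Submodule.subset_span ⟨Sum.inr k, rfl⟩)
    · rw [Fin.cons_succ]
      exact Submodule.subset_span ⟨Sum.inl l, rfl⟩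
  have hu : LinearIndependent ℚ_[p] (fun _ : Fin 1 => cof Bh T (lin R X)) := by
    rw [linearIndependent_unique_iff]
    intro h
    apply hreg
    rw [← cof_zero Bh T (lin R X)]
    exact congrFun h 0
  have key := kernel_le' hp5 hΔ hB hP hQ hu ?_ hQP
  · rw [Fintype.card_sum, Fintype.card_fin, Fintype.card_fin] at key
    have e1 : t + 1 + 2 - 1 = t + 2 := by omega
    rw [e1] at key
    nlinarith
  · intro i l
    rw [← bord_eq]
    rcases l with l | k
    · exact bord_self T l _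
    · show bord Bh T (lin R (z k)) (lin R X) = 0
      rw [bord_hf hB]
      have h1 : (fun i => ((X i : ℤ) : ℚ)) = c • x := by
        funext i
        rw [hX]
        exact hz3 i
      rw [h1, hf_symm (bmat_symm hB T R)]
      have h2 := (hfL (bmat Bh T R) (fun i => (z k i : ℚ))).map_smul c x
      have h3 : hf (bmat Bh T R) (c • x) (fun i => (z k i : ℚ)) =
          c • hf (bmat Bh T R) x (fun i => (z k i : ℚ)) := h2
      rw [h3, hf_symm (bmat_symm hB T R), hz2 k, smul_zero]

lemma perp_bord' (hp5 : 5 ≤ p) (hΔ : 4 * a ^ 3 + 27 * b ^ 2 ≠ 0)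
    (hB : IsCanonicalHeight p a b Bh) {t r m : ℕ} {T : Fin t → (curve a b).Point}
    {R : Fin r → (curve a b).Point} (hTR : LinearIndependent ℤ (Sum.elim T R))
    (hreg : (Matrix.of fun i j => Bh (T i) (T j)).det ≠ 0)
    (hm : t ^ 2 + 3 * t + 4 ≤ m ∨ (t = 0 ∧ 3 ≤ m)) (x : Fin r → ℚ) (hx : x ≠ 0)
    (h0 : hf (bmat Bh T R) x x = 0) :
    finrank ℚ (perp (bmat Bh T R) x) ≤ m := by
  rcases hm with hm | ⟨ht, hm⟩
  · have h := perp_bord hp5 hΔ hB hTR hreg x hx h0
    nlinarith
  · subst ht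
    have h1 : bmat Bh T R = gram Bh R := by
      ext i j
      rw [bmat, gram, Matrix.of_apply, Matrix.of_apply, bord, Matrix.det_fin_one,
        Matrix.of_apply, Fin.cons_zero, Fin.cons_zero]
    have hR : LinearIndependent ℤ R := hTR.comp Sum.inr Sum.inr_injective
    rw [h1] at h0 ⊢
    exact (perp_finrank hp5 hΔ hB hR x hx h0).trans hm

/-- Generic subgroups of small corank: adding one point to a family with nonzero regulator. -/
theorem reg_forms (hp5 : 5 ≤ p) (hΔ : 4 * a ^ 3 + 27 * b ^ 2 ≠ 0)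
    (hB : IsCanonicalHeight p a b Bh) {t r m : ℕ} {T : Fin t → (curve a b).Point}
    {R : Fin r → (curve a b).Point} (hTR : LinearIndependent ℤ (Sum.elim T R))
    (hreg : (Matrix.of fun i j => Bh (T i) (T j)).det ≠ 0)
    (hm : t ^ 2 + 3 * t + 4 ≤ m ∨ (t = 0 ∧ 3 ≤ m)) :
    ∃ F : MvPolynomial (Fin m × Fin r) ℚ, F ≠ 0 ∧
      ∀ φ : Fin m × Fin r → ℤ, MvPolynomial.eval (fun v => (φ v : ℚ)) F ≠ 0 →
        ∀ x : Fin r → ℤ, x ≠ 0 → (∀ j, ∑ i, φ (j, i) * x i = 0) →
          bord Bh T (∑ i, x i • R i) (∑ i, x i • R i) ≠ 0 := by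
  obtain ⟨F, hF, h⟩ := iso_generic (bmat Bh T R) (bmat_symm hB T R)
    (m := m) (fun x hx h0 => perp_bord' hp5 hΔ hB hTR hreg hm x hx h0)
  refine ⟨F, hF, fun φ hφ x hx hφx => ?_⟩
  have h1 := h (fun v => (φ v : ℚ)) hφ (fun i => (x i : ℚ))
    (by
      intro h0
      apply hx
      funext i
      have := congrFun h0 i
      simpa using this)
    (fun j => by exact_mod_cast hφx j)
  rwa [← bord_hf hB T R x x, lin_apply] at h1

/-- Most points of a grid enlarge a family with nonzero regulator. -/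
theorem reg_grid (hp5 : 5 ≤ p) (hΔ : 4 * a ^ 3 + 27 * b ^ 2 ≠ 0)
    (hB : IsCanonicalHeight p a b Bh) {t r m : ℕ} {T : Fin t → (curve a b).Point}
    {R : Fin r → (curve a b).Point} (hTR : LinearIndependent ℤ (Sum.elim T R))
    (hreg : (Matrix.of fun i j => Bh (T i) (T j)).det ≠ 0)
    (hm : t ^ 2 + 3 * t + 4 ≤ m ∨ (t = 0 ∧ 3 ≤ m)) (S : Finset ℤ) (hS : S.Nonempty) :
    {x : Fin r → ℤ | (∀ i, x i ∈ S) ∧ x ≠ 0 ∧
      bord Bh T (∑ i, x i • R i) (∑ i, x i • R i) = 0}.ncard ≤
        2 ^ r * (r.factorial * 2 ^ (r - m)) * S.card ^ m := by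
  classical
  obtain ⟨A, hA⟩ : ∃ A : Set (Fin r → ℤ), A = {x | (∀ i, x i ∈ S) ∧ x ≠ 0 ∧
    bord Bh T (∑ i, x i • R i) (∑ i, x i • R i) = 0} := ⟨_, rfl⟩
  rw [← hA]
  have hfin : A.Finite := by
    refine (Fintype.piFinset fun _ : Fin r => S).finite_toSet.subset fun x hx => ?_
    rw [hA] at hx
    rw [Finset.mem_coe, Fintype.mem_piFinset]
    exact hx.1
  let c : (Fin r → ℤ) → (Fin r → ℚ) := fun x i => (x i : ℚ)
  have hc : Function.Injective c := by
    intro x y h
    funext i
    have := congrFun h i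
    simp only [c] at this
    exact_mod_cast this
  have h := iso_count (bmat Bh T R) (bmat_symm hB T R) (m := m)
    (fun x hx h0 => perp_bord' hp5 hΔ hB hTR hreg hm x hx h0)
    (S.map ⟨fun z : ℤ => (z : ℚ), Int.cast_injective⟩) (by simpa using hS)
    (hfin.toFinset.map ⟨c, hc⟩) (by
      intro y hy
      rw [Finset.mem_map] at hy
      obtain ⟨x, hx, rfl⟩ := hy
      rw [Set.Finite.mem_toFinset, hA] at hx
      obtain ⟨h1, h2, h3⟩ := hx
      refine ⟨fun i => ?_, ?_, ?_⟩
      · rw [Finset.mem_map]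
        exact ⟨x i, h1 i, rfl⟩
      · intro h0
        apply h2
        apply hc
        rw [show c x = 0 from h0]
        funext i
        simp [c]
      · rw [← lin_apply, bord_hf hB] at h3
        exact h3)
  rw [Finset.card_map, Finset.card_map] at h
  rwa [Set.ncard_eq_toFinset_card A hfin]

end MP3550b5.RG
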