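import Mathlib
import Pool.Agent.Lib.MP_3550b5_nt.RG.Dens

/-!
The `p`-adic first order relation at a point of an orbit of a subgroup.
-/

namespace MP3550b5.RG

open Pool.Agent.Lib.MP_3550b5_nt WeierstrassCurve.Affine

variable {p : ℕ} [hp : Fact p.Prime] {a b : ℤ} {n : ℕ}

/-- The increment of the abscissa. -/
lemma dens_incr (hp3 : 3 ≤ p) {R γ : (curve a b).Point} (hR0 : R ≠ 0) (hγ : Ker p γ) {M : ℝ}
    (hM1 : 1 ≤ M) (hx : ‖((ptX R : ℚ) : ℚ_[p])‖ ≤ M) (hy : ‖((ptY R : ℚ) : ℚ_[p])‖ ≤ M) {k : ℕ}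
    {ε : ℝ} (hε : ε = ((p : ℝ)⁻¹) ^ k) (hMε : M * ε < 1) :
    Ker p (p ^ k • γ) ∧ ‖tt p (p ^ k • γ)‖ ≤ ε ∧
      ‖((ptX (R + p ^ k • γ) : ℚ) : ℚ_[p]) - ((ptX R : ℚ) : ℚ_[p]) +
        2 * ((ptY R : ℚ) : ℚ_[p]) * tt p (p ^ k • γ)‖ ≤ M ^ 3 * ε ^ 2 := by
  have hp1 : (1 : ℝ) < p := by exact_mod_cast hp.out.one_lt
  have hε0 : 0 < ε := by rw [hε]; positivity
  have hε1 : ε ≤ 1 := by
    rw [hε]
    exact pow_le_one₀ (by positivity) (inv_le_one_of_one_le₀ hp1.le)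
  rcases hγ with rfl | hγ
  · rw [nsmul_zero, tt_zero, norm_zero, add_zero, sub_self, mul_zero, add_zero, norm_zero]
    exact ⟨Or.inl rfl, hε0.le, by positivity⟩
  · obtain ⟨h1, h2⟩ := dens_scale hp3 hγ k
    obtain ⟨t1, t2, -⟩ := tt_pos hγ
    have h3 : ‖tt p γ‖ ≤ 1 := by
      by_contra hcon
      push Not at hcon
      have : (1 : ℝ) < ‖tt p γ‖ ^ 2 := one_lt_pow₀ hcon two_ne_zero
      linarith
    have h4 : ‖tt p (p ^ k • γ)‖ ≤ ε := by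
      rw [h2, ← hε]
      calc ε * ‖tt p γ‖ ≤ ε * 1 := mul_le_mul_of_nonneg_left h3 hε0.le
        _ = ε := mul_one _
    refine ⟨Or.inr h1, h4, ?_⟩
    obtain ⟨s1, s2, s3⟩ := tt_pos h1
    have h5 : ‖tt p (p ^ k • γ)‖ ^ 2 ≤ ε := by
      calc ‖tt p (p ^ k • γ)‖ ^ 2 ≤ ε ^ 2 := pow_le_pow_left₀ (norm_nonneg _) h4 2
        _ ≤ ε := by nlinarith
    have hlt : ‖((ptX R : ℚ) : ℚ_[p])‖ < ‖((ptX (p ^ k • γ) : ℚ) : ℚ_[p])‖ := by
      by_contra hcon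
      push Not at hcon
      have h6 : (1 : ℝ) ≤ ε * M :=
        s3.symm.le.trans (mul_le_mul h5 (hcon.trans hx) (norm_nonneg _) hε0.le)
      linarith
    refine (dens_translate hR0 h1 hM1 hx hy hlt).trans ?_
    exact mul_le_mul_of_nonneg_left (pow_le_pow_left₀ (norm_nonneg _) h4 2) (by positivity)

/-- The relation between the coordinates of the directions along which `F` vanishes. -/
lemma dens_rel (hp3 : 3 ≤ p) {R : Fin n → (curve a b).Point}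
    (hR : ∀ i, R i ∈ goodGroup p a b) (hR0 : ∀ i, R i ≠ 0) (F : MvPolynomial (Fin n) ℚ)
    (hF0 : MvPolynomial.eval (fun i => ptX (R i)) F = 0) :
    ∃ z : Fin n → ℤ, (∀ i, z i = 0 →
        MvPolynomial.eval (fun i => ptX (R i)) (MvPolynomial.pderiv i F) = 0) ∧
      ∀ γ : Fin n → (curve a b).Point, (∀ i, γ i ∈ goodGroup p a b) →
        (∃ K : ℕ, ∀ k, K ≤ k → MvPolynomial.eval (fun i => ptX (R i + p ^ k • γ i)) F = 0) →
          ∑ i, z i • γ i = 0 := by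
  classical
  set x : Fin n → ℚ := fun i => ptX (R i) with hx
  obtain ⟨N, hN, z, hz⟩ := dens_clear fun i =>
    2 * ptY (R i) * MvPolynomial.eval x (MvPolynomial.pderiv i F)
  refine ⟨z, ?_, ?_⟩
  · intro i h0
    by_contra hne
    have h1 := hz i
    rw [h0, Int.cast_zero] at h1
    have h2 : (N : ℚ) * (2 * ptY (R i) * MvPolynomial.eval x (MvPolynomial.pderiv i F)) ≠ 0 := by
      refine mul_ne_zero (by exact_mod_cast hN) (mul_ne_zero (mul_ne_zero two_ne_zero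
        (dens_ptY_ne (hR i) (hR0 i))) hne)
    exact h2 h1.symm
  rintro γ hγ ⟨K, hF⟩
  by_contra hδ0'
  obtain ⟨δ, hδ⟩ : ∃ δ, δ = ∑ i, z i • γ i := ⟨_, rfl⟩
  have hδ0 : δ ≠ 0 := by rw [hδ]; exact hδ0'
  have hδg : δ ∈ goodGroup p a b := by
    rw [hδ]
    exact sum_mem fun i _ => zsmul_mem (hγ i) _
  have hδk : 1 < ‖((ptX δ : ℚ) : ℚ_[p])‖ := (hδg.resolve_left hδ0).1
  have hγk : ∀ i, Ker p (γ i) := fun i => Ker.of_good (hγ i)
  -- constants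
  have hp0 : (0 : ℝ) < p := by exact_mod_cast hp.out.pos
  have hp1 : (1 : ℝ) < p := by exact_mod_cast hp.out.one_lt
  obtain ⟨M, hM⟩ : ∃ M : ℝ, M = 1 + ∑ i, (‖((ptX (R i) : ℚ) : ℚ_[p])‖ +
      ‖((ptY (R i) : ℚ) : ℚ_[p])‖) := ⟨_, rfl⟩
  have hM1 : 1 ≤ M := by
    rw [hM]
    have : 0 ≤ ∑ i, (‖((ptX (R i) : ℚ) : ℚ_[p])‖ + ‖((ptY (R i) : ℚ) : ℚ_[p])‖) :=
      Finset.sum_nonneg fun i _ => add_nonneg (norm_nonneg _) (norm_nonneg _)
    linarith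
  have hMi : ∀ i, ‖((ptX (R i) : ℚ) : ℚ_[p])‖ + ‖((ptY (R i) : ℚ) : ℚ_[p])‖ ≤ M := by
    intro i
    rw [hM]
    have := Finset.single_le_sum (f := fun i => ‖((ptX (R i) : ℚ) : ℚ_[p])‖ +
      ‖((ptY (R i) : ℚ) : ℚ_[p])‖) (fun i _ => add_nonneg (norm_nonneg _) (norm_nonneg _))
      (Finset.mem_univ i)
    linarith
  have hMx : ∀ i, ‖((ptX (R i) : ℚ) : ℚ_[p])‖ ≤ M := fun i => by
    have := hMi i
    have := norm_nonneg ((ptY (R i) : ℚ) : ℚ_[p])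
    linarith
  have hMy : ∀ i, ‖((ptY (R i) : ℚ) : ℚ_[p])‖ ≤ M := fun i => by
    have := hMi i
    have := norm_nonneg ((ptX (R i) : ℚ) : ℚ_[p])
    linarith
  obtain ⟨C, hC0, hC⟩ := dens_taylor (p := p) (F.map (algebraMap ℚ ℚ_[p]))
    (fun i => (x i : ℚ_[p]))
  have hev := fun (G : MvPolynomial (Fin n) ℚ) (v : Fin n → ℚ) => dens_eval_map (p := p) G v
  obtain ⟨E, hE⟩ : ∃ E : ℝ, E = ∑ i, ‖((MvPolynomial.eval x (MvPolynomial.pderiv i F) : ℚ) :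
      ℚ_[p])‖ := ⟨_, rfl⟩
  have hE0 : 0 ≤ E := by rw [hE]; exact Finset.sum_nonneg fun _ _ => norm_nonneg _
  -- the bound
  have hkey : ∀ k : ℕ, K ≤ k → M ^ 3 * ((p : ℝ)⁻¹) ^ k ≤ 1 → M * ((p : ℝ)⁻¹) ^ k < 1 →
      ((p : ℝ)⁻¹) ^ k * ‖tt p δ‖ ≤ (C * M ^ 6 + E * M ^ 3 + 1) * (((p : ℝ)⁻¹) ^ k) ^ 2 := by
    intro k hKk hk1 hk2
    obtain ⟨ε, hε⟩ : ∃ ε : ℝ, ε = ((p : ℝ)⁻¹) ^ k := ⟨_, rfl⟩
    have hε0 : 0 < ε := by rw [hε]; positivity
    have hε1 : ε ≤ 1 := by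
      rw [hε]
      exact pow_le_one₀ (by positivity) (inv_le_one_of_one_le₀ hp1.le)
    rw [← hε] at hk1 hk2 ⊢
    have hinc := fun i => dens_incr hp3 (hR0 i) (hγk i) hM1 (hMx i) (hMy i) hε hk2
    -- the increments
    set d : Fin n → ℚ_[p] := fun i =>
      ((ptX (R i + p ^ k • γ i) : ℚ) : ℚ_[p]) - ((ptX (R i) : ℚ) : ℚ_[p]) with hd
    have hdi : ∀ i, ‖d i + 2 * ((ptY (R i) : ℚ) : ℚ_[p]) * tt p (p ^ k • γ i)‖ ≤
        M ^ 3 * ε ^ 2 := fun i => (hinc i).2.2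
    have h2n : ‖(2 : ℚ_[p])‖ ≤ 1 := by exact_mod_cast Padic.norm_int_le_one (p := p) 2
    have hM3 : M ≤ M ^ 3 := by
      calc M = M * 1 := (mul_one _).symm
        _ ≤ M * M ^ 2 := mul_le_mul_of_nonneg_left (one_le_pow₀ hM1) (by linarith)
        _ = M ^ 3 := by ring
    have hdn : ∀ i, ‖d i‖ ≤ M ^ 3 * ε := by
      intro i
      have e : d i = (d i + 2 * ((ptY (R i) : ℚ) : ℚ_[p]) * tt p (p ^ k • γ i)) -
          2 * ((ptY (R i) : ℚ) : ℚ_[p]) * tt p (p ^ k • γ i) := by ring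
      rw [e, sub_eq_add_neg]
      refine (Padic.nonarchimedean _ _).trans (max_le ((hdi i).trans ?_) ?_)
      · apply mul_le_mul_of_nonneg_left _ (by positivity)
        nlinarith
      · rw [norm_neg, norm_mul, norm_mul]
        have h1 : ‖(2 : ℚ_[p])‖ * ‖((ptY (R i) : ℚ) : ℚ_[p])‖ ≤ M ^ 3 := by
          have := mul_le_mul h2n (hMy i) (norm_nonneg _) zero_le_one
          linarith
        exact mul_le_mul h1 (hinc i).2.1 (norm_nonneg _) (by positivity)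
    have hT := hC d (M ^ 3 * ε) (by positivity) hk1 hdn
    have e1 : (fun i => (x i : ℚ_[p])) + d = fun i =>
        (((fun i => ptX (R i + p ^ k • γ i)) i : ℚ) : ℚ_[p]) := by
      funext i
      simp only [Pi.add_apply, hd, hx]
      ring
    rw [e1, hev, hev, hF k hKk, hF0, Rat.cast_zero, sub_zero, zero_sub, norm_neg] at hT
    have e2 : ∀ i, MvPolynomial.eval (fun i => (x i : ℚ_[p]))
        (MvPolynomial.pderiv i (F.map (algebraMap ℚ ℚ_[p]))) =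
        ((MvPolynomial.eval x (MvPolynomial.pderiv i F) : ℚ) : ℚ_[p]) := by
      intro i
      rw [MvPolynomial.pderiv_map, hev]
    rw [Finset.sum_congr rfl fun i _ => by rw [e2 i]] at hT
    -- replace the increments by the parameters
    set S : ℚ_[p] := ∑ i, ((MvPolynomial.eval x (MvPolynomial.pderiv i F) : ℚ) : ℚ_[p]) * d i
      with hS
    set S' : ℚ_[p] := ∑ i, ((MvPolynomial.eval x (MvPolynomial.pderiv i F) : ℚ) : ℚ_[p]) *
      (2 * ((ptY (R i) : ℚ) : ℚ_[p]) * tt p (p ^ k • γ i)) with hS'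
    have hSS : ‖S + S'‖ ≤ E * (M ^ 3 * ε ^ 2) := by
      rw [hS, hS', ← Finset.sum_add_distrib, hE, Finset.sum_mul]
      refine (norm_sum_le _ _).trans (Finset.sum_le_sum fun i _ => ?_)
      rw [← mul_add, norm_mul]
      exact mul_le_mul_of_nonneg_left (hdi i) (norm_nonneg _)
    have hS'n : ‖S'‖ ≤ C * M ^ 6 * ε ^ 2 + E * M ^ 3 * ε ^ 2 := by
      have e : S' = (S + S') - S := by ring
      rw [e]
      refine (norm_sub_le _ _).trans ?_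
      calc ‖S + S'‖ + ‖S‖ ≤ E * (M ^ 3 * ε ^ 2) + C * (M ^ 3 * ε) ^ 2 := add_le_add hSS hT
        _ = _ := by ring
    -- the integer combination of the parameters
    have e3 : ∑ i, (z i : ℚ_[p]) * tt p (p ^ k • γ i) = (N : ℚ_[p]) * S' := by
      rw [hS', Finset.mul_sum]
      refine Finset.sum_congr rfl fun i _ => ?_
      have h1 := congrArg (fun q : ℚ => (q : ℚ_[p])) (hz i)
      push_cast at h1
      rw [h1]
      ring
    obtain ⟨-, -, c3⟩ := dens_sum Finset.univ z (fun i => (hinc i).1) hε0.le hε1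
      fun i => (hinc i).2.1
    have e4 : ∑ i, z i • (p ^ k • γ i) = p ^ k • δ := by
      rw [hδ, ← natCast_zsmul (∑ i, z i • γ i), Finset.smul_sum]
      refine Finset.sum_congr rfl fun i _ => ?_
      rw [← natCast_zsmul (γ i), smul_smul, smul_smul, mul_comm]
    rw [e4, e3] at c3
    have c4 := (dens_scale hp3 hδk k).2
    rw [← hε] at c4
    rw [← c4]
    have e5 : tt p (p ^ k • δ) = (tt p (p ^ k • δ) - (N : ℚ_[p]) * S') + (N : ℚ_[p]) * S' := by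
      ring
    rw [e5]
    refine (norm_add_le _ _).trans ?_
    have hN1 : ‖(N : ℚ_[p])‖ ≤ 1 := Padic.norm_int_le_one N
    have h6 : ‖(N : ℚ_[p]) * S'‖ ≤ C * M ^ 6 * ε ^ 2 + E * M ^ 3 * ε ^ 2 := by
      rw [norm_mul]
      have := mul_le_mul hN1 hS'n (norm_nonneg _) zero_le_one
      linarith
    have h7 : ε ^ 3 ≤ ε ^ 2 := pow_le_pow_of_le_one hε0.le hε1 (by norm_num)
    calc ‖tt p (p ^ k • δ) - (N : ℚ_[p]) * S'‖ + ‖(N : ℚ_[p]) * S'‖ ≤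
        ε ^ 2 + (C * M ^ 6 * ε ^ 2 + E * M ^ 3 * ε ^ 2) := add_le_add (c3.trans h7) h6
      _ = _ := by ring
  -- contradiction
  obtain ⟨t1, -, -⟩ := tt_pos hδk
  obtain ⟨A, hA⟩ : ∃ A : ℝ, A = C * M ^ 6 + E * M ^ 3 + 1 := ⟨_, rfl⟩
  have hA0 : 0 < A := by rw [hA]; positivity
  have hlim : Filter.Tendsto (fun k : ℕ => ((p : ℝ)⁻¹) ^ k) Filter.atTop (nhds 0) :=
    tendsto_pow_atTop_nhds_zero_of_lt_one (by positivity) (inv_lt_one_of_one_lt₀ hp1)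
  have hm : 0 < min (1 / M ^ 3) (min (1 / (2 * M)) (‖tt p δ‖ / (2 * A))) := by
    refine lt_min (by positivity) (lt_min (by positivity) (by positivity))
  obtain ⟨k, hk, hKk⟩ := ((hlim.eventually (gt_mem_nhds hm)).and
    (Filter.eventually_ge_atTop K)).exists
  have hk1 := lt_of_lt_of_le hk (min_le_left _ _)
  have hk2 := lt_of_lt_of_le hk ((min_le_right _ _).trans (min_le_left _ _))
  have hk3 := lt_of_lt_of_le hk ((min_le_right _ _).trans (min_le_right _ _))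
  obtain ⟨ε, hε⟩ : ∃ ε : ℝ, ε = ((p : ℝ)⁻¹) ^ k := ⟨_, rfl⟩
  have hε0 : 0 < ε := by rw [hε]; positivity
  have h1 := hkey k hKk (by
    rw [lt_div_iff₀ (by positivity)] at hk1
    linarith [mul_comm (((p : ℝ)⁻¹) ^ k) (M ^ 3)]) (by
    rw [lt_div_iff₀ (by positivity)] at hk2
    have : 0 < M * ((p : ℝ)⁻¹) ^ k := by positivity
    nlinarith)
  rw [← hε, ← hA] at h1
  rw [← hε, lt_div_iff₀ (by positivity)] at hk3
  have h2 : ‖tt p δ‖ ≤ A * ε := by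
    have h3 : ε * ‖tt p δ‖ ≤ ε * (A * ε) := by
      calc ε * ‖tt p δ‖ ≤ A * ε ^ 2 := h1
        _ = ε * (A * ε) := by ring
    exact le_of_mul_le_mul_left h3 hε0
  nlinarith

end MP3550b5.RG
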