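import Mathlib
import Pool.Agent.Lib.MP_3550b5_nt.RG.Dens
import Pool.Agent.Lib.MP_3550b5_nt.RG.OrbE

/-!
Density of the orbits of a translation with independent coordinates.
-/

namespace MP3550b5.RG

open Pool.Agent.Lib.MP_3550b5_nt WeierstrassCurve.Affine

variable {p : ℕ} [hp : Fact p.Prime] {a b : ℤ} {n : ℕ}

/-- Orbits of translations with independent coordinates are dense. -/
theorem dense_orbit (hp3 : 3 ≤ p) {T : Fin n → (curve a b).Point}
    (hT : ∀ i, T i ∈ goodGroup p a b) {g : Fin n → goodGroup p a b}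
    (hg : ∀ c : Fin n → ℤ, ∑ i, c i • g i = 0 → c = 0) : Dense T g := by
  intro z hz hfin
  apply hz
  obtain ⟨J, hJ⟩ := (Set.not_infinite.1 (not_not.2 hfin)).bddAbove
  have hsh : ∀ j : ℕ, sh T (gc (j • g)) = fun i => T i + j • (((g i : (curve a b).Point)) +
      (g i : (curve a b).Point)) := by
    intro j
    funext i
    simp only [sh, gc, Pi.smul_apply, AddSubgroup.coe_nsmul, nsmul_add]
  refine dens hp3 hT (γ := fun i => (g i : (curve a b).Point) + (g i : (curve a b).Point))
    (fun i => add_mem (g i).2 (g i).2) ?_ z (J + 1) ?_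
  · intro c hc
    have h1 : ∑ i, (c i + c i) • g i = 0 := by
      apply Subtype.ext
      rw [AddSubgroup.coe_zero, ← hc]
      push_cast
      refine Finset.sum_congr rfl fun i _ => ?_
      rw [add_zsmul, zsmul_add]
    have h2 := hg _ h1
    funext i
    have h3 := congrFun h2 i
    simp only [Pi.zero_apply] at h3 ⊢
    omega
  · intro j hj h0
    by_contra hne
    have h1 : j ∈ {j : ℕ | ∃ h : ∀ i, sh T (gc (j • g)) i ≠ 0,
        evB (sh T (gc (j • g))) h z ≠ 0} := by
      have h2 : ∀ (R : Fin n → (curve a b).Point) (e : R = fun i => T i + j •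
          (((g i : (curve a b).Point)) + (g i : (curve a b).Point))),
          ∃ h : ∀ i, R i ≠ 0, evB R h z ≠ 0 := by
        intro R e
        subst e
        exact ⟨h0, hne⟩
      exact h2 _ (hsh j)
    have := hJ h1
    omega

/-- The case of two factors. -/
theorem dense_two (hp3 : 3 ≤ p) {T : Fin 2 → (curve a b).Point}
    (hT : ∀ i, T i ∈ goodGroup p a b) {g : Fin 2 → goodGroup p a b}
    (hg : ∀ c d : ℤ, c • g 0 + d • g 1 = 0 → c = 0 ∧ d = 0) : Dense T g := by
  refine dense_orbit hp3 hT fun c hc => ?_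
  rw [Fin.sum_univ_two] at hc
  obtain ⟨h0, h1⟩ := hg _ _ hc
  funext i
  fin_cases i
  · exact h0
  · exact h1

end MP3550b5.RG
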