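import Pool.Agent.Lib.MP_3550b5_nt.RG.Val
import Pool.Agent.Lib.MP_3550b5_nt.ZE.Eig

/-!
Translations from values and separation, and their extension to a torus bundle.
-/

set_option linter.unusedSectionVars false

namespace MP3550b5.RG

open MP3550b5.ZE

/-- Points with translations. -/
structure Pre (B L K Γ : Type*) [CommRing B] [Field L] [Algebra B L] [Field K]
    [AddCommGroup Γ] where
  /-- the good points -/
  S : Set Γ
  /-- the values -/
  ev : (v : Γ) → v ∈ S → (B →+* K)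
  /-- the translations -/
  t : Γ → (B →+* L)
  val : ∀ v (hv : v ∈ S) u (hvu : v + u ∈ S) (b : B), Val (ev v hv) (t u b) (ev (v + u) hvu b)
  sep : ∀ (U : Finset Γ) (b : B), (∀ v (hv : v ∈ S), (∀ u ∈ U, v + u ∈ S) → ev v hv b = 0) → b = 0

namespace Pre

variable {B L K Γ : Type*} [CommRing B] [IsDomain B] [Field L] [Algebra B L] [IsFractionRing B L]
  [Field K] [AddCommGroup Γ] (𝔓 : Pre B L K Γ)

theorem ev_congr {v v' : Γ} (h : v = v') (hv : v ∈ 𝔓.S) (hv' : v' ∈ 𝔓.S) :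
    𝔓.ev v hv = 𝔓.ev v' hv' := by
  subst h
  rfl

/-- Elements of the function field with the same values agree. -/
theorem eqL {z z' : L} (U : Finset Γ) (h : ∀ v (hv : v ∈ 𝔓.S), (∀ u ∈ U, v + u ∈ 𝔓.S) →
    ∃ c, Val (𝔓.ev v hv) z c ∧ Val (𝔓.ev v hv) z' c) : z = z' := by
  refine eq_of_val (A := B) (K := K) (ι := {v // v ∈ 𝔓.S}) (ev := fun v => 𝔓.ev v.1 v.2)
    (S := {v | ∀ u ∈ U, v.1 + u ∈ 𝔓.S}) ?_ ?_
  · intro b hb
    exact 𝔓.sep U b fun v hv hvU => hb ⟨v, hv⟩ hvU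
  · intro v hv
    exact h v.1 v.2 hv

theorem exists_good (U : Finset Γ) : ∃ v ∈ 𝔓.S, ∀ u ∈ U, v + u ∈ 𝔓.S := by
  by_contra hcon
  push Not at hcon
  apply one_ne_zero (α := B)
  apply 𝔓.sep U
  intro v hv hvU
  obtain ⟨u, hu, hu'⟩ := hcon v hv
  exact absurd (hvU u hu) hu'

theorem t_injective (u : Γ) : Function.Injective (𝔓.t u) := by
  rw [injective_iff_map_eq_zero]
  intro b hb
  apply 𝔓.sep {-u}
  intro v hv hvU
  have h1 : v + -u ∈ 𝔓.S := hvU (-u) (Finset.mem_singleton_self _)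
  have h2 : v + -u + u ∈ 𝔓.S := by rwa [neg_add_cancel_right]
  have h3 := 𝔓.val (v + -u) h1 u h2 b
  rw [hb] at h3
  rw [𝔓.ev_congr (neg_add_cancel_right v u).symm hv h2]
  exact (Val.unique h3 Val.zero)

/-- The extension to the field of fractions. -/
noncomputable def tL (u : Γ) : L →+* L := IsFractionRing.lift (𝔓.t_injective u)

@[simp] theorem tL_alg (u : Γ) (b : B) : 𝔓.tL u (algebraMap B L b) = 𝔓.t u b :=
  IsFractionRing.lift_algebraMap _ b

theorem valL {v u : Γ} (hv : v ∈ 𝔓.S) (hvu : v + u ∈ 𝔓.S) {z : L} {c : K}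
    (h : Val (𝔓.ev (v + u) hvu) z c) : Val (𝔓.ev v hv) (𝔓.tL u z) c := by
  obtain ⟨x, y, hy, hz, hx⟩ := h
  have h1 := 𝔓.val v hv u hvu x
  have h2 := 𝔓.val v hv u hvu y
  have h3 := h1.div h2 hy
  have h4 : 𝔓.t u y ≠ 0 := h2.ne_zero hy
  have h5 : 𝔓.t u x / 𝔓.t u y = 𝔓.tL u z := by
    rw [div_eq_iff h4, ← 𝔓.tL_alg, ← 𝔓.tL_alg, ← map_mul, hz]
  rw [h5, hx, mul_div_cancel_right₀ _ hy] at h3
  exact h3

theorem homL_ext {f g : L →+* L} (h : ∀ b : B, f (algebraMap B L b) = g (algebraMap B L b))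
    (z : L) : f z = g z := by
  obtain ⟨x, y, -, rfl⟩ := IsFractionRing.div_surjective (A := B) z
  rw [map_div₀, map_div₀, h, h]

theorem tL_zero (z : L) : 𝔓.tL 0 z = z := by
  refine homL_ext (B := B) (f := 𝔓.tL 0) (g := RingHom.id L) ?_ z
  intro b
  rw [tL_alg]
  refine 𝔓.eqL ∅ fun v hv _ => ?_
  have hv0 : v + 0 ∈ 𝔓.S := by rwa [add_zero]
  refine ⟨_, 𝔓.val v hv 0 hv0 b, ?_⟩
  rw [𝔓.ev_congr (add_zero v) hv0 hv]
  exact Val.alg b

theorem tL_add (u u' : Γ) (z : L) : 𝔓.tL (u + u') z = 𝔓.tL u (𝔓.tL u' z) := by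
  classical
  refine homL_ext (B := B) (f := 𝔓.tL (u + u')) (g := (𝔓.tL u).comp (𝔓.tL u')) ?_ z
  intro b
  rw [RingHom.comp_apply, tL_alg, tL_alg]
  refine 𝔓.eqL {u, u + u'} fun v hv hU => ?_
  have h1 : v + u ∈ 𝔓.S := hU u (by simp)
  have h2 : v + (u + u') ∈ 𝔓.S := hU (u + u') (by simp)
  have h3 : v + u + u' ∈ 𝔓.S := by rwa [add_assoc]
  refine ⟨_, 𝔓.val v hv (u + u') h2 b, ?_⟩
  rw [𝔓.ev_congr (add_assoc v u u').symm h2 h3]
  exact 𝔓.valL hv h1 (𝔓.val (v + u) h1 u' h3 b)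

end Pre

/-- A cocycle given by its values. -/
structure Coc {B L K Γ : Type*} [CommRing B] [Field L] [Algebra B L] [Field K]
    [AddCommGroup Γ] (𝔓 : Pre B L K Γ) (σ : Type*) where
  /-- the fibre coordinates of the points -/
  w : Γ → σ → K
  hw : ∀ v ∈ 𝔓.S, ∀ k, w v k ≠ 0
  /-- the cocycle -/
  c : Γ → σ → L
  hc : ∀ v (hv : v ∈ 𝔓.S) u, v + u ∈ 𝔓.S → ∀ k, Val (𝔓.ev v hv) (c u k) (w (v + u) k / w v k)

namespace Coc

variable {B L K Γ σ F : Type*} [CommRing B] [IsDomain B] [Field L] [Algebra B L]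
  [IsFractionRing B L] [Field K] [AddCommGroup Γ] {𝔓 : Pre B L K Γ} (𝔔 : Coc 𝔓 σ)

theorem c_ne_zero (u : Γ) (k : σ) : 𝔔.c u k ≠ 0 := by
  obtain ⟨v, hv, hvu⟩ := 𝔓.exists_good {u}
  have h1 := hvu u (Finset.mem_singleton_self _)
  exact (𝔔.hc v hv u h1 k).ne_zero (div_ne_zero (𝔔.hw _ h1 k) (𝔔.hw v hv k))

theorem c_zero (k : σ) : 𝔔.c 0 k = 1 := by
  refine 𝔓.eqL ∅ fun v hv _ => ?_
  have hv0 : v + 0 ∈ 𝔓.S := by rwa [add_zero]
  have h1 := 𝔔.hc v hv 0 hv0 k
  rw [add_zero, div_self (𝔔.hw v hv k)] at h1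
  exact ⟨1, h1, Val.one⟩

theorem c_add (u u' : Γ) (k : σ) : 𝔔.c (u + u') k = 𝔓.tL u (𝔔.c u' k) * 𝔔.c u k := by
  classical
  refine 𝔓.eqL {u, u + u'} fun v hv hU => ?_
  have h1 : v + u ∈ 𝔓.S := hU u (by simp)
  have h2 : v + (u + u') ∈ 𝔓.S := hU (u + u') (by simp)
  have h3 : v + u + u' ∈ 𝔓.S := by rwa [add_assoc]
  refine ⟨_, 𝔔.hc v hv (u + u') h2 k, ?_⟩
  have h4 := (𝔓.valL hv h1 (𝔔.hc (v + u) h1 u' h3 k)).mul (𝔔.hc v hv u h1 k)
  have h5 : 𝔔.w (v + u + u') k / 𝔔.w (v + u) k * (𝔔.w (v + u) k / 𝔔.w v k) =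
      𝔔.w (v + (u + u')) k / 𝔔.w v k := by
    rw [add_assoc]
    have := 𝔔.hw (v + u) h1 k
    have := 𝔔.hw v hv k
    field_simp
  rwa [h5] at h4

open MvPolynomial

/-- The value of a function on the torus bundle. -/
noncomputable def evA (v : Γ) (hv : v ∈ 𝔓.S) : MvPolynomial σ B →+* K :=
  eval₂Hom (𝔓.ev v hv) (𝔔.w v)

@[simp] theorem evA_C (v : Γ) (hv : v ∈ 𝔓.S) (b : B) : 𝔔.evA v hv (C b) = 𝔓.ev v hv b := by
  rw [evA, coe_eval₂Hom, eval₂_C]

@[simp] theorem evA_X (v : Γ) (hv : v ∈ 𝔓.S) (k : σ) : 𝔔.evA v hv (X k) = 𝔔.w v k := by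
  rw [evA, coe_eval₂Hom, eval₂_X]

theorem evA_congr {v v' : Γ} (h : v = v') (hv : v ∈ 𝔓.S) (hv' : v' ∈ 𝔓.S) :
    𝔔.evA v hv = 𝔔.evA v' hv' := by
  subst h
  rfl

variable [Field F] [Algebra (MvPolynomial σ B) F] [IsFractionRing (MvPolynomial σ B) F]
  [Algebra L F] [Algebra B F] [IsScalarTower B (MvPolynomial σ B) F] [IsScalarTower B L F]

/-- The translation on the torus bundle. -/
noncomputable def tA (F : Type*) [Field F] [Algebra (MvPolynomial σ B) F]
    [IsFractionRing (MvPolynomial σ B) F] [Algebra L F] [Algebra B F]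
    [IsScalarTower B (MvPolynomial σ B) F] [IsScalarTower B L F] (u : Γ) :
    MvPolynomial σ B →+* F :=
  eval₂Hom ((algebraMap L F).comp (𝔓.t u))
    (fun k => algebraMap L F (𝔔.c u k) * algebraMap (MvPolynomial σ B) F (X k))

@[simp] theorem tA_C (u : Γ) (b : B) : 𝔔.tA F u (C b) = algebraMap L F (𝔓.t u b) := by
  rw [tA, coe_eval₂Hom, eval₂_C, RingHom.comp_apply]

@[simp] theorem tA_X (u : Γ) (k : σ) : 𝔔.tA F u (X k) =
    algebraMap L F (𝔔.c u k) * algebraMap (MvPolynomial σ B) F (X k) := by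
  rw [tA, coe_eval₂Hom, eval₂_X]

include 𝔔 in
theorem val_up {v : Γ} (hv : v ∈ 𝔓.S) {z : L} {c : K} (h : Val (𝔓.ev v hv) z c) :
    Val (𝔔.evA v hv) (algebraMap L F z) c := by
  obtain ⟨x, y, hy, hz, hx⟩ := h
  refine ⟨C x, C y, ?_, ?_, ?_⟩
  · rwa [evA_C]
  · have h1 : ∀ b : B, algebraMap (MvPolynomial σ B) F (C b) = algebraMap L F (algebraMap B L b) := by
      intro b
      rw [← MvPolynomial.algebraMap_eq, ← IsScalarTower.algebraMap_apply B (MvPolynomial σ B) F,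
        ← IsScalarTower.algebraMap_apply B L F]
    rw [h1, h1, ← map_mul, hz]
  · rw [evA_C, evA_C, hx]

theorem valA {v u : Γ} (hv : v ∈ 𝔓.S) (hvu : v + u ∈ 𝔓.S) (a : MvPolynomial σ B) :
    Val (𝔔.evA v hv) (𝔔.tA F u a) (𝔔.evA (v + u) hvu a) := by
  induction a using MvPolynomial.induction_on with
  | C b =>
    rw [tA_C, evA_C]
    exact 𝔔.val_up hv (𝔓.val v hv u hvu b)
  | add p q hp hq =>
    rw [map_add, map_add]
    exact hp.add hq
  | mul_X p k hp =>
    rw [map_mul, map_mul, tA_X, evA_X]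
    have h1 := (𝔔.val_up (F := F) hv (𝔔.hc v hv u hvu k)).mul
      (Val.alg (F := F) (ev := 𝔔.evA v hv) (X k))
    rw [evA_X, div_mul_cancel₀ _ (𝔔.hw v hv k)] at h1
    exact hp.mul h1

theorem tA_injective (u : Γ) : Function.Injective (𝔔.tA F u) := by
  classical
  rw [injective_iff_map_eq_zero]
  intro a ha
  -- the coefficients
  set q : (σ →₀ ℕ) → L := fun k => 𝔓.t u (coeff k a) * k.prod fun i e => 𝔔.c u i ^ e with hq
  have hsum : 𝔔.tA F u a = ∑ k ∈ a.support,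
      algebraMap L F (q k) * algebraMap (MvPolynomial σ B) F (monomial k 1) := by
    rw [tA, coe_eval₂Hom, eval₂_eq]
    refine Finset.sum_congr rfl fun k _ => ?_
    rw [hq, map_mul, RingHom.comp_apply, mul_assoc]
    congr 1
    rw [Finset.prod_congr rfl fun i _ => mul_pow _ _ _, Finset.prod_mul_distrib]
    congr 1
    · rw [Finsupp.prod, map_prod]
      exact Finset.prod_congr rfl fun i _ => (map_pow _ _ _).symm
    · rw [monomial_eq, C_1, one_mul, Finsupp.prod, map_prod]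
      exact Finset.prod_congr rfl fun i _ => (map_pow _ _ _).symm
  obtain ⟨d, hd⟩ := IsLocalization.exist_integer_multiples_of_finset (nonZeroDivisors B)
    (a.support.image q)
  have hd0 : (d : B) ≠ 0 := nonZeroDivisors.ne_zero d.2
  have hex : ∀ k, ∃ b : B, k ∈ a.support → algebraMap B L b = algebraMap B L (d : B) * q k := by
    intro k
    by_cases hk : k ∈ a.support
    · obtain ⟨b, hb⟩ := hd (q k) (Finset.mem_image_of_mem q hk)
      refine ⟨b, fun _ => ?_⟩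
      rw [hb, Algebra.smul_def]
    · exact ⟨0, fun h => absurd h hk⟩
  choose b hb using hex
  have hBL : ∀ y : B, algebraMap (MvPolynomial σ B) F (C y) = algebraMap L F (algebraMap B L y) := by
    intro y
    rw [← MvPolynomial.algebraMap_eq, ← IsScalarTower.algebraMap_apply B (MvPolynomial σ B) F,
      ← IsScalarTower.algebraMap_apply B L F]
  have h1 : algebraMap (MvPolynomial σ B) F (∑ k ∈ a.support, monomial k (b k)) =
      algebraMap L F (algebraMap B L (d : B)) * 𝔔.tA F u a := by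
    rw [hsum, map_sum, Finset.mul_sum]
    refine Finset.sum_congr rfl fun k hk => ?_
    have h2 : (monomial k (b k) : MvPolynomial σ B) = C (b k) * monomial k 1 := by
      rw [C_mul_monomial, mul_one]
    rw [h2, map_mul, hBL, hb k hk, map_mul, mul_assoc]
  rw [ha, mul_zero] at h1
  have h2 : (∑ k ∈ a.support, monomial k (b k) : MvPolynomial σ B) = 0 :=
    IsFractionRing.injective (MvPolynomial σ B) F (by rw [h1, map_zero])
  ext k
  rw [coeff_zero]
  by_contra hk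
  have hks : k ∈ a.support := mem_support_iff.2 hk
  have h3 := congrArg (coeff k) h2
  rw [coeff_sum, coeff_zero, Finset.sum_eq_single k] at h3
  · rw [coeff_monomial, if_pos rfl] at h3
    have h4 := hb k hks
    rw [h3, map_zero] at h4
    have h5 : algebraMap B L (d : B) ≠ 0 := by
      intro h
      exact hd0 (IsFractionRing.injective B L (by rw [h, map_zero]))
    have h6 := (mul_eq_zero.1 h4.symm).resolve_left h5
    rw [hq] at h6
    rcases mul_eq_zero.1 h6 with h7 | h7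
    · exact hk (𝔓.t_injective u (by rw [h7, map_zero]))
    · rw [Finsupp.prod, Finset.prod_eq_zero_iff] at h7
      obtain ⟨i, -, hi⟩ := h7
      exact pow_ne_zero _ (𝔔.c_ne_zero u i) hi
  · intro j _ hj
    rw [coeff_monomial, if_neg hj]
  · intro h
    exact absurd hks h

/-- The translation on the function field of the torus bundle. -/
noncomputable def tF (F : Type*) [Field F] [Algebra (MvPolynomial σ B) F]
    [IsFractionRing (MvPolynomial σ B) F] [Algebra L F] [Algebra B F]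
    [IsScalarTower B (MvPolynomial σ B) F] [IsScalarTower B L F] (u : Γ) : F →+* F :=
  IsFractionRing.lift (𝔔.tA_injective (F := F) u)

@[simp] theorem tF_alg (u : Γ) (a : MvPolynomial σ B) :
    𝔔.tF F u (algebraMap (MvPolynomial σ B) F a) = 𝔔.tA F u a :=
  IsFractionRing.lift_algebraMap _ a

theorem tF_L (u : Γ) (z : L) : 𝔔.tF F u (algebraMap L F z) = algebraMap L F (𝔓.tL u z) := by
  obtain ⟨x, y, -, rfl⟩ := IsFractionRing.div_surjective (A := B) z
  have h1 : ∀ b : B, 𝔔.tF F u (algebraMap L F (algebraMap B L b)) =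
      algebraMap L F (𝔓.tL u (algebraMap B L b)) := by
    intro b
    rw [Pre.tL_alg, ← IsScalarTower.algebraMap_apply B L F,
      IsScalarTower.algebraMap_apply B (MvPolynomial σ B) F, tF_alg, MvPolynomial.algebraMap_eq,
      tA_C]
  rw [map_div₀, map_div₀, map_div₀, map_div₀, h1, h1]

theorem homF_ext {f g : F →+* F}
    (hC : ∀ b : B, f (algebraMap L F (algebraMap B L b)) = g (algebraMap L F (algebraMap B L b)))
    (hX : ∀ k : σ, f (algebraMap (MvPolynomial σ B) F (X k)) =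
      g (algebraMap (MvPolynomial σ B) F (X k))) (z : F) : f z = g z := by
  have h1 : f.comp (algebraMap (MvPolynomial σ B) F) = g.comp (algebraMap (MvPolynomial σ B) F) := by
    apply MvPolynomial.ringHom_ext
    · intro b
      rw [RingHom.comp_apply, RingHom.comp_apply, ← MvPolynomial.algebraMap_eq,
        ← IsScalarTower.algebraMap_apply B (MvPolynomial σ B) F, IsScalarTower.algebraMap_apply B L F]
      exact hC b
    · exact hX
  obtain ⟨x, y, -, rfl⟩ := IsFractionRing.div_surjective (A := MvPolynomial σ B) z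
  rw [map_div₀, map_div₀]
  have h2 := fun a => RingHom.congr_fun h1 a
  simp only [RingHom.comp_apply] at h2
  rw [h2, h2]

theorem tF_zero (z : F) : 𝔔.tF F 0 z = z := by
  refine homF_ext (B := B) (L := L) (σ := σ) (f := 𝔔.tF F 0) (g := RingHom.id F) ?_ ?_ z
  · intro b
    rw [tF_L, 𝔓.tL_zero]
    rfl
  · intro k
    rw [tF_alg, tA_X, c_zero, map_one, one_mul]
    rfl

theorem tF_add (u u' : Γ) (z : F) : 𝔔.tF F (u + u') z = 𝔔.tF F u (𝔔.tF F u' z) := by
  refine homF_ext (B := B) (L := L) (σ := σ) (f := 𝔔.tF F (u + u'))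
    (g := (𝔔.tF F u).comp (𝔔.tF F u')) ?_ ?_ z
  · intro b
    rw [RingHom.comp_apply, tF_L, tF_L, tF_L, 𝔓.tL_add]
  · intro k
    rw [RingHom.comp_apply, tF_alg, tA_X, tF_alg, tA_X, map_mul, tF_L, tF_alg, tA_X, c_add,
      map_mul, mul_assoc]

/-- The translation as an automorphism. -/
noncomputable def τF (F : Type*) [Field F] [Algebra (MvPolynomial σ B) F]
    [IsFractionRing (MvPolynomial σ B) F] [Algebra L F] [Algebra B F]
    [IsScalarTower B (MvPolynomial σ B) F] [IsScalarTower B L F] (u : Γ) : F ≃+* F :=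
  RingEquiv.ofRingHom (𝔔.tF F u) (𝔔.tF F (-u))
    (by
      ext z
      rw [RingHom.comp_apply, ← tF_add, add_neg_cancel, tF_zero]
      rfl)
    (by
      ext z
      rw [RingHom.comp_apply, ← tF_add, neg_add_cancel, tF_zero]
      rfl)

@[simp] theorem τF_apply (u : Γ) (z : F) : 𝔔.τF F u z = 𝔔.tF F u z := rfl

theorem mem_Loc_of_val {A K' F' : Type*} [CommRing A] [Field K'] [Field F'] [Algebra A F']
    {ev : A →+* K'} {z : F'} {c : K'} (h : Val ev z c) : z ∈ Loc F' (RingHom.ker ev) := by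
  obtain ⟨x, y, hy, hz, -⟩ := h
  exact ⟨x, y, fun h' => hy ((RingHom.mem_ker).1 h'), hz⟩

theorem mem_MLoc_iff_val {A K' F' : Type*} [CommRing A] [IsDomain A] [Field K'] [Field F']
    [Algebra A F'] [IsFractionRing A F'] {ev : A →+* K'} {z : F'} {c : K'} (h : Val ev z c) :
    z ∈ MLoc F' (RingHom.ker ev) ↔ c = 0 := by
  constructor
  · rintro ⟨x, y, hx, hy, hz⟩
    refine h.unique ⟨x, y, fun h' => hy (RingHom.mem_ker.2 h'), hz, ?_⟩
    rw [RingHom.mem_ker.1 hx, zero_mul]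
  · rintro rfl
    obtain ⟨x, y, hy, hz, hx⟩ := h
    rw [zero_mul] at hx
    exact ⟨x, y, RingHom.mem_ker.2 hx, fun h' => hy (RingHom.mem_ker.1 h'), hz⟩

end Coc

end MP3550b5.RG
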